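import Pool.Agent.H33.AN.Orb
import Pool.Agent.H33.AM.P.R3
import Pool.Agent.H33.AM.P.F1

/-!
# Module X1: kinetic energy and potential: basic facts

* `HG.inv`: `G` is injective by `HG.lo`, finite dimension (`LinearEquiv.ofInjectiveEndo`), or Lax-Milgram.
* `HG.norm_le`: by `HG.symm`, `HG.lo`, `HG.hi` and the Cauchy-Schwarz inequality for `⟪G ·, ·⟫`
  (`⟪G v, w⟫² ≤ ⟪G v, v⟫ ⟪G w, w⟫`, `w = G v`).
* `HV2.grad`: restrict `HV2.der` to the direction `x`.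
* `HV2.perF`, `HV2.pertF`: the gradient of a periodic function is periodic.
* `HV2.shift`: translate the time.
* `field2_lip`: `G'` is bounded, `F` is Lipschitz.
* `exists_flow2`: `flow_of_lipschitz`; the last coordinate of `φ t z` is `z.2.2 + t`.
* `Sol2_of_flow`, `flow_of_Sol2`: `G (-G' (F ..)) = -F ..`.
-/

set_option autoImplicit false

open MeasureTheory
open scoped RealInnerProductSpace

namespace Pool.Agent.H33.AN

open Pool.Agent.H33.AM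

variable {n : ℕ} {G G' : EuclideanSpace ℝ (Fin n) →L[ℝ] EuclideanSpace ℝ (Fin n)} {κ₁ κ₂ : ℝ}
  {V : EuclideanSpace ℝ (Fin n) → ℝ → ℝ}
  {F : EuclideanSpace ℝ (Fin n) → ℝ → EuclideanSpace ℝ (Fin n)}
  {Vt : EuclideanSpace ℝ (Fin n) → ℝ → ℝ} {Tp B : ℝ}

theorem HG.inv (hG : HG G κ₁ κ₂) :
    ∃ G' : EuclideanSpace ℝ (Fin n) →L[ℝ] EuclideanSpace ℝ (Fin n),
      (∀ v, G (G' v) = v) ∧ ∀ v, G' (G v) = v := by
  have hinj : Function.Injective (G : EuclideanSpace ℝ (Fin n) →ₗ[ℝ] EuclideanSpace ℝ (Fin n)) := by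
    rw [← LinearMap.ker_eq_bot, LinearMap.ker_eq_bot']
    intro v hv
    have hv' : G v = 0 := hv
    have h := hG.lo v
    rw [hv', inner_zero_left] at h
    have h2 : ‖v‖ ^ 2 ≤ 0 := by
      by_contra hcon
      rw [not_le] at hcon
      have := mul_pos hG.pos hcon
      linarith
    have h3 : ‖v‖ = 0 := by nlinarith [norm_nonneg v]
    exact norm_eq_zero.1 h3
  have hb : Function.Bijective (G : EuclideanSpace ℝ (Fin n) →ₗ[ℝ] EuclideanSpace ℝ (Fin n)) :=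
    ⟨hinj, LinearMap.injective_iff_surjective.1 hinj⟩
  let e := LinearEquiv.ofBijective (G : EuclideanSpace ℝ (Fin n) →ₗ[ℝ] EuclideanSpace ℝ (Fin n)) hb
  refine ⟨LinearMap.toContinuousLinearMap (e.symm : EuclideanSpace ℝ (Fin n) →ₗ[ℝ]
    EuclideanSpace ℝ (Fin n)), fun v => ?_, fun v => ?_⟩
  · exact e.apply_symm_apply v
  · exact e.symm_apply_apply v

theorem HG.norm_le (hG : HG G κ₁ κ₂) (v : EuclideanSpace ℝ (Fin n)) : ‖G v‖ ≤ κ₂ * ‖v‖ := by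
  have hk := hG.pos₂
  set w := G v with hw
  have h0 : 0 ≤ ⟪G (v - (1 / κ₂) • w), v - (1 / κ₂) • w⟫ :=
    le_trans (mul_nonneg hG.pos.le (sq_nonneg _)) (hG.lo _)
  have h1 : ⟪G (v - (1 / κ₂) • w), v - (1 / κ₂) • w⟫ =
      ⟪G v, v⟫ - 2 * (1 / κ₂) * ‖w‖ ^ 2 + (1 / κ₂) ^ 2 * ⟪G w, w⟫ := by
    have e1 : ⟪G w, v⟫ = ‖w‖ ^ 2 := by
      rw [hG.symm w v, ← hw, real_inner_self_eq_norm_sq]
    have e2 : ⟪G v, w⟫ = ‖w‖ ^ 2 := by
      rw [← hw, real_inner_self_eq_norm_sq]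
    rw [map_sub, map_smul, inner_sub_left, inner_sub_right, inner_sub_right, real_inner_smul_left,
      real_inner_smul_left, real_inner_smul_right, real_inner_smul_right, e1, e2]
    ring
  have h2 := hG.hi w
  have h3 := hG.hi v
  have h4 : (1 / κ₂) ^ 2 * ⟪G w, w⟫ ≤ (1 / κ₂) * ‖w‖ ^ 2 := by
    calc (1 / κ₂) ^ 2 * ⟪G w, w⟫ ≤ (1 / κ₂) ^ 2 * (κ₂ * ‖w‖ ^ 2) :=
          mul_le_mul_of_nonneg_left h2 (sq_nonneg _)
      _ = (1 / κ₂) * ‖w‖ ^ 2 := by field_simp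
  have h5 : (1 / κ₂) * ‖w‖ ^ 2 ≤ κ₂ * ‖v‖ ^ 2 := by
    rw [h1] at h0
    linarith
  have h6 : ‖w‖ ^ 2 ≤ (κ₂ * ‖v‖) ^ 2 := by
    have h7 : κ₂ * ((1 / κ₂) * ‖w‖ ^ 2) ≤ κ₂ * (κ₂ * ‖v‖ ^ 2) := mul_le_mul_of_nonneg_left h5 hk.le
    have h8 : κ₂ * ((1 / κ₂) * ‖w‖ ^ 2) = ‖w‖ ^ 2 := by field_simp
    rw [h8] at h7
    calc ‖w‖ ^ 2 ≤ κ₂ * (κ₂ * ‖v‖ ^ 2) := h7
      _ = (κ₂ * ‖v‖) ^ 2 := by ring
  exact le_of_sq_le_sq h6 (mul_nonneg hk.le (norm_nonneg v))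

end Pool.Agent.H33.AN
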