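import Pool.Agent.H33.AN.Orb
import Pool.Agent.H33.AM.P.R3
import Pool.Agent.H33.AM.P.F1
import Pool.Agent.H33.AN.P.X1a

/-!
# Module X1: kinetic energy and potential: basic facts

* `HG.inv`: `G` is injective by `HG.lo`, finite dimension (`LinearEquiv.ofInjectiveEndo`), or Lax-Milgram.
* `HG.norm_le`: by `HG.symm`, `HG.lo`, `HG.hi` and the Cauchy-Schwarz inequality for `⟪G ·, ·⟫`
  (`⟪G v, w⟫² ≤ ⟪G v, v⟫ ⟪G w, w⟫`, `w = G v`).
* `HV2.grad`: restrict `HV2.der` to the direction `x`.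
* `HV2.perF`, `HV2.pertF`: the gradient of a periodic function is periodic.
* `HV2.shift`: translate the time.
* `field2_lip`: `G'` is bounded, `F` is Lipschitz.
* `exists_flow2`: `flow_of_lipschitz`; the last coordinate of `φ t z` is `z.2.2 + t`.
* `Sol2_of_flow`, `flow_of_Sol2`: `G (-G' (F ..)) = -F ..`.
-/

set_option autoImplicit false

open MeasureTheory
open scoped RealInnerProductSpace

namespace Pool.Agent.H33.AN

open Pool.Agent.H33.AM

variable {n : ℕ} {G G' : EuclideanSpace ℝ (Fin n) →L[ℝ] EuclideanSpace ℝ (Fin n)} {κ₁ κ₂ : ℝ}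
  {V : EuclideanSpace ℝ (Fin n) → ℝ → ℝ}
  {F : EuclideanSpace ℝ (Fin n) → ℝ → EuclideanSpace ℝ (Fin n)}
  {Vt : EuclideanSpace ℝ (Fin n) → ℝ → ℝ} {Tp B : ℝ}

theorem HV2.cont (hV : HV2 Tp V F Vt B) :
    Continuous fun z : EuclideanSpace ℝ (Fin n) × ℝ => V z.1 z.2 :=
  continuous_iff_continuousAt.2 fun z => (hV.der z.1 z.2).continuousAt

theorem HV2.contF (hV : HV2 Tp V F Vt B) :
    Continuous fun z : EuclideanSpace ℝ (Fin n) × ℝ => F z.1 z.2 := by
  have h : LipschitzWith ⟨2 * B, mul_nonneg zero_le_two hV.nonneg⟩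
      fun z : EuclideanSpace ℝ (Fin n) × ℝ => F z.1 z.2 := by
    apply LipschitzWith.of_dist_le_mul
    intro z z'
    rw [dist_eq_norm]
    refine (hV.lip z.1 z.2 z'.1 z'.2).trans ?_
    have h1 : ‖z.1 - z'.1‖ ≤ dist z z' := by
      rw [← dist_eq_norm]
      exact le_max_left _ _
    have h2 : |z.2 - z'.2| ≤ dist z z' := by
      rw [← Real.dist_eq]
      exact le_max_right _ _
    calc B * (‖z.1 - z'.1‖ + |z.2 - z'.2|) ≤ B * (dist z z' + dist z z') :=
          mul_le_mul_of_nonneg_left (add_le_add h1 h2) hV.nonneg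
      _ = 2 * B * dist z z' := by ring
  exact h.continuous

theorem HV2.grad (hV : HV2 Tp V F Vt B) (x : EuclideanSpace ℝ (Fin n)) (t : ℝ) :
    HasGradientAt (fun y => V y t) (F x t) x := by
  rw [hasGradientAt_iff_hasFDerivAt]
  have h1 : HasFDerivAt (fun y : EuclideanSpace ℝ (Fin n) => (y, t))
      ((ContinuousLinearMap.id ℝ (EuclideanSpace ℝ (Fin n))).prod 0) x :=
    (hasFDerivAt_id x).prodMk (hasFDerivAt_const t x)
  have h2 := (hV.der x t).comp x h1
  have h3 : (((innerSL ℝ (F x t)).comp (ContinuousLinearMap.fst ℝ (EuclideanSpace ℝ (Fin n)) ℝ) +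
      Vt x t • ContinuousLinearMap.snd ℝ (EuclideanSpace ℝ (Fin n)) ℝ)).comp
      ((ContinuousLinearMap.id ℝ (EuclideanSpace ℝ (Fin n))).prod 0) =
      InnerProductSpace.toDual ℝ (EuclideanSpace ℝ (Fin n)) (F x t) := by
    ext v
    simp
  rw [h3] at h2
  exact h2

theorem HV2.perF (hV : HV2 Tp V F Vt B) (x : EuclideanSpace ℝ (Fin n)) (t : ℝ) (k : Fin n → ℤ) :
    F (x + zv k) t = F x t := by
  have h1 := hV.grad x t
  have h2 := hV.grad (x + zv k) t
  rw [hasGradientAt_iff_hasFDerivAt] at h1 h2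
  have h3 : HasFDerivAt (fun y : EuclideanSpace ℝ (Fin n) => y + zv k)
      (ContinuousLinearMap.id ℝ (EuclideanSpace ℝ (Fin n))) x := (hasFDerivAt_id x).add_const _
  have h4 := h2.comp x h3
  have h5 : ((fun y => V y t) ∘ fun y : EuclideanSpace ℝ (Fin n) => y + zv k) =
      fun y => V y t := by
    funext y
    exact hV.per y t k
  rw [h5, ContinuousLinearMap.comp_id] at h4
  exact (InnerProductSpace.toDual ℝ (EuclideanSpace ℝ (Fin n))).injective (h4.unique h1)

theorem HV2.pertF (hV : HV2 Tp V F Vt B) (x : EuclideanSpace ℝ (Fin n)) (t : ℝ) :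
    F x (t + Tp) = F x t := by
  have h1 := hV.grad x t
  have h2 := hV.grad x (t + Tp)
  rw [hasGradientAt_iff_hasFDerivAt] at h1 h2
  have h5 : (fun y => V y (t + Tp)) = fun y => V y t := by
    funext y
    exact hV.pert y t
  rw [h5] at h2
  exact (InnerProductSpace.toDual ℝ (EuclideanSpace ℝ (Fin n))).injective (h2.unique h1)

theorem HV2.shift (hV : HV2 Tp V F Vt B) (s : ℝ) :
    HV2 Tp (fun x t => V x (t + s)) (fun x t => F x (t + s)) (fun x t => Vt x (t + s)) B := by
  refine ⟨hV.nonneg, fun x t => ?_, ?_, fun x t k => hV.per x (t + s) k, fun x t => ?_,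
    fun x t => hV.bd x (t + s), fun x t => hV.bdF x (t + s), fun x t => hV.bdt x (t + s),
    fun x t x' t' => ?_⟩
  · have h1 : HasFDerivAt (fun z : EuclideanSpace ℝ (Fin n) × ℝ => (z.1, z.2 + s))
        ((ContinuousLinearMap.fst ℝ (EuclideanSpace ℝ (Fin n)) ℝ).prod
          (ContinuousLinearMap.snd ℝ (EuclideanSpace ℝ (Fin n)) ℝ)) (x, t) :=
      hasFDerivAt_fst.prodMk (hasFDerivAt_snd.add_const s)
    have h2 := (hV.der x (t + s)).comp (x, t) h1
    have h3 : (((innerSL ℝ (F x (t + s))).comp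
        (ContinuousLinearMap.fst ℝ (EuclideanSpace ℝ (Fin n)) ℝ) +
        Vt x (t + s) • ContinuousLinearMap.snd ℝ (EuclideanSpace ℝ (Fin n)) ℝ)).comp
        ((ContinuousLinearMap.fst ℝ (EuclideanSpace ℝ (Fin n)) ℝ).prod
          (ContinuousLinearMap.snd ℝ (EuclideanSpace ℝ (Fin n)) ℝ)) =
        (innerSL ℝ (F x (t + s))).comp
        (ContinuousLinearMap.fst ℝ (EuclideanSpace ℝ (Fin n)) ℝ) +
        Vt x (t + s) • ContinuousLinearMap.snd ℝ (EuclideanSpace ℝ (Fin n)) ℝ := by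
      ext v <;> simp
    rw [h3] at h2
    exact h2
  · exact hV.contt.comp (continuous_fst.prodMk (continuous_snd.add continuous_const))
  · have := hV.pert x (t + s)
    rw [show t + Tp + s = t + s + Tp by ring]
    exact this
  · have := hV.lip x (t + s) x' (t' + s)
    rwa [show t + s - (t' + s) = t - t' by ring] at this

end Pool.Agent.H33.AN
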