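import Pool.Agent.H33.AN.Orb
import Pool.Agent.H33.AM.P.R3
import Pool.Agent.H33.AM.P.F1
import Pool.Agent.H33.AN.P.X1a
import Pool.Agent.H33.AN.P.X1b

/-!
# Module X1: kinetic energy and potential: basic facts

* `HG.inv`: `G` is injective by `HG.lo`, finite dimension (`LinearEquiv.ofInjectiveEndo`), or Lax-Milgram.
* `HG.norm_le`: by `HG.symm`, `HG.lo`, `HG.hi` and the Cauchy-Schwarz inequality for `⟪G ·, ·⟫`
  (`⟪G v, w⟫² ≤ ⟪G v, v⟫ ⟪G w, w⟫`, `w = G v`).
* `HV2.grad`: restrict `HV2.der` to the direction `x`.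
* `HV2.perF`, `HV2.pertF`: the gradient of a periodic function is periodic.
* `HV2.shift`: translate the time.
* `field2_lip`: `G'` is bounded, `F` is Lipschitz.
* `exists_flow2`: `flow_of_lipschitz`; the last coordinate of `φ t z` is `z.2.2 + t`.
* `Sol2_of_flow`, `flow_of_Sol2`: `G (-G' (F ..)) = -F ..`.
-/

set_option autoImplicit false

open MeasureTheory
open scoped RealInnerProductSpace

namespace Pool.Agent.H33.AN

open Pool.Agent.H33.AM

variable {n : ℕ} {G G' : EuclideanSpace ℝ (Fin n) →L[ℝ] EuclideanSpace ℝ (Fin n)} {κ₁ κ₂ : ℝ}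
  {V : EuclideanSpace ℝ (Fin n) → ℝ → ℝ}
  {F : EuclideanSpace ℝ (Fin n) → ℝ → EuclideanSpace ℝ (Fin n)}
  {Vt : EuclideanSpace ℝ (Fin n) → ℝ → ℝ} {Tp B : ℝ}

theorem field2_lip (hV : HV2 Tp V F Vt B) :
    ∃ K : NNReal, LipschitzWith K (field2 G' F) := by
  have hB := hV.nonneg
  have hK : (0 : ℝ) ≤ 1 + ‖G'‖ * (B * 2) := by positivity
  refine ⟨⟨1 + ‖G'‖ * (B * 2), hK⟩, LipschitzWith.of_dist_le_mul fun z w => ?_⟩
  have h1 : ‖z.1 - w.1‖ ≤ dist z w := by
    rw [dist_eq_norm]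
    exact norm_fst_le (z - w)
  have h2 : ‖z.2.1 - w.2.1‖ ≤ dist z w := by
    rw [dist_eq_norm]
    exact (norm_fst_le (z - w).2).trans (norm_snd_le (z - w))
  have h3 : |z.2.2 - w.2.2| ≤ dist z w := by
    rw [dist_eq_norm, ← Real.norm_eq_abs]
    exact (norm_snd_le (z - w).2).trans (norm_snd_le (z - w))
  have h0 : 0 ≤ dist z w := dist_nonneg
  have h4 : ‖F z.1 z.2.2 - F w.1 w.2.2‖ ≤ B * (2 * dist z w) := by
    refine (hV.lip _ _ _ _).trans ?_
    apply mul_le_mul_of_nonneg_left _ hB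
    linarith
  have h5 : ‖G' (F z.1 z.2.2) - G' (F w.1 w.2.2)‖ ≤ ‖G'‖ * (B * (2 * dist z w)) := by
    rw [← map_sub]
    exact (G'.le_opNorm _).trans (mul_le_mul_of_nonneg_left h4 (norm_nonneg _))
  have h6 : 0 ≤ ‖G'‖ * (B * 2) * dist z w := by positivity
  change dist (field2 G' F z) (field2 G' F w) ≤ (1 + ‖G'‖ * (B * 2)) * dist z w
  unfold field2
  rw [Prod.dist_eq, Prod.dist_eq]
  apply max_le
  · simp only
    rw [dist_eq_norm]
    linarith
  · apply max_le
    · simp only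
      rw [dist_eq_norm, neg_sub_neg, norm_sub_rev]
      linarith
    · simp only [dist_self]
      positivity

theorem exists_flow2 (hV : HV2 Tp V F Vt B) :
    ∃ φ : ℝ → EuclideanSpace ℝ (Fin n) × EuclideanSpace ℝ (Fin n) × ℝ →
      EuclideanSpace ℝ (Fin n) × EuclideanSpace ℝ (Fin n) × ℝ, IsFlow (field2 G' F) φ ∧
      ∀ t z, (φ t z).2.2 = z.2.2 + t := by
  obtain ⟨K, hK⟩ := field2_lip (G' := G') hV
  obtain ⟨φ, hφ⟩ := flow_of_lipschitz hK
  refine ⟨φ, hφ, fun t z => ?_⟩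
  have h1 : ∀ s, HasDerivAt (fun s => (φ s z).2.2 - s) 0 s := by
    intro s
    have h2 : HasDerivAt (fun s => (φ s z).2.2) ((field2 G' F (φ s z)).2.2) s :=
      (hφ.der z s).snd.snd
    have h3 : HasDerivAt (fun s => (φ s z).2.2 - s) ((field2 G' F (φ s z)).2.2 - 1) s :=
      h2.sub (hasDerivAt_id s)
    have h4 : ((field2 G' F (φ s z)).2.2 : ℝ) - 1 = 0 := by
      simp [field2]
    rw [h4] at h3
    exact h3
  have h5 := is_const_of_deriv_eq_zero (fun s => (h1 s).differentiableAt) (fun s => (h1 s).deriv) t 0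
  have h6 : φ 0 z = z := hφ.zero z
  simp only [h6, sub_zero] at h5
  linarith

theorem Sol2_of_flow (hG1 : ∀ v, G (G' v) = v)
    {z : ℝ → EuclideanSpace ℝ (Fin n) × EuclideanSpace ℝ (Fin n) × ℝ}
    (hz : ∀ t, HasDerivAt z (field2 G' F (z t)) t) (ht : ∀ t, (z t).2.2 = t) :
    Sol2 G F (fun t => (z t).1) fun t => (z t).2.1 := by
  have h2 : ∀ t, HasDerivAt (fun t => (z t).2.1) (-G' (F (z t).1 t)) t := by
    intro t
    have h := (hz t).snd.fst
    simp only [field2, ht] at h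
    exact h
  refine ⟨?_, ?_, ?_⟩
  · rw [continuous_iff_continuousAt]
    exact fun t => (h2 t).continuousAt
  · intro t
    have h := (hz t).fst
    simp only [field2] at h
    exact h
  · intro t
    have h := G.hasFDerivAt.comp_hasDerivAt t (h2 t)
    simp only [map_neg, hG1] at h
    exact h

theorem flow_of_Sol2 (hG2 : ∀ v, G' (G v) = v) {γ v : ℝ → EuclideanSpace ℝ (Fin n)}
    (h : Sol2 G F γ v) (t : ℝ) :
    HasDerivAt (fun t => (γ t, v t, t)) (field2 G' F (γ t, v t, t)) t := by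
  have h1 : HasDerivAt v (-G' (F (γ t) t)) t := by
    have h2 := G'.hasFDerivAt.comp_hasDerivAt t (h.el t)
    have h3 : (fun s => G' (G (v s))) = v := funext fun s => hG2 (v s)
    have h4 : (⇑G' ∘ fun s => G (v s)) = v := h3
    rw [h4, map_neg] at h2
    exact h2
  exact (h.der t).prodMk (h1.prodMk (hasDerivAt_id t))

end Pool.Agent.H33.AN
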