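import Pool.Agent.H33.AN.Orb
import Pool.Agent.H33.AN.P.X1
import Pool.Agent.H33.AM.P.I1

/-!
# Module I1: the Euler-Lagrange flow on `𝕋ⁿ × ℝⁿ × 𝕋`

(Compare `Pool/Agent/H33/AM/P/I1b.lean`, `I1c.lean`; `pr_eq_iff`, `pr_repE`, `rep_coe`, `measurable_repE`,
`continuous_pr` are in `Pool/Agent/H33/AM/P/I1a.lean`.)
* `isEL_iff2`: `gradient (fun v => lag2 G V x v t) v = G v` (`HG.symm`), `gradient (fun x => lag2 G V x v t) x
  = -F x t` (`HV2.grad`). So `IsEL` says: `γ` is differentiable and `s ↦ G (deriv γ s)` has the derivative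
  `-F (γ t) t`. Then `G (deriv γ)` is continuous, and `deriv γ = G' (G (deriv γ))` is continuous.
* `exists_ELflow2`: with the flow `φ` of `Y = field2 G' F` (`exists_flow2`) put
  `Φ s (X, v, τ) = (pr (z.1), z.2.1, τ + s)`, `z = φ s (repE X, v, rep τ)`. `Y` is periodic in `x` and `t`, so the
  same formula holds for every lift `(x, t)` of `(X, τ)` (uniqueness of the flow; `V` has the integer
  periods in `t`). Measurability: `repE`, `rep` are measurable, `φ s` and `pr` are continuous. Every solution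
  `Sol2 G F γ v` is a trajectory (`flow_of_Sol2`).
-/

set_option autoImplicit false

open MeasureTheory
open scoped RealInnerProductSpace

namespace Pool.Agent.H33.AN

open Pool.Agent.H33.AM

variable {n : ℕ} {G : EuclideanSpace ℝ (Fin n) →L[ℝ] EuclideanSpace ℝ (Fin n)} {κ₁ κ₂ : ℝ}
  {V : EuclideanSpace ℝ (Fin n) → ℝ → ℝ}
  {F : EuclideanSpace ℝ (Fin n) → ℝ → EuclideanSpace ℝ (Fin n)}
  {Vt : EuclideanSpace ℝ (Fin n) → ℝ → ℝ} {B : ℝ}

private theorem I1a_grad_v (hG : HG G κ₁ κ₂) (x v : EuclideanSpace ℝ (Fin n)) (t : ℝ) :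
    HasGradientAt (fun v => lag2 G V x v t) (G v) v := by
  have h1 : HasFDerivAt (fun v => (⟪G v, v⟫ : ℝ))
      ((2 : ℝ) • InnerProductSpace.toDual ℝ _ (G v)) v := by
    have h2 := (G.hasFDerivAt (x := v)).inner ℝ (hasFDerivAt_id v)
    refine h2.congr_fderiv ?_
    ext u
    have h3 : (⟪G u, v⟫ : ℝ) = ⟪G v, u⟫ := by rw [hG.symm u v, real_inner_comm]
    simp [h3]
    ring
  have h3 : HasFDerivAt (fun v => lag2 G V x v t) (InnerProductSpace.toDual ℝ _ (G v)) v := by
    unfold lag2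
    have h4 := (h1.const_mul (1 / 2 : ℝ)).sub_const (V x t)
    refine (h4.congr_fderiv ?_).congr_of_eventuallyEq (Filter.Eventually.of_forall fun w => ?_)
    · ext u
      simp
    · show ⟪G w, w⟫ / 2 - V x t = 1 / 2 * ⟪G w, w⟫ - V x t
      ring
  rw [hasGradientAt_iff_hasFDerivAt]
  exact h3

private theorem I1a_grad_x (hV : HV2 1 V F Vt B) (x v : EuclideanSpace ℝ (Fin n)) (t : ℝ) :
    HasGradientAt (fun x => lag2 G V x v t) (-F x t) x := by
  have h1 : HasFDerivAt (fun y => V y t) (InnerProductSpace.toDual ℝ _ (F x t)) x :=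
    (hV.grad x t).hasFDerivAt
  have h3 : HasFDerivAt (fun x => lag2 G V x v t) (-InnerProductSpace.toDual ℝ _ (F x t)) x := by
    unfold lag2
    exact h1.const_sub _
  rw [hasGradientAt_iff_hasFDerivAt, map_neg]
  exact h3

theorem isEL_iff2 (hG : HG G κ₁ κ₂) (hV : HV2 1 V F Vt B) (γ : ℝ → EuclideanSpace ℝ (Fin n)) :
    IsEL (lag2 G V) γ ↔ Sol2 G F γ (deriv γ) := by
  have e1 : ∀ x v t, gradient (fun v => lag2 G V x v t) v = G v := fun x v t =>
    (I1a_grad_v hG x v t).gradient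
  have e2 : ∀ x v t, gradient (fun x => lag2 G V x v t) x = -F x t := fun x v t =>
    (I1a_grad_x hV x v t).gradient
  unfold IsEL
  simp only [e1, e2]
  constructor
  · rintro ⟨h1, h2⟩
    refine ⟨?_, fun t => (h1 t).hasDerivAt, h2⟩
    obtain ⟨G', -, hG2⟩ := hG.inv
    have h3 : Continuous fun s => G (deriv γ s) :=
      continuous_iff_continuousAt.2 fun t => (h2 t).continuousAt
    have h8 := G'.continuous.comp h3
    refine h8.congr fun s => ?_
    exact hG2 _
  · intro h
    exact ⟨fun t => (h.der t).differentiableAt, h.el⟩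

end Pool.Agent.H33.AN
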