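import Pool.Agent.H33.AN.Orb
import Pool.Agent.H33.AN.P.X1
import Pool.Agent.H33.AM.P.I1
import Pool.Agent.H33.AN.P.I1a

/-!
# Module I1: the Euler-Lagrange flow on `𝕋ⁿ × ℝⁿ × 𝕋`
-/

set_option autoImplicit false

open MeasureTheory
open scoped RealInnerProductSpace

namespace Pool.Agent.H33.AN

open Pool.Agent.H33.AM

variable {n : ℕ} {G : EuclideanSpace ℝ (Fin n) →L[ℝ] EuclideanSpace ℝ (Fin n)} {κ₁ κ₂ : ℝ}
  {V : EuclideanSpace ℝ (Fin n) → ℝ → ℝ}
  {F : EuclideanSpace ℝ (Fin n) → ℝ → EuclideanSpace ℝ (Fin n)}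
  {Vt : EuclideanSpace ℝ (Fin n) → ℝ → ℝ} {B : ℝ}

private theorem I1b_perZ (hV : HV2 1 V F Vt B) (x : EuclideanSpace ℝ (Fin n)) (t : ℝ) (j : ℤ) :
    F x (t + j) = F x t := by
  have h : Function.Periodic (F x) 1 := fun t => hV.pertF x t
  have h2 := h.int_mul j t
  rw [mul_one] at h2
  exact h2

private theorem I1b_shift (hV : HV2 1 V F Vt B) {γ v : ℝ → EuclideanSpace ℝ (Fin n)}
    (h : Sol2 G F γ v) (k : Fin n → ℤ) (j : ℤ) :
    Sol2 G F (fun t => γ (t - j) + zv k) fun t => v (t - j) where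
  cont := h.cont.comp (continuous_id.sub continuous_const)
  der := fun t => by
    have h1 := h.der (t - j)
    have h2 : HasDerivAt (fun u : ℝ => u - j) 1 t := (hasDerivAt_id t).sub_const (j : ℝ)
    have h3 := (HasDerivAt.scomp t h1 h2).add_const (zv k)
    rw [one_smul] at h3
    exact h3
  el := fun t => by
    have h1 := h.el (t - j)
    have h2 : HasDerivAt (fun u : ℝ => u - j) 1 t := (hasDerivAt_id t).sub_const (j : ℝ)
    have h3 := HasDerivAt.scomp t h1 h2
    rw [one_smul] at h3
    have h4 : F (γ (t - j) + zv k) t = F (γ (t - j)) (t - j) := by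
      rw [hV.perF]
      have := I1b_perZ hV (γ (t - j)) (t - j) j
      rw [sub_add_cancel] at this
      exact this
    rw [h4]
    exact h3

theorem exists_ELflow2 (hG : HG G κ₁ κ₂) (hV : HV2 1 V F Vt B) :
    ∃ Φ : ℝ → Ph n → Ph n, IsELFlow (lag2 G V) Φ ∧ (∀ s, Measurable (Φ s)) ∧
      ∀ (γ v : ℝ → EuclideanSpace ℝ (Fin n)), Sol2 G F γ v → ∀ s t : ℝ,
        Φ s (pr (γ t), v t, (t : UnitAddCircle)) =
          (pr (γ (t + s)), v (t + s), ((t + s : ℝ) : UnitAddCircle)) := by
  obtain ⟨G', hG1, hG2⟩ := hG.inv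
  obtain ⟨φ, hφ, hφt⟩ := exists_flow2 (G' := G') hV
  have hφs : ∀ s, Continuous (φ s) := by
    intro s
    have := hφ.cont.comp (Continuous.prodMk (continuous_const (y := s)) continuous_id)
    exact this
  let Ψ : Ph n → EuclideanSpace ℝ (Fin n) × EuclideanSpace ℝ (Fin n) × ℝ := fun z =>
    (repE z.1, z.2.1, rep z.2.2)
  let Φ : ℝ → Ph n → Ph n := fun s z =>
    (pr (φ s (Ψ z)).1, (φ s (Ψ z)).2.1, z.2.2 + ((s : ℝ) : UnitAddCircle))
  have traj : ∀ (γ v : ℝ → EuclideanSpace ℝ (Fin n)), Sol2 G F γ v → ∀ s t : ℝ,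
        Φ s (pr (γ t), v t, (t : UnitAddCircle)) =
          (pr (γ (t + s)), v (t + s), ((t + s : ℝ) : UnitAddCircle)) := by
    intro γ v h s t
    obtain ⟨k, hk⟩ := (pr_eq_iff (repE (pr (γ t))) (γ t)).1 (pr_repE _)
    obtain ⟨j, hj⟩ : ∃ j : ℤ, rep (t : UnitAddCircle) = t + j := by
      have h1 := rep_coe (t : UnitAddCircle)
      have h2 := (QuotientAddGroup.eq_iff_sub_mem).1 h1
      obtain ⟨j, hj⟩ := AddSubgroup.mem_zmultiples_iff.1 h2
      refine ⟨j, ?_⟩
      simp only [zsmul_eq_mul, mul_one] at hj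
      linarith
    have h' := I1b_shift hV h k j
    have hu := hφ.uniq (fun u => (γ (u - j) + zv k, v (u - j), u))
      (fun u => flow_of_Sol2 hG2 h' u) s (t + j)
    have hΨ : Ψ (pr (γ t), v t, (t : UnitAddCircle)) =
        (γ (t + j - j) + zv k, v (t + j - j), t + j) := by
      simp only [Ψ, hk, hj, add_sub_cancel_right]
    have e1 : s + (t + (j : ℝ)) - j = t + s := by ring
    have hpr : pr (γ (t + s) + zv k) = pr (γ (t + s)) := (pr_eq_iff _ _).2 ⟨k, rfl⟩
    simp only [Φ, hΨ]
    rw [← hu]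
    simp only [e1, hpr]
    rw [AddCircle.coe_add]
  refine ⟨Φ, ?_, ?_, traj⟩
  · intro x v t
    let w : ℝ → EuclideanSpace ℝ (Fin n) × EuclideanSpace ℝ (Fin n) × ℝ := fun u =>
      φ (u - t) (x, v, t)
    have hw : ∀ u, HasDerivAt w (field2 G' F (w u)) u := by
      intro u
      have h1 := hφ.der (x, v, t) (u - t)
      have h2 : HasDerivAt (fun u : ℝ => u - t) 1 u := (hasDerivAt_id u).sub_const t
      have h3 := HasDerivAt.scomp u h1 h2
      rw [one_smul] at h3
      exact h3
    have hwt2 : ∀ u, (w u).2.2 = u := by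
      intro u
      simp only [w, hφt]
      ring
    have hsol := Sol2_of_flow (G := G) hG1 hw hwt2
    have hder : deriv (fun u => (w u).1) = fun u => (w u).2.1 := by
      funext u
      exact (hsol.der u).deriv
    have hwt : w t = (x, v, t) := by
      simp only [w, sub_self]
      exact hφ.zero _
    refine ⟨fun u => (w u).1, ?_, ?_, ?_, ?_⟩
    · rw [isEL_iff2 hG hV, hder]
      exact hsol
    · simp only [hwt]
    · rw [hder]
      simp only [hwt]
    · intro s
      have h1 := traj _ _ hsol s t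
      simp only [hwt] at h1
      rw [hder]
      exact h1
  · intro s
    have hrep : Measurable rep := by
      unfold rep
      exact measurable_subtype_coe.comp (AddCircle.measurableEquivIco (1 : ℝ) 0).measurable
    have hΨm : Measurable Ψ := by
      apply Measurable.prodMk
      · exact measurable_repE.comp measurable_fst
      · apply Measurable.prodMk
        · exact measurable_fst.comp measurable_snd
        · exact hrep.comp (measurable_snd.comp measurable_snd)
    have h1 : Measurable fun z => φ s (Ψ z) := (hφs s).measurable.comp hΨm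
    apply Measurable.prodMk
    · exact continuous_pr.measurable.comp (measurable_fst.comp h1)
    · apply Measurable.prodMk
      · exact measurable_fst.comp (measurable_snd.comp h1)
      · exact (measurable_snd.comp measurable_snd).add_const _

end Pool.Agent.H33.AN
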