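import Pool.Agent.H33.AN.Orb
import Pool.Agent.H33.AN.P.X1
import Pool.Agent.H33.AN.P.I1

/-!
# Module I2: invariant measures

(Compare `Pool/Agent/H33/AM/P/I2a.lean`, `I2b.lean`.)
* `mem_actionValues2`: `μ` = image of the uniform probability measure of `t ∈ [0, T]` under
  `t ↦ (pr (γ t), v t, t)` (continuous, `T`-periodic). It is invariant under the flow `Φ` of
  `exists_ELflow2`: `Φ s` maps the point of `t` to the point of `t + s`; the translation `t ↦ t + s` preserves the
  uniform measure of `ℝ/T ℤ` (`Function.Periodic.intervalIntegral_add_eq`, or use `AddCircle T` with its Haar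
  measure). `Lc L c` at `(pr (γ t), v t, t)` is `lag2 G V (γ t) (v t) t - ⟪c, v t⟫` because of the periodicity
  of `V`; it is bounded on the orbit.
* `actionValues_ge2`: let `μ` be invariant under `Φ`, `IsELFlow L Φ`. For every phase point `z` the
  function `s ↦ Lc L c (Φ s z)` is `lag2 G V (γ (t + s)) (γ' (t + s)) (t + s) - ⟪c, γ' (t + s)⟫` for a solution `γ`
  (`isEL_iff2`), it is continuous, and its integral over `[0, T]` is at least `-C - E₀ T` (`(γ, γ')`, with `γ'` cut
  off outside `[t, t + T]`, is `Adm`). By `MeasurePreserving`, `∫ Lc ∘ Φ s dμ = ∫ Lc dμ` for every `s`; joint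
  measurability of `(s, z) ↦ Lc L c (Φ s z)`: `measurable_uncurry_of_continuous_of_measurable`
  (`Lc L c` is measurable: `lag2` is continuous, `repE`, `rep` are measurable); Fubini on `[0, T] × μ` gives
  `T ∫ Lc dμ ≥ -C - E₀ T`; let `T → ∞`.
-/

set_option autoImplicit false

open MeasureTheory
open scoped RealInnerProductSpace

namespace Pool.Agent.H33.AN

open Pool.Agent.H33.AM

variable {n : ℕ} {G : EuclideanSpace ℝ (Fin n) →L[ℝ] EuclideanSpace ℝ (Fin n)} {κ₁ κ₂ : ℝ}
  {V : EuclideanSpace ℝ (Fin n) → ℝ → ℝ}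
  {F : EuclideanSpace ℝ (Fin n) → ℝ → EuclideanSpace ℝ (Fin n)}
  {Vt : EuclideanSpace ℝ (Fin n) → ℝ → ℝ} {B : ℝ}

private theorem I2a_lift_continuous2 {β : Type*} [TopologicalSpace β] {f : ℝ → β} {T : ℝ}
    (h : Function.Periodic f T) (hf : Continuous f) :
    Continuous (h.lift : AddCircle T → β) := by
  rw [(QuotientAddGroup.isQuotientMap_mk (N := AddSubgroup.zmultiples T)).continuous_iff]
  exact hf

private theorem I2a_V_eq (hV : HV2 1 V F Vt B) (x : EuclideanSpace ℝ (Fin n)) (s t : ℝ)
    (h : (s : UnitAddCircle) = (t : UnitAddCircle)) : V x s = V x t := by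
  have hp : Function.Periodic (fun t => V x t) 1 := fun t => hV.pert x t
  rw [← sub_eq_zero, ← AddCircle.coe_sub, AddCircle.coe_eq_zero_iff] at h
  obtain ⟨m, hm⟩ := h
  simp only [zsmul_eq_mul, mul_one] at hm
  have h1 : s = t + m * 1 := by linarith
  rw [h1]
  exact hp.int_mul m t

private theorem I2a_coe_nat (t : ℝ) (T : ℕ) :
    ((t + T : ℝ) : UnitAddCircle) = (t : UnitAddCircle) := by
  rw [← sub_eq_zero, ← AddCircle.coe_sub, AddCircle.coe_eq_zero_iff]
  exact ⟨T, by simp⟩

theorem mem_actionValues2 (hG : HG G κ₁ κ₂) (hV : HV2 1 V F Vt B) {T : ℕ} (hT : 0 < T)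
    {γ v : ℝ → EuclideanSpace ℝ (Fin n)} (h : Sol2 G F γ v) {k : Fin n → ℤ}
    (hγ : ∀ t, γ (t + T) = γ t + zv k) (hv : ∀ t, v (t + T) = v t)
    (c : EuclideanSpace ℝ (Fin n)) :
    (1 / (T : ℝ)) * (∫ t in (0 : ℝ)..T, (lag2 G V (γ t) (v t) t - ⟪c, v t⟫)) ∈
      actionValues (lag2 G V) c := by
  have hT' : (0 : ℝ) < T := by exact_mod_cast hT
  haveI : Fact ((0 : ℝ) < (T : ℝ)) := ⟨hT'⟩
  obtain ⟨Φ, hΦ, hΦm, hΦt⟩ := exists_ELflow2 hG hV
  have hVT : ∀ x t, V x (t + T) = V x t := fun x t => I2a_V_eq hV x _ _ (I2a_coe_nat t T)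
  -- continuity
  have hVc := hV.cont
  have hγc : Continuous γ := by
    rw [continuous_iff_continuousAt]
    intro t
    exact (h.der t).continuousAt
  -- the maps on the circle
  have p1 : Function.Periodic (fun t => pr (γ t)) (T : ℝ) := by
    intro t
    simp only [hγ]
    exact (pr_eq_iff _ _).2 ⟨k, rfl⟩
  have p2 : Function.Periodic v (T : ℝ) := hv
  have p3 : Function.Periodic (fun t => lag2 G V (γ t) (v t) t - ⟪c, v t⟫) (T : ℝ) := by
    intro t
    simp only [lag2, hγ, hv, hV.per, hVT]
  have p4 : Function.Periodic (fun t : ℝ => (t : UnitAddCircle)) (T : ℝ) := by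
    intro t
    exact I2a_coe_nat t T
  have c1 : Continuous (p1.lift : AddCircle (T : ℝ) → Tor n) :=
    I2a_lift_continuous2 p1 (continuous_pr.comp hγc)
  have c2 : Continuous (p2.lift : AddCircle (T : ℝ) → EuclideanSpace ℝ (Fin n)) :=
    I2a_lift_continuous2 p2 h.cont
  have c3 : Continuous (p3.lift : AddCircle (T : ℝ) → ℝ) := by
    apply I2a_lift_continuous2 p3
    unfold lag2
    apply Continuous.sub
    · apply Continuous.sub
      · exact (Continuous.inner (G.continuous.comp h.cont) h.cont).div_const 2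
      · exact hVc.comp (hγc.prodMk continuous_id)
    · exact Continuous.inner continuous_const h.cont
  have c4 : Continuous (p4.lift : AddCircle (T : ℝ) → UnitAddCircle) :=
    I2a_lift_continuous2 p4 (AddCircle.continuous_mk' (1 : ℝ))
  let M : AddCircle (T : ℝ) → Ph n := fun z => (p1.lift z, p2.lift z, p4.lift z)
  have hMc : Continuous M := c1.prodMk (c2.prodMk c4)
  have hMm : Measurable M := hMc.measurable
  let ν : Measure (AddCircle (T : ℝ)) := AddCircle.haarAddCircle (T := (T : ℝ))
  have hν : IsProbabilityMeasure ν := inferInstance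
  -- the translation by `s`
  have htr : ∀ s : ℝ, MeasurePreserving
      (fun a : AddCircle (T : ℝ) => a + (s : AddCircle (T : ℝ))) ν ν := by
    intro s
    exact measurePreserving_add_right _ _
  have hcomm : ∀ s : ℝ, Φ s ∘ M = M ∘ (fun a : AddCircle (T : ℝ) => a + (s : AddCircle (T : ℝ))) := by
    intro s
    funext θ
    induction θ using QuotientAddGroup.induction_on with
    | H t =>
      have h1 := hΦt γ v h s t
      simp only [Function.comp, M]
      have e1 : p1.lift ((t : ℝ) : AddCircle (T : ℝ)) = pr (γ t) := p1.lift_coe t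
      have e2 : p2.lift ((t : ℝ) : AddCircle (T : ℝ)) = v t := p2.lift_coe t
      have e6 : p4.lift ((t : ℝ) : AddCircle (T : ℝ)) = (t : UnitAddCircle) := p4.lift_coe t
      have e3 : p1.lift ((t : ℝ) + (s : ℝ) : AddCircle (T : ℝ)) = pr (γ (t + s)) := by
        rw [← AddCircle.coe_add]
        exact p1.lift_coe (t + s)
      have e4 : p2.lift ((t : ℝ) + (s : ℝ) : AddCircle (T : ℝ)) = v (t + s) := by
        rw [← AddCircle.coe_add]
        exact p2.lift_coe (t + s)
      have e5 : p4.lift ((t : ℝ) + (s : ℝ) : AddCircle (T : ℝ)) = ((t + s : ℝ) : UnitAddCircle) := by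
        rw [← AddCircle.coe_add]
        exact p4.lift_coe (t + s)
      refine Eq.trans ?_ (h1.trans ?_)
      · exact congrArg (Φ s) (Prod.ext e1 (Prod.ext e2 e6))
      · exact (Prod.ext e3 (Prod.ext e4 e5)).symm
  let μ : Measure (Ph n) := ν.map M
  have hμ : IsProbabilityMeasure μ := Measure.isProbabilityMeasure_map hMm.aemeasurable
  have hinv : ∀ s, MeasurePreserving (Φ s) μ μ := by
    intro s
    refine ⟨hΦm s, ?_⟩
    have e1 : Measure.map (Φ s) μ = Measure.map (Φ s ∘ M) ν :=
      Measure.map_map (hΦm s) hMm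
    rw [e1, hcomm s, ← Measure.map_map hMm (htr s).measurable, (htr s).map_eq]
  -- the function
  have hrep : Measurable rep := by
    unfold rep
    exact measurable_subtype_coe.comp (AddCircle.measurableEquivIco (1 : ℝ) 0).measurable
  have hLm : Measurable (Lc (lag2 G V) c) := by
    unfold Lc lag2
    have r1 : Measurable fun z : Ph n => repE z.1 := measurable_repE.comp measurable_fst
    have r2 : Measurable fun z : Ph n => z.2.1 := measurable_fst.comp measurable_snd
    have r3 : Measurable fun z : Ph n => rep z.2.2 :=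
      hrep.comp (measurable_snd.comp measurable_snd)
    apply Measurable.sub
    · apply Measurable.sub
      · exact ((G.continuous.measurable.comp r2).inner r2).div_const 2
      · exact hVc.measurable.comp (r1.prodMk r3)
    · exact measurable_const.inner r2
  have hLM : ∀ z, Lc (lag2 G V) c (M z) = p3.lift z := by
    intro θ
    induction θ using QuotientAddGroup.induction_on with
    | H t =>
      have e1 : p1.lift ((t : ℝ) : AddCircle (T : ℝ)) = pr (γ t) := p1.lift_coe t
      have e2 : p2.lift ((t : ℝ) : AddCircle (T : ℝ)) = v t := p2.lift_coe t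
      have e6 : p4.lift ((t : ℝ) : AddCircle (T : ℝ)) = (t : UnitAddCircle) := p4.lift_coe t
      have e3 : p3.lift ((t : ℝ) : AddCircle (T : ℝ)) = lag2 G V (γ t) (v t) t - ⟪c, v t⟫ :=
        p3.lift_coe t
      obtain ⟨l, hl⟩ := (pr_eq_iff (repE (pr (γ t))) (γ t)).1 (pr_repE _)
      refine Eq.trans ?_ e3.symm
      have e7 : M ((t : ℝ) : AddCircle (T : ℝ)) = (pr (γ t), v t, (t : UnitAddCircle)) :=
        Prod.ext e1 (Prod.ext e2 e6)
      refine (congrArg (Lc (lag2 G V) c) e7).trans ?_
      simp only [Lc, lag2]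
      rw [hl, hV.per, I2a_V_eq hV (γ t) (rep (t : UnitAddCircle)) t (rep_coe _)]
  have hint3 : Integrable (p3.lift : AddCircle (T : ℝ) → ℝ) ν :=
    c3.integrable_of_hasCompactSupport (HasCompactSupport.of_compactSpace _)
  have hLi : Integrable (Lc (lag2 G V) c) μ := by
    rw [integrable_map_measure hLm.aestronglyMeasurable hMm.aemeasurable]
    have e1 : (Lc (lag2 G V) c) ∘ M = fun z => p3.lift z := by
      funext z
      exact hLM z
    rw [e1]
    exact hint3
  refine ⟨Φ, hΦ, μ, hμ, hinv, hLi, ?_⟩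
  rw [integral_map hMm.aemeasurable hLm.aestronglyMeasurable]
  simp only [hLM]
  have e2 := AddCircle.intervalIntegral_preimage (T : ℝ) 0 (p3.lift : AddCircle (T : ℝ) → ℝ)
  have e3 : ∫ a in (0 : ℝ)..0 + T, p3.lift ((a : ℝ) : AddCircle (T : ℝ)) =
      ∫ t in (0 : ℝ)..T, (lag2 G V (γ t) (v t) t - ⟪c, v t⟫) := by
    rw [zero_add]
    rfl
  rw [← e3, e2, AddCircle.volume_eq_smul_haarAddCircle, integral_smul_measure,
    ENNReal.toReal_ofReal hT'.le, smul_eq_mul, ← mul_assoc, one_div, inv_mul_cancel₀ hT'.ne',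
    one_mul]

end Pool.Agent.H33.AN
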