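import Pool.Agent.H33.AN.Orb
import Pool.Agent.H33.AN.P.X1
import Pool.Agent.H33.AN.P.I1
import Pool.Agent.H33.AN.P.I2a

/-!
# Module I2: invariant measures
-/

set_option autoImplicit false

open MeasureTheory
open scoped RealInnerProductSpace

namespace Pool.Agent.H33.AN

open Pool.Agent.H33.AM

variable {n : ℕ} {G : EuclideanSpace ℝ (Fin n) →L[ℝ] EuclideanSpace ℝ (Fin n)} {κ₁ κ₂ : ℝ}
  {V : EuclideanSpace ℝ (Fin n) → ℝ → ℝ}
  {F : EuclideanSpace ℝ (Fin n) → ℝ → EuclideanSpace ℝ (Fin n)}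
  {Vt : EuclideanSpace ℝ (Fin n) → ℝ → ℝ} {B : ℝ}

private theorem I2b_lag_cont (hV : HV2 1 V F Vt B) :
    Continuous fun p : EuclideanSpace ℝ (Fin n) × EuclideanSpace ℝ (Fin n) × ℝ =>
      lag2 G V p.1 p.2.1 p.2.2 := by
  have h3 := hV.cont
  unfold lag2
  have h4 : Continuous fun p : EuclideanSpace ℝ (Fin n) × EuclideanSpace ℝ (Fin n) × ℝ =>
      V p.1 p.2.2 :=
    h3.comp (continuous_fst.prodMk (continuous_snd.comp continuous_snd))
  have h5 : Continuous fun p : EuclideanSpace ℝ (Fin n) × EuclideanSpace ℝ (Fin n) × ℝ =>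
      (⟪G p.2.1, p.2.1⟫ : ℝ) :=
    (G.continuous.comp (continuous_fst.comp continuous_snd)).inner
      (continuous_fst.comp continuous_snd)
  exact (h5.div_const 2).sub h4

private theorem I2b_rep (t : ℝ) : ∃ j : ℤ, rep (t : UnitAddCircle) = t + j := by
  have h1 := rep_coe (t : UnitAddCircle)
  have h2 := (QuotientAddGroup.eq_iff_sub_mem).1 h1
  obtain ⟨j, hj⟩ := AddSubgroup.mem_zmultiples_iff.1 h2
  rw [zsmul_eq_mul, mul_one] at hj
  exact ⟨j, by linarith⟩

private theorem I2b_lag_per (hV : HV2 1 V F Vt B)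
    (x v : EuclideanSpace ℝ (Fin n)) (t : ℝ) :
    lag2 G V (repE (pr x)) v (rep (t : UnitAddCircle)) = lag2 G V x v t := by
  have h : pr (repE (pr x)) = pr x := pr_repE _
  obtain ⟨k, hk⟩ := (pr_eq_iff _ _).1 h
  obtain ⟨j, hj⟩ := I2b_rep t
  have h3 : Function.Periodic (V x) 1 := fun t => hV.pert x t
  have h4 := h3.int_mul j t
  rw [mul_one] at h4
  rw [hk, hj]
  unfold lag2
  rw [hV.per, h4]

private theorem I2b_meas_rep : Measurable rep := by
  unfold rep
  exact measurable_subtype_coe.comp (AddCircle.measurableEquivIco (1 : ℝ) 0).measurable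

private theorem I2b_meas_map : Measurable fun z : Ph n =>
    ((repE z.1, z.2.1, rep z.2.2) : EuclideanSpace ℝ (Fin n) × EuclideanSpace ℝ (Fin n) × ℝ) := by
  apply Measurable.prodMk
  · exact measurable_repE.comp measurable_fst
  · apply Measurable.prodMk
    · exact measurable_fst.comp measurable_snd
    · exact I2b_meas_rep.comp (measurable_snd.comp measurable_snd)

private theorem I2b_meas_Lc (hV : HV2 1 V F Vt B)
    (c : EuclideanSpace ℝ (Fin n)) :
    Measurable (Lc (lag2 G V) c) := by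
  have h0 : Continuous fun p : EuclideanSpace ℝ (Fin n) × EuclideanSpace ℝ (Fin n) × ℝ =>
      lag2 G V p.1 p.2.1 p.2.2 - ⟪c, p.2.1⟫ :=
    (I2b_lag_cont (G := G) hV).sub (continuous_const.inner (continuous_fst.comp continuous_snd))
  have h2 := h0.measurable.comp (I2b_meas_map (n := n))
  exact h2

/-- Along the orbits. -/
private theorem I2b_orbit (hG : HG G κ₁ κ₂) (hV : HV2 1 V F Vt B)
    {c : EuclideanSpace ℝ (Fin n)} {Φ : ℝ → Ph n → Ph n}
    (hΦ : IsELFlow (lag2 G V) Φ) (z : Ph n) :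
    ∃ (γ v : ℝ → EuclideanSpace ℝ (Fin n)) (t₀ : ℝ), Continuous v ∧ (∀ t, HasDerivAt γ (v t) t) ∧
      ∀ s, Lc (lag2 G V) c (Φ s z) =
        lag2 G V (γ (t₀ + s)) (v (t₀ + s)) (t₀ + s) - ⟪c, v (t₀ + s)⟫ := by
  obtain ⟨X, v₀, τ⟩ := z
  obtain ⟨γ, hEL, h0, h1, h2⟩ := hΦ (repE X) v₀ (rep τ)
  have hS : Sol2 G F γ (deriv γ) := (isEL_iff2 hG hV γ).1 hEL
  refine ⟨γ, deriv γ, rep τ, hS.cont, hS.der, ?_⟩
  intro s
  have h3 := h2 s
  rw [pr_repE, rep_coe] at h3
  rw [h3]
  unfold Lc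
  simp only
  rw [I2b_lag_per hV]

theorem actionValues_ge2 (hG : HG G κ₁ κ₂) (hV : HV2 1 V F Vt B)
    {c : EuclideanSpace ℝ (Fin n)} {E₀ C : ℝ}
    (h : ∀ (a b : ℝ) (x u : ℝ → EuclideanSpace ℝ (Fin n)), Adm a b x u →
      -C ≤ ∫ t in a..b, (lag2 G V (x t) (u t) t - ⟪c, u t⟫ + E₀))
    {a : ℝ} (ha : a ∈ actionValues (lag2 G V) c) : -E₀ ≤ a := by
  obtain ⟨Φ, hΦ, μ, hμ, hinv, hint, rfl⟩ := ha
  set g : Ph n → ℝ := Lc (lag2 G V) c with hg
  have hgm : Measurable g := I2b_meas_Lc hV c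
  have hcont : ∀ z : Ph n, Continuous fun s => g (Φ s z) := by
    intro z
    obtain ⟨γ, v, t₀, h1, h2, h3⟩ := I2b_orbit (c := c) hG hV hΦ z
    have h4 : (fun s => g (Φ s z)) = fun s =>
        lag2 G V (γ (t₀ + s)) (v (t₀ + s)) (t₀ + s) - ⟪c, v (t₀ + s)⟫ := by
      funext s
      exact h3 s
    rw [h4]
    have h5 : Continuous γ := continuous_iff_continuousAt.2 fun t => (h2 t).continuousAt
    have h6 : Continuous fun s : ℝ => t₀ + s := continuous_const.add continuous_id
    exact ((I2b_lag_cont (G := G) hV).comp ((h5.comp h6).prodMk ((h1.comp h6).prodMk h6))).sub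
      (continuous_const.inner (h1.comp h6))
  have hmeas : ∀ s, Measurable fun z => g (Φ s z) := fun s => hgm.comp (hinv s).measurable
  have hjoint : Measurable (Function.uncurry fun (s : ℝ) (z : Ph n) => g (Φ s z)) :=
    measurable_uncurry_of_continuous_of_measurable hcont hmeas
  have hint' : ∀ s, Integrable (fun z => g (Φ s z)) μ := fun s =>
    (hinv s).integrable_comp_of_integrable hint
  have hval : ∀ s, ∫ z, g (Φ s z) ∂μ = ∫ z, g z ∂μ := by
    intro s
    have h1 := integral_map (μ := μ) (φ := Φ s) (hinv s).measurable.aemeasurable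
      (f := g) (hgm.aestronglyMeasurable)
    rw [← h1, (hinv s).map_eq]
  have hvaln : ∀ s, ∫ z, ‖g (Φ s z)‖ ∂μ = ∫ z, ‖g z‖ ∂μ := by
    intro s
    have h1 := integral_map (μ := μ) (φ := Φ s) (hinv s).measurable.aemeasurable
      (f := fun z => ‖g z‖) (hgm.norm.aestronglyMeasurable)
    rw [← h1, (hinv s).map_eq]
  -- the lower bound along the orbits
  have hlow : ∀ (T : ℝ), 0 < T → ∀ z : Ph n, -C - E₀ * T ≤ ∫ s in (0 : ℝ)..T, g (Φ s z) := by
    intro T hT z
    obtain ⟨γ, v, t₀, h1, h2, h3⟩ := I2b_orbit (c := c) hG hV hΦ z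
    obtain ⟨R, hR⟩ := (isCompact_Icc (a := t₀) (b := t₀ + T)).exists_bound_of_continuousOn
      (h1.continuousOn (s := Set.Icc t₀ (t₀ + T)))
    have hadm : Adm t₀ (t₀ + T) γ ((Set.Icc t₀ (t₀ + T)).indicator v) := by
      refine ⟨by linarith, ?_, ⟨∅, Set.countable_empty, ?_⟩, ?_, ⟨max R 0, ?_⟩⟩
      · exact (continuous_iff_continuousAt.2 fun t => (h2 t).continuousAt).continuousOn
      · intro t ht
        have ht' : t ∈ Set.Icc t₀ (t₀ + T) := Set.Ioo_subset_Icc_self ht.1
        rw [Set.indicator_of_mem ht']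
        exact h2 t
      · exact h1.measurable.indicator measurableSet_Icc
      · intro t
        by_cases ht : t ∈ Set.Icc t₀ (t₀ + T)
        · rw [Set.indicator_of_mem ht]
          exact (hR t ht).trans (le_max_left _ _)
        · rw [Set.indicator_of_notMem ht, norm_zero]
          exact le_max_right _ _
    have h4 := h t₀ (t₀ + T) γ _ hadm
    have h5 : (∫ t in t₀..(t₀ + T), (lag2 G V (γ t) ((Set.Icc t₀ (t₀ + T)).indicator v t) t
        - ⟪c, (Set.Icc t₀ (t₀ + T)).indicator v t⟫ + E₀)) =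
          ∫ s in (0 : ℝ)..T, (g (Φ s z) + E₀) := by
      obtain ⟨f, hf⟩ : ∃ f : ℝ → ℝ, f = fun t => lag2 G V (γ t)
        ((Set.Icc t₀ (t₀ + T)).indicator v t) t - ⟪c, (Set.Icc t₀ (t₀ + T)).indicator v t⟫ + E₀ :=
        ⟨_, rfl⟩
      have e1 := intervalIntegral.integral_comp_add_left (a := 0) (b := T) f t₀
      rw [add_zero] at e1
      have e2 : (∫ t in t₀..(t₀ + T), (lag2 G V (γ t) ((Set.Icc t₀ (t₀ + T)).indicator v t) t
        - ⟪c, (Set.Icc t₀ (t₀ + T)).indicator v t⟫ + E₀)) = ∫ t in t₀..(t₀ + T), f t := by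
        rw [hf]
      have e3 : Set.EqOn (fun t => f (t₀ + t)) (fun s => g (Φ s z) + E₀) (Set.uIcc 0 T) := by
        intro t ht
        rw [Set.uIcc_of_le hT.le] at ht
        have ht' : t₀ + t ∈ Set.Icc t₀ (t₀ + T) := ⟨by linarith [ht.1], by linarith [ht.2]⟩
        have e4 := h3 t
        simp only [hf, Set.indicator_of_mem ht', hg, e4]
      rw [e2, ← e1]
      exact intervalIntegral.integral_congr e3
    rw [h5, intervalIntegral.integral_add ((hcont z).intervalIntegrable _ _)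
      intervalIntegrable_const, intervalIntegral.integral_const, smul_eq_mul] at h4
    linarith [mul_comm E₀ T, h4]
  -- Fubini
  have hfub : ∀ (T : ℝ), 0 < T → -C - E₀ * T ≤ T * ∫ z, g z ∂μ := by
    intro T hT
    set ν : Measure ℝ := volume.restrict (Set.Ioc (0 : ℝ) T) with hν
    have hfin : IsFiniteMeasure ν := by
      rw [hν]
      infer_instance
    have hprod : Integrable (Function.uncurry fun (s : ℝ) (z : Ph n) => g (Φ s z)) (ν.prod μ) := by
      rw [integrable_prod_iff hjoint.aestronglyMeasurable]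
      refine ⟨Filter.Eventually.of_forall fun s => hint' s, ?_⟩
      have : (fun s : ℝ => ∫ z, ‖Function.uncurry (fun (s : ℝ) (z : Ph n) => g (Φ s z)) (s, z)‖ ∂μ)
          = fun _ => ∫ z, ‖g z‖ ∂μ := by
        funext s
        exact hvaln s
      rw [this]
      exact integrable_const _
    have hsw := integral_integral_swap hprod
    have hl : ∫ s, ∫ z, g (Φ s z) ∂μ ∂ν = T * ∫ z, g z ∂μ := by
      have : (fun s : ℝ => ∫ z, g (Φ s z) ∂μ) = fun _ => ∫ z, g z ∂μ := by
        funext s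
        exact hval s
      rw [this, integral_const, smul_eq_mul, hν, measureReal_restrict_apply_univ]
      simp [Real.volume_real_Ioc_of_le hT.le]
    rw [← hl, hsw]
    have hr : Integrable (fun z => ∫ s, g (Φ s z) ∂ν) μ := hprod.integral_prod_right
    have hc : ∫ _z : Ph n, (-C - E₀ * T) ∂μ = -C - E₀ * T := by
      simp
    rw [← hc]
    refine integral_mono (integrable_const _) hr fun z => ?_
    simp only
    have := hlow T hT z
    rw [intervalIntegral.integral_of_le hT.le] at this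
    exact this
  -- the limit
  by_contra hcon
  rw [not_le] at hcon
  set a := ∫ z, g z ∂μ with ha
  have hδ : 0 < -E₀ - a := by linarith
  have hT : 0 < (|C| + 1) / (-E₀ - a) := by positivity
  have h1 := hfub _ hT
  have h2 : (-E₀ - a) * ((|C| + 1) / (-E₀ - a)) = |C| + 1 := by
    field_simp
  have h3 : C ≤ |C| := le_abs_self C
  nlinarith [h1, h2, h3]

end Pool.Agent.H33.AN
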