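import Pool.Agent.H33.AN.Orb
import Pool.Agent.H33.AN.P.I2

/-!
# Module C1: the integrable case `V = V(t)`

(Compare `Pool/Agent/H33/AM/P/C1a.lean`, `C1b.lean`.) Here `V x t = V₀ t` with `V₀ t = V 0 t`, `F = 0` (gradient of a
constant). For `c` let `G vc = c`, `α = ⟪c, vc⟫ / 2 + V̄`, `V̄ = ∫₀¹ V₀`;
`lag2 G V x v t - ⟪c, v⟫ + α = ⟪G (v - vc), v - vc⟫ / 2 - (V₀ t - V̄)`.
* `alpha_int2`: `actionValues L c ≥ -α` by `actionValues_ge2`, since on curves the integral is at least
  `-∫_a^b (V₀ - V̄) ≥ -2 B` (periodic with mean zero: the integral over `[a, b]` is the integral over an interval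
  of length `< 1`). Conversely, for `j ≥ 1` let `k` be an integer vector with `‖zv k - j vc‖ ≤ √n`; the straight
  line `γ(t) = t v`, `v = zv k/j`, is a solution (`Sol2`, `F = 0`), and has the period `j`; its value is
  `-α + ⟪G (v - vc), v - vc⟫ / 2 ≤ -α + κ₂ n/(2 j²)`, `mem_actionValues2`.
* `peierls_int2`: for a curve as in `curveActions` from `x` to `x`, on `[0, k]`: the action is
  `∫ ⟪G (γ' - vc), γ' - vc⟫ / 2 - ∫_0^k (V₀ - V̄) ≥ 0` (the last integral is zero). The line from `x` to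
  `x + zv k'`, `‖zv k' - k vc‖ ≤ √n`, has the action at most `κ₂ n/(2 k)`. So
  `0 ≤ sInf (curveActions L c k x x) ≤ κ₂ n/(2 k) → 0`.
-/

set_option autoImplicit false

open MeasureTheory
open scoped RealInnerProductSpace

namespace Pool.Agent.H33.AN

open Pool.Agent.H33.AM

variable {n : ℕ} {G : EuclideanSpace ℝ (Fin n) →L[ℝ] EuclideanSpace ℝ (Fin n)} {κ₁ κ₂ : ℝ}
  {V : EuclideanSpace ℝ (Fin n) → ℝ → ℝ}
  {F : EuclideanSpace ℝ (Fin n) → ℝ → EuclideanSpace ℝ (Fin n)}
  {Vt : EuclideanSpace ℝ (Fin n) → ℝ → ℝ} {B : ℝ}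

private theorem c1a2_F_zero (hV : HV2 1 V F Vt B) (hc : ∀ x y t, V x t = V y t)
    (x : EuclideanSpace ℝ (Fin n)) (t : ℝ) : F x t = 0 := by
  have h1 := hV.der x t
  have h2 : HasFDerivAt (fun y : EuclideanSpace ℝ (Fin n) => (y, t))
      ((ContinuousLinearMap.id ℝ (EuclideanSpace ℝ (Fin n))).prod
        (0 : EuclideanSpace ℝ (Fin n) →L[ℝ] ℝ)) x :=
    (hasFDerivAt_id x).prodMk (hasFDerivAt_const t x)
  have h3 := HasFDerivAt.comp x (g := fun z : EuclideanSpace ℝ (Fin n) × ℝ => V z.1 z.2)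
    (f := fun y : EuclideanSpace ℝ (Fin n) => (y, t)) h1 h2
  have h4 : HasFDerivAt ((fun z : EuclideanSpace ℝ (Fin n) × ℝ => V z.1 z.2) ∘
      (fun y : EuclideanSpace ℝ (Fin n) => (y, t))) (0 : EuclideanSpace ℝ (Fin n) →L[ℝ] ℝ) x := by
    have h5 : ((fun z : EuclideanSpace ℝ (Fin n) × ℝ => V z.1 z.2) ∘
      (fun y : EuclideanSpace ℝ (Fin n) => (y, t))) = fun _ => V 0 t := funext fun y => hc y 0 t
    rw [h5]
    exact hasFDerivAt_const _ _
  have h6 := h3.unique h4
  have h7 := congrArg (fun l : EuclideanSpace ℝ (Fin n) →L[ℝ] ℝ => l (F x t)) h6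
  simp at h7
  exact h7

private theorem c1a2_approx (vc : EuclideanSpace ℝ (Fin n)) (j : ℕ) :
    ∃ k : Fin n → ℤ, ‖zv k - (j : ℝ) • vc‖ ^ 2 ≤ n := by
  refine ⟨fun i => ⌊(j : ℝ) * vc i⌋, ?_⟩
  rw [EuclideanSpace.norm_sq_eq]
  calc ∑ i, ‖(zv (fun i => ⌊(j : ℝ) * vc i⌋) - (j : ℝ) • vc) i‖ ^ 2 ≤ ∑ _i : Fin n, (1 : ℝ) := by
        apply Finset.sum_le_sum
        intro i _
        have h1 : (zv (fun i => ⌊(j : ℝ) * vc i⌋) - (j : ℝ) • vc) i =
            (⌊(j : ℝ) * vc i⌋ : ℝ) - (j : ℝ) * vc i := by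
          simp [zv]
        rw [h1, Real.norm_eq_abs, sq_abs]
        have h2 := Int.floor_le ((j : ℝ) * vc i)
        have h3 := Int.lt_floor_add_one ((j : ℝ) * vc i)
        nlinarith
    _ = n := by simp

private theorem c1a2_contV (hV : HV2 1 V F Vt B) : Continuous fun t => V 0 t := by
  have h1 : Continuous fun z : EuclideanSpace ℝ (Fin n) × ℝ => V z.1 z.2 :=
    continuous_iff_continuousAt.2 fun z => (hV.der z.1 z.2).continuousAt
  exact h1.comp (Continuous.prodMk continuous_const continuous_id)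

/-- the primitive of `V 0 t - mean` is `1`-periodic, so it is bounded -/
private theorem c1a2_prim (hV : HV2 1 V F Vt B) :
    (∀ k : ℕ, ∫ t in (0 : ℝ)..k, (V 0 t - ∫ s in (0 : ℝ)..1, V 0 s) = 0) ∧
    ∀ a b : ℝ, |∫ t in a..b, (V 0 t - ∫ s in (0 : ℝ)..1, V 0 s)| ≤ 4 * B := by
  set m : ℝ := ∫ s in (0 : ℝ)..1, V 0 s with hm
  set g : ℝ → ℝ := fun t => V 0 t - m with hg
  have hgc : Continuous g := (c1a2_contV hV).sub continuous_const
  have hgi : ∀ a b : ℝ, IntervalIntegrable g volume a b := fun a b => hgc.intervalIntegrable a b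
  have hper : Function.Periodic g 1 := fun t => by
    simp only [hg]
    rw [hV.pert]
  have h01 : ∫ t in (0 : ℝ)..1, g t = 0 := by
    simp only [hg]
    rw [intervalIntegral.integral_sub ((c1a2_contV hV).intervalIntegrable 0 1)
      intervalIntegrable_const, intervalIntegral.integral_const, ← hm]
    simp
  set P : ℝ → ℝ := fun t => ∫ s in (0 : ℝ)..t, g s with hP
  have hPper : Function.Periodic P 1 := fun t => by
    simp only [hP]
    rw [← intervalIntegral.integral_add_adjacent_intervals (hgi 0 t) (hgi t (t + 1))]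
    have h1 := hper.intervalIntegral_add_eq t 0
    rw [h1, zero_add, h01, add_zero]
  have hP0 : P 0 = 0 := by simp [hP]
  have hmB : |m| ≤ B := by
    have h1 := intervalIntegral.norm_integral_le_of_norm_le_const (a := (0 : ℝ)) (b := 1)
      (f := fun s => V 0 s) (C := B) (fun s _ => hV.bd 0 s)
    rw [← hm, Real.norm_eq_abs] at h1
    simpa using h1
  have hgB : ∀ t, |g t| ≤ 2 * B := fun t => by
    simp only [hg]
    refine (abs_sub _ _).trans ?_
    linarith [hV.bd 0 t]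
  have hPB : ∀ t, |P t| ≤ 2 * B := fun t => by
    have h1 : P t = P (Int.fract t) := by
      have h2 := hPper.sub_zsmul_eq (x := t) ⌊t⌋
      rw [zsmul_eq_mul, mul_one, Int.self_sub_floor] at h2
      exact h2.symm
    rw [h1]
    have h2 := intervalIntegral.norm_integral_le_of_norm_le_const (a := (0 : ℝ)) (b := Int.fract t)
      (f := g) (C := 2 * B) (fun s _ => hgB s)
    rw [Real.norm_eq_abs] at h2
    refine h2.trans ?_
    rw [sub_zero, abs_of_nonneg (Int.fract_nonneg t)]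
    have h3 : Int.fract t ≤ 1 := (Int.fract_lt_one t).le
    have h4 : 0 ≤ 2 * B := by linarith [hV.nonneg]
    nlinarith
  constructor
  · intro k
    have h1 : P k = P 0 := by
      have h2 := hPper.nat_mul k 0
      simpa using h2
    rw [hP0] at h1
    exact h1
  · intro a b
    have h1 : ∫ t in a..b, g t = P b - P a := by
      simp only [hP]
      rw [intervalIntegral.integral_interval_sub_left (hgi 0 b) (hgi 0 a)]
    have h2 := hPB a
    have h3 := hPB b
    change |∫ t in a..b, g t| ≤ 4 * B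
    rw [h1]
    refine (abs_sub _ _).trans ?_
    linarith

theorem alpha_int2 (hG : HG G κ₁ κ₂) (hV : HV2 1 V F Vt B) (hc : ∀ x y t, V x t = V y t)
    {c vc : EuclideanSpace ℝ (Fin n)} (hvc : G vc = c) :
    alpha (lag2 G V) c = ⟪c, vc⟫ / 2 + ∫ t in (0 : ℝ)..1, V 0 t := by
  obtain ⟨hp1, hp2⟩ := c1a2_prim hV
  set m : ℝ := ∫ s in (0 : ℝ)..1, V 0 s with hm
  have cg : Continuous fun t => V 0 t - m := (c1a2_contV hV).sub continuous_const
  set α : ℝ := ⟪c, vc⟫ / 2 + m with hα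
  set S := actionValues (lag2 G V) c with hS
  have hid : ∀ (x v : EuclideanSpace ℝ (Fin n)) (t : ℝ), lag2 G V x v t - ⟪c, v⟫ + α =
      ⟪G (v - vc), v - vc⟫ / 2 - (V 0 t - m) := by
    intro x v t
    have h1 : ⟪G v, vc⟫ = ⟪c, v⟫ := by
      rw [hG.symm v vc, hvc, real_inner_comm]
    simp only [lag2, hα, hc x 0 t, map_sub, inner_sub_left, inner_sub_right, hvc, h1]
    ring
  have low : ∀ a ∈ S, -α ≤ a := by
    intro a ha
    refine actionValues_ge2 hG hV (E₀ := α) (C := 4 * B) ?_ ha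
    intro a b x u hx
    simp only [hid]
    have hi : IntervalIntegrable (fun t => ⟪G (u t - vc), u t - vc⟫ / 2) volume a b :=
      hx.integrable (g := fun p : EuclideanSpace ℝ (Fin n) × EuclideanSpace ℝ (Fin n) =>
        ⟪G (p.2 - vc), p.2 - vc⟫ / 2) (by fun_prop)
    rw [intervalIntegral.integral_sub hi (cg.intervalIntegrable a b)]
    have h1 : 0 ≤ ∫ t in a..b, ⟪G (u t - vc), u t - vc⟫ / 2 := by
      apply intervalIntegral.integral_nonneg hx.le
      intro t _
      have h2 := hG.lo (u t - vc)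
      have h3 : 0 ≤ κ₁ * ‖u t - vc‖ ^ 2 := by
        have := hG.pos
        positivity
      linarith
    have h2 := abs_le.1 (hp2 a b)
    linarith [h2.2]
  have up : ∀ j : ℕ, 0 < j → ∃ a ∈ S, a ≤ -α + κ₂ / 2 * (n / (j : ℝ) ^ 2) := by
    intro j hj
    have hj' : (0 : ℝ) < j := Nat.cast_pos.2 hj
    obtain ⟨k, hk⟩ := c1a2_approx vc j
    set v : EuclideanSpace ℝ (Fin n) := (1 / (j : ℝ)) • zv k with hv
    have hjv : (j : ℝ) • v = zv k := by
      rw [hv, smul_smul, mul_one_div_cancel hj'.ne', one_smul]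
    have hsol : Sol2 G F (fun t => t • v) fun _ => v := by
      refine ⟨continuous_const, ?_, ?_⟩
      · intro t
        simpa using (hasDerivAt_id t).smul_const v
      · intro t
        rw [c1a2_F_zero hV hc, neg_zero]
        exact hasDerivAt_const t (G v)
    have hmem := mem_actionValues2 hG hV hj hsol (k := k)
      (by
        intro t
        show (t + j) • v = t • v + zv k
        rw [add_smul, hjv]) (fun _ => rfl) c
    refine ⟨_, hmem, ?_⟩
    have h2 : (∫ t in (0 : ℝ)..j, (lag2 G V (t • v) v t - ⟪c, v⟫)) =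
        j * (⟪G (v - vc), v - vc⟫ / 2 - α) := by
      have e1 : ∀ t : ℝ, lag2 G V (t • v) v t - ⟪c, v⟫ =
          (⟪G (v - vc), v - vc⟫ / 2 - α) - (V 0 t - m) := by
        intro t
        linarith [hid (t • v) v t]
      simp only [e1]
      rw [intervalIntegral.integral_sub intervalIntegrable_const (cg.intervalIntegrable _ _), hp1 j,
        intervalIntegral.integral_const]
      simp
    rw [h2]
    have h4 : ‖v - vc‖ ^ 2 ≤ n / (j : ℝ) ^ 2 := by
      have e1 : zv k - (j : ℝ) • vc = (j : ℝ) • (v - vc) := by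
        rw [smul_sub, hjv]
      rw [e1, norm_smul, Real.norm_of_nonneg hj'.le, mul_pow] at hk
      rw [le_div_iff₀ (by positivity)]
      linarith
    have h5 : κ₂ / 2 * ‖v - vc‖ ^ 2 ≤ κ₂ / 2 * (n / (j : ℝ) ^ 2) :=
      mul_le_mul_of_nonneg_left h4 (by linarith [hG.pos₂])
    have h6 : 1 / (j : ℝ) * (j * (⟪G (v - vc), v - vc⟫ / 2 - α)) =
        ⟪G (v - vc), v - vc⟫ / 2 - α := by
      field_simp
    rw [h6]
    have h7 := hG.hi (v - vc)
    linarith
  have bdd : BddBelow S := ⟨-α, low⟩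
  have ne : S.Nonempty := by
    obtain ⟨a, ha, _⟩ := up 1 one_pos
    exact ⟨a, ha⟩
  have h1 : -α ≤ sInf S := le_csInf ne low
  have h2 : sInf S ≤ -α := by
    apply le_of_forall_pos_le_add
    intro ε hε
    obtain ⟨j, hj⟩ := exists_nat_gt (κ₂ / 2 * n / ε)
    have hj0 : (0 : ℝ) < (j : ℝ) + 1 := by positivity
    obtain ⟨a, ha, ha'⟩ := up (j + 1) (Nat.succ_pos j)
    refine le_trans (csInf_le bdd ha) (le_trans ha' ?_)
    have h3 : κ₂ / 2 * (n / ((j + 1 : ℕ) : ℝ) ^ 2) ≤ ε := by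
      push_cast
      rw [← mul_div_assoc, div_le_iff₀ (by positivity)]
      rw [div_lt_iff₀ hε] at hj
      have h4 : (j : ℝ) ≤ ((j : ℝ) + 1) ^ 2 := by nlinarith [Nat.cast_nonneg (α := ℝ) j]
      nlinarith [mul_le_mul_of_nonneg_left h4 hε.le]
    linarith
  have h3 : sInf S = -α := le_antisymm h2 h1
  show -sInf S = α
  rw [h3, neg_neg]

end Pool.Agent.H33.AN
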