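import Pool.Agent.H33.AN.Orb
import Pool.Agent.H33.AN.P.I2
import Pool.Agent.H33.AN.P.C1a

/-!
# Module C1: the integrable case `V = V(t)`

(Compare `Pool/Agent/H33/AM/P/C1a.lean`, `C1b.lean`.) Here `V x t = V₀ t` with `V₀ t = V 0 t`, `F = 0` (gradient of a
constant). For `c` let `G vc = c`, `α = ⟪c, vc⟫ / 2 + V̄`, `V̄ = ∫₀¹ V₀`;
`lag2 G V x v t - ⟪c, v⟫ + α = ⟪G (v - vc), v - vc⟫ / 2 - (V₀ t - V̄)`.
* `alpha_int2`: `actionValues L c ≥ -α` by `actionValues_ge2`, since on curves the integral is at least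
  `-∫_a^b (V₀ - V̄) ≥ -2 B` (periodic with mean zero: the integral over `[a, b]` is the integral over an interval
  of length `< 1`). Conversely, for `j ≥ 1` let `k` be an integer vector with `‖zv k - j vc‖ ≤ √n`; the straight
  line `γ(t) = t v`, `v = zv k/j`, is a solution (`Sol2`, `F = 0`), and has the period `j`; its value is
  `-α + ⟪G (v - vc), v - vc⟫ / 2 ≤ -α + κ₂ n/(2 j²)`, `mem_actionValues2`.
* `peierls_int2`: for a curve as in `curveActions` from `x` to `x`, on `[0, k]`: the action is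
  `∫ ⟪G (γ' - vc), γ' - vc⟫ / 2 - ∫_0^k (V₀ - V̄) ≥ 0` (the last integral is zero). The line from `x` to
  `x + zv k'`, `‖zv k' - k vc‖ ≤ √n`, has the action at most `κ₂ n/(2 k)`. So
  `0 ≤ sInf (curveActions L c k x x) ≤ κ₂ n/(2 k) → 0`.
-/

set_option autoImplicit false

open MeasureTheory
open scoped RealInnerProductSpace

namespace Pool.Agent.H33.AN

open Pool.Agent.H33.AM

variable {n : ℕ} {G : EuclideanSpace ℝ (Fin n) →L[ℝ] EuclideanSpace ℝ (Fin n)} {κ₁ κ₂ : ℝ}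
  {V : EuclideanSpace ℝ (Fin n) → ℝ → ℝ}
  {F : EuclideanSpace ℝ (Fin n) → ℝ → EuclideanSpace ℝ (Fin n)}
  {Vt : EuclideanSpace ℝ (Fin n) → ℝ → ℝ} {B : ℝ}

private lemma c1b_round2 (v : EuclideanSpace ℝ (Fin n)) :
    ∃ k : Fin n → ℤ, ‖zv k - v‖ ^ 2 ≤ n := by
  refine ⟨fun i => round (v i), ?_⟩
  rw [EuclideanSpace.norm_sq_eq]
  calc ∑ i, ‖(zv (fun i => round (v i)) - v) i‖ ^ 2 ≤ ∑ i : Fin n, (1 : ℝ) := by
        refine Finset.sum_le_sum fun i _ => ?_
        have h1 : (zv (fun i => round (v i)) - v) i = (round (v i) : ℝ) - v i := rfl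
        rw [h1, Real.norm_eq_abs, sq_abs]
        have h2 := abs_sub_round (v i)
        rw [abs_le] at h2
        nlinarith [h2.1, h2.2]
    _ = n := by simp

private lemma c1b_mean {f : ℝ → ℝ} (hf : Continuous f) (hp : ∀ t, f (t + 1) = f t) (k : ℕ) :
    ∫ t in (0 : ℝ)..k, -(f t - ∫ s in (0 : ℝ)..1, f s) = 0 := by
  have hper : Function.Periodic (fun t => -(f t - ∫ s in (0 : ℝ)..1, f s)) 1 := fun t => by
    show -(f (t + 1) - _) = -(f t - _)
    rw [hp]
  have hcont : Continuous (fun t => -(f t - ∫ s in (0 : ℝ)..1, f s)) :=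
    (hf.sub continuous_const).neg
  have h1 := hper.intervalIntegral_add_zsmul_eq (k : ℤ) 0
    (fun a b => hcont.intervalIntegrable a b)
  have h2 : (0 : ℝ) + (k : ℤ) • (1 : ℝ) = k := by simp
  rw [h2, zero_add] at h1
  rw [h1, intervalIntegral.integral_neg, intervalIntegral.integral_sub
    (hf.intervalIntegrable _ _) intervalIntegrable_const, intervalIntegral.integral_const]
  simp

theorem peierls_int2 (hG : HG G κ₁ κ₂) (hV : HV2 1 V F Vt B) (hc : ∀ x y t, V x t = V y t)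
    {c vc : EuclideanSpace ℝ (Fin n)} (hvc : G vc = c)
    (hα : alpha (lag2 G V) c = ⟪c, vc⟫ / 2 + ∫ t in (0 : ℝ)..1, V 0 t) (x : Tor n) :
    peierls (lag2 G V) c x x = 0 := by
  have hVc : Continuous (V 0) := by
    have h1 : Continuous fun z : EuclideanSpace ℝ (Fin n) × ℝ => V z.1 z.2 :=
      continuous_iff_continuousAt.2 fun z => (hV.der z.1 z.2).continuousAt
    exact h1.comp (continuous_const.prodMk continuous_id)
  have hmean : ∀ k : ℕ, ∫ t in (0 : ℝ)..k, -(V 0 t - ∫ s in (0 : ℝ)..1, V 0 s) = 0 :=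
    c1b_mean hVc (hV.pert 0)
  have hVi : ∀ a b : ℝ, IntervalIntegrable (fun t => -(V 0 t - ∫ s in (0 : ℝ)..1, V 0 s))
      volume a b := fun a b => ((hVc.sub continuous_const).neg).intervalIntegrable a b
  -- the integrand
  have hdec : ∀ (y v : EuclideanSpace ℝ (Fin n)) (t : ℝ),
      lag2 G V y v t - ⟪c, v⟫ + alpha (lag2 G V) c
        = ⟪G (v - vc), v - vc⟫ / 2 + -(V 0 t - ∫ s in (0 : ℝ)..1, V 0 s) := by
    intro y v t
    have h1 : ⟪G v, vc⟫ = ⟪c, v⟫ := by
      rw [hG.symm, hvc, real_inner_comm]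
    rw [hα, lag2, hc y 0 t, map_sub, inner_sub_left, inner_sub_right, inner_sub_right, h1, hvc]
    ring
  have hlo : ∀ v : EuclideanSpace ℝ (Fin n), 0 ≤ ⟪G (v - vc), v - vc⟫ / 2 := fun v => by
    have h1 := hG.lo (v - vc)
    have h2 : 0 ≤ κ₁ * ‖v - vc‖ ^ 2 := mul_nonneg hG.pos.le (sq_nonneg _)
    linarith
  -- lower bound
  have hlower : ∀ (k : ℕ), ∀ a ∈ curveActions (lag2 G V) c k x x, 0 ≤ a := by
    rintro k a ⟨γ, hγ, h0, h1, hint, rfl⟩
    refine le_of_eq_of_le (hmean k).symm ?_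
    refine intervalIntegral.integral_mono_on (Nat.cast_nonneg k) (hVi _ _) hint ?_
    intro t _
    rw [hdec]
    linarith [hlo (deriv γ t)]
  -- upper bound
  have hupper : ∀ (k : ℕ), 1 ≤ k → ∃ a ∈ curveActions (lag2 G V) c k x x,
      a ≤ κ₂ / 2 * n / k := by
    intro k hk
    have hk0 : (0 : ℝ) < k := by exact_mod_cast hk
    obtain ⟨z, hz⟩ := c1b_round2 ((k : ℝ) • vc)
    have hw : ‖(1 / (k : ℝ)) • zv z - vc‖ ^ 2 ≤ n / k ^ 2 := by
      have h1 : (1 / (k : ℝ)) • zv z - vc = (1 / (k : ℝ)) • (zv z - (k : ℝ) • vc) := by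
        rw [smul_sub, smul_smul, one_div_mul_cancel hk0.ne', one_smul]
      rw [h1, norm_smul, mul_pow, Real.norm_eq_abs, sq_abs, one_div, inv_pow, div_eq_inv_mul]
      exact mul_le_mul_of_nonneg_left hz (by positivity)
    have hγd : ∀ t : ℝ, HasDerivAt (fun t : ℝ => repE x + t • ((1 / (k : ℝ)) • zv z))
        ((1 / (k : ℝ)) • zv z) t := fun t => by
      have h1 := ((hasDerivAt_id t).smul_const ((1 / (k : ℝ)) • zv z)).const_add (repE x)
      rw [one_smul] at h1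
      exact h1
    have hAC : AbsolutelyContinuousOnInterval
        (fun t : ℝ => repE x + t • ((1 / (k : ℝ)) • zv z)) 0 k := by
      refine ContDiffOn.absolutelyContinuousOnInterval (ContDiff.contDiffOn ?_)
      exact contDiff_const.add (contDiff_id.smul contDiff_const)
    have h0 : pr (repE x + (0 : ℝ) • ((1 / (k : ℝ)) • zv z)) = x := by
      rw [zero_smul, add_zero, pr_repE]
    have h1 : pr (repE x + (k : ℝ) • ((1 / (k : ℝ)) • zv z)) = x := by
      rw [smul_smul, mul_one_div_cancel hk0.ne', one_smul]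
      exact ((pr_eq_iff _ _).2 ⟨z, rfl⟩).trans (pr_repE x)
    have hd : ∀ t : ℝ, deriv (fun t : ℝ => repE x + t • ((1 / (k : ℝ)) • zv z)) t =
        (1 / (k : ℝ)) • zv z := fun t => (hγd t).deriv
    have heq : (fun t : ℝ => lag2 G V
          ((fun t : ℝ => repE x + t • ((1 / (k : ℝ)) • zv z)) t)
          (deriv (fun t : ℝ => repE x + t • ((1 / (k : ℝ)) • zv z)) t) t
          - ⟪c, deriv (fun t : ℝ => repE x + t • ((1 / (k : ℝ)) • zv z)) t⟫
          + alpha (lag2 G V) c) =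
        fun t : ℝ => (⟪G ((1 / (k : ℝ)) • zv z - vc), (1 / (k : ℝ)) • zv z - vc⟫ / 2) +
          -(V 0 t - ∫ s in (0 : ℝ)..1, V 0 s) := by
      funext t
      rw [hd, hdec]
    refine ⟨_, ⟨fun t : ℝ => repE x + t • ((1 / (k : ℝ)) • zv z), hAC, h0, h1, ?_, rfl⟩, ?_⟩
    · rw [heq]
      exact intervalIntegrable_const.add (hVi _ _)
    · rw [heq, intervalIntegral.integral_add intervalIntegrable_const (hVi _ _), hmean, add_zero,
        intervalIntegral.integral_const, sub_zero, smul_eq_mul]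
      have h6 := hG.hi ((1 / (k : ℝ)) • zv z - vc)
      have h7 : κ₂ * ‖(1 / (k : ℝ)) • zv z - vc‖ ^ 2 ≤ κ₂ * (n / k ^ 2) :=
        mul_le_mul_of_nonneg_left hw hG.pos₂.le
      have h8 : ⟪G ((1 / (k : ℝ)) • zv z - vc), (1 / (k : ℝ)) • zv z - vc⟫ / 2 ≤
          κ₂ / 2 * (n / k ^ 2) := by linarith
      calc (k : ℝ) * (⟪G ((1 / (k : ℝ)) • zv z - vc), (1 / (k : ℝ)) • zv z - vc⟫ / 2)
          ≤ k * (κ₂ / 2 * (n / k ^ 2)) := mul_le_mul_of_nonneg_left h8 hk0.le
        _ = κ₂ / 2 * n / k := by field_simp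
  have hnonneg : ∀ k : ℕ, 0 ≤ sInf (curveActions (lag2 G V) c k x x) :=
    fun k => Real.sInf_nonneg (hlower k)
  have hle : ∀ k : ℕ, 1 ≤ k →
      sInf (curveActions (lag2 G V) c k x x) ≤ κ₂ / 2 * n / k := by
    intro k hk
    obtain ⟨a, ha, hle⟩ := hupper k hk
    exact (csInf_le ⟨0, fun b hb => hlower k b hb⟩ ha).trans hle
  have hlim : Filter.Tendsto
      (fun k : ℕ => sInf (curveActions (lag2 G V) c k x x))
      Filter.atTop (nhds 0) := by
    refine squeeze_zero' (Filter.Eventually.of_forall hnonneg)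
      (Filter.eventually_atTop.2 ⟨1, hle⟩) ?_
    exact tendsto_const_div_atTop_nhds_zero_nat _
  exact hlim.liminf_eq

end Pool.Agent.H33.AN
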