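import Pool.Agent.H33.AN.Orb
import Pool.Agent.H33.AN.P.I2
import Pool.Agent.H33.AN.P.C1a
import Pool.Agent.H33.AN.P.C1b

/-!
# Module C1: the integrable case `V = V(t)`

(Compare `Pool/Agent/H33/AM/P/C1a.lean`, `C1b.lean`.) Here `V x t = V₀ t` with `V₀ t = V 0 t`, `F = 0` (gradient of a
constant). For `c` let `G vc = c`, `α = ⟪c, vc⟫ / 2 + V̄`, `V̄ = ∫₀¹ V₀`;
`lag2 G V x v t - ⟪c, v⟫ + α = ⟪G (v - vc), v - vc⟫ / 2 - (V₀ t - V̄)`.
* `alpha_int2`: `actionValues L c ≥ -α` by `actionValues_ge2`, since on curves the integral is at least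
  `-∫_a^b (V₀ - V̄) ≥ -2 B` (periodic with mean zero: the integral over `[a, b]` is the integral over an interval
  of length `< 1`). Conversely, for `j ≥ 1` let `k` be an integer vector with `‖zv k - j vc‖ ≤ √n`; the straight
  line `γ(t) = t v`, `v = zv k/j`, is a solution (`Sol2`, `F = 0`), and has the period `j`; its value is
  `-α + ⟪G (v - vc), v - vc⟫ / 2 ≤ -α + κ₂ n/(2 j²)`, `mem_actionValues2`.
* `peierls_int2`: for a curve as in `curveActions` from `x` to `x`, on `[0, k]`: the action is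
  `∫ ⟪G (γ' - vc), γ' - vc⟫ / 2 - ∫_0^k (V₀ - V̄) ≥ 0` (the last integral is zero). The line from `x` to
  `x + zv k'`, `‖zv k' - k vc‖ ≤ √n`, has the action at most `κ₂ n/(2 k)`. So
  `0 ≤ sInf (curveActions L c k x x) ≤ κ₂ n/(2 k) → 0`.
-/

set_option autoImplicit false

open MeasureTheory
open scoped RealInnerProductSpace

namespace Pool.Agent.H33.AN

open Pool.Agent.H33.AM

variable {n : ℕ} {G : EuclideanSpace ℝ (Fin n) →L[ℝ] EuclideanSpace ℝ (Fin n)} {κ₁ κ₂ : ℝ}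
  {V : EuclideanSpace ℝ (Fin n) → ℝ → ℝ}
  {F : EuclideanSpace ℝ (Fin n) → ℝ → EuclideanSpace ℝ (Fin n)}
  {Vt : EuclideanSpace ℝ (Fin n) → ℝ → ℝ} {B : ℝ}

theorem strict_int2 (hG : HG G κ₁ κ₂) (hV : HV2 1 V F Vt B) (hc : ∀ x y t, V x t = V y t) :
    StrictConvexOn ℝ Set.univ (alpha (lag2 G V)) := by
  obtain ⟨G', h1, -⟩ := hG.inv
  refine ⟨convex_univ, ?_⟩
  intro x _ y _ hxy a b ha hb hab
  have ex := alpha_int2 hG hV hc (h1 x)
  have ey := alpha_int2 hG hV hc (h1 y)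
  have e1 : G (a • G' x + b • G' y) = a • x + b • y := by
    rw [map_add, map_smul, map_smul, h1, h1]
  have exy := alpha_int2 hG hV hc e1
  rw [exy, ex, ey]
  have hne : G' x - G' y ≠ 0 := by
    intro h
    apply hxy
    have h2 := congrArg G h
    rw [map_sub, h1, h1, map_zero] at h2
    exact sub_eq_zero.1 h2
  have hpos : 0 < ⟪G (G' x - G' y), G' x - G' y⟫ := by
    have h3 := hG.lo (G' x - G' y)
    have h4 : 0 < ‖G' x - G' y‖ := norm_pos_iff.2 hne
    have h5 : 0 < κ₁ * ‖G' x - G' y‖ ^ 2 := mul_pos hG.pos (pow_pos h4 2)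
    linarith
  rw [map_sub, h1, h1, inner_sub_left, inner_sub_right, inner_sub_right] at hpos
  have hb' : b = 1 - a := by linarith
  have hab' : 0 < a * b := mul_pos ha hb
  have key := mul_pos hab' hpos
  have hexp : ⟪a • x + b • y, a • G' x + b • G' y⟫ =
      a * a * ⟪x, G' x⟫ + a * b * ⟪x, G' y⟫ + a * b * ⟪y, G' x⟫ + b * b * ⟪y, G' y⟫ := by
    simp only [inner_add_left, inner_add_right, real_inner_smul_left, real_inner_smul_right]
    ring
  rw [hexp]
  simp only [smul_eq_mul]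
  rw [hb'] at key ⊢
  nlinarith [key]

end Pool.Agent.H33.AN
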