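import Pool.Agent.H33.AN.Basic

/-!
# Module G1: curves on the line: integrability, calculus, operations

The same statements for curves in `ℝⁿ` are proved in `Pool/Agent/H33/AM/P/R2.lean`, copy from there.
* `integral_deriv`: `t ↦ g (x t) t` is continuous, differentiable off a countable set, with the
  derivative `g₁ (x t) t * u t + g₂ (x t) t`, which is integrable.
* `concat`: glue at `b`.
* `of_ext`: `u t = v (min (max t a) b)`.
-/

set_option autoImplicit false

open MeasureTheory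
open scoped RealInnerProductSpace

namespace Pool.Agent.H33.AN

theorem Cur.integrable {a b : ℝ} {x u : ℝ → ℝ} (h : Cur a b x u) {g : ℝ × ℝ × ℝ → ℝ}
    (hg : Continuous g) : IntervalIntegrable (fun t => g (x t, u t, t)) volume a b := by
  obtain ⟨R, hR⟩ := h.bd
  rw [intervalIntegrable_iff_integrableOn_Icc_of_le h.le]
  have hxm : AEStronglyMeasurable x (volume.restrict (Set.Icc a b)) :=
    h.cont.aestronglyMeasurable measurableSet_Icc
  have hum : AEStronglyMeasurable u (volume.restrict (Set.Icc a b)) :=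
    h.meas.aestronglyMeasurable
  have htm : AEStronglyMeasurable (fun t : ℝ => t) (volume.restrict (Set.Icc a b)) :=
    measurable_id.aestronglyMeasurable
  have hK : IsCompact ((x '' Set.Icc a b) ×ˢ ((Metric.closedBall (0 : ℝ) R) ×ˢ Set.Icc a b)) :=
    (isCompact_Icc.image_of_continuousOn h.cont).prod
      ((isCompact_closedBall 0 R).prod isCompact_Icc)
  obtain ⟨C, hC⟩ := hK.exists_bound_of_continuousOn hg.continuousOn
  refine ⟨hg.comp_aestronglyMeasurable (hxm.prodMk (hum.prodMk htm)),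
    HasFiniteIntegral.restrict_of_bounded (C := C) measure_Icc_lt_top ?_⟩
  refine (ae_restrict_iff' measurableSet_Icc).2 (Filter.Eventually.of_forall fun t ht => ?_)
  refine hC _ ⟨Set.mem_image_of_mem x ht, ?_, ht⟩
  simpa [Real.norm_eq_abs] using hR t

theorem Cur.integral_deriv {a b : ℝ} {x u : ℝ → ℝ} (h : Cur a b x u) {g g₁ g₂ : ℝ → ℝ → ℝ}
    (hg : ∀ x t, HasFDerivAt (fun z : ℝ × ℝ => g z.1 z.2)
      (g₁ x t • ContinuousLinearMap.fst ℝ ℝ ℝ + g₂ x t • ContinuousLinearMap.snd ℝ ℝ ℝ) (x, t))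
    (h₁ : Continuous fun z : ℝ × ℝ => g₁ z.1 z.2) (h₂ : Continuous fun z : ℝ × ℝ => g₂ z.1 z.2) :
    ∫ t in a..b, (g₁ (x t) t * u t + g₂ (x t) t) = g (x b) b - g (x a) a := by
  obtain ⟨s, hs, hd⟩ := h.der
  have hgc : Continuous fun z : ℝ × ℝ => g z.1 z.2 :=
    continuous_iff_continuousAt.2 fun z => (hg z.1 z.2).continuousAt
  have hgi : Continuous fun p : ℝ × ℝ × ℝ => g₁ p.1 p.2.2 * p.2.1 + g₂ p.1 p.2.2 :=
    ((h₁.comp (continuous_fst.prodMk (continuous_snd.comp continuous_snd))).mul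
      (continuous_fst.comp continuous_snd)).add
      (h₂.comp (continuous_fst.prodMk (continuous_snd.comp continuous_snd)))
  refine MeasureTheory.integral_eq_of_hasDerivAt_off_countable_of_le (fun t => g (x t) t)
    (fun t => g₁ (x t) t * u t + g₂ (x t) t) h.le hs
    (hgc.comp_continuousOn (h.cont.prodMk continuousOn_id)) ?_ (h.integrable hgi)
  intro t ht
  have h1 : HasDerivAt (fun t => (x t, t)) (u t, (1 : ℝ)) t := (hd t ht).prodMk (hasDerivAt_id t)
  have h2 := HasFDerivAt.comp_hasDerivAt (f := fun t : ℝ => (x t, t)) t (hg (x t) t) h1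
  have h3 : (g₁ (x t) t • ContinuousLinearMap.fst ℝ ℝ ℝ + g₂ (x t) t •
      ContinuousLinearMap.snd ℝ ℝ ℝ) (u t, (1 : ℝ)) = g₁ (x t) t * u t + g₂ (x t) t := by simp
  rw [h3] at h2
  exact h2

theorem Cur.integral_vel {a b : ℝ} {x u : ℝ → ℝ} (h : Cur a b x u) :
    ∫ t in a..b, u t = x b - x a := by
  have h1 := h.integral_deriv (g := fun y _ => y) (g₁ := fun _ _ => 1) (g₂ := fun _ _ => 0)
    (fun y t => by
      have e : ((1 : ℝ) • ContinuousLinearMap.fst ℝ ℝ ℝ + (0 : ℝ) •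
          ContinuousLinearMap.snd ℝ ℝ ℝ) = ContinuousLinearMap.fst ℝ ℝ ℝ := by
        rw [one_smul, zero_smul, add_zero]
      rw [e]
      exact hasFDerivAt_fst) continuous_const continuous_const
  simpa using h1

theorem Cur.sub {a b a' b' : ℝ} {x u : ℝ → ℝ} (h : Cur a b x u)
    (ha : a ≤ a') (hab : a' ≤ b') (hb : b' ≤ b) : Cur a' b' x u := by
  obtain ⟨s, hs, hd⟩ := h.der
  refine ⟨hab, h.cont.mono (Set.Icc_subset_Icc ha hb), ⟨s, hs, fun t ht => hd t ?_⟩, h.meas, h.bd⟩
  exact ⟨⟨ha.trans_lt ht.1.1, ht.1.2.trans_le hb⟩, ht.2⟩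

theorem Cur.shift {a b : ℝ} {x u : ℝ → ℝ} (h : Cur a b x u) (c : ℝ) :
    Cur (a + c) (b + c) (fun t => x (t - c)) fun t => u (t - c) := by
  obtain ⟨s, hs, hd⟩ := h.der
  refine ⟨by linarith [h.le], ?_, ⟨(fun t => t - c) ⁻¹' s, ?_, fun t ht => ?_⟩,
    h.meas.comp (measurable_id.sub_const c), ?_⟩
  · refine h.cont.comp (by fun_prop) fun t ht => ?_
    exact ⟨by linarith [ht.1], by linarith [ht.2]⟩
  · exact hs.preimage (sub_left_injective)
  · have h1 := hd (t - c) ⟨⟨by linarith [ht.1.1], by linarith [ht.1.2]⟩, ht.2⟩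
    exact h1.comp_sub_const t c
  · obtain ⟨R, hR⟩ := h.bd
    exact ⟨R, fun t => hR _⟩

theorem Cur.add_lin {a b : ℝ} {x u : ℝ → ℝ} (h : Cur a b x u) (p q : ℝ) :
    Cur a b (fun t => x t + (p + q * t)) fun t => u t + q := by
  obtain ⟨s, hs, hd⟩ := h.der
  obtain ⟨R, hR⟩ := h.bd
  refine ⟨h.le, h.cont.add (by fun_prop), ⟨s, hs, fun t ht => ?_⟩, h.meas.add_const q,
    ⟨R + |q|, fun t => (abs_add_le _ _).trans (add_le_add (hR t) le_rfl)⟩⟩
  have h1 : HasDerivAt (fun t : ℝ => p + q * t) q t := by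
    simpa using ((hasDerivAt_id t).const_mul q).const_add p
  exact (hd t ht).add h1

theorem Cur.line {a b : ℝ} (hab : a ≤ b) (p q : ℝ) :
    Cur a b (fun t => p + q * t) fun _ => q := by
  refine ⟨hab, by fun_prop, ⟨∅, Set.countable_empty, fun t _ => ?_⟩, measurable_const,
    ⟨|q|, fun _ => le_rfl⟩⟩
  simpa using ((hasDerivAt_id t).const_mul q).const_add p

/-- Concatenation. -/
theorem Cur.concat {a b c : ℝ} {x u x' u' : ℝ → ℝ} (h : Cur a b x u)
    (h' : Cur b c x' u') (hx : x b = x' b) :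
    ∃ x'' u'' : ℝ → ℝ, Cur a c x'' u'' ∧ (∀ t ≤ b, x'' t = x t ∧ u'' t = u t) ∧
      ∀ t > b, x'' t = x' t ∧ u'' t = u' t := by
  classical
  obtain ⟨s, hs, hd⟩ := h.der
  obtain ⟨s', hs', hd'⟩ := h'.der
  obtain ⟨R, hR⟩ := h.bd
  obtain ⟨R', hR'⟩ := h'.bd
  refine ⟨fun t => if t ≤ b then x t else x' t, fun t => if t ≤ b then u t else u' t,
    ⟨h.le.trans h'.le, ?_, ⟨s ∪ (s' ∪ {b}), ?_, ?_⟩, ?_, ?_⟩, ?_, ?_⟩
  · refine ContinuousOn.if' ?_ ?_ ?_ ?_
    · intro t ht
      have htT : t = b := by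
        have h1 := frontier_Iic_subset b (by simpa [Set.Iic] using ht.2)
        simpa using h1
      subst htT
      have h1 : ContinuousWithinAt x (Set.Icc a t) t := h.cont t ⟨h.le, le_rfl⟩
      have h2 : x t = if t ≤ t then x t else x' t := by simp
      rw [← h2]
      refine h1.tendsto.mono_left (nhdsWithin_mono _ ?_)
      rintro r ⟨hr, hr'⟩
      exact ⟨hr.1, hr'⟩
    · intro t ht
      have htT : t = b := by
        have h1 := frontier_Iic_subset b (by simpa [Set.Iic] using ht.2)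
        simpa using h1
      subst htT
      have h1 : ContinuousWithinAt x' (Set.Icc t c) t := h'.cont t ⟨le_rfl, h'.le⟩
      have h2 : x' t = if t ≤ t then x t else x' t := by simp [hx]
      rw [← h2]
      refine h1.tendsto.mono_left (nhdsWithin_mono _ ?_)
      rintro r ⟨hr, hr'⟩
      have h4 : ¬ r ≤ t := hr'
      exact ⟨(not_le.1 h4).le, hr.2⟩
    · refine h.cont.mono ?_
      rintro r ⟨hr, hr'⟩
      exact ⟨hr.1, hr'⟩
    · refine h'.cont.mono ?_
      rintro r ⟨hr, hr'⟩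
      have h4 : ¬ r ≤ b := hr'
      exact ⟨(not_le.1 h4).le, hr.2⟩
  · exact hs.union (hs'.union (Set.countable_singleton b))
  · intro t ht
    have ht1 : t ∉ s := fun h => ht.2 (Or.inl h)
    have ht2 : t ∉ s' := fun h => ht.2 (Or.inr (Or.inl h))
    have ht3 : t ≠ b := fun h => ht.2 (Or.inr (Or.inr h))
    rcases lt_or_gt_of_ne ht3 with hlt | hgt
    · have h1 := hd t ⟨⟨ht.1.1, hlt⟩, ht1⟩
      have h2 : (fun t => if t ≤ b then x t else x' t) =ᶠ[nhds t] x := by
        filter_upwards [Iio_mem_nhds hlt] with r hr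
        exact if_pos (le_of_lt hr)
      simp only [if_pos hlt.le]
      exact h1.congr_of_eventuallyEq h2
    · have h1 := hd' t ⟨⟨hgt, ht.1.2⟩, ht2⟩
      have h2 : (fun t => if t ≤ b then x t else x' t) =ᶠ[nhds t] x' := by
        filter_upwards [Ioi_mem_nhds hgt] with r hr
        exact if_neg (not_le.2 hr)
      simp only [if_neg (not_le.2 hgt)]
      exact h1.congr_of_eventuallyEq h2
  · exact Measurable.ite measurableSet_Iic h.meas h'.meas
  · refine ⟨max R R', fun t => ?_⟩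
    show |if t ≤ b then u t else u' t| ≤ max R R'
    split_ifs
    · exact (hR t).trans (le_max_left _ _)
    · exact (hR' t).trans (le_max_right _ _)
  · intro t ht
    simp [ht]
  · intro t ht
    simp [not_le.2 ht]

theorem Cur.of_ext {W₁ : ℝ → ℝ → ℝ} {γ v : ℝ → ℝ} (h : Ext W₁ γ v) {a b : ℝ} (hab : a ≤ b) :
    ∃ u : ℝ → ℝ, Cur a b γ u ∧ ∀ t ∈ Set.Icc a b, u t = v t := by
  have hvc : Continuous v := continuous_iff_continuousAt.2 fun t => (h.el t).continuousAt
  have hcl : Continuous fun t : ℝ => min (max t a) b := by fun_prop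
  have he : ∀ t ∈ Set.Icc a b, v (min (max t a) b) = v t := fun t ht => by
    rw [max_eq_left ht.1, min_eq_left ht.2]
  refine ⟨fun t => v (min (max t a) b), ⟨hab, fun t _ => (h.der t).continuousAt.continuousWithinAt,
    ⟨∅, Set.countable_empty, fun t ht => ?_⟩, (hvc.comp hcl).measurable, ?_⟩, he⟩
  · rw [he t ⟨ht.1.1.le, ht.1.2.le⟩]
    exact h.der t
  · obtain ⟨R, hR⟩ := isCompact_Icc.exists_bound_of_continuousOn (s := Set.Icc a b)
      hvc.continuousOn
    exact ⟨R, fun t => hR _ ⟨le_min (le_max_right _ _) hab, min_le_right _ _⟩⟩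

end Pool.Agent.H33.AN
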