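import Pool.Agent.H33.AN.P.G9

/-!
# Module G10: foliation or barrier

If `Dm W s₀ (s₀ + Q) x₀ (x₀ + p) ≠ EpQ W p Q` for some `(s₀, x₀)`, let `Z = {x | Dm W s₀ (s₀ + Q) x (x + p) =
EpQ W p Q}`: closed (`F_cont`), 1-periodic (`Dm_per`), not empty (`Ep_attained`), `x₀ ∉ Z`. Let
`xa = sSup (Z ∩ Iic x₀)`, `xc = sInf (Z ∩ Ici x₀)`, `xa < x₀ < xc`; `γa`, `γc` the leaves through `(s₀, xa)`,
`(s₀, xc)` (`leaf_exists`); `γa < γc` everywhere (`leaf_order`). `Bc = (γa + γc)/2` is continuous and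
`Bc (t + Q) = Bc t + p`. If `Dm W t (t + Q) (Bc t) (Bc t + p) = EpQ W p Q` for some `t`, the leaf through
`(t, Bc t)` lies strictly between `γa` and `γc` (`leaf_order`), so its position at `s₀` belongs to `Z`
(`leaf_zero`) and lies strictly between `xa` and `xc`: contradiction. So `F(t, Bc t) > EpQ` for all `t`;
it is continuous (`F_cont`) and `Q`-periodic (`Dm_per`), so `≥ EpQ + μ`.
-/

set_option autoImplicit false

open MeasureTheory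
open scoped RealInnerProductSpace

namespace Pool.Agent.H33.AN

variable {B : ℝ} {W W₁ W₂ : ℝ → ℝ → ℝ} {p : ℤ} {Q : ℕ}

theorem fol_or_barrier (hW : HW 1 W W₁ W₂ B) (hQ : 0 < Q)
    (h : ∃ s x, Dm W s (s + Q) x (x + p) ≠ EpQ W p Q) :
    ∃ (Bc : ℝ → ℝ) (μ : ℝ), Continuous Bc ∧ (∀ t, Bc (t + Q) = Bc t + p) ∧ 0 < μ ∧
      ∀ t, EpQ W p Q + μ ≤ Dm W t (t + Q) (Bc t) (Bc t + p) := by
  obtain ⟨s₀, x₀, hx₀⟩ := h
  have hF := F_cont (p := p) hW hQ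
  have hQ' : (0 : ℝ) < Q := by exact_mod_cast hQ
  -- the set of the positions on leaves at time `s₀`
  obtain ⟨Z, hZ⟩ : ∃ Z : Set ℝ, Z = {x | Dm W s₀ (s₀ + Q) x (x + p) = EpQ W p Q} := ⟨_, rfl⟩
  have hZm : ∀ x, x ∈ Z ↔ Dm W s₀ (s₀ + Q) x (x + p) = EpQ W p Q := fun x => by
    rw [hZ]
    exact Iff.rfl
  have hZc : IsClosed Z := by
    rw [hZ]
    exact isClosed_eq (hF.comp (continuous_const.prodMk continuous_id)) continuous_const
  have hZp : ∀ x ∈ Z, ∀ k : ℤ, x + k ∈ Z := by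
    intro x hx k
    rw [hZm] at hx ⊢
    have h1 := Dm_per hW s₀ (s₀ + Q) x (x + p) 0 k
    have e1 : s₀ + ((0 : ℤ) : ℝ) * 1 = s₀ := by simp
    have e2 : s₀ + Q + ((0 : ℤ) : ℝ) * 1 = s₀ + Q := by simp
    have e3 : x + k + p = x + p + k := by ring
    rw [e1, e2] at h1
    rw [e3, h1]
    exact hx
  have hx₀Z : x₀ ∉ Z := fun h1 => hx₀ ((hZm x₀).1 h1)
  obtain ⟨z, hz⟩ := Ep_attained (p := p) hW hQ s₀
  rw [← hZm] at hz
  have hfl1 := Int.floor_le (x₀ - z)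
  have hfl2 := Int.lt_floor_add_one (x₀ - z)
  have hne1 : (Z ∩ Set.Iic x₀).Nonempty :=
    ⟨z + (⌊x₀ - z⌋ : ℤ), hZp z hz _, by
      rw [Set.mem_Iic]
      linarith⟩
  have hne2 : (Z ∩ Set.Ici x₀).Nonempty :=
    ⟨z + ((⌊x₀ - z⌋ + 1 : ℤ) : ℝ), hZp z hz _, by
      rw [Set.mem_Ici]
      push_cast
      linarith⟩
  have hbd1 : BddAbove (Z ∩ Set.Iic x₀) := ⟨x₀, fun y hy => hy.2⟩
  have hbd2 : BddBelow (Z ∩ Set.Ici x₀) := ⟨x₀, fun y hy => hy.2⟩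
  have hxa := (hZc.inter isClosed_Iic).csSup_mem hne1 hbd1
  have hxc := (hZc.inter isClosed_Ici).csInf_mem hne2 hbd2
  have hmid : ∀ y ∈ Z, ¬ (sSup (Z ∩ Set.Iic x₀) < y ∧ y < sInf (Z ∩ Set.Ici x₀)) := by
    rintro y hy ⟨h1, h2⟩
    rcases le_total y x₀ with h3 | h3
    · exact absurd (le_csSup hbd1 ⟨hy, h3⟩) (not_le.2 h1)
    · exact absurd (csInf_le hbd2 ⟨hy, h3⟩) (not_le.2 h2)
  obtain ⟨xa, hxa'⟩ : ∃ xa, xa = sSup (Z ∩ Set.Iic x₀) := ⟨_, rfl⟩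
  obtain ⟨xc, hxc'⟩ : ∃ xc, xc = sInf (Z ∩ Set.Ici x₀) := ⟨_, rfl⟩
  rw [← hxa'] at hxa hmid
  rw [← hxc'] at hxc hmid
  have hac : xa < xc := by
    have h1 : xa ≤ x₀ := hxa.2
    have h2 : x₀ ≤ xc := hxc.2
    rcases lt_or_eq_of_le h1 with h3 | h3
    · linarith
    · exact absurd (h3 ▸ hxa.1) hx₀Z
  obtain ⟨γa, va, hla, hga⟩ := leaf_exists hW hQ ((hZm xa).1 hxa.1)
  obtain ⟨γc, vc, hlc, hgc⟩ := leaf_exists hW hQ ((hZm xc).1 hxc.1)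
  have hord : ∀ t, γa t < γc t := leaf_order hW hQ hla hlc (s := s₀) (by rw [hga, hgc]; exact hac)
  obtain ⟨Bc, hBc⟩ : ∃ Bc : ℝ → ℝ, Bc = fun t => (γa t + γc t) / 2 := ⟨_, rfl⟩
  have hcont : Continuous Bc := by
    have h1 : Continuous γa := continuous_iff_continuousAt.2 fun t => (hla.ext.der t).continuousAt
    have h2 : Continuous γc := continuous_iff_continuousAt.2 fun t => (hlc.ext.der t).continuousAt
    rw [hBc]
    exact (h1.add h2).div_const 2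
  have hper : ∀ t, Bc (t + Q) = Bc t + p := by
    intro t
    rw [hBc]
    simp only
    rw [hla.per, hlc.per]
    ring
  have hlt : ∀ t, EpQ W p Q < Dm W t (t + Q) (Bc t) (Bc t + p) := by
    intro t
    refine lt_of_le_of_ne (Ep_le hW hQ t (Bc t)) fun heq => ?_
    obtain ⟨γ, v, hl, hg⟩ := leaf_exists hW hQ heq.symm
    have h0 := hord t
    have hBt : Bc t = (γa t + γc t) / 2 := by rw [hBc]
    have h1 : γa s₀ < γ s₀ := leaf_order hW hQ hla hl (s := t) (by rw [hg, hBt]; linarith) s₀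
    have h2 : γ s₀ < γc s₀ := leaf_order hW hQ hl hlc (s := t) (by rw [hg, hBt]; linarith) s₀
    rw [hga] at h1
    rw [hgc] at h2
    exact hmid (γ s₀) ((hZm _).2 (leaf_zero hW hQ hl s₀)) ⟨h1, h2⟩
  have hG : Continuous fun t => Dm W t (t + Q) (Bc t) (Bc t + p) :=
    hF.comp (continuous_id.prodMk hcont)
  have hGp : Function.Periodic (fun t => Dm W t (t + Q) (Bc t) (Bc t + p)) (Q : ℝ) := by
    intro t
    simp only
    rw [hper]
    have h1 := Dm_per hW t (t + Q) (Bc t) (Bc t + p) (Q : ℤ) p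
    have e1 : (((Q : ℤ) : ℝ)) * 1 = Q := by simp
    rw [e1] at h1
    exact h1
  obtain ⟨t₁, ht₁, hmin⟩ := isCompact_Icc.exists_isMinOn (Set.nonempty_Icc.2 hQ'.le)
    (hG.continuousOn (s := Set.Icc 0 (Q : ℝ)))
  refine ⟨Bc, Dm W t₁ (t₁ + Q) (Bc t₁) (Bc t₁ + p) - EpQ W p Q, hcont, hper, by linarith [hlt t₁],
    fun t => ?_⟩
  obtain ⟨t', ht', he⟩ := hGp.exists_mem_Ico₀ hQ' t
  have h1 := hmin (Set.mem_Icc.2 ⟨ht'.1, ht'.2.le⟩)
  simp only [Set.mem_ofPred_eq] at h1 he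
  rw [he]
  linarith

end Pool.Agent.H33.AN
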