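import Pool.Agent.H33.AN.Basic
import Pool.Agent.H33.AM.P.F1

/-!
# Module G2: the equation `x'' = - W₁(x, t)`

First order system in `(x, v, s)`: `(v, -W₁(x, s), 1)`, globally Lipschitz; `flow_of_lipschitz` of the
imported module gives the flow.
* `ext_close`: Gronwall.
* `ext_vbound`: `|v t - v s| ≤ B |t - s|`, and the mean value of `v` over `[a, b]` is
  `(γ b - γ a)/(b - a)`.
* `HW.per₁'`, `HW.per₂'`: derivatives of periodic functions.
-/

set_option autoImplicit false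

open MeasureTheory
open scoped RealInnerProductSpace

namespace Pool.Agent.H33.AN

variable {Tp B : ℝ} {W W₁ W₂ : ℝ → ℝ → ℝ}

private theorem g2_d1 (hW : HW Tp W W₁ W₂ B) (x t : ℝ) :
    HasDerivAt (fun y => W y t) (W₁ x t) x := by
  have h1 : HasDerivAt (fun y : ℝ => (y, t)) ((1 : ℝ), (0 : ℝ)) x :=
    (hasDerivAt_id x).prodMk (hasDerivAt_const x t)
  have h2 := HasFDerivAt.comp_hasDerivAt (f := fun y : ℝ => (y, t)) x (hW.der x t) h1
  have h3 : (W₁ x t • ContinuousLinearMap.fst ℝ ℝ ℝ + W₂ x t • ContinuousLinearMap.snd ℝ ℝ ℝ)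
      ((1 : ℝ), (0 : ℝ)) = W₁ x t := by simp
  rw [h3] at h2
  exact h2

theorem HW.per₁' (hW : HW Tp W W₁ W₂ B) (x t : ℝ) : W₁ (x + 1) t = W₁ x t := by
  have h1 := (g2_d1 hW (x + 1) t).comp_add_const x 1
  have h2 : (fun y => W (y + 1) t) = fun y => W y t := funext fun y => hW.per₁ y t
  rw [h2] at h1
  exact h1.unique (g2_d1 hW x t)

theorem HW.per₂' (hW : HW Tp W W₁ W₂ B) (x t : ℝ) : W₁ x (t + Tp) = W₁ x t := by
  have h1 := g2_d1 hW x (t + Tp)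
  have h2 : (fun y => W y (t + Tp)) = fun y => W y t := funext fun y => hW.per₂ y t
  rw [h2] at h1
  exact h1.unique (g2_d1 hW x t)

theorem ext_exists (hW : HW Tp W W₁ W₂ B) (t₀ x₀ v₀ : ℝ) :
    ∃ γ v : ℝ → ℝ, Ext W₁ γ v ∧ γ t₀ = x₀ ∧ v t₀ = v₀ := by
  have hB := hW.nonneg
  let Y : ℝ × ℝ × ℝ → ℝ × ℝ × ℝ := fun z => (z.2.1, -W₁ z.1 z.2.2, 1)
  have hY : LipschitzWith ⟨1 + 2 * B, by positivity⟩ Y := by
    refine LipschitzWith.of_dist_le_mul fun z z' => ?_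
    have hz1 : |z.1 - z'.1| ≤ dist z z' := le_max_left (dist z.1 z'.1) (dist z.2 z'.2)
    have hz2 : dist z.2 z'.2 ≤ dist z z' := le_max_right (dist z.1 z'.1) (dist z.2 z'.2)
    have hz3 : |z.2.1 - z'.2.1| ≤ dist z.2 z'.2 :=
      le_max_left (dist z.2.1 z'.2.1) (dist z.2.2 z'.2.2)
    have hz4 : |z.2.2 - z'.2.2| ≤ dist z.2 z'.2 :=
      le_max_right (dist z.2.1 z'.2.1) (dist z.2.2 z'.2.2)
    have hd : 0 ≤ dist z z' := dist_nonneg
    show max |z.2.1 - z'.2.1| (max |(-W₁ z.1 z.2.2) - (-W₁ z'.1 z'.2.2)| (dist (1 : ℝ) 1)) ≤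
      (1 + 2 * B) * dist z z'
    refine max_le ?_ (max_le ?_ ?_)
    · nlinarith
    · have h1 := hW.lip z.1 z.2.2 z'.1 z'.2.2
      have h2 : |(-W₁ z.1 z.2.2) - (-W₁ z'.1 z'.2.2)| = |W₁ z.1 z.2.2 - W₁ z'.1 z'.2.2| := by
        rw [← abs_neg]
        congr 1
        ring
      rw [h2]
      have h3 : B * (|z.1 - z'.1| + |z.2.2 - z'.2.2|) ≤ B * (2 * dist z z') :=
        mul_le_mul_of_nonneg_left (by linarith) hB
      nlinarith
    · rw [dist_self]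
      positivity
  obtain ⟨φ, hφ⟩ := AM.flow_of_lipschitz hY
  set ψ : ℝ → ℝ × ℝ × ℝ := fun t => φ (t - t₀) (x₀, v₀, t₀) with hψ
  have hψd : ∀ t, HasDerivAt ψ (Y (ψ t)) t := fun t =>
    (hφ.der (x₀, v₀, t₀) (t - t₀)).comp_sub_const t t₀
  have hψ0 : ψ t₀ = (x₀, v₀, t₀) := by
    rw [hψ]
    show φ (t₀ - t₀) (x₀, v₀, t₀) = _
    rw [sub_self, hφ.zero]
  have d1 : ∀ t, HasDerivAt (fun t => (ψ t).1) (ψ t).2.1 t := fun t =>
    (ContinuousLinearMap.fst ℝ ℝ (ℝ × ℝ)).hasFDerivAt.comp_hasDerivAt t (hψd t)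
  have d0 : ∀ t, HasDerivAt (fun t => (ψ t).2) (Y (ψ t)).2 t := fun t =>
    (ContinuousLinearMap.snd ℝ ℝ (ℝ × ℝ)).hasFDerivAt.comp_hasDerivAt t (hψd t)
  have d2 : ∀ t, HasDerivAt (fun t => (ψ t).2.1) (-W₁ (ψ t).1 (ψ t).2.2) t := fun t =>
    (ContinuousLinearMap.fst ℝ ℝ ℝ).hasFDerivAt.comp_hasDerivAt t (d0 t)
  have d3 : ∀ t, HasDerivAt (fun t => (ψ t).2.2) 1 t := fun t =>
    (ContinuousLinearMap.snd ℝ ℝ ℝ).hasFDerivAt.comp_hasDerivAt t (d0 t)
  have hs : ∀ t, (ψ t).2.2 = t := by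
    intro t
    have h1 : ∀ t, HasDerivAt (fun t => (ψ t).2.2 - t) 0 t := fun t => by
      have := (d3 t).sub (hasDerivAt_id t)
      rwa [sub_self] at this
    have h2 := is_const_of_deriv_eq_zero (fun t => (h1 t).differentiableAt)
      (fun t => (h1 t).deriv) t t₀
    rw [hψ0] at h2
    simp only at h2
    linarith
  refine ⟨fun t => (ψ t).1, fun t => (ψ t).2.1, ⟨d1, fun t => ?_⟩, ?_, ?_⟩
  · have := d2 t
    rwa [hs t] at this
  · show (ψ t₀).1 = x₀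
    rw [hψ0]
  · show (ψ t₀).2.1 = v₀
    rw [hψ0]

private theorem g2_gron {E : Type*} [NormedAddCommGroup E] [NormedSpace ℝ E] {f f' : ℝ → E}
    {K : ℝ} (hf : ∀ t, HasDerivAt f (f' t) t) (hb : ∀ t, ‖f' t‖ ≤ K * ‖f t‖) (t₀ t : ℝ) :
    ‖f t‖ ≤ ‖f t₀‖ * Real.exp (K * |t - t₀|) := by
  have key : ∀ (f f' : ℝ → E), (∀ t, HasDerivAt f (f' t) t) → (∀ t, ‖f' t‖ ≤ K * ‖f t‖) →
      ∀ t₀ t, t₀ ≤ t → ‖f t‖ ≤ ‖f t₀‖ * Real.exp (K * (t - t₀)) := by
    intro f f' hf hb t₀ t ht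
    have h := norm_le_gronwallBound_of_norm_deriv_right_le (f := f) (f' := f') (δ := ‖f t₀‖)
      (K := K) (ε := 0) (a := t₀) (b := t)
      (fun x _ => (hf x).continuousAt.continuousWithinAt)
      (fun x _ => (hf x).hasDerivWithinAt) le_rfl
      (fun x _ => by rw [add_zero]; exact hb x) t ⟨ht, le_rfl⟩
    rwa [gronwallBound_ε0] at h
  rcases le_total t₀ t with h | h
  · rw [abs_of_nonneg (by linarith)]
    exact key f f' hf hb t₀ t h
  · rw [abs_of_nonpos (by linarith)]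
    have h1 : ∀ s, HasDerivAt (fun s => f (-s)) (-f' (-s)) s := fun s => by
      have := (hf (-s)).scomp s (hasDerivAt_neg s)
      rw [neg_smul, one_smul] at this
      exact this
    have h2 := key (fun s => f (-s)) (fun s => -f' (-s)) h1
      (fun s => by rw [norm_neg]; exact hb (-s)) (-t₀) (-t) (by linarith)
    simp only [neg_neg] at h2
    have e : -t - -t₀ = -(t - t₀) := by ring
    rwa [e] at h2

theorem ext_close (hW : HW Tp W W₁ W₂ B) {γ v γ' v' : ℝ → ℝ} (h : Ext W₁ γ v)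
    (h' : Ext W₁ γ' v') (t₀ t : ℝ) :
    |γ t - γ' t| + |v t - v' t| ≤
      (|γ t₀ - γ' t₀| + |v t₀ - v' t₀|) * Real.exp ((1 + B) * |t - t₀|) := by
  have hB := hW.nonneg
  let f : ℝ → WithLp 1 (ℝ × ℝ) := fun t => WithLp.toLp 1 (γ t - γ' t, v t - v' t)
  let f' : ℝ → WithLp 1 (ℝ × ℝ) := fun t =>
    WithLp.toLp 1 (v t - v' t, (-W₁ (γ t) t) - (-W₁ (γ' t) t))
  have hf : ∀ t, HasDerivAt f (f' t) t := by
    intro t
    have h1 : HasDerivAt (fun t => (γ t - γ' t, v t - v' t))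
        (v t - v' t, (-W₁ (γ t) t) - (-W₁ (γ' t) t)) t :=
      ((h.der t).sub (h'.der t)).prodMk ((h.el t).sub (h'.el t))
    exact (WithLp.prodContinuousLinearEquiv 1 ℝ ℝ ℝ).symm.toContinuousLinearMap.hasFDerivAt
      |>.comp_hasDerivAt t h1
  have hn : ∀ t, ‖f t‖ = |γ t - γ' t| + |v t - v' t| := fun t =>
    WithLp.prod_norm_eq_of_L1 (f t)
  have hb : ∀ t, ‖f' t‖ ≤ (1 + B) * ‖f t‖ := by
    intro t
    have h1 : ‖f' t‖ = |v t - v' t| + |(-W₁ (γ t) t) - (-W₁ (γ' t) t)| :=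
      WithLp.prod_norm_eq_of_L1 (f' t)
    rw [h1, hn t]
    have h2 := hW.lip (γ t) t (γ' t) t
    rw [sub_self, abs_zero, add_zero] at h2
    have h3 : |(-W₁ (γ t) t) - (-W₁ (γ' t) t)| = |W₁ (γ t) t - W₁ (γ' t) t| := by
      rw [← abs_neg]
      congr 1
      ring
    rw [h3]
    nlinarith [abs_nonneg (γ t - γ' t), abs_nonneg (v t - v' t),
      mul_nonneg hB (abs_nonneg (v t - v' t))]
  have h4 := g2_gron hf hb t₀ t
  rwa [hn t, hn t₀] at h4

theorem ext_unique (hW : HW Tp W W₁ W₂ B) {γ v γ' v' : ℝ → ℝ} (h : Ext W₁ γ v)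
    (h' : Ext W₁ γ' v') {t₀ : ℝ} (hx : γ t₀ = γ' t₀) (hv : v t₀ = v' t₀) : γ = γ' ∧ v = v' := by
  have key : ∀ t, |γ t - γ' t| + |v t - v' t| ≤ 0 := by
    intro t
    have h1 := ext_close hW h h' t₀ t
    rwa [hx, hv, sub_self, sub_self, abs_zero, add_zero, zero_mul] at h1
  constructor
  · funext t
    have h1 := key t
    have h2 : |γ t - γ' t| = 0 := le_antisymm (by linarith [abs_nonneg (v t - v' t)])
      (abs_nonneg _)
    linarith [abs_eq_zero.1 h2]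
  · funext t
    have h1 := key t
    have h2 : |v t - v' t| = 0 := le_antisymm (by linarith [abs_nonneg (γ t - γ' t)])
      (abs_nonneg _)
    linarith [abs_eq_zero.1 h2]

theorem ext_shift (hW : HW Tp W W₁ W₂ B) {γ v : ℝ → ℝ} (h : Ext W₁ γ v) (j k : ℤ) :
    Ext W₁ (fun t => γ (t + j * Tp) + k) fun t => v (t + j * Tp) := by
  have hp1 : ∀ x t, W₁ (x + k) t = W₁ x t := by
    intro x t
    have h1 : Function.Periodic (fun x => W₁ x t) 1 := fun x => hW.per₁' x t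
    have h2 := h1.int_mul k x
    rwa [mul_one] at h2
  have hp2 : ∀ x t, W₁ x (t + j * Tp) = W₁ x t := by
    intro x t
    have h1 : Function.Periodic (fun t => W₁ x t) Tp := fun t => hW.per₂' x t
    exact h1.int_mul j t
  refine ⟨fun t => ?_, fun t => ?_⟩
  · exact ((h.der (t + j * Tp)).comp_add_const t (j * Tp)).add_const (k : ℝ)
  · have h1 := (h.el (t + j * Tp)).comp_add_const t (j * Tp)
    rw [hp2] at h1
    show HasDerivAt (fun t => v (t + j * Tp)) (-W₁ (γ (t + j * Tp) + k) t) t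
    rw [hp1]
    exact h1

theorem ext_vbound (hW : HW Tp W W₁ W₂ B) {γ v : ℝ → ℝ} (h : Ext W₁ γ v) {a b : ℝ}
    (hab : a < b) {t : ℝ} (ht : t ∈ Set.Icc a b) :
    |v t - (γ b - γ a) / (b - a)| ≤ B * (b - a) := by
  obtain ⟨τ, hτ, he⟩ := exists_hasDerivAt_eq_slope γ v hab
    (fun x _ => (h.der x).continuousAt.continuousWithinAt) (fun x _ => h.der x)
  rw [← he]
  have h1 : ‖v t - v τ‖ ≤ B * ‖t - τ‖ :=
    convex_univ.norm_image_sub_le_of_norm_hasDerivWithin_le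
      (f := v) (f' := fun t => -W₁ (γ t) t) (s := Set.univ)
      (fun x _ => (h.el x).hasDerivWithinAt)
      (fun x _ => by rw [norm_neg, Real.norm_eq_abs]; exact hW.bd₁ _ _)
      (Set.mem_univ τ) (Set.mem_univ t)
  rw [Real.norm_eq_abs, Real.norm_eq_abs] at h1
  refine h1.trans (mul_le_mul_of_nonneg_left ?_ hW.nonneg)
  rw [abs_le]
  constructor
  · linarith [ht.1, hτ.2]
  · linarith [ht.2, hτ.1]

end Pool.Agent.H33.AN
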