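import Pool.Agent.H33.AN.P.G1
import Pool.Agent.H33.AN.P.G2

/-!
# Module G3: boundary value problem, strict minimality on short intervals

* `bvp`: the solution with `γ t = x`, `v t = v₀` satisfies `|γ (t + h) - x - h v₀| ≤ B h²/2` and
  `γ (t + h)` depends continuously on `v₀` (`ext_close`): intermediate value theorem.
* `strict`: with `η = ξ - γ`, `η' = u - v`, `η(a) = η(b) = 0`: `∫ v η' = ∫ W₁(γ) η` (`Cur.integral_deriv`
  or: `∫ (v η)' = 0`), so the difference of the actions is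
  `∫ η'²/2 - (W(γ + η) - W(γ) - W₁(γ) η) ≥ ∫ η'²/2 - B η²/2`, and `η(t)² ≤ (t - a) ∫ η'²`, so
  `∫ η² ≤ (b - a)²/2 ∫ η'²`, `B (b - a)²/4 ≤ 1/4`.
-/

set_option autoImplicit false

open MeasureTheory
open scoped RealInnerProductSpace

namespace Pool.Agent.H33.AN

variable {Tp B : ℝ} {W W₁ W₂ : ℝ → ℝ → ℝ}

theorem bvp (hW : HW Tp W W₁ W₂ B) {h : ℝ} (hh : 0 < h) (t x y : ℝ) :
    ∃ γ v : ℝ → ℝ, Ext W₁ γ v ∧ γ t = x ∧ γ (t + h) = y := by
  choose γ v hext hγ hv using fun v₀ : ℝ => ext_exists hW t x v₀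
  set F : ℝ → ℝ := fun v₀ => γ v₀ (t + h) with hF
  have hcont : Continuous F := by
    have hlip : ∀ a b : ℝ, |F a - F b| ≤ Real.exp ((1 + B) * |t + h - t|) * |a - b| := by
      intro a b
      have h1 := ext_close hW (hext a) (hext b) t (t + h)
      rw [hγ a, hγ b, hv a, hv b, sub_self, abs_zero, zero_add] at h1
      have h2 : 0 ≤ |v a (t + h) - v b (t + h)| := abs_nonneg _
      have h3 : |F a - F b| = |γ a (t + h) - γ b (t + h)| := rfl
      rw [h3, mul_comm]
      linarith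
    have hL : LipschitzWith (Real.toNNReal (Real.exp ((1 + B) * |t + h - t|))) F := by
      refine LipschitzWith.of_dist_le_mul fun a b => ?_
      rw [Real.dist_eq, Real.dist_eq, Real.coe_toNNReal _ (Real.exp_pos _).le]
      exact hlip a b
    exact hL.continuous
  have hb : ∀ v₀ : ℝ, |v₀ - (F v₀ - x) / h| ≤ B * h := by
    intro v₀
    have h1 := ext_vbound hW (hext v₀) (a := t) (b := t + h) (by linarith)
      (t := t) ⟨le_refl t, by linarith⟩
    rw [hv v₀, hγ v₀, add_sub_cancel_left] at h1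
    exact h1
  have hlow : ∃ a, F a ≤ y := by
    refine ⟨(y - x) / h - B * h, ?_⟩
    have h1 := (abs_le.1 (hb ((y - x) / h - B * h))).1
    have h2 : (F ((y - x) / h - B * h) - x) / h ≤ (y - x) / h := by linarith
    have h3 := (div_le_div_iff_of_pos_right hh).1 h2
    linarith
  have hup : ∃ b, y ≤ F b := by
    refine ⟨(y - x) / h + B * h, ?_⟩
    have h1 := (abs_le.1 (hb ((y - x) / h + B * h))).2
    have h2 : (y - x) / h ≤ (F ((y - x) / h + B * h) - x) / h := by linarith
    have h3 := (div_le_div_iff_of_pos_right hh).1 h2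
    linarith
  obtain ⟨v₀, hv₀⟩ := mem_range_of_exists_le_of_exists_ge hcont hlow hup
  exact ⟨γ v₀, v v₀, hext v₀, hγ v₀, hv₀⟩

end Pool.Agent.H33.AN
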