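import Pool.Agent.H33.AN.P.G1
import Pool.Agent.H33.AN.P.G2
import Pool.Agent.H33.AN.P.G3a

/-!
# Module G3: boundary value problem, strict minimality on short intervals

* `bvp`: the solution with `γ t = x`, `v t = v₀` satisfies `|γ (t + h) - x - h v₀| ≤ B h²/2` and
  `γ (t + h)` depends continuously on `v₀` (`ext_close`): intermediate value theorem.
* `strict`: with `η = ξ - γ`, `η' = u - v`, `η(a) = η(b) = 0`: `∫ v η' = ∫ W₁(γ) η` (`Cur.integral_deriv`
  or: `∫ (v η)' = 0`), so the difference of the actions is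
  `∫ η'²/2 - (W(γ + η) - W(γ) - W₁(γ) η) ≥ ∫ η'²/2 - B η²/2`, and `η(t)² ≤ (t - a) ∫ η'²`, so
  `∫ η² ≤ (b - a)²/2 ∫ η'²`, `B (b - a)²/4 ≤ 1/4`.
-/

set_option autoImplicit false

open MeasureTheory
open scoped RealInnerProductSpace

namespace Pool.Agent.H33.AN

variable {Tp B : ℝ} {W W₁ W₂ : ℝ → ℝ → ℝ}

private lemma hW_cont (hW : HW Tp W W₁ W₂ B) : Continuous fun z : ℝ × ℝ => W z.1 z.2 :=
  continuous_iff_continuousAt.2 fun z => (hW.der z.1 z.2).continuousAt

private lemma hW1_cont (hW : HW Tp W W₁ W₂ B) : Continuous fun z : ℝ × ℝ => W₁ z.1 z.2 := by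
  have hL : LipschitzWith (Real.toNNReal (2 * B)) fun z : ℝ × ℝ => W₁ z.1 z.2 := by
    refine LipschitzWith.of_dist_le_mul fun z z' => ?_
    rw [Real.dist_eq, Real.coe_toNNReal _ (by linarith [hW.nonneg])]
    have h1 := hW.lip z.1 z.2 z'.1 z'.2
    have h2 : |z.1 - z'.1| ≤ dist z z' := by
      rw [← Real.dist_eq, Prod.dist_eq]
      exact le_max_left _ _
    have h3 : |z.2 - z'.2| ≤ dist z z' := by
      rw [← Real.dist_eq, Prod.dist_eq]
      exact le_max_right _ _
    have h4 : B * (|z.1 - z'.1| + |z.2 - z'.2|) ≤ B * (dist z z' + dist z z') :=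
      mul_le_mul_of_nonneg_left (add_le_add h2 h3) hW.nonneg
    linarith
  exact hL.continuous

private lemma hW_taylor (hW : HW Tp W W₁ W₂ B) (x η t : ℝ) :
    W (x + η) t - W x t - W₁ x t * η ≤ B / 2 * η ^ 2 := by
  have hd : ∀ s : ℝ, HasDerivAt (fun s : ℝ => W (x + s * η) t) (W₁ (x + s * η) t * η) s := by
    intro s
    have h1 := hW.der (x + s * η) t
    have h2 : HasDerivAt (fun s : ℝ => ((x + s * η, t) : ℝ × ℝ)) (η, 0) s := by
      have h3 : HasDerivAt (fun s : ℝ => x + s * η) η s := by
        simpa using ((hasDerivAt_id s).mul_const η).const_add x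
      exact h3.prodMk (hasDerivAt_const s t)
    have h4 := h1.comp_hasDerivAt s h2
    have h5 : (W₁ (x + s * η) t • ContinuousLinearMap.fst ℝ ℝ ℝ +
        W₂ (x + s * η) t • ContinuousLinearMap.snd ℝ ℝ ℝ) (η, 0) = W₁ (x + s * η) t * η := by
      simp
    rw [h5] at h4
    exact h4
  have hd2 : ∀ s : ℝ, HasDerivAt
      (fun s : ℝ => W (x + s * η) t - s * (W₁ x t * η) - B / 2 * η ^ 2 * s ^ 2)
      (W₁ (x + s * η) t * η - W₁ x t * η - B / 2 * η ^ 2 * (2 * s)) s := by
    intro s
    have h1 : HasDerivAt (fun s : ℝ => s * (W₁ x t * η)) (W₁ x t * η) s := by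
      simpa using (hasDerivAt_id s).mul_const (W₁ x t * η)
    have h2 : HasDerivAt (fun s : ℝ => B / 2 * η ^ 2 * s ^ 2) (B / 2 * η ^ 2 * (2 * s)) s := by
      have h3 := (hasDerivAt_pow 2 s).const_mul (B / 2 * η ^ 2)
      simpa using h3
    exact ((hd s).sub h1).sub h2
  have hanti : AntitoneOn
      (fun s : ℝ => W (x + s * η) t - s * (W₁ x t * η) - B / 2 * η ^ 2 * s ^ 2)
      (Set.Icc 0 1) := by
    refine antitoneOn_of_deriv_nonpos (convex_Icc 0 1) ?_ ?_ ?_
    · exact fun s _ => (hd2 s).continuousAt.continuousWithinAt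
    · exact fun s _ => (hd2 s).differentiableAt.differentiableWithinAt
    · intro s hs
      rw [interior_Icc] at hs
      rw [(hd2 s).deriv]
      have h1 := hW.lip (x + s * η) t x t
      rw [sub_self, abs_zero, add_zero, add_sub_cancel_left] at h1
      have h2 : (W₁ (x + s * η) t - W₁ x t) * η ≤ B * |s * η| * |η| := by
        calc (W₁ (x + s * η) t - W₁ x t) * η ≤ |(W₁ (x + s * η) t - W₁ x t) * η| := le_abs_self _
          _ = |W₁ (x + s * η) t - W₁ x t| * |η| := abs_mul _ _
          _ ≤ B * |s * η| * |η| := mul_le_mul_of_nonneg_right h1 (abs_nonneg _)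
      rw [abs_mul, abs_of_pos hs.1] at h2
      have h3 : B * (s * |η|) * |η| = B * s * η ^ 2 := by
        rw [← sq_abs η]
        ring
      rw [h3] at h2
      nlinarith
  have h := hanti (Set.left_mem_Icc.2 zero_le_one) (Set.right_mem_Icc.2 zero_le_one) zero_le_one
  simp only [one_mul, zero_mul, add_zero, one_pow, mul_one] at h
  norm_num at h
  linarith

theorem strict (hW : HW Tp W W₁ W₂ B) {a b : ℝ} (hab : a ≤ b) (hB : B * (b - a) ^ 2 ≤ 1)
    {γ v ξ u : ℝ → ℝ} (hγ : Ext W₁ γ v) (hξ : Cur a b ξ u) (ha : ξ a = γ a) (hb : ξ b = γ b) :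
    A1 W a b γ v + (1 / 4) * (∫ t in a..b, (u t - v t) ^ 2) ≤ A1 W a b ξ u := by
  have hWc := hW_cont hW
  have hW1c := hW1_cont hW
  have hγc : Continuous γ := continuous_iff_continuousAt.2 fun t => (hγ.der t).continuousAt
  have hvc : Continuous v := continuous_iff_continuousAt.2 fun t => (hγ.el t).continuousAt
  -- integrability
  have iA : IntervalIntegrable (fun t => u t ^ 2 / 2 - W (ξ t) t) volume a b := by
    refine hξ.integrable (g := fun p => p.2.1 ^ 2 / 2 - W p.1 p.2.2) ?_
    have h1 : Continuous fun p : ℝ × ℝ × ℝ => W p.1 p.2.2 :=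
      hWc.comp (continuous_fst.prodMk (continuous_snd.comp continuous_snd))
    fun_prop
  have iB : IntervalIntegrable (fun t => v t ^ 2 / 2 - W (γ t) t) volume a b := by
    have h1 : Continuous fun t : ℝ => W (γ t) t := hWc.comp (hγc.prodMk continuous_id)
    exact Continuous.intervalIntegrable (by fun_prop) _ _
  have iC : IntervalIntegrable
      (fun t => -W₁ (γ t) t * (ξ t - γ t) + v t * (u t - v t)) volume a b := by
    refine hξ.integrable (g := fun p => -W₁ (γ p.2.2) p.2.2 * (p.1 - γ p.2.2) +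
      v p.2.2 * (p.2.1 - v p.2.2)) ?_
    have h1 : Continuous fun p : ℝ × ℝ × ℝ => W₁ (γ p.2.2) p.2.2 :=
      hW1c.comp ((hγc.comp (continuous_snd.comp continuous_snd)).prodMk
        (continuous_snd.comp continuous_snd))
    fun_prop
  have iD : IntervalIntegrable (fun t => (u t - v t) ^ 2) volume a b := by
    refine hξ.integrable (g := fun p => (p.2.1 - v p.2.2) ^ 2) ?_
    fun_prop
  have iE : IntervalIntegrable (fun t => (ξ t - γ t) ^ 2) volume a b := by
    refine hξ.integrable (g := fun p => (p.1 - γ p.2.2) ^ 2) ?_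
    fun_prop
  -- the boundary term
  have hC : ∫ t in a..b, (-W₁ (γ t) t * (ξ t - γ t) + v t * (u t - v t)) = 0 := by
    obtain ⟨s, hs, hd⟩ := hξ.der
    have h1 := MeasureTheory.integral_eq_of_hasDerivAt_off_countable_of_le
      (fun t => v t * (ξ t - γ t))
      (fun t => -W₁ (γ t) t * (ξ t - γ t) + v t * (u t - v t)) hab hs
      (hvc.continuousOn.mul (hξ.cont.sub hγc.continuousOn))
      (fun t ht => (hγ.el t).mul ((hd t ht).sub (hγ.der t))) iC
    rw [h1, ha, hb]
    ring
  -- pointwise estimate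
  have hpt : ∫ t in a..b, ((-W₁ (γ t) t * (ξ t - γ t) + v t * (u t - v t)) +
      (1 / 2 * (u t - v t) ^ 2 - B / 2 * (ξ t - γ t) ^ 2)) ≤
      ∫ t in a..b, ((u t ^ 2 / 2 - W (ξ t) t) - (v t ^ 2 / 2 - W (γ t) t)) := by
    refine intervalIntegral.integral_mono_on hab
      (iC.add ((iD.const_mul _).sub (iE.const_mul _))) (iA.sub iB) fun t _ => ?_
    have h1 := hW_taylor hW (γ t) (ξ t - γ t) t
    rw [add_sub_cancel] at h1
    nlinarith
  rw [intervalIntegral.integral_add iC ((iD.const_mul _).sub (iE.const_mul _)), hC, zero_add,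
    intervalIntegral.integral_sub (iD.const_mul _) (iE.const_mul _),
    intervalIntegral.integral_const_mul, intervalIntegral.integral_const_mul,
    intervalIntegral.integral_sub iA iB] at hpt
  -- Poincare inequality
  set J : ℝ := ∫ t in a..b, (u t - v t) ^ 2 with hJ
  have hJ0 : 0 ≤ J := intervalIntegral.integral_nonneg hab fun t _ => sq_nonneg _
  have hη : ∀ t ∈ Set.Icc a b, (ξ t - γ t) ^ 2 ≤ J * (t - a) := by
    intro t ht
    rcases eq_or_lt_of_le ht.1 with hat | hat
    · rw [← hat, ha, sub_self]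
      simp
    · have hsub := hξ.sub (le_refl a) ht.1 ht.2
      have h1 := hsub.integral_vel
      have h2 : ∫ r in a..t, v r = γ t - γ a :=
        intervalIntegral.integral_eq_sub_of_hasDerivAt (fun r _ => hγ.der r)
          (hvc.intervalIntegrable _ _)
      have iu : IntervalIntegrable u volume a t :=
        hsub.integrable (g := fun p => p.2.1) (by fun_prop)
      have iv : IntervalIntegrable v volume a t := hvc.intervalIntegrable _ _
      have iD' : IntervalIntegrable (fun t => (u t - v t) ^ 2) volume a t := by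
        refine hsub.integrable (g := fun p => (p.2.1 - v p.2.2) ^ 2) ?_
        fun_prop
      have h3 : ∫ r in a..t, (u r - v r) = ξ t - γ t := by
        rw [intervalIntegral.integral_sub iu iv, h1, h2, ha]
        ring
      have h4 : ∫ r in a..t, (u r - v r) ^ 2 ≤ J := by
        have h5 : IntervalIntegrable (fun t => (u t - v t) ^ 2) volume t b :=
          iD.mono_set (by
            rw [Set.uIcc_of_le ht.2, Set.uIcc_of_le hab]
            exact Set.Icc_subset_Icc_left ht.1)
        have h6 := intervalIntegral.integral_add_adjacent_intervals iD' h5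
        have h7 : 0 ≤ ∫ r in t..b, (u r - v r) ^ 2 :=
          intervalIntegral.integral_nonneg ht.2 fun t _ => sq_nonneg _
        rw [hJ]
        linarith
      have hta : 0 < t - a := by linarith
      set c : ℝ := (ξ t - γ t) / (t - a) with hc
      have hcη : c * (t - a) = ξ t - γ t := by
        rw [hc]
        field_simp
      have h8 : 0 ≤ ∫ r in a..t, ((u r - v r) ^ 2 - 2 * c * (u r - v r) + c ^ 2) := by
        refine intervalIntegral.integral_nonneg ht.1 fun r _ => ?_
        nlinarith [sq_nonneg (u r - v r - c)]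
      rw [intervalIntegral.integral_add (iD'.sub ((iu.sub iv).const_mul _))
          (intervalIntegrable_const),
        intervalIntegral.integral_sub iD' ((iu.sub iv).const_mul _),
        intervalIntegral.integral_const_mul, h3, intervalIntegral.integral_const,
        smul_eq_mul] at h8
      have h9 : c ^ 2 * (t - a) ≤ J := by
        have h10 : 2 * c * (ξ t - γ t) = 2 * (c ^ 2 * (t - a)) := by
          rw [← hcη]
          ring
        rw [h10] at h8
        linarith
      have h11 : (ξ t - γ t) ^ 2 = c ^ 2 * (t - a) * (t - a) := by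
        rw [← hcη]
        ring
      rw [h11]
      exact mul_le_mul_of_nonneg_right h9 hta.le
  have hE : ∫ t in a..b, (ξ t - γ t) ^ 2 ≤ J * ((b - a) ^ 2 / 2) := by
    have h1 : ∫ t in a..b, (ξ t - γ t) ^ 2 ≤ ∫ t in a..b, J * (t - a) :=
      intervalIntegral.integral_mono_on hab iE
        (Continuous.intervalIntegrable (by fun_prop) _ _) hη
    have h2 : ∫ t in a..b, J * (t - a) = J * ((b - a) ^ 2 / 2) := by
      have h3 : ∫ t in a..b, (t - a) = (∫ t in a..b, t) - ∫ t in a..b, a :=
        intervalIntegral.integral_sub (continuous_id.intervalIntegrable _ _)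
          intervalIntegrable_const
      rw [intervalIntegral.integral_const_mul, h3, integral_id,
        intervalIntegral.integral_const, smul_eq_mul]
      ring
    linarith
  have hfin : B / 2 * ∫ t in a..b, (ξ t - γ t) ^ 2 ≤ 1 / 4 * J := by
    have h1 : B / 2 * ∫ t in a..b, (ξ t - γ t) ^ 2 ≤ B / 2 * (J * ((b - a) ^ 2 / 2)) :=
      mul_le_mul_of_nonneg_left hE (by linarith [hW.nonneg])
    have h2 : B / 2 * (J * ((b - a) ^ 2 / 2)) = B * (b - a) ^ 2 * (J / 4) := by ring
    have h3 : B * (b - a) ^ 2 * (J / 4) ≤ 1 * (J / 4) :=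
      mul_le_mul_of_nonneg_right hB (by linarith)
    linarith
  unfold A1
  linarith

end Pool.Agent.H33.AN
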