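import Pool.Agent.H33.AN.P.G3

/-!
# Module G4: the minimal action `Dm`: elementary properties

* The set in the definition of `Dm` is not empty (line) and bounded below by `-B (t - s)`.
* `Dm_lip`: from a curve `ξ` from `(x, s)` to `(y, t)` make the curve `ξ(τ) + (p + q τ)` from `(x', s)` to
  `(y', t)` (`Cur.add_lin`), `|q| ≤ (|x - x'| + |y - y'|)/(t - s)`; the action changes by
  `q (y - x) + q² (t - s)/2 - ∫ (W(ξ + ..) - W(ξ))`. The factor `1 + |x - x'| + |y - y'|` takes care of `q²`.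
* `Dm_triangle`: `Cur.concat`. `Dm_per`: shift.
-/

set_option autoImplicit false

open MeasureTheory
open scoped RealInnerProductSpace

namespace Pool.Agent.H33.AN

variable {Tp B : ℝ} {W W₁ W₂ : ℝ → ℝ → ℝ}

private theorem g4a_cont (hW : HW Tp W W₁ W₂ B) : Continuous fun z : ℝ × ℝ => W z.1 z.2 :=
  continuous_iff_continuousAt.2 fun z => (hW.der z.1 z.2).continuousAt

private theorem g4a_int (hW : HW Tp W W₁ W₂ B) {s t : ℝ} {ξ u : ℝ → ℝ} (h : Cur s t ξ u) :
    IntervalIntegrable (fun τ => u τ ^ 2 / 2 - W (ξ τ) τ) volume s t := by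
  have hc := g4a_cont hW
  have h1 : Continuous fun p : ℝ × ℝ × ℝ => p.2.1 ^ 2 / 2 - W p.1 p.2.2 := by
    have h2 : Continuous fun p : ℝ × ℝ × ℝ => W p.1 p.2.2 :=
      hc.comp (f := fun p : ℝ × ℝ × ℝ => (p.1, p.2.2)) (by fun_prop)
    fun_prop
  exact h.integrable h1

private theorem g4a_intu {s t : ℝ} {ξ u : ℝ → ℝ} (h : Cur s t ξ u) :
    IntervalIntegrable u volume s t := by
  have h1 : Continuous fun p : ℝ × ℝ × ℝ => p.2.1 := by fun_prop
  exact h.integrable h1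

private theorem g4a_lower (hW : HW Tp W W₁ W₂ B) {s t : ℝ} {ξ u : ℝ → ℝ} (h : Cur s t ξ u)
    (q : ℝ) : q * (ξ t - ξ s) - (q ^ 2 / 2 + B) * (t - s) ≤ A1 W s t ξ u := by
  have h1 : ∫ τ in s..t, (q * u τ - (q ^ 2 / 2 + B)) = q * (ξ t - ξ s) - (q ^ 2 / 2 + B) * (t - s) := by
    rw [intervalIntegral.integral_sub ((g4a_intu h).const_mul q) intervalIntegrable_const,
      intervalIntegral.integral_const_mul, h.integral_vel, intervalIntegral.integral_const,
      smul_eq_mul]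
    ring
  rw [← h1]
  unfold A1
  refine intervalIntegral.integral_mono_on h.le
    (((g4a_intu h).const_mul q).sub intervalIntegrable_const) (g4a_int hW h) ?_
  intro τ _
  have h2 := (abs_le.1 (hW.bd (ξ τ) τ)).2
  nlinarith [sq_nonneg (u τ - q)]

private theorem g4a_bdd (hW : HW Tp W W₁ W₂ B) (s t x y : ℝ) :
    BddBelow {r | ∃ ξ u : ℝ → ℝ, Cur s t ξ u ∧ ξ s = x ∧ ξ t = y ∧ A1 W s t ξ u = r} := by
  refine ⟨-(B * (t - s)), ?_⟩
  rintro r ⟨ξ, u, h, -, -, rfl⟩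
  have := g4a_lower hW h 0
  nlinarith

private theorem g4a_line {s t : ℝ} (hst : s < t) (x y : ℝ) :
    Cur s t (fun τ => (x - (y - x) / (t - s) * s) + (y - x) / (t - s) * τ)
      (fun _ => (y - x) / (t - s)) ∧
    (x - (y - x) / (t - s) * s) + (y - x) / (t - s) * s = x ∧
    (x - (y - x) / (t - s) * s) + (y - x) / (t - s) * t = y := by
  refine ⟨Cur.line hst.le _ _, by ring, ?_⟩
  have h1 : t - s ≠ 0 := (sub_pos.2 hst).ne'
  have h2 : (y - x) / (t - s) * (t - s) = y - x := div_mul_cancel₀ _ h1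
  linear_combination h2

private theorem g4a_ne {s t : ℝ} (hst : s < t) (x y : ℝ) :
    {r | ∃ ξ u : ℝ → ℝ, Cur s t ξ u ∧ ξ s = x ∧ ξ t = y ∧ A1 W s t ξ u = r}.Nonempty := by
  obtain ⟨h1, h2, h3⟩ := g4a_line hst x y
  exact ⟨_, _, _, h1, h2, h3, rfl⟩

theorem Dm_le (hW : HW Tp W W₁ W₂ B) {s t : ℝ} {ξ u : ℝ → ℝ} (h : Cur s t ξ u) :
    Dm W s t (ξ s) (ξ t) ≤ A1 W s t ξ u :=
  csInf_le (g4a_bdd hW s t _ _) ⟨ξ, u, h, rfl, rfl, rfl⟩

theorem le_Dm (hW : HW Tp W W₁ W₂ B) {s t x y r : ℝ} (hst : s < t)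
    (h : ∀ ξ u : ℝ → ℝ, Cur s t ξ u → ξ s = x → ξ t = y → r ≤ A1 W s t ξ u) :
    r ≤ Dm W s t x y := by
  refine le_csInf (g4a_ne hst x y) ?_
  rintro r' ⟨ξ, u, h1, h2, h3, rfl⟩
  exact h ξ u h1 h2 h3

/-- Almost minimising curves. -/
theorem exists_near (hW : HW Tp W W₁ W₂ B) {s t : ℝ} (hst : s < t) (x y : ℝ) {ε : ℝ} (hε : 0 < ε) :
    ∃ ξ u : ℝ → ℝ, Cur s t ξ u ∧ ξ s = x ∧ ξ t = y ∧ A1 W s t ξ u < Dm W s t x y + ε := by
  obtain ⟨r, ⟨ξ, u, h1, h2, h3, h4⟩, hr⟩ := exists_lt_of_csInf_lt (g4a_ne (W := W) hst x y)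
    (show Dm W s t x y < Dm W s t x y + ε by linarith)
  exact ⟨ξ, u, h1, h2, h3, by rw [h4]; exact hr⟩

theorem Dm_triangle (hW : HW Tp W W₁ W₂ B) {r s t : ℝ} (hrs : r < s) (hst : s < t) (x y z : ℝ) :
    Dm W r t x z ≤ Dm W r s x y + Dm W s t y z := by
  refine le_of_forall_pos_le_add fun ε hε => ?_
  obtain ⟨ξ, u, h1, h2, h3, h4⟩ := exists_near hW hrs x y (half_pos hε)
  obtain ⟨ξ', u', k1, k2, k3, k4⟩ := exists_near hW hst y z (half_pos hε)
  obtain ⟨ξ'', u'', l1, l2, l3⟩ := h1.concat k1 (by rw [h3, k2])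
  have e1 : A1 W r t ξ'' u'' = A1 W r s ξ u + A1 W s t ξ' u' := by
    unfold A1
    have i1 : IntervalIntegrable (fun τ => u'' τ ^ 2 / 2 - W (ξ'' τ) τ) volume r s :=
      g4a_int hW (l1.sub le_rfl hrs.le hst.le)
    have i2 : IntervalIntegrable (fun τ => u'' τ ^ 2 / 2 - W (ξ'' τ) τ) volume s t :=
      g4a_int hW (l1.sub hrs.le hst.le le_rfl)
    rw [← intervalIntegral.integral_add_adjacent_intervals i1 i2]
    congr 1
    · rw [intervalIntegral.integral_of_le hrs.le, intervalIntegral.integral_of_le hrs.le]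
      refine setIntegral_congr_fun measurableSet_Ioc fun τ hτ => ?_
      have := l2 τ hτ.2
      simp only [this.1, this.2]
    · rw [intervalIntegral.integral_of_le hst.le, intervalIntegral.integral_of_le hst.le]
      refine setIntegral_congr_fun measurableSet_Ioc fun τ hτ => ?_
      have := l3 τ hτ.1
      simp only [this.1, this.2]
  have e2 := Dm_le hW l1
  rw [(l2 r hrs.le).1, (l3 t hst).1, h2, k3, e1] at e2
  linarith

private theorem g4a_per (hW : HW Tp W W₁ W₂ B) (x t : ℝ) (j k : ℤ) :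
    W (x + k) (t + j * Tp) = W x t := by
  have h1 : Function.Periodic (fun x => W x (t + j * Tp)) 1 := fun x => hW.per₁ x _
  have h2 : Function.Periodic (fun t => W x t) Tp := fun t => hW.per₂ x t
  have h3 := (h1.int_mul k) x
  have h4 := (h2.int_mul j) t
  simp only [mul_one] at h3
  rw [h3]
  exact h4

private theorem g4a_sub (hW : HW Tp W W₁ W₂ B) (s t x y : ℝ) (j k : ℤ) :
    {r | ∃ ξ u : ℝ → ℝ, Cur s t ξ u ∧ ξ s = x ∧ ξ t = y ∧ A1 W s t ξ u = r} ⊆
    {r | ∃ ξ u : ℝ → ℝ, Cur (s + j * Tp) (t + j * Tp) ξ u ∧ ξ (s + j * Tp) = x + k ∧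
      ξ (t + j * Tp) = y + k ∧ A1 W (s + j * Tp) (t + j * Tp) ξ u = r} := by
  rintro r ⟨ξ, u, h, h1, h2, rfl⟩
  refine ⟨_, _, (h.shift (j * Tp)).add_lin k 0, ?_, ?_, ?_⟩
  · simp only [add_sub_cancel_right, zero_mul, add_zero, h1]
  · simp only [add_sub_cancel_right, zero_mul, add_zero, h2]
  · unfold A1
    simp only [zero_mul, add_zero]
    have h3 := intervalIntegral.integral_comp_sub_right (a := s + j * Tp) (b := t + j * Tp)
      (fun τ => u τ ^ 2 / 2 - W (ξ τ) τ) (j * Tp)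
    rw [add_sub_cancel_right, add_sub_cancel_right] at h3
    rw [← h3]
    refine intervalIntegral.integral_congr fun τ _ => ?_
    have h4 := g4a_per hW (ξ (τ - j * Tp)) (τ - j * Tp) j k
    rw [sub_add_cancel] at h4
    simp only [h4]

theorem Dm_per (hW : HW Tp W W₁ W₂ B) (s t x y : ℝ) (j k : ℤ) :
    Dm W (s + j * Tp) (t + j * Tp) (x + k) (y + k) = Dm W s t x y := by
  unfold Dm
  congr 1
  refine Set.Subset.antisymm ?_ (g4a_sub hW s t x y j k)
  have h1 := g4a_sub hW (s + j * Tp) (t + j * Tp) (x + k) (y + k) (-j) (-k)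
  have e1 : s + (j : ℝ) * Tp + ((-j : ℤ) : ℝ) * Tp = s := by push_cast; ring
  have e2 : t + (j : ℝ) * Tp + ((-j : ℤ) : ℝ) * Tp = t := by push_cast; ring
  have e3 : x + (k : ℝ) + ((-k : ℤ) : ℝ) = x := by push_cast; ring
  have e4 : y + (k : ℝ) + ((-k : ℤ) : ℝ) = y := by push_cast; ring
  rw [e1, e2, e3, e4] at h1
  exact h1

theorem Dm_lower (hW : HW Tp W W₁ W₂ B) {s t : ℝ} (hst : s < t) (x y : ℝ) :
    (y - x) ^ 2 / (2 * (t - s)) - B * (t - s) ≤ Dm W s t x y ∧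
      Dm W s t x y ≤ (y - x) ^ 2 / (2 * (t - s)) + B * (t - s) := by
  have hpos : 0 < t - s := sub_pos.2 hst
  have hq : (y - x) / (t - s) * (y - x) = (y - x) ^ 2 / (t - s) := by
    field_simp
  constructor
  · refine le_Dm hW hst fun ξ u h h1 h2 => ?_
    have h3 := g4a_lower hW h ((y - x) / (t - s))
    rw [h1, h2] at h3
    have e : (y - x) / (t - s) * (y - x) - (((y - x) / (t - s)) ^ 2 / 2 + B) * (t - s) =
        (y - x) ^ 2 / (2 * (t - s)) - B * (t - s) := by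
      field_simp
      ring
    rw [e] at h3
    exact h3
  · obtain ⟨h1, h2, h3⟩ := g4a_line hst x y
    have h4 := Dm_le hW h1
    simp only [h2, h3] at h4
    refine h4.trans ?_
    have h5 : ∫ τ in s..t, (((y - x) / (t - s)) ^ 2 / 2 + B) =
        (y - x) ^ 2 / (2 * (t - s)) + B * (t - s) := by
      rw [intervalIntegral.integral_const, smul_eq_mul]
      field_simp
    rw [← h5]
    unfold A1
    refine intervalIntegral.integral_mono_on hst.le (g4a_int hW h1) intervalIntegrable_const ?_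
    intro τ _
    have h6 := (abs_le.1 (hW.bd (x - (y - x) / (t - s) * s + (y - x) / (t - s) * τ) τ)).1
    simp only
    linarith

end Pool.Agent.H33.AN
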