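import Pool.Agent.H33.AN.P.G3
import Pool.Agent.H33.AN.P.G4a

/-!
# Module G4: the minimal action `Dm`: elementary properties

* The set in the definition of `Dm` is not empty (line) and bounded below by `-B (t - s)`.
* `Dm_lip`: from a curve `ξ` from `(x, s)` to `(y, t)` make the curve `ξ(τ) + (p + q τ)` from `(x', s)` to
  `(y', t)` (`Cur.add_lin`), `|q| ≤ (|x - x'| + |y - y'|)/(t - s)`; the action changes by
  `q (y - x) + q² (t - s)/2 - ∫ (W(ξ + ..) - W(ξ))`. The factor `1 + |x - x'| + |y - y'|` takes care of `q²`.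
* `Dm_triangle`: `Cur.concat`. `Dm_per`: shift.
-/

set_option autoImplicit false

open MeasureTheory
open scoped RealInnerProductSpace

namespace Pool.Agent.H33.AN

variable {Tp B : ℝ} {W W₁ W₂ : ℝ → ℝ → ℝ}

private theorem G4b_cont (hW : HW Tp W W₁ W₂ B) : Continuous fun z : ℝ × ℝ => W z.1 z.2 :=
  continuous_iff_continuousAt.2 fun z => (hW.der z.1 z.2).continuousAt

private theorem G4b_lipW (hW : HW Tp W W₁ W₂ B) (a b t : ℝ) : |W a t - W b t| ≤ B * |a - b| := by
  have hd : ∀ x : ℝ, HasDerivAt (fun x => W x t) (W₁ x t) x := by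
    intro x
    have h1 := (hW.der x t).comp_hasDerivAt x (f := fun x : ℝ => ((x, t) : ℝ × ℝ))
      ((hasDerivAt_id x).prodMk (hasDerivAt_const x t))
    have h2 : HasDerivAt (fun x => W x t)
        ((W₁ x t • ContinuousLinearMap.fst ℝ ℝ ℝ + W₂ x t • ContinuousLinearMap.snd ℝ ℝ ℝ)
          ((1 : ℝ), (0 : ℝ))) x := h1
    have h3 : (W₁ x t • ContinuousLinearMap.fst ℝ ℝ ℝ + W₂ x t • ContinuousLinearMap.snd ℝ ℝ ℝ)
          ((1 : ℝ), (0 : ℝ)) = W₁ x t := by simp
    rwa [h3] at h2
  have h2 := Convex.norm_image_sub_le_of_norm_hasDerivWithin_le (f := fun x => W x t)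
    (f' := fun x => W₁ x t) (s := Set.univ) (x := b) (y := a) (C := B)
    (fun x _ => (hd x).hasDerivWithinAt) (fun x _ => by simpa using hW.bd₁ x t) convex_univ
    (Set.mem_univ _) (Set.mem_univ _)
  simpa [Real.norm_eq_abs] using h2

private theorem G4b_one (hW : HW Tp W W₁ W₂ B) {h : ℝ} (hh : 0 < h) (s x y x' y' : ℝ) :
    Dm W s (s + h) x' y' ≤ Dm W s (s + h) x y +
      (1 / h + B * h) * (1 + |y - x| + (|x - x'| + |y - y'|)) * (|x - x'| + |y - y'|) := by
  have hB := hW.nonneg
  apply le_of_forall_pos_le_add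
  intro ε hε
  obtain ⟨ξ, u, hc, hx, hy, hA⟩ := exists_near hW (s := s) (t := s + h) (by linarith) x y hε
  set δ : ℝ := |x - x'| + |y - y'| with hδ
  have hδ0 : 0 ≤ δ := by positivity
  set q : ℝ := ((y' - y) - (x' - x)) / h with hq
  set p : ℝ := x' - x - q * s with hp
  have hqh : q * h = (y' - y) - (x' - x) := by rw [hq]; field_simp
  have hqa : |q| ≤ δ / h := by
    rw [hq, abs_div, abs_of_pos hh]
    apply div_le_div_of_nonneg_right _ hh.le
    calc |(y' - y) - (x' - x)| ≤ |y' - y| + |x' - x| := abs_sub _ _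
      _ = δ := by rw [hδ, abs_sub_comm y' y, abs_sub_comm x' x]; ring
  have hc' := hc.add_lin p q
  have hs : ξ s + (p + q * s) = x' := by
    rw [hx, hp]; ring
  have ht : ξ (s + h) + (p + q * (s + h)) = y' := by
    rw [hy, hp]
    linarith
  have h1 := Dm_le hW hc'
  rw [hs, ht] at h1
  have hWc := G4b_cont hW
  -- integrability
  have i1 : IntervalIntegrable (fun t => (u t ^ 2 / 2 - W (ξ t) t)) volume s (s + h) :=
    hc.integrable (g := fun z => z.2.1 ^ 2 / 2 - W z.1 z.2.2) (by
      have : Continuous fun z : ℝ × ℝ × ℝ => W z.1 z.2.2 :=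
        hWc.comp (continuous_fst.prodMk (continuous_snd.comp continuous_snd))
      fun_prop)
  have i2 : IntervalIntegrable (fun t => q * u t) volume s (s + h) :=
    hc.integrable (g := fun z => q * z.2.1) (by fun_prop)
  have i3 : IntervalIntegrable (fun t => ((u t + q) ^ 2 / 2 - W (ξ t + (p + q * t)) t)) volume
      s (s + h) :=
    hc'.integrable (g := fun z => z.2.1 ^ 2 / 2 - W z.1 z.2.2) (by
      have : Continuous fun z : ℝ × ℝ × ℝ => W z.1 z.2.2 :=
        hWc.comp (continuous_fst.prodMk (continuous_snd.comp continuous_snd))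
      fun_prop)
  have i4 : IntervalIntegrable (fun _ : ℝ => q ^ 2 / 2 + B * δ) volume s (s + h) :=
    intervalIntegrable_const
  have hkey : A1 W s (s + h) (fun t => ξ t + (p + q * t)) (fun t => u t + q) ≤
      A1 W s (s + h) ξ u + q * (y - x) + (q ^ 2 / 2 + B * δ) * h := by
    have h2 : A1 W s (s + h) (fun t => ξ t + (p + q * t)) (fun t => u t + q) ≤
        ∫ t in s..(s + h), ((u t ^ 2 / 2 - W (ξ t) t) + q * u t + (q ^ 2 / 2 + B * δ)) := by
      unfold A1
      apply intervalIntegral.integral_mono_on (by linarith) i3 ((i1.add i2).add i4)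
      intro t ht
      have h3 := (abs_le.1 (G4b_lipW hW (ξ t) (ξ t + (p + q * t)) t)).2
      have h4 : |ξ t - (ξ t + (p + q * t))| ≤ δ := by
        have h5 : ξ t - (ξ t + (p + q * t)) =
            ((s + h - t) / h) * (x - x') + ((t - s) / h) * (y - y') := by
          rw [hp, hq]
          field_simp
          ring
        rw [h5]
        have h6 : 0 ≤ (s + h - t) / h := div_nonneg (by linarith [ht.2]) hh.le
        have h7 : (s + h - t) / h ≤ 1 := by rw [div_le_one hh]; linarith [ht.1]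
        have h8 : 0 ≤ (t - s) / h := div_nonneg (by linarith [ht.1]) hh.le
        have h9 : (t - s) / h ≤ 1 := by rw [div_le_one hh]; linarith [ht.2]
        calc |((s + h - t) / h) * (x - x') + ((t - s) / h) * (y - y')| ≤
              |((s + h - t) / h) * (x - x')| + |((t - s) / h) * (y - y')| := abs_add_le _ _
          _ = ((s + h - t) / h) * |x - x'| + ((t - s) / h) * |y - y'| := by
              rw [abs_mul, abs_mul, abs_of_nonneg h6, abs_of_nonneg h8]
          _ ≤ 1 * |x - x'| + 1 * |y - y'| := by gcongr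
          _ = δ := by rw [hδ]; ring
      have h10 : W (ξ t) t - W (ξ t + (p + q * t)) t ≤ B * δ :=
        h3.trans (mul_le_mul_of_nonneg_left h4 hB)
      nlinarith
    have h11 : ∫ t in s..(s + h), ((u t ^ 2 / 2 - W (ξ t) t) + q * u t + (q ^ 2 / 2 + B * δ)) =
        A1 W s (s + h) ξ u + q * (y - x) + (q ^ 2 / 2 + B * δ) * h := by
      rw [intervalIntegral.integral_add (i1.add i2) i4, intervalIntegral.integral_add i1 i2,
        intervalIntegral.integral_const_mul, hc.integral_vel, hx, hy,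
        intervalIntegral.integral_const]
      unfold A1
      simp only [smul_eq_mul]
      ring
    rw [← h11]
    exact h2
  have hq1 : q * (y - x) ≤ δ / h * |y - x| := by
    calc q * (y - x) ≤ |q * (y - x)| := le_abs_self _
      _ = |q| * |y - x| := abs_mul _ _
      _ ≤ δ / h * |y - x| := mul_le_mul_of_nonneg_right hqa (abs_nonneg _)
  have hq2 : q ^ 2 * h ≤ δ ^ 2 / h := by
    have : q ^ 2 ≤ (δ / h) ^ 2 := by
      rw [← sq_abs q]
      exact pow_le_pow_left₀ (abs_nonneg _) hqa 2
    calc q ^ 2 * h ≤ (δ / h) ^ 2 * h := mul_le_mul_of_nonneg_right this hh.le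
      _ = δ ^ 2 / h := by field_simp
  have hfin : q * (y - x) + (q ^ 2 / 2 + B * δ) * h ≤
      (1 / h + B * h) * (1 + |y - x| + δ) * δ := by
    have e1 : (1 / h + B * h) * (1 + |y - x| + δ) * δ =
        δ / h * |y - x| + δ ^ 2 / h + B * δ * h + (δ / h + B * h * |y - x| * δ + B * h * δ * δ) := by
      field_simp
      ring
    have e2 : 0 ≤ δ / h + B * h * |y - x| * δ + B * h * δ * δ := by positivity
    have e3 : 0 ≤ δ ^ 2 / h := by positivity
    rw [e1]
    nlinarith
  linarith

theorem Dm_lip (hW : HW Tp W W₁ W₂ B) {h : ℝ} (hh : 0 < h) :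
    ∃ C : ℝ, 0 ≤ C ∧ ∀ s x y x' y', |Dm W s (s + h) x y - Dm W s (s + h) x' y'| ≤
      C * (1 + |y - x| + |x - x'| + |y - y'|) * (|x - x'| + |y - y'|) := by
  have hB := hW.nonneg
  have hC : 0 ≤ 1 / h + B * h := by positivity
  refine ⟨2 * (1 / h + B * h), by positivity, fun s x y x' y' => ?_⟩
  have h1 := G4b_one hW hh s x y x' y'
  have h2 := G4b_one hW hh s x' y' x y
  set δ : ℝ := |x - x'| + |y - y'| with hδ
  have hδ0 : 0 ≤ δ := by positivity
  have hδ' : |x' - x| + |y' - y| = δ := by rw [hδ, abs_sub_comm x' x, abs_sub_comm y' y]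
  rw [hδ'] at h2
  have h3 : |y' - x'| ≤ |y - x| + δ := by
    have e : y' - x' = (y - x) + ((x - x') + (y' - y)) := by ring
    rw [e]
    calc |(y - x) + ((x - x') + (y' - y))| ≤ |y - x| + |(x - x') + (y' - y)| := abs_add_le _ _
      _ ≤ |y - x| + (|x - x'| + |y' - y|) := by gcongr; exact abs_add_le _ _
      _ = |y - x| + δ := by rw [hδ, abs_sub_comm y' y]
  have h4 : (1 / h + B * h) * (1 + |y' - x'| + δ) * δ ≤
      2 * (1 / h + B * h) * (1 + |y - x| + δ) * δ := by
    have e1 : (1 / h + B * h) * (1 + |y' - x'| + δ) ≤ 2 * (1 / h + B * h) * (1 + |y - x| + δ) := by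
      have e2 : 1 + |y' - x'| + δ ≤ 2 * (1 + |y - x| + δ) := by
        have := abs_nonneg (y - x)
        linarith
      calc (1 / h + B * h) * (1 + |y' - x'| + δ) ≤ (1 / h + B * h) * (2 * (1 + |y - x| + δ)) :=
            mul_le_mul_of_nonneg_left e2 hC
        _ = _ := by ring
    exact mul_le_mul_of_nonneg_right e1 hδ0
  have h5 : (1 / h + B * h) * (1 + |y - x| + δ) * δ ≤
      2 * (1 / h + B * h) * (1 + |y - x| + δ) * δ := by
    have : 0 ≤ (1 / h + B * h) * (1 + |y - x| + δ) * δ := by positivity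
    nlinarith
  have e : 1 + |y - x| + |x - x'| + |y - y'| = 1 + |y - x| + δ := by rw [hδ]; ring
  rw [e, abs_le]
  constructor <;> linarith

end Pool.Agent.H33.AN
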