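import Pool.Agent.H33.AN.P.G4

/-!
# Module G5: minimisers exist and are solutions

* `min_ext`: let `ξ` be a minimising curve on `[a, b]`. On every subinterval `[c, d]` with
  `B (d - c)² ≤ 1` it agrees with the solution `γ` of the boundary value problem (`bvp`): replace `ξ` by
  `γ` there (`Cur.concat`, `Cur.of_ext`); by `strict` and minimality `∫ (u - v)² = 0`, so `ξ = γ` on
  `[c, d]`. Overlapping intervals give the same solution (`ext_unique`; positions agree on an interval,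
  so velocities agree).
* `Dm_exists`: choose `N` with `B ((t - s)/N)² ≤ 1`, `h = (t - s)/N`. Minimise
  `∑ Dm (s + k h) (s + (k + 1) h) x_k x_{k+1}` over `x_1, …, x_{N-1}` (continuous by `Dm_lip`, coercive by
  `Dm_lower`); `Dm` on a short interval is attained by the solution of `bvp` (`strict`); the sum is
  `≤ A1 ξ` for every curve; concatenate and use `min_ext`.
-/

set_option autoImplicit false

open MeasureTheory
open scoped RealInnerProductSpace

namespace Pool.Agent.H33.AN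

variable {Tp B : ℝ} {W W₁ W₂ : ℝ → ℝ → ℝ}

private theorem g5a_cont (hW : HW Tp W W₁ W₂ B) : Continuous fun z : ℝ × ℝ => W z.1 z.2 :=
  continuous_iff_continuousAt.2 fun z => (hW.der z.1 z.2).continuousAt

private theorem g5a_int (hW : HW Tp W W₁ W₂ B) {a b : ℝ} {ξ u : ℝ → ℝ} (h : Cur a b ξ u) :
    IntervalIntegrable (fun t => u t ^ 2 / 2 - W (ξ t) t) volume a b := by
  have hg : Continuous fun z : ℝ × ℝ × ℝ => z.2.1 ^ 2 / 2 - W z.1 z.2.2 := by
    have h1 := g5a_cont hW
    have h2 : Continuous fun z : ℝ × ℝ × ℝ => W z.1 z.2.2 :=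
      h1.comp (continuous_fst.prodMk (continuous_snd.comp continuous_snd))
    fun_prop
  exact h.integrable hg

/-- Solutions which agree on an interval agree everywhere. -/
private theorem g5a_agree (hW : HW Tp W W₁ W₂ B) {γ v γ' v' : ℝ → ℝ} (h : Ext W₁ γ v)
    (h' : Ext W₁ γ' v') {c d : ℝ} (hcd : c < d) (heq : ∀ t ∈ Set.Icc c d, γ t = γ' t) :
    γ = γ' ∧ v = v' := by
  have hm : (c + d) / 2 ∈ Set.Ioo c d := ⟨by linarith, by linarith⟩
  have h1 : γ =ᶠ[nhds ((c + d) / 2)] γ' := by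
    filter_upwards [Ioo_mem_nhds hm.1 hm.2] with t ht
    exact heq t ⟨ht.1.le, ht.2.le⟩
  have h2 : v ((c + d) / 2) = v' ((c + d) / 2) :=
    ((h.der _).congr_of_eventuallyEq h1.symm).unique (h'.der _)
  exact ext_unique hW h h' (heq _ ⟨hm.1.le, hm.2.le⟩) h2

/-- The local statement. -/
private theorem g5a_loc (hW : HW Tp W W₁ W₂ B) {a b : ℝ} {ξ u : ℝ → ℝ}
    (hξ : Cur a b ξ u) (hmin : A1 W a b ξ u ≤ Dm W a b (ξ a) (ξ b)) {c d : ℝ} (hac : a ≤ c)
    (hcd : c < d) (hdb : d ≤ b) (hB : B * (d - c) ^ 2 ≤ 1) :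
    ∃ γ v : ℝ → ℝ, Ext W₁ γ v ∧ ∀ t ∈ Set.Icc c d, γ t = ξ t := by
  obtain ⟨γ, v, hγ, hγc, hγd⟩ := bvp hW (h := d - c) (by linarith) c (ξ c) (ξ d)
  have hcd' : c + (d - c) = d := by ring
  rw [hcd'] at hγd
  refine ⟨γ, v, hγ, ?_⟩
  obtain ⟨u₀, hu₀, hu₀v⟩ := Cur.of_ext hγ hcd.le
  have hξ1 : Cur a c ξ u := hξ.sub le_rfl hac (hcd.le.trans hdb)
  have hξ2 : Cur c d ξ u := hξ.sub hac hcd.le hdb
  have hξ3 : Cur d b ξ u := hξ.sub (hac.trans hcd.le) hdb le_rfl
  have hstr := strict hW hcd.le hB hγ hξ2 hγc.symm hγd.symm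
  obtain ⟨x₁, u₁, hx₁, hx₁l, hx₁r⟩ := hξ1.concat hu₀ hγc.symm
  obtain ⟨x₂, u₂, hx₂, hx₂l, hx₂r⟩ := hx₁.concat hξ3 (by
    rw [(hx₁r d hcd).1]
    exact hγd)
  have ha2 : x₂ a = ξ a := by
    rw [(hx₂l a (hac.trans hcd.le)).1, (hx₁l a hac).1]
  have hb2 : x₂ b = ξ b := by
    rcases lt_or_eq_of_le hdb with h | h
    · exact (hx₂r b h).1
    · subst h
      rw [(hx₂l d le_rfl).1, (hx₁r d hcd).1]
      exact hγd
  have hD := Dm_le hW hx₂
  rw [ha2, hb2] at hD
  -- additivity
  have hadd : A1 W a b ξ u = A1 W a c ξ u + A1 W c d ξ u + A1 W d b ξ u := by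
    unfold A1
    rw [intervalIntegral.integral_add_adjacent_intervals (g5a_int hW hξ1) (g5a_int hW hξ2),
      intervalIntegral.integral_add_adjacent_intervals
        (g5a_int hW (hξ.sub le_rfl (hac.trans hcd.le) hdb)) (g5a_int hW hξ3)]
  have hadd2 : A1 W a b x₂ u₂ = A1 W a c ξ u + A1 W c d γ v + A1 W d b ξ u := by
    have e1 : A1 W a c x₂ u₂ = A1 W a c ξ u := by
      unfold A1
      refine intervalIntegral.integral_congr_ae (Filter.Eventually.of_forall fun t ht => ?_)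
      rw [Set.uIoc_of_le hac] at ht
      rw [(hx₂l t (ht.2.trans hcd.le)).1, (hx₂l t (ht.2.trans hcd.le)).2, (hx₁l t ht.2).1,
        (hx₁l t ht.2).2]
    have e2 : A1 W c d x₂ u₂ = A1 W c d γ v := by
      unfold A1
      refine intervalIntegral.integral_congr_ae (Filter.Eventually.of_forall fun t ht => ?_)
      rw [Set.uIoc_of_le hcd.le] at ht
      rw [(hx₂l t ht.2).1, (hx₂l t ht.2).2, (hx₁r t ht.1).1, (hx₁r t ht.1).2,
        hu₀v t ⟨ht.1.le, ht.2⟩]
    have e3 : A1 W d b x₂ u₂ = A1 W d b ξ u := by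
      unfold A1
      refine intervalIntegral.integral_congr_ae (Filter.Eventually.of_forall fun t ht => ?_)
      rw [Set.uIoc_of_le hdb] at ht
      rw [(hx₂r t ht.1).1, (hx₂r t ht.1).2]
    rw [← e1, ← e2, ← e3]
    unfold A1
    rw [intervalIntegral.integral_add_adjacent_intervals
        (g5a_int hW (hx₂.sub le_rfl hac (hcd.le.trans hdb))) (g5a_int hW (hx₂.sub hac hcd.le hdb)),
      intervalIntegral.integral_add_adjacent_intervals
        (g5a_int hW (hx₂.sub le_rfl (hac.trans hcd.le) hdb))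
        (g5a_int hW (hx₂.sub (hac.trans hcd.le) hdb le_rfl))]
  have hI : (∫ t in c..d, (u t - v t) ^ 2) ≤ 0 := by linarith
  -- the integral of the square with the velocity `u₀`
  have hI2 : (∫ t in c..d, (u t - v t) ^ 2) = ∫ t in c..d, (u t - u₀ t) ^ 2 := by
    refine intervalIntegral.integral_congr_ae (Filter.Eventually.of_forall fun t ht => ?_)
    rw [Set.uIoc_of_le hcd.le] at ht
    rw [hu₀v t ⟨ht.1.le, ht.2⟩]
  rw [hI2] at hI
  intro t ht
  rcases eq_or_lt_of_le ht.1 with h | hct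
  · rw [← h]
    exact hγc
  have hξt : Cur c t ξ u := hξ2.sub le_rfl ht.1 ht.2
  have hγt : Cur c t γ u₀ := hu₀.sub le_rfl ht.1 ht.2
  have i1 : IntervalIntegrable u volume c t := by
    have := hξt.integrable (g := fun z : ℝ × ℝ × ℝ => z.2.1) (by fun_prop)
    exact this
  have i2 : IntervalIntegrable u₀ volume c t := by
    have := hγt.integrable (g := fun z : ℝ × ℝ × ℝ => z.2.1) (by fun_prop)
    exact this
  have hsqm : ∀ c' d' : ℝ, Cur c' d' ξ u → Cur c' d' γ u₀ →
      IntervalIntegrable (fun t => (u t - u₀ t) ^ 2) volume c' d' := by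
    intro c' d' h1 h2
    obtain ⟨R, hR⟩ := h1.bd
    obtain ⟨R', hR'⟩ := h2.bd
    rw [intervalIntegrable_iff]
    refine MeasureTheory.IntegrableOn.of_bound ?_ ?_ ((R + R') ^ 2) ?_
    · rw [Set.uIoc_of_le h1.le, Real.volume_Ioc]
      exact ENNReal.ofReal_lt_top
    · exact ((h1.meas.sub h2.meas).pow_const 2).aestronglyMeasurable
    · refine Filter.Eventually.of_forall fun x => ?_
      rw [Real.norm_eq_abs, abs_of_nonneg (sq_nonneg _), ← sq_abs]
      refine pow_le_pow_left₀ (abs_nonneg _) ?_ 2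
      exact (abs_sub _ _).trans (add_le_add (hR x) (hR' x))
  have i3 := hsqm c t hξt hγt
  have i4 := hsqm t d (hξ2.sub ht.1 ht.2 le_rfl) (hu₀.sub ht.1 ht.2 le_rfl)
  have hJ : (∫ t in c..t, (u t - u₀ t) ^ 2) ≤ 0 := by
    have h1 := intervalIntegral.integral_add_adjacent_intervals i3 i4
    have h2 : 0 ≤ ∫ t in t..d, (u t - u₀ t) ^ 2 :=
      intervalIntegral.integral_nonneg ht.2 fun x _ => sq_nonneg _
    linarith
  -- difference of the positions
  set D : ℝ := ξ t - γ t with hD'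
  have hDint : ∫ t in c..t, (u t - u₀ t) = D := by
    rw [intervalIntegral.integral_sub i1 i2, hξt.integral_vel, hγt.integral_vel, hγc]
    ring
  have hle : (∫ s in c..t, (2 * (D / (t - c)) * (u s - u₀ s) - (D / (t - c)) ^ 2)) ≤
      ∫ s in c..t, (u s - u₀ s) ^ 2 := by
    refine intervalIntegral.integral_mono_on ht.1 ?_ i3 fun s _ => ?_
    · exact ((i1.sub i2).const_mul _).sub intervalIntegrable_const
    · nlinarith [sq_nonneg (u s - u₀ s - D / (t - c))]
  rw [intervalIntegral.integral_sub ((i1.sub i2).const_mul _) intervalIntegrable_const,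
    intervalIntegral.integral_const_mul, hDint, intervalIntegral.integral_const] at hle
  have hpos : 0 < t - c := by linarith
  have hfin : D ^ 2 / (t - c) ≤ 0 := by
    have e : 2 * (D / (t - c)) * D - (t - c) • (D / (t - c)) ^ 2 = D ^ 2 / (t - c) := by
      rw [smul_eq_mul]
      field_simp
      ring
    rw [e] at hle
    exact hle.trans hJ
  have hD0 : D ^ 2 ≤ 0 := by
    rw [div_le_iff₀ hpos] at hfin
    linarith
  have : D = 0 := by nlinarith [sq_nonneg D, pow_eq_zero_iff (two_ne_zero) (a := D)]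
  linarith

theorem min_ext (hW : HW Tp W W₁ W₂ B) {a b : ℝ} (hab : a < b) {ξ u : ℝ → ℝ} (hξ : Cur a b ξ u)
    (hmin : A1 W a b ξ u ≤ Dm W a b (ξ a) (ξ b)) :
    ∃ γ v : ℝ → ℝ, Ext W₁ γ v ∧ ∀ t ∈ Set.Icc a b, γ t = ξ t := by
  have hB0 := hW.nonneg
  set δ : ℝ := 1 / (2 * (1 + B)) with hδ
  have hδ0 : 0 < δ := by positivity
  have hBδ : ∀ x : ℝ, 0 ≤ x → x ≤ 2 * δ → B * x ^ 2 ≤ 1 := by
    intro x hx0 hx
    have h1 : x * (1 + B) ≤ 1 := by
      have h2 : 2 * δ * (1 + B) = 1 := by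
        rw [hδ]
        field_simp
      nlinarith
    have h3 : 0 ≤ x * (1 + B) := by positivity
    have h4 : (x * (1 + B)) ^ 2 ≤ 1 := pow_le_one₀ h3 h1
    have h5 : B * x ^ 2 ≤ (x * (1 + B)) ^ 2 := by
      have h6 : 0 ≤ x ^ 2 * (1 + B + B ^ 2) := by positivity
      nlinarith
    linarith
  have key : ∀ n : ℕ, ∃ γ v : ℝ → ℝ, Ext W₁ γ v ∧
      ∀ t ∈ Set.Icc a (min b (a + ((n : ℝ) + 1) * δ)), γ t = ξ t := by
    intro n
    induction n with
    | zero =>
      have h1 : a < min b (a + (((0 : ℕ) : ℝ) + 1) * δ) := by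
        refine lt_min hab ?_
        push_cast
        linarith
      refine g5a_loc hW hξ hmin le_rfl h1 (min_le_left _ _) ?_
      refine hBδ _ (by linarith) ?_
      have h2 := min_le_right b (a + (((0 : ℕ) : ℝ) + 1) * δ)
      push_cast at h2 ⊢
      linarith
    | succ n ih =>
      obtain ⟨γ, v, hγ, hγξ⟩ := ih
      set c : ℝ := min b (a + ((n : ℝ) + 1) * δ) with hc
      set c' : ℝ := min b (a + (((n + 1 : ℕ) : ℝ) + 1) * δ) with hc'
      have hac : a < c := by
        refine lt_min hab ?_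
        have : 0 < ((n : ℝ) + 1) * δ := by positivity
        linarith
      set c'' : ℝ := max a (c - δ) with hc''
      have h1 : c'' < c := max_lt hac (by linarith)
      have h2 : c ≤ c' := by
        refine min_le_min le_rfl ?_
        push_cast
        nlinarith
      have h3 : c' ≤ c + δ := by
        have e : a + (((n + 1 : ℕ) : ℝ) + 1) * δ = (a + ((n : ℝ) + 1) * δ) + δ := by
          push_cast
          ring
        rw [hc', e, hc, ← min_add_add_right]
        exact min_le_min (by linarith) le_rfl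
      have h4 : c - δ ≤ c'' := le_max_right _ _
      obtain ⟨γ', v', hγ', hγξ'⟩ := g5a_loc hW hξ hmin (le_max_left a (c - δ))
        (lt_of_lt_of_le h1 h2) (min_le_left _ _) (hBδ (c' - c'') (by linarith) (by linarith))
      have hag := g5a_agree hW hγ hγ' h1 fun t ht => by
        rw [hγξ t ⟨(le_max_left _ _).trans ht.1, ht.2⟩, hγξ' t ⟨ht.1, ht.2.trans h2⟩]
      refine ⟨γ, v, hγ, fun t ht => ?_⟩
      rcases le_total t c with htc | htc
      · exact hγξ t ⟨ht.1, htc⟩
      · rw [hag.1]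
        exact hγξ' t ⟨h1.le.trans htc, ht.2⟩
  obtain ⟨n, hn⟩ := exists_nat_gt ((b - a) / δ)
  obtain ⟨γ, v, hγ, hγξ⟩ := key n
  refine ⟨γ, v, hγ, fun t ht => hγξ t ⟨ht.1, le_min ht.2 ?_⟩⟩
  rw [div_lt_iff₀ hδ0] at hn
  have := ht.2
  nlinarith

end Pool.Agent.H33.AN
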