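import Pool.Agent.H33.AN.P.G4
import Pool.Agent.H33.AN.P.G5a

/-!
# Module G5: minimisers exist and are solutions

* `min_ext`: let `ξ` be a minimising curve on `[a, b]`. On every subinterval `[c, d]` with
  `B (d - c)² ≤ 1` it agrees with the solution `γ` of the boundary value problem (`bvp`): replace `ξ` by
  `γ` there (`Cur.concat`, `Cur.of_ext`); by `strict` and minimality `∫ (u - v)² = 0`, so `ξ = γ` on
  `[c, d]`. Overlapping intervals give the same solution (`ext_unique`; positions agree on an interval,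
  so velocities agree).
* `Dm_exists`: by induction on `k`, if `B ((t - s)/2 ^ k)² ≤ 1` then minimising curves exist (`G5b_curve`):
  for `k = 0` the solution of `bvp` (`strict`); in the step minimise
  `z ↦ Dm s m x z + Dm m t z y`, `m` the midpoint (continuous by `Dm_lip`, coercive by `Dm_lower`), and
  concatenate. Then use `min_ext`.
-/

set_option autoImplicit false

open MeasureTheory
open scoped RealInnerProductSpace

namespace Pool.Agent.H33.AN

variable {Tp B : ℝ} {W W₁ W₂ : ℝ → ℝ → ℝ}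

private theorem G5b_contW (hW : HW Tp W W₁ W₂ B) : Continuous fun z : ℝ × ℝ => W z.1 z.2 :=
  continuous_iff_continuousAt.2 fun z => (hW.der z.1 z.2).continuousAt

private theorem G5b_int (hW : HW Tp W W₁ W₂ B) {a b : ℝ} {ξ u : ℝ → ℝ} (h : Cur a b ξ u) :
    IntervalIntegrable (fun t => u t ^ 2 / 2 - W (ξ t) t) volume a b := by
  have hg : Continuous fun z : ℝ × ℝ × ℝ => z.2.1 ^ 2 / 2 - W z.1 z.2.2 := by
    have h1 := (G5b_contW hW).comp
      (Continuous.prodMk continuous_fst (continuous_snd.comp continuous_snd) : Continuous fun z : ℝ × ℝ × ℝ =>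
        (z.1, z.2.2))
    exact ((((continuous_fst.comp continuous_snd).pow 2).div_const 2)).sub h1
  exact h.integrable hg

private theorem G5b_contAt {f : ℝ → ℝ} {C A z : ℝ} (hC : 0 ≤ C)
    (h : ∀ z', |f z' - f z| ≤ C * (A + |z' - z|) * |z' - z|) : ContinuousAt f z := by
  have h1 : Filter.Tendsto (fun z' => C * (A + |z' - z|) * |z' - z|) (nhds z) (nhds 0) := by
    have h2 : Continuous fun z' : ℝ => C * (A + |z' - z|) * |z' - z| := by fun_prop
    have h3 := h2.tendsto z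
    simpa using h3
  have h4 : Filter.Tendsto (fun z' => |f z' - f z|) (nhds z) (nhds 0) :=
    squeeze_zero (fun _ => abs_nonneg _) h h1
  exact tendsto_iff_norm_sub_tendsto_zero.2 h4

private theorem G5b_cont1 (hW : HW Tp W W₁ W₂ B) {s t : ℝ} (hst : s < t) (x : ℝ) :
    Continuous fun z => Dm W s t x z := by
  obtain ⟨C, hC, h⟩ := Dm_lip hW (sub_pos.2 hst)
  refine continuous_iff_continuousAt.2 fun z => G5b_contAt (C := C) (A := 1 + |z - x|) hC fun z' => ?_
  have h1 := h s x z x z'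
  rw [add_sub_cancel, sub_self, abs_zero, add_zero, zero_add] at h1
  rw [abs_sub_comm, abs_sub_comm z' z]
  exact h1

private theorem G5b_cont2 (hW : HW Tp W W₁ W₂ B) {s t : ℝ} (hst : s < t) (y : ℝ) :
    Continuous fun z => Dm W s t z y := by
  obtain ⟨C, hC, h⟩ := Dm_lip hW (sub_pos.2 hst)
  refine continuous_iff_continuousAt.2 fun z => G5b_contAt (C := C) (A := 1 + |y - z|) hC fun z' => ?_
  have h1 := h s z y z' y
  rw [add_sub_cancel, sub_self, abs_zero, add_zero, add_zero] at h1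
  rw [abs_sub_comm, abs_sub_comm z' z]
  exact h1

/-- minimum over the intermediate point -/
private theorem G5b_min (hW : HW Tp W W₁ W₂ B) {s m t : ℝ} (hsm : s < m) (hmt : m < t) (x y : ℝ) :
    ∃ z₀, ∀ z, Dm W s m x z₀ + Dm W m t z₀ y ≤ Dm W s m x z + Dm W m t z y := by
  obtain ⟨f, hf⟩ : ∃ f : ℝ → ℝ, f = fun z => Dm W s m x z + Dm W m t z y := ⟨_, rfl⟩
  have hfc : Continuous f := by
    rw [hf]
    exact (G5b_cont1 hW hsm x).add (G5b_cont2 hW hmt y)
  have hB := hW.nonneg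
  have hlow : ∀ z, (z - x) ^ 2 / (2 * (m - s)) - B * (t - s) ≤ f z := by
    intro z
    rw [hf]
    have h1 := (Dm_lower hW hsm x z).1
    have h2 := (Dm_lower hW hmt z y).1
    have h3 : 0 ≤ (y - z) ^ 2 / (2 * (t - m)) := by
      have : 0 < t - m := by linarith
      positivity
    change (z - x) ^ 2 / (2 * (m - s)) - B * (t - s) ≤ Dm W s m x z + Dm W m t z y
    have h4 : B * (t - s) = B * (m - s) + B * (t - m) := by ring
    linarith
  have hms : 0 < 2 * (m - s) := by linarith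
  have hts : 0 < t - s := by linarith
  obtain ⟨R, hR⟩ : ∃ R : ℝ, R = 2 * (m - s) * (|f x| + B * (t - s)) + 1 := ⟨_, rfl⟩
  have hR1 : 1 ≤ R := by
    have : 0 ≤ 2 * (m - s) * (|f x| + B * (t - s)) :=
      mul_nonneg hms.le (add_nonneg (abs_nonneg _) (mul_nonneg hB hts.le))
    linarith
  obtain ⟨z₀, hz₀, hmin⟩ := isCompact_Icc.exists_isMinOn (s := Set.Icc (x - R) (x + R))
    ⟨x, by constructor <;> linarith⟩ hfc.continuousOn
  refine ⟨z₀, fun z => ?_⟩
  have hx0 : f z₀ ≤ f x := hmin (by constructor <;> linarith : x ∈ Set.Icc (x - R) (x + R))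
  have goal : f z₀ ≤ f z := by
    by_cases hz : z ∈ Set.Icc (x - R) (x + R)
    · exact hmin hz
    · refine hx0.trans (le_trans ?_ (hlow z))
      have h1 : R ^ 2 ≤ (z - x) ^ 2 := by
        rw [Set.mem_Icc, not_and_or, not_le, not_le] at hz
        rcases hz with h | h
        · nlinarith
        · nlinarith
      have h2 : 2 * (m - s) * (|f x| + B * (t - s)) ≤ R ^ 2 := by nlinarith
      have h3 : |f x| + B * (t - s) ≤ (z - x) ^ 2 / (2 * (m - s)) := by
        rw [le_div_iff₀ hms]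
        linarith
      have h4 := le_abs_self (f x)
      linarith
  rw [hf] at goal
  exact goal

private theorem G5b_curve (hW : HW Tp W W₁ W₂ B) (k : ℕ) : ∀ (s t x y : ℝ), s < t →
    B * ((t - s) / 2 ^ k) ^ 2 ≤ 1 →
    ∃ ξ u : ℝ → ℝ, Cur s t ξ u ∧ ξ s = x ∧ ξ t = y ∧ A1 W s t ξ u ≤ Dm W s t x y := by
  induction k with
  | zero =>
    intro s t x y hst hk
    rw [pow_zero, div_one] at hk
    obtain ⟨γ, v, hγ, h1, h2⟩ := bvp hW (sub_pos.2 hst) s x y
    rw [add_sub_cancel] at h2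
    obtain ⟨u, hu, huv⟩ := Cur.of_ext hγ hst.le
    refine ⟨γ, u, hu, h1, h2, ?_⟩
    have h3 : A1 W s t γ u = A1 W s t γ v := by
      unfold A1
      refine intervalIntegral.integral_congr fun τ hτ => ?_
      rw [Set.uIcc_of_le hst.le] at hτ
      change u τ ^ 2 / 2 - W (γ τ) τ = v τ ^ 2 / 2 - W (γ τ) τ
      rw [huv τ hτ]
    rw [h3]
    refine le_Dm hW hst fun ξ w hξ h4 h5 => ?_
    have h6 := strict hW hst.le hk hγ hξ (h4.trans h1.symm) (h5.trans h2.symm)
    have h7 : 0 ≤ ∫ τ in s..t, (w τ - v τ) ^ 2 :=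
      intervalIntegral.integral_nonneg hst.le fun τ _ => sq_nonneg _
    linarith
  | succ k ih =>
    intro s t x y hst hk
    obtain ⟨m, hm⟩ : ∃ m, m = (s + t) / 2 := ⟨_, rfl⟩
    have hsm : s < m := by linarith
    have hmt : m < t := by linarith
    have e1 : (m - s) / 2 ^ k = (t - s) / 2 ^ (k + 1) := by
      rw [hm, pow_succ]
      field_simp
      ring
    have e2 : (t - m) / 2 ^ k = (t - s) / 2 ^ (k + 1) := by
      rw [hm, pow_succ]
      field_simp
      ring
    obtain ⟨z₀, hz₀⟩ := G5b_min hW hsm hmt x y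
    obtain ⟨ξ, u, hξ, a1, a2, a3⟩ := ih s m x z₀ hsm (by rw [e1]; exact hk)
    obtain ⟨ξ', u', hξ', b1, b2, b3⟩ := ih m t z₀ y hmt (by rw [e2]; exact hk)
    obtain ⟨ξ'', u'', hc, c1, c2⟩ := Cur.concat hξ hξ' (a2.trans b1.symm)
    refine ⟨ξ'', u'', hc, ((c1 s hsm.le).1).trans a1, ((c2 t hmt).1).trans b2, ?_⟩
    have hadd : ∀ {η w : ℝ → ℝ}, Cur s t η w → A1 W s t η w = A1 W s m η w + A1 W m t η w := by
      intro η w h
      unfold A1
      exact (intervalIntegral.integral_add_adjacent_intervals (G5b_int hW (h.sub le_rfl hsm.le hmt.le))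
        (G5b_int hW (h.sub hsm.le hmt.le le_rfl))).symm
    have d1 : A1 W s m ξ'' u'' = A1 W s m ξ u := by
      unfold A1
      refine intervalIntegral.integral_congr fun τ hτ => ?_
      rw [Set.uIcc_of_le hsm.le] at hτ
      change u'' τ ^ 2 / 2 - W (ξ'' τ) τ = u τ ^ 2 / 2 - W (ξ τ) τ
      rw [(c1 τ hτ.2).1, (c1 τ hτ.2).2]
    have d2 : A1 W m t ξ'' u'' = A1 W m t ξ' u' := by
      unfold A1
      refine intervalIntegral.integral_congr_ae (Filter.Eventually.of_forall fun τ hτ => ?_)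
      rw [Set.uIoc_of_le hmt.le] at hτ
      rw [(c2 τ hτ.1).1, (c2 τ hτ.1).2]
    rw [hadd hc, d1, d2]
    refine le_Dm hW hst fun η w hη h4 h5 => ?_
    rw [hadd hη]
    have e3 := Dm_le hW (hη.sub le_rfl hsm.le hmt.le)
    have e4 := Dm_le hW (hη.sub hsm.le hmt.le le_rfl)
    rw [h4] at e3
    rw [h5] at e4
    have e5 := hz₀ (η m)
    linarith

theorem Dm_exists (hW : HW Tp W W₁ W₂ B) {s t : ℝ} (hst : s < t) (x y : ℝ) :
    ∃ γ v : ℝ → ℝ, Ext W₁ γ v ∧ γ s = x ∧ γ t = y ∧ A1 W s t γ v = Dm W s t x y := by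
  have hB := hW.nonneg
  obtain ⟨k, hk⟩ : ∃ k : ℕ, B * ((t - s) / 2 ^ k) ^ 2 ≤ 1 := by
    obtain ⟨k, hk⟩ := pow_unbounded_of_one_lt (B * (t - s) ^ 2) (by norm_num : (1 : ℝ) < 2)
    refine ⟨k, ?_⟩
    have h1 : (1 : ℝ) ≤ 2 ^ k := one_le_pow₀ (by norm_num)
    rw [div_pow, ← mul_div_assoc, div_le_one (by positivity)]
    nlinarith
  obtain ⟨ξ, u, hξ, a1, a2, a3⟩ := G5b_curve hW k s t x y hst hk
  obtain ⟨γ, v, hγ, hγξ⟩ := min_ext hW hst hξ (by rw [a1, a2]; exact a3)
  refine ⟨γ, v, hγ, (hγξ s ⟨le_rfl, hst.le⟩).trans a1, (hγξ t ⟨hst.le, le_rfl⟩).trans a2, ?_⟩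
  obtain ⟨S, hS, hder⟩ := hξ.der
  have h1 : A1 W s t γ v = A1 W s t ξ u := by
    unfold A1
    refine intervalIntegral.integral_congr_ae ?_
    have hS' : (S ∪ {t}).Countable := hS.union (Set.countable_singleton t)
    filter_upwards [hS'.ae_notMem volume] with τ hτS hτ
    rw [Set.uIoc_of_le hst.le] at hτ
    have h2 : τ ∉ S := fun h => hτS (Or.inl h)
    have h3 : τ ≠ t := fun h => hτS (Or.inr h)
    have h4 : τ ∈ Set.Ioo s t := ⟨hτ.1, lt_of_le_of_ne hτ.2 h3⟩
    have h5 := hder τ ⟨h4, h2⟩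
    have h6 : γ =ᶠ[nhds τ] ξ := by
      filter_upwards [Ioo_mem_nhds h4.1 h4.2] with z hz
      exact hγξ z ⟨hz.1.le, hz.2.le⟩
    have h7 : v τ = u τ := (hγ.der τ).unique (h5.congr_of_eventuallyEq h6)
    rw [h7, hγξ τ ⟨hτ.1.le, hτ.2⟩]
  have h2 : Dm W s t x y ≤ A1 W s t ξ u := by
    have h3 := Dm_le hW hξ
    rw [a1, a2] at h3
    exact h3
  rw [h1]
  exact le_antisymm a3 h2

end Pool.Agent.H33.AN
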