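import Pool.Agent.H33.AN.P.G4

/-!
# Module G6: minimum and maximum of two curves; the Monge property

* `minmax`: `u₁ t = if x t ≤ y t then u t else w t` and `u₂` the other one, except that the exceptional
  set contains the times `t` with `x t = y t`, `u t ≠ w t` (both curves differentiable at `t`): such
  times are isolated in `{x = y}`, hence countable. At `t` with `x t = y t` and `u t = w t` the minimum and
  the maximum have the derivative `u t`.
* `monge`: let `ξ` go from `x` to `y'` and `ξ'` from `x'` to `y` (almost minimising): `min ξ ξ'` goes from `x`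
  to `y`, `max ξ ξ'` goes from `x'` to `y'`.
-/

set_option autoImplicit false

open MeasureTheory
open scoped RealInnerProductSpace

namespace Pool.Agent.H33.AN

variable {Tp B : ℝ} {W W₁ W₂ : ℝ → ℝ → ℝ}

private theorem g6a_cont (hW : HW Tp W W₁ W₂ B) : Continuous fun z : ℝ × ℝ => W z.1 z.2 :=
  continuous_iff_continuousAt.2 fun z => (hW.der z.1 z.2).continuousAt

private theorem g6a_int (hW : HW Tp W W₁ W₂ B) {a b : ℝ} {ξ u : ℝ → ℝ} (h : Cur a b ξ u) :
    IntervalIntegrable (fun t => u t ^ 2 / 2 - W (ξ t) t) volume a b := by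
  have hg : Continuous fun z : ℝ × ℝ × ℝ => z.2.1 ^ 2 / 2 - W z.1 z.2.2 := by
    have h1 := g6a_cont hW
    have h2 : Continuous fun z : ℝ × ℝ × ℝ => W z.1 z.2.2 :=
      h1.comp (continuous_fst.prodMk (continuous_snd.comp continuous_snd))
    fun_prop
  exact h.integrable hg

/-- The zeros of a function with nonzero derivative are countable. -/
private theorem g6a_countable (f : ℝ → ℝ) (E : Set ℝ)
    (hE : ∀ t ∈ E, f t = 0 ∧ ∃ f' : ℝ, f' ≠ 0 ∧ HasDerivAt f f' t) : E.Countable := by
  have hd : DiscreteTopology E := by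
    rw [discreteTopology_subtype_iff]
    intro t ht
    obtain ⟨_, f', hf', hder⟩ := hE t ht
    have h1 := hder.eventually_ne (c := 0) hf'
    rw [Filter.inf_principal_eq_bot]
    filter_upwards [h1] with z hz hzE
    exact hz (hE z hzE).1
  exact Set.countable_coe_iff.1 (countable_of_Lindelof_of_discrete (X := E))

private theorem g6a_abs (f : ℝ → ℝ) (t : ℝ) (h0 : f t = 0) (h : HasDerivAt f 0 t) :
    HasDerivAt (fun s => |f s|) 0 t := by
  rw [hasDerivAt_iff_isLittleO] at h ⊢
  simp only [h0, sub_zero, smul_zero, abs_zero] at h ⊢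
  exact h.abs_left

private theorem g6a_min (x y : ℝ → ℝ) (t d : ℝ) (h0 : x t = y t) (hx : HasDerivAt x d t)
    (hy : HasDerivAt y d t) : HasDerivAt (fun s => min (x s) (y s)) d t ∧
      HasDerivAt (fun s => max (x s) (y s)) d t := by
  have h1 : HasDerivAt (fun s => |x s - y s|) 0 t := by
    refine g6a_abs (fun s => x s - y s) t (by rw [h0, sub_self]) ?_
    have := hx.sub hy
    rw [sub_self] at this
    exact this
  have e1 : (fun s => min (x s) (y s)) = fun s => (x s + y s - |x s - y s|) / 2 := by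
    funext s
    rcases le_total (x s) (y s) with h | h
    · rw [min_eq_left h, abs_of_nonpos (by linarith)]
      ring
    · rw [min_eq_right h, abs_of_nonneg (by linarith)]
      ring
  have e2 : (fun s => max (x s) (y s)) = fun s => (x s + y s + |x s - y s|) / 2 := by
    funext s
    rcases le_total (x s) (y s) with h | h
    · rw [max_eq_right h, abs_of_nonpos (by linarith)]
      ring
    · rw [max_eq_left h, abs_of_nonneg (by linarith)]
      ring
  rw [e1, e2]
  constructor
  · have := ((hx.add hy).sub h1).div_const 2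
    have e : (d + d - 0) / 2 = d := by ring
    rw [e] at this
    exact this
  · have := ((hx.add hy).add h1).div_const 2
    have e : (d + d + 0) / 2 = d := by ring
    rw [e] at this
    exact this

theorem Cur.minmax (hW : HW Tp W W₁ W₂ B) {a b : ℝ} {x u y w : ℝ → ℝ} (hx : Cur a b x u)
    (hy : Cur a b y w) :
    ∃ u₁ u₂ : ℝ → ℝ, Cur a b (fun t => min (x t) (y t)) u₁ ∧
      Cur a b (fun t => max (x t) (y t)) u₂ ∧
      A1 W a b (fun t => min (x t) (y t)) u₁ + A1 W a b (fun t => max (x t) (y t)) u₂ =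
        A1 W a b x u + A1 W a b y w := by
  classical
  obtain ⟨sx, hsx, hdx⟩ := hx.der
  obtain ⟨sy, hsy, hdy⟩ := hy.der
  set S : Set ℝ := {t ∈ Set.Icc a b | x t ≤ y t} with hS
  have hSm : MeasurableSet S :=
    (isClosed_Icc.isClosed_le hx.cont hy.cont).measurableSet
  set E : Set ℝ := {t | t ∈ Set.Ioo a b ∧ t ∉ sx ∧ t ∉ sy ∧ x t = y t ∧ u t ≠ w t} with hE
  have hEc : E.Countable := by
    refine g6a_countable (fun t => x t - y t) E ?_
    rintro t ⟨ht, h1, h2, h3, h4⟩
    exact ⟨by simp only [h3, sub_self], u t - w t, sub_ne_zero.2 h4,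
      (hdx t ⟨ht, h1⟩).sub (hdy t ⟨ht, h2⟩)⟩
  set u₁ : ℝ → ℝ := S.piecewise u w with hu₁
  set u₂ : ℝ → ℝ := S.piecewise w u with hu₂
  have hcount : (sx ∪ sy ∪ E).Countable := (hsx.union hsy).union hEc
  -- the derivatives
  have hder : ∀ t ∈ Set.Ioo a b \ (sx ∪ sy ∪ E),
      HasDerivAt (fun t => min (x t) (y t)) (u₁ t) t ∧
        HasDerivAt (fun t => max (x t) (y t)) (u₂ t) t := by
    rintro t ⟨ht, hns⟩
    have h1 : t ∉ sx := fun h => hns (Or.inl (Or.inl h))
    have h2 : t ∉ sy := fun h => hns (Or.inl (Or.inr h))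
    have h3 : t ∉ E := fun h => hns (Or.inr h)
    have dx := hdx t ⟨ht, h1⟩
    have dy := hdy t ⟨ht, h2⟩
    have htI : t ∈ Set.Icc a b := ⟨ht.1.le, ht.2.le⟩
    rcases lt_trichotomy (x t) (y t) with hlt | heq | hgt
    · have hmem : t ∈ S := ⟨htI, hlt.le⟩
      have e1 : u₁ t = u t := Set.piecewise_eq_of_mem _ _ _ hmem
      have e2 : u₂ t = w t := Set.piecewise_eq_of_mem _ _ _ hmem
      have hev : ∀ᶠ s in nhds t, x s < y s :=
        dx.continuousAt.eventually_lt dy.continuousAt hlt
      rw [e1, e2]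
      constructor
      · refine dx.congr_of_eventuallyEq ?_
        filter_upwards [hev] with s hs
        exact min_eq_left hs.le
      · refine dy.congr_of_eventuallyEq ?_
        filter_upwards [hev] with s hs
        exact max_eq_right hs.le
    · have hmem : t ∈ S := ⟨htI, heq.le⟩
      have e1 : u₁ t = u t := Set.piecewise_eq_of_mem _ _ _ hmem
      have e2 : u₂ t = w t := Set.piecewise_eq_of_mem _ _ _ hmem
      have huw : u t = w t := by
        by_contra hne
        exact h3 ⟨ht, h1, h2, heq, hne⟩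
      rw [e1, e2, ← huw]
      rw [← huw] at dy
      exact g6a_min x y t (u t) heq dx dy
    · have hmem : t ∉ S := fun h => absurd h.2 (not_le.2 hgt)
      have e1 : u₁ t = w t := Set.piecewise_eq_of_notMem _ _ _ hmem
      have e2 : u₂ t = u t := Set.piecewise_eq_of_notMem _ _ _ hmem
      have hev : ∀ᶠ s in nhds t, y s < x s :=
        dy.continuousAt.eventually_lt dx.continuousAt hgt
      rw [e1, e2]
      constructor
      · refine dy.congr_of_eventuallyEq ?_
        filter_upwards [hev] with s hs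
        exact min_eq_right hs.le
      · refine dx.congr_of_eventuallyEq ?_
        filter_upwards [hev] with s hs
        exact max_eq_left hs.le
  obtain ⟨R, hR⟩ := hx.bd
  obtain ⟨R', hR'⟩ := hy.bd
  have hbd : ∀ (f g : ℝ → ℝ) (r r' : ℝ), (∀ t, |f t| ≤ r) → (∀ t, |g t| ≤ r') →
      ∀ t, |S.piecewise f g t| ≤ max r r' := by
    intro f g r r' hf hg t
    by_cases h : t ∈ S
    · rw [Set.piecewise_eq_of_mem _ _ _ h]
      exact (hf t).trans (le_max_left _ _)
    · rw [Set.piecewise_eq_of_notMem _ _ _ h]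
      exact (hg t).trans (le_max_right _ _)
  have hc1 : Cur a b (fun t => min (x t) (y t)) u₁ :=
    ⟨hx.le, hx.cont.inf hy.cont, ⟨_, hcount, fun t ht => (hder t ht).1⟩,
      Measurable.piecewise hSm hx.meas hy.meas, ⟨_, hbd u w R R' hR hR'⟩⟩
  have hc2 : Cur a b (fun t => max (x t) (y t)) u₂ :=
    ⟨hx.le, hx.cont.sup hy.cont, ⟨_, hcount, fun t ht => (hder t ht).2⟩,
      Measurable.piecewise hSm hy.meas hx.meas, ⟨_, hbd w u R' R hR' hR⟩⟩
  refine ⟨u₁, u₂, hc1, hc2, ?_⟩
  have i1 := g6a_int hW hc1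
  have i2 := g6a_int hW hc2
  have i3 := g6a_int hW hx
  have i4 := g6a_int hW hy
  unfold A1
  rw [← intervalIntegral.integral_add i1 i2, ← intervalIntegral.integral_add i3 i4]
  refine intervalIntegral.integral_congr fun t ht => ?_
  rw [Set.uIcc_of_le hx.le] at ht
  by_cases h : x t ≤ y t
  · have hmem : t ∈ S := ⟨ht, h⟩
    have e1 : u₁ t = u t := Set.piecewise_eq_of_mem _ _ _ hmem
    have e2 : u₂ t = w t := Set.piecewise_eq_of_mem _ _ _ hmem
    rw [e1, e2, min_eq_left h, max_eq_right h]
  · have hmem : t ∉ S := fun h' => h h'.2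
    have e1 : u₁ t = w t := Set.piecewise_eq_of_notMem _ _ _ hmem
    have e2 : u₂ t = u t := Set.piecewise_eq_of_notMem _ _ _ hmem
    rw [e1, e2, min_eq_right (not_le.1 h).le, max_eq_left (not_le.1 h).le]
    ring

end Pool.Agent.H33.AN
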