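import Pool.Agent.H33.AN.P.G4
import Pool.Agent.H33.AN.P.G6a

/-!
# Module G6: minimum and maximum of two curves; the Monge property

* `minmax`: `u₁ t = if x t ≤ y t then u t else w t` and `u₂` the other one, except that the exceptional
  set contains the times `t` with `x t = y t`, `u t ≠ w t` (both curves differentiable at `t`): such
  times are isolated in `{x = y}`, hence countable. At `t` with `x t = y t` and `u t = w t` the minimum and
  the maximum have the derivative `u t`.
* `monge`: let `ξ` go from `x` to `y'` and `ξ'` from `x'` to `y` (almost minimising): `min ξ ξ'` goes from `x`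
  to `y`, `max ξ ξ'` goes from `x'` to `y'`.
-/

set_option autoImplicit false

open MeasureTheory
open scoped RealInnerProductSpace

namespace Pool.Agent.H33.AN

variable {Tp B : ℝ} {W W₁ W₂ : ℝ → ℝ → ℝ}

theorem monge (hW : HW Tp W W₁ W₂ B) {s t : ℝ} (hst : s < t) {x x' y y' : ℝ} (hx : x ≤ x')
    (hy : y ≤ y') :
    Dm W s t x y + Dm W s t x' y' ≤ Dm W s t x y' + Dm W s t x' y := by
  refine le_of_forall_pos_le_add fun ε hε => ?_
  obtain ⟨ξ, u, hξ, hξs, hξt, hξA⟩ := exists_near hW hst x y' (half_pos hε)
  obtain ⟨ξ', u', hξ', hξs', hξt', hξA'⟩ := exists_near hW hst x' y (half_pos hε)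
  obtain ⟨u₁, u₂, h₁, h₂, hA⟩ := Cur.minmax hW hξ hξ'
  have e₁ := Dm_le hW h₁
  have e₂ := Dm_le hW h₂
  simp only [hξs, hξt, hξs', hξt', min_eq_left hx, min_eq_right hy, max_eq_right hx,
    max_eq_left hy] at e₁ e₂
  linarith

end Pool.Agent.H33.AN
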