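import Pool.Agent.H33.AN.Basic
import Pool.Agent.H33.AN.P.G7a

/-!
# Module G7: combinatorics of Monge functions

Let `x 0, …, x j` be real numbers.
* `cyc` (`x j = x 0`): induction on `j`. `j = 1`: equality. `j ≥ 2`: let `x k` be the maximum of the cycle;
  with its neighbours `y = x (k - 1)`, `z = x (k + 1)` (cyclically): `y ≤ x k`, `z ≤ x k`, so
  `D (x k) (x k) + D y z ≤ D y (x k) + D (x k) z`; remove `x k` from the cycle. (It may be convenient
  to rotate the cycle so that the maximum is in the middle or to state it for lists.)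
* `chain`: induction on `j`. If `x` is monotone or antitone on `{0, …, j}`, use
  `D (x i) (x (i + 1)) ≥ D (x i) (x i) - L |x (i + 1) - x i|` and telescope. Otherwise there is a local
  extremum `x k`, `0 < k < j` (`x (k - 1) ≤ x k ≥ x (k + 1)` or both reversed), and by the Monge property
  `D (x (k - 1)) (x k) + D (x k) (x (k + 1)) ≥ D (x (k - 1)) (x (k + 1)) + D (x k) (x k)`; remove `x k`.
-/

set_option autoImplicit false

open MeasureTheory
open scoped RealInnerProductSpace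

namespace Pool.Agent.H33.AN

/-- the sequence without the term `p + 1` -/
private noncomputable def G7b_rm (p : ℕ) (x : ℕ → ℝ) (i : ℕ) : ℝ := if i ≤ p then x i else x (i + 1)

private lemma G7b_rm_le {p i : ℕ} (h : i ≤ p) (x : ℕ → ℝ) : G7b_rm p x i = x i := if_pos h

private lemma G7b_rm_gt {p i : ℕ} (h : p < i) (x : ℕ → ℝ) : G7b_rm p x i = x (i + 1) :=
  if_neg (by omega)

private lemma G7b_rm_sum (F : ℝ → ℝ → ℝ) (x : ℕ → ℝ) (p r : ℕ) :
    ∑ i ∈ Finset.range (p + 1 + r), F (G7b_rm p x i) (G7b_rm p x (i + 1)) =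
      ∑ i ∈ Finset.range (p + 2 + r), F (x i) (x (i + 1)) - F (x p) (x (p + 1))
        - F (x (p + 1)) (x (p + 2)) + F (x p) (x (p + 2)) := by
  rw [Finset.sum_range_add _ (p + 1) r, Finset.sum_range_add _ (p + 2) r, Finset.sum_range_succ,
    Finset.sum_range_succ, Finset.sum_range_succ]
  have h1 : ∑ i ∈ Finset.range p, F (G7b_rm p x i) (G7b_rm p x (i + 1)) =
      ∑ i ∈ Finset.range p, F (x i) (x (i + 1)) := by
    apply Finset.sum_congr rfl
    intro i hi
    rw [Finset.mem_range] at hi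
    rw [G7b_rm_le (by omega), G7b_rm_le (by omega)]
  have h2 : ∑ i ∈ Finset.range r, F (G7b_rm p x (p + 1 + i)) (G7b_rm p x (p + 1 + i + 1)) =
      ∑ i ∈ Finset.range r, F (x (p + 2 + i)) (x (p + 2 + i + 1)) := by
    apply Finset.sum_congr rfl
    intro i _
    rw [G7b_rm_gt (by omega), G7b_rm_gt (by omega)]
    have e1 : p + 1 + i + 1 = p + 2 + i := by ring
    rw [e1]
  rw [h1, h2, G7b_rm_le le_rfl, G7b_rm_gt (Nat.lt_succ_self p)]
  ring

/-- an interior term which is a maximum -/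
private lemma G7b_max (x : ℕ → ℝ) {j : ℕ} (hj : 2 ≤ j) (h0 : x 0 ≤ x 1) (h1 : x j ≤ x 1) :
    ∃ p r, j = p + 2 + r ∧ x p ≤ x (p + 1) ∧ x (p + 2) ≤ x (p + 1) := by
  obtain ⟨k, hk, hmax⟩ := Finset.exists_max_image (Finset.Icc 1 (j - 1)) x
    ⟨1, Finset.mem_Icc.2 ⟨le_rfl, by omega⟩⟩
  rw [Finset.mem_Icc] at hk
  have h2 : x 1 ≤ x k := hmax 1 (Finset.mem_Icc.2 ⟨le_rfl, by omega⟩)
  have h3 : ∀ i ≤ j, x i ≤ x k := by
    intro i hi
    rcases Nat.eq_zero_or_pos i with h | h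
    · rw [h]; exact h0.trans h2
    · rcases Nat.lt_or_ge i j with h' | h'
      · exact hmax i (Finset.mem_Icc.2 ⟨h, by omega⟩)
      · have : i = j := le_antisymm hi h'
        rw [this]; exact h1.trans h2
  obtain ⟨p, rfl⟩ : ∃ p, k = p + 1 := ⟨k - 1, by omega⟩
  exact ⟨p, j - (p + 2), by omega, h3 p (by omega), h3 (p + 2) (by omega)⟩

/-- an interior extremum -/
private lemma G7b_ext {D : ℝ → ℝ → ℝ}
    (hM : ∀ x x' y y', x ≤ x' → y ≤ y' → D x y + D x' y' ≤ D x y' + D x' y) (x : ℕ → ℝ) {j : ℕ}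
    (hj : 2 ≤ j) (h : (x 0 ≤ x 1 ∧ x j ≤ x 1) ∨ (x 1 ≤ x 0 ∧ x 1 ≤ x j)) :
    ∃ p r, j = p + 2 + r ∧ D (x p) (x (p + 2)) + D (x (p + 1)) (x (p + 1)) ≤
      D (x p) (x (p + 1)) + D (x (p + 1)) (x (p + 2)) := by
  rcases h with ⟨h0, h1⟩ | ⟨h0, h1⟩
  · obtain ⟨p, r, hpr, h2, h3⟩ := G7b_max x hj h0 h1
    exact ⟨p, r, hpr, hM _ _ _ _ h2 h3⟩
  · obtain ⟨p, r, hpr, h2, h3⟩ := G7b_max (fun i => -x i) hj (neg_le_neg h0) (neg_le_neg h1)
    refine ⟨p, r, hpr, ?_⟩
    have := hM _ _ _ _ (neg_le_neg_iff.1 h2) (neg_le_neg_iff.1 h3)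
    linarith

theorem chain {D : ℝ → ℝ → ℝ}
    (hM : ∀ x x' y y', x ≤ x' → y ≤ y' → D x y + D x' y' ≤ D x y' + D x' y) {L ω : ℝ}
    {S : Set ℝ} (hL : ∀ x ∈ S, ∀ y ∈ S, D x x - L * |y - x| ≤ D x y) (hω : ∀ x ∈ S, ω ≤ D x x)
    (j : ℕ) (x : ℕ → ℝ) (hx : ∀ i ≤ j, x i ∈ S) :
    j * ω - L * |x j - x 0| ≤ ∑ i ∈ Finset.range j, D (x i) (x (i + 1)) := by
  induction j generalizing x with
  | zero => simp
  | succ m ih =>
    by_cases hb : (x 0 ≤ x 1 ∧ x 1 ≤ x (m + 1)) ∨ (x (m + 1) ≤ x 1 ∧ x 1 ≤ x 0)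
    · -- `x 1` is between `x 0` and `x (m + 1)`
      have h1 := ih (fun i => x (i + 1)) (fun i hi => hx (i + 1) (by omega))
      have h2 := hL (x 0) (hx 0 (by omega)) (x 1) (hx 1 (by omega))
      have h3 := hω (x 0) (hx 0 (by omega))
      have h4 : |x (m + 1) - x 0| = |x (m + 1) - x 1| + |x 1 - x 0| := by
        rcases hb with ⟨a, b⟩ | ⟨a, b⟩
        · rw [abs_of_nonneg (by linarith), abs_of_nonneg (by linarith), abs_of_nonneg (by linarith)]
          ring
        · rw [abs_of_nonpos (by linarith), abs_of_nonpos (by linarith), abs_of_nonpos (by linarith)]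
          ring
      simp only [zero_add] at h1
      rw [Finset.sum_range_succ', h4, zero_add]
      push_cast
      linarith
    · push Not at hb
      obtain ⟨hb1, hb2⟩ := hb
      have hm : 1 ≤ m := by
        by_contra h
        have h0 : m = 0 := by omega
        subst h0
        simp only [zero_add] at hb1 hb2
        rcases le_total (x 0) (x 1) with h | h
        · exact absurd (hb1 h) (lt_irrefl _)
        · exact absurd (hb2 le_rfl) (not_lt.2 h)
      have hcase : (x 0 ≤ x 1 ∧ x (m + 1) ≤ x 1) ∨ (x 1 ≤ x 0 ∧ x 1 ≤ x (m + 1)) := by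
        rcases le_total (x 0) (x 1) with h | h
        · exact Or.inl ⟨h, (hb1 h).le⟩
        · rcases le_total (x (m + 1)) (x 1) with h' | h'
          · exact absurd (hb2 h') (not_lt.2 h)
          · exact Or.inr ⟨h, h'⟩
      obtain ⟨p, r, hpr, hE⟩ := G7b_ext hM x (by omega) hcase
      have hm' : m = p + 1 + r := by omega
      have h1 := ih (G7b_rm p x) (by
        intro i hi
        by_cases hip : i ≤ p
        · rw [G7b_rm_le hip]; exact hx i (by omega)
        · rw [G7b_rm_gt (by omega)]; exact hx (i + 1) (by omega))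
      rw [G7b_rm_le (Nat.zero_le p), hm', G7b_rm_gt (by omega), G7b_rm_sum] at h1
      have e : p + 1 + r + 1 = p + 2 + r := by ring
      have h2 := hω (x (p + 1)) (hx _ (by omega))
      rw [hm', e]
      rw [e] at h1
      push_cast at h1 ⊢
      linarith

end Pool.Agent.H33.AN
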