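import Pool.Agent.H33.AN.P.G5
import Pool.Agent.H33.AN.P.G6
import Pool.Agent.H33.AN.P.G7

/-!
# Module G8: closed curves of type `(p, Q)`, potentials of period one in time

* `Ep_le`: for the base time `0` by definition (bounded below by `Dm_lower`). A closed curve with base
  time `s` (take a minimiser, `Dm_exists`), extended by `x (t + Q) = x t + p`, is a closed curve with
  base time `0` (cut it at a multiple of `Q`, or rather: `s = j Q + s'`, `0 ≤ s' < Q`, translate by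
  `Dm_per`, cut `[s', s' + Q]` at `Q`, move the second piece by `-Q`, `-p` and put it first).
* `Ep_attained`: `x ↦ Dm W 0 Q x (x + p)` is continuous and 1-periodic, so it attains its minimum; move
  the minimiser to the base time `s` as before.
* `Ep_mark`: let `t ∈ [s, s + j Q]` be the marked time; move the base time of the closed curve (of type
  `(j p, j Q)`) to `t` and cut it into `j` pieces: with `D x y = Dm W t (t + Q) x (y + p)` (Monge) and
  `x i = ξ(t + i Q) - i p`, `x j = x 0`: `A1 ≥ ∑ D (x i) (x (i + 1)) ≥ ∑ D (x i) (x i)` (`cyc`)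
  `≥ D (x 0) (x 0) + (j - 1) EpQ W p Q`.
* `Ep_mul`: `≥` from `Ep_mark`, `≤` by repeating a curve.
* `F_cont`: let `(t, x)`, `(t', x')` be close; a minimiser `ξ` for `(t', x')` (closed curve) passes at the time
  `t` through `ξ t`, `|ξ t - x'| ≤ C |t - t'|` (velocity bounded by `ext_vbound`), so
  `F(t, ξ t) ≤ F(t', x')` (moving the base time), and `F(t, ·)` is Lipschitz (`Dm_lip`).
-/

set_option autoImplicit false

open MeasureTheory
open scoped RealInnerProductSpace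

namespace Pool.Agent.H33.AN

variable {B : ℝ} {W W₁ W₂ : ℝ → ℝ → ℝ} {p : ℤ} {Q : ℕ}

private theorem w_cont (hW : HW 1 W W₁ W₂ B) : Continuous fun z : ℝ × ℝ => W z.1 z.2 :=
  continuous_iff_continuousAt.2 fun z => (hW.der z.1 z.2).continuousAt

private theorem ext_cont {γ v : ℝ → ℝ} (h : Ext W₁ γ v) : Continuous γ ∧ Continuous v :=
  ⟨continuous_iff_continuousAt.2 fun t => (h.der t).continuousAt,
    continuous_iff_continuousAt.2 fun t => (h.el t).continuousAt⟩

private theorem act_cont (hW : HW 1 W W₁ W₂ B) {γ v : ℝ → ℝ} (h : Ext W₁ γ v) :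
    Continuous fun t => v t ^ 2 / 2 - W (γ t) t := by
  obtain ⟨h1, h2⟩ := ext_cont h
  exact ((h2.pow 2).div_const 2).sub ((w_cont hW).comp (h1.prodMk continuous_id))

private theorem act_add (hW : HW 1 W W₁ W₂ B) {γ v : ℝ → ℝ} (h : Ext W₁ γ v) (a b c : ℝ) :
    A1 W a b γ v + A1 W b c γ v = A1 W a c γ v := by
  have h1 := act_cont hW h
  exact intervalIntegral.integral_add_adjacent_intervals (h1.intervalIntegrable _ _)
    (h1.intervalIntegrable _ _)

private theorem dm_le_ext (hW : HW 1 W W₁ W₂ B) {γ v : ℝ → ℝ} (h : Ext W₁ γ v) {a b : ℝ}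
    (hab : a ≤ b) : Dm W a b (γ a) (γ b) ≤ A1 W a b γ v := by
  obtain ⟨u, hu, huv⟩ := Cur.of_ext h hab
  have h1 := Dm_le hW hu
  have h2 : A1 W a b γ u = A1 W a b γ v := by
    refine intervalIntegral.integral_congr fun t ht => ?_
    rw [Set.uIcc_of_le hab] at ht
    show u t ^ 2 / 2 - W (γ t) t = v t ^ 2 / 2 - W (γ t) t
    rw [huv t ht]
  rw [← h2]
  exact h1

/-- Change of the base time. -/
private theorem base_change (hW : HW 1 W W₁ W₂ B) (hQ : 0 < Q) (s s' x : ℝ) :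
    ∃ x', Dm W s' (s' + Q) x' (x' + p) ≤ Dm W s (s + Q) x (x + p) := by
  have hQ0 : (0 : ℝ) < Q := by exact_mod_cast hQ
  obtain ⟨j, hj1, hj2⟩ : ∃ j : ℤ, s ≤ s' - j * Q ∧ s' - j * Q < s + Q := by
    refine ⟨⌊(s' - s) / Q⌋, ?_, ?_⟩
    · have h1 := Int.floor_le ((s' - s) / (Q : ℝ))
      rw [le_div_iff₀ hQ0] at h1
      linarith
    · have h1 := Int.lt_floor_add_one ((s' - s) / (Q : ℝ))
      rw [div_lt_iff₀ hQ0] at h1
      linarith
  have hshift : ∀ y, Dm W s' (s' + Q) y (y + p) =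
      Dm W (s' - j * Q) (s' - j * Q + Q) y (y + p) := by
    intro y
    have h1 := Dm_per hW (s' - j * Q) (s' - j * Q + Q) y (y + p) (j * Q) 0
    push_cast at h1
    rw [← h1]
    congr 1 <;> ring
  obtain ⟨γ, v, hγ, h1, h2, h3⟩ := Dm_exists hW (s := s) (t := s + Q) (by linarith) x (x + p)
  refine ⟨γ (s' - j * Q), ?_⟩
  rw [hshift, ← h3]
  set s₁ := s' - j * Q with hs₁
  rcases hj1.eq_or_lt with h | h
  · rw [← h, h1, ← h2]
    have := dm_le_ext hW hγ (a := s) (b := s + Q) (by linarith)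
    rw [h1] at this
    exact this
  · have e1 := Dm_triangle hW (r := s₁) (s := s + Q) (t := s₁ + Q) hj2 (by linarith) (γ s₁)
      (x + p) (γ s₁ + p)
    have e2 := Dm_per hW s s₁ x (γ s₁) Q p
    have e3 : Dm W (s + Q) (s₁ + Q) (x + p) (γ s₁ + p) = Dm W s s₁ x (γ s₁) := by
      rw [← e2]
      push_cast
      congr 1 <;> ring
    have e4 := dm_le_ext hW hγ h.le
    have e5 := dm_le_ext hW hγ hj2.le
    rw [h2] at e5
    rw [h1] at e4
    have e6 := act_add hW hγ s s₁ (s + Q)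
    rw [e3] at e1
    linarith

private theorem ep_bdd (hW : HW 1 W W₁ W₂ B) (hQ : 0 < Q) :
    BddBelow (Set.range fun x : ℝ => Dm W 0 Q x (x + p)) := by
  have hQ0 : (0 : ℝ) < Q := by exact_mod_cast hQ
  refine ⟨-(B * Q), ?_⟩
  rintro r ⟨x, rfl⟩
  have h := (Dm_lower hW hQ0 x (x + p)).1
  have h2 : 0 ≤ (x + p - x) ^ 2 / (2 * ((Q : ℝ) - 0)) := by
    have : 0 < 2 * ((Q : ℝ) - 0) := by linarith
    positivity
  show -(B * Q) ≤ Dm W 0 Q x (x + p)
  have h3 : B * ((Q : ℝ) - 0) = B * Q := by ring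
  linarith

private theorem ep_cont (hW : HW 1 W W₁ W₂ B) (hQ : 0 < Q) :
    Continuous fun x : ℝ => Dm W 0 Q x (x + p) := by
  have hQ0 : (0 : ℝ) < Q := by exact_mod_cast hQ
  obtain ⟨C, hC0, hC⟩ := Dm_lip hW hQ0
  refine continuous_iff_continuousAt.2 fun x₀ => ?_
  unfold ContinuousAt
  rw [tendsto_iff_dist_tendsto_zero]
  have hb : ∀ x : ℝ, dist (Dm W 0 Q x (x + p)) (Dm W 0 Q x₀ (x₀ + p)) ≤
      C * (1 + |(p : ℝ)| + |x - x₀| + |x - x₀|) * (|x - x₀| + |x - x₀|) := by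
    intro x
    have h1 := hC 0 x (x + p) x₀ (x₀ + p)
    rw [zero_add, add_sub_cancel_left, add_sub_add_right_eq_sub] at h1
    rw [Real.dist_eq]
    exact h1
  have hc : Continuous fun x : ℝ =>
      C * (1 + |(p : ℝ)| + |x - x₀| + |x - x₀|) * (|x - x₀| + |x - x₀|) := by
    have h1 : Continuous fun x : ℝ => |x - x₀| := (continuous_id.sub continuous_const).abs
    exact (continuous_const.mul ((continuous_const.add h1).add h1)).mul (h1.add h1)
  have hl := hc.tendsto x₀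
  simp only [sub_self, abs_zero, add_zero, mul_zero] at hl
  exact squeeze_zero (fun x => dist_nonneg) hb hl

private theorem ep_min (hW : HW 1 W W₁ W₂ B) (hQ : 0 < Q) :
    ∃ x₀, Dm W 0 Q x₀ (x₀ + p) = EpQ W p Q := by
  have hper : Function.Periodic (fun x : ℝ => Dm W 0 Q x (x + p)) 1 := by
    intro x
    have h1 := Dm_per hW 0 Q x (x + p) 0 1
    push_cast at h1
    rw [zero_mul, add_zero, add_zero] at h1
    show Dm W 0 Q (x + 1) (x + 1 + p) = Dm W 0 Q x (x + p)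
    rw [← h1]
    congr 1
    ring
  obtain ⟨x₀, -, h0⟩ := (isCompact_Icc (a := (0 : ℝ)) (b := 1)).exists_isMinOn
    (Set.nonempty_Icc.2 zero_le_one) (ep_cont (p := p) hW hQ).continuousOn
  refine ⟨x₀, le_antisymm (le_csInf (Set.range_nonempty _) ?_) (csInf_le (ep_bdd hW hQ) ⟨x₀, rfl⟩)⟩
  rintro r ⟨x, rfl⟩
  obtain ⟨y, hy, hy2⟩ := hper.exists_mem_Ico₀ one_pos x
  have h3 : Dm W 0 Q x₀ (x₀ + p) ≤ Dm W 0 Q y (y + p) := h0 ⟨hy.1, hy.2.le⟩
  exact h3.trans (le_of_eq hy2.symm)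

theorem Ep_le (hW : HW 1 W W₁ W₂ B) (hQ : 0 < Q) (s x : ℝ) :
    EpQ W p Q ≤ Dm W s (s + Q) x (x + p) := by
  obtain ⟨y, hy⟩ := base_change (p := p) hW hQ s 0 x
  rw [zero_add] at hy
  exact (csInf_le (ep_bdd hW hQ) ⟨y, rfl⟩).trans hy

theorem Ep_attained (hW : HW 1 W W₁ W₂ B) (hQ : 0 < Q) (s : ℝ) :
    ∃ x, Dm W s (s + Q) x (x + p) = EpQ W p Q := by
  obtain ⟨x₀, h0⟩ := ep_min (p := p) hW hQ
  obtain ⟨x, hx⟩ := base_change (p := p) hW hQ 0 s x₀
  rw [zero_add, h0] at hx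
  exact ⟨x, le_antisymm hx (Ep_le hW hQ s x)⟩

end Pool.Agent.H33.AN
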