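import Pool.Agent.H33.AN.P.G5
import Pool.Agent.H33.AN.P.G6
import Pool.Agent.H33.AN.P.G7
import Pool.Agent.H33.AN.P.G8a

/-!
# Module G8: closed curves of type `(p, Q)`, potentials of period one in time

* `Ep_mark`: let `t ∈ [s, s + j Q]` be the marked time; move the base time of the closed curve (of type
  `(j p, j Q)`) to `t` and cut it into `j` pieces: with `D x y = Dm W t (t + Q) x (y + p)` (Monge) and
  `x i = ξ(t + i Q) - i p`, `x j = x 0`: `A1 ≥ ∑ D (x i) (x (i + 1)) ≥ ∑ D (x i) (x i)` (`cyc`)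
  `≥ D (x 0) (x 0) + (j - 1) EpQ W p Q`.
* `Ep_mul`: `≥` from `Ep_mark`, `≤` by repeating a curve.
-/

set_option autoImplicit false

open MeasureTheory
open scoped RealInnerProductSpace

namespace Pool.Agent.H33.AN

variable {B : ℝ} {W W₁ W₂ : ℝ → ℝ → ℝ} {p : ℤ} {Q : ℕ}

private theorem G8b_int {Tp : ℝ} (hW : HW Tp W W₁ W₂ B) {a b : ℝ} {x u : ℝ → ℝ} (h : Cur a b x u) :
    IntervalIntegrable (fun t => u t ^ 2 / 2 - W (x t) t) volume a b := by
  have hc : Continuous fun z : ℝ × ℝ => W z.1 z.2 :=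
    continuous_iff_continuousAt.2 fun z => (hW.der z.1 z.2).continuousAt
  have hg : Continuous fun z : ℝ × ℝ × ℝ => z.2.1 ^ 2 / 2 - W z.1 z.2.2 := by
    have h1 : Continuous fun z : ℝ × ℝ × ℝ => W z.1 z.2.2 :=
      hc.comp (continuous_fst.prodMk (continuous_snd.comp continuous_snd))
    fun_prop
  exact h.integrable hg

private theorem G8b_add {Tp : ℝ} (hW : HW Tp W W₁ W₂ B) {a b c : ℝ} {x u : ℝ → ℝ}
    (h : Cur a c x u) (hab : a ≤ b) (hbc : b ≤ c) :
    A1 W a c x u = A1 W a b x u + A1 W b c x u := by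
  unfold A1
  rw [intervalIntegral.integral_add_adjacent_intervals]
  · exact G8b_int hW (h.sub le_rfl hab hbc)
  · exact G8b_int hW (h.sub hab hbc le_rfl)

/-- cut a curve at the times `r + i q`, `i ≤ n`. -/
private theorem G8b_cut {Tp : ℝ} (hW : HW Tp W W₁ W₂ B) {r q : ℝ} (hq : 0 ≤ q) {x u : ℝ → ℝ} (n : ℕ)
    (h : Cur r (r + n * q) x u) :
    ∑ i ∈ Finset.range n, Dm W (r + i * q) (r + (i + 1) * q) (x (r + i * q)) (x (r + (i + 1) * q)) ≤
      A1 W r (r + n * q) x u := by
  induction n with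
  | zero => simp [A1]
  | succ n ih =>
    rw [Finset.sum_range_succ]
    have e : r + ((n + 1 : ℕ) : ℝ) * q = r + (n + 1) * q := by push_cast; ring
    rw [e] at h ⊢
    have h1 : r ≤ r + n * q := by have : (0 : ℝ) ≤ n * q := by positivity
                                  linarith
    have h2 : r + n * q ≤ r + (n + 1) * q := by nlinarith
    rw [G8b_add hW h h1 h2]
    exact add_le_add (ih (h.sub le_rfl h1 h2)) (Dm_le hW (h.sub h1 h2 le_rfl))

private theorem G8b_per (hW : HW 1 W W₁ W₂ B) (s x y : ℝ) (i : ℕ) :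
    Dm W (s + i * Q) (s + (i + 1) * Q) x y = Dm W s (s + Q) (x - i * p) (y - i * p) := by
  have := Dm_per hW s (s + Q) (x - i * p) (y - i * p) ((i : ℤ) * Q) ((i : ℤ) * p)
  rw [← this]
  congr 1 <;> push_cast <;> ring

/-- Closed curves of type `(j p, j Q)` through the marked point `(t, ξ t)`. -/
theorem Ep_mark (hW : HW 1 W W₁ W₂ B) (hQ : 0 < Q) {j : ℕ} (hj : 0 < j) {s : ℝ} {ξ u : ℝ → ℝ}
    (hξ : Cur s (s + j * Q) ξ u) (hc : ξ (s + j * Q) = ξ s + j * p) {t : ℝ}
    (ht : t ∈ Set.Icc s (s + j * Q)) :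
    Dm W t (t + Q) (ξ t) (ξ t + p) + ((j : ℝ) - 1) * EpQ W p Q ≤ A1 W s (s + j * Q) ξ u := by
  have hQ' : (0 : ℝ) < Q := by exact_mod_cast hQ
  -- the reduced marked time
  have key : ∀ t : ℝ, ∀ m : ℕ, m < j → ∀ τ : ℝ, 0 ≤ τ → τ < Q → t = s + m * Q + τ →
      Dm W t (t + Q) (ξ t) (ξ t + p) + ((j : ℝ) - 1) * EpQ W p Q ≤ A1 W s (s + j * Q) ξ u := by
    intro t m hm τ hτ hτQ htm
    obtain ⟨n, rfl⟩ : ∃ n, j = n + 1 := ⟨j - 1, by omega⟩
    set r : ℝ := s + τ with hr
    -- positions at the cutting times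
    let y : ℕ → ℝ := fun i => if i < n + 1 then ξ (r + i * Q) else ξ r + (n + 1) * p
    let x : ℕ → ℝ := fun i => y i - i * p
    let D : ℝ → ℝ → ℝ := fun a b => Dm W r (r + Q) a (b + p)
    have hM : ∀ x x' y y', x ≤ x' → y ≤ y' → D x y + D x' y' ≤ D x y' + D x' y := by
      intro a a' b b' ha hb
      exact monge hW (by linarith) ha (by linarith)
    have hx0 : x (n + 1) = x 0 := by
      simp [x, y]
    have hcyc := cyc hM (n + 1) x hx0
    have e1 : r + n * Q ≤ s + ((n + 1 : ℕ) : ℝ) * Q := by push_cast; rw [hr]; nlinarith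
    have e0 : r ≤ r + n * Q := by have : (0 : ℝ) ≤ n * (Q : ℝ) := by positivity
                                  linarith
    have e2 : s ≤ r := by linarith
    -- the action
    have hA : A1 W s (s + ((n + 1 : ℕ) : ℝ) * Q) ξ u = A1 W s r ξ u + (A1 W r (r + n * Q) ξ u +
        A1 W (r + n * Q) (s + ((n + 1 : ℕ) : ℝ) * Q) ξ u) := by
      rw [G8b_add hW hξ e2 (e0.trans e1), G8b_add hW (hξ.sub e2 (e0.trans e1) le_rfl) e0 e1]
    have hcut := G8b_cut hW hQ'.le n (hξ.sub e2 e0 e1)
    have hlast : Dm W (r + n * Q) (r + (n + 1) * Q) (ξ (r + n * Q)) (ξ r + (n + 1) * p) ≤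
        A1 W s r ξ u + A1 W (r + n * Q) (s + ((n + 1 : ℕ) : ℝ) * Q) ξ u := by
      have a1 := Dm_le hW (hξ.sub (e2.trans e0) e1 le_rfl)
      rcases hτ.eq_or_lt with h0 | h0
      · have hrs : r = s := by rw [hr, ← h0]; ring
        have a2 : A1 W s r ξ u = 0 := by rw [hrs]; simp [A1]
        rw [a2, zero_add]
        refine le_trans (le_of_eq ?_) a1
        rw [hc, hrs]
        push_cast
        rfl
      · have a2 := Dm_le hW (hξ.sub le_rfl e2 (e0.trans e1))
        have a3 := Dm_per hW s r (ξ s) (ξ r) (((n + 1 : ℕ) : ℤ) * Q) (((n + 1 : ℕ) : ℤ) * p)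
        have b1 : r + n * Q < s + ((n + 1 : ℕ) : ℝ) * Q := by push_cast; rw [hr]; nlinarith
        have b2 : s + ((n + 1 : ℕ) : ℝ) * Q < r + (n + 1) * Q := by push_cast; rw [hr]; nlinarith
        have a4 := Dm_triangle hW b1 b2 (ξ (r + n * Q)) (ξ (s + ((n + 1 : ℕ) : ℝ) * Q))
          (ξ r + (n + 1) * p)
        have a5 : Dm W (s + ((n + 1 : ℕ) : ℝ) * Q) (r + (n + 1) * Q) (ξ (s + ((n + 1 : ℕ) : ℝ) * Q))
          (ξ r + (n + 1) * p) = Dm W s r (ξ s) (ξ r) := by
          rw [← a3, hc]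
          congr 1 <;> push_cast <;> ring
        rw [a5] at a4
        linarith
    -- the sum
    have hsum : ∑ i ∈ Finset.range (n + 1), D (x i) (x (i + 1)) ≤
        A1 W s (s + ((n + 1 : ℕ) : ℝ) * Q) ξ u := by
      rw [Finset.sum_range_succ, hA]
      have c1 : ∑ i ∈ Finset.range n, D (x i) (x (i + 1)) =
          ∑ i ∈ Finset.range n, Dm W (r + i * Q) (r + (i + 1) * Q) (ξ (r + i * Q))
            (ξ (r + (i + 1) * Q)) := by
        refine Finset.sum_congr rfl fun i hi => ?_
        have hi' : i < n := Finset.mem_range.1 hi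
        rw [G8b_per hW (p := p)]
        show Dm W r (r + Q) (x i) (x (i + 1) + p) = _
        have h1 : x i = ξ (r + i * Q) - i * p := by
          simp only [x, y]; rw [if_pos (by omega)]
        have h2 : x (i + 1) = ξ (r + (i + 1) * Q) - (i + 1) * p := by
          simp only [x, y]; rw [if_pos (by omega)]; push_cast; rfl
        rw [h1, h2]
        congr 1
        ring
      have c2 : D (x n) (x (n + 1)) =
          Dm W (r + n * Q) (r + (n + 1) * Q) (ξ (r + n * Q)) (ξ r + (n + 1) * p) := by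
        rw [G8b_per hW (p := p)]
        show Dm W r (r + Q) (x n) (x (n + 1) + p) = _
        have h1 : x n = ξ (r + n * Q) - n * p := by
          simp only [x, y]; rw [if_pos (by omega)]
        have h2 : x (n + 1) = ξ r := by
          rw [hx0]; simp [x, y]
        rw [h1, h2]
        congr 1
        ring
      rw [c1, c2]
      linarith
    -- lower bound
    have hlow : D (x m) (x m) + (((n + 1 : ℕ) : ℝ) - 1) * EpQ W p Q ≤
        ∑ i ∈ Finset.range (n + 1), D (x i) (x i) := by
      rw [← Finset.add_sum_erase _ _ (Finset.mem_range.2 hm)]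
      have : (((n + 1 : ℕ) : ℝ) - 1) * EpQ W p Q =
          ∑ i ∈ (Finset.range (n + 1)).erase m, EpQ W p Q := by
        rw [Finset.sum_const, Finset.card_erase_of_mem (Finset.mem_range.2 hm), Finset.card_range]
        simp
      rw [this]
      gcongr with i hi
      exact Ep_le hW hQ r (x i)
    have hDm : D (x m) (x m) = Dm W t (t + Q) (ξ t) (ξ t + p) := by
      have h1 : x m = ξ t - m * p := by
        simp only [x, y]; rw [if_pos hm, htm, hr]
        congr 2
        ring
      show Dm W r (r + Q) (x m) (x m + p) = _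
      rw [h1]
      have := G8b_per hW (p := p) (Q := Q) r (ξ t) (ξ t + p) m
      have h2 : ξ t - m * p + p = ξ t + p - m * p := by ring
      rw [h2, ← this]
      congr 1 <;> rw [htm, hr] <;> ring
    rw [hDm] at hlow
    linarith
  -- the number of periods
  obtain ⟨ht1, ht2⟩ := ht
  rcases ht2.eq_or_lt with h | h
  · -- the end point: replace by the initial point
    have h0 : (0 : ℕ) < j := hj
    have e : Dm W t (t + Q) (ξ t) (ξ t + p) = Dm W s (s + Q) (ξ s) (ξ s + p) := by
      have a3 := Dm_per hW s (s + Q) (ξ s) (ξ s + p) ((j : ℤ) * Q) ((j : ℤ) * p)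
      rw [← a3, h, hc]
      congr 1 <;> push_cast <;> ring
    rw [e]
    exact key s 0 hj 0 le_rfl hQ' (by simp)
  · set m : ℕ := ⌊(t - s) / Q⌋₊ with hm
    have hnn : 0 ≤ (t - s) / Q := div_nonneg (by linarith) hQ'.le
    have f1 : (m : ℝ) ≤ (t - s) / Q := Nat.floor_le hnn
    have f2 : (t - s) / Q < m + 1 := Nat.lt_floor_add_one _
    rw [le_div_iff₀ hQ'] at f1
    rw [div_lt_iff₀ hQ'] at f2
    have hmj : m < j := by
      have : (m : ℝ) * Q < j * Q := by linarith
      have := lt_of_mul_lt_mul_right this hQ'.le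
      exact_mod_cast this
    exact key t m hmj (t - s - m * Q) (by linarith) (by linarith) (by ring)

theorem Ep_mul (hW : HW 1 W W₁ W₂ B) (hQ : 0 < Q) {j : ℕ} (hj : 0 < j) :
    EpQ W (j * p) (j * Q) = j * EpQ W p Q := by
  have hQ' : (0 : ℝ) < Q := by exact_mod_cast hQ
  have hj' : (0 : ℝ) < j := by exact_mod_cast hj
  have hjQ : 0 < j * Q := Nat.mul_pos hj hQ
  apply le_antisymm
  · obtain ⟨x, hx⟩ := Ep_attained (p := p) hW hQ 0
    rw [zero_add] at hx
    have h1 := Ep_le (p := (j : ℤ) * p) hW hjQ 0 x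
    refine h1.trans ?_
    have h2 : ∀ n : ℕ, 0 < n → Dm W 0 (n * Q) x (x + n * p) ≤ n * EpQ W p Q := by
      intro n hn
      induction n with
      | zero => omega
      | succ n ih =>
        rcases Nat.eq_zero_or_pos n with h0 | h0
        · subst h0
          simp only [zero_add, Nat.cast_one, one_mul]
          exact hx.le
        · have h0' : (0 : ℝ) < n := by exact_mod_cast h0
          have i1 := ih h0
          have i2 := G8b_per hW (p := p) (Q := Q) 0 (x + n * p) (x + (n + 1) * p) n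
          have i3 := Dm_triangle hW (r := 0) (s := n * Q) (t := (n + 1) * Q) (by positivity)
            (by nlinarith) x (x + n * p) (x + (n + 1) * p)
          have i4 : x + ↑n * (p : ℝ) - ↑n * ↑p = x := by ring
          have i5 : x + (↑n + 1) * (p : ℝ) - ↑n * ↑p = x + p := by ring
          rw [i4, i5] at i2
          simp only [zero_add] at i2
          rw [hx] at i2
          rw [i2] at i3
          push_cast
          linarith
    have h3 := h2 j hj
    have h4 : Dm W 0 (0 + ((j * Q : ℕ) : ℝ)) x (x + ((j : ℤ) * p : ℤ)) =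
        Dm W 0 (j * Q) x (x + j * p) := by
      congr 1 <;> push_cast <;> ring
    rw [h4]
    exact h3
  · obtain ⟨x, hx⟩ := Ep_attained (p := (j : ℤ) * p) hW hjQ 0
    rw [← hx]
    have hpos : (0 : ℝ) < 0 + ((j * Q : ℕ) : ℝ) := by push_cast; positivity
    refine le_Dm hW hpos fun ξ u hξ h0 h1 => ?_
    have e1 : 0 + ((j * Q : ℕ) : ℝ) = 0 + j * Q := by push_cast; ring
    rw [e1] at hξ h1 ⊢
    have h2 := Ep_mark (p := p) hW hQ hj hξ (by rw [h1, h0]; push_cast; ring) (t := 0)
      ⟨le_rfl, by positivity⟩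
    have h3 := Ep_le (p := p) hW hQ 0 (ξ 0)
    nlinarith

end Pool.Agent.H33.AN
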