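import Pool.Agent.H33.AN.P.G5
import Pool.Agent.H33.AN.P.G6
import Pool.Agent.H33.AN.P.G7
import Pool.Agent.H33.AN.P.G8a
import Pool.Agent.H33.AN.P.G8b

/-!
# Module G8: closed curves of type `(p, Q)`, potentials of period one in time

* `Ep_le`: for the base time `0` by definition (bounded below by `Dm_lower`). A closed curve with base
  time `s` (take a minimiser, `Dm_exists`), extended by `x (t + Q) = x t + p`, is a closed curve with
  base time `0` (cut it at a multiple of `Q`, or rather: `s = j Q + s'`, `0 ≤ s' < Q`, translate by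
  `Dm_per`, cut `[s', s' + Q]` at `Q`, move the second piece by `-Q`, `-p` and put it first).
* `Ep_attained`: `x ↦ Dm W 0 Q x (x + p)` is continuous and 1-periodic, so it attains its minimum; move
  the minimiser to the base time `s` as before.
* `Ep_mark`: let `t ∈ [s, s + j Q]` be the marked time; move the base time of the closed curve (of type
  `(j p, j Q)`) to `t` and cut it into `j` pieces: with `D x y = Dm W t (t + Q) x (y + p)` (Monge) and
  `x i = ξ(t + i Q) - i p`, `x j = x 0`: `A1 ≥ ∑ D (x i) (x (i + 1)) ≥ ∑ D (x i) (x i)` (`cyc`)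
  `≥ D (x 0) (x 0) + (j - 1) EpQ W p Q`.
* `Ep_mul`: `≥` from `Ep_mark`, `≤` by repeating a curve.
* `F_cont`: let `(t, x)`, `(t', x')` be close; a minimiser `ξ` for `(t', x')` (closed curve) passes at the time
  `t` through `ξ t`, `|ξ t - x'| ≤ C |t - t'|` (velocity bounded by `ext_vbound`), so
  `F(t, ξ t) ≤ F(t', x')` (moving the base time), and `F(t, ·)` is Lipschitz (`Dm_lip`).
-/

set_option autoImplicit false

open MeasureTheory
open scoped RealInnerProductSpace

namespace Pool.Agent.H33.AN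

variable {B : ℝ} {W W₁ W₂ : ℝ → ℝ → ℝ} {p : ℤ} {Q : ℕ}

private theorem g8c_split (hW : HW 1 W W₁ W₂ B) {γ v : ℝ → ℝ} (h : Ext W₁ γ v) (a b c : ℝ) :
    A1 W a b γ v + A1 W b c γ v = A1 W a c γ v := by
  have hγ : Continuous γ := continuous_iff_continuousAt.mpr fun t => (h.der t).continuousAt
  have hv : Continuous v := continuous_iff_continuousAt.mpr fun t => (h.el t).continuousAt
  have hWc : Continuous fun z : ℝ × ℝ => W z.1 z.2 :=
    continuous_iff_continuousAt.mpr fun z => (hW.der z.1 z.2).continuousAt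
  have hc : Continuous fun t => v t ^ 2 / 2 - W (γ t) t := by
    have h1 := hWc.comp (hγ.prodMk continuous_id)
    exact ((hv.pow 2).div_const 2).sub h1
  exact intervalIntegral.integral_add_adjacent_intervals (hc.intervalIntegrable _ _)
    (hc.intervalIntegrable _ _)

private theorem g8c_le (hW : HW 1 W W₁ W₂ B) {γ v : ℝ → ℝ} (h : Ext W₁ γ v) {a b : ℝ}
    (hab : a ≤ b) : Dm W a b (γ a) (γ b) ≤ A1 W a b γ v := by
  obtain ⟨u, hu, hue⟩ := Cur.of_ext h hab
  refine (Dm_le hW hu).trans (le_of_eq ?_)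
  unfold A1
  apply intervalIntegral.integral_congr
  intro t ht
  rw [Set.uIcc_of_le hab] at ht
  simp only [hue t ht]

/-- periodicity -/
private theorem g8c_per (hW : HW 1 W W₁ W₂ B) (s t x y : ℝ) (Q : ℕ) (p : ℤ) :
    Dm W (s + Q) (t + Q) (x + p) (y + p) = Dm W s t x y := by
  have h := Dm_per hW s t x y (Q : ℤ) p
  simpa using h

/-- moving the base time forward -/
private theorem g8c_rot (hW : HW 1 W W₁ W₂ B) {γ v : ℝ → ℝ} (h : Ext W₁ γ v) {t' t x : ℝ}
    (h1 : t' < t) (h2 : t < t' + Q) (hx : γ t' = x) (hy : γ (t' + Q) = x + p)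
    (hA : A1 W t' (t' + Q) γ v = Dm W t' (t' + Q) x (x + p)) :
    Dm W t (t + Q) (γ t) (γ t + p) ≤ Dm W t' (t' + Q) x (x + p) := by
  rw [← hA, ← g8c_split hW h t' t (t' + Q)]
  have e1 := g8c_le hW h h1.le
  have e2 := g8c_le hW h h2.le
  have e3 := Dm_triangle hW h2 (show t' + Q < t + Q by linarith) (γ t) (x + p) (γ t + p)
  have e4 := g8c_per hW t' t x (γ t) Q p
  rw [hx] at e1
  rw [hy] at e2
  linarith

private theorem g8c_speed (hW : HW 1 W W₁ W₂ B) (hQ : 0 < Q) {γ v : ℝ → ℝ} (h : Ext W₁ γ v)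
    {t' x : ℝ} (hx : γ t' = x) (hy : γ (t' + Q) = x + p) {a b : ℝ}
    (ha : a ∈ Set.Icc t' (t' + Q)) (hb : b ∈ Set.Icc t' (t' + Q)) :
    |γ b - γ a| ≤ (|(p : ℝ)| + B * Q) * |b - a| := by
  have hQ' : (0 : ℝ) < Q := by exact_mod_cast hQ
  have hQ1 : (1 : ℝ) ≤ Q := by exact_mod_cast hQ
  have key : ∀ t ∈ Set.Icc t' (t' + Q), ‖v t‖ ≤ |(p : ℝ)| + B * Q := by
    intro t ht
    have hb := ext_vbound hW h (show t' < t' + (Q : ℝ) by linarith) ht
    rw [hx, hy] at hb
    have e1 : (x + (p : ℝ) - x) / (t' + Q - t') = p / Q := by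
      rw [add_sub_cancel_left, add_sub_cancel_left]
    have e2 : t' + (Q : ℝ) - t' = Q := by ring
    rw [e1, e2] at hb
    have e3 : |(p : ℝ) / Q| ≤ |(p : ℝ)| := by
      rw [abs_div, abs_of_pos hQ']
      exact div_le_self (abs_nonneg _) hQ1
    have e4 : |v t| ≤ |v t - p / Q| + |(p : ℝ) / Q| := by
      have := abs_add_le (v t - p / Q) ((p : ℝ) / Q)
      rwa [sub_add_cancel] at this
    rw [Real.norm_eq_abs]
    linarith
  have hconv : Convex ℝ (Set.Icc t' (t' + (Q : ℝ))) := convex_Icc _ _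
  have := hconv.norm_image_sub_le_of_norm_hasDerivWithin_le
    (fun t _ => (h.der t).hasDerivWithinAt) key ha hb
  simpa [Real.norm_eq_abs] using this

/-- the curve for the time `t'` gives a point for the time `t` -/
private theorem g8c_move (hW : HW 1 W W₁ W₂ B) (hQ : 0 < Q) {t' t : ℝ} (ht : |t - t'| < Q)
    (x : ℝ) :
    ∃ y, |y - x| ≤ (|(p : ℝ)| + B * Q) * |t - t'| ∧
      Dm W t (t + Q) y (y + p) ≤ Dm W t' (t' + Q) x (x + p) := by
  have hQ' : (0 : ℝ) < Q := by exact_mod_cast hQ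
  rw [abs_lt] at ht
  obtain ⟨γ, v, h, hx, hy, hA⟩ := Dm_exists hW (show t' < t' + (Q : ℝ) by linarith) x (x + p)
  rcases lt_trichotomy t t' with hlt | heq | hgt
  · refine ⟨γ (t + Q) - p, ?_, ?_⟩
    · have e := g8c_speed (p := p) hW hQ h hx hy (a := t' + Q) (b := t + Q)
        ⟨by linarith, le_rfl⟩ ⟨by linarith, by linarith⟩
      rw [hy] at e
      have e1 : γ (t + Q) - p - x = γ (t + Q) - (x + p) := by ring
      have e2 : t + (Q : ℝ) - (t' + Q) = t - t' := by ring
      rw [e2] at e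
      rw [e1]
      exact e
    · have e := g8c_rot hW h (t := t + Q) (by linarith) (by linarith) hx hy hA
      have e1 := g8c_per hW t (t + Q) (γ (t + Q) - p) (γ (t + Q) - p + p) Q p
      rw [sub_add_cancel] at e1
      rw [sub_add_cancel, ← e1]
      exact e
  · subst heq
    refine ⟨x, by simp, le_rfl⟩
  · refine ⟨γ t, ?_, ?_⟩
    · have e := g8c_speed (p := p) hW hQ h hx hy (a := t') (b := t)
        ⟨le_rfl, by linarith⟩ ⟨by linarith, by linarith⟩
      rw [hx] at e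
      exact e
    · exact g8c_rot hW h hgt (by linarith) hx hy hA

theorem F_cont (hW : HW 1 W W₁ W₂ B) (hQ : 0 < Q) :
    Continuous fun z : ℝ × ℝ => Dm W z.1 (z.1 + Q) z.2 (z.2 + p) := by
  have hQ' : (0 : ℝ) < Q := by exact_mod_cast hQ
  obtain ⟨C, hC0, hC⟩ := Dm_lip hW hQ'
  set R : ℝ := |(p : ℝ)| + B * Q with hR
  have hR0 : 0 ≤ R := by
    have := mul_nonneg hW.nonneg hQ'.le
    have := abs_nonneg (p : ℝ)
    linarith
  -- Lipschitz in the space variable
  have hx : ∀ t x x', |Dm W t (t + Q) x (x + p) - Dm W t (t + Q) x' (x' + p)| ≤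
      C * (1 + |(p : ℝ)| + 2 * |x - x'|) * (2 * |x - x'|) := by
    intro t x x'
    have h := hC t x (x + p) x' (x' + p)
    have e1 : x + (p : ℝ) - x = p := by ring
    have e2 : x + (p : ℝ) - (x' + p) = x - x' := by ring
    rw [e1, e2] at h
    refine h.trans (le_of_eq ?_)
    ring
  have hmono : ∀ a b : ℝ, 0 ≤ a → a ≤ b → C * (1 + |(p : ℝ)| + 2 * a) * (2 * a) ≤
      C * (1 + |(p : ℝ)| + 2 * b) * (2 * b) := by
    intro a b ha hab
    have hp := abs_nonneg (p : ℝ)
    have h1 : 1 + |(p : ℝ)| + 2 * a ≤ 1 + |(p : ℝ)| + 2 * b := by linarith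
    have h2 : C * (1 + |(p : ℝ)| + 2 * a) ≤ C * (1 + |(p : ℝ)| + 2 * b) :=
      mul_le_mul_of_nonneg_left h1 hC0
    have h3 : 0 ≤ C * (1 + |(p : ℝ)| + 2 * b) := mul_nonneg hC0 (by linarith)
    exact mul_le_mul h2 (by linarith) (by linarith) h3
  -- one-sided estimate in the time variable
  have hone : ∀ t t' x : ℝ, |t - t'| < (Q : ℝ) → Dm W t (t + Q) x (x + p) ≤ Dm W t' (t' + Q) x (x + p) +
      C * (1 + |(p : ℝ)| + 2 * (R * |t - t'|)) * (2 * (R * |t - t'|)) := by
    intro t t' x ht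
    obtain ⟨y, hy1, hy2⟩ := g8c_move (p := p) hW hQ ht x
    have h1 := hx t x y
    have h2 := hmono |x - y| (R * |t - t'|) (abs_nonneg _) (by rw [abs_sub_comm]; exact hy1)
    have h3 := le_abs_self (Dm W t (t + Q) x (x + p) - Dm W t (t + Q) y (y + p))
    linarith
  have htime : ∀ t t' x : ℝ, |t - t'| < (Q : ℝ) →
      |Dm W t (t + Q) x (x + p) - Dm W t' (t' + Q) x (x + p)| ≤
        C * (1 + |(p : ℝ)| + 2 * (R * |t - t'|)) * (2 * (R * |t - t'|)) := by
    intro t t' x ht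
    have h1 := hone t t' x ht
    have h2 := hone t' t x (by rw [abs_sub_comm]; exact ht)
    rw [abs_sub_comm t' t] at h2
    rw [abs_le]
    constructor <;> linarith
  rw [continuous_iff_continuousAt]
  rintro ⟨t₀, x₀⟩
  rw [ContinuousAt, tendsto_iff_norm_sub_tendsto_zero]
  have hg : Continuous fun z : ℝ × ℝ =>
      C * (1 + |(p : ℝ)| + 2 * |z.2 - x₀|) * (2 * |z.2 - x₀|) +
        C * (1 + |(p : ℝ)| + 2 * (R * |z.1 - t₀|)) * (2 * (R * |z.1 - t₀|)) := by
    fun_prop
  have hg0 := hg.tendsto (t₀, x₀)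
  simp only [sub_self, abs_zero, mul_zero, add_zero] at hg0
  refine squeeze_zero' (Filter.Eventually.of_forall fun _ => norm_nonneg _) ?_ hg0
  have hnear : ∀ᶠ z : ℝ × ℝ in nhds (t₀, x₀), |z.1 - t₀| < Q := by
    have hc : Continuous fun z : ℝ × ℝ => |z.1 - t₀| := by fun_prop
    have := hc.tendsto (t₀, x₀)
    simp only [sub_self, abs_zero] at this
    exact this.eventually (gt_mem_nhds hQ')
  filter_upwards [hnear] with z hz
  have h1 := hx z.1 z.2 x₀
  have h2 := htime z.1 t₀ x₀ hz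
  rw [Real.norm_eq_abs]
  calc |Dm W z.1 (z.1 + Q) z.2 (z.2 + p) - Dm W t₀ (t₀ + Q) x₀ (x₀ + p)|
      = |(Dm W z.1 (z.1 + Q) z.2 (z.2 + p) - Dm W z.1 (z.1 + Q) x₀ (x₀ + p)) +
          (Dm W z.1 (z.1 + Q) x₀ (x₀ + p) - Dm W t₀ (t₀ + Q) x₀ (x₀ + p))| := by
        congr 1
        ring
    _ ≤ _ := (abs_add_le _ _).trans (add_le_add h1 h2)

end Pool.Agent.H33.AN
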