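import Pool.Agent.H33.AN.P.G8

/-!
# Module G9: minimising closed orbits (leaves)

* `closed_min_ext`: extend `ξ` to a closed curve (`ξ (t + Q) = ξ t + p`); its action over a period is the
  minimum `EpQ W p Q` (`Ep_le`), so it minimises on every window `[s', s' + Q]` (a better curve on the
  window would give a closed curve of smaller action), and `min_ext` on the windows starting at `s`
  and `s + Q/2` shows that the closed curve agrees with a solution on the whole line (on the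
  overlaps the positions agree, so the velocities too, and `ext_unique` applies); then periodicity
  of `γ`, `v`, and the action over every period is `EpQ W p Q`.
-/

set_option autoImplicit false

open MeasureTheory
open scoped RealInnerProductSpace

namespace Pool.Agent.H33.AN

variable {B : ℝ} {W W₁ W₂ : ℝ → ℝ → ℝ} {p : ℤ} {Q : ℕ}

private theorem g9a_cont (hW : HW 1 W W₁ W₂ B) : Continuous fun z : ℝ × ℝ => W z.1 z.2 :=
  continuous_iff_continuousAt.2 fun z => (hW.der z.1 z.2).continuousAt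

private theorem g9a_int (hW : HW 1 W W₁ W₂ B) {a b : ℝ} {ξ u : ℝ → ℝ} (h : Cur a b ξ u) :
    IntervalIntegrable (fun t => u t ^ 2 / 2 - W (ξ t) t) volume a b := by
  have hg : Continuous fun z : ℝ × ℝ × ℝ => z.2.1 ^ 2 / 2 - W z.1 z.2.2 := by
    have h1 := g9a_cont hW
    have h2 : Continuous fun z : ℝ × ℝ × ℝ => W z.1 z.2.2 :=
      h1.comp (continuous_fst.prodMk (continuous_snd.comp continuous_snd))
    fun_prop
  exact h.integrable hg

/-- Solutions which agree on an interval agree everywhere. -/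
private theorem g9a_agree (hW : HW 1 W W₁ W₂ B) {γ v γ' v' : ℝ → ℝ} (h : Ext W₁ γ v)
    (h' : Ext W₁ γ' v') {c d : ℝ} (hcd : c < d) (heq : ∀ t ∈ Set.Icc c d, γ t = γ' t) :
    γ = γ' ∧ v = v' := by
  have hm : (c + d) / 2 ∈ Set.Ioo c d := ⟨by linarith, by linarith⟩
  have h1 : γ =ᶠ[nhds ((c + d) / 2)] γ' := by
    filter_upwards [Ioo_mem_nhds hm.1 hm.2] with t ht
    exact heq t ⟨ht.1.le, ht.2.le⟩
  have h2 : v ((c + d) / 2) = v' ((c + d) / 2) :=
    ((h.der _).congr_of_eventuallyEq h1.symm).unique (h'.der _)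
  exact ext_unique hW h h' (heq _ ⟨hm.1.le, hm.2.le⟩) h2

private theorem g9a_perW (hW : HW 1 W W₁ W₂ B) (p : ℤ) (Q : ℕ) (x t : ℝ) :
    W (x + p) (t + Q) = W x t := by
  have h1 : Function.Periodic (fun y => W y (t + Q)) 1 := fun y => hW.per₁ y _
  have h2 : Function.Periodic (fun s => W x s) 1 := fun s => hW.per₂ x s
  have h3 := h1.int_mul p x
  have h4 := h2.nat_mul Q t
  rw [mul_one] at h3 h4
  exact h3.trans h4

/-- Closed curves of minimal action are leaves. -/
theorem closed_min_ext (hW : HW 1 W W₁ W₂ B) (hQ : 0 < Q) {s : ℝ} {ξ u : ℝ → ℝ}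
    (hξ : Cur s (s + Q) ξ u) (hcl : ξ (s + Q) = ξ s + p) (hact : A1 W s (s + Q) ξ u ≤ EpQ W p Q) :
    ∃ γ v : ℝ → ℝ, Leaf W W₁ p Q γ v ∧ ∀ t ∈ Set.Icc s (s + Q), γ t = ξ t := by
  have hQ' : (0 : ℝ) < Q := by exact_mod_cast hQ
  have hsQ : s < s + Q := by linarith
  have hle := Ep_le (p := p) hW hQ s (ξ s)
  have hmin : A1 W s (s + Q) ξ u ≤ Dm W s (s + Q) (ξ s) (ξ (s + Q)) := by
    rw [hcl]
    exact hact.trans hle
  obtain ⟨γ, v, hγ, hγξ⟩ := min_ext hW hsQ hξ hmin
  -- the window starting at the middle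
  set m : ℝ := s + Q / 2 with hm
  have hsm : s ≤ m := by linarith
  have hmQ : m ≤ s + Q := by linarith
  have h1 : Cur m (s + Q) ξ u := hξ.sub hsm hmQ le_rfl
  have h2 : Cur s m ξ u := hξ.sub le_rfl hsm hmQ
  have h3 := (h2.shift Q).add_lin (p : ℝ) 0
  obtain ⟨η, w, hη, hηl, hηr⟩ := h1.concat h3 (by
    have e : s + (Q : ℝ) - Q = s := by ring
    rw [e, hcl]
    ring)
  have hmm : m + Q = s + Q + Q / 2 := by rw [hm]; ring
  have hηm : η m = ξ m := (hηl m hmQ).1
  have hηm2 : η (m + Q) = ξ m + p := by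
    rw [(hηr (m + Q) (by linarith)).1]
    have e : m + (Q : ℝ) - Q = m := by ring
    rw [e]
    ring
  have hA : A1 W m (m + Q) η w = A1 W s (s + Q) ξ u := by
    have e1 : A1 W m (s + Q) η w = A1 W m (s + Q) ξ u := by
      unfold A1
      refine intervalIntegral.integral_congr_ae (Filter.Eventually.of_forall fun t ht => ?_)
      rw [Set.uIoc_of_le hmQ] at ht
      rw [(hηl t ht.2).1, (hηl t ht.2).2]
    have e2 : A1 W (s + Q) (m + Q) η w = A1 W s m ξ u := by
      unfold A1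
      have e3 : ∫ t in (s + Q)..(m + Q), (w t ^ 2 / 2 - W (η t) t) =
          ∫ t in (s + Q)..(m + Q), (fun τ => u τ ^ 2 / 2 - W (ξ τ) τ) (t - Q) := by
        refine intervalIntegral.integral_congr_ae (Filter.Eventually.of_forall fun t ht => ?_)
        rw [Set.uIoc_of_le (by linarith)] at ht
        rw [(hηr t ht.1).1, (hηr t ht.1).2]
        have e4 := g9a_perW hW p Q (ξ (t - Q)) (t - Q)
        have e5 : t - (Q : ℝ) + Q = t := by ring
        rw [e5] at e4
        dsimp only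
        rw [← e4]
        have e6 : ξ (t - Q) + ((p : ℝ) + 0 * t) = ξ (t - Q) + p := by ring
        rw [e6, add_zero]
      rw [e3, intervalIntegral.integral_comp_sub_right (fun τ => u τ ^ 2 / 2 - W (ξ τ) τ) (Q : ℝ)]
      have e7 : s + (Q : ℝ) - Q = s := by ring
      have e8 : m + (Q : ℝ) - Q = m := by ring
      rw [e7, e8]
    have e9 : A1 W m (m + Q) η w = A1 W m (s + Q) η w + A1 W (s + Q) (m + Q) η w := by
      unfold A1
      rw [intervalIntegral.integral_add_adjacent_intervals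
        (g9a_int hW (hη.sub le_rfl hmQ (by linarith)))
        (g9a_int hW (hη.sub hmQ (by linarith) le_rfl))]
    have e10 : A1 W s (s + Q) ξ u = A1 W s m ξ u + A1 W m (s + Q) ξ u := by
      unfold A1
      rw [intervalIntegral.integral_add_adjacent_intervals (g9a_int hW h2) (g9a_int hW h1)]
    rw [e9, e1, e2, e10, add_comm]
  have hmin2 : A1 W m (m + Q) η w ≤ Dm W m (m + Q) (η m) (η (m + Q)) := by
    rw [hA, hηm, hηm2]
    exact hact.trans (Ep_le (p := p) hW hQ m (ξ m))
  obtain ⟨γ₂, v₂, hγ₂, hγ₂η⟩ := min_ext hW (by linarith) hη hmin2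
  have hag1 := g9a_agree hW hγ hγ₂ (c := m) (d := s + Q) (by linarith) fun t ht => by
    rw [hγξ t ⟨hsm.trans ht.1, ht.2⟩, hγ₂η t ⟨ht.1, ht.2.trans (by linarith)⟩, (hηl t ht.2).1]
  -- the shifted solution
  have hsh := ext_shift hW hγ (-(Q : ℤ)) p
  have hag2 := g9a_agree hW hγ₂ hsh (c := s + Q + Q / 4) (d := m + Q) (by linarith) fun t ht => by
    have htQ : s + (Q : ℝ) < t := by
      have := ht.1
      linarith
    have e1 : t + ((-(Q : ℤ) : ℤ) : ℝ) * 1 = t - Q := by
      push_cast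
      ring
    rw [hγ₂η t ⟨hmQ.trans htQ.le, ht.2⟩, (hηr t htQ).1]
    rw [e1, hγξ (t - Q) ⟨by linarith, by
      have := ht.2
      linarith⟩]
    ring
  have hper : ∀ t, γ (t + Q) = γ t + p := by
    intro t
    have e1 : γ (t + Q) = γ₂ (t + Q) := by rw [hag1.1]
    have e2 : γ₂ (t + Q) = γ (t + Q + ((-(Q : ℤ) : ℤ) : ℝ) * 1) + p :=
      congrFun hag2.1 (t + Q)
    have e3 : t + (Q : ℝ) + ((-(Q : ℤ) : ℤ) : ℝ) * 1 = t := by
      push_cast
      ring
    rw [e1, e2, e3]
  have hvper : ∀ t, v (t + Q) = v t := by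
    intro t
    have e1 : v (t + Q) = v₂ (t + Q) := by rw [hag1.2]
    have e2 : v₂ (t + Q) = v (t + Q + ((-(Q : ℤ) : ℤ) : ℝ) * 1) := congrFun hag2.2 (t + Q)
    have e3 : t + (Q : ℝ) + ((-(Q : ℤ) : ℤ) : ℝ) * 1 = t := by
      push_cast
      ring
    rw [e1, e2, e3]
  -- the action over `[s, s + Q]`
  have hAs : A1 W s (s + Q) γ v = A1 W s (s + Q) ξ u := by
    obtain ⟨S, hS, hder⟩ := hξ.der
    unfold A1
    refine intervalIntegral.integral_congr_ae ?_
    have hS' : (insert (s + (Q : ℝ)) S).Countable := hS.insert _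
    filter_upwards [hS'.ae_notMem volume] with t ht htI
    rw [Set.uIoc_of_le hsQ.le] at htI
    have ht1 : t ≠ s + Q := fun h => ht (by rw [h]; exact Set.mem_insert _ _)
    have ht2 : t ∉ S := fun h => ht (Set.mem_insert_of_mem _ h)
    have ht3 : t < s + Q := lt_of_le_of_ne htI.2 ht1
    have hd := hder t ⟨⟨htI.1, ht3⟩, ht2⟩
    have heq : γ =ᶠ[nhds t] ξ := by
      filter_upwards [Ioo_mem_nhds htI.1 ht3] with x hx
      exact hγξ x ⟨hx.1.le, hx.2.le⟩
    have hv : v t = u t := (hγ.der t).unique (hd.congr_of_eventuallyEq heq)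
    rw [hv, hγξ t ⟨htI.1.le, htI.2⟩]
  have hAge : EpQ W p Q ≤ A1 W s (s + Q) γ v := by
    obtain ⟨u₀, hu₀, hu₀v⟩ := Cur.of_ext hγ hsQ.le
    have hD := Dm_le hW hu₀
    rw [hper] at hD
    have e : A1 W s (s + Q) γ u₀ = A1 W s (s + Q) γ v := by
      unfold A1
      refine intervalIntegral.integral_congr_ae (Filter.Eventually.of_forall fun t ht => ?_)
      rw [Set.uIoc_of_le hsQ.le] at ht
      rw [hu₀v t ⟨ht.1.le, ht.2⟩]
    rw [e] at hD
    exact (Ep_le (p := p) hW hQ s (γ s)).trans hD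
  have hAeq : A1 W s (s + Q) γ v = EpQ W p Q := le_antisymm (by rw [hAs]; exact hact) hAge
  refine ⟨γ, v, ⟨hγ, hper, hvper, fun s' => ?_⟩, hγξ⟩
  have hfper : Function.Periodic (fun t => v t ^ 2 / 2 - W (γ t) t) Q := by
    intro t
    dsimp only
    rw [hvper, hper, g9a_perW hW p Q]
  rw [← hAeq]
  unfold A1
  exact hfper.intervalIntegral_add_eq s' s

end Pool.Agent.H33.AN
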