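import Pool.Agent.H33.AN.P.G8
import Pool.Agent.H33.AN.P.G9a

/-!
# Module G9: minimising closed orbits (leaves)

* `closed_min_ext`: extend `ξ` to a closed curve (`ξ (t + Q) = ξ t + p`); its action over a period is the
  minimum `EpQ W p Q` (`Ep_le`), so it minimises on every window `[s', s' + Q]` (a better curve on the
  window would give a closed curve of smaller action), and `min_ext` on the windows starting at `s`
  and `s + Q/2` shows that the closed curve agrees with a solution on the whole line (on the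
  overlaps the positions agree, so the velocities too, and `ext_unique` applies); then periodicity
  of `γ`, `v`, and the action over every period is `EpQ W p Q`.
* `leaf_exists`: `Dm_exists` from `(x, s)` to `(x + p, s + Q)`, `Cur.of_ext`, `closed_min_ext`.
* `leaf_zero`: `Ep_le` and `Dm_le`.
* `leaf_order`: suppose `γ s < γ' s` and `γ t ≥ γ' t` for some `t`; by periodicity one may take
  `t ∈ (s, s + Q)`. `min γ γ'` and `max γ γ'` on `[s, s + Q]` are closed curves with the sum of the actions
  `2 EpQ` (`Cur.minmax`), so both have the action `EpQ` (`Ep_le`) and agree with leaves (`closed_min_ext`); the minimum agrees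
  with `γ` near `s`, so it is `γ` everywhere (`ext_unique`), so `γ ≤ γ'` on `[s, s + Q]`, and at a
  touching time in the interior the velocities agree: `γ = γ'` by `ext_unique`, contradiction.
* `leaf_unique`: if `γ s = γ' s`, `v s ≠ v' s`, then `min γ γ'` (base time `s - Q/2`) is a closed curve of minimal
  action with a corner at `s`: contradiction to `closed_min_ext`.
* `leaf_shift`: integer translates in `x` and `t` of leaves are leaves.
* `leaf_vbound`: if `γ (t + 1) ≥ γ t + k` for some `t` then the leaves `γ (· + 1)`, `γ + k` are ordered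
  (`leaf_order`, `leaf_unique`), hence `γ (t + j) ≥ γ t + j k` for all `j`, and `p/Q ≥ k`; likewise with
  `≤`. So `|γ (t + 1) - γ t - p/Q| ≤ 1`; conclude by `ext_vbound`.
-/

set_option autoImplicit false

open MeasureTheory
open scoped RealInnerProductSpace

namespace Pool.Agent.H33.AN

variable {B : ℝ} {W W₁ W₂ : ℝ → ℝ → ℝ} {p : ℤ} {Q : ℕ}

private theorem G9b_A1_congr {a b : ℝ} (hab : a ≤ b) {γ u v : ℝ → ℝ}
    (h : ∀ t ∈ Set.Icc a b, u t = v t) : A1 W a b γ u = A1 W a b γ v := by
  unfold A1
  apply intervalIntegral.integral_congr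
  intro t ht
  rw [Set.uIcc_of_le hab] at ht
  simp only [h t ht]

theorem leaf_exists (hW : HW 1 W W₁ W₂ B) (hQ : 0 < Q) {s x : ℝ}
    (h : Dm W s (s + Q) x (x + p) = EpQ W p Q) :
    ∃ γ v : ℝ → ℝ, Leaf W W₁ p Q γ v ∧ γ s = x := by
  have hQ' : (0 : ℝ) < Q := by exact_mod_cast hQ
  have hlt : s < s + Q := by linarith
  obtain ⟨γ, v, hext, h1, h2, h3⟩ := Dm_exists hW hlt x (x + p)
  obtain ⟨u, hu, huv⟩ := Cur.of_ext hext hlt.le
  have hA : A1 W s (s + Q) γ u ≤ EpQ W p Q := by
    rw [G9b_A1_congr hlt.le huv, h3, h]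
  obtain ⟨γ', v', hL, hE⟩ := closed_min_ext hW hQ hu (by rw [h1, h2]) hA
  exact ⟨γ', v', hL, by rw [hE s ⟨le_rfl, hlt.le⟩, h1]⟩

theorem leaf_zero (hW : HW 1 W W₁ W₂ B) (hQ : 0 < Q) {γ v : ℝ → ℝ} (h : Leaf W W₁ p Q γ v)
    (s : ℝ) : Dm W s (s + Q) (γ s) (γ s + p) = EpQ W p Q := by
  have hQ' : (0 : ℝ) < Q := by exact_mod_cast hQ
  have hlt : s < s + Q := by linarith
  refine le_antisymm ?_ (Ep_le hW hQ s (γ s))
  obtain ⟨u, hu, huv⟩ := Cur.of_ext h.ext hlt.le
  have h1 := Dm_le hW hu
  rw [G9b_A1_congr hlt.le huv, h.act s, h.per s] at h1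
  exact h1

theorem leaf_shift (hW : HW 1 W W₁ W₂ B) {γ v : ℝ → ℝ} (h : Leaf W W₁ p Q γ v)
    (j k : ℤ) : Leaf W W₁ p Q (fun t => γ (t + j) + k) fun t => v (t + j) := by
  have hper1 : ∀ x t, W (x + k) t = W x t := by
    intro x t
    have h1 : Function.Periodic (fun x => W x t) 1 := fun x => hW.per₁ x t
    have h2 := h1.int_mul k x
    simpa using h2
  have hper2 : ∀ x t, W x (t + j) = W x t := by
    intro x t
    have h1 : Function.Periodic (fun t => W x t) 1 := fun t => hW.per₂ x t
    have h2 := h1.int_mul j t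
    simpa using h2
  refine ⟨?_, ?_, ?_, ?_⟩
  · have h1 := ext_shift hW h.ext j k
    simpa using h1
  · intro t
    show γ (t + Q + j) + k = γ (t + j) + k + p
    rw [show t + (Q : ℝ) + j = t + j + Q by ring, h.per]
    ring
  · intro t
    show v (t + Q + j) = v (t + j)
    rw [show t + (Q : ℝ) + j = t + j + Q by ring, h.vper]
  · intro s
    have h1 := h.act (s + j)
    unfold A1 at h1 ⊢
    rw [← h1]
    have h2 : ∫ t in s..s + Q, (v (t + j) ^ 2 / 2 - W (γ (t + j) + k) t) =
        ∫ t in s..s + Q, (fun τ => v τ ^ 2 / 2 - W (γ τ) τ) (t + j) := by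
      apply intervalIntegral.integral_congr
      intro t _
      simp only [hper1, hper2]
    rw [h2, intervalIntegral.integral_comp_add_right (fun τ => v τ ^ 2 / 2 - W (γ τ) τ) (j : ℝ),
      show s + (Q : ℝ) + j = s + j + Q by ring]

end Pool.Agent.H33.AN
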