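import Pool.Agent.H33.AN.P.G8
import Pool.Agent.H33.AN.P.G9a
import Pool.Agent.H33.AN.P.G9b

/-!
# Module G9: minimising closed orbits (leaves)

* `closed_min_ext`: extend `ξ` to a closed curve (`ξ (t + Q) = ξ t + p`); its action over a period is the
  minimum `EpQ W p Q` (`Ep_le`), so it minimises on every window `[s', s' + Q]` (a better curve on the
  window would give a closed curve of smaller action), and `min_ext` on the windows starting at `s`
  and `s + Q/2` shows that the closed curve agrees with a solution on the whole line (on the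
  overlaps the positions agree, so the velocities too, and `ext_unique` applies); then periodicity
  of `γ`, `v`, and the action over every period is `EpQ W p Q`.
* `leaf_exists`: `Dm_exists` from `(x, s)` to `(x + p, s + Q)`, `Cur.of_ext`, `closed_min_ext`.
* `leaf_zero`: `Ep_le` and `Dm_le`.
* `leaf_order`: suppose `γ s < γ' s` and `γ t ≥ γ' t` for some `t`; by periodicity one may take
  `t ∈ (s, s + Q)`. `min γ γ'` and `max γ γ'` on `[s, s + Q]` are closed curves with the sum of the actions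
  `2 EpQ` (`Cur.minmax`), so both have the action `EpQ` (`Ep_le`) and agree with leaves (`closed_min_ext`); the minimum agrees
  with `γ` near `s`, so it is `γ` everywhere (`ext_unique`), so `γ ≤ γ'` on `[s, s + Q]`, and at a
  touching time in the interior the velocities agree: `γ = γ'` by `ext_unique`, contradiction.
* `leaf_unique`: if `γ s = γ' s`, `v s ≠ v' s`, then `min γ γ'` (base time `s - Q/2`) is a closed curve of minimal
  action with a corner at `s`: contradiction to `closed_min_ext`.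
* `leaf_shift`: integer translates in `x` and `t` of leaves are leaves.
* `leaf_vbound`: if `γ (t + 1) ≥ γ t + k` for some `t` then the leaves `γ (· + 1)`, `γ + k` are ordered
  (`leaf_order`, `leaf_unique`), hence `γ (t + j) ≥ γ t + j k` for all `j`, and `p/Q ≥ k`; likewise with
  `≤`. So `|γ (t + 1) - γ t - p/Q| ≤ 1`; conclude by `ext_vbound`.
-/

set_option autoImplicit false

open MeasureTheory
open scoped RealInnerProductSpace

namespace Pool.Agent.H33.AN

variable {B : ℝ} {W W₁ W₂ : ℝ → ℝ → ℝ} {p : ℤ} {Q : ℕ}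

private theorem G9c_touch {γ v g w : ℝ → ℝ} (h : Ext W₁ γ v) (hg : Ext W₁ g w) {a b t : ℝ}
    (ht : t ∈ Set.Ioo a b) (hle : ∀ r ∈ Set.Icc a b, g r ≤ γ r) (heq : g t = γ t) : v t = w t := by
  have hd : HasDerivAt (fun r => γ r - g r) (v t - w t) t := (h.der t).sub (hg.der t)
  have hmin : IsLocalMin (fun r => γ r - g r) t := by
    filter_upwards [Icc_mem_nhds ht.1 ht.2] with r hr
    have := hle r hr
    linarith
  have := hmin.hasDerivAt_eq_zero hd
  linarith

private theorem G9c_min (hW : HW 1 W W₁ W₂ B) (hQ : 0 < Q) {γ v γ' v' : ℝ → ℝ}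
    (h : Leaf W W₁ p Q γ v) (h' : Leaf W W₁ p Q γ' v') (a : ℝ) :
    ∃ g w : ℝ → ℝ, Leaf W W₁ p Q g w ∧ ∀ t ∈ Set.Icc a (a + Q), g t = min (γ t) (γ' t) := by
  have hQ' : (0 : ℝ) < Q := by exact_mod_cast hQ
  have hle : a ≤ a + Q := by linarith
  obtain ⟨u, hu, huv⟩ := Cur.of_ext h.ext hle
  obtain ⟨u', hu', huv'⟩ := Cur.of_ext h'.ext hle
  obtain ⟨u₁, u₂, c1, c2, hsum⟩ := Cur.minmax hW hu hu'
  have hA : ∀ {δ ν κ : ℝ → ℝ}, (∀ t ∈ Set.Icc a (a + Q), κ t = ν t) →
      A1 W a (a + Q) δ κ = A1 W a (a + Q) δ ν := by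
    intro δ ν κ hk
    unfold A1
    apply intervalIntegral.integral_congr
    intro t ht
    rw [Set.uIcc_of_le hle] at ht
    dsimp only
    rw [hk t ht]
  have a1 : A1 W a (a + Q) γ u = EpQ W p Q := by rw [hA huv, h.act a]
  have a2 : A1 W a (a + Q) γ' u' = EpQ W p Q := by rw [hA huv', h'.act a]
  have e1 : min (γ (a + Q)) (γ' (a + Q)) = min (γ a) (γ' a) + p := by
    rw [h.per, h'.per, min_add_add_right]
  have e2 : max (γ (a + Q)) (γ' (a + Q)) = max (γ a) (γ' a) + p := by
    rw [h.per, h'.per, max_add_add_right]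
  have b1 := Dm_le hW c1
  have b2 := Dm_le hW c2
  rw [e1] at b1
  rw [e2] at b2
  have m1 := Ep_le (p := p) hW hQ a (min (γ a) (γ' a))
  have m2 := Ep_le (p := p) hW hQ a (max (γ a) (γ' a))
  exact closed_min_ext hW hQ c1 e1 (by linarith)

theorem leaf_order (hW : HW 1 W W₁ W₂ B) (hQ : 0 < Q) {γ v γ' v' : ℝ → ℝ}
    (h : Leaf W W₁ p Q γ v) (h' : Leaf W W₁ p Q γ' v') {s : ℝ} (hs : γ s < γ' s) (t : ℝ) :
    γ t < γ' t := by
  by_contra hcon
  rw [not_lt] at hcon
  have hQ' : (0 : ℝ) < Q := by exact_mod_cast hQ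
  have hper : Function.Periodic (fun r => γ' r - γ r) (Q : ℝ) := by
    intro r
    dsimp only
    rw [h.per, h'.per]
    ring
  obtain ⟨t0, ht0, hF⟩ := hper.exists_mem_Ico hQ' t s
  have ht0s : t0 ≠ s := by
    intro he
    rw [he] at hF
    linarith
  have ht0' : t0 ∈ Set.Ioo s (s + Q) := ⟨lt_of_le_of_ne ht0.1 (Ne.symm ht0s), ht0.2⟩
  obtain ⟨g, w, hg, hgm⟩ := G9c_min hW hQ h h' s
  have hgle : ∀ r ∈ Set.Icc s (s + Q), g r ≤ γ r := by
    intro r hr
    rw [hgm r hr]
    exact min_le_left _ _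
  -- a time where g touches γ
  have hev : ∀ᶠ r in nhds s, γ r < γ' r :=
    (h.ext.der s).continuousAt.eventually_lt (h'.ext.der s).continuousAt hs
  have hev2 : ∀ᶠ r in nhdsWithin s (Set.Ioi s), r ∈ Set.Ioo s (s + Q) :=
    Ioo_mem_nhdsGT (by linarith)
  obtain ⟨t1, ht1, ht1'⟩ := ((hev.filter_mono nhdsWithin_le_nhds).and hev2).exists
  have heq1 : g t1 = γ t1 := by
    rw [hgm t1 ⟨ht1'.1.le, ht1'.2.le⟩, min_eq_left ht1.le]
  have hv1 := G9c_touch h.ext hg.ext ht1' hgle heq1
  obtain ⟨hgg, _⟩ := ext_unique hW hg.ext h.ext heq1 hv1.symm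
  have hle : ∀ r ∈ Set.Icc s (s + Q), γ r ≤ γ' r := by
    intro r hr
    have := hgm r hr
    rw [hgg] at this
    rw [this]
    exact min_le_right _ _
  have heq0 : γ t0 = γ' t0 := by
    apply le_antisymm (hle t0 ⟨ht0'.1.le, ht0'.2.le⟩)
    linarith
  have hv0 := G9c_touch h'.ext h.ext ht0' hle heq0
  obtain ⟨hgg2, _⟩ := ext_unique hW h.ext h'.ext heq0 hv0.symm
  rw [hgg2] at hs
  exact lt_irrefl _ hs

theorem leaf_unique (hW : HW 1 W W₁ W₂ B) (hQ : 0 < Q) {γ v γ' v' : ℝ → ℝ}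
    (h : Leaf W W₁ p Q γ v) (h' : Leaf W W₁ p Q γ' v') {s : ℝ} (hs : γ s = γ' s) :
    γ = γ' ∧ v = v' := by
  have hQ' : (0 : ℝ) < Q := by exact_mod_cast hQ
  obtain ⟨g, w, hg, hgm⟩ := G9c_min hW hQ h h' (s - Q / 2)
  have hsI : s ∈ Set.Ioo (s - Q / 2 : ℝ) (s - Q / 2 + Q) := ⟨by linarith, by linarith⟩
  have hm := hgm s ⟨hsI.1.le, hsI.2.le⟩
  have e1 : g s = γ s := by rw [hm, ← hs, min_self]
  have e2 : g s = γ' s := by rw [hm, hs, min_self]
  have k1 := G9c_touch h.ext hg.ext hsI (fun r hr => by rw [hgm r hr]; exact min_le_left _ _) e1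
  have k2 := G9c_touch h'.ext hg.ext hsI (fun r hr => by rw [hgm r hr]; exact min_le_right _ _) e2
  exact ext_unique hW h.ext h'.ext hs (k1.trans k2.symm)

end Pool.Agent.H33.AN
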