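import Pool.Agent.H33.AN.P.G8
import Pool.Agent.H33.AN.P.G9a
import Pool.Agent.H33.AN.P.G9b
import Pool.Agent.H33.AN.P.G9c

/-!
# Module G9: minimising closed orbits (leaves)

* `closed_min_ext`: extend `ξ` to a closed curve (`ξ (t + Q) = ξ t + p`); its action over a period is the
  minimum `EpQ W p Q` (`Ep_le`), so it minimises on every window `[s', s' + Q]` (a better curve on the
  window would give a closed curve of smaller action), and `min_ext` on the windows starting at `s`
  and `s + Q/2` shows that the closed curve agrees with a solution on the whole line (on the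
  overlaps the positions agree, so the velocities too, and `ext_unique` applies); then periodicity
  of `γ`, `v`, and the action over every period is `EpQ W p Q`.
* `leaf_exists`: `Dm_exists` from `(x, s)` to `(x + p, s + Q)`, `Cur.of_ext`, `closed_min_ext`.
* `leaf_zero`: `Ep_le` and `Dm_le`.
* `leaf_order`: suppose `γ s < γ' s` and `γ t ≥ γ' t` for some `t`; by periodicity one may take
  `t ∈ (s, s + Q)`. `min γ γ'` and `max γ γ'` on `[s, s + Q]` are closed curves with the sum of the actions
  `2 EpQ` (`Cur.minmax`), so both have the action `EpQ` (`Ep_le`) and agree with leaves (`closed_min_ext`); the minimum agrees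
  with `γ` near `s`, so it is `γ` everywhere (`ext_unique`), so `γ ≤ γ'` on `[s, s + Q]`, and at a
  touching time in the interior the velocities agree: `γ = γ'` by `ext_unique`, contradiction.
* `leaf_unique`: if `γ s = γ' s`, `v s ≠ v' s`, then `min γ γ'` (base time `s - Q/2`) is a closed curve of minimal
  action with a corner at `s`: contradiction to `closed_min_ext`.
* `leaf_shift`: integer translates in `x` and `t` of leaves are leaves.
* `leaf_vbound`: if `γ (t + 1) ≥ γ t + k` for some `t` then the leaves `γ (· + 1)`, `γ + k` are ordered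
  (`leaf_order`, `leaf_unique`), hence `γ (t + j) ≥ γ t + j k` for all `j`, and `p/Q ≥ k`; likewise with
  `≤`. So `|γ (t + 1) - γ t - p/Q| ≤ 1`; conclude by `ext_vbound`.
-/

set_option autoImplicit false

open MeasureTheory
open scoped RealInnerProductSpace

namespace Pool.Agent.H33.AN

variable {B : ℝ} {W W₁ W₂ : ℝ → ℝ → ℝ} {p : ℤ} {Q : ℕ}

private theorem step_ge (hW : HW 1 W W₁ W₂ B) (hQ : 0 < Q) {γ v : ℝ → ℝ}
    (h : Leaf W W₁ p Q γ v) {t : ℝ} {k : ℤ} (hk : γ t + k ≤ γ (t + 1)) : (k : ℝ) ≤ (p : ℝ) / Q := by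
  have hQ0 : (0 : ℝ) < Q := by exact_mod_cast hQ
  have h1 : ∀ s, γ s + k ≤ γ (s + 1) := by
    intro s
    by_contra hs
    have hs' : γ (s + 1) < γ s + k := lt_of_not_ge hs
    have l1 := leaf_shift hW h 1 0
    have l2 := leaf_shift hW h 0 k
    have h2 := leaf_order hW hQ l1 l2 (s := s) (by push_cast; rw [add_zero, add_zero]; exact hs') t
    push_cast at h2
    rw [add_zero, add_zero] at h2
    linarith
  have h2 : ∀ j : ℕ, γ t + j * k ≤ γ (t + j) := by
    intro j
    induction j with
    | zero => simp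
    | succ j ih =>
      have h3 := h1 (t + j)
      push_cast
      rw [← add_assoc]
      linarith
  have h3 := h2 Q
  rw [h.per t] at h3
  rw [le_div_iff₀ hQ0]
  linarith

private theorem step_le (hW : HW 1 W W₁ W₂ B) (hQ : 0 < Q) {γ v : ℝ → ℝ}
    (h : Leaf W W₁ p Q γ v) {t : ℝ} {k : ℤ} (hk : γ (t + 1) ≤ γ t + k) : (p : ℝ) / Q ≤ (k : ℝ) := by
  have hQ0 : (0 : ℝ) < Q := by exact_mod_cast hQ
  have h1 : ∀ s, γ (s + 1) ≤ γ s + k := by
    intro s
    by_contra hs
    have hs' : γ s + k < γ (s + 1) := lt_of_not_ge hs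
    have l1 := leaf_shift hW h 1 0
    have l2 := leaf_shift hW h 0 k
    have h2 := leaf_order hW hQ l2 l1 (s := s) (by push_cast; rw [add_zero, add_zero]; exact hs') t
    push_cast at h2
    rw [add_zero, add_zero] at h2
    linarith
  have h2 : ∀ j : ℕ, γ (t + j) ≤ γ t + j * k := by
    intro j
    induction j with
    | zero => simp
    | succ j ih =>
      have h3 := h1 (t + j)
      push_cast
      rw [← add_assoc]
      linarith
  have h3 := h2 Q
  rw [h.per t] at h3
  rw [div_le_iff₀ hQ0]
  linarith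

theorem leaf_vbound (hW : HW 1 W W₁ W₂ B) (hQ : 0 < Q) {γ v : ℝ → ℝ}
    (h : Leaf W W₁ p Q γ v) (t : ℝ) : |v t - (p : ℝ) / Q| ≤ 1 + B := by
  have h1 := step_ge hW hQ h (t := t) (k := ⌊γ (t + 1) - γ t⌋)
    (by linarith [Int.floor_le (γ (t + 1) - γ t)])
  have h2 := step_le hW hQ h (t := t) (k := ⌈γ (t + 1) - γ t⌉)
    (by linarith [Int.le_ceil (γ (t + 1) - γ t)])
  have h3 := Int.lt_floor_add_one (γ (t + 1) - γ t)
  have h4 := Int.ceil_lt_add_one (γ (t + 1) - γ t)
  have h5 := ext_vbound hW h.ext (a := t) (b := t + 1) (by linarith)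
    (Set.left_mem_Icc.2 (by linarith))
  have e : t + 1 - t = 1 := by ring
  rw [e, div_one, mul_one] at h5
  have h6 := abs_le.1 h5
  exact abs_le.2 ⟨by linarith [h6.1], by linarith [h6.2]⟩

end Pool.Agent.H33.AN
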