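import Pool.Agent.H33.AN.Orb
import Pool.Agent.H33.AN.P.X1

/-!
# Module X2: discrete minimisers

(Compare `Pool/Agent/H33/AM/P/X2a.lean`, `X2b.lean`, `X2c.lean`: the same for `K v + A(x) · v - V(x)`.)
`τ = T / N`, `v_i = (1/τ) (x_{i+1} - x_i)`, `t_i = i τ`, `S = Sd2 G V τ N`; `T` is a positive integer (the number of
periods).
* `disc_exists2`: a quasi-periodic sequence is determined by `(x_0, …, x_{N-1}) ∈ (ℝⁿ)^N`; `S` is
  continuous in these variables, invariant under the translations by `zv k'`, so one may restrict to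
  `x_0 ∈ [0, 1]ⁿ`, and coercive there: `⟪G v, v⟫ ≥ κ₁ ‖v‖²`, `|V| ≤ B`.
* `disc_EL2`: for `0 ≤ i < N`; derivative of `S` in the direction of the variable `x_i` (moved together with all
  the `x_{i + j N}`): the terms `i` and `i - 1` (for `i = 0`: the terms `0` and `N - 1`, where `v_{N-1} = v_{-1}`)
  give `-G v_i - τ F(x_i, t_i) + G v_{i-1} = 0`. (The case `N = 1`: then `x_{i+1}`, `x_i` move together,
  `v_i = v_{i-1}`; the formula is still true.)
* `disc_EL2'`: for all `i`, since `x_{i+N} = x_i + zv k`, `v_{i+N} = v_i` and `F(x + zv k, t + T) = F(x, t)`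
  (`HV2.perF`, `HV2.pertF`, `T` integer).
* `disc_bound2`: `S(x) ≤ S(straight line) ≤ T (κ₂/2 ‖zv k/T‖² + B)`, so `∑ τ ‖v_i‖² ≤ C`; by `disc_EL2`,
  `‖G v_i - G v_j‖ ≤ ∑ τ B ≤ T B` for all `i`, `j`; `κ₁ ‖v_i - v_j‖ ≤ ‖G v_i - G v_j‖`, and some
  `‖v_j‖² ≤ C/T` (average), so `‖v_i‖ ≤ R`, with `R` independent of `N` and of `x`.
-/

set_option autoImplicit false

open MeasureTheory
open scoped RealInnerProductSpace

namespace Pool.Agent.H33.AN

open Pool.Agent.H33.AM

variable {n : ℕ} {G G' : EuclideanSpace ℝ (Fin n) →L[ℝ] EuclideanSpace ℝ (Fin n)} {κ₁ κ₂ : ℝ}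
  {V : EuclideanSpace ℝ (Fin n) → ℝ → ℝ}
  {F : EuclideanSpace ℝ (Fin n) → ℝ → EuclideanSpace ℝ (Fin n)}
  {Vt : EuclideanSpace ℝ (Fin n) → ℝ → ℝ} {B : ℝ} {T N : ℕ} {k : Fin n → ℤ}

/-- The quasi-periodic extension. -/
private noncomputable def X2a_ext (N : ℕ) (k : Fin n → ℤ) (y : ℕ → EuclideanSpace ℝ (Fin n))
    (i : ℤ) : EuclideanSpace ℝ (Fin n) :=
  y (i % (N : ℤ)).toNat + zv ((i / (N : ℤ)) • k)

private theorem X2a_ext_per (hN : 0 < N) (k : Fin n → ℤ) (y : ℕ → EuclideanSpace ℝ (Fin n))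
    (i : ℤ) : X2a_ext N k y (i + N) = X2a_ext N k y i + zv k := by
  have hN' : (N : ℤ) ≠ 0 := by exact_mod_cast hN.ne'
  have h1 : (i + (N : ℤ)) % (N : ℤ) = i % (N : ℤ) := by simp
  have h2 : (i + (N : ℤ)) / (N : ℤ) = i / (N : ℤ) + 1 := by
    have := Int.add_mul_ediv_right i 1 hN'
    rwa [one_mul] at this
  unfold X2a_ext
  rw [h1, h2, add_smul, one_smul, zv_add, add_assoc]

private theorem X2a_per_mul {x : ℤ → EuclideanSpace ℝ (Fin n)}
    (hx : ∀ i, x (i + N) = x i + zv k) (m : ℤ) : ∀ i, x (i + m * N) = x i + zv (m • k) := by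
  induction m using Int.induction_on with
  | zero => intro i; simp [zv_zero]
  | succ m ih =>
    intro i
    have h1 : i + ((m : ℤ) + 1) * (N : ℤ) = (i + (m : ℤ) * N) + N := by ring
    rw [h1, hx, ih, add_smul, one_smul, zv_add, add_assoc]
  | pred m ih =>
    intro i
    have h1 : i + (-(m : ℤ)) * (N : ℤ) = (i + (-(m : ℤ) - 1) * N) + N := by ring
    have h2 := ih i
    rw [h1, hx] at h2
    have h3 : zv ((-(m : ℤ)) • k) = zv ((-(m : ℤ) - 1) • k) + zv k := by
      have h4 : (-(m : ℤ)) • k = (-(m : ℤ) - 1) • k + k := by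
        rw [sub_smul, one_smul, sub_add_cancel]
      rw [← zv_add, ← h4]
    rw [h3, ← add_assoc] at h2
    exact add_right_cancel h2

private theorem X2a_eq_ext (hN : 0 < N) {x : ℤ → EuclideanSpace ℝ (Fin n)}
    (hx : ∀ i, x (i + N) = x i + zv k) {y : ℕ → EuclideanSpace ℝ (Fin n)}
    (hy : ∀ j : ℕ, j < N → y j = x j) (i : ℤ) : x i = X2a_ext N k y i := by
  have hN' : (N : ℤ) ≠ 0 := by exact_mod_cast hN.ne'
  have h0 : 0 ≤ i % (N : ℤ) := Int.emod_nonneg _ hN'
  have h1 : i % (N : ℤ) < N := Int.emod_lt_of_pos _ (by exact_mod_cast hN)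
  unfold X2a_ext
  rw [hy _ (by omega)]
  have h2 : ((i % (N : ℤ)).toNat : ℤ) = i % (N : ℤ) := Int.toNat_of_nonneg h0
  rw [h2, ← X2a_per_mul hx]
  congr 1
  have := Int.emod_add_mul_ediv i (N : ℤ)
  linarith [mul_comm (N : ℤ) (i / (N : ℤ))]

private theorem X2a_V_cont (hV : HV2 1 V F Vt B) :
    Continuous fun z : EuclideanSpace ℝ (Fin n) × ℝ => V z.1 z.2 :=
  continuous_iff_continuousAt.2 fun z => (hV.der z.1 z.2).continuousAt

private theorem X2a_lag_cont (hV : HV2 1 V F Vt B) (t : ℝ) :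
    Continuous fun p : EuclideanSpace ℝ (Fin n) × EuclideanSpace ℝ (Fin n) =>
      lag2 G V p.1 p.2 t := by
  have cV := X2a_V_cont hV
  unfold lag2
  exact (((G.continuous.comp continuous_snd).inner continuous_snd).div_const 2).sub
    (cV.comp (continuous_fst.prodMk continuous_const))

private theorem X2a_lag_lo (hG : HG G κ₁ κ₂) (hV : HV2 1 V F Vt B) :
    ∃ C : ℝ, 0 ≤ C ∧ ∀ (x v : EuclideanSpace ℝ (Fin n)) (t : ℝ),
      κ₁ / 4 * ‖v‖ ^ 2 - C ≤ lag2 G V x v t := by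
  refine ⟨B, hV.nonneg, ?_⟩
  intro x v t
  have h1 := hG.lo v
  have h2 := (abs_le.1 (hV.bd x t)).2
  have h3 : 0 ≤ κ₁ * ‖v‖ ^ 2 := mul_nonneg hG.pos.le (sq_nonneg _)
  unfold lag2
  linarith

private theorem X2a_Sd_lo {C : ℝ}
    (h : ∀ (x v : EuclideanSpace ℝ (Fin n)) (t : ℝ), κ₁ / 4 * ‖v‖ ^ 2 - C ≤ lag2 G V x v t)
    (hκ : 0 < κ₁) {τ : ℝ} (hτ : 0 < τ) (x : ℤ → EuclideanSpace ℝ (Fin n)) {i : ℕ} (hi : i < N) :
    κ₁ / 4 * τ * ‖(1 / τ) • (x (i + 1) - x i)‖ ^ 2 - N * (τ * C) ≤ Sd2 G V τ N x := by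
  have h1 : ∑ j ∈ Finset.range N,
      (κ₁ / 4 * τ * ‖(1 / τ) • (x (j + 1) - x j)‖ ^ 2 - τ * C) ≤ Sd2 G V τ N x := by
    unfold Sd2
    refine Finset.sum_le_sum fun j _ => ?_
    have := mul_le_mul_of_nonneg_left (h (x j) ((1 / τ) • (x (j + 1) - x j)) (j * τ)) hτ.le
    linarith
  rw [Finset.sum_sub_distrib, Finset.sum_const, Finset.card_range, nsmul_eq_mul] at h1
  have h2 : κ₁ / 4 * τ * ‖(1 / τ) • (x (i + 1) - x i)‖ ^ 2 ≤
      ∑ j ∈ Finset.range N, κ₁ / 4 * τ * ‖(1 / τ) • (x (j + 1) - x j)‖ ^ 2 :=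
    Finset.single_le_sum (f := fun j : ℕ => κ₁ / 4 * τ * ‖(1 / τ) • (x ((j : ℤ) + 1) - x j)‖ ^ 2)
      (fun j _ => by positivity) (Finset.mem_range.2 hi)
  linarith

private theorem X2a_lag_per (hV : HV2 1 V F Vt B) (x v : EuclideanSpace ℝ (Fin n)) (t : ℝ)
    (l : Fin n → ℤ) : lag2 G V (x + zv l) v t = lag2 G V x v t := by
  unfold lag2
  rw [hV.per]

/-- The extension of a vector to a sequence. -/
private noncomputable def X2a_seq (N : ℕ) (y : Fin N → EuclideanSpace ℝ (Fin n)) (j : ℕ) :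
    EuclideanSpace ℝ (Fin n) :=
  if h : j < N then y ⟨j, h⟩ else 0

private theorem X2a_seq_cont (N : ℕ) (j : ℕ) :
    Continuous fun y : Fin N → EuclideanSpace ℝ (Fin n) => X2a_seq N y j := by
  unfold X2a_seq
  by_cases h : j < N
  · simp only [h, dif_pos]
    exact continuous_apply _
  · simp only [h, dif_neg, not_false_eq_true]
    exact continuous_const

theorem disc_exists2 (hG : HG G κ₁ κ₂) (hV : HV2 1 V F Vt B) (hT : 0 < T) (hN : 0 < N)
    (k : Fin n → ℤ) :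
    ∃ x : ℤ → EuclideanSpace ℝ (Fin n), IsDM2 G V T N k x ∧ ∀ j, x 0 j ∈ Set.Icc (0 : ℝ) 1 := by
  have hN' : (0 : ℝ) < N := by exact_mod_cast hN
  set τ : ℝ := (T : ℝ) / N with hτdef
  have hT' : (0 : ℝ) < T := by exact_mod_cast hT
  have hτ : 0 < τ := div_pos hT' hN'
  obtain ⟨C, hC0, hC⟩ := X2a_lag_lo hG hV
  have hκ := hG.pos
  set e : (Fin N → EuclideanSpace ℝ (Fin n)) → ℤ → EuclideanSpace ℝ (Fin n) :=
    fun y => X2a_ext N k (X2a_seq N y) with he
  have hex : ∀ y i, e y (i + N) = e y i + zv k := fun y i => X2a_ext_per hN k _ i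
  have he0 : ∀ y, e y 0 = y ⟨0, hN⟩ := by
    intro y
    simp [he, X2a_ext, X2a_seq, hN, zv_zero]
  have hei : ∀ (y : Fin N → EuclideanSpace ℝ (Fin n)) (i : Fin N), e y ((i : ℕ) : ℤ) = y i := by
    intro y i
    have hi := i.2
    have h1 : (((i : ℕ) : ℤ) % (N : ℤ)) = ((i : ℕ) : ℤ) :=
      Int.emod_eq_of_lt (by positivity) (by exact_mod_cast hi)
    have h2 : (((i : ℕ) : ℤ) / (N : ℤ)) = 0 :=
      Int.ediv_eq_zero_of_lt (by positivity) (by exact_mod_cast hi)
    simp only [he, X2a_ext]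
    rw [h1, h2]
    simp [X2a_seq, zv_zero]
  have hec : ∀ i, Continuous fun y => e y i := by
    intro i
    exact (X2a_seq_cont N _).add continuous_const
  set f : (Fin N → EuclideanSpace ℝ (Fin n)) → ℝ := fun y => Sd2 G V τ N (e y) with hf
  have hfc : Continuous f := by
    simp only [hf, Sd2]
    refine continuous_finsetSum _ fun i _ => continuous_const.mul ?_
    exact (X2a_lag_cont hV _).comp
      ((hec i).prodMk (((hec (i + 1)).sub (hec i)).const_smul (1 / τ)))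
  set M : ℝ := f 0 with hM
  set Ks : Set (Fin N → EuclideanSpace ℝ (Fin n)) :=
    {y | (∀ j, y ⟨0, hN⟩ j ∈ Set.Icc (0 : ℝ) 1) ∧ f y ≤ M} with hKs
  have hclosed : IsClosed Ks := by
    have h1 : IsClosed {y : Fin N → EuclideanSpace ℝ (Fin n) |
        ∀ j, y ⟨0, hN⟩ j ∈ Set.Icc (0 : ℝ) 1} := by
      rw [Set.ofPred_forall]
      refine isClosed_iInter fun j => ?_
      refine isClosed_Icc.preimage (f := fun y : Fin N → EuclideanSpace ℝ (Fin n) =>
        y ⟨0, hN⟩ j) ?_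
      fun_prop
    exact h1.inter (isClosed_le hfc continuous_const)
  -- boundedness
  set R : ℝ := Real.sqrt ((M + N * (τ * C)) / (κ₁ / 4 * τ)) with hR
  have hbd : Ks ⊆ Metric.closedBall 0 (Real.sqrt n + N * (τ * R)) := by
    intro y hy
    have hy1 := hy.1
    have hy2 := hy.2
    have hR0 : 0 ≤ R := Real.sqrt_nonneg _
    have h0 : ‖y ⟨0, hN⟩‖ ≤ Real.sqrt n := by
      rw [EuclideanSpace.norm_eq]
      refine Real.sqrt_le_sqrt ?_
      calc ∑ j, ‖y ⟨0, hN⟩ j‖ ^ 2 ≤ ∑ j : Fin n, (1 : ℝ) := by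
            refine Finset.sum_le_sum fun j _ => ?_
            have := hy1 j
            rw [Real.norm_eq_abs, sq_abs]
            nlinarith [this.1, this.2]
        _ = n := by simp
    have hstep : ∀ i : ℕ, i < N → ‖e y (i + 1) - e y i‖ ≤ τ * R := by
      intro i hi
      have h1 := X2a_Sd_lo (N := N) hC hκ hτ (e y) hi
      have h2 : ‖(1 / τ) • (e y (i + 1) - e y i)‖ ≤ R := by
        refine Real.le_sqrt_of_sq_le ?_
        rw [le_div_iff₀ (by positivity)]
        have : Sd2 G V τ N (e y) ≤ M := hy2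
        linarith
      rw [norm_smul, Real.norm_of_nonneg (by positivity), one_div, inv_mul_le_iff₀ hτ] at h2
      exact h2
    have hall : ∀ i : ℕ, i < N → ‖e y i‖ ≤ Real.sqrt n + i * (τ * R) := by
      intro i
      induction i with
      | zero =>
        intro _
        simp only [Nat.cast_zero, zero_mul, add_zero]
        rw [he0]
        exact h0
      | succ i ih =>
        intro hi
        have h1 := ih (by omega)
        have h2 := hstep i (by omega)
        have h3 : ‖e y ((i : ℤ) + 1)‖ ≤ ‖e y i‖ + ‖e y (i + 1) - e y i‖ := by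
          have := norm_add_le (e y i) (e y (i + 1) - e y i)
          rwa [add_sub_cancel] at this
        push_cast
        linarith
    rw [mem_closedBall_zero_iff, pi_norm_le_iff_of_nonneg (by positivity)]
    intro i
    have h1 := hall i i.2
    rw [hei] at h1
    refine h1.trans ?_
    have h2 : ((i : ℕ) : ℝ) ≤ N := by exact_mod_cast i.2.le
    have h3 : ((i : ℕ) : ℝ) * (τ * R) ≤ N * (τ * R) :=
      mul_le_mul_of_nonneg_right h2 (by positivity)
    linarith
  have hcomp : IsCompact Ks :=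
    (isCompact_closedBall (0 : Fin N → EuclideanSpace ℝ (Fin n)) _).of_isClosed_subset
      hclosed hbd
  have hne : (0 : Fin N → EuclideanSpace ℝ (Fin n)) ∈ Ks := by
    refine ⟨fun j => ?_, le_rfl⟩
    simp
  obtain ⟨y, hyK, hymin⟩ := hcomp.exists_isMinOn ⟨0, hne⟩ hfc.continuousOn
  refine ⟨e y, ⟨hex y, ?_⟩, ?_⟩
  · intro x hx
    set l : Fin n → ℤ := fun j => -⌊x 0 j⌋ with hl
    set x' : ℤ → EuclideanSpace ℝ (Fin n) := fun i => x i + zv l with hx'
    have hx'per : ∀ i, x' (i + N) = x' i + zv k := by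
      intro i
      simp only [hx', hx i]
      abel
    have hSx' : Sd2 G V τ N x' = Sd2 G V τ N x := by
      unfold Sd2
      refine Finset.sum_congr rfl fun i _ => ?_
      simp only [hx']
      rw [X2a_lag_per hV, add_sub_add_right_eq_sub]
    set y' : Fin N → EuclideanSpace ℝ (Fin n) := fun i => x' ((i : ℕ) : ℤ) with hy'
    have hxe : x' = e y' := by
      funext i
      refine X2a_eq_ext hN hx'per (fun j hj => ?_) i
      simp [X2a_seq, hj, hy']
    have hcube : ∀ j, y' ⟨0, hN⟩ j ∈ Set.Icc (0 : ℝ) 1 := by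
      intro j
      have h1 : y' ⟨0, hN⟩ j = x 0 j - ⌊x 0 j⌋ := by
        simp only [hy', hx', hl, zv, Nat.cast_zero, PiLp.add_apply, Int.cast_neg]
        ring
      rw [h1]
      constructor
      · linarith [Int.floor_le (x 0 j)]
      · linarith [Int.lt_floor_add_one (x 0 j)]
    rw [← hSx', hxe]
    change f y ≤ f y'
    by_cases hle : f y' ≤ M
    · exact hymin ⟨hcube, hle⟩
    · have h1 : f y ≤ M := hyK.2
      linarith
  · intro j
    rw [he0]
    exact hyK.1 j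

end Pool.Agent.H33.AN
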