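import Pool.Agent.H33.AN.Orb
import Pool.Agent.H33.AN.P.X1
import Pool.Agent.H33.AN.P.X2a

/-!
# Module X2: discrete minimisers

(Compare `Pool/Agent/H33/AM/P/X2a.lean`, `X2b.lean`, `X2c.lean`: the same for `K v + A(x) · v - V(x)`.)
`τ = T / N`, `v_i = (1/τ) (x_{i+1} - x_i)`, `t_i = i τ`, `S = Sd2 G V τ N`; `T` is a positive integer (the number of
periods).
* `disc_exists2`: a quasi-periodic sequence is determined by `(x_0, …, x_{N-1}) ∈ (ℝⁿ)^N`; `S` is
  continuous in these variables, invariant under the translations by `zv k'`, so one may restrict to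
  `x_0 ∈ [0, 1]ⁿ`, and coercive there: `⟪G v, v⟫ ≥ κ₁ ‖v‖²`, `|V| ≤ B`.
* `disc_EL2`: for `0 ≤ i < N`; derivative of `S` in the direction of the variable `x_i` (moved together with all
  the `x_{i + j N}`): the terms `i` and `i - 1` (for `i = 0`: the terms `0` and `N - 1`, where `v_{N-1} = v_{-1}`)
  give `-G v_i - τ F(x_i, t_i) + G v_{i-1} = 0`. (The case `N = 1`: then `x_{i+1}`, `x_i` move together,
  `v_i = v_{i-1}`; the formula is still true.)
* `disc_EL2'`: for all `i`, since `x_{i+N} = x_i + zv k`, `v_{i+N} = v_i` and `F(x + zv k, t + T) = F(x, t)`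
  (`HV2.perF`, `HV2.pertF`, `T` integer).
* `disc_bound2`: `S(x) ≤ S(straight line) ≤ T (κ₂/2 ‖zv k/T‖² + B)`, so `∑ τ ‖v_i‖² ≤ C`; by `disc_EL2`,
  `‖G v_i - G v_j‖ ≤ ∑ τ B ≤ T B` for all `i`, `j`; `κ₁ ‖v_i - v_j‖ ≤ ‖G v_i - G v_j‖`, and some
  `‖v_j‖² ≤ C/T` (average), so `‖v_i‖ ≤ R`, with `R` independent of `N` and of `x`.
-/

set_option autoImplicit false

open MeasureTheory
open scoped RealInnerProductSpace

namespace Pool.Agent.H33.AN

open Pool.Agent.H33.AM

variable {n : ℕ} {G G' : EuclideanSpace ℝ (Fin n) →L[ℝ] EuclideanSpace ℝ (Fin n)} {κ₁ κ₂ : ℝ}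
  {V : EuclideanSpace ℝ (Fin n) → ℝ → ℝ}
  {F : EuclideanSpace ℝ (Fin n) → ℝ → EuclideanSpace ℝ (Fin n)}
  {Vt : EuclideanSpace ℝ (Fin n) → ℝ → ℝ} {B : ℝ} {T N : ℕ} {k : Fin n → ℤ}

/-- The derivative of one term of the discrete action. -/
private theorem X2b_term (hG : HG G κ₁ κ₂) (hV : HV2 1 V F Vt B)
    (a b c d : EuclideanSpace ℝ (Fin n)) (t : ℝ) :
    HasDerivAt (fun s : ℝ => lag2 G V (a + s • b) (c + s • d) t) (⟪G c, d⟫ - ⟪F a t, b⟫) 0 := by
  have h1 : HasDerivAt (fun s : ℝ => (a + s • b, t)) (b, (0 : ℝ)) 0 := by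
    have h3 : HasDerivAt (fun s : ℝ => a + s • b) b 0 := by
      have := ((hasDerivAt_id (0 : ℝ)).smul_const b).const_add a
      simpa using this
    exact h3.prodMk (hasDerivAt_const (0 : ℝ) t)
  have h2 : HasDerivAt (fun s : ℝ => c + s • d) d 0 := by
    have := ((hasDerivAt_id (0 : ℝ)).smul_const d).const_add c
    simpa using this
  have hG1 : HasDerivAt (fun s : ℝ => G (c + s • d)) (G d) 0 :=
    G.hasFDerivAt.comp_hasDerivAt (0 : ℝ) h2
  have hV1 : HasDerivAt (fun s : ℝ => V (a + s • b) t) ⟪F a t, b⟫ 0 := by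
    have h4 : HasFDerivAt (fun z : EuclideanSpace ℝ (Fin n) × ℝ => V z.1 z.2)
        ((innerSL ℝ (F a t)).comp (ContinuousLinearMap.fst ℝ (EuclideanSpace ℝ (Fin n)) ℝ) +
          Vt a t • ContinuousLinearMap.snd ℝ (EuclideanSpace ℝ (Fin n)) ℝ)
        ((fun s : ℝ => (a + s • b, t)) 0) := by
      simpa using hV.der a t
    have h5 := h4.comp_hasDerivAt (0 : ℝ) h1
    simpa [Function.comp_def] using h5
  have h5 := ((hG1.inner ℝ h2).div_const 2).fun_sub hV1
  simp only [zero_smul, add_zero] at h5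
  unfold lag2
  have e1 : ⟪G d, c⟫ = ⟪G c, d⟫ := by
    rw [hG.symm d c, real_inner_comm]
  rw [e1, add_self_div_two] at h5
  exact h5

theorem disc_EL2 (hG : HG G κ₁ κ₂) (hV : HV2 1 V F Vt B) (hT : 0 < T) (hN : 0 < N)
    {x : ℤ → EuclideanSpace ℝ (Fin n)} (hx : IsDM2 G V T N k x) {i : ℤ} (h0 : 0 ≤ i)
    (h1 : i < N) :
    G (((1 : ℝ) / (T / N)) • (x (i + 1) - x i)) - G (((1 : ℝ) / (T / N)) • (x i - x (i - 1))) =
      -(((T : ℝ) / N) • F (x i) (i * (T / N))) := by
  obtain ⟨hx1, hx2⟩ := hx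
  obtain ⟨m, rfl⟩ := Int.eq_ofNat_of_zero_le h0
  have hmN : m < N := by exact_mod_cast h1
  set τ : ℝ := (T : ℝ) / N with hτdef
  have hτ : 0 < τ := div_pos (by exact_mod_cast hT) (by exact_mod_cast hN)
  refine ext_inner_right ℝ fun w => ?_
  set χ : ℤ → EuclideanSpace ℝ (Fin n) := fun j => if (N : ℤ) ∣ j - m then w else 0 with hχ
  have hχN : ∀ j, χ (j + N) = χ j := by
    intro j
    simp only [hχ]
    congr 1
    rw [show j + (N : ℤ) - m = (j - m) + N by ring]
    simp
  set v : ℤ → EuclideanSpace ℝ (Fin n) := fun j => (1 / τ) • (x (j + 1) - x j) with hv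
  -- the action along the perturbation
  have hder : HasDerivAt (fun s : ℝ => Sd2 G V τ N (fun j => x j + s • χ j))
      (∑ j ∈ Finset.range N, τ * (⟪G (v j), (1 / τ) • (χ (j + 1) - χ j)⟫ -
          ⟪F (x j) (j * τ), χ j⟫)) 0 := by
    unfold Sd2
    refine HasDerivAt.fun_sum fun j _ => ?_
    have h1 := (X2b_term hG hV (x j) (χ j) (v j) ((1 / τ) • (χ (j + 1) - χ j))
      (j * τ)).const_mul τ
    refine h1.congr_of_eventuallyEq (Filter.Eventually.of_forall fun s => ?_)
    beta_reduce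
    congr 2
    simp only [hv]
    module
  have hmin : IsLocalMin (fun s : ℝ => Sd2 G V τ N (fun j => x j + s • χ j)) 0 := by
    refine Filter.Eventually.of_forall fun s => ?_
    beta_reduce
    have h0 : (fun j => x j + (0 : ℝ) • χ j) = x := by
      funext j
      simp
    rw [h0]
    refine hx2 _ fun i => ?_
    rw [hx1, hχN]
    abel
  have hz := hmin.hasDerivAt_eq_zero hder
  have hterm : ∀ j : ℕ, τ * (⟪G (v j), (1 / τ) • (χ (j + 1) - χ j)⟫ -
          ⟪F (x j) (j * τ), χ j⟫) =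
      ⟪G (v j), χ (j + 1)⟫ - ⟪G (v j) + τ • F (x j) (j * τ), χ j⟫ := by
    intro j
    simp only [inner_add_left, inner_sub_right, real_inner_smul_left, real_inner_smul_right]
    field_simp
    ring
  have hz2 : ∑ j ∈ Finset.range N, ⟪G (v (j : ℤ)), χ ((j : ℤ) + 1)⟫ =
      ∑ j ∈ Finset.range N, ⟪G (v (j : ℤ)) + τ • F (x (j : ℤ)) ((j : ℝ) * τ), χ (j : ℤ)⟫ := by
    rw [← sub_eq_zero, ← Finset.sum_sub_distrib, ← hz]
    exact Finset.sum_congr rfl fun j _ => (hterm j).symm
  have hs2 : ∑ j ∈ Finset.range N, ⟪G (v (j : ℤ)) + τ • F (x (j : ℤ)) ((j : ℝ) * τ), χ (j : ℤ)⟫ =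
      ⟪G (v (m : ℤ)) + τ • F (x (m : ℤ)) ((m : ℝ) * τ), w⟫ := by
    rw [Finset.sum_eq_single m]
    · have : χ (m : ℤ) = w := by simp [hχ]
      rw [this]
    · intro j hj hj1
      rw [Finset.mem_range] at hj
      have : χ (j : ℤ) = 0 := by
        simp only [hχ]
        rw [if_neg]
        intro hd
        have h3 := Int.eq_zero_of_abs_lt_dvd hd (by rw [abs_lt]; constructor <;> omega)
        omega
      rw [this, inner_zero_right]
    · intro h
      rw [Finset.mem_range] at h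
      omega
  have hs1 : ∑ j ∈ Finset.range N, ⟪G (v (j : ℤ)), χ ((j : ℤ) + 1)⟫ =
      ⟪G (v ((m : ℤ) - 1)), w⟫ := by
    rcases Nat.eq_zero_or_pos m with hm | hm
    · rw [Finset.sum_eq_single (N - 1)]
      · have h3 : χ ((((N - 1 : ℕ) : ℤ)) + 1) = w := by
          simp only [hχ]
          rw [if_pos]
          rw [show (((N - 1 : ℕ) : ℤ)) + 1 - m = N by omega]
        have h4 : v (((N - 1 : ℕ) : ℤ)) = v ((m : ℤ) - 1) := by
          have e1 : (((N - 1 : ℕ) : ℤ)) = ((m : ℤ) - 1) + N := by omega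
          have e2 : (((m : ℤ) - 1) + (N : ℤ)) + 1 = (((m : ℤ) - 1) + 1) + N := by ring
          simp only [hv]
          rw [e1, e2, hx1, hx1, add_sub_add_right_eq_sub]
        rw [h3, h4]
      · intro j hj hj1
        rw [Finset.mem_range] at hj
        have : χ ((j : ℤ) + 1) = 0 := by
          simp only [hχ]
          rw [if_neg]
          intro hd
          have := Int.le_of_dvd (by omega) hd
          omega
        rw [this, inner_zero_right]
      · intro h
        rw [Finset.mem_range] at h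
        omega
    · rw [Finset.sum_eq_single (m - 1)]
      · have h3 : χ ((((m - 1 : ℕ) : ℤ)) + 1) = w := by
          simp only [hχ]
          rw [if_pos]
          rw [show (((m - 1 : ℕ) : ℤ)) + 1 - m = 0 by omega]
          exact dvd_zero _
        have h4 : (((m - 1 : ℕ) : ℤ)) = (m : ℤ) - 1 := by omega
        rw [h3, h4]
      · intro j hj hj1
        rw [Finset.mem_range] at hj
        have : χ ((j : ℤ) + 1) = 0 := by
          simp only [hχ]
          rw [if_neg]
          intro hd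
          have h3 := Int.eq_zero_of_abs_lt_dvd hd (by rw [abs_lt]; constructor <;> omega)
          omega
        rw [this, inner_zero_right]
      · intro h
        rw [Finset.mem_range] at h
        omega
  rw [hs1, hs2] at hz2
  have e4 : v ((m : ℤ) - 1) = (1 / τ) • (x (m : ℤ) - x ((m : ℤ) - 1)) := by
    simp only [hv, sub_add_cancel]
  have e5 : v (m : ℤ) = (1 / τ) • (x ((m : ℤ) + 1) - x (m : ℤ)) := rfl
  rw [← e4, ← e5, inner_sub_left, hz2, inner_add_left, inner_neg_left]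
  simp only [Int.cast_natCast]
  ring

end Pool.Agent.H33.AN
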