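import Pool.Agent.H33.AN.Orb
import Pool.Agent.H33.AN.P.X1
import Pool.Agent.H33.AN.P.X2a
import Pool.Agent.H33.AN.P.X2b

/-!
# Module X2: discrete minimisers

(Compare `Pool/Agent/H33/AM/P/X2a.lean`, `X2b.lean`, `X2c.lean`: the same for `K v + A(x) · v - V(x)`.)
`τ = T / N`, `v_i = (1/τ) (x_{i+1} - x_i)`, `t_i = i τ`, `S = Sd2 G V τ N`; `T` is a positive integer (the number of
periods).
* `disc_exists2`: a quasi-periodic sequence is determined by `(x_0, …, x_{N-1}) ∈ (ℝⁿ)^N`; `S` is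
  continuous in these variables, invariant under the translations by `zv k'`, so one may restrict to
  `x_0 ∈ [0, 1]ⁿ`, and coercive there: `⟪G v, v⟫ ≥ κ₁ ‖v‖²`, `|V| ≤ B`.
* `disc_EL2`: for `0 ≤ i < N`; derivative of `S` in the direction of the variable `x_i` (moved together with all
  the `x_{i + j N}`): the terms `i` and `i - 1` (for `i = 0`: the terms `0` and `N - 1`, where `v_{N-1} = v_{-1}`)
  give `-G v_i - τ F(x_i, t_i) + G v_{i-1} = 0`. (The case `N = 1`: then `x_{i+1}`, `x_i` move together,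
  `v_i = v_{i-1}`; the formula is still true.)
* `disc_EL2'`: for all `i`, since `x_{i+N} = x_i + zv k`, `v_{i+N} = v_i` and `F(x + zv k, t + T) = F(x, t)`
  (`HV2.perF`, `HV2.pertF`, `T` integer).
* `disc_bound2`: `S(x) ≤ S(straight line) ≤ T (κ₂/2 ‖zv k/T‖² + B)`, so `∑ τ ‖v_i‖² ≤ C`; by `disc_EL2`,
  `‖G v_i - G v_j‖ ≤ ∑ τ B ≤ T B` for all `i`, `j`; `κ₁ ‖v_i - v_j‖ ≤ ‖G v_i - G v_j‖`, and some
  `‖v_j‖² ≤ C/T` (average), so `‖v_i‖ ≤ R`, with `R` independent of `N` and of `x`.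
-/

set_option autoImplicit false

open MeasureTheory
open scoped RealInnerProductSpace

namespace Pool.Agent.H33.AN

open Pool.Agent.H33.AM

variable {n : ℕ} {G G' : EuclideanSpace ℝ (Fin n) →L[ℝ] EuclideanSpace ℝ (Fin n)} {κ₁ κ₂ : ℝ}
  {V : EuclideanSpace ℝ (Fin n) → ℝ → ℝ}
  {F : EuclideanSpace ℝ (Fin n) → ℝ → EuclideanSpace ℝ (Fin n)}
  {Vt : EuclideanSpace ℝ (Fin n) → ℝ → ℝ} {B : ℝ} {T N : ℕ} {k : Fin n → ℤ}

private theorem pertF_nat (hV : HV2 1 V F Vt B) (x : EuclideanSpace ℝ (Fin n)) (t : ℝ) (m : ℕ) :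
    F x (t + m) = F x t := by
  induction m with
  | zero => simp
  | succ m ih =>
    rw [Nat.cast_succ, ← add_assoc, hV.pertF, ih]

private theorem EL_shift (hV : HV2 1 V F Vt B) (hN : 0 < N)
    {x : ℤ → EuclideanSpace ℝ (Fin n)} (hx : IsDM2 G V T N k x) (i : ℤ) :
    (G (((1 : ℝ) / (T / N)) • (x (i + N + 1) - x (i + N))) -
      G (((1 : ℝ) / (T / N)) • (x (i + N) - x (i + N - 1))) =
      -(((T : ℝ) / N) • F (x (i + N)) ((i + N : ℤ) * (T / N)))) ↔
    (G (((1 : ℝ) / (T / N)) • (x (i + 1) - x i)) - G (((1 : ℝ) / (T / N)) • (x i - x (i - 1))) =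
      -(((T : ℝ) / N) • F (x i) (i * (T / N)))) := by
  have hN' : (N : ℝ) ≠ 0 := by exact_mod_cast hN.ne'
  have e1 : x (i + N + 1) = x (i + 1) + zv k := by
    rw [show i + N + 1 = (i + 1) + N by ring]
    exact hx.1 _
  have e2 : x (i + N) = x i + zv k := hx.1 _
  have e3 : x (i + N - 1) = x (i - 1) + zv k := by
    rw [show i + (N : ℤ) - 1 = (i - 1) + N by ring]
    exact hx.1 _
  have e4 : (((i + N : ℤ) : ℝ)) * ((T : ℝ) / N) = (i : ℝ) * (T / N) + T := by
    push_cast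
    field_simp
  rw [e1, e2, e3, e4, hV.perF, pertF_nat hV, add_sub_add_right_eq_sub, add_sub_add_right_eq_sub]

theorem disc_EL2' (hG : HG G κ₁ κ₂) (hV : HV2 1 V F Vt B) (hT : 0 < T) (hN : 0 < N)
    {x : ℤ → EuclideanSpace ℝ (Fin n)} (hx : IsDM2 G V T N k x) (i : ℤ) :
    G (((1 : ℝ) / (T / N)) • (x (i + 1) - x i)) - G (((1 : ℝ) / (T / N)) • (x i - x (i - 1))) =
      -(((T : ℝ) / N) • F (x i) (i * (T / N))) := by
  have hN' : (0 : ℤ) < N := by exact_mod_cast hN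
  obtain ⟨P, hP⟩ : ∃ P : ℤ → Prop, P = fun i => G (((1 : ℝ) / (T / N)) • (x (i + 1) - x i)) -
      G (((1 : ℝ) / (T / N)) • (x i - x (i - 1))) =
      -(((T : ℝ) / N) • F (x i) (i * (T / N))) := ⟨_, rfl⟩
  have h1 : ∀ i, P (i + N) ↔ P i := by
    intro i
    rw [hP]
    exact EL_shift hV hN hx i
  have h2 : ∀ m : ℤ, P (i % N + m * N) := by
    intro m
    induction m using Int.induction_on with
    | zero =>
      rw [zero_mul, add_zero, hP]
      exact disc_EL2 hG hV hT hN hx (Int.emod_nonneg _ hN'.ne') (Int.emod_lt_of_pos _ hN')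
    | succ m ih =>
      have h3 := (h1 _).2 ih
      rw [show i % N + ((m : ℤ) + 1) * N = i % N + (m : ℤ) * N + N by ring]
      exact h3
    | pred m ih =>
      have h3 : i % N + (-(m : ℤ)) * N = i % N + (-(m : ℤ) - 1) * N + N := by ring
      rw [h3] at ih
      exact (h1 _).1 ih
  have h3 := h2 (i / N)
  have h4 : i % N + i / N * N = i := by
    rw [mul_comm]
    exact Int.emod_add_mul_ediv i N
  rw [h4, hP] at h3
  exact h3

end Pool.Agent.H33.AN
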