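import Pool.Agent.H33.AN.Orb
import Pool.Agent.H33.AN.P.X1
import Pool.Agent.H33.AN.P.X2a
import Pool.Agent.H33.AN.P.X2b
import Pool.Agent.H33.AN.P.X2c

/-!
# Module X2: discrete minimisers

(Compare `Pool/Agent/H33/AM/P/X2a.lean`, `X2b.lean`, `X2c.lean`: the same for `K v + A(x) · v - V(x)`.)
`τ = T / N`, `v_i = (1/τ) (x_{i+1} - x_i)`, `t_i = i τ`, `S = Sd2 G V τ N`; `T` is a positive integer (the number of
periods).
* `disc_exists2`: a quasi-periodic sequence is determined by `(x_0, …, x_{N-1}) ∈ (ℝⁿ)^N`; `S` is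
  continuous in these variables, invariant under the translations by `zv k'`, so one may restrict to
  `x_0 ∈ [0, 1]ⁿ`, and coercive there: `⟪G v, v⟫ ≥ κ₁ ‖v‖²`, `|V| ≤ B`.
* `disc_EL2`: for `0 ≤ i < N`; derivative of `S` in the direction of the variable `x_i` (moved together with all
  the `x_{i + j N}`): the terms `i` and `i - 1` (for `i = 0`: the terms `0` and `N - 1`, where `v_{N-1} = v_{-1}`)
  give `-G v_i - τ F(x_i, t_i) + G v_{i-1} = 0`. (The case `N = 1`: then `x_{i+1}`, `x_i` move together,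
  `v_i = v_{i-1}`; the formula is still true.)
* `disc_EL2'`: for all `i`, since `x_{i+N} = x_i + zv k`, `v_{i+N} = v_i` and `F(x + zv k, t + T) = F(x, t)`
  (`HV2.perF`, `HV2.pertF`, `T` integer).
* `disc_bound2`: `S(x) ≤ S(straight line) ≤ T (κ₂/2 ‖zv k/T‖² + B)`, so `∑ τ ‖v_i‖² ≤ C`; by `disc_EL2`,
  `‖G v_i - G v_j‖ ≤ ∑ τ B ≤ T B` for all `i`, `j`; `κ₁ ‖v_i - v_j‖ ≤ ‖G v_i - G v_j‖`, and some
  `‖v_j‖² ≤ C/T` (average), so `‖v_i‖ ≤ R`, with `R` independent of `N` and of `x`.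
-/

set_option autoImplicit false

open MeasureTheory
open scoped RealInnerProductSpace

namespace Pool.Agent.H33.AN

open Pool.Agent.H33.AM

variable {n : ℕ} {G G' : EuclideanSpace ℝ (Fin n) →L[ℝ] EuclideanSpace ℝ (Fin n)} {κ₁ κ₂ : ℝ}
  {V : EuclideanSpace ℝ (Fin n) → ℝ → ℝ}
  {F : EuclideanSpace ℝ (Fin n) → ℝ → EuclideanSpace ℝ (Fin n)}
  {Vt : EuclideanSpace ℝ (Fin n) → ℝ → ℝ} {B : ℝ} {T N : ℕ} {k : Fin n → ℤ}

theorem disc_bound2 (hG : HG G κ₁ κ₂) (hV : HV2 1 V F Vt B) (hT : 0 < T) (k : Fin n → ℤ) :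
    ∃ R : ℝ, ∀ (N : ℕ) (x : ℤ → EuclideanSpace ℝ (Fin n)), 0 < N → IsDM2 G V T N k x →
      ∀ i, ‖((1 : ℝ) / (T / N)) • (x (i + 1) - x i)‖ ≤ R := by
  have hκ := hG.pos
  have hκ2 := hG.pos₂
  have hB := hV.nonneg
  have hTr : (0 : ℝ) < T := by exact_mod_cast hT
  set c : EuclideanSpace ℝ (Fin n) := ((1 : ℝ) / T) • zv k with hc
  set Q : ℝ := 2 / κ₁ * (T * (κ₂ * ‖c‖ ^ 2 / 2 + B) + T * B) with hQ
  have hQ0 : 0 ≤ Q := by positivity
  refine ⟨1 + Q / T + 2 * (T * B) / κ₁, ?_⟩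
  intro N x hN hx
  have hN' : (0 : ℝ) < N := by exact_mod_cast hN
  set τ : ℝ := (T : ℝ) / N with hτd
  have hτ : 0 < τ := by positivity
  have hNτ : N * τ = T := by rw [hτd]; field_simp
  set v : ℤ → EuclideanSpace ℝ (Fin n) := fun i => (1 / τ) • (x (i + 1) - x i) with hv
  change ∀ i, ‖v i‖ ≤ _
  have hvp : ∀ i, v (i + N) = v i := by
    intro i
    simp only [hv]
    rw [hx.1 i, show i + (N : ℤ) + 1 = (i + 1) + N by ring, hx.1 (i + 1), add_sub_add_right_eq_sub]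
  have hTc : (T : ℝ) • c = zv k := by
    rw [hc, smul_smul, mul_one_div_cancel hTr.ne', one_smul]
  -- comparison with the straight line
  set y : ℤ → EuclideanSpace ℝ (Fin n) := fun i => ((i : ℝ) * τ) • c with hy
  have hyv : ∀ i : ℤ, (1 / τ) • (y (i + 1) - y i) = c := by
    intro i
    simp only [hy]
    rw [← sub_smul, smul_smul]
    push_cast
    rw [show 1 / τ * ((i + 1) * τ - i * τ) = 1 by field_simp; ring, one_smul]
  have hyp : ∀ i, y (i + N) = y i + zv k := by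
    intro i
    simp only [hy]
    push_cast
    rw [add_mul, hNτ, add_smul, hTc]
  have hcmp := hx.2 y hyp
  have hup : Sd2 G V τ N y ≤ T * (κ₂ * ‖c‖ ^ 2 / 2 + B) := by
    unfold Sd2
    have h1 : ∀ i ∈ Finset.range N, τ * lag2 G V (y i) ((1 / τ) • (y (i + 1) - y i)) (i * τ) ≤
        τ * (κ₂ * ‖c‖ ^ 2 / 2 + B) := by
      intro i _
      rw [hyv]
      apply mul_le_mul_of_nonneg_left _ hτ.le
      unfold lag2
      have h2 := hG.hi c
      have h4 := (abs_le.mp (hV.bd (y i) (i * τ))).1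
      linarith
    refine (Finset.sum_le_sum h1).trans (le_of_eq ?_)
    rw [Finset.sum_const, Finset.card_range, nsmul_eq_mul, ← mul_assoc, hNτ]
  have hlo : ∑ i ∈ Finset.range N, τ * (κ₁ / 2 * ‖v i‖ ^ 2 - B) ≤ Sd2 G V τ N x := by
    unfold Sd2
    apply Finset.sum_le_sum
    intro i _
    apply mul_le_mul_of_nonneg_left _ hτ.le
    change _ ≤ lag2 G V (x i) (v i) (i * τ)
    unfold lag2
    have h2 := hG.lo (v i)
    have h4 := (abs_le.mp (hV.bd (x i) (i * τ))).2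
    linarith
  have hq : ∑ i ∈ Finset.range N, τ * ‖v i‖ ^ 2 ≤ Q := by
    have h1 : ∑ i ∈ Finset.range N, τ * (κ₁ / 2 * ‖v i‖ ^ 2 - B) =
        κ₁ / 2 * (∑ i ∈ Finset.range N, τ * ‖v i‖ ^ 2) - T * B := by
      have h2 : T * B = ∑ i ∈ Finset.range N, τ * B := by
        rw [Finset.sum_const, Finset.card_range, nsmul_eq_mul, ← mul_assoc, hNτ]
      rw [h2, Finset.mul_sum, ← Finset.sum_sub_distrib]
      apply Finset.sum_congr rfl
      intro i _
      ring
    rw [h1] at hlo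
    have h3 : κ₁ / 2 * (∑ i ∈ Finset.range N, τ * ‖v i‖ ^ 2) ≤
        T * (κ₂ * ‖c‖ ^ 2 / 2 + B) + T * B := by
      linarith
    calc ∑ i ∈ Finset.range N, τ * ‖v i‖ ^ 2
        = 2 / κ₁ * (κ₁ / 2 * (∑ i ∈ Finset.range N, τ * ‖v i‖ ^ 2)) := by
          field_simp
      _ ≤ 2 / κ₁ * (T * (κ₂ * ‖c‖ ^ 2 / 2 + B) + T * B) :=
          mul_le_mul_of_nonneg_left h3 (by positivity)
      _ = Q := by rw [hQ]
  -- a small velocity
  obtain ⟨j, hj, hjv⟩ : ∃ j ∈ Finset.range N, ‖v j‖ ^ 2 ≤ Q / T := by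
    by_contra hcon
    push Not at hcon
    have h1 : ∑ i ∈ Finset.range N, τ * (Q / T) < ∑ i ∈ Finset.range N, τ * ‖v i‖ ^ 2 := by
      apply Finset.sum_lt_sum_of_nonempty (Finset.nonempty_range_iff.mpr hN.ne')
      intro i hi
      exact mul_lt_mul_of_pos_left (hcon i hi) hτ
    rw [Finset.sum_const, Finset.card_range, nsmul_eq_mul, ← mul_assoc, hNτ,
      mul_div_cancel₀ _ hTr.ne'] at h1
    linarith
  rw [Finset.mem_range] at hj
  have hjv' : ‖v j‖ ≤ 1 + Q / T := by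
    nlinarith [norm_nonneg (v j), sq_nonneg (‖v j‖ - 1)]
  -- momenta
  set p : ℤ → EuclideanSpace ℝ (Fin n) := fun i => G (v i) with hp
  have hpstep : ∀ i : ℤ, ‖p i - p (i - 1)‖ ≤ τ * B := by
    intro i
    have h1 := disc_EL2' hG hV hT hN hx i
    have h2 : p i - p (i - 1) = -(τ • F (x i) (i * τ)) := by
      rw [← h1]
      simp only [hp, hv]
      rw [sub_add_cancel]
    rw [h2, norm_neg, norm_smul, Real.norm_eq_abs, abs_of_pos hτ]
    exact mul_le_mul_of_nonneg_left (hV.bdF _ _) hτ.le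
  have hp0 : ∀ m : ℕ, ‖p m - p 0‖ ≤ m * (τ * B) := by
    intro m
    induction m with
    | zero =>
      simp only [Nat.cast_zero, sub_self, norm_zero, zero_mul, le_refl]
    | succ m ih =>
      have h1 := hpstep ((m + 1 : ℕ) : ℤ)
      have h2 : (((m + 1 : ℕ) : ℤ) - 1) = (m : ℤ) := by push_cast; ring
      rw [h2] at h1
      calc ‖p ((m + 1 : ℕ) : ℤ) - p 0‖ = ‖(p m - p 0) + (p ((m + 1 : ℕ) : ℤ) - p m)‖ := by
            congr 1
            abel
        _ ≤ ‖p m - p 0‖ + ‖p ((m + 1 : ℕ) : ℤ) - p m‖ := norm_add_le _ _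
        _ ≤ m * (τ * B) + τ * B := add_le_add ih h1
        _ = ((m + 1 : ℕ) : ℝ) * (τ * B) := by push_cast; ring
  have hpN : ∀ m : ℕ, m < N → ‖p m - p 0‖ ≤ T * B := by
    intro m hm
    refine (hp0 m).trans ?_
    have hmN : (m : ℝ) ≤ N := by exact_mod_cast hm.le
    calc (m : ℝ) * (τ * B) ≤ N * (τ * B) := mul_le_mul_of_nonneg_right hmN (by positivity)
      _ = T * B := by rw [← mul_assoc, hNτ]
  have hanti : ∀ u : EuclideanSpace ℝ (Fin n), κ₁ * ‖u‖ ≤ ‖G u‖ := by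
    intro u
    rcases eq_or_lt_of_le (norm_nonneg u) with h | h
    · rw [← h, mul_zero]; exact norm_nonneg _
    · have h1 := hG.lo u
      have h2 := real_inner_le_norm (G u) u
      have h3 : κ₁ * ‖u‖ * ‖u‖ ≤ ‖G u‖ * ‖u‖ := by nlinarith
      exact le_of_mul_le_mul_right h3 h
  have hmain : ∀ m : ℕ, m < N → ‖v m‖ ≤ 1 + Q / T + 2 * (T * B) / κ₁ := by
    intro m hm
    have h1 := hanti (v m - v j)
    rw [map_sub] at h1
    have h2 : G (v m) - G (v j) = (p m - p 0) - (p j - p 0) := by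
      simp only [hp]
      abel
    have h3 : ‖G (v m) - G (v j)‖ ≤ 2 * (T * B) := by
      rw [h2]
      refine (norm_sub_le _ _).trans ?_
      have a1 := add_le_add (hpN m hm) (hpN j hj)
      linarith
    have h4 : ‖v m - v j‖ ≤ 2 * (T * B) / κ₁ := by
      rw [le_div_iff₀ hκ]
      linarith
    have h5 : ‖v m‖ ≤ ‖v j‖ + ‖v m - v j‖ := by
      have := norm_add_le (v j) (v m - v j)
      rwa [add_sub_cancel] at this
    linarith
  intro i
  have hvpz : ∀ (q : ℕ) (i : ℤ), v (i + q * N) = v i := by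
    intro q
    induction q with
    | zero => intro i; simp
    | succ q ih =>
      intro i
      rw [show i + ((q + 1 : ℕ) : ℤ) * N = (i + q * N) + N by push_cast; ring, hvp, ih]
  have hvpz' : ∀ (q : ℤ) (i : ℤ), v (i + q * N) = v i := by
    intro q i
    rcases Int.eq_nat_or_neg q with ⟨m, rfl | rfl⟩
    · exact hvpz m i
    · have := hvpz m (i + -(m : ℤ) * N)
      rw [show i + -(m : ℤ) * N + m * N = i by ring] at this
      exact this.symm
  have hNz : (0 : ℤ) < N := by exact_mod_cast hN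
  obtain ⟨m, hm⟩ := Int.eq_ofNat_of_zero_le (Int.emod_nonneg i hNz.ne')
  have hm' : m < N := by
    have := Int.emod_lt_of_pos i hNz
    omega
  have h1 : i = m + (i / N) * N := by
    rw [← hm, mul_comm (i / (N : ℤ)) (N : ℤ)]
    exact (Int.emod_add_mul_ediv i N).symm
  rw [h1, hvpz']
  exact hmain m hm'

end Pool.Agent.H33.AN
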