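import Pool.Agent.H33.AN.Orb
import Pool.Agent.H33.AN.P.X1
import Pool.Agent.H33.AN.P.X2

/-!
# Module X3: from discrete to continuous; periodic orbits

(Compare `Pool/Agent/H33/AM/P/X3b.lean`, `X3c.lean`, `X4.lean`.)
`Y = field2 G' F`, `W = ℝⁿ × ℝⁿ × ℝ`, `τ = T / N`, `v_i = (1/τ) (x_{i+1} - x_i)`, `t_i = i τ`, `z_i = (x_i, v_i, t_i)`,
so that `x_{i+1} = x_i + τ (Y z_i).1`.
* `disc_euler2`: `‖x_i‖ ≤ √n + T R` for `0 ≤ i ≤ N`; `v_{i+1} - v_i = -τ G' (F(x_{i+1}, t_{i+1}))` by `disc_EL2'`, and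
  `‖F(x_{i+1}, t_{i+1}) - F(x_i, t_i)‖ ≤ B (R + 1) τ`.
* `disc_of_curve2`: `y i = x(i τ)` for `0 ≤ i < N`, extended quasi-periodically. Jensen:
  `τ ⟪G c, c⟫ ≤ ∫ ⟪G u, u⟫` on every `[i τ, (i + 1) τ]`, `c` the average of `u`;
  `‖x(t) - x(i τ)‖ ≤ R τ`, so the terms with `V` change by `O(τ)`.
* `per_orbit2_zero`: `G'` from `HG.inv`, `φ` from `exists_flow2`. For `N ≥ 1` let `x^N` be a discrete minimiser
  (`disc_exists2`), `z^N_i` as in `disc_euler2`. By `euler` (with `τ = T/N`, `c = C τ²`)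
  `‖φ (i τ) (z^N_0) - z^N_i‖ ≤ C' τ` for `i ≤ N`. Since `z^N_N = z^N_0 + (zv k, 0, T)` and `z^N_0` is bounded, a
  subsequence `z^N_0 → z*` satisfies `φ T z* = z* + (zv k, 0, T)`, `(z*).2.2 = 0`. The solution
  `γ(t) = (φ t z*).1`, `v(t) = (φ t z*).2.1` (`Sol2_of_flow`) is `T`-periodic modulo `zv k` (uniqueness, `Y` is
  periodic). Action: `|∫_0^T g(φ t z) dt - ∑ τ g(φ (i τ) z)| → 0` and `|g(φ (i τ) z^N_0) - g(z^N_i)| ≤ C'' τ` for
  `g(x, v, t) = lag2 G V x v t` (Lipschitz on bounded sets), so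
  `∫_0^T g(φ t z*) dt = lim Sd2(x^N) ≤ ∫ lag2(x, u) + ε` by `disc_of_curve2`, for every `ε > 0`.
* `per_orbit2`: translate the time by `s` (`HV2.shift`), use `per_orbit2_zero`, translate back.
-/

set_option autoImplicit false

open MeasureTheory
open scoped RealInnerProductSpace

namespace Pool.Agent.H33.AN

open Pool.Agent.H33.AM

variable {n : ℕ} {G G' : EuclideanSpace ℝ (Fin n) →L[ℝ] EuclideanSpace ℝ (Fin n)} {κ₁ κ₂ : ℝ}
  {V : EuclideanSpace ℝ (Fin n) → ℝ → ℝ}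
  {F : EuclideanSpace ℝ (Fin n) → ℝ → EuclideanSpace ℝ (Fin n)}
  {Vt : EuclideanSpace ℝ (Fin n) → ℝ → ℝ} {B : ℝ} {T : ℕ}

private theorem X3a_sqrt2 (x : EuclideanSpace ℝ (Fin n)) (hx : ∀ j, x j ∈ Set.Icc (0 : ℝ) 1) :
    ‖x‖ ≤ Real.sqrt n := by
  rw [EuclideanSpace.norm_eq]
  apply Real.sqrt_le_sqrt
  have h1 : ∑ i, ‖x i‖ ^ 2 ≤ ∑ _i : Fin n, (1 : ℝ) := by
    refine Finset.sum_le_sum (fun i _ => ?_)
    obtain ⟨h2, h3⟩ := hx i
    rw [Real.norm_eq_abs, sq_abs]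
    nlinarith
  simpa using h1

theorem disc_euler2 (hG : HG G κ₁ κ₂) (hV : HV2 1 V F Vt B) (hG2 : ∀ v, G' (G v) = v)
    (hT : 0 < T) (k : Fin n → ℤ) :
    ∃ R C : ℝ, ∀ (N : ℕ) (x : ℤ → EuclideanSpace ℝ (Fin n)), 0 < N → IsDM2 G V T N k x →
      (∀ j, x 0 j ∈ Set.Icc (0 : ℝ) 1) →
      ∀ z : ℕ → EuclideanSpace ℝ (Fin n) × EuclideanSpace ℝ (Fin n) × ℝ,
        (∀ i : ℕ, z i = (x i, ((1 : ℝ) / (T / N)) • (x (i + 1) - x i), (i : ℝ) * (T / N))) →
        (∀ i ≤ N, ‖z i‖ ≤ R) ∧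
        ∀ i < N, ‖z (i + 1) - z i - ((T : ℝ) / N) • field2 G' F (z i)‖ ≤ C * ((T : ℝ) / N) ^ 2 := by
  obtain ⟨R0, hR0⟩ := disc_bound2 hG hV hT k
  set R1 := max R0 0 with hR1
  have hR1n : 0 ≤ R1 := le_max_right _ _
  have hB := hV.nonneg
  have hT' : (0 : ℝ) < T := by exact_mod_cast hT
  refine ⟨Real.sqrt n + T * R1 + R1 + T, ‖G'‖ * (B * (R1 + 1)), ?_⟩
  intro N x hN hx hx0 z hz
  have hNr : (0 : ℝ) < N := by exact_mod_cast hN
  set τ : ℝ := (T : ℝ) / N with hτ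
  have hτ0 : 0 < τ := div_pos hT' hNr
  have hτN : (N : ℝ) * τ = T := by
    rw [hτ]
    field_simp
  set v : ℤ → EuclideanSpace ℝ (Fin n) := fun i => (1 / τ) • (x (i + 1) - x i) with hv
  have hvR : ∀ i, ‖v i‖ ≤ R1 := fun i => (hR0 N x hN hx i).trans (le_max_left _ _)
  have hstep : ∀ i, x (i + 1) - x i = τ • v i := by
    intro i
    rw [hv]
    dsimp only
    rw [smul_smul, mul_one_div_cancel hτ0.ne', one_smul]
  have hstepn : ∀ i, ‖x (i + 1) - x i‖ ≤ τ * R1 := by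
    intro i
    rw [hstep, norm_smul, Real.norm_of_nonneg hτ0.le]
    exact mul_le_mul_of_nonneg_left (hvR i) hτ0.le
  have hxi : ∀ i : ℕ, ‖x i‖ ≤ Real.sqrt n + i * (τ * R1) := by
    intro i
    induction i with
    | zero =>
      have := X3a_sqrt2 (x 0) hx0
      simpa using this
    | succ i ih =>
      have h1 : x ((i + 1 : ℕ) : ℤ) = x i + (x ((i : ℤ) + 1) - x i) := by
        push_cast
        abel
      rw [h1]
      refine (norm_add_le _ _).trans ?_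
      have h2 := hstepn (i : ℤ)
      push_cast
      linarith
  constructor
  · intro i hi
    rw [hz i, Prod.norm_mk, Prod.norm_mk]
    have hir : (i : ℝ) ≤ N := by exact_mod_cast hi
    have h4 : 0 ≤ Real.sqrt n := Real.sqrt_nonneg _
    have h5 : 0 ≤ (T : ℝ) * R1 := by positivity
    apply max_le
    · refine (hxi i).trans ?_
      have h1 : (i : ℝ) * (τ * R1) ≤ N * (τ * R1) :=
        mul_le_mul_of_nonneg_right hir (by positivity)
      have h2 : (N : ℝ) * (τ * R1) = T * R1 := by rw [← mul_assoc, hτN]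
      linarith
    · apply max_le
      · have h6 : ‖((1 : ℝ) / τ) • (x (i + 1) - x i)‖ = ‖v i‖ := rfl
        rw [h6]
        have := hvR i
        linarith
      · rw [Real.norm_of_nonneg (by positivity)]
        have h1 : (i : ℝ) * τ ≤ N * τ := mul_le_mul_of_nonneg_right hir hτ0.le
        linarith
  · intro i hi
    have hEL := disc_EL2' hG hV hT hN hx ((i : ℤ) + 1)
    rw [add_sub_cancel_right, ← hτ] at hEL
    have hz1 : z (i + 1) = (x ((i : ℤ) + 1), v ((i : ℤ) + 1), ((i : ℝ) + 1) * τ) := by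
      rw [hz (i + 1)]
      push_cast
      rfl
    have hz0 : z i = (x (i : ℤ), v (i : ℤ), (i : ℝ) * τ) := hz i
    have hEL' : G (v ((i : ℤ) + 1)) - G (v i) = -(τ • F (x ((i : ℤ) + 1)) (((i : ℝ) + 1) * τ)) := by
      have e : (((((i : ℤ) + 1 : ℤ)) : ℝ)) * τ = ((i : ℝ) + 1) * τ := by push_cast; ring
      rw [← e]
      exact hEL
    set a := x (i : ℤ) with ha
    set b := x ((i : ℤ) + 1) with hb
    set va := v (i : ℤ) with hva
    set vb := v ((i : ℤ) + 1) with hvb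
    have hba : ‖b - a‖ ≤ τ * R1 := hstepn i
    have hba' : b - a = τ • va := hstep i
    have hvv : vb - va = -(τ • G' (F b (((i : ℝ) + 1) * τ))) := by
      have h1 := congrArg G' hEL'
      rw [map_sub, hG2, hG2, map_neg, map_smul] at h1
      exact h1
    have hfield : field2 G' F (z i) = (va, -G' (F a ((i : ℝ) * τ)), 1) := by
      rw [hz0]
      rfl
    have hfin : z (i + 1) - z i - τ • field2 G' F (z i) =
        (0, -(τ • G' (F b (((i : ℝ) + 1) * τ) - F a ((i : ℝ) * τ))), 0) := by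
      rw [hfield, hz1, hz0]
      refine Prod.ext ?_ (Prod.ext ?_ ?_)
      · change b - a - τ • va = 0
        rw [hba', sub_self]
      · change vb - va - τ • (-G' (F a ((i : ℝ) * τ))) = _
        rw [hvv, map_sub, smul_sub, smul_neg]
        abel
      · change ((i : ℝ) + 1) * τ - (i : ℝ) * τ - τ • (1 : ℝ) = 0
        rw [smul_eq_mul]
        ring
    rw [hfin, Prod.norm_mk, Prod.norm_mk, norm_zero, norm_zero, norm_neg, norm_smul,
      Real.norm_of_nonneg hτ0.le]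
    have hC0 : 0 ≤ ‖G'‖ * (B * (R1 + 1)) * τ ^ 2 := by positivity
    apply max_le hC0
    apply max_le _ hC0
    have g1 : ‖F b (((i : ℝ) + 1) * τ) - F a ((i : ℝ) * τ)‖ ≤ B * (τ * R1 + τ) := by
      refine (hV.lip _ _ _ _).trans (mul_le_mul_of_nonneg_left ?_ hB)
      have e : ((i : ℝ) + 1) * τ - (i : ℝ) * τ = τ := by ring
      rw [e, abs_of_pos hτ0]
      linarith
    have g2 : ‖G' (F b (((i : ℝ) + 1) * τ) - F a ((i : ℝ) * τ))‖ ≤ ‖G'‖ * (B * (τ * R1 + τ)) :=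
      (G'.le_opNorm _).trans (mul_le_mul_of_nonneg_left g1 (norm_nonneg _))
    refine (mul_le_mul_of_nonneg_left g2 hτ0.le).trans (le_of_eq ?_)
    ring

end Pool.Agent.H33.AN
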