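import Pool.Agent.H33.AN.Orb
import Pool.Agent.H33.AN.P.X1
import Pool.Agent.H33.AN.P.X2
import Pool.Agent.H33.AN.P.X3a

/-!
# Module X3: from discrete to continuous; periodic orbits

(Compare `Pool/Agent/H33/AM/P/X3b.lean`, `X3c.lean`, `X4.lean`.)
`Y = field2 G' F`, `W = ℝⁿ × ℝⁿ × ℝ`, `τ = T / N`, `v_i = (1/τ) (x_{i+1} - x_i)`, `t_i = i τ`, `z_i = (x_i, v_i, t_i)`,
so that `x_{i+1} = x_i + τ (Y z_i).1`.
* `disc_euler2`: `‖x_i‖ ≤ √n + T R` for `0 ≤ i ≤ N`; `v_{i+1} - v_i = -τ G' (F(x_{i+1}, t_{i+1}))` by `disc_EL2'`, and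
  `‖F(x_{i+1}, t_{i+1}) - F(x_i, t_i)‖ ≤ B (R + 1) τ`.
* `disc_of_curve2`: `y i = x(i τ)` for `0 ≤ i < N`, extended quasi-periodically. Jensen:
  `τ ⟪G c, c⟫ ≤ ∫ ⟪G u, u⟫` on every `[i τ, (i + 1) τ]`, `c` the average of `u`;
  `‖x(t) - x(i τ)‖ ≤ R τ`, so the terms with `V` change by `O(τ)`.
* `per_orbit2_zero`: `G'` from `HG.inv`, `φ` from `exists_flow2`. For `N ≥ 1` let `x^N` be a discrete minimiser
  (`disc_exists2`), `z^N_i` as in `disc_euler2`. By `euler` (with `τ = T/N`, `c = C τ²`)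
  `‖φ (i τ) (z^N_0) - z^N_i‖ ≤ C' τ` for `i ≤ N`. Since `z^N_N = z^N_0 + (zv k, 0, T)` and `z^N_0` is bounded, a
  subsequence `z^N_0 → z*` satisfies `φ T z* = z* + (zv k, 0, T)`, `(z*).2.2 = 0`. The solution
  `γ(t) = (φ t z*).1`, `v(t) = (φ t z*).2.1` (`Sol2_of_flow`) is `T`-periodic modulo `zv k` (uniqueness, `Y` is
  periodic). Action: `|∫_0^T g(φ t z) dt - ∑ τ g(φ (i τ) z)| → 0` and `|g(φ (i τ) z^N_0) - g(z^N_i)| ≤ C'' τ` for
  `g(x, v, t) = lag2 G V x v t` (Lipschitz on bounded sets), so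
  `∫_0^T g(φ t z*) dt = lim Sd2(x^N) ≤ ∫ lag2(x, u) + ε` by `disc_of_curve2`, for every `ε > 0`.
* `per_orbit2`: translate the time by `s` (`HV2.shift`), use `per_orbit2_zero`, translate back.
-/

set_option autoImplicit false

open MeasureTheory
open scoped RealInnerProductSpace

namespace Pool.Agent.H33.AN

open Pool.Agent.H33.AM

variable {n : ℕ} {G G' : EuclideanSpace ℝ (Fin n) →L[ℝ] EuclideanSpace ℝ (Fin n)} {κ₁ κ₂ : ℝ}
  {V : EuclideanSpace ℝ (Fin n) → ℝ → ℝ}
  {F : EuclideanSpace ℝ (Fin n) → ℝ → EuclideanSpace ℝ (Fin n)}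
  {Vt : EuclideanSpace ℝ (Fin n) → ℝ → ℝ} {B : ℝ} {T : ℕ}

private theorem x3b_integrable {a b : ℝ} {x u : ℝ → EuclideanSpace ℝ (Fin n)} (h : Adm a b x u)
    {g : EuclideanSpace ℝ (Fin n) × EuclideanSpace ℝ (Fin n) × ℝ → ℝ} (hg : Continuous g) :
    IntervalIntegrable (fun t => g (x t, u t, t)) volume a b := by
  obtain ⟨R, hR⟩ := h.bd
  rw [intervalIntegrable_iff_integrableOn_Icc_of_le h.le]
  have hxm : AEStronglyMeasurable x (volume.restrict (Set.Icc a b)) :=
    h.cont.aestronglyMeasurable measurableSet_Icc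
  have hum : AEStronglyMeasurable u (volume.restrict (Set.Icc a b)) :=
    h.meas.aestronglyMeasurable
  have htm : AEStronglyMeasurable (fun t : ℝ => t) (volume.restrict (Set.Icc a b)) :=
    measurable_id.aestronglyMeasurable
  have hK : IsCompact ((x '' Set.Icc a b) ×ˢ
      ((Metric.closedBall (0 : EuclideanSpace ℝ (Fin n)) R) ×ˢ Set.Icc a b)) :=
    (isCompact_Icc.image_of_continuousOn h.cont).prod
      ((isCompact_closedBall 0 R).prod isCompact_Icc)
  obtain ⟨C, hC⟩ := hK.exists_bound_of_continuousOn hg.continuousOn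
  refine ⟨hg.comp_aestronglyMeasurable (hxm.prodMk (hum.prodMk htm)),
    HasFiniteIntegral.restrict_of_bounded (C := C) measure_Icc_lt_top ?_⟩
  refine (ae_restrict_iff' measurableSet_Icc).2 (Filter.Eventually.of_forall fun t ht => ?_)
  refine hC _ ⟨Set.mem_image_of_mem x ht, ?_, ht⟩
  simpa using hR t

private theorem x3b_Vcont (hV : HV2 1 V F Vt B) :
    Continuous fun z : EuclideanSpace ℝ (Fin n) × ℝ => V z.1 z.2 :=
  continuous_iff_continuousAt.mpr fun z => (hV.der z.1 z.2).continuousAt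

private theorem x3b_lagcont (hV : HV2 1 V F Vt B) :
    Continuous fun p : EuclideanSpace ℝ (Fin n) × EuclideanSpace ℝ (Fin n) × ℝ =>
      lag2 G V p.1 p.2.1 p.2.2 := by
  unfold lag2
  have h1 : Continuous fun p : EuclideanSpace ℝ (Fin n) × EuclideanSpace ℝ (Fin n) × ℝ =>
      p.2.1 := continuous_fst.comp continuous_snd
  have h2 : Continuous fun p : EuclideanSpace ℝ (Fin n) × EuclideanSpace ℝ (Fin n) × ℝ =>
      V p.1 p.2.2 :=
    (x3b_Vcont hV).comp (continuous_fst.prodMk (continuous_snd.comp continuous_snd))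
  exact (((G.continuous.comp h1).inner h1).div_const 2).sub h2

private theorem x3b_Vlip (hV : HV2 1 V F Vt B) (x y : EuclideanSpace ℝ (Fin n)) (s t : ℝ) :
    |V y t - V x s| ≤ B * (‖y - x‖ + |t - s|) := by
  have h1 : |V y t - V x t| ≤ B * ‖y - x‖ := by
    have hd : ∀ z : EuclideanSpace ℝ (Fin n),
        HasFDerivAt (fun w => V w t) (innerSL ℝ (F z t)) z := by
      intro z
      have e1 : HasFDerivAt (fun w : EuclideanSpace ℝ (Fin n) =>
          ((w, t) : EuclideanSpace ℝ (Fin n) × ℝ))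
          (ContinuousLinearMap.inl ℝ (EuclideanSpace ℝ (Fin n)) ℝ) z :=
        hasFDerivAt_prodMk_left z t
      have e2 := HasFDerivAt.comp z (hV.der z t) e1
      refine e2.congr_fderiv (ContinuousLinearMap.ext fun w => ?_)
      show ⟪F z t, w⟫ + Vt z t * 0 = ⟪F z t, w⟫
      ring
    have := (convex_univ (E := EuclideanSpace ℝ (Fin n))).norm_image_sub_le_of_norm_hasFDerivWithin_le
      (f := fun w => V w t) (C := B) (fun z _ => (hd z).hasFDerivWithinAt)
      (fun z _ => by rw [innerSL_apply_norm]; exact hV.bdF z t)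
      (Set.mem_univ x) (Set.mem_univ y)
    rwa [Real.norm_eq_abs] at this
  have h2 : |V x t - V x s| ≤ B * |t - s| := by
    have hd : ∀ r : ℝ, HasDerivAt (fun r => V x r) (Vt x r) r := by
      intro r
      have e1 : HasDerivAt (fun r : ℝ => ((x, r) : EuclideanSpace ℝ (Fin n) × ℝ))
          ((0 : EuclideanSpace ℝ (Fin n)), (1 : ℝ)) r :=
        (hasDerivAt_const r x).prodMk (hasDerivAt_id r)
      have e2 := HasFDerivAt.comp_hasDerivAt
        (f := fun r : ℝ => ((x, r) : EuclideanSpace ℝ (Fin n) × ℝ)) r (hV.der x r) e1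
      refine e2.congr_deriv ?_
      show ⟪F x r, (0 : EuclideanSpace ℝ (Fin n))⟫ + Vt x r * 1 = Vt x r
      rw [inner_zero_right]
      ring
    have := (convex_univ (E := ℝ)).norm_image_sub_le_of_norm_hasDerivWithin_le
      (f := fun r => V x r) (C := B) (fun r _ => (hd r).hasDerivWithinAt)
      (fun r _ => by rw [Real.norm_eq_abs]; exact hV.bdt x r)
      (Set.mem_univ s) (Set.mem_univ t)
    rwa [Real.norm_eq_abs, Real.norm_eq_abs] at this
  calc |V y t - V x s| = |(V y t - V x t) + (V x t - V x s)| := by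
        congr 1
        ring
    _ ≤ B * ‖y - x‖ + B * |t - s| := (abs_add_le _ _).trans (add_le_add h1 h2)
    _ = B * (‖y - x‖ + |t - s|) := by ring

private theorem x3b_dist {a b R : ℝ} {x u : ℝ → EuclideanSpace ℝ (Fin n)} (h : Adm a b x u)
    (hR : ∀ t, ‖u t‖ ≤ R) : ‖x b - x a‖ ≤ R * (b - a) := by
  have hab := h.le
  have hR0 : 0 ≤ R := (norm_nonneg _).trans (hR 0)
  have h1 := h.integral_inner (x b - x a)
  rw [← inner_sub_right, real_inner_self_eq_norm_sq] at h1
  have h2 := intervalIntegral.norm_integral_le_of_norm_le_const (a := a) (b := b)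
    (f := fun t => ⟪x b - x a, u t⟫) (C := ‖x b - x a‖ * R) (fun t _ => by
      rw [Real.norm_eq_abs]
      exact (abs_real_inner_le_norm _ _).trans
        (mul_le_mul_of_nonneg_left (hR t) (norm_nonneg _)))
  rw [h1, Real.norm_eq_abs, abs_of_nonneg (by positivity), abs_of_nonneg (by linarith)] at h2
  rcases (norm_nonneg (x b - x a)).eq_or_lt with h0 | h0
  · rw [← h0]
    exact mul_nonneg hR0 (by linarith)
  · nlinarith

private theorem x3b_conv (hG : HG G κ₁ κ₂) (c w : EuclideanSpace ℝ (Fin n)) :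
    ⟪G c, c⟫ / 2 + ⟪G c, w - c⟫ ≤ ⟪G w, w⟫ / 2 := by
  have h1 : 0 ≤ ⟪G (w - c), w - c⟫ :=
    le_trans (mul_nonneg hG.pos.le (sq_nonneg _)) (hG.lo (w - c))
  have h2 : ⟪G w, c⟫ = ⟪G c, w⟫ := by
    rw [hG.symm w c, real_inner_comm]
  rw [map_sub, inner_sub_left, inner_sub_right, inner_sub_right] at h1
  rw [inner_sub_right]
  linarith

private theorem x3b_step (hG : HG G κ₁ κ₂) (hV : HV2 1 V F Vt B) {a b R : ℝ}
    {x u : ℝ → EuclideanSpace ℝ (Fin n)} (h : Adm a b x u) (hab : a < b) (hR : ∀ t, ‖u t‖ ≤ R) :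
    (b - a) * lag2 G V (x a) ((1 / (b - a)) • (x b - x a)) a ≤
      (∫ t in a..b, lag2 G V (x t) (u t) t) + B * (R + 1) * (b - a) ^ 2 := by
  have hR0 : 0 ≤ R := (norm_nonneg _).trans (hR 0)
  have hB := hV.nonneg
  have hτ : 0 < b - a := by linarith
  set c := (1 / (b - a)) • (x b - x a) with hc
  set e := ⟪G c, c⟫ / 2 - ⟪G c, c⟫ - V (x a) a - B * (R + 1) * (b - a) with he
  have i1 : IntervalIntegrable (fun t => ⟪G c, u t⟫) volume a b :=
    h.integrable (g := fun p => ⟪G c, p.2⟫) (continuous_const.inner continuous_snd)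
  have i2 : IntervalIntegrable (fun t => lag2 G V (x t) (u t) t) volume a b :=
    x3b_integrable h (g := fun p => lag2 G V p.1 p.2.1 p.2.2) (x3b_lagcont hV)
  have i3 : IntervalIntegrable (fun t => e + ⟪G c, u t⟫) volume a b :=
    (continuous_const.intervalIntegrable _ _).add i1
  have h1 : ∫ t in a..b, (e + ⟪G c, u t⟫) ≤ ∫ t in a..b, lag2 G V (x t) (u t) t := by
    apply intervalIntegral.integral_mono_on hab.le i3 i2
    intro t ht
    have hx : ‖x t - x a‖ ≤ R * (b - a) :=
      (x3b_dist (h.sub le_rfl ht.1 ht.2) hR).trans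
        (mul_le_mul_of_nonneg_left (by linarith [ht.2]) hR0)
    have ht2 : |t - a| ≤ b - a := by
      rw [abs_of_nonneg (by linarith [ht.1])]
      linarith [ht.2]
    have k1 := x3b_conv hG c (u t)
    have k3 := (abs_le.mp (x3b_Vlip hV (x a) (x t) a t)).2
    have k4 : B * (‖x t - x a‖ + |t - a|) ≤ B * ((R + 1) * (b - a)) :=
      mul_le_mul_of_nonneg_left (by linarith) hB
    rw [inner_sub_right] at k1
    unfold lag2
    rw [he]
    linarith
  have h2 : ∫ t in a..b, (e + ⟪G c, u t⟫) = (b - a) * e + ⟪G c, x b - x a⟫ := by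
    rw [intervalIntegral.integral_add (continuous_const.intervalIntegrable _ _) i1,
      intervalIntegral.integral_const, smul_eq_mul, h.integral_inner, inner_sub_right]
  have h3 : x b - x a = (b - a) • c := by
    rw [hc, smul_smul, mul_one_div_cancel hτ.ne', one_smul]
  have h4 : ⟪G c, x b - x a⟫ = (b - a) * ⟪G c, c⟫ := by
    rw [h3, inner_smul_right]
  rw [h2, h4, he] at h1
  unfold lag2 at h1 ⊢
  nlinarith

theorem disc_of_curve2 (hG : HG G κ₁ κ₂) (hV : HV2 1 V F Vt B) (hT : 0 < T)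
    {x u : ℝ → EuclideanSpace ℝ (Fin n)} (h : Adm 0 T x u) {k : Fin n → ℤ}
    (hx : x T = x 0 + zv k) {ε : ℝ} (hε : 0 < ε) :
    ∃ N₀ : ℕ, ∀ N ≥ N₀, ∃ y : ℤ → EuclideanSpace ℝ (Fin n), (∀ i, y (i + N) = y i + zv k) ∧
      Sd2 G V (T / N) N y ≤ (∫ t in (0 : ℝ)..T, lag2 G V (x t) (u t) t) + ε := by
  obtain ⟨R, hR⟩ := h.bd
  have hR0 : 0 ≤ R := (norm_nonneg _).trans (hR 0)
  have hB := hV.nonneg
  have hT' : (0 : ℝ) < T := by exact_mod_cast hT
  obtain ⟨M, hM⟩ := exists_nat_ge (B * (R + 1) * (T : ℝ) ^ 2 / ε)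
  refine ⟨M + 1, fun N hN => ?_⟩
  have hN0 : 0 < N := by omega
  have hN' : (0 : ℝ) < N := by exact_mod_cast hN0
  have hNz : (0 : ℤ) < N := by exact_mod_cast hN0
  have hNM : (M : ℝ) ≤ N := by
    have : M ≤ N := by omega
    exact_mod_cast this
  set τ := (T : ℝ) / N with hτd
  have hτ : 0 < τ := by positivity
  have hNτ : N * τ = T := by rw [hτd]; field_simp
  set y : ℤ → EuclideanSpace ℝ (Fin n) := fun i =>
    x (((i % (N : ℤ) : ℤ) : ℝ) * τ) + ((i / (N : ℤ) : ℤ) : ℝ) • zv k with hy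
  have hyi : ∀ i : ℕ, i ≤ N → y i = x (i * τ) := by
    intro i hi
    simp only [hy]
    rcases hi.eq_or_lt with h1 | h1
    · subst h1
      rw [Int.emod_self, Int.ediv_self hNz.ne', hNτ, hx]
      simp
    · have h2 : ((i : ℤ) % (N : ℤ)) = i := Int.emod_eq_of_lt (by positivity) (by exact_mod_cast h1)
      have h3 : ((i : ℤ) / (N : ℤ)) = 0 := Int.ediv_eq_zero_of_lt (by positivity)
        (by exact_mod_cast h1)
      rw [h2, h3]
      simp
  refine ⟨y, ?_, ?_⟩
  · intro i
    simp only [hy]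
    rw [Int.add_emod_right, Int.add_ediv_of_dvd_right (dvd_refl _), Int.ediv_self hNz.ne']
    push_cast
    rw [add_smul, one_smul, add_assoc]
  · set a : ℕ → ℝ := fun i => i * τ with ha
    have hstep : ∀ i ∈ Finset.range N,
        τ * lag2 G V (y i) ((1 / τ) • (y (i + 1) - y i)) (i * τ) ≤
          (∫ t in a i..a (i + 1), lag2 G V (x t) (u t) t) + B * (R + 1) * τ ^ 2 := by
      intro i hi
      rw [Finset.mem_range] at hi
      have hi' : (i : ℝ) + 1 ≤ N := by exact_mod_cast hi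
      have e1 : a (i + 1) - a i = τ := by
        simp only [ha]
        push_cast
        ring
      have hai : 0 ≤ a i := by simp only [ha]; positivity
      have haT : a (i + 1) ≤ T := by
        rw [← hNτ]
        simp only [ha]
        push_cast
        exact mul_le_mul_of_nonneg_right hi' hτ.le
      have e2 := x3b_step hG hV (h.sub hai (by linarith) haT) (by linarith) hR
      rw [e1] at e2
      have e3 : y i = x (a i) := hyi i hi.le
      have e4 : y ((i : ℤ) + 1) = x (a (i + 1)) := by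
        have := hyi (i + 1) hi
        push_cast at this
        rw [this]
        simp only [ha]
        push_cast
        rfl
      rw [e3, e4]
      exact e2
    have hint : ∀ i < N, IntervalIntegrable (fun t => lag2 G V (x t) (u t) t) volume (a i)
        (a (i + 1)) := by
      intro i hi
      have hi' : (i : ℝ) + 1 ≤ N := by exact_mod_cast hi
      have hai : 0 ≤ a i := by simp only [ha]; positivity
      have haT : a (i + 1) ≤ T := by
        rw [← hNτ]
        simp only [ha]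
        push_cast
        exact mul_le_mul_of_nonneg_right hi' hτ.le
      have e0 : a i ≤ a (i + 1) := by
        simp only [ha]
        push_cast
        nlinarith
      exact x3b_integrable (h.sub hai e0 haT) (g := fun p => lag2 G V p.1 p.2.1 p.2.2)
        (x3b_lagcont hV)
    have hsum : ∑ i ∈ Finset.range N, ∫ t in a i..a (i + 1), lag2 G V (x t) (u t) t =
        ∫ t in (0 : ℝ)..T, lag2 G V (x t) (u t) t := by
      rw [intervalIntegral.sum_integral_adjacent_intervals (fun i hi => hint i hi)]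
      simp only [ha, Nat.cast_zero, zero_mul]
      rw [hNτ]
    unfold Sd2
    refine (Finset.sum_le_sum hstep).trans ?_
    rw [Finset.sum_add_distrib, hsum, Finset.sum_const, Finset.card_range, nsmul_eq_mul]
    have h5 : (N : ℝ) * (B * (R + 1) * τ ^ 2) = B * (R + 1) * (T : ℝ) ^ 2 / N := by
      rw [hτd]
      field_simp
    have h6 : B * (R + 1) * (T : ℝ) ^ 2 / N ≤ ε := by
      rw [div_le_iff₀ hN']
      rw [div_le_iff₀ hε] at hM
      nlinarith
    rw [h5]
    linarith

end Pool.Agent.H33.AN
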