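import Pool.Agent.H33.AN.Orb
import Pool.Agent.H33.AN.P.X1
import Pool.Agent.H33.AN.P.X2
import Pool.Agent.H33.AN.P.X3a
import Pool.Agent.H33.AN.P.X3b

/-!
# Module X3: from discrete to continuous; periodic orbits

(Compare `Pool/Agent/H33/AM/P/X3b.lean`, `X3c.lean`, `X4.lean`.)
`Y = field2 G' F`, `W = ℝⁿ × ℝⁿ × ℝ`, `τ = T / N`, `v_i = (1/τ) (x_{i+1} - x_i)`, `t_i = i τ`, `z_i = (x_i, v_i, t_i)`,
so that `x_{i+1} = x_i + τ (Y z_i).1`.
* `disc_euler2`: `‖x_i‖ ≤ √n + T R` for `0 ≤ i ≤ N`; `v_{i+1} - v_i = -τ G' (F(x_{i+1}, t_{i+1}))` by `disc_EL2'`, and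
  `‖F(x_{i+1}, t_{i+1}) - F(x_i, t_i)‖ ≤ B (R + 1) τ`.
* `disc_of_curve2`: `y i = x(i τ)` for `0 ≤ i < N`, extended quasi-periodically. Jensen:
  `τ ⟪G c, c⟫ ≤ ∫ ⟪G u, u⟫` on every `[i τ, (i + 1) τ]`, `c` the average of `u`;
  `‖x(t) - x(i τ)‖ ≤ R τ`, so the terms with `V` change by `O(τ)`.
* `per_orbit2_zero`: `G'` from `HG.inv`, `φ` from `exists_flow2`. For `N ≥ 1` let `x^N` be a discrete minimiser
  (`disc_exists2`), `z^N_i` as in `disc_euler2`. By `euler` (with `τ = T/N`, `c = C τ²`)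
  `‖φ (i τ) (z^N_0) - z^N_i‖ ≤ C' τ` for `i ≤ N`. Since `z^N_N = z^N_0 + (zv k, 0, T)` and `z^N_0` is bounded, a
  subsequence `z^N_0 → z*` satisfies `φ T z* = z* + (zv k, 0, T)`, `(z*).2.2 = 0`. The solution
  `γ(t) = (φ t z*).1`, `v(t) = (φ t z*).2.1` (`Sol2_of_flow`) is `T`-periodic modulo `zv k` (uniqueness, `Y` is
  periodic). Action: `|∫_0^T g(φ t z) dt - ∑ τ g(φ (i τ) z)| → 0` and `|g(φ (i τ) z^N_0) - g(z^N_i)| ≤ C'' τ` for
  `g(x, v, t) = lag2 G V x v t` (Lipschitz on bounded sets), so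
  `∫_0^T g(φ t z*) dt = lim Sd2(x^N) ≤ ∫ lag2(x, u) + ε` by `disc_of_curve2`, for every `ε > 0`.
* `per_orbit2`: translate the time by `s` (`HV2.shift`), use `per_orbit2_zero`, translate back.
-/

set_option autoImplicit false

open MeasureTheory
open scoped RealInnerProductSpace

namespace Pool.Agent.H33.AN

open Pool.Agent.H33.AM

variable {n : ℕ} {G G' : EuclideanSpace ℝ (Fin n) →L[ℝ] EuclideanSpace ℝ (Fin n)} {κ₁ κ₂ : ℝ}
  {V : EuclideanSpace ℝ (Fin n) → ℝ → ℝ}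
  {F : EuclideanSpace ℝ (Fin n) → ℝ → EuclideanSpace ℝ (Fin n)}
  {Vt : EuclideanSpace ℝ (Fin n) → ℝ → ℝ} {B : ℝ} {T : ℕ}

section riem

variable {W : Type*} [NormedAddCommGroup W] [ProperSpace W]

private lemma X3c_riemann_sum {g : W → ℝ} (hg : Continuous g) {φ : ℝ → W → W}
    (hφ : Continuous fun p : ℝ × W => φ p.1 p.2) {T R C : ℝ} (hT : 0 < T) {zs : W}
    (hzs : ‖zs‖ ≤ R) {ε : ℝ} (hε : 0 < ε) :
    ∃ δ > 0, ∀ (N : ℕ) (z : ℕ → W), 0 < N → T / N < δ → ‖z 0 - zs‖ < δ → (∀ i ≤ N, ‖z i‖ ≤ R) →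
      (∀ i ≤ N, ‖φ (i * (T / N)) (z 0) - z i‖ ≤ C * (T / N)) →
      |(∫ t in (0 : ℝ)..T, g (φ t zs)) - ∑ i ∈ Finset.range N, (T / N) * g (z i)| ≤ ε := by
  set Φ : ℝ × W → W := fun p => φ p.1 p.2 with hΦ
  set K1 : Set (ℝ × W) := Set.Icc 0 T ×ˢ Metric.closedBall 0 R with hK1
  have hK1c : IsCompact K1 := isCompact_Icc.prod (isCompact_closedBall 0 R)
  obtain ⟨R1, hR1⟩ := (hK1c.image hφ).isBounded.exists_norm_le
  set B1 : Set W := Metric.closedBall 0 (max R R1) with hB1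
  have hB1c : IsCompact B1 := isCompact_closedBall 0 _
  have hgu : UniformContinuousOn g B1 := hB1c.uniformContinuousOn_of_continuous hg.continuousOn
  have hΦu : UniformContinuousOn Φ K1 := hK1c.uniformContinuousOn_of_continuous hφ.continuousOn
  rw [Metric.uniformContinuousOn_iff] at hgu hΦu
  obtain ⟨δ1, hδ1, H1⟩ := hgu (ε / T) (by positivity)
  obtain ⟨δ2, hδ2, H2⟩ := hΦu (δ1 / 2) (by positivity)
  refine ⟨min δ2 (δ1 / (2 * (|C| + 1))), lt_min hδ2 (by positivity), ?_⟩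
  intro N z hN hτ hz0 hzR hzφ
  have hN' : (0:ℝ) < N := by exact_mod_cast hN
  set τ := T / N with hτd
  have hτ0 : 0 < τ := by positivity
  have hNτ : N * τ = T := by rw [hτd]; field_simp
  have t1 : τ < δ2 := hτ.trans_le (min_le_left _ _)
  have t2 : τ < δ1 / (2 * (|C| + 1)) := hτ.trans_le (min_le_right _ _)
  have t3 : C * τ ≤ δ1 / 2 := by
    rw [lt_div_iff₀ (by positivity)] at t2
    nlinarith [le_abs_self C, abs_nonneg C]
  set a : ℕ → ℝ := fun i => i * τ with ha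
  have hcont : Continuous fun t => g (φ t zs) :=
    hg.comp (hφ.comp (continuous_id.prodMk continuous_const))
  have hint : ∀ x y : ℝ, IntervalIntegrable (fun t => g (φ t zs)) volume x y :=
    fun x y => hcont.intervalIntegrable x y
  have hsum : ∑ i ∈ Finset.range N, ∫ t in a i..a (i + 1), g (φ t zs) =
      ∫ t in (0 : ℝ)..T, g (φ t zs) := by
    rw [intervalIntegral.sum_integral_adjacent_intervals (fun i _ => hint _ _)]
    simp only [ha, Nat.cast_zero, zero_mul]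
    rw [hNτ]
  rw [← hsum, ← Finset.sum_sub_distrib]
  have key : ∀ i ∈ Finset.range N,
      |(∫ t in a i..a (i + 1), g (φ t zs)) - τ * g (z i)| ≤ ε / T * τ := by
    intro i hi
    rw [Finset.mem_range] at hi
    have hi' : (i:ℝ) + 1 ≤ N := by exact_mod_cast hi
    have e1 : a (i + 1) - a i = τ := by
      simp only [ha]
      push_cast
      ring
    have e0 : a i ≤ a (i + 1) := by linarith
    have e2 : (∫ t in a i..a (i + 1), g (φ t zs)) - τ * g (z i) =
        ∫ t in a i..a (i + 1), (g (φ t zs) - g (z i)) := by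
      rw [intervalIntegral.integral_sub (hint _ _) (continuous_const.intervalIntegrable _ _),
        intervalIntegral.integral_const, e1, smul_eq_mul]
    rw [e2]
    have e3 := intervalIntegral.norm_integral_le_of_norm_le_const (a := a i) (b := a (i + 1))
      (f := fun t => g (φ t zs) - g (z i)) (C := ε / T) ?_
    · rw [e1, abs_of_pos hτ0, Real.norm_eq_abs] at e3
      exact e3
    · intro t ht
      rw [Set.uIoc_of_le e0] at ht
      obtain ⟨ht1, ht2⟩ := ht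
      have hai : 0 ≤ a i := by simp only [ha]; positivity
      have haT : a (i + 1) ≤ T := by
        rw [← hNτ]
        simp only [ha]
        push_cast
        exact mul_le_mul_of_nonneg_right hi' hτ0.le
      have m1 : (t, zs) ∈ K1 := by
        refine ⟨⟨by simp only; linarith, by simp only; linarith⟩, ?_⟩
        rw [mem_closedBall_zero_iff]
        exact hzs
      have m2 : (a i, z 0) ∈ K1 := by
        refine ⟨⟨hai, by simp only; linarith⟩, ?_⟩
        rw [mem_closedBall_zero_iff]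
        exact hzR 0 (Nat.zero_le _)
      have d1 : dist (t, zs) (a i, z 0) < δ2 := by
        rw [Prod.dist_eq, max_lt_iff]
        constructor
        · simp only
          rw [Real.dist_eq, abs_of_nonneg (by linarith)]
          linarith
        · simp only
          rw [dist_comm, dist_eq_norm]
          exact hz0.trans_le (min_le_left _ _)
      have d2 := H2 _ m1 _ m2 d1
      have d3 : dist (φ (a i) (z 0)) (z i) ≤ C * τ := by
        rw [dist_eq_norm]
        exact hzφ i hi.le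
      have d4 : dist (φ t zs) (z i) < δ1 := by
        calc dist (φ t zs) (z i) ≤ dist (φ t zs) (φ (a i) (z 0)) + dist (φ (a i) (z 0)) (z i) :=
              dist_triangle _ _ _
          _ < δ1 / 2 + δ1 / 2 := add_lt_add_of_lt_of_le d2 (d3.trans t3)
          _ = δ1 := by ring
      have m3 : φ t zs ∈ B1 := by
        rw [hB1, mem_closedBall_zero_iff]
        exact (hR1 _ ⟨_, m1, rfl⟩).trans (le_max_right _ _)
      have m4 : z i ∈ B1 := by
        rw [hB1, mem_closedBall_zero_iff]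
        exact (hzR i hi.le).trans (le_max_left _ _)
      have d5 := H1 _ m3 _ m4 d4
      rw [← dist_eq_norm]
      exact d5.le
  calc |∑ i ∈ Finset.range N, ((∫ t in a i..a (i + 1), g (φ t zs)) - τ * g (z i))|
      ≤ ∑ i ∈ Finset.range N, |(∫ t in a i..a (i + 1), g (φ t zs)) - τ * g (z i)| :=
        Finset.abs_sum_le_sum_abs _ _
    _ ≤ ∑ i ∈ Finset.range N, ε / T * τ := Finset.sum_le_sum key
    _ = ε := by
        rw [Finset.sum_const, Finset.card_range, nsmul_eq_mul, ← hNτ]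
        field_simp

end riem

theorem per_orbit2_zero (hG : HG G κ₁ κ₂) (hV : HV2 1 V F Vt B) (hT : 0 < T)
    {x u : ℝ → EuclideanSpace ℝ (Fin n)} (h : Adm 0 T x u) {k : Fin n → ℤ}
    (hx : x T = x 0 + zv k) :
    ∃ γ v : ℝ → EuclideanSpace ℝ (Fin n), Sol2 G F γ v ∧ (∀ t, γ (t + T) = γ t + zv k) ∧
      (∀ t, v (t + T) = v t) ∧
      ∫ t in (0 : ℝ)..T, lag2 G V (γ t) (v t) t ≤ ∫ t in (0 : ℝ)..T, lag2 G V (x t) (u t) t := by
  obtain ⟨G', hG1, hG2⟩ := hG.inv
  have hT' : (0 : ℝ) < (T : ℝ) := by exact_mod_cast hT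
  obtain ⟨φ, hφ, hφt⟩ := exists_flow2 (G' := G') hV
  obtain ⟨K, hK⟩ := field2_lip (G' := G') hV
  set Y := field2 G' F with hY
  have hloc : ∀ R : ℝ, ∃ K : NNReal, LipschitzOnWith K Y (Metric.closedBall 0 R) :=
    fun R => ⟨K, hK.lipschitzOnWith⟩
  have hgr : ∀ z, ‖Y z‖ ≤ (‖Y 0‖ + K) * (1 + ‖z‖) := by
    intro z
    have h1 := hK.dist_le_mul z 0
    rw [dist_eq_norm, dist_eq_norm, sub_zero] at h1
    have h2 : ‖Y z‖ ≤ ‖Y z - Y 0‖ + ‖Y 0‖ := by
      have := norm_add_le (Y z - Y 0) (Y 0)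
      rwa [sub_add_cancel] at this
    have h3 := norm_nonneg z
    have h4 := norm_nonneg (Y 0)
    have h5 : (0 : ℝ) ≤ K := K.2
    nlinarith
  -- discrete minimisers
  have hex : ∀ N : ℕ, ∃ x : ℤ → EuclideanSpace ℝ (Fin n), IsDM2 G V T (N + 1) k x ∧
      ∀ j, x 0 j ∈ Set.Icc (0 : ℝ) 1 := fun N => disc_exists2 hG hV hT (Nat.succ_pos N) k
  choose X hX hX0 using hex
  set Z : ℕ → ℕ → EuclideanSpace ℝ (Fin n) × EuclideanSpace ℝ (Fin n) × ℝ := fun N i =>
    (X N i, ((1 : ℝ) / ((T : ℝ) / ((N + 1 : ℕ) : ℝ))) • (X N (i + 1) - X N i),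
      (i : ℝ) * ((T : ℝ) / ((N + 1 : ℕ) : ℝ))) with hZ
  obtain ⟨R, C, hRC⟩ := disc_euler2 hG hV hG2 hT k
  have hR : ∀ N, ∀ i ≤ N + 1, ‖Z N i‖ ≤ R := fun N =>
    (hRC (N + 1) (X N) (Nat.succ_pos N) (hX N) (hX0 N) (Z N) (fun i => rfl)).1
  have hC : ∀ N, ∀ i < N + 1, ‖Z N (i + 1) - Z N i - ((T : ℝ) / ((N + 1 : ℕ) : ℝ)) • Y (Z N i)‖ ≤
      C * ((T : ℝ) / ((N + 1 : ℕ) : ℝ)) ^ 2 := fun N =>
    (hRC (N + 1) (X N) (Nat.succ_pos N) (hX N) (hX0 N) (Z N) (fun i => rfl)).2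
  obtain ⟨C₂, hC₂⟩ := euler hloc hgr hφ R T
  have hE : ∀ N i : ℕ, i ≤ N + 1 →
      ‖φ ((i : ℝ) * ((T : ℝ) / ((N + 1 : ℕ) : ℝ))) (Z N 0) - Z N i‖ ≤
      (C₂ * (1 + |C|)) * ((T : ℝ) / ((N + 1 : ℕ) : ℝ)) := by
    intro N i hi
    have hN' : (0:ℝ) < ((N + 1 : ℕ) : ℝ) := by positivity
    have hτ : 0 < (T : ℝ) / ((N + 1 : ℕ) : ℝ) := by positivity
    have h := hC₂ ((T : ℝ) / ((N + 1 : ℕ) : ℝ)) (|C| * ((T : ℝ) / ((N + 1 : ℕ) : ℝ)) ^ 2) (N + 1)
      hτ (by positivity) (by rw [mul_div_cancel₀ _ hN'.ne']) (Z N) (hR N) ?_ i hi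
    · refine h.trans (le_of_eq ?_)
      field_simp
    · intro i hi
      exact (hC N i hi).trans (mul_le_mul_of_nonneg_right (le_abs_self C) (by positivity))
  -- subsequence
  have hcb : ∀ N, Z N 0 ∈ Metric.closedBall
      (0 : EuclideanSpace ℝ (Fin n) × EuclideanSpace ℝ (Fin n) × ℝ) R := by
    intro N
    rw [mem_closedBall_zero_iff]
    exact hR N 0 (Nat.zero_le _)
  obtain ⟨zs, hzs, ψ, hψ, hlim⟩ := (isCompact_closedBall _ R).tendsto_subseq hcb
  rw [mem_closedBall_zero_iff] at hzs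
  have hτlim : Filter.Tendsto (fun m : ℕ => (T : ℝ) / ((ψ m + 1 : ℕ) : ℝ)) Filter.atTop
      (nhds 0) := by
    have h1 : Filter.Tendsto (fun m : ℕ => (T : ℝ) / ((m + 1 : ℕ) : ℝ)) Filter.atTop (nhds 0) :=
      (tendsto_const_div_atTop_nhds_zero_nat (T : ℝ)).comp (Filter.tendsto_add_atTop_nat 1)
    exact h1.comp hψ.tendsto_atTop
  -- the time component
  have hzs0 : zs.2.2 = 0 := by
    have c2 : Continuous fun z : EuclideanSpace ℝ (Fin n) × EuclideanSpace ℝ (Fin n) × ℝ =>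
        z.2.2 := continuous_snd.comp continuous_snd
    have l1 : Filter.Tendsto (fun m => (Z (ψ m) 0).2.2) Filter.atTop (nhds zs.2.2) :=
      (c2.tendsto zs).comp hlim
    have l2 : (fun m => (Z (ψ m) 0).2.2) = fun _ => (0 : ℝ) := by
      funext m
      simp [hZ]
    rw [l2] at l1
    exact (tendsto_nhds_unique l1 tendsto_const_nhds)
  -- end point
  have hend : ∀ N, Z N (N + 1) = Z N 0 + (zv k, 0, (T : ℝ)) := by
    intro N
    have h0 := (hX N).1 0
    have h1 := (hX N).1 1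
    rw [zero_add] at h0
    have e1 : ((N + 1 : ℕ) : ℤ) + 1 = 1 + ((N + 1 : ℕ) : ℤ) := by ring
    have hN' : (0:ℝ) < ((N + 1 : ℕ) : ℝ) := by positivity
    simp only [hZ]
    rw [e1, h1, h0, mul_div_cancel₀ _ hN'.ne']
    apply Prod.ext
    · simp
    · apply Prod.ext
      · simp
      · simp
  have hperz : φ T zs = zs + (zv k, 0, (T : ℝ)) := by
    have l1 : Filter.Tendsto (fun m => φ T (Z (ψ m) 0)) Filter.atTop (nhds (φ T zs)) := by
      have : Continuous fun z => φ T z := hφ.cont.comp (continuous_const.prodMk continuous_id)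
      exact (this.tendsto zs).comp hlim
    have l2 : Filter.Tendsto (fun m => Z (ψ m) 0 + (zv k, 0, (T : ℝ))) Filter.atTop
        (nhds (zs + (zv k, 0, (T : ℝ)))) := hlim.add_const _
    have l3 : Filter.Tendsto (fun m => φ T (Z (ψ m) 0) - (Z (ψ m) 0 + (zv k, 0, (T : ℝ))))
        Filter.atTop (nhds 0) := by
      rw [tendsto_zero_iff_norm_tendsto_zero]
      have l4 := hτlim.const_mul (C₂ * (1 + |C|))
      rw [mul_zero] at l4
      refine squeeze_zero (fun m => norm_nonneg _) (fun m => ?_) l4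
      have h := hE (ψ m) (ψ m + 1) le_rfl
      have hN' : (0:ℝ) < ((ψ m + 1 : ℕ) : ℝ) := by positivity
      rw [mul_div_cancel₀ _ hN'.ne', hend] at h
      exact h
    have l5 := l1.sub l2
    have l6 := tendsto_nhds_unique l5 l3
    exact sub_eq_zero.mp l6
  have hYper : ∀ z, Y (z + (zv k, 0, (T : ℝ))) = Y z := by
    intro z
    have hp : F z.1 (z.2.2 + T) = F z.1 z.2.2 := by
      have hp1 : Function.Periodic (fun t => F z.1 t) 1 := fun t => hV.pertF z.1 t
      have hp2 := hp1.nat_mul T z.2.2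
      rw [mul_one] at hp2
      exact hp2
    simp only [hY, field2, Prod.fst_add, Prod.snd_add, add_zero]
    rw [hV.perF, hp]
  have hper : ∀ t, φ (t + T) zs = φ t zs + (zv k, 0, (T : ℝ)) := by
    intro t
    have h1 := hφ.uniq (fun s => φ s zs) (fun s => hφ.der zs s) t T
    have h2 := hφ.uniq (fun s => φ s zs + (zv k, 0, (T : ℝ))) (fun s => by
      have := (hφ.der zs s).add_const ((zv k, 0, (T : ℝ)) :
        EuclideanSpace ℝ (Fin n) × EuclideanSpace ℝ (Fin n) × ℝ)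
      have e := hYper (φ s zs)
      rw [e]
      exact this) t 0
    simp only [add_zero] at h2
    rw [hφ.zero, ← hperz] at h2
    rw [h1, ← h2]
  have hφtt : ∀ t, (φ t zs).2.2 = t := by
    intro t
    rw [hφt, hzs0, zero_add]
  refine ⟨fun t => (φ t zs).1, fun t => (φ t zs).2.1,
    Sol2_of_flow hG1 (fun t => hφ.der zs t) hφtt, ?_, ?_, ?_⟩
  · intro t
    simp only [hper, Prod.fst_add]
  · intro t
    simp only [hper, Prod.fst_add, Prod.snd_add, add_zero]
  · -- action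
    set g : EuclideanSpace ℝ (Fin n) × EuclideanSpace ℝ (Fin n) × ℝ → ℝ := fun z =>
      lag2 G V z.1 z.2.1 z.2.2 with hg
    have cg : Continuous g := by
      have c1 : Continuous fun z : EuclideanSpace ℝ (Fin n) × EuclideanSpace ℝ (Fin n) × ℝ =>
        z.2.1 := continuous_fst.comp continuous_snd
      have c2 : Continuous fun z : EuclideanSpace ℝ (Fin n) × EuclideanSpace ℝ (Fin n) × ℝ =>
        z.2.2 := continuous_snd.comp continuous_snd
      have c3 : Continuous fun z : EuclideanSpace ℝ (Fin n) × EuclideanSpace ℝ (Fin n) × ℝ =>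
        V z.1 z.2.2 := hV.cont.comp (continuous_fst.prodMk c2)
      simp only [hg, lag2]
      exact (((G.continuous.comp c1).inner c1).div_const 2).sub c3
    have hSd : ∀ N, Sd2 G V ((T : ℝ) / ((N + 1 : ℕ) : ℝ)) (N + 1) (X N) =
        ∑ i ∈ Finset.range (N + 1), ((T : ℝ) / ((N + 1 : ℕ) : ℝ)) * g (Z N i) := by
      intro N
      rfl
    apply le_of_forall_pos_le_add
    intro ε hε
    obtain ⟨δ, hδ, hδ'⟩ := X3c_riemann_sum cg hφ.cont (C := C₂ * (1 + |C|)) hT' hzs (half_pos hε)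
    obtain ⟨N₀, hN₀⟩ := disc_of_curve2 hG hV hT h hx (half_pos hε)
    have ev1 : ∀ᶠ m in Filter.atTop, (T : ℝ) / ((ψ m + 1 : ℕ) : ℝ) < δ :=
      (tendsto_order.mp hτlim).2 δ hδ
    have ev2 : ∀ᶠ m in Filter.atTop, ‖Z (ψ m) 0 - zs‖ < δ := by
      have := Metric.tendsto_atTop.mp hlim δ hδ
      obtain ⟨M, hM⟩ := this
      refine Filter.eventually_atTop.mpr ⟨M, fun m hm => ?_⟩
      have := hM m hm
      rw [dist_eq_norm] at this
      exact this
    have ev3 : ∀ᶠ m in Filter.atTop, N₀ ≤ ψ m + 1 := by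
      refine Filter.eventually_atTop.mpr ⟨N₀, fun m hm => ?_⟩
      have := hψ.id_le m
      simp only [id] at this
      omega
    obtain ⟨m, hm1, hm2, hm3⟩ := (ev1.and (ev2.and ev3)).exists
    have s1 := hδ' (ψ m + 1) (Z (ψ m)) (Nat.succ_pos _) hm1 hm2 (hR (ψ m)) (hE (ψ m))
    obtain ⟨y, hy, hy'⟩ := hN₀ (ψ m + 1) hm3
    have s2 := (hX (ψ m)).2 y hy
    rw [hSd] at s2
    have s3 := (abs_le.mp s1).2
    have s4 : (∫ t in (0 : ℝ)..T, lag2 G V (φ t zs).1 (φ t zs).2.1 t) =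
        ∫ t in (0 : ℝ)..T, g (φ t zs) := by
      refine intervalIntegral.integral_congr fun t _ => ?_
      simp only [hg, hφtt]
    rw [s4]
    linarith

end Pool.Agent.H33.AN
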