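import Pool.Agent.H33.AN.Orb
import Pool.Agent.H33.AN.P.X1
import Pool.Agent.H33.AN.P.X2
import Pool.Agent.H33.AN.P.X3a
import Pool.Agent.H33.AN.P.X3b
import Pool.Agent.H33.AN.P.X3c

/-!
# Module X3: from discrete to continuous; periodic orbits

(Compare `Pool/Agent/H33/AM/P/X3b.lean`, `X3c.lean`, `X4.lean`.)
`Y = field2 G' F`, `W = ℝⁿ × ℝⁿ × ℝ`, `τ = T / N`, `v_i = (1/τ) (x_{i+1} - x_i)`, `t_i = i τ`, `z_i = (x_i, v_i, t_i)`,
so that `x_{i+1} = x_i + τ (Y z_i).1`.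
* `disc_euler2`: `‖x_i‖ ≤ √n + T R` for `0 ≤ i ≤ N`; `v_{i+1} - v_i = -τ G' (F(x_{i+1}, t_{i+1}))` by `disc_EL2'`, and
  `‖F(x_{i+1}, t_{i+1}) - F(x_i, t_i)‖ ≤ B (R + 1) τ`.
* `disc_of_curve2`: `y i = x(i τ)` for `0 ≤ i < N`, extended quasi-periodically. Jensen:
  `τ ⟪G c, c⟫ ≤ ∫ ⟪G u, u⟫` on every `[i τ, (i + 1) τ]`, `c` the average of `u`;
  `‖x(t) - x(i τ)‖ ≤ R τ`, so the terms with `V` change by `O(τ)`.
* `per_orbit2_zero`: `G'` from `HG.inv`, `φ` from `exists_flow2`. For `N ≥ 1` let `x^N` be a discrete minimiser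
  (`disc_exists2`), `z^N_i` as in `disc_euler2`. By `euler` (with `τ = T/N`, `c = C τ²`)
  `‖φ (i τ) (z^N_0) - z^N_i‖ ≤ C' τ` for `i ≤ N`. Since `z^N_N = z^N_0 + (zv k, 0, T)` and `z^N_0` is bounded, a
  subsequence `z^N_0 → z*` satisfies `φ T z* = z* + (zv k, 0, T)`, `(z*).2.2 = 0`. The solution
  `γ(t) = (φ t z*).1`, `v(t) = (φ t z*).2.1` (`Sol2_of_flow`) is `T`-periodic modulo `zv k` (uniqueness, `Y` is
  periodic). Action: `|∫_0^T g(φ t z) dt - ∑ τ g(φ (i τ) z)| → 0` and `|g(φ (i τ) z^N_0) - g(z^N_i)| ≤ C'' τ` for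
  `g(x, v, t) = lag2 G V x v t` (Lipschitz on bounded sets), so
  `∫_0^T g(φ t z*) dt = lim Sd2(x^N) ≤ ∫ lag2(x, u) + ε` by `disc_of_curve2`, for every `ε > 0`.
* `per_orbit2`: translate the time by `s` (`HV2.shift`), use `per_orbit2_zero`, translate back.
-/

set_option autoImplicit false

open MeasureTheory
open scoped RealInnerProductSpace

namespace Pool.Agent.H33.AN

open Pool.Agent.H33.AM

variable {n : ℕ} {G G' : EuclideanSpace ℝ (Fin n) →L[ℝ] EuclideanSpace ℝ (Fin n)} {κ₁ κ₂ : ℝ}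
  {V : EuclideanSpace ℝ (Fin n) → ℝ → ℝ}
  {F : EuclideanSpace ℝ (Fin n) → ℝ → EuclideanSpace ℝ (Fin n)}
  {Vt : EuclideanSpace ℝ (Fin n) → ℝ → ℝ} {B : ℝ} {T : ℕ}

private theorem pert_nat (hV : HV2 1 V F Vt B) (x : EuclideanSpace ℝ (Fin n)) (t : ℝ) (m : ℕ) :
    V x (t + m) = V x t := by
  induction m with
  | zero => simp
  | succ m ih =>
    have : t + ((m + 1 : ℕ) : ℝ) = t + m + 1 := by push_cast; ring
    rw [this, hV.pert, ih]

private theorem Adm_shift {s : ℝ} {x u : ℝ → EuclideanSpace ℝ (Fin n)}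
    (h : Adm s (s + T) x u) : Adm 0 T (fun t => x (t + s)) (fun t => u (t + s)) := by
  refine ⟨Nat.cast_nonneg T, ?_, ?_, ?_, ?_⟩
  · refine h.cont.comp (by fun_prop) ?_
    intro t ht
    exact ⟨by linarith [ht.1], by linarith [ht.2]⟩
  · obtain ⟨c, hc, hd⟩ := h.der
    refine ⟨(fun t => t + s) ⁻¹' c, hc.preimage (add_left_injective s), ?_⟩
    intro t ht
    have h1 : t + s ∈ Set.Ioo s (s + T) \ c :=
      ⟨⟨by linarith [ht.1.1], by linarith [ht.1.2]⟩, fun hm => ht.2 hm⟩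
    exact (hd _ h1).comp_add_const t s
  · exact h.meas.comp (measurable_id.add_const s)
  · obtain ⟨R, hR⟩ := h.bd
    exact ⟨R, fun t => hR _⟩

theorem per_orbit2 (hG : HG G κ₁ κ₂) (hV : HV2 1 V F Vt B) (hT : 0 < T) {s : ℝ}
    {x u : ℝ → EuclideanSpace ℝ (Fin n)} (h : Adm s (s + T) x u) {k : Fin n → ℤ}
    (hx : x (s + T) = x s + zv k) :
    ∃ γ v : ℝ → EuclideanSpace ℝ (Fin n), Sol2 G F γ v ∧ (∀ t, γ (t + T) = γ t + zv k) ∧
      (∀ t, v (t + T) = v t) ∧
      ∫ t in (0 : ℝ)..T, lag2 G V (γ t) (v t) t ≤ ∫ t in s..(s + T), lag2 G V (x t) (u t) t := by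
  have h' := Adm_shift h
  have hV' := hV.shift s
  have hx' : (fun t => x (t + s)) (T : ℝ) = (fun t => x (t + s)) 0 + zv k := by
    have : (T : ℝ) + s = s + T := by ring
    simp only [this, zero_add]
    exact hx
  obtain ⟨γ', v', hS, hγ, hv, hact⟩ := per_orbit2_zero hG hV' hT h' hx'
  refine ⟨fun t => γ' (t - s), fun t => v' (t - s), ⟨?_, ?_, ?_⟩, ?_, ?_, ?_⟩
  · exact hS.cont.comp (by fun_prop)
  · intro t
    exact (hS.der (t - s)).comp_sub_const t s
  · intro t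
    have h1 := (hS.el (t - s)).comp_sub_const t s
    simpa using h1
  · intro t
    have : t + (T : ℝ) - s = t - s + T := by ring
    simp only [this]
    exact hγ _
  · intro t
    have : t + (T : ℝ) - s = t - s + T := by ring
    simp only [this]
    exact hv _
  · have hper : Function.Periodic (fun t => lag2 G V (γ' (t - s)) (v' (t - s)) t) (T : ℝ) := by
      intro t
      have : t + (T : ℝ) - s = t - s + T := by ring
      simp only [this, lag2, hγ, hv, hV.per, pert_nat hV]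
    have e1 : ∫ t in (0 : ℝ)..T, lag2 G V (γ' (t - s)) (v' (t - s)) t =
        ∫ t in s..(s + T), lag2 G V (γ' (t - s)) (v' (t - s)) t := by
      have := hper.intervalIntegral_add_eq 0 s
      simpa using this
    have e2 : ∫ t in s..(s + T), lag2 G V (γ' (t - s)) (v' (t - s)) t =
        ∫ t in (0 : ℝ)..T, lag2 G (fun x t => V x (t + s)) (γ' t) (v' t) t := by
      have := intervalIntegral.integral_comp_add_right (a := 0) (b := (T : ℝ))
        (fun t => lag2 G V (γ' (t - s)) (v' (t - s)) t) s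
      rw [zero_add, add_comm (T : ℝ) s] at this
      rw [← this]
      simp [lag2]
    have e3 : ∫ t in s..(s + T), lag2 G V (x t) (u t) t =
        ∫ t in (0 : ℝ)..T, lag2 G (fun x t => V x (t + s)) (x (t + s)) (u (t + s)) t := by
      have := intervalIntegral.integral_comp_add_right (a := 0) (b := (T : ℝ))
        (fun t => lag2 G V (x t) (u t) t) s
      rw [zero_add, add_comm (T : ℝ) s] at this
      rw [← this]
      simp [lag2]
    rw [e1, e2, e3]
    exact hact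

end Pool.Agent.H33.AN
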