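import Pool.Agent.H33.AN.Orb
import Pool.Agent.H33.AN.P.X3
import Pool.Agent.H33.AN.P.I2

/-!
# Module I3: a flat of the action functional is a flat of the alpha function

(Compare `Pool/Agent/H33/AM/P/I3.lean`.) Let `c_η = c₀ + η k₀`, `α_η = E₀ + η p / Q`. For every `η ∈ [η₁, η₂]`:
`actionValues` at `c_η` is bounded below by `-α_η` (`actionValues_ge2`). Let `E' < E₀`; the closed curve with
`∫ (L - ⟪c₀, u⟫ + E') < 0`, of period `j Q`, closed modulo `k` with `dot k₀ k = j p`, gives by `per_orbit2` a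
periodic orbit `(γ, v)` with `∫ L(γ, v) ≤ ∫ L(x, u)`, and `∫ ⟪c_η, v⟫ = ⟪c_η, zv k⟫ = ⟪c₀, zv k⟫ + η j p`,
`∫ ⟪c₀, u⟫ = ⟪c₀, zv k⟫` (`Adm.integral_inner`), so the value `(1/(j Q)) ∫ (L(γ, v) - ⟪c_η, v⟫) < -E' - η p/Q` belongs
to `actionValues` at `c_η` (`mem_actionValues2`). So `alpha L c_η = α_η` for all `η ∈ [η₁, η₂]`, it is affine on
a segment, and `alpha` is not strictly convex (`zv k₀ ≠ 0`).
-/

set_option autoImplicit false

open MeasureTheory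
open scoped RealInnerProductSpace

namespace Pool.Agent.H33.AN

open Pool.Agent.H33.AM

variable {n : ℕ} {G : EuclideanSpace ℝ (Fin n) →L[ℝ] EuclideanSpace ℝ (Fin n)} {κ₁ κ₂ : ℝ}
  {V : EuclideanSpace ℝ (Fin n) → ℝ → ℝ}
  {F : EuclideanSpace ℝ (Fin n) → ℝ → EuclideanSpace ℝ (Fin n)}
  {Vt : EuclideanSpace ℝ (Fin n) → ℝ → ℝ} {B : ℝ}

private theorem I3_Vc (hV : HV2 1 V F Vt B) :
    Continuous fun z : EuclideanSpace ℝ (Fin n) × ℝ => V z.1 z.2 :=
  continuous_iff_continuousAt.mpr fun z => (hV.der z.1 z.2).continuousAt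

private theorem I3_Lc (hV : HV2 1 V F Vt B) : Continuous fun z : EuclideanSpace ℝ (Fin n) ×
    EuclideanSpace ℝ (Fin n) × ℝ => lag2 G V z.1 z.2.1 z.2.2 := by
  have h1 : Continuous fun z : EuclideanSpace ℝ (Fin n) × EuclideanSpace ℝ (Fin n) × ℝ =>
      V z.1 z.2.2 := (I3_Vc hV).comp (continuous_fst.prodMk continuous_snd.snd)
  have h2 : Continuous fun z : EuclideanSpace ℝ (Fin n) × EuclideanSpace ℝ (Fin n) × ℝ =>
      ⟪G z.2.1, z.2.1⟫ / 2 :=
    ((G.continuous.comp continuous_snd.fst).inner continuous_snd.fst).div_const 2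
  exact h2.sub h1

private theorem I3_int (hV : HV2 1 V F Vt B) {a b : ℝ} {x u : ℝ → EuclideanSpace ℝ (Fin n)}
    (h : Adm a b x u) : IntervalIntegrable (fun t => lag2 G V (x t) (u t) t) volume a b := by
  have h1 : IntervalIntegrable (fun t => ⟪G (u t), u t⟫ / 2) volume a b :=
    h.integrable (g := fun p => ⟪G p.2, p.2⟫ / 2)
      (((G.continuous.comp continuous_snd).inner continuous_snd).div_const 2)
  have h2 : IntervalIntegrable (fun t => V (x t) t) volume a b := by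
    refine ContinuousOn.intervalIntegrable ?_
    rw [Set.uIcc_of_le h.le]
    exact (I3_Vc hV).comp_continuousOn (h.cont.prodMk continuousOn_id)
  exact h1.sub h2

/-- the value of a closed curve -/
private theorem I3_curve (hV : HV2 1 V F Vt B) {s T : ℝ}
    {x u : ℝ → EuclideanSpace ℝ (Fin n)} (hx : Adm s (s + T) x u) {k : Fin n → ℤ}
    (hxT : x (s + T) = x s + zv k) (c₀ : EuclideanSpace ℝ (Fin n)) (E' : ℝ) :
    ∫ t in s..(s + T), (lag2 G V (x t) (u t) t - ⟪c₀, u t⟫ + E') =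
      (∫ t in s..(s + T), lag2 G V (x t) (u t) t) - ⟪c₀, zv k⟫ + E' * T := by
  have h7 : IntervalIntegrable (fun t => ⟪c₀, u t⟫) volume s (s + T) :=
    hx.integrable (g := fun p => ⟪c₀, p.2⟫) (continuous_const.inner continuous_snd)
  rw [intervalIntegral.integral_add ((I3_int hV hx).sub h7) (by simp),
    intervalIntegral.integral_sub (I3_int hV hx) h7, hx.integral_inner, hxT, inner_add_right]
  simp [mul_comm]

/-- the value of a closed orbit -/
private theorem I3_orbit (hV : HV2 1 V F Vt B) {γ v : ℝ → EuclideanSpace ℝ (Fin n)}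
    (hsol : Sol2 G F γ v) {T : ℝ} {k k₀ : Fin n → ℤ} (hγ : γ T = γ 0 + zv k)
    (c₀ : EuclideanSpace ℝ (Fin n)) (η : ℝ) :
    ∫ t in (0 : ℝ)..T, (lag2 G V (γ t) (v t) t - ⟪c₀ + η • zv k₀, v t⟫) =
      (∫ t in (0 : ℝ)..T, lag2 G V (γ t) (v t) t) - ⟪c₀, zv k⟫ - η * (dot k₀ k : ℝ) := by
  have hγc : Continuous γ := continuous_iff_continuousAt.2 fun t => (hsol.der t).continuousAt
  have hvc := hsol.cont
  have hLc : Continuous fun t => lag2 G V (γ t) (v t) t :=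
    (I3_Lc hV).comp (hγc.prodMk (hvc.prodMk continuous_id))
  have h1 : ∫ t in (0 : ℝ)..T, ⟪c₀ + η • zv k₀, v t⟫ = ⟪c₀, zv k⟫ + η * (dot k₀ k : ℝ) := by
    have h2 : ∫ t in (0 : ℝ)..T, ⟪c₀ + η • zv k₀, v t⟫ =
        ⟪c₀ + η • zv k₀, γ T⟫ - ⟪c₀ + η • zv k₀, γ 0⟫ := by
      apply intervalIntegral.integral_eq_sub_of_hasDerivAt
      · intro t _
        exact ((innerSL ℝ (c₀ + η • zv k₀)).hasFDerivAt.comp_hasDerivAt t (hsol.der t))
      · exact (continuous_const.inner hvc).intervalIntegrable _ _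
    rw [h2, hγ, inner_add_right, inner_add_left, inner_add_left, inner_smul_left,
      inner_smul_left, inner_zv]
    simp
  rw [intervalIntegral.integral_sub (hLc.intervalIntegrable _ _)
    ((continuous_const.inner hvc).intervalIntegrable _ _), h1]
  ring

theorem alpha_flat2 (hG : HG G κ₁ κ₂) (hV : HV2 1 V F Vt B) (h : Flat2 (lag2 G V)) :
    ∃ (k₀ : Fin n → ℤ) (c₀ : EuclideanSpace ℝ (Fin n)) (E₀ ρ η₁ η₂ : ℝ),
      k₀ ≠ 0 ∧ η₁ < η₂ ∧ ∀ η ∈ Set.Icc η₁ η₂,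
        alpha (lag2 G V) (c₀ + η • zv k₀) = E₀ + η * ρ := by
  obtain ⟨k₀, c₀, E₀, η₁, η₂, C, p, Q, hk, hη, hQ, hlow, hup⟩ := h
  refine ⟨k₀, c₀, E₀, (p : ℝ) / Q, η₁, η₂, hk, hη, fun η hη' => ?_⟩
  have hQ' : (0 : ℝ) < Q := by exact_mod_cast hQ
  have hlo : ∀ a ∈ actionValues (lag2 G V) (c₀ + η • zv k₀), -(E₀ + η * ((p : ℝ) / Q)) ≤ a :=
    fun a ha => actionValues_ge2 hG hV (hlow η hη') ha
  have hhi : ∀ E' < E₀, ∃ a ∈ actionValues (lag2 G V) (c₀ + η • zv k₀),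
      a < -(E' + η * ((p : ℝ) / Q)) := by
    intro E' hE'
    obtain ⟨j, s, x, u, k, hj, hx, hxT, hk0, hneg⟩ := hup E' hE'
    have hj' : (0 : ℝ) < j := by exact_mod_cast hj
    have hT : 0 < j * Q := Nat.mul_pos hj hQ
    have eT : ((j * Q : ℕ) : ℝ) = (j : ℝ) * Q := by push_cast; ring
    have hT' : (0 : ℝ) < ((j * Q : ℕ) : ℝ) := by exact_mod_cast hT
    rw [← eT] at hx hxT hneg
    obtain ⟨γ, v, hsol, hγ, hv, hle⟩ := per_orbit2 hG hV hT hx hxT
    refine ⟨_, mem_actionValues2 hG hV hT hsol hγ hv (c₀ + η • zv k₀), ?_⟩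
    have h3 : γ ((j * Q : ℕ) : ℝ) = γ 0 + zv k := by
      have := hγ 0
      rwa [zero_add] at this
    have hd : ((dot k₀ k : ℤ) : ℝ) = j * p := by
      rw [hk0]
      push_cast
      ring
    rw [I3_curve hV hx hxT] at hneg
    rw [I3_orbit hV hsol h3, one_div, inv_mul_lt_iff₀ hT', hd]
    have e1 : η * ((j : ℝ) * p) = ((j * Q : ℕ) : ℝ) * (η * ((p : ℝ) / Q)) := by
      rw [eT]
      field_simp
    rw [e1]
    nlinarith
  have h1 : sInf (actionValues (lag2 G V) (c₀ + η • zv k₀)) = -(E₀ + η * ((p : ℝ) / Q)) := by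
    apply le_antisymm
    · apply le_of_forall_pos_le_add
      intro ε hε
      obtain ⟨a, ha, ha'⟩ := hhi (E₀ - ε) (by linarith)
      have := csInf_le ⟨-(E₀ + η * ((p : ℝ) / Q)), fun b hb => hlo b hb⟩ ha
      linarith
    · obtain ⟨a, ha, -⟩ := hhi (E₀ - 1) (by linarith)
      exact le_csInf ⟨a, ha⟩ hlo
  unfold alpha
  rw [h1, neg_neg]

theorem not_strict_of_flat2 (hG : HG G κ₁ κ₂) (hV : HV2 1 V F Vt B) (h : Flat2 (lag2 G V)) :
    ¬ StrictConvexOn ℝ Set.univ (alpha (lag2 G V)) := by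
  obtain ⟨k₀, c₀, E₀, ρ, η₁, η₂, hk, hη, hα⟩ := alpha_flat2 hG hV h
  intro hs
  have hk' : zv k₀ ≠ 0 := by
    intro h0
    apply hk
    funext i
    have := congrArg (fun y : EuclideanSpace ℝ (Fin n) => y i) h0
    simpa [zv] using this
  have hne : c₀ + η₁ • zv k₀ ≠ c₀ + η₂ • zv k₀ := by
    intro h1
    have h2 : η₁ • zv k₀ = η₂ • zv k₀ := add_left_cancel h1
    have h3 : (η₁ - η₂) • zv k₀ = 0 := by rw [sub_smul, h2, sub_self]
    rcases smul_eq_zero.1 h3 with h4 | h4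
    · linarith
    · exact hk' h4
  have h1 := hs.2 (Set.mem_univ (c₀ + η₁ • zv k₀)) (Set.mem_univ (c₀ + η₂ • zv k₀)) hne
    (show (0 : ℝ) < 1 / 2 by norm_num) (show (0 : ℝ) < 1 / 2 by norm_num) (by norm_num)
  have h2 : (1 / 2 : ℝ) • (c₀ + η₁ • zv k₀) + (1 / 2 : ℝ) • (c₀ + η₂ • zv k₀) =
      c₀ + ((η₁ + η₂) / 2) • zv k₀ := by
    module
  rw [h2, hα _ ⟨by linarith, by linarith⟩, hα _ ⟨le_rfl, hη.le⟩, hα _ ⟨hη.le, le_rfl⟩] at h1
  simp only [smul_eq_mul] at h1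
  linarith

end Pool.Agent.H33.AN
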