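import Pool.Agent.H33.AN.P.G9

/-!
# Module J1: convexity of the minimal average action, subgradients (foliated case)

* `Ep_add`: take the leaves of both types through one point `(0, x)` (`Foliated`) and
  concatenate (`Dm_triangle`): a closed curve of type `(p + p', Q + Q')` (through `(0, x)`).
-/

set_option autoImplicit false

open MeasureTheory
open scoped RealInnerProductSpace

namespace Pool.Agent.H33.AN

variable {B : ℝ} {W W₁ W₂ : ℝ → ℝ → ℝ}

theorem Ep_add (hW : HW 1 W W₁ W₂ B) (hf : Foliated W) {p p' : ℤ} {Q Q' : ℕ} (hQ : 0 < Q)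
    (hQ' : 0 < Q') : EpQ W (p + p') (Q + Q') ≤ EpQ W p Q + EpQ W p' Q' := by
  have h1 := hf p Q hQ 0 0
  have h2 := hf p' Q' hQ' (0 + Q) (0 + p)
  have h3 := hf (p + p') (Q + Q') (by omega) 0 0
  have hQr : (0 : ℝ) < Q := by exact_mod_cast hQ
  have hQr' : (0 : ℝ) < Q' := by exact_mod_cast hQ'
  have h4 := Dm_triangle hW (r := 0) (s := 0 + Q) (t := 0 + Q + Q') (by linarith) (by linarith)
    0 (0 + p) (0 + p + p')
  have e1 : (0 : ℝ) + ((Q + Q' : ℕ) : ℝ) = 0 + Q + Q' := by push_cast; ring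
  have e2 : (0 : ℝ) + ((p + p' : ℤ) : ℝ) = 0 + p + p' := by push_cast; ring
  rw [e1, e2] at h3
  rw [← h1, ← h2, ← h3]
  exact h4

end Pool.Agent.H33.AN
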