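import Pool.Agent.H33.AN.P.G9
import Pool.Agent.H33.AN.P.J1a

/-!
# Module J1: convexity of the minimal average action, subgradients (foliated case)

* `Ep_add`: take the leaves of both types through one point `(0, x)` (`Foliated`, `leaf_exists`) and
  concatenate: a closed curve of type `(p + p', Q + Q')` (through `(0, x)`).
* `subgrad`: let `b(p, Q) = EpQ W p Q / Q`. By `Ep_mul` and `Ep_add`, `b` is a convex function of the rational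
  number `p/Q`: for `p₁/Q₁ < p/Q < p₂/Q₂` the slopes
  `(b(p, Q) - b(p₁, Q₁))/(p/Q - p₁/Q₁) ≤ (b(p₂, Q₂) - b(p, Q))/(p₂/Q₂ - p/Q)` (choose multiplicities `j₁`,
  `j₂` such that `(j₁ p₁ + j₂ p₂, j₁ Q₁ + j₂ Q₂)` is a multiple of `(p, Q)`). `c` = supremum of the left
  slopes. If `p'/Q' = p/Q` then `b(p', Q') = b(p, Q)` by `Ep_mul` (both have a common multiple).
-/

set_option autoImplicit false

open MeasureTheory
open scoped RealInnerProductSpace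

namespace Pool.Agent.H33.AN

variable {B : ℝ} {W W₁ W₂ : ℝ → ℝ → ℝ}

private theorem J1b_eq (hW : HW 1 W W₁ W₂ B) {p p' : ℤ} {Q Q' : ℕ} (hQ : 0 < Q) (hQ' : 0 < Q')
    (h : (p' : ℝ) / Q' = (p : ℝ) / Q) : EpQ W p' Q' / Q' = EpQ W p Q / Q := by
  have hQr : (0 : ℝ) < Q := by exact_mod_cast hQ
  have hQr' : (0 : ℝ) < Q' := by exact_mod_cast hQ'
  rw [div_eq_div_iff hQr'.ne' hQr.ne'] at h
  have h1 : p' * (Q : ℤ) = p * (Q' : ℤ) := by exact_mod_cast h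
  have h2 := Ep_mul (p := p') hW hQ' hQ
  have h3 := Ep_mul (p := p) hW hQ hQ'
  have h4 : ((Q : ℕ) : ℤ) * p' = ((Q' : ℕ) : ℤ) * p := by linarith
  rw [h4, Nat.mul_comm Q Q', h3] at h2
  rw [div_eq_div_iff hQr'.ne' hQr.ne']
  linarith

private theorem J1b_conv (hW : HW 1 W W₁ W₂ B) (hf : Foliated W) {p p1 p2 : ℤ} {Q Q1 Q2 : ℕ}
    (hQ : 0 < Q) (hQ1 : 0 < Q1) (hQ2 : 0 < Q2) (h1 : (p1 : ℝ) / Q1 < (p : ℝ) / Q)
    (h2 : (p : ℝ) / Q < (p2 : ℝ) / Q2) :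
    (EpQ W p Q / Q - EpQ W p1 Q1 / Q1) / ((p : ℝ) / Q - (p1 : ℝ) / Q1) ≤
      (EpQ W p2 Q2 / Q2 - EpQ W p Q / Q) / ((p2 : ℝ) / Q2 - (p : ℝ) / Q) := by
  have hQr : (0 : ℝ) < Q := by exact_mod_cast hQ
  have hQr1 : (0 : ℝ) < Q1 := by exact_mod_cast hQ1
  have hQr2 : (0 : ℝ) < Q2 := by exact_mod_cast hQ2
  have h1' : (p1 : ℝ) * Q < p * Q1 := by rwa [div_lt_div_iff₀ hQr1 hQr] at h1
  have h2' : (p : ℝ) * Q2 < p2 * Q := by rwa [div_lt_div_iff₀ hQr hQr2] at h2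
  have h1z : p1 * (Q : ℤ) < p * (Q1 : ℤ) := by exact_mod_cast h1'
  have h2z : p * (Q2 : ℤ) < p2 * (Q : ℤ) := by exact_mod_cast h2'
  obtain ⟨D1, hD1⟩ := Int.eq_ofNat_of_zero_le (a := p * Q1 - p1 * Q) (by linarith)
  obtain ⟨D2, hD2⟩ := Int.eq_ofNat_of_zero_le (a := p2 * Q - p * Q2) (by linarith)
  have hD1p : 0 < D1 := by
    have : (0 : ℤ) < (D1 : ℤ) := by linarith
    exact_mod_cast this
  have hD2p : 0 < D2 := by
    have : (0 : ℤ) < (D2 : ℤ) := by linarith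
    exact_mod_cast this
  have hN : 0 < D2 * Q1 + D1 * Q2 := by positivity
  have e1 := Ep_mul (p := p1) hW hQ1 hD2p
  have e2 := Ep_mul (p := p2) hW hQ2 hD1p
  have e3 := Ep_add (p := (D2 : ℤ) * p1) (p' := (D1 : ℤ) * p2) (Q := D2 * Q1) (Q' := D1 * Q2) hW hf
    (by positivity) (by positivity)
  rw [e1, e2] at e3
  have e4 := Ep_mul (p := (D2 : ℤ) * p1 + (D1 : ℤ) * p2) (Q := D2 * Q1 + D1 * Q2) hW hN hQ
  have e5 := Ep_mul (p := p) hW hQ hN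
  have e6 : ((Q : ℕ) : ℤ) * ((D2 : ℤ) * p1 + (D1 : ℤ) * p2) = ((D2 * Q1 + D1 * Q2 : ℕ) : ℤ) * p := by
    push_cast
    rw [← hD1, ← hD2]
    ring
  rw [e6, Nat.mul_comm Q, e5] at e4
  have hD1r : (D1 : ℝ) = p * Q1 - p1 * Q := by exact_mod_cast hD1.symm
  have hD2r : (D2 : ℝ) = p2 * Q - p * Q2 := by exact_mod_cast hD2.symm
  have hD1rp : (0 : ℝ) < D1 := by exact_mod_cast hD1p
  have hD2rp : (0 : ℝ) < D2 := by exact_mod_cast hD2p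
  have key : ((D2 : ℝ) * Q1 + D1 * Q2) * EpQ W p Q ≤
      Q * ((D2 : ℝ) * EpQ W p1 Q1 + D1 * EpQ W p2 Q2) := by
    push_cast at e4
    rw [e4]
    exact mul_le_mul_of_nonneg_left e3 hQr.le
  have r1 : (p : ℝ) / Q - (p1 : ℝ) / Q1 = D1 / (Q * Q1) := by
    rw [hD1r]
    field_simp
  have r2 : (p2 : ℝ) / Q2 - (p : ℝ) / Q = D2 / (Q * Q2) := by
    rw [hD2r]
    field_simp
  rw [r1, r2, div_le_div_iff₀ (by positivity) (by positivity)]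
  have k1 : (EpQ W p Q / Q - EpQ W p1 Q1 / Q1) * (D2 / (Q * Q2)) =
      ((D2 : ℝ) * Q1 * EpQ W p Q - Q * (D2 * EpQ W p1 Q1)) / (Q ^ 2 * Q1 * Q2) := by
    field_simp
  have k2 : (EpQ W p2 Q2 / Q2 - EpQ W p Q / Q) * (D1 / (Q * Q1)) =
      (Q * ((D1 : ℝ) * EpQ W p2 Q2) - D1 * Q2 * EpQ W p Q) / (Q ^ 2 * Q1 * Q2) := by
    field_simp
  rw [k1, k2]
  refine div_le_div_of_nonneg_right ?_ (by positivity)
  linarith

theorem subgrad (hW : HW 1 W W₁ W₂ B) (hf : Foliated W) (p : ℤ) {Q : ℕ} (hQ : 0 < Q) :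
    ∃ c : ℝ, ∀ (p' : ℤ) (Q' : ℕ), 0 < Q' →
      EpQ W p Q / Q + c * ((p' : ℝ) / Q' - (p : ℝ) / Q) ≤ EpQ W p' Q' / Q' := by
  have hQr : (0 : ℝ) < Q := by exact_mod_cast hQ
  set L : Set ℝ := {r | ∃ (p1 : ℤ) (Q1 : ℕ), 0 < Q1 ∧ (p1 : ℝ) / Q1 < (p : ℝ) / Q ∧
    r = (EpQ W p Q / Q - EpQ W p1 Q1 / Q1) / ((p : ℝ) / Q - (p1 : ℝ) / Q1)} with hL
  have hub : ∀ (p2 : ℤ) (Q2 : ℕ), 0 < Q2 → (p : ℝ) / Q < (p2 : ℝ) / Q2 →
      (EpQ W p2 Q2 / Q2 - EpQ W p Q / Q) / ((p2 : ℝ) / Q2 - (p : ℝ) / Q) ∈ upperBounds L := by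
    intro p2 Q2 hQ2 h2 r hr
    obtain ⟨p1, Q1, hQ1, h1, rfl⟩ := hr
    exact J1b_conv hW hf hQ hQ1 hQ2 h1 h2
  have hne : L.Nonempty := by
    refine ⟨_, p - 1, Q, hQ, ?_, rfl⟩
    rw [div_lt_div_iff_of_pos_right hQr]
    push_cast
    linarith
  have hbdd : BddAbove L := by
    refine ⟨_, hub (p + 1) Q hQ ?_⟩
    rw [div_lt_div_iff_of_pos_right hQr]
    push_cast
    linarith
  refine ⟨sSup L, fun p' Q' hQ' => ?_⟩
  rcases lt_trichotomy ((p' : ℝ) / Q') ((p : ℝ) / Q) with h | h | h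
  · have h1 := le_csSup hbdd (show _ ∈ L from ⟨p', Q', hQ', h, rfl⟩)
    have h2 : 0 < (p : ℝ) / Q - (p' : ℝ) / Q' := by linarith
    rw [div_le_iff₀ h2] at h1
    linarith
  · rw [h, sub_self, mul_zero, add_zero, J1b_eq hW hQ hQ' h]
  · have h1 := csSup_le hne (hub p' Q' hQ' h)
    have h2 : 0 < (p' : ℝ) / Q' - (p : ℝ) / Q := by linarith
    rw [le_div_iff₀ h2] at h1
    linarith

end Pool.Agent.H33.AN
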