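import Pool.Agent.H33.AN.P.J4

/-!
# Module J7: the translation identity

* `swap`: for doubly periodic `C¹` functions `φ`, `ψ`: `∬ φ₂ ψ₁ = ∬ φ₁ ψ₂`. For `h ≠ 0`, integration by
  parts in `t` and translation in `x` give
  `∬ φ₂(x, t) (ψ(x + h, t) - ψ(x, t))/h = -∬ φ(x, t) (ψ₂(x + h, t) - ψ₂(x, t))/h
  = -∬ (φ(x - h, t) - φ(x, t))/h ψ₂(x, t)`; let `h → 0` (uniform convergence of the difference
  quotients, as `φ₁`, `ψ₁` are uniformly continuous).
* `identity`: `φ(x, t) = u(x + δ, t) - u(x, t)`, `ψ = u' - u`, `w = v' - v`, `v̄ = (v + v')/2`. From the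
  Hamilton-Jacobi equations: `W - W^δ = φ₂ + (v^δ + v)/2 φ₁`, `w = (c' - c) + ψ₁`,
  `ψ₂ = (α' - α) - v̄ w`. So `∬ φ₂ w = ∬ φ₂ ψ₁ = ∬ φ₁ ψ₂ = -∬ φ₁ v̄ w` (`∬ φ₁ = ∬ φ₂ = 0`), and
  `∬ (W - W^δ) w = ∬ ((v^δ + v)/2 - v̄) φ₁ w = 1/2 ∬ (v^δ - v') (v^δ - v) w`.
-/

set_option autoImplicit false

open MeasureTheory
open scoped RealInnerProductSpace

namespace Pool.Agent.H33.AN

private theorem J7a_par {K K' : ℝ → ℝ → ℝ} (hK : Continuous fun z : ℝ × ℝ => K z.1 z.2)
    (hK' : Continuous fun z : ℝ × ℝ => K' z.1 z.2)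
    (hd : ∀ h x, HasDerivAt (fun s => K s x) (K' h x) h) (h : ℝ) :
    HasDerivAt (fun s => ∫ x in (0 : ℝ)..1, K s x) (∫ x in (0 : ℝ)..1, K' h x) h := by
  have hcomp : IsCompact (Set.Icc (h - 1) (h + 1) ×ˢ Set.Icc (0 : ℝ) 1) :=
    isCompact_Icc.prod isCompact_Icc
  obtain ⟨C, hC⟩ := hcomp.exists_bound_of_continuousOn hK'.continuousOn
  have hs : Set.Icc (h - 1) (h + 1) ∈ nhds h := Icc_mem_nhds (by linarith) (by linarith)
  have hc : ∀ s, Continuous fun x => K s x := fun s =>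
    hK.comp (continuous_const.prodMk continuous_id)
  have hc' : ∀ s, Continuous fun x => K' s x := fun s =>
    hK'.comp (continuous_const.prodMk continuous_id)
  refine (intervalIntegral.hasDerivAt_integral_of_dominated_loc_of_deriv_le
    (F := fun s x => K s x) (F' := fun s x => K' s x) (bound := fun _ => C) hs
    (Filter.Eventually.of_forall fun s => (hc s).aestronglyMeasurable)
    ((hc h).intervalIntegrable _ _) (hc' h).aestronglyMeasurable ?_
    (continuous_const.intervalIntegrable _ _) ?_).2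
  · refine Filter.Eventually.of_forall fun x hx s hs => ?_
    rw [Set.uIoc_of_le zero_le_one] at hx
    exact hC (s, x) ⟨hs, hx.1.le, hx.2⟩
  · exact Filter.Eventually.of_forall fun x _ s _ => hd s x

private theorem J7a_par2 {K K' : ℝ → ℝ → ℝ → ℝ}
    (hK : Continuous fun z : (ℝ × ℝ) × ℝ => K z.1.1 z.1.2 z.2)
    (hK' : Continuous fun z : (ℝ × ℝ) × ℝ => K' z.1.1 z.1.2 z.2)
    (hd : ∀ h t x, HasDerivAt (fun s => K s t x) (K' h t x) h) (h : ℝ) :
    HasDerivAt (fun s => ∫ t in (0 : ℝ)..1, ∫ x in (0 : ℝ)..1, K s t x)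
      (∫ t in (0 : ℝ)..1, ∫ x in (0 : ℝ)..1, K' h t x) h := by
  refine J7a_par (K := fun s t => ∫ x in (0 : ℝ)..1, K s t x)
    (K' := fun s t => ∫ x in (0 : ℝ)..1, K' s t x) ?_ ?_ ?_ h
  · exact intervalIntegral.continuous_parametric_intervalIntegral_of_continuous'
      (f := fun (z : ℝ × ℝ) x => K z.1 z.2 x) hK 0 1
  · exact intervalIntegral.continuous_parametric_intervalIntegral_of_continuous'
      (f := fun (z : ℝ × ℝ) x => K' z.1 z.2 x) hK' 0 1
  · intro s t
    refine J7a_par (K := fun s x => K s t x) (K' := fun s x => K' s t x) ?_ ?_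
      (fun h x => hd h t x) s
    · exact hK.comp ((continuous_fst.prodMk continuous_const).prodMk continuous_snd)
    · exact hK'.comp ((continuous_fst.prodMk continuous_const).prodMk continuous_snd)

private theorem J7a_cont {φ φ₁ φ₂ : ℝ → ℝ → ℝ}
    (hφ : ∀ x t, HasFDerivAt (fun z : ℝ × ℝ => φ z.1 z.2)
      (φ₁ x t • ContinuousLinearMap.fst ℝ ℝ ℝ + φ₂ x t • ContinuousLinearMap.snd ℝ ℝ ℝ) (x, t)) :
    Continuous fun z : ℝ × ℝ => φ z.1 z.2 := by
  rw [continuous_iff_continuousAt]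
  rintro ⟨x, t⟩
  exact (hφ x t).continuousAt

private theorem J7a_der1 {φ φ₁ φ₂ : ℝ → ℝ → ℝ}
    (hφ : ∀ x t, HasFDerivAt (fun z : ℝ × ℝ => φ z.1 z.2)
      (φ₁ x t • ContinuousLinearMap.fst ℝ ℝ ℝ + φ₂ x t • ContinuousLinearMap.snd ℝ ℝ ℝ) (x, t))
    (x t : ℝ) : HasDerivAt (fun s => φ s t) (φ₁ x t) x := by
  have h1 : HasDerivAt (fun s : ℝ => (s, t)) ((1 : ℝ), (0 : ℝ)) x :=
    (hasDerivAt_id x).prodMk (hasDerivAt_const x t)
  have h2 := (hφ x t).comp_hasDerivAt x h1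
  simpa using! h2

private theorem J7a_der2 {φ φ₁ φ₂ : ℝ → ℝ → ℝ}
    (hφ : ∀ x t, HasFDerivAt (fun z : ℝ × ℝ => φ z.1 z.2)
      (φ₁ x t • ContinuousLinearMap.fst ℝ ℝ ℝ + φ₂ x t • ContinuousLinearMap.snd ℝ ℝ ℝ) (x, t))
    (x t : ℝ) : HasDerivAt (fun s => φ x s) (φ₂ x t) t := by
  have h1 : HasDerivAt (fun s : ℝ => (x, s)) ((0 : ℝ), (1 : ℝ)) t :=
    (hasDerivAt_const t x).prodMk (hasDerivAt_id t)
  have h2 := (hφ x t).comp_hasDerivAt t h1
  simpa using! h2

theorem swap {φ ψ φ₁ φ₂ ψ₁ ψ₂ : ℝ → ℝ → ℝ}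
    (hφ : ∀ x t, HasFDerivAt (fun z : ℝ × ℝ => φ z.1 z.2)
      (φ₁ x t • ContinuousLinearMap.fst ℝ ℝ ℝ + φ₂ x t • ContinuousLinearMap.snd ℝ ℝ ℝ) (x, t))
    (hψ : ∀ x t, HasFDerivAt (fun z : ℝ × ℝ => ψ z.1 z.2)
      (ψ₁ x t • ContinuousLinearMap.fst ℝ ℝ ℝ + ψ₂ x t • ContinuousLinearMap.snd ℝ ℝ ℝ) (x, t))
    (c1 : Continuous fun z : ℝ × ℝ => φ₁ z.1 z.2) (c2 : Continuous fun z : ℝ × ℝ => φ₂ z.1 z.2)
    (c3 : Continuous fun z : ℝ × ℝ => ψ₁ z.1 z.2) (c4 : Continuous fun z : ℝ × ℝ => ψ₂ z.1 z.2)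
    (hφ1 : ∀ x t, φ (x + 1) t = φ x t) (hφ2 : ∀ x t, φ x (t + 1) = φ x t)
    (hψ1 : ∀ x t, ψ (x + 1) t = ψ x t) (hψ2 : ∀ x t, ψ x (t + 1) = ψ x t) :
    ∫ t in (0 : ℝ)..1, ∫ x in (0 : ℝ)..1, φ₂ x t * ψ₁ x t =
      ∫ t in (0 : ℝ)..1, ∫ x in (0 : ℝ)..1, φ₁ x t * ψ₂ x t := by
  have hcφ := J7a_cont hφ
  have hcψ := J7a_cont hψ
  -- `ψ₂` is periodic in `x`
  have hψ21 : ∀ x t, ψ₂ (x + 1) t = ψ₂ x t := by
    intro x t
    have h1 := J7a_der2 hψ (x + 1) t
    have h2 := J7a_der2 hψ x t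
    have e : (fun s => ψ (x + 1) s) = fun s => ψ x s := by
      funext s
      exact hψ1 x s
    rw [e] at h1
    exact h1.unique h2
  -- the functions of the translation
  set F : ℝ → ℝ := fun h => ∫ t in (0 : ℝ)..1, ∫ x in (0 : ℝ)..1, φ₂ x t * ψ (x + h) t with hF
  set G : ℝ → ℝ := fun h => ∫ t in (0 : ℝ)..1, ∫ x in (0 : ℝ)..1, φ (x - h) t * ψ₂ x t with hG
  have hFG : ∀ h, F h = -G h := by
    intro h
    -- translation in `x`
    have h1 : G h = ∫ t in (0 : ℝ)..1, ∫ x in (0 : ℝ)..1, φ x t * ψ₂ (x + h) t := by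
      rw [hG]
      refine intervalIntegral.integral_congr fun t _ => ?_
      show ∫ x in (0 : ℝ)..1, φ (x - h) t * ψ₂ x t = ∫ x in (0 : ℝ)..1, φ x t * ψ₂ (x + h) t
      have hper : Function.Periodic (fun x => φ (x - h) t * ψ₂ x t) 1 := by
        intro x
        show φ (x + 1 - h) t * ψ₂ (x + 1) t = φ (x - h) t * ψ₂ x t
        rw [hψ21, show x + 1 - h = x - h + 1 by ring, hφ1]
      have h2 := hper.intervalIntegral_add_eq 0 h
      rw [zero_add] at h2
      rw [h2]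
      have h3 := intervalIntegral.integral_comp_add_right (a := 0) (b := 1)
        (fun x => φ (x - h) t * ψ₂ x t) h
      rw [zero_add, add_comm (1 : ℝ) h] at h3
      rw [← h3]
      refine intervalIntegral.integral_congr fun x _ => ?_
      show φ (x + h - h) t * ψ₂ (x + h) t = φ x t * ψ₂ (x + h) t
      rw [add_sub_cancel_right]
    rw [h1, eq_neg_iff_add_eq_zero, hF]
    -- exchange the integrals
    have cA : Continuous fun z : ℝ × ℝ => φ₂ z.2 z.1 * ψ (z.2 + h) z.1 :=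
      (c2.comp (continuous_snd.prodMk continuous_fst)).mul
        (hcψ.comp ((continuous_snd.add continuous_const).prodMk continuous_fst))
    have cB : Continuous fun z : ℝ × ℝ => φ z.2 z.1 * ψ₂ (z.2 + h) z.1 :=
      (hcφ.comp (continuous_snd.prodMk continuous_fst)).mul
        (c4.comp ((continuous_snd.add continuous_const).prodMk continuous_fst))
    have hint : ∀ f : ℝ × ℝ → ℝ, Continuous f →
        IntegrableOn f (Set.uIoc 0 1 ×ˢ Set.uIoc 0 1) := by
      intro f hf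
      refine (hf.continuousOn.integrableOn_compact
        (isCompact_Icc.prod isCompact_Icc : IsCompact (Set.Icc (0 : ℝ) 1 ×ˢ Set.Icc (0 : ℝ) 1))).mono_set ?_
      rw [Set.uIoc_of_le zero_le_one]
      exact Set.prod_mono Set.Ioc_subset_Icc_self Set.Ioc_subset_Icc_self
    have s1 := intervalIntegral_intervalIntegral_swap
      (F := fun t x => φ₂ x t * ψ (x + h) t) (hint _ cA)
    have s2 := intervalIntegral_intervalIntegral_swap
      (F := fun t x => φ x t * ψ₂ (x + h) t) (hint _ cB)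
    show (∫ t in (0 : ℝ)..1, ∫ x in (0 : ℝ)..1, φ₂ x t * ψ (x + h) t) +
      (∫ t in (0 : ℝ)..1, ∫ x in (0 : ℝ)..1, φ x t * ψ₂ (x + h) t) = 0
    rw [s1, s2, ← intervalIntegral.integral_add]
    · have h4 : ∀ x, (∫ t in (0 : ℝ)..1, φ₂ x t * ψ (x + h) t) +
          (∫ t in (0 : ℝ)..1, φ x t * ψ₂ (x + h) t) = 0 := by
        intro x
        have i1 : IntervalIntegrable (fun t => φ₂ x t * ψ (x + h) t) volume 0 1 :=
          (cA.comp (continuous_id.prodMk continuous_const)).intervalIntegrable _ _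
        have i2 : IntervalIntegrable (fun t => φ x t * ψ₂ (x + h) t) volume 0 1 :=
          (cB.comp (continuous_id.prodMk continuous_const)).intervalIntegrable _ _
        rw [← intervalIntegral.integral_add i1 i2]
        have h5 : ∫ t in (0 : ℝ)..1, (φ₂ x t * ψ (x + h) t + φ x t * ψ₂ (x + h) t) =
            φ x 1 * ψ (x + h) 1 - φ x 0 * ψ (x + h) 0 :=
          intervalIntegral.integral_eq_sub_of_hasDerivAt
            (f := fun t => φ x t * ψ (x + h) t)
            (fun t _ => (J7a_der2 hφ x t).mul (J7a_der2 hψ (x + h) t)) (i1.add i2)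
        rw [h5]
        have h6 := hφ2 x 0
        have h7 := hψ2 (x + h) 0
        rw [zero_add] at h6 h7
        rw [h6, h7, sub_self]
      simp only [h4, intervalIntegral.integral_zero]
    · exact (intervalIntegral.continuous_parametric_intervalIntegral_of_continuous'
        (f := fun (x : ℝ) t => φ₂ x t * ψ (x + h) t)
        (cA.comp (continuous_snd.prodMk continuous_fst)) 0 1).intervalIntegrable _ _
    · exact (intervalIntegral.continuous_parametric_intervalIntegral_of_continuous'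
        (f := fun (x : ℝ) t => φ x t * ψ₂ (x + h) t)
        (cB.comp (continuous_snd.prodMk continuous_fst)) 0 1).intervalIntegrable _ _
  have dF : HasDerivAt F (∫ t in (0 : ℝ)..1, ∫ x in (0 : ℝ)..1, φ₂ x t * ψ₁ (x + 0) t) 0 := by
    refine J7a_par2 (K := fun h t x => φ₂ x t * ψ (x + h) t)
      (K' := fun h t x => φ₂ x t * ψ₁ (x + h) t) ?_ ?_ ?_ 0
    · exact (c2.comp (continuous_snd.prodMk (continuous_snd.comp continuous_fst))).mul
        (hcψ.comp ((continuous_snd.add (continuous_fst.comp continuous_fst)).prodMk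
          (continuous_snd.comp continuous_fst)))
    · exact (c2.comp (continuous_snd.prodMk (continuous_snd.comp continuous_fst))).mul
        (c3.comp ((continuous_snd.add (continuous_fst.comp continuous_fst)).prodMk
          (continuous_snd.comp continuous_fst)))
    · intro h t x
      have h1 : HasDerivAt (fun s => ψ (x + s) t) (ψ₁ (x + h) t) h :=
        HasDerivAt.comp_const_add x h (J7a_der1 hψ (x + h) t)
      exact h1.const_mul _
  have dG : HasDerivAt G (∫ t in (0 : ℝ)..1, ∫ x in (0 : ℝ)..1, -φ₁ (x - 0) t * ψ₂ x t) 0 := by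
    refine J7a_par2 (K := fun h t x => φ (x - h) t * ψ₂ x t)
      (K' := fun h t x => -φ₁ (x - h) t * ψ₂ x t) ?_ ?_ ?_ 0
    · exact (hcφ.comp ((continuous_snd.sub (continuous_fst.comp continuous_fst)).prodMk
          (continuous_snd.comp continuous_fst))).mul
        (c4.comp (continuous_snd.prodMk (continuous_snd.comp continuous_fst)))
    · exact (c1.comp ((continuous_snd.sub (continuous_fst.comp continuous_fst)).prodMk
          (continuous_snd.comp continuous_fst))).neg.mul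
        (c4.comp (continuous_snd.prodMk (continuous_snd.comp continuous_fst)))
    · intro h t x
      have h1 : HasDerivAt (fun s => φ (x - s) t) (-φ₁ (x - h) t) h :=
        HasDerivAt.comp_const_sub x h (J7a_der1 hφ (x - h) t)
      exact h1.mul_const _
  have hFG' : F = fun h => -G h := funext hFG
  rw [hFG'] at dF
  have h1 := dF.unique dG.neg
  simp only [add_zero, sub_zero] at h1
  rw [h1]
  simp only [neg_mul, intervalIntegral.integral_neg, neg_neg]

variable {B : ℝ} {W W₁ W₂ : ℝ → ℝ → ℝ} {p p' : ℤ} {Q Q' : ℕ} {c α c' α' Λ Λ' : ℝ}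
  {u v u' v' : ℝ → ℝ → ℝ}

end Pool.Agent.H33.AN
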