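import Pool.Agent.H33.AN.P.J4
import Pool.Agent.H33.AN.P.J7a

/-!
# Module J7: the translation identity

* `swap`: for doubly periodic `C¹` functions `φ`, `ψ`: `∬ φ₂ ψ₁ = ∬ φ₁ ψ₂`. For `h ≠ 0`, integration by
  parts in `t` and translation in `x` give
  `∬ φ₂(x, t) (ψ(x + h, t) - ψ(x, t))/h = -∬ φ(x, t) (ψ₂(x + h, t) - ψ₂(x, t))/h
  = -∬ (φ(x - h, t) - φ(x, t))/h ψ₂(x, t)`; let `h → 0` (uniform convergence of the difference
  quotients, as `φ₁`, `ψ₁` are uniformly continuous).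
* `identity`: `φ(x, t) = u(x + δ, t) - u(x, t)`, `ψ = u' - u`, `w = v' - v`, `v̄ = (v + v')/2`. From the
  Hamilton-Jacobi equations: `W - W^δ = φ₂ + (v^δ + v)/2 φ₁`, `w = (c' - c) + ψ₁`,
  `ψ₂ = (α' - α) - v̄ w`. So `∬ φ₂ w = ∬ φ₂ ψ₁ = ∬ φ₁ ψ₂ = -∬ φ₁ v̄ w` (`∬ φ₁ = ∬ φ₂ = 0`), and
  `∬ (W - W^δ) w = ∬ ((v^δ + v)/2 - v̄) φ₁ w = 1/2 ∬ (v^δ - v') (v^δ - v) w`.
-/

set_option autoImplicit false

open MeasureTheory
open scoped RealInnerProductSpace

namespace Pool.Agent.H33.AN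

variable {B : ℝ} {W W₁ W₂ : ℝ → ℝ → ℝ} {p p' : ℤ} {Q Q' : ℕ} {c α c' α' Λ Λ' : ℝ}
  {u v u' v' : ℝ → ℝ → ℝ}

private theorem J7b_inner {f : ℝ → ℝ → ℝ} (hf : Continuous fun z : ℝ × ℝ => f z.1 z.2) :
    Continuous fun t : ℝ => ∫ x in (0 : ℝ)..1, f x t := by
  apply intervalIntegral.continuous_parametric_intervalIntegral_of_continuous'
  exact hf.comp continuous_swap

private theorem J7b_add {f g : ℝ → ℝ → ℝ} (hf : Continuous fun z : ℝ × ℝ => f z.1 z.2)
    (hg : Continuous fun z : ℝ × ℝ => g z.1 z.2) :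
    ∫ t in (0 : ℝ)..1, ∫ x in (0 : ℝ)..1, (f x t + g x t) =
      (∫ t in (0 : ℝ)..1, ∫ x in (0 : ℝ)..1, f x t) + ∫ t in (0 : ℝ)..1, ∫ x in (0 : ℝ)..1, g x t := by
  have h1 : ∀ t : ℝ, ∫ x in (0 : ℝ)..1, (f x t + g x t) =
      (∫ x in (0 : ℝ)..1, f x t) + ∫ x in (0 : ℝ)..1, g x t := by
    intro t
    apply intervalIntegral.integral_add
    · exact (hf.comp (continuous_id.prodMk continuous_const)).intervalIntegrable _ _
    · exact (hg.comp (continuous_id.prodMk continuous_const)).intervalIntegrable _ _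
  simp_rw [h1]
  exact intervalIntegral.integral_add ((J7b_inner hf).intervalIntegrable _ _)
    ((J7b_inner hg).intervalIntegrable _ _)

private theorem J7b_const (k : ℝ) (f : ℝ → ℝ → ℝ) :
    ∫ t in (0 : ℝ)..1, ∫ x in (0 : ℝ)..1, k * f x t =
      k * ∫ t in (0 : ℝ)..1, ∫ x in (0 : ℝ)..1, f x t := by
  simp only [intervalIntegral.integral_const_mul]

private theorem J7b_shift {f : ℝ → ℝ} (hf : Continuous f) (hp : ∀ x, f (x + 1) = f x) (δ : ℝ) :
    ∫ x in (0 : ℝ)..1, (f (x + δ) - f x) = 0 := by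
  have i1 : IntervalIntegrable (fun x => f (x + δ)) volume 0 1 :=
    (hf.comp (continuous_id.add continuous_const)).intervalIntegrable _ _
  rw [intervalIntegral.integral_sub i1 (hf.intervalIntegrable _ _)]
  rw [intervalIntegral.integral_comp_add_right f δ]
  have h1 : Function.Periodic f 1 := hp
  have h2 := h1.intervalIntegral_add_eq δ 0
  rw [zero_add, add_comm (1 : ℝ) δ, h2, zero_add, sub_self]

theorem identity (hW : HW 1 W W₁ W₂ B) (h : Kam W W₁ p Q c α u v Λ)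
    (h' : Kam W W₁ p' Q' c' α' u' v' Λ') (δ : ℝ) :
    ∫ t in (0 : ℝ)..1, ∫ x in (0 : ℝ)..1, (W x t - W (x + δ) t) * (v' x t - v x t) =
      ∫ t in (0 : ℝ)..1, ∫ x in (0 : ℝ)..1, ((v (x + δ) t - (v x t + v' x t) / 2) ^ 2 -
        ((v' x t - v x t) / 2) ^ 2) * (v' x t - v x t) / 2 := by
  -- continuity
  have cont_of_lip : ∀ {g : ℝ → ℝ → ℝ} {K : ℝ},
      (∀ x t x' t', |g x t - g x' t'| ≤ K * (|x - x'| + |t - t'|)) →
      Continuous fun z : ℝ × ℝ => g z.1 z.2 := by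
    intro g K hg
    rw [continuous_iff_continuousAt]
    intro z
    have h1 : Filter.Tendsto (fun y : ℝ × ℝ => K * (|y.1 - z.1| + |y.2 - z.2|)) (nhds z) (nhds 0) := by
      have h2 : Continuous fun y : ℝ × ℝ => K * (|y.1 - z.1| + |y.2 - z.2|) := by fun_prop
      have h3 := h2.tendsto z
      simpa using h3
    rw [ContinuousAt, tendsto_iff_norm_sub_tendsto_zero]
    refine squeeze_zero (fun _ => norm_nonneg _) (fun y => ?_) h1
    rw [Real.norm_eq_abs]
    exact hg _ _ _ _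
  have cv : Continuous fun z : ℝ × ℝ => v z.1 z.2 := cont_of_lip h.lip
  have cv' : Continuous fun z : ℝ × ℝ => v' z.1 z.2 := cont_of_lip h'.lip
  have cW : Continuous fun z : ℝ × ℝ => W z.1 z.2 := by
    rw [continuous_iff_continuousAt]
    rintro ⟨x, t⟩
    exact (hW.der x t).continuousAt
  have csh : Continuous fun z : ℝ × ℝ => ((z.1 + δ, z.2) : ℝ × ℝ) := by fun_prop
  have cvs : Continuous fun z : ℝ × ℝ => v (z.1 + δ) z.2 := cv.comp csh
  have cWs : Continuous fun z : ℝ × ℝ => W (z.1 + δ) z.2 := cW.comp csh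
  -- the derivatives of the differences
  have hshift : ∀ x t, HasFDerivAt (fun z : ℝ × ℝ => u (z.1 + δ) z.2)
      ((v (x + δ) t - c) • ContinuousLinearMap.fst ℝ ℝ ℝ +
        (α - v (x + δ) t ^ 2 / 2 - W (x + δ) t) • ContinuousLinearMap.snd ℝ ℝ ℝ) (x, t) := by
    intro x t
    have hT : HasFDerivAt (fun z : ℝ × ℝ => ((z.1 + δ, z.2) : ℝ × ℝ))
        (ContinuousLinearMap.id ℝ (ℝ × ℝ)) (x, t) := by
      have h1 := (hasFDerivAt_id (𝕜 := ℝ) ((x, t) : ℝ × ℝ)).add_const ((δ, 0) : ℝ × ℝ)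
      refine h1.congr_of_eventuallyEq (Filter.Eventually.of_forall fun z => ?_)
      ext <;> simp
    have h2 := HasFDerivAt.comp (x, t) (h.fder (x + δ) t) hT
    rw [ContinuousLinearMap.comp_id] at h2
    exact h2
  have hφ : ∀ x t, HasFDerivAt (fun z : ℝ × ℝ => (fun x t => u (x + δ) t - u x t) z.1 z.2)
      ((fun x t => v (x + δ) t - v x t) x t • ContinuousLinearMap.fst ℝ ℝ ℝ +
        (fun x t => (v x t ^ 2 / 2 + W x t) - (v (x + δ) t ^ 2 / 2 + W (x + δ) t)) x t •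
          ContinuousLinearMap.snd ℝ ℝ ℝ) (x, t) := by
    intro x t
    have h1 := (hshift x t).sub (h.fder x t)
    refine h1.congr_fderiv ?_
    ext <;> simp <;> ring
  have hψ : ∀ x t, HasFDerivAt (fun z : ℝ × ℝ => (fun x t => u' x t - u x t) z.1 z.2)
      ((fun x t => (v' x t - c') - (v x t - c)) x t • ContinuousLinearMap.fst ℝ ℝ ℝ +
        (fun x t => (α' - α) - (v' x t ^ 2 - v x t ^ 2) / 2) x t •
          ContinuousLinearMap.snd ℝ ℝ ℝ) (x, t) := by
    intro x t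
    have h1 := (h'.fder x t).sub (h.fder x t)
    refine h1.congr_fderiv ?_
    ext <;> simp <;> ring
  have key := swap (φ := fun x t => u (x + δ) t - u x t) (ψ := fun x t => u' x t - u x t)
    (φ₁ := fun x t => v (x + δ) t - v x t)
    (φ₂ := fun x t => (v x t ^ 2 / 2 + W x t) - (v (x + δ) t ^ 2 / 2 + W (x + δ) t))
    (ψ₁ := fun x t => (v' x t - c') - (v x t - c))
    (ψ₂ := fun x t => (α' - α) - (v' x t ^ 2 - v x t ^ 2) / 2)
    hφ hψ (by fun_prop) (by fun_prop) (by fun_prop) (by fun_prop)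
    (fun x t => by
      show u (x + 1 + δ) t - u (x + 1) t = u (x + δ) t - u x t
      rw [show x + 1 + δ = x + δ + 1 by ring, h.per₁, h.per₁])
    (fun x t => by
      show u (x + δ) (t + 1) - u x (t + 1) = u (x + δ) t - u x t
      rw [h.per₂, h.per₂])
    (fun x t => by
      show u' (x + 1) t - u (x + 1) t = u' x t - u x t
      rw [h'.per₁, h.per₁])
    (fun x t => by
      show u' x (t + 1) - u x (t + 1) = u' x t - u x t
      rw [h'.per₂, h.per₂])
  -- zero means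
  have z1 : ∫ t in (0 : ℝ)..1, ∫ x in (0 : ℝ)..1, (v (x + δ) t - v x t) = 0 := by
    have h1 : ∀ t : ℝ, ∫ x in (0 : ℝ)..1, (v (x + δ) t - v x t) = 0 := fun t =>
      J7b_shift (f := fun x => v x t) (cv.comp (continuous_id.prodMk continuous_const))
        (fun x => h.vper₁ x t) δ
    simp only [h1, intervalIntegral.integral_zero]
  have z2 : ∫ t in (0 : ℝ)..1, ∫ x in (0 : ℝ)..1,
      ((v x t ^ 2 / 2 + W x t) - (v (x + δ) t ^ 2 / 2 + W (x + δ) t)) = 0 := by
    have h1 : ∀ t : ℝ, ∫ x in (0 : ℝ)..1,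
        ((v x t ^ 2 / 2 + W x t) - (v (x + δ) t ^ 2 / 2 + W (x + δ) t)) = 0 := by
      intro t
      have c1 : Continuous fun x => v x t ^ 2 / 2 + W x t := by
        have c2 : Continuous fun x => v x t := cv.comp (continuous_id.prodMk continuous_const)
        have c3 : Continuous fun x => W x t := cW.comp (continuous_id.prodMk continuous_const)
        fun_prop
      have h2 := J7b_shift (f := fun x => v x t ^ 2 / 2 + W x t) c1
        (fun x => by simp only [h.vper₁, hW.per₁]) δ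
      have h3 : ∫ x in (0 : ℝ)..1,
          ((v x t ^ 2 / 2 + W x t) - (v (x + δ) t ^ 2 / 2 + W (x + δ) t)) =
          ∫ x in (0 : ℝ)..1, -((v (x + δ) t ^ 2 / 2 + W (x + δ) t) - (v x t ^ 2 / 2 + W x t)) := by
        apply intervalIntegral.integral_congr
        intro x _
        ring
      rw [h3, intervalIntegral.integral_neg, h2, neg_zero]
    simp only [h1, intervalIntegral.integral_zero]
  -- the left side
  have eL : ∫ t in (0 : ℝ)..1, ∫ x in (0 : ℝ)..1, (W x t - W (x + δ) t) * (v' x t - v x t) =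
      ((c' - c) * (∫ t in (0 : ℝ)..1, ∫ x in (0 : ℝ)..1,
        ((v x t ^ 2 / 2 + W x t) - (v (x + δ) t ^ 2 / 2 + W (x + δ) t)))) +
      (∫ t in (0 : ℝ)..1, ∫ x in (0 : ℝ)..1,
        ((v x t ^ 2 / 2 + W x t) - (v (x + δ) t ^ 2 / 2 + W (x + δ) t)) *
          ((v' x t - c') - (v x t - c))) +
      ∫ t in (0 : ℝ)..1, ∫ x in (0 : ℝ)..1,
        (v (x + δ) t ^ 2 - v x t ^ 2) / 2 * (v' x t - v x t) := by
    rw [← J7b_const, ← J7b_add (by fun_prop) (by fun_prop), ← J7b_add (by fun_prop) (by fun_prop)]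
    apply intervalIntegral.integral_congr
    intro t _
    apply intervalIntegral.integral_congr
    intro x _
    ring
  have eR : ∫ t in (0 : ℝ)..1, ∫ x in (0 : ℝ)..1, ((v (x + δ) t - (v x t + v' x t) / 2) ^ 2 -
        ((v' x t - v x t) / 2) ^ 2) * (v' x t - v x t) / 2 =
      (-(α' - α) * (∫ t in (0 : ℝ)..1, ∫ x in (0 : ℝ)..1, (v (x + δ) t - v x t))) +
      (∫ t in (0 : ℝ)..1, ∫ x in (0 : ℝ)..1,
        (v (x + δ) t - v x t) * ((α' - α) - (v' x t ^ 2 - v x t ^ 2) / 2)) +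
      ∫ t in (0 : ℝ)..1, ∫ x in (0 : ℝ)..1,
        (v (x + δ) t ^ 2 - v x t ^ 2) / 2 * (v' x t - v x t) := by
    rw [← J7b_const, ← J7b_add (by fun_prop) (by fun_prop), ← J7b_add (by fun_prop) (by fun_prop)]
    apply intervalIntegral.integral_congr
    intro t _
    apply intervalIntegral.integral_congr
    intro x _
    ring
  rw [eL, eR, z1, z2, key, mul_zero, mul_zero]

end Pool.Agent.H33.AN
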