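import Pool.Agent.H33.AN.P.J4

/-!
# Module J8: the graphs are flat at infinity

Let `⟨W⟩` be the mean of `W` over `[0, 1]²`, `W̄(t)` the mean over `x`, `W̃ = W - W̄`.
* Integrate the Hamilton-Jacobi equation over `[0, 1]²` (`∬ ∂ₜu = 0`, `∫ v dx = c`):
  `α = c²/2 + 1/2 ∬ (v - c)² + ⟨W⟩`.
* `α ≤ max (1/2 (c + ψₓ)² + ψₜ + W)` for every doubly periodic `C¹` function `ψ`: for a leaf `γ`, `ν` of type
  `(p, Q)`: `α Q = c p - A1 W 0 Q γ ν = ∫ (c ν - ν²/2 + W(γ)) = ∫ ((c + ψₓ) ν - ν²/2 + ψₜ + W)`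
  `≤ ∫ (1/2 (c + ψₓ)² + ψₜ + W)`.
* `ψ(x, t) = -(1/c) Θ(x, t) - χ(t)`, `Θ(x, t) = ∫_0^x W̃(y, t) dy`, `χ(t) = ∫_0^t (W̄ - ⟨W⟩)`:
  `1/2 (c + ψₓ)² + ψₜ + W = c²/2 + ⟨W⟩ + W̃²/(2 c²) - Θₜ/c ≤ c²/2 + ⟨W⟩ + 2 B²/c² + 2 B/|c|`.
-/

set_option autoImplicit false

open MeasureTheory
open scoped RealInnerProductSpace

namespace Pool.Agent.H33.AN

variable {B : ℝ} {W W₁ W₂ : ℝ → ℝ → ℝ}

private theorem j8_cW (hW : HW 1 W W₁ W₂ B) : Continuous fun z : ℝ × ℝ => W z.1 z.2 :=
  continuous_iff_continuousAt.2 fun z => (hW.der z.1 z.2).continuousAt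

private theorem j8_cW₁ (hW : HW 1 W W₁ W₂ B) : Continuous fun z : ℝ × ℝ => W₁ z.1 z.2 := by
  have hB := hW.nonneg
  have h : LipschitzWith ⟨2 * B, by positivity⟩ fun z : ℝ × ℝ => W₁ z.1 z.2 := by
    refine LipschitzWith.of_dist_le_mul fun z z' => ?_
    have h1 : |z.1 - z'.1| ≤ dist z z' := le_max_left (dist z.1 z'.1) (dist z.2 z'.2)
    have h2 : |z.2 - z'.2| ≤ dist z z' := le_max_right (dist z.1 z'.1) (dist z.2 z'.2)
    refine (hW.lip z.1 z.2 z'.1 z'.2).trans ?_
    show B * (|z.1 - z'.1| + |z.2 - z'.2|) ≤ 2 * B * dist z z'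
    have h3 := mul_le_mul_of_nonneg_left (add_le_add h1 h2) hB
    linarith
  exact h.continuous

private theorem j8_cv {p : ℤ} {Q : ℕ} {c α Λ : ℝ} {u v : ℝ → ℝ → ℝ}
    (h : Kam W W₁ p Q c α u v Λ) : Continuous fun z : ℝ × ℝ => v z.1 z.2 := by
  have hΛ : 0 ≤ Λ := (abs_nonneg _).trans (h.vbd 0 0)
  have h : LipschitzWith ⟨2 * Λ, by positivity⟩ fun z : ℝ × ℝ => v z.1 z.2 := by
    refine LipschitzWith.of_dist_le_mul fun z z' => ?_
    have h1 : |z.1 - z'.1| ≤ dist z z' := le_max_left (dist z.1 z'.1) (dist z.2 z'.2)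
    have h2 : |z.2 - z'.2| ≤ dist z z' := le_max_right (dist z.1 z'.1) (dist z.2 z'.2)
    refine (h.lip z.1 z.2 z'.1 z'.2).trans ?_
    show Λ * (|z.1 - z'.1| + |z.2 - z'.2|) ≤ 2 * Λ * dist z z'
    have h3 := mul_le_mul_of_nonneg_left (add_le_add h1 h2) hΛ
    linarith
  exact h.continuous

/-- Derivative of a parametric integral. -/
private theorem j8_param {G G' : ℝ → ℝ → ℝ} (hG : ∀ t s, HasDerivAt (fun t => G t s) (G' t s) t)
    (hc : Continuous fun z : ℝ × ℝ => G z.1 z.2) (hc' : Continuous fun z : ℝ × ℝ => G' z.1 z.2)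
    (t : ℝ) :
    HasDerivAt (fun t => ∫ s in (0 : ℝ)..1, G t s) (∫ s in (0 : ℝ)..1, G' t s) t := by
  have hK : IsCompact (Set.Icc (t - 1) (t + 1) ×ˢ Set.Icc (0 : ℝ) 1) :=
    isCompact_Icc.prod isCompact_Icc
  obtain ⟨C, hC⟩ := hK.exists_bound_of_continuousOn hc'.continuousOn
  have hs : ∀ t, Continuous fun s => G t s := fun t => hc.comp (continuous_const.prodMk continuous_id)
  have hs' : ∀ t, Continuous fun s => G' t s := fun t =>
    hc'.comp (continuous_const.prodMk continuous_id)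
  refine (intervalIntegral.hasDerivAt_integral_of_dominated_loc_of_deriv_le (F := G) (F' := G')
    (s := Set.Icc (t - 1) (t + 1)) (bound := fun _ => C) (Icc_mem_nhds (by linarith) (by linarith))
    (Filter.Eventually.of_forall fun t => (hs t).aestronglyMeasurable)
    ((hs t).intervalIntegrable _ _) (hs' t).aestronglyMeasurable
    (Filter.Eventually.of_forall fun s hs1 x hx => ?_) intervalIntegrable_const
    (Filter.Eventually.of_forall fun s _ x _ => hG x s)).2
  rw [Set.uIoc_of_le zero_le_one] at hs1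
  exact hC (x, s) ⟨hx, hs1.1.le, hs1.2⟩

/-- Mean over `x`. -/
private noncomputable def j8_b (W : ℝ → ℝ → ℝ) (t : ℝ) : ℝ := ∫ y in (0 : ℝ)..1, W y t

private theorem j8_cb (hW : HW 1 W W₁ W₂ B) : Continuous (j8_b W) := by
  have h : Continuous (Function.uncurry fun (t y : ℝ) => W y t) :=
    (j8_cW hW).comp (continuous_snd.prodMk continuous_fst)
  exact intervalIntegral.continuous_parametric_intervalIntegral_of_continuous' h 0 1

private theorem j8_abs_b (hW : HW 1 W W₁ W₂ B) (t : ℝ) : |j8_b W t| ≤ B := by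
  have h := intervalIntegral.norm_integral_le_of_norm_le_const (a := (0 : ℝ)) (b := 1)
    (f := fun y => W y t) (C := B) fun y _ => hW.bd y t
  simpa [j8_b] using h

private theorem j8_mean (hW : HW 1 W W₁ W₂ B) (x t : ℝ) :
    ∫ s in (0 : ℝ)..1, W (x + s) t = j8_b W t := by
  rw [intervalIntegral.integral_comp_add_left (fun y => W y t) x]
  have hp : Function.Periodic (fun y => W y t) 1 := fun y => hW.per₁ y t
  have h := hp.intervalIntegral_add_eq x 0
  rw [zero_add] at h
  rw [add_zero]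
  exact h

private theorem j8_dx (hW : HW 1 W W₁ W₂ B) (x t : ℝ) :
    HasDerivAt (fun y => W y t) (W₁ x t) x := by
  have h1 : HasDerivAt (fun y : ℝ => (y, t)) ((1 : ℝ), (0 : ℝ)) x :=
    (hasDerivAt_id x).prodMk (hasDerivAt_const x t)
  have h2 := HasFDerivAt.comp_hasDerivAt (f := fun y : ℝ => (y, t)) x (hW.der x t) h1
  have h3 : (W₁ x t • ContinuousLinearMap.fst ℝ ℝ ℝ + W₂ x t • ContinuousLinearMap.snd ℝ ℝ ℝ)
      ((1 : ℝ), (0 : ℝ)) = W₁ x t := by simp
  rw [h3] at h2
  exact h2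

private theorem j8_key (hW : HW 1 W W₁ W₂ B) (x t : ℝ) :
    ∫ s in (0 : ℝ)..1, (s - 1 / 2) * W₁ (x + s) t = W x t - j8_b W t := by
  have hc0 : Continuous fun s => W (x + s) t :=
    (j8_cW hW).comp ((continuous_const.add continuous_id).prodMk continuous_const)
  have hc1 : Continuous fun s => (s - 1 / 2) * W₁ (x + s) t :=
    (continuous_id.sub continuous_const).mul
      ((j8_cW₁ hW).comp ((continuous_const.add continuous_id).prodMk continuous_const))
  have hd : ∀ s, HasDerivAt (fun s => (s - 1 / 2) * W (x + s) t)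
      (W (x + s) t + (s - 1 / 2) * W₁ (x + s) t) s := by
    intro s
    have h1 : HasDerivAt (fun s => W (x + s) t) (W₁ (x + s) t) s :=
      (j8_dx hW (x + s) t).comp_const_add x s
    have h2 := ((hasDerivAt_id s).sub_const (1 / 2)).mul h1
    rw [one_mul] at h2
    exact h2
  have h1 : ∫ s in (0 : ℝ)..1, (W (x + s) t + (s - 1 / 2) * W₁ (x + s) t) =
      (1 - 1 / 2) * W (x + 1) t - (0 - 1 / 2) * W (x + 0) t :=
    intervalIntegral.integral_eq_sub_of_hasDerivAt (fun s _ => hd s)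
      ((hc0.add hc1).intervalIntegrable _ _)
  rw [intervalIntegral.integral_add (hc0.intervalIntegrable _ _) (hc1.intervalIntegrable _ _),
    j8_mean hW, hW.per₁, add_zero] at h1
  linarith

/-- The upper bound of `α` from a leaf. -/
private theorem j8_upper (hW : HW 1 W W₁ W₂ B) {p : ℤ} {Q : ℕ} {c α Λ : ℝ} {u v : ℝ → ℝ → ℝ}
    (hQ : 0 < Q) (h : Kam W W₁ p Q c α u v Λ) (hc : 1 ≤ |c|) :
    α ≤ c ^ 2 / 2 + (∫ t in (0 : ℝ)..1, j8_b W t) + (2 * B ^ 2 / c ^ 2 + B / |c|) := by
  obtain ⟨γ, ν, hL, -, -⟩ := h.leaf 0 0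
  have hB := hW.nonneg
  have hQ0 : (0 : ℝ) < Q := by exact_mod_cast hQ
  have hc0 : c ≠ 0 := fun h0 => by rw [h0, abs_zero] at hc; linarith
  have hγ : Continuous γ := continuous_iff_continuousAt.2 fun t => (hL.ext.der t).continuousAt
  have hν : Continuous ν := continuous_iff_continuousAt.2 fun t => (hL.ext.el t).continuousAt
  have hQp : γ Q = γ 0 + p := by
    have := hL.per 0
    rwa [zero_add] at this
  -- periodicity with integers
  have hp1 : ∀ (x t : ℝ) (k : ℤ), W (x + k) t = W x t := by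
    intro x t k
    have h1 : Function.Periodic (fun x => W x t) 1 := fun x => hW.per₁ x t
    have h2 := h1.int_mul k x
    rwa [mul_one] at h2
  have hp2 : ∀ (x : ℝ) (k : ℕ), W x (k : ℝ) = W x 0 := by
    intro x k
    have h1 : Function.Periodic (fun t => W x t) 1 := fun t => hW.per₂ x t
    have h2 := h1.nat_mul k 0
    rwa [mul_one, zero_add] at h2
  -- the function θ
  have hcG : Continuous fun z : ℝ × ℝ => (z.2 - 1 / 2) * W (γ z.1 + z.2) z.1 :=
    (continuous_snd.sub continuous_const).mul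
      ((j8_cW hW).comp (((hγ.comp continuous_fst).add continuous_snd).prodMk continuous_fst))
  have hcG' : Continuous fun z : ℝ × ℝ =>
      (z.2 - 1 / 2) * (W₁ (γ z.1 + z.2) z.1 * ν z.1 + W₂ (γ z.1 + z.2) z.1) :=
    (continuous_snd.sub continuous_const).mul
      ((((j8_cW₁ hW).comp (((hγ.comp continuous_fst).add continuous_snd).prodMk
        continuous_fst)).mul (hν.comp continuous_fst)).add
        (hW.cont₂.comp (((hγ.comp continuous_fst).add continuous_snd).prodMk continuous_fst)))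
  have hθ : ∀ t, HasDerivAt (fun t => ∫ s in (0 : ℝ)..1, (s - 1 / 2) * W (γ t + s) t)
      (∫ s in (0 : ℝ)..1, (s - 1 / 2) * (W₁ (γ t + s) t * ν t + W₂ (γ t + s) t)) t := by
    intro t
    refine j8_param (G := fun t s => (s - 1 / 2) * W (γ t + s) t)
      (G' := fun t s => (s - 1 / 2) * (W₁ (γ t + s) t * ν t + W₂ (γ t + s) t))
      (fun t s => ?_) hcG hcG' t
    have h1 : HasDerivAt (fun t => (γ t + s, t)) (ν t, (1 : ℝ)) t :=
      ((hL.ext.der t).add_const s).prodMk (hasDerivAt_id t)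
    have h2 := HasFDerivAt.comp_hasDerivAt (f := fun t : ℝ => (γ t + s, t)) t
      (hW.der (γ t + s) t) h1
    have h3 : (W₁ (γ t + s) t • ContinuousLinearMap.fst ℝ ℝ ℝ + W₂ (γ t + s) t •
        ContinuousLinearMap.snd ℝ ℝ ℝ) (ν t, (1 : ℝ)) = W₁ (γ t + s) t * ν t + W₂ (γ t + s) t := by
      simp
    rw [h3] at h2
    exact h2.const_mul (s - 1 / 2)
  set R : ℝ → ℝ := fun t => ∫ s in (0 : ℝ)..1, (s - 1 / 2) * W₂ (γ t + s) t with hR
  have hcR0 : Continuous fun z : ℝ × ℝ => (z.2 - 1 / 2) * W₂ (γ z.1 + z.2) z.1 :=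
    (continuous_snd.sub continuous_const).mul
      (hW.cont₂.comp (((hγ.comp continuous_fst).add continuous_snd).prodMk continuous_fst))
  have hcR : Continuous R :=
    intervalIntegral.continuous_parametric_intervalIntegral_of_continuous'
      (f := fun t s => (s - 1 / 2) * W₂ (γ t + s) t) hcR0 0 1
  have hθ' : ∀ t, ∫ s in (0 : ℝ)..1, (s - 1 / 2) * (W₁ (γ t + s) t * ν t + W₂ (γ t + s) t) =
      ν t * (W (γ t) t - j8_b W t) + R t := by
    intro t
    have c1 : Continuous fun s => (s - 1 / 2) * W₁ (γ t + s) t :=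
      (continuous_id.sub continuous_const).mul
        ((j8_cW₁ hW).comp ((continuous_const.add continuous_id).prodMk continuous_const))
    have c2 : Continuous fun s => (s - 1 / 2) * W₂ (γ t + s) t :=
      (continuous_id.sub continuous_const).mul
        (hW.cont₂.comp ((continuous_const.add continuous_id).prodMk continuous_const))
    have e : ∀ s, (s - 1 / 2) * (W₁ (γ t + s) t * ν t + W₂ (γ t + s) t) =
        ν t * ((s - 1 / 2) * W₁ (γ t + s) t) + (s - 1 / 2) * W₂ (γ t + s) t := fun s => by ring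
    simp_rw [e]
    rw [intervalIntegral.integral_add ((c1.intervalIntegrable _ _).const_mul _)
      (c2.intervalIntegrable _ _), intervalIntegral.integral_const_mul, j8_key hW]
  have hcb := j8_cb hW
  have hWγ : Continuous fun t => W (γ t) t := (j8_cW hW).comp (hγ.prodMk continuous_id)
  have hcθ' : Continuous fun t => ν t * (W (γ t) t - j8_b W t) + R t :=
    (hν.mul (hWγ.sub hcb)).add hcR
  have I0 : ∫ t in (0 : ℝ)..Q, (ν t * (W (γ t) t - j8_b W t) + R t) = 0 := by
    have h1 : ∫ t in (0 : ℝ)..Q, (ν t * (W (γ t) t - j8_b W t) + R t) =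
        (∫ s in (0 : ℝ)..1, (s - 1 / 2) * W (γ Q + s) Q) -
          ∫ s in (0 : ℝ)..1, (s - 1 / 2) * W (γ 0 + s) 0 :=
      intervalIntegral.integral_eq_sub_of_hasDerivAt
        (fun t _ => by have := hθ t; rwa [hθ' t] at this) (hcθ'.intervalIntegrable _ _)
    have h2 : ∀ s, W (γ Q + s) Q = W (γ 0 + s) 0 := by
      intro s
      rw [hQp, hp2]
      have e : γ 0 + p + s = (γ 0 + s) + (p : ℤ) := by ring
      rw [e, hp1]
    simp_rw [h2] at h1
    rw [h1, sub_self]
  have I1 : ∫ t in (0 : ℝ)..Q, c * ν t = c * p := by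
    rw [intervalIntegral.integral_const_mul,
      intervalIntegral.integral_eq_sub_of_hasDerivAt (fun t _ => hL.ext.der t)
        (hν.intervalIntegrable _ _), hQp]
    ring
  have I2 : ∫ t in (0 : ℝ)..Q, (ν t ^ 2 / 2 - W (γ t) t) = EpQ W p Q := by
    have := hL.act 0
    rw [zero_add] at this
    exact this
  have I3 : ∫ t in (0 : ℝ)..Q, j8_b W t = Q * ∫ t in (0 : ℝ)..1, j8_b W t := by
    have hp : Function.Periodic (j8_b W) 1 := fun t => by
      unfold j8_b
      simp_rw [hW.per₂]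
    have h1 := hp.intervalIntegral_add_zsmul_eq (Q : ℤ) 0
      (fun a b => hcb.intervalIntegrable a b)
    simpa using h1
  have c1 : Continuous fun t => c * ν t := continuous_const.mul hν
  have c2 : Continuous fun t => ν t ^ 2 / 2 - W (γ t) t := ((hν.pow 2).div_const 2).sub hWγ
  have I0' : ∫ t in (0 : ℝ)..Q, 1 / c * (ν t * (W (γ t) t - j8_b W t) + R t) = 0 := by
    rw [intervalIntegral.integral_const_mul, I0, mul_zero]
  have c12 : Continuous fun t => c * ν t - (ν t ^ 2 / 2 - W (γ t) t) := c1.sub c2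
  have hα : α * Q = c * p - EpQ W p Q := by
    rw [h.alpha]
    field_simp
  have hsum : α * Q = ∫ t in (0 : ℝ)..Q, (c * ν t - (ν t ^ 2 / 2 - W (γ t) t) -
      (1 / c) * (ν t * (W (γ t) t - j8_b W t) + R t)) := by
    rw [intervalIntegral.integral_sub (c12.intervalIntegrable _ _)
      ((hcθ'.intervalIntegrable _ _).const_mul _),
      intervalIntegral.integral_sub (c1.intervalIntegrable _ _) (c2.intervalIntegrable _ _),
      I0', I1, I2, hα]
    ring
  have hle : ∫ t in (0 : ℝ)..Q, (c * ν t - (ν t ^ 2 / 2 - W (γ t) t) -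
      (1 / c) * (ν t * (W (γ t) t - j8_b W t) + R t)) ≤
      ∫ t in (0 : ℝ)..Q, (j8_b W t + (c ^ 2 / 2 + (2 * B ^ 2 / c ^ 2 + B / |c|))) := by
    refine intervalIntegral.integral_mono_on hQ0.le
      (((c1.sub c2).sub (continuous_const.mul hcθ')).intervalIntegrable _ _)
      ((hcb.add continuous_const).intervalIntegrable _ _) fun t _ => ?_
    have hRb : |R t| ≤ B := by
      have h1 := intervalIntegral.norm_integral_le_of_norm_le_const (a := (0 : ℝ)) (b := 1)
        (f := fun s => (s - 1 / 2) * W₂ (γ t + s) t) (C := B) fun s hs => by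
          rw [Set.uIoc_of_le zero_le_one] at hs
          rw [Real.norm_eq_abs, abs_mul]
          have h2 : |s - 1 / 2| ≤ 1 := abs_le.2 ⟨by linarith [hs.1], by linarith [hs.2]⟩
          calc |s - 1 / 2| * |W₂ (γ t + s) t| ≤ 1 * B :=
                mul_le_mul h2 (hW.bd₂ _ _) (abs_nonneg _) zero_le_one
            _ = B := one_mul B
      simpa [hR] using h1
    have hw : |W (γ t) t - j8_b W t| ≤ 2 * B := by
      have h1 := hW.bd (γ t) t
      have h2 := j8_abs_b hW t
      rw [abs_le] at h1 h2 ⊢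
      constructor <;> linarith [h1.1, h1.2, h2.1, h2.2]
    set w := W (γ t) t - j8_b W t with hwdef
    have e1 : W (γ t) t = w + j8_b W t := by rw [hwdef]; ring
    have h3 : w ^ 2 ≤ 4 * B ^ 2 := by
      have := sq_le_sq' (by linarith [(abs_le.1 hw).1]) (abs_le.1 hw).2
      nlinarith
    have h4 : -(1 / c * R t) ≤ B / |c| := by
      calc -(1 / c * R t) ≤ |1 / c * R t| := neg_le_abs _
        _ = |R t| / |c| := by rw [abs_mul, abs_div, abs_one]; ring
        _ ≤ B / |c| := by gcongr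
    have h5 : w ^ 2 / (2 * c ^ 2) ≤ 2 * B ^ 2 / c ^ 2 := by
      rw [div_le_div_iff₀ (by positivity) (by positivity)]
      nlinarith [sq_nonneg c, mul_nonneg (sq_nonneg c) (sub_nonneg.2 h3)]
    have h6 : (c - w / c) * ν t - ν t ^ 2 / 2 ≤ c ^ 2 / 2 - w + w ^ 2 / (2 * c ^ 2) := by
      have e2 : c ^ 2 / 2 - w + w ^ 2 / (2 * c ^ 2) = (c - w / c) ^ 2 / 2 := by
        field_simp
        ring
      rw [e2]
      nlinarith [sq_nonneg (c - w / c - ν t)]
    have e3 : c * ν t - (ν t ^ 2 / 2 - W (γ t) t) - 1 / c * (ν t * w + R t) =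
        ((c - w / c) * ν t - ν t ^ 2 / 2) + (w + j8_b W t) + -(1 / c * R t) := by
      rw [← e1]
      ring
    rw [e3]
    linarith
  rw [← hsum, intervalIntegral.integral_add (hcb.intervalIntegrable _ _)
    intervalIntegrable_const, I3, intervalIntegral.integral_const, sub_zero, smul_eq_mul] at hle
  have hle' : α * Q ≤ (c ^ 2 / 2 + (∫ t in (0 : ℝ)..1, j8_b W t) +
      (2 * B ^ 2 / c ^ 2 + B / |c|)) * Q := by linarith
  exact le_of_mul_le_mul_right hle' hQ0

/-- The integrated Hamilton-Jacobi equation. -/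
private theorem j8_hj (hW : HW 1 W W₁ W₂ B) {p : ℤ} {Q : ℕ} {c α Λ : ℝ} {u v : ℝ → ℝ → ℝ}
    (h : Kam W W₁ p Q c α u v Λ) :
    ∫ t in (0 : ℝ)..1, ∫ x in (0 : ℝ)..1, (v x t - c) ^ 2 =
      2 * (α - c ^ 2 / 2 - ∫ t in (0 : ℝ)..1, j8_b W t) := by
  have hcv := j8_cv h
  have hcu : Continuous fun z : ℝ × ℝ => u z.1 z.2 :=
    continuous_iff_continuousAt.2 fun z => (h.fder z.1 z.2).continuousAt
  have hcW := j8_cW hW
  have hcb := j8_cb hW
  have hsw : Continuous fun z : ℝ × ℝ => (z.2, z.1) := continuous_snd.prodMk continuous_fst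
  have hI : ∀ t, HasDerivAt (fun t => ∫ x in (0 : ℝ)..1, u x t)
      (∫ x in (0 : ℝ)..1, (α - v x t ^ 2 / 2 - W x t)) t := by
    intro t
    refine j8_param (G := fun t x => u x t) (G' := fun t x => α - v x t ^ 2 / 2 - W x t)
      (fun t x => ?_) (hcu.comp hsw)
      ((continuous_const.sub (((hcv.comp hsw).pow 2).div_const 2)).sub (hcW.comp hsw)) t
    have h1 : HasDerivAt (fun t : ℝ => (x, t)) ((0 : ℝ), (1 : ℝ)) t :=
      (hasDerivAt_const t x).prodMk (hasDerivAt_id t)
    have h2 := HasFDerivAt.comp_hasDerivAt (f := fun t : ℝ => (x, t)) t (h.fder x t) h1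
    have h3 : ((v x t - c) • ContinuousLinearMap.fst ℝ ℝ ℝ + (α - v x t ^ 2 / 2 - W x t) •
        ContinuousLinearMap.snd ℝ ℝ ℝ) ((0 : ℝ), (1 : ℝ)) = α - v x t ^ 2 / 2 - W x t := by simp
    rw [h3] at h2
    exact h2
  have hx : ∀ t, ∫ x in (0 : ℝ)..1, (α - v x t ^ 2 / 2 - W x t) =
      (α - c ^ 2 / 2) - 1 / 2 * (∫ x in (0 : ℝ)..1, (v x t - c) ^ 2) - j8_b W t := by
    intro t
    have cv : Continuous fun x => v x t := hcv.comp (continuous_id.prodMk continuous_const)
    have cw : Continuous fun x => W x t := hcW.comp (continuous_id.prodMk continuous_const)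
    have e : ∀ x, α - v x t ^ 2 / 2 - W x t =
        ((α + c ^ 2 / 2) - 1 / 2 * (v x t - c) ^ 2 - c * v x t) - W x t := fun x => by ring
    simp_rw [e]
    have i1 : IntervalIntegrable (fun x => (v x t - c) ^ 2) volume 0 1 :=
      ((cv.sub continuous_const).pow 2).intervalIntegrable _ _
    have i2 : IntervalIntegrable (fun x => v x t) volume 0 1 := cv.intervalIntegrable _ _
    rw [intervalIntegral.integral_sub ((intervalIntegrable_const.sub (i1.const_mul _)).sub
      (i2.const_mul _)) (cw.intervalIntegrable _ _),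
      intervalIntegral.integral_sub (intervalIntegrable_const.sub (i1.const_mul _))
        (i2.const_mul _), intervalIntegral.integral_sub intervalIntegrable_const (i1.const_mul _),
      intervalIntegral.integral_const_mul, intervalIntegral.integral_const_mul, kam_mean h t,
      intervalIntegral.integral_const]
    unfold j8_b
    simp only [sub_zero, one_smul]
    ring
  have cD0 : Continuous fun z : ℝ × ℝ => (v z.2 z.1 - c) ^ 2 :=
    ((hcv.comp hsw).sub continuous_const).pow 2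
  have cD : Continuous fun t => ∫ x in (0 : ℝ)..1, (v x t - c) ^ 2 :=
    intervalIntegral.continuous_parametric_intervalIntegral_of_continuous'
      (f := fun t x => (v x t - c) ^ 2) cD0 0 1
  have hper : ∀ x, u x 1 = u x 0 := fun x => by
    have := h.per₂ x 0
    rwa [zero_add] at this
  have h0 : ∫ t in (0 : ℝ)..1, ((α - c ^ 2 / 2) - 1 / 2 *
      (∫ x in (0 : ℝ)..1, (v x t - c) ^ 2) - j8_b W t) = 0 := by
    have h1 : ∫ t in (0 : ℝ)..1, ((α - c ^ 2 / 2) - 1 / 2 *
        (∫ x in (0 : ℝ)..1, (v x t - c) ^ 2) - j8_b W t) =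
        (∫ x in (0 : ℝ)..1, u x 1) - ∫ x in (0 : ℝ)..1, u x 0 :=
      intervalIntegral.integral_eq_sub_of_hasDerivAt
        (fun t _ => by have := hI t; rwa [hx t] at this)
        (((continuous_const.sub (continuous_const.mul cD)).sub hcb).intervalIntegrable _ _)
    simp_rw [hper] at h1
    rw [h1, sub_self]
  have iD : IntervalIntegrable (fun t => 1 / 2 * ∫ x in (0 : ℝ)..1, (v x t - c) ^ 2)
      volume 0 1 := (continuous_const.mul cD).intervalIntegrable _ _
  rw [intervalIntegral.integral_sub (intervalIntegrable_const.sub iD)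
    (hcb.intervalIntegrable _ _), intervalIntegral.integral_sub intervalIntegrable_const iD,
    intervalIntegral.integral_const_mul, intervalIntegral.integral_const, sub_zero,
    one_smul] at h0
  linarith

theorem kam_infinity (hW : HW 1 W W₁ W₂ B) :
    ∃ C : ℝ, 0 ≤ C ∧ ∀ (p : ℤ) (Q : ℕ) (c α Λ : ℝ) (u v : ℝ → ℝ → ℝ), 0 < Q →
      Kam W W₁ p Q c α u v Λ → 1 ≤ |c| →
      ∫ t in (0 : ℝ)..1, ∫ x in (0 : ℝ)..1, (v x t - c) ^ 2 ≤ C / |c| := by
  have hB := hW.nonneg
  refine ⟨4 * B ^ 2 + 2 * B, by positivity, fun p Q c α Λ u v hQ h hc => ?_⟩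
  rw [j8_hj hW h]
  have h1 := j8_upper hW hQ h hc
  have hc0 : 0 < |c| := by linarith
  have h2 : 2 * B ^ 2 / c ^ 2 ≤ 2 * B ^ 2 / |c| := by
    rw [← sq_abs c]
    refine div_le_div_of_nonneg_left (by positivity) hc0 ?_
    nlinarith
  have h3 : (4 * B ^ 2 + 2 * B) / |c| = 2 * (2 * B ^ 2 / |c| + B / |c|) := by ring
  rw [h3]
  linarith

end Pool.Agent.H33.AN
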