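import Pool.Agent.H33.AN.P.J5
import Pool.Agent.H33.AN.P.J7
import Pool.Agent.H33.AN.P.J8

/-!
# Module J9: a foliated potential does not depend on `x`

Let `v*` be the graph of type `(0, 1)`. Claim: `v*(x + δ, t) = v*(x, t)`. Suppose not:
`|v*(x₀ + δ, t₀) - v*(x₀, t₀)| = κ > 0`. There is a rectangle `N ⊆ [x₀, x₀ + 1] × [t₀, t₀ + 1]` (or, by
periodicity, in `[0, 1]²`) of positive area with `|v*(x + δ, t) - v*(x, t)| ≥ κ/2` on `N` (`Kam.lip`). By
`kam_unif` (`R = 1`) there is `M₀ ≥ 1` such that `|v_ρ - v*| ≤ κ/16` for `0 ≤ ρ ≤ 1/M₀`. Let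
`m₀ = ∬_N (v_{1/M₀} - v*) > 0` (`kam_order`). Given `R` (integer) and `ε > 0` choose `M`, a multiple of
`M₀`, with `1/M ≤ η(R, ε)` (`kam_unif`), and let `v_k` be the graph of type `(k, M)`, `-R M ≤ k ≤ R M`,
`w_k = v_{k+1} - v_k`, `0 < w_k ≤ ε`. (Graphs of types with equal ratios agree: `kam_unif` gives
`|v - v'| ≤ ε` for every `ε`.) Sum `identity` over `k`:
`∬ (W - W^δ) (v_{RM} - v_{-RM}) = ∑ 1/2 ∬ (v_k^δ - v̄_k)² w_k - 1/8 ∑ ∬ w_k³`. The first sum is at
least `1/2 (κ/4)² m₀` (terms with `0 ≤ k < M/M₀`, integrals over `N`), the second one is at most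
`ε² ∬ (v_{RM} - v_{-RM}) ≤ 2 Λ_R ε²`, and the left side is, since `∫ (W - W^δ) dx = 0`, equal to
`∬ (W - W^δ) ((v_{RM} - c_{RM}) - (v_{-RM} - c_{-RM}))`, at most `4 B √(C/|c_±|)` in absolute value
(`kam_infinity`, Cauchy-Schwarz), with `|c_±| ≥ R - 1/2 - 2 B` (`kam_c`). Let first `ε → 0`, then
`R → ∞`: contradiction.
So `v*` does not depend on `x`, `∂ₓu = v* - c` neither, so `∂ₓu = 0` (periodicity), `v* = c`; the leaves of
type `(0, 1)` have the constant velocity `c`, so `W₁(γ(t), t) = 0`, and they pass through every point.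
-/

set_option autoImplicit false

open MeasureTheory
open scoped RealInnerProductSpace

namespace Pool.Agent.H33.AN

variable {B : ℝ} {W W₁ W₂ : ℝ → ℝ → ℝ}

private theorem J9a_cont {p : ℤ} {Q : ℕ} {c α Λ : ℝ} {u v : ℝ → ℝ → ℝ}
    (h : Kam W W₁ p Q c α u v Λ) : Continuous fun z : ℝ × ℝ => v z.1 z.2 := by
  have hΛ : 0 ≤ Λ := (abs_nonneg _).trans (h.vbd 0 0)
  refine (LipschitzWith.of_dist_le_mul (K := ⟨2 * Λ, by positivity⟩) (fun z w => ?_)).continuous
  have h1 := h.lip z.1 z.2 w.1 w.2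
  have h2 : |z.1 - w.1| ≤ dist z w := by
    rw [← Real.dist_eq, Prod.dist_eq]; exact le_max_left _ _
  have h3 : |z.2 - w.2| ≤ dist z w := by
    rw [← Real.dist_eq, Prod.dist_eq]; exact le_max_right _ _
  rw [Real.dist_eq]
  calc |v z.1 z.2 - v w.1 w.2| ≤ Λ * (|z.1 - w.1| + |z.2 - w.2|) := h1
    _ ≤ Λ * (dist z w + dist z w) := mul_le_mul_of_nonneg_left (add_le_add h2 h3) hΛ
    _ = (2 * Λ) * dist z w := by ring

private theorem J9a_contW (hW : HW 1 W W₁ W₂ B) : Continuous fun z : ℝ × ℝ => W z.1 z.2 :=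
  continuous_iff_continuousAt.2 (fun z => (hW.der z.1 z.2).continuousAt)

/-- one time -/
private theorem J9a_slice (hW : HW 1 W W₁ W₂ B) {v : ℝ → ℝ → ℝ}
    (hv : Continuous fun z : ℝ × ℝ => v z.1 z.2) (c δ lam t : ℝ) (hlam : 0 < lam) :
    ‖∫ x in (0 : ℝ)..1, (W x t - W (x + δ) t) * v x t‖ ≤
      B * lam * (∫ x in (0 : ℝ)..1, (v x t - c) ^ 2) + B / lam := by
  have hWt : Continuous fun x => W x t := (J9a_contW hW).comp
    (by fun_prop : Continuous fun x : ℝ => ((x, t) : ℝ × ℝ))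
  have hWd : Continuous fun x => W (x + δ) t := (J9a_contW hW).comp
    (by fun_prop : Continuous fun x : ℝ => ((x + δ, t) : ℝ × ℝ))
  have hvt : Continuous fun x => v x t := hv.comp
    (by fun_prop : Continuous fun x : ℝ => ((x, t) : ℝ × ℝ))
  have hzero : ∫ x in (0 : ℝ)..1, (W x t - W (x + δ) t) = 0 := by
    rw [intervalIntegral.integral_sub (hWt.intervalIntegrable _ _) (hWd.intervalIntegrable _ _)]
    have h1 : ∫ x in (0 : ℝ)..1, W (x + δ) t = ∫ x in (0 + δ)..(1 + δ), W x t :=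
      intervalIntegral.integral_comp_add_right (fun x => W x t) δ
    have hper : Function.Periodic (fun x => W x t) 1 := fun x => hW.per₁ x t
    have h2 := hper.intervalIntegral_add_eq δ 0
    have e1 : (0 : ℝ) + δ = δ := zero_add δ
    have e2 : (1 : ℝ) + δ = δ + 1 := add_comm 1 δ
    rw [h1, e1, e2, h2, zero_add, sub_self]
  have hrew : ∫ x in (0 : ℝ)..1, (W x t - W (x + δ) t) * v x t
      = ∫ x in (0 : ℝ)..1, (W x t - W (x + δ) t) * (v x t - c) := by
    have e1 : ∀ x, (W x t - W (x + δ) t) * (v x t - c)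
        = (W x t - W (x + δ) t) * v x t - c * (W x t - W (x + δ) t) := fun x => by ring
    simp_rw [e1]
    have hi1 : IntervalIntegrable (fun x => (W x t - W (x + δ) t) * v x t) volume 0 1 :=
      ((hWt.sub hWd).mul hvt).intervalIntegrable _ _
    have hi2 : IntervalIntegrable (fun x => c * (W x t - W (x + δ) t)) volume 0 1 :=
      (continuous_const.mul (hWt.sub hWd)).intervalIntegrable _ _
    rw [intervalIntegral.integral_sub hi1 hi2,
      intervalIntegral.integral_const_mul, hzero, mul_zero, sub_zero]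
  rw [hrew]
  have hbound : ∀ x, ‖(W x t - W (x + δ) t) * (v x t - c)‖ ≤
      B * lam * (v x t - c) ^ 2 + B / lam := by
    intro x
    rw [norm_mul, Real.norm_eq_abs, Real.norm_eq_abs]
    have h1 : |W x t - W (x + δ) t| ≤ 2 * B := by
      have h1 := hW.bd x t
      have h2 := hW.bd (x + δ) t
      calc _ ≤ |W x t| + |W (x + δ) t| := abs_sub _ _
        _ ≤ 2 * B := by linarith
    have h2 : 2 * |v x t - c| ≤ lam * (v x t - c) ^ 2 + 1 / lam := by
      have h3 : 0 ≤ (lam * |v x t - c| - 1) ^ 2 / lam := by positivity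
      have h4 : (lam * |v x t - c| - 1) ^ 2 / lam
          = lam * (v x t - c) ^ 2 - 2 * |v x t - c| + 1 / lam := by
        rw [← sq_abs (v x t - c)]
        field_simp
        ring
      linarith
    calc |W x t - W (x + δ) t| * |v x t - c| ≤ (2 * B) * |v x t - c| :=
          mul_le_mul_of_nonneg_right h1 (abs_nonneg _)
      _ = B * (2 * |v x t - c|) := by ring
      _ ≤ B * (lam * (v x t - c) ^ 2 + 1 / lam) := mul_le_mul_of_nonneg_left h2 hW.nonneg
      _ = B * lam * (v x t - c) ^ 2 + B / lam := by ring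
  have hg : Continuous fun x => B * lam * (v x t - c) ^ 2 + B / lam := by fun_prop
  have h5 := intervalIntegral.norm_integral_le_of_norm_le (μ := volume) (zero_le_one' ℝ)
    (Filter.Eventually.of_forall (fun x _ => hbound x)) (hg.intervalIntegrable _ _)
  refine h5.trans (le_of_eq ?_)
  have hg1 : Continuous fun x => B * lam * (v x t - c) ^ 2 := by fun_prop
  rw [intervalIntegral.integral_add (hg1.intervalIntegrable _ _)
    (continuous_const.intervalIntegrable _ _), intervalIntegral.integral_const_mul]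
  simp

/-- The left side of the summed identity. -/
theorem lhs_bound (hW : HW 1 W W₁ W₂ B) :
    ∃ C : ℝ, 0 ≤ C ∧ ∀ (p : ℤ) (Q : ℕ) (c α Λ δ : ℝ) (u v : ℝ → ℝ → ℝ), 0 < Q →
      Kam W W₁ p Q c α u v Λ → 1 ≤ |c| →
      |∫ t in (0 : ℝ)..1, ∫ x in (0 : ℝ)..1, (W x t - W (x + δ) t) * v x t| ≤ C / √|c| := by
  obtain ⟨C₀, hC₀, hinf⟩ := kam_infinity hW
  have hB := hW.nonneg
  refine ⟨B * (C₀ + 1), by positivity, ?_⟩
  intro p Q c α Λ δ u v hQ hK hc
  have hI := hinf p Q c α Λ u v hQ hK hc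
  have hv := J9a_cont hK
  have hcpos : 0 < |c| := by linarith
  have hs : 0 < √|c| := Real.sqrt_pos.2 hcpos
  have hss : √|c| * √|c| = |c| := Real.mul_self_sqrt hcpos.le
  have hG : Continuous fun t => ∫ x in (0 : ℝ)..1, (v x t - c) ^ 2 := by
    refine intervalIntegral.continuous_parametric_intervalIntegral_of_continuous' ?_ 0 1
    have h1 : Continuous fun z : ℝ × ℝ => (v z.2 z.1 - c) ^ 2 :=
      ((hv.comp continuous_swap).sub continuous_const).pow 2
    exact h1
  have hg : Continuous fun t => B * √|c| * (∫ x in (0 : ℝ)..1, (v x t - c) ^ 2) + B / √|c| := by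
    fun_prop
  have h5 := intervalIntegral.norm_integral_le_of_norm_le (μ := volume) (zero_le_one' ℝ)
    (Filter.Eventually.of_forall (fun t _ => J9a_slice hW hv c δ (√|c|) t hs))
    (hg.intervalIntegrable _ _)
  rw [Real.norm_eq_abs] at h5
  refine h5.trans ?_
  have hg1 : Continuous fun t => B * √|c| * (∫ x in (0 : ℝ)..1, (v x t - c) ^ 2) := by fun_prop
  rw [intervalIntegral.integral_add (hg1.intervalIntegrable _ _)
    (continuous_const.intervalIntegrable _ _), intervalIntegral.integral_const_mul]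
  have e2 : ∫ _ in (0 : ℝ)..1, B / √|c| = B / √|c| := by simp
  rw [e2]
  have h6 : B * √|c| * (∫ t in (0 : ℝ)..1, ∫ x in (0 : ℝ)..1, (v x t - c) ^ 2)
      ≤ B * √|c| * (C₀ / |c|) := mul_le_mul_of_nonneg_left hI (by positivity)
  have h7 : B * √|c| * (C₀ / |c|) = B * C₀ / √|c| := by
    rw [← hss]
    have : √(√|c| * √|c|) = √|c| := by rw [hss]
    rw [this]
    field_simp
  rw [h7] at h6
  calc _ ≤ B * C₀ / √|c| + B / √|c| := by linarith
    _ = B * (C₀ + 1) / √|c| := by ring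

end Pool.Agent.H33.AN
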