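import Pool.Agent.H33.AN.P.J5
import Pool.Agent.H33.AN.P.J7
import Pool.Agent.H33.AN.P.J8
import Pool.Agent.H33.AN.P.J9a

/-!
# Module J9: a foliated potential does not depend on `x`

Let `v*` be the graph of type `(0, 1)`. Claim: `v*(x + δ, t) = v*(x, t)`. Suppose not:
`|v*(x₀ + δ, t₀) - v*(x₀, t₀)| = κ > 0`. There is a rectangle `N ⊆ [x₀, x₀ + 1] × [t₀, t₀ + 1]` (or, by
periodicity, in `[0, 1]²`) of positive area with `|v*(x + δ, t) - v*(x, t)| ≥ κ/2` on `N` (`Kam.lip`). By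
`kam_unif` (`R = 1`) there is `M₀ ≥ 1` such that `|v_ρ - v*| ≤ κ/16` for `0 ≤ ρ ≤ 1/M₀`. Let
`m₀ = ∬_N (v_{1/M₀} - v*) > 0` (`kam_order`). Given `R` (integer) and `ε > 0` choose `M`, a multiple of
`M₀`, with `1/M ≤ η(R, ε)` (`kam_unif`), and let `v_k` be the graph of type `(k, M)`, `-R M ≤ k ≤ R M`,
`w_k = v_{k+1} - v_k`, `0 < w_k ≤ ε`. (Graphs of types with equal ratios agree: `kam_unif` gives
`|v - v'| ≤ ε` for every `ε`.) Sum `identity` over `k`:
`∬ (W - W^δ) (v_{RM} - v_{-RM}) = ∑ 1/2 ∬ (v_k^δ - v̄_k)² w_k - 1/8 ∑ ∬ w_k³`. The first sum is at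
least `1/2 (κ/4)² m₀` (terms with `0 ≤ k < M/M₀`, integrals over `N`), the second one is at most
`ε² ∬ (v_{RM} - v_{-RM}) ≤ 2 Λ_R ε²`, and the left side is, since `∫ (W - W^δ) dx = 0`, equal to
`∬ (W - W^δ) ((v_{RM} - c_{RM}) - (v_{-RM} - c_{-RM}))`, at most `4 B √(C/|c_±|)` in absolute value
(`kam_infinity`, Cauchy-Schwarz), with `|c_±| ≥ R - 1/2 - 2 B` (`kam_c`). Let first `ε → 0`, then
`R → ∞`: contradiction.
So `v*` does not depend on `x`, `∂ₓu = v* - c` neither, so `∂ₓu = 0` (periodicity), `v* = c`; the leaves of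
type `(0, 1)` have the constant velocity `c`, so `W₁(γ(t), t) = 0`, and they pass through every point.
-/

set_option autoImplicit false

open MeasureTheory
open scoped RealInnerProductSpace

namespace Pool.Agent.H33.AN

variable {B : ℝ} {W W₁ W₂ : ℝ → ℝ → ℝ}

private theorem kam_mono {p : ℤ} {Q : ℕ} {c α Λ Λ' : ℝ} {u v : ℝ → ℝ → ℝ}
    (h : Kam W W₁ p Q c α u v Λ) (hL : Λ ≤ Λ') : Kam W W₁ p Q c α u v Λ' where
  fder := h.fder
  per₁ := h.per₁
  per₂ := h.per₂
  vper₁ := h.vper₁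
  vper₂ := h.vper₂
  vbd := fun x t => (h.vbd x t).trans hL
  lip := fun x t x' t' => (h.lip x t x' t').trans
    (mul_le_mul_of_nonneg_right hL (by positivity))
  leaf := h.leaf
  alpha := h.alpha
  crit := h.crit

private theorem unif_pack (hW : HW 1 W W₁ W₂ B) (hf : Foliated W) (R Λ0 : ℝ) :
    ∃ Λ' : ℝ, Λ0 ≤ Λ' ∧ (∀ (p : ℤ) (Q : ℕ), 0 < Q → |(p : ℝ) / Q| ≤ R + 1 →
      ∃ (c α : ℝ) (u v : ℝ → ℝ → ℝ), Kam W W₁ p Q c α u v Λ') := by
  obtain ⟨Λ1, h1⟩ := kam_exists hW hf (R + 1)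
  refine ⟨max Λ0 Λ1, le_max_left _ _, fun p Q hQ hp => ?_⟩
  obtain ⟨c, α, u, v, h⟩ := h1 p Q hQ hp
  exact ⟨c, α, u, v, kam_mono h (le_max_right _ _)⟩

private theorem kam_uniq (hW : HW 1 W W₁ W₂ B) (hf : Foliated W) {p p' : ℤ} {Q Q' : ℕ}
    {c α Λ c' α' Λ' : ℝ} {u v u' v' : ℝ → ℝ → ℝ} (hQ : 0 < Q) (hQ' : 0 < Q')
    (h : Kam W W₁ p Q c α u v Λ) (h' : Kam W W₁ p' Q' c' α' u' v' Λ')
    (he : (p : ℝ) / Q = (p' : ℝ) / Q') (x t : ℝ) : v x t = v' x t := by
  obtain ⟨L, hL, hE⟩ := unif_pack hW hf |(p : ℝ) / Q| (max Λ Λ')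
  by_contra hne
  have hpos : 0 < |v x t - v' x t| := abs_pos.2 (sub_ne_zero.2 hne)
  obtain ⟨η, hη, H⟩ := kam_unif hW hE (half_pos hpos)
  have h3 := H p p' Q Q' c α c' α' u v u' v' hQ hQ' le_rfl (by rw [he])
    (kam_mono h ((le_max_left _ _).trans hL)) (kam_mono h' ((le_max_right _ _).trans hL))
    (by rw [he, sub_self, abs_zero]; exact hη.le) x t
  linarith

private theorem unif1 (hW : HW 1 W W₁ W₂ B) (hf : Foliated W) (R : ℝ) {ε : ℝ} (hε : 0 < ε) :
    ∃ η : ℝ, 0 < η ∧ ∀ (p p' : ℤ) (Q Q' : ℕ) (c α Λ c' α' Λ' : ℝ) (u v u' v' : ℝ → ℝ → ℝ),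
      0 < Q → 0 < Q' → |(p : ℝ) / Q| ≤ R → |(p' : ℝ) / Q'| ≤ R →
      Kam W W₁ p Q c α u v Λ → Kam W W₁ p' Q' c' α' u' v' Λ' →
      |(p : ℝ) / Q - (p' : ℝ) / Q'| ≤ η → ∀ x t, |v x t - v' x t| ≤ ε := by
  obtain ⟨L, _, hE⟩ := unif_pack hW hf R 0
  obtain ⟨η, hη, H⟩ := kam_unif hW hE hε
  refine ⟨η, hη, fun p p' Q Q' c α Λ c' α' Λ' u v u' v' hQ hQ' hp hp' h h' hd x t => ?_⟩
  obtain ⟨c1, α1, u1, v1, h1⟩ := hE p Q hQ (by linarith)
  obtain ⟨c2, α2, u2, v2, h2⟩ := hE p' Q' hQ' (by linarith)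
  rw [kam_uniq hW hf hQ hQ h h1 rfl x t, kam_uniq hW hf hQ' hQ' h' h2 rfl x t]
  exact H p p' Q Q' c1 α1 c2 α2 u1 v1 u2 v2 hQ hQ' hp hp' h1 h2 hd x t

private theorem bound1 (hW : HW 1 W W₁ W₂ B) (hf : Foliated W) (R : ℝ) :
    ∃ L : ℝ, 0 ≤ L ∧ ∀ (p : ℤ) (Q : ℕ) (c α Λ : ℝ) (u v : ℝ → ℝ → ℝ),
      0 < Q → |(p : ℝ) / Q| ≤ R → Kam W W₁ p Q c α u v Λ → |c| ≤ L := by
  obtain ⟨L, hL, hE⟩ := unif_pack hW hf R 0
  refine ⟨L, hL, fun p Q c α Λ u v hQ hp h => ?_⟩
  obtain ⟨c1, α1, u1, v1, h1⟩ := hE p Q hQ (by linarith)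
  have h2 := kam_mean h 0
  have h3 : ∀ x, v x 0 = v1 x 0 := fun x => kam_uniq hW hf hQ hQ h h1 rfl x 0
  rw [← h2]
  have h4 := intervalIntegral.norm_integral_le_of_norm_le_const (a := (0 : ℝ)) (b := 1)
    (f := fun x => v x 0) (C := L) (fun x _ => by
      rw [h3 x, Real.norm_eq_abs]
      exact h1.vbd x 0)
  rw [Real.norm_eq_abs] at h4
  simpa using h4

private theorem kam_cont {p : ℤ} {Q : ℕ} {c α Λ : ℝ} {u v : ℝ → ℝ → ℝ}
    (h : Kam W W₁ p Q c α u v Λ) : Continuous fun z : ℝ × ℝ => v z.1 z.2 := by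
  have h1 : LipschitzWith (2 * |Λ|).toNNReal (fun z : ℝ × ℝ => v z.1 z.2) := by
    refine LipschitzWith.of_dist_le_mul fun z z' => ?_
    rw [Real.coe_toNNReal _ (by positivity), Real.dist_eq, Prod.dist_eq, Real.dist_eq,
      Real.dist_eq]
    refine (h.lip z.1 z.2 z'.1 z'.2).trans ?_
    have h2 := le_max_left |z.1 - z'.1| |z.2 - z'.2|
    have h3 := le_max_right |z.1 - z'.1| |z.2 - z'.2|
    have h4 : |z.1 - z'.1| + |z.2 - z'.2| ≤ 2 * max |z.1 - z'.1| |z.2 - z'.2| := by linarith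
    have h5 : 0 ≤ |z.1 - z'.1| + |z.2 - z'.2| := by positivity
    calc Λ * (|z.1 - z'.1| + |z.2 - z'.2|) ≤ |Λ| * (|z.1 - z'.1| + |z.2 - z'.2|) :=
          mul_le_mul_of_nonneg_right (le_abs_self _) h5
      _ ≤ |Λ| * (2 * max |z.1 - z'.1| |z.2 - z'.2|) :=
          mul_le_mul_of_nonneg_left h4 (abs_nonneg _)
      _ = 2 * |Λ| * max |z.1 - z'.1| |z.2 - z'.2| := by ring
  exact h1.continuous

private theorem W_cont (hW : HW 1 W W₁ W₂ B) : Continuous fun z : ℝ × ℝ => W z.1 z.2 :=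
  continuous_iff_continuousAt.2 fun z => (hW.der z.1 z.2).continuousAt

/-- the double integral -/
private noncomputable def II (F : ℝ → ℝ → ℝ) : ℝ := ∫ t in (0 : ℝ)..1, ∫ x in (0 : ℝ)..1, F x t

private theorem inner_int {F : ℝ → ℝ → ℝ} (hF : Continuous fun z : ℝ × ℝ => F z.1 z.2) (t : ℝ) :
    IntervalIntegrable (fun x => F x t) volume 0 1 :=
  (hF.comp (Continuous.prodMk continuous_id continuous_const)).intervalIntegrable _ _

private theorem outer_cont {F : ℝ → ℝ → ℝ} (hF : Continuous fun z : ℝ × ℝ => F z.1 z.2) :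
    Continuous fun t => ∫ x in (0 : ℝ)..1, F x t := by
  refine intervalIntegral.continuous_parametric_intervalIntegral_of_continuous'
    (f := fun t x => F x t) ?_ 0 1
  exact hF.comp continuous_swap

private theorem II_add {F G : ℝ → ℝ → ℝ} (hF : Continuous fun z : ℝ × ℝ => F z.1 z.2)
    (hG : Continuous fun z : ℝ × ℝ => G z.1 z.2) : II (fun x t => F x t + G x t) = II F + II G := by
  unfold II
  rw [← intervalIntegral.integral_add ((outer_cont hF).intervalIntegrable _ _)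
    ((outer_cont hG).intervalIntegrable _ _)]
  congr 1
  funext t
  exact intervalIntegral.integral_add (inner_int hF t) (inner_int hG t)

private theorem II_smul (a : ℝ) (F : ℝ → ℝ → ℝ) : II (fun x t => a * F x t) = a * II F := by
  unfold II
  simp only [intervalIntegral.integral_const_mul]

private theorem II_mono {F G : ℝ → ℝ → ℝ} (hF : Continuous fun z : ℝ × ℝ => F z.1 z.2)
    (hG : Continuous fun z : ℝ × ℝ => G z.1 z.2) (h : ∀ x t, F x t ≤ G x t) : II F ≤ II G := by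
  unfold II
  refine intervalIntegral.integral_mono_on zero_le_one ((outer_cont hF).intervalIntegrable _ _)
    ((outer_cont hG).intervalIntegrable _ _) fun t _ => ?_
  exact intervalIntegral.integral_mono_on zero_le_one (inner_int hF t) (inner_int hG t)
    fun x _ => h x t

private theorem II_sub {F G : ℝ → ℝ → ℝ} (hF : Continuous fun z : ℝ × ℝ => F z.1 z.2)
    (hG : Continuous fun z : ℝ × ℝ => G z.1 z.2) : II (fun x t => F x t - G x t) = II F - II G := by
  have h1 := II_add hF (G := fun x t => (-1) * G x t) (continuous_const.mul hG)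
  rw [II_smul] at h1
  have h2 : (fun x t => F x t - G x t) = fun x t => F x t + (-1) * G x t := by
    funext x t
    ring
  rw [h2, h1]
  ring

private theorem II_pos {F : ℝ → ℝ → ℝ} (hF : Continuous fun z : ℝ × ℝ => F z.1 z.2)
    (h0 : ∀ x t, 0 ≤ F x t) (p1 : ∀ x t, F (x + 1) t = F x t) (p2 : ∀ x t, F x (t + 1) = F x t)
    {x₀ t₀ : ℝ} (h1 : 0 < F x₀ t₀) : 0 < II F := by
  have e1 : ∀ t, F (Int.fract x₀) t = F x₀ t := by
    intro t
    have hp : Function.Periodic (fun x => F x t) 1 := fun x => p1 x t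
    have := hp.sub_int_mul_eq (x := x₀) ⌊x₀⌋
    rw [mul_one] at this
    exact this
  have e2 : F (Int.fract x₀) (Int.fract t₀) = F x₀ t₀ := by
    rw [e1]
    have hp : Function.Periodic (fun t => F x₀ t) 1 := fun t => p2 x₀ t
    have := hp.sub_int_mul_eq (x := t₀) ⌊t₀⌋
    rw [mul_one] at this
    exact this
  have hin : ∀ t, 0 ≤ ∫ x in (0 : ℝ)..1, F x t := fun t =>
    intervalIntegral.integral_nonneg zero_le_one fun x _ => h0 x t
  unfold II
  refine intervalIntegral.integral_pos zero_lt_one (outer_cont hF).continuousOn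
    (fun t _ => hin t) ⟨Int.fract t₀, ⟨Int.fract_nonneg _, (Int.fract_lt_one _).le⟩, ?_⟩
  refine intervalIntegral.integral_pos zero_lt_one
    (hF.comp (Continuous.prodMk continuous_id continuous_const)).continuousOn
    (fun x _ => h0 x _) ⟨Int.fract x₀, ⟨Int.fract_nonneg _, (Int.fract_lt_one _).le⟩, ?_⟩
  show 0 < F (Int.fract x₀) (Int.fract t₀)
  rw [e2]
  exact h1

private theorem step_le {f : ℕ → ℝ} {a b : ℕ} (hab : a ≤ b)
    (h : ∀ i, a ≤ i → i < b → f i ≤ f (i + 1)) : f a ≤ f b := by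
  induction b, hab using Nat.le_induction with
  | base => exact le_rfl
  | succ n hn ih =>
    exact (ih fun i h1 h2 => h i h1 (by omega)).trans (h n hn (by omega))

/-- one step of the summed identity -/
private theorem one_step (hW : HW 1 W W₁ W₂ B) {p p' : ℤ} {Q Q' : ℕ} {c α Λ c' α' Λ' : ℝ}
    {u v u' v' : ℝ → ℝ → ℝ} (h : Kam W W₁ p Q c α u v Λ) (h' : Kam W W₁ p' Q' c' α' u' v' Λ')
    (δ ε : ℝ) (hw0 : ∀ x t, 0 ≤ v' x t - v x t) (hw1 : ∀ x t, v' x t - v x t ≤ ε)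
    {φ : ℝ → ℝ → ℝ} (hφc : Continuous fun z : ℝ × ℝ => φ z.1 z.2)
    (hφ : ∀ x t, φ x t ≤ (v (x + δ) t - (v x t + v' x t) / 2) ^ 2) :
    II (fun x t => (W x t - W (x + δ) t) * v x t) + ε ^ 2 / 8 * II v -
        1 / 2 * II (fun x t => φ x t * v x t) ≤
      II (fun x t => (W x t - W (x + δ) t) * v' x t) + ε ^ 2 / 8 * II v' -
        1 / 2 * II (fun x t => φ x t * v' x t) := by
  have cv := kam_cont h
  have cv' := kam_cont h'
  have cW := W_cont hW
  have sh : Continuous fun z : ℝ × ℝ => ((z.1 + δ, z.2) : ℝ × ℝ) := by fun_prop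
  have cWs : Continuous fun z : ℝ × ℝ => W (z.1 + δ) z.2 := cW.comp sh
  have cvs : Continuous fun z : ℝ × ℝ => v (z.1 + δ) z.2 := cv.comp sh
  have hid := identity hW h h' δ
  have c1 : Continuous fun z : ℝ × ℝ => (W z.1 z.2 - W (z.1 + δ) z.2) * v z.1 z.2 :=
    (cW.sub cWs).mul cv
  have c1' : Continuous fun z : ℝ × ℝ => (W z.1 z.2 - W (z.1 + δ) z.2) * v' z.1 z.2 :=
    (cW.sub cWs).mul cv'
  have e1 : II (fun x t => (W x t - W (x + δ) t) * v' x t) -
      II (fun x t => (W x t - W (x + δ) t) * v x t) =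
      II (fun x t => ((v (x + δ) t - (v x t + v' x t) / 2) ^ 2 -
        ((v' x t - v x t) / 2) ^ 2) * (v' x t - v x t) / 2) := by
    rw [← II_sub (F := fun x t => (W x t - W (x + δ) t) * v' x t)
      (G := fun x t => (W x t - W (x + δ) t) * v x t) c1' c1]
    unfold II
    rw [← hid]
    congr 1
    funext t
    congr 1
    funext x
    ring
  have c2 : Continuous fun z : ℝ × ℝ => φ z.1 z.2 * v z.1 z.2 := hφc.mul cv
  have c2' : Continuous fun z : ℝ × ℝ => φ z.1 z.2 * v' z.1 z.2 := hφc.mul cv'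
  have e2 : 1 / 2 * II (fun x t => φ x t * v' x t) - 1 / 2 * II (fun x t => φ x t * v x t) -
      (ε ^ 2 / 8 * II v' - ε ^ 2 / 8 * II v) =
      II (fun x t => (1 / 2) * (φ x t * v' x t - φ x t * v x t) -
        (ε ^ 2 / 8) * (v' x t - v x t)) := by
    rw [II_sub (F := fun x t => (1 / 2) * (φ x t * v' x t - φ x t * v x t))
      (G := fun x t => (ε ^ 2 / 8) * (v' x t - v x t))
      (continuous_const.mul (c2'.sub c2)) (continuous_const.mul (cv'.sub cv)),
      II_smul, II_smul, II_sub (F := fun x t => φ x t * v' x t)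
      (G := fun x t => φ x t * v x t) c2' c2, II_sub cv' cv]
    ring
  have e3 : II (fun x t => (1 / 2) * (φ x t * v' x t - φ x t * v x t) -
        (ε ^ 2 / 8) * (v' x t - v x t)) ≤
      II (fun x t => ((v (x + δ) t - (v x t + v' x t) / 2) ^ 2 -
        ((v' x t - v x t) / 2) ^ 2) * (v' x t - v x t) / 2) := by
    refine II_mono ?_ ?_ ?_
    · exact (continuous_const.mul (c2'.sub c2)).sub (continuous_const.mul (cv'.sub cv))
    · exact ((((cvs.sub ((cv.add cv').div_const 2)).pow 2).sub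
        (((cv'.sub cv).div_const 2).pow 2)).mul (cv'.sub cv)).div_const 2
    · intro x t
      have h1 := hw0 x t
      have h2 := hw1 x t
      have h3 := hφ x t
      have h4 : (v' x t - v x t) ^ 2 ≤ ε ^ 2 := by
        apply pow_le_pow_left₀ h1 h2
      have h5 : φ x t * (v' x t - v x t) ≤
          (v (x + δ) t - (v x t + v' x t) / 2) ^ 2 * (v' x t - v x t) :=
        mul_le_mul_of_nonneg_right h3 h1
      have h6 : (v' x t - v x t) ^ 2 * (v' x t - v x t) ≤ ε ^ 2 * (v' x t - v x t) :=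
        mul_le_mul_of_nonneg_right h4 h1
      nlinarith
  linarith

/-- The graphs of the types `(0, 1)` do not depend on `x`. -/
theorem fol_indep (hW : HW 1 W W₁ W₂ B) (hf : Foliated W) {c α Λ : ℝ} {u v : ℝ → ℝ → ℝ}
    (h : Kam W W₁ 0 1 c α u v Λ) (x y t : ℝ) : v x t = v y t := by
  by_contra hne
  obtain ⟨δ, hδ⟩ : ∃ δ, δ = y - x := ⟨_, rfl⟩
  obtain ⟨κ, hκ⟩ : ∃ κ, κ = |v (x + δ) t - v x t| := ⟨_, rfl⟩
  have hκ0 : 0 < κ := by
    rw [hκ]
    apply abs_pos.2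
    rw [sub_ne_zero, hδ, add_sub_cancel]
    exact fun h => hne h.symm
  have hvc := kam_cont h
  obtain ⟨g, hg⟩ : ∃ g : ℝ → ℝ → ℝ,
      g = fun x t => (max 0 (|v (x + δ) t - v x t| - κ / 2)) ^ 2 := ⟨_, rfl⟩
  have sh : Continuous fun z : ℝ × ℝ => ((z.1 + δ, z.2) : ℝ × ℝ) := by fun_prop
  have cvs : Continuous fun z : ℝ × ℝ => v (z.1 + δ) z.2 := hvc.comp sh
  have hgc : Continuous fun z : ℝ × ℝ => g z.1 z.2 := by
    rw [hg]
    exact (continuous_const.max ((cvs.sub hvc).abs.sub continuous_const)).pow 2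
  have hg0 : ∀ x t, 0 ≤ g x t := by
    intro x t
    rw [hg]
    positivity
  have hgx : 0 < g x t := by
    rw [hg]
    show 0 < (max 0 (|v (x + δ) t - v x t| - κ / 2)) ^ 2
    rw [← hκ]
    have : 0 < max 0 (κ - κ / 2) := lt_max_of_lt_right (by linarith)
    positivity
  have hgp1 : ∀ x t, g (x + 1) t = g x t := by
    intro x t
    rw [hg]
    show (max 0 (|v (x + 1 + δ) t - v (x + 1) t| - κ / 2)) ^ 2 = _
    rw [show x + 1 + δ = (x + δ) + 1 by ring, h.vper₁, h.vper₁]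
  have hgp2 : ∀ x t, g x (t + 1) = g x t := by
    intro x t
    rw [hg]
    show (max 0 (|v (x + δ) (t + 1) - v x (t + 1)| - κ / 2)) ^ 2 = _
    rw [h.vper₂, h.vper₂]
  -- `M₀`
  obtain ⟨η₁, hη₁, H₁⟩ := unif1 hW hf 1 (ε := κ / 16) (by positivity)
  obtain ⟨M₀, hM₀⟩ := exists_nat_gt (1 / η₁)
  have hM0pos : 0 < M₀ := by
    have h1 : (0 : ℝ) < M₀ := lt_trans (by positivity) hM₀
    exact_mod_cast h1
  have hM0r : (0 : ℝ) < M₀ := by exact_mod_cast hM0pos
  have hM01 : (1 : ℝ) ≤ M₀ := by exact_mod_cast hM0pos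
  have hM0η : 1 / (M₀ : ℝ) ≤ η₁ := by
    rw [div_le_iff₀ hM0r]
    rw [div_lt_iff₀ hη₁] at hM₀
    linarith
  have hM0le : 1 / (M₀ : ℝ) ≤ 1 := by
    rw [div_le_iff₀ hM0r]
    linarith
  obtain ⟨Λe, hE⟩ := kam_exists hW hf 1
  obtain ⟨c1, α1, u1, v1, h1⟩ := hE 1 M₀ hM0pos (by
    rw [Int.cast_one, abs_of_nonneg (by positivity)]
    exact hM0le)
  have hord : ∀ x t, v x t < v1 x t := (kam_order hW one_pos hM0pos h h1 (by
    rw [Int.cast_zero, Int.cast_one, zero_div]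
    positivity)).1
  have hv1c := kam_cont h1
  have cg : Continuous fun z : ℝ × ℝ => g z.1 z.2 * v z.1 z.2 := hgc.mul hvc
  have cg1 : Continuous fun z : ℝ × ℝ => g z.1 z.2 * v1 z.1 z.2 := hgc.mul hv1c
  obtain ⟨m₀, hm₀⟩ : ∃ m₀, m₀ = II (fun x t => g x t * v1 x t) - II (fun x t => g x t * v x t) :=
    ⟨_, rfl⟩
  have hm0pos : 0 < m₀ := by
    rw [hm₀, ← II_sub (F := fun x t => g x t * v1 x t) (G := fun x t => g x t * v x t) cg1 cg]
    refine II_pos (F := fun x t => g x t * v1 x t - g x t * v x t) (cg1.sub cg) ?_ ?_ ?_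
      (x₀ := x) (t₀ := t) ?_
    · intro x t
      have h2 := hord x t
      have h3 := hg0 x t
      have h4 := mul_le_mul_of_nonneg_left h2.le h3
      linarith
    · intro x t
      show g (x + 1) t * v1 (x + 1) t - g (x + 1) t * v (x + 1) t = _
      rw [hgp1, h1.vper₁, h.vper₁]
    · intro x t
      show g x (t + 1) * v1 x (t + 1) - g x (t + 1) * v x (t + 1) = _
      rw [hgp2, h1.vper₂, h.vper₂]
    · have h2 := hord x t
      have h4 := mul_lt_mul_of_pos_left h2 hgx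
      linarith
  -- `R`
  obtain ⟨C, hC0, hC⟩ := lhs_bound hW
  have hB := hW.nonneg
  obtain ⟨R, hR⟩ := exists_nat_gt (2 + 2 * B + (16 * C / m₀) ^ 2)
  obtain ⟨T, hT⟩ : ∃ T : ℝ, T = (R : ℝ) - 1 / 2 - 2 * B := ⟨_, rfl⟩
  have hsq : 0 ≤ (16 * C / m₀) ^ 2 := sq_nonneg _
  have hT1 : 1 + (16 * C / m₀) ^ 2 ≤ T := by
    rw [hT]
    linarith
  have hT0 : 0 < T := by linarith
  have hRr : (1 : ℝ) ≤ R := by linarith
  have hRpos : 1 ≤ R := by exact_mod_cast hRr
  have hCT : C / √T ≤ m₀ / 16 := by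
    have h2 : 16 * C / m₀ ≤ √T := Real.le_sqrt_of_sq_le (by linarith)
    rw [div_le_iff₀ (Real.sqrt_pos.2 hT0)]
    rw [div_le_iff₀ hm0pos] at h2
    linarith
  obtain ⟨L, hL0, hL⟩ := bound1 hW hf R
  -- `ε`
  obtain ⟨ε, hε⟩ : ∃ ε, ε = min 1 (m₀ / (2 * (L + 1))) := ⟨_, rfl⟩
  have hε0 : 0 < ε := by
    rw [hε]
    exact lt_min one_pos (by positivity)
  have hε1 : ε ≤ 1 := by
    rw [hε]
    exact min_le_left _ _
  have hε2 : ε * (2 * (L + 1)) ≤ m₀ := by
    have h2 : ε ≤ m₀ / (2 * (L + 1)) := by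
      rw [hε]
      exact min_le_right _ _
    rwa [le_div_iff₀ (by positivity)] at h2
  have hεL : ε ^ 2 / 8 * (2 * L) ≤ m₀ / 8 := by
    have h2 : ε ^ 2 ≤ ε := by nlinarith
    have h3 : ε ^ 2 * L ≤ ε * L := mul_le_mul_of_nonneg_right h2 hL0
    nlinarith
  obtain ⟨η, hη, H⟩ := unif1 hW hf R (ε := ε) hε0
  obtain ⟨s, hs⟩ := exists_nat_gt (1 / η)
  have hspos : 0 < s := by
    have h1 : (0 : ℝ) < s := lt_trans (by positivity) hs
    exact_mod_cast h1
  have hsr : (0 : ℝ) < s := by exact_mod_cast hspos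
  obtain ⟨M, hM⟩ : ∃ M : ℕ, M = M₀ * s := ⟨_, rfl⟩
  have hMpos : 0 < M := by
    rw [hM]
    positivity
  have hMr : (0 : ℝ) < M := by exact_mod_cast hMpos
  have hMe : (M : ℝ) = M₀ * s := by
    rw [hM]
    push_cast
    ring
  have hMη : 1 / (M : ℝ) ≤ η := by
    rw [div_le_iff₀ hMr, hMe]
    rw [div_lt_iff₀ hη] at hs
    nlinarith
  have hsM : s ≤ M := by
    rw [hM]
    exact Nat.le_mul_of_pos_left _ hM0pos
  have hV : ∀ i : ℕ, ∃ (c α Λ : ℝ) (u v : ℝ → ℝ → ℝ),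
      Kam W W₁ ((i : ℤ) - R * M) M c α u v Λ := by
    intro i
    obtain ⟨Λ, hE⟩ := kam_exists hW hf |(((i : ℤ) - R * M : ℤ) : ℝ) / M|
    obtain ⟨c, α, u, v, h⟩ := hE _ M hMpos le_rfl
    exact ⟨c, α, Λ, u, v, h⟩
  choose cc aa LL uu V HV using hV
  have hrat : ∀ i : ℕ, (((i : ℤ) - R * M : ℤ) : ℝ) / M = (i : ℝ) / M - R := by
    intro i
    push_cast
    field_simp
  have hratb : ∀ i : ℕ, i ≤ 2 * R * M → |(((i : ℤ) - R * M : ℤ) : ℝ) / M| ≤ R := by
    intro i hi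
    rw [hrat, abs_le]
    have h2 : (i : ℝ) ≤ 2 * R * M := by exact_mod_cast hi
    have h3 : (i : ℝ) / M ≤ 2 * R := by
      rw [div_le_iff₀ hMr]
      exact h2
    have h4 : 0 ≤ (i : ℝ) / M := by positivity
    constructor
    · linarith
    · linarith
  have hinc : ∀ (i : ℕ) x t, V i x t < V (i + 1) x t := by
    intro i
    refine (kam_order hW hMpos hMpos (HV i) (HV (i + 1)) ?_).1
    rw [hrat, hrat]
    push_cast
    have h2 : (i : ℝ) / M < ((i : ℝ) + 1) / M := by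
      rw [div_lt_div_iff_of_pos_right hMr]
      linarith
    linarith
  have hcl : ∀ i : ℕ, i < 2 * R * M → ∀ x t, V (i + 1) x t - V i x t ≤ ε := by
    intro i hi x t
    refine (le_abs_self _).trans ?_
    rw [abs_sub_comm]
    refine H _ _ M M _ _ _ _ _ _ _ _ _ _ hMpos hMpos (hratb i hi.le) (hratb (i + 1) hi)
      (HV i) (HV (i + 1)) ?_ x t
    rw [hrat, hrat]
    push_cast
    have h2 : (i : ℝ) / M - R - (((i : ℝ) + 1) / M - R) = -(1 / M) := by
      field_simp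
      ring
    rw [h2, abs_neg, abs_of_nonneg (by positivity)]
    exact hMη
  -- the function `f`
  have hf1 : ∀ i : ℕ, i < 2 * R * M →
      II (fun x t => (W x t - W (x + δ) t) * V i x t) + ε ^ 2 / 8 * II (V i) ≤
      II (fun x t => (W x t - W (x + δ) t) * V (i + 1) x t) + ε ^ 2 / 8 * II (V (i + 1)) := by
    intro i hi
    have h2 := one_step hW (HV i) (HV (i + 1)) δ ε (fun x t => sub_nonneg.2 (hinc i x t).le)
      (hcl i hi) (φ := fun _ _ => 0) continuous_const (fun x t => sq_nonneg _)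
    have h3 : ∀ F : ℝ → ℝ → ℝ, II (fun x t => 0 * F x t) = 0 := by
      intro F
      rw [II_smul, zero_mul]
    have h4 := h3 (V i)
    have h5 := h3 (V (i + 1))
    simp only [h4, h5] at h2
    linarith
  have hnear : ∀ i : ℕ, R * M ≤ i → i ≤ R * M + s → ∀ x t, |V i x t - v x t| ≤ κ / 16 := by
    intro i hi1 hi2
    have h2 : (R : ℝ) * M ≤ i := by exact_mod_cast hi1
    have h3 : (i : ℝ) ≤ R * M + s := by exact_mod_cast hi2
    have h4 : 0 ≤ (i : ℝ) / M - R := by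
      rw [sub_nonneg, le_div_iff₀ hMr]
      exact h2
    have h5 : (i : ℝ) / M - R ≤ 1 / M₀ := by
      have h6 : (i : ℝ) / M ≤ R + 1 / M₀ := by
        rw [div_le_iff₀ hMr]
        have h7 : ((R : ℝ) + 1 / M₀) * M = R * M + s := by
          rw [hMe]
          field_simp
        rw [h7]
        exact h3
      linarith
    refine H₁ _ _ M 1 _ _ _ _ _ _ _ _ _ _ hMpos one_pos ?_ ?_ (HV i) h ?_
    · rw [hrat, abs_of_nonneg h4]
      linarith
    · simp
    · rw [hrat]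
      simp only [Int.cast_zero, zero_div, sub_zero]
      rw [abs_of_nonneg h4]
      linarith
  have hf2 : ∀ i : ℕ, R * M ≤ i → i < R * M + s →
      II (fun x t => (W x t - W (x + δ) t) * V i x t) + ε ^ 2 / 8 * II (V i) -
        1 / 2 * II (fun x t => g x t * V i x t) ≤
      II (fun x t => (W x t - W (x + δ) t) * V (i + 1) x t) + ε ^ 2 / 8 * II (V (i + 1)) -
        1 / 2 * II (fun x t => g x t * V (i + 1) x t) := by
    intro i hi1 hi2
    have hi : i < 2 * R * M := by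
      have h2 : M ≤ R * M := Nat.le_mul_of_pos_left _ hRpos
      have h3 : 2 * R * M = R * M + R * M := by ring
      omega
    refine one_step hW (HV i) (HV (i + 1)) δ ε (fun x t => sub_nonneg.2 (hinc i x t).le)
      (hcl i hi) (φ := g) hgc ?_
    intro x t
    have a1 := hnear i hi1 hi2.le (x + δ) t
    have a2 := hnear i hi1 hi2.le x t
    have a3 := hnear (i + 1) (by omega) hi2 x t
    rw [hg]
    show (max 0 (|v (x + δ) t - v x t| - κ / 2)) ^ 2 ≤ _
    rw [← sq_abs (V i (x + δ) t - (V i x t + V (i + 1) x t) / 2)]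
    refine pow_le_pow_left₀ (le_max_left _ _) (max_le (abs_nonneg _) ?_) 2
    have a4 : |v (x + δ) t - v x t| ≤ |V i (x + δ) t - (V i x t + V (i + 1) x t) / 2| +
        |V i (x + δ) t - v (x + δ) t| + |V i x t - v x t| / 2 + |V (i + 1) x t - v x t| / 2 := by
      rw [abs_le]
      have b1 := abs_le.1 (le_refl |V i (x + δ) t - (V i x t + V (i + 1) x t) / 2|)
      have b2 := abs_le.1 (le_refl |V i (x + δ) t - v (x + δ) t|)
      have b3 := abs_le.1 (le_refl |V i x t - v x t|)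
      have b4 := abs_le.1 (le_refl |V (i + 1) x t - v x t|)
      constructor
      · linarith [b1.1, b1.2, b2.1, b2.2, b3.1, b3.2, b4.1, b4.2]
      · linarith [b1.1, b1.2, b2.1, b2.2, b3.1, b3.2, b4.1, b4.2]
    linarith
  have hRM : R * M + s ≤ 2 * R * M := by
    have h2 : M ≤ R * M := Nat.le_mul_of_pos_left _ hRpos
    have h3 : 2 * R * M = R * M + R * M := by ring
    omega
  have s1 := step_le (f := fun i => II (fun x t => (W x t - W (x + δ) t) * V i x t) +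
    ε ^ 2 / 8 * II (V i)) (a := 0) (b := R * M) (Nat.zero_le _) (fun i _ hi => hf1 i (by omega))
  have s2 := step_le (f := fun i => II (fun x t => (W x t - W (x + δ) t) * V i x t) +
    ε ^ 2 / 8 * II (V i) - 1 / 2 * II (fun x t => g x t * V i x t)) (a := R * M)
    (b := R * M + s) (by omega) (fun i h2 hi => hf2 i h2 hi)
  have s3 := step_le (f := fun i => II (fun x t => (W x t - W (x + δ) t) * V i x t) +
    ε ^ 2 / 8 * II (V i)) (a := R * M + s) (b := 2 * R * M) hRM (fun i _ hi => hf1 i hi)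
  have k1 : II (fun x t => g x t * V (R * M + s) x t) = II (fun x t => g x t * v1 x t) := by
    congr 1
    funext x t
    rw [kam_uniq hW hf hMpos hM0pos (HV (R * M + s)) h1 ?_ x t]
    rw [hrat]
    push_cast
    rw [hMe]
    field_simp
    ring
  have k2 : II (fun x t => g x t * V (R * M) x t) = II (fun x t => g x t * v x t) := by
    congr 1
    funext x t
    rw [kam_uniq hW hf hMpos one_pos (HV (R * M)) h ?_ x t]
    rw [hrat]
    push_cast
    field_simp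
    ring
  have hA : ∀ i : ℕ, i ≤ 2 * R * M → |II (V i)| ≤ L := by
    intro i hi
    have h2 : II (V i) = cc i := by
      unfold II
      simp only [kam_mean (HV i)]
      simp
    rw [h2]
    exact hL _ M _ _ _ _ _ hMpos (hratb i hi) (HV i)
  have hJ : ∀ i : ℕ, T ≤ |cc i| →
      |II (fun x t => (W x t - W (x + δ) t) * V i x t)| ≤ m₀ / 16 := by
    intro i hi
    have h2 := hC _ M _ _ _ δ _ _ hMpos (HV i) (by linarith)
    refine h2.trans (le_trans ?_ hCT)
    exact div_le_div_of_nonneg_left hC0 (Real.sqrt_pos.2 hT0) (Real.sqrt_le_sqrt hi)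
  have hc0 : T ≤ |cc 0| := by
    have h2 := kam_c hW hMpos (HV 0)
    rw [hrat] at h2
    push_cast at h2
    rw [zero_div, zero_sub, sub_neg_eq_add] at h2
    rw [abs_le] at h2
    rw [hT]
    refine le_trans ?_ (neg_le_abs _)
    linarith [h2.1, h2.2]
  have hc2 : T ≤ |cc (2 * R * M)| := by
    have h2 := kam_c hW hMpos (HV (2 * R * M))
    rw [hrat] at h2
    push_cast at h2
    rw [abs_le] at h2
    have h3 : (2 * (R : ℝ) * M) / M - R = R := by
      field_simp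
      ring
    rw [h3] at h2
    rw [hT]
    refine le_trans ?_ (le_abs_self _)
    linarith [h2.1, h2.2]
  have j0 := abs_le.1 (hJ 0 hc0)
  have j2 := abs_le.1 (hJ _ hc2)
  have l0 := abs_le.1 (hA 0 (Nat.zero_le _))
  have l2 := abs_le.1 (hA _ le_rfl)
  rw [k1, k2] at s2
  have hfin : ε ^ 2 / 8 * (II (V (2 * R * M)) - II (V 0)) ≤ m₀ / 8 := by
    refine le_trans ?_ hεL
    refine mul_le_mul_of_nonneg_left ?_ (by positivity)
    linarith [l0.1, l2.2]
  have hfin2 : ε ^ 2 / 8 * (II (V (2 * R * M)) - II (V 0)) =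
      ε ^ 2 / 8 * II (V (2 * R * M)) - ε ^ 2 / 8 * II (V 0) := by ring
  linarith [j0.1, j0.2, j2.1, j2.2]

end Pool.Agent.H33.AN
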