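import Pool.Agent.H33.AN.P.J5
import Pool.Agent.H33.AN.P.J7
import Pool.Agent.H33.AN.P.J8
import Pool.Agent.H33.AN.P.J9a
import Pool.Agent.H33.AN.P.J9b

/-!
# Module J9: a foliated potential does not depend on `x`

Let `v*` be the graph of type `(0, 1)`. Claim: `v*(x + δ, t) = v*(x, t)`. Suppose not:
`|v*(x₀ + δ, t₀) - v*(x₀, t₀)| = κ > 0`. There is a rectangle `N ⊆ [x₀, x₀ + 1] × [t₀, t₀ + 1]` (or, by
periodicity, in `[0, 1]²`) of positive area with `|v*(x + δ, t) - v*(x, t)| ≥ κ/2` on `N` (`Kam.lip`). By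
`kam_unif` (`R = 1`) there is `M₀ ≥ 1` such that `|v_ρ - v*| ≤ κ/16` for `0 ≤ ρ ≤ 1/M₀`. Let
`m₀ = ∬_N (v_{1/M₀} - v*) > 0` (`kam_order`). Given `R` (integer) and `ε > 0` choose `M`, a multiple of
`M₀`, with `1/M ≤ η(R, ε)` (`kam_unif`), and let `v_k` be the graph of type `(k, M)`, `-R M ≤ k ≤ R M`,
`w_k = v_{k+1} - v_k`, `0 < w_k ≤ ε`. (Graphs of types with equal ratios agree: `kam_unif` gives
`|v - v'| ≤ ε` for every `ε`.) Sum `identity` over `k`:
`∬ (W - W^δ) (v_{RM} - v_{-RM}) = ∑ 1/2 ∬ (v_k^δ - v̄_k)² w_k - 1/8 ∑ ∬ w_k³`. The first sum is at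
least `1/2 (κ/4)² m₀` (terms with `0 ≤ k < M/M₀`, integrals over `N`), the second one is at most
`ε² ∬ (v_{RM} - v_{-RM}) ≤ 2 Λ_R ε²`, and the left side is, since `∫ (W - W^δ) dx = 0`, equal to
`∬ (W - W^δ) ((v_{RM} - c_{RM}) - (v_{-RM} - c_{-RM}))`, at most `4 B √(C/|c_±|)` in absolute value
(`kam_infinity`, Cauchy-Schwarz), with `|c_±| ≥ R - 1/2 - 2 B` (`kam_c`). Let first `ε → 0`, then
`R → ∞`: contradiction.
So `v*` does not depend on `x`, `∂ₓu = v* - c` neither, so `∂ₓu = 0` (periodicity), `v* = c`; the leaves of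
type `(0, 1)` have the constant velocity `c`, so `W₁(γ(t), t) = 0`, and they pass through every point.
-/

set_option autoImplicit false

open MeasureTheory
open scoped RealInnerProductSpace

namespace Pool.Agent.H33.AN

variable {B : ℝ} {W W₁ W₂ : ℝ → ℝ → ℝ}

theorem foliated_const (hW : HW 1 W W₁ W₂ B) (hf : Foliated W) (x t : ℝ) : W₁ x t = 0 := by
  obtain ⟨Λ, hΛ⟩ := kam_exists hW hf 1
  obtain ⟨c, α, u, v, h⟩ := hΛ 0 1 Nat.one_pos (by simp)
  have hv : ∀ y s, v y s = c := by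
    intro y s
    have h1 : ∀ z, v z s = v y s := fun z => fol_indep hW hf h z y s
    have h2 := kam_mean h s
    rw [intervalIntegral.integral_congr (g := fun _ => v y s) (fun z _ => h1 z),
      intervalIntegral.integral_const] at h2
    simpa using h2
  obtain ⟨γ, ν, hl, hγ, hν⟩ := h.leaf x t
  have hc : ν = fun _ => c := by
    funext s
    rw [hν, hv]
  have h3 := hl.ext.el t
  rw [hc, hγ] at h3
  have h4 := h3.unique (hasDerivAt_const t c)
  linarith

end Pool.Agent.H33.AN
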