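import Pool.Agent.H33.AN.P.G10
import Pool.Agent.H33.AN.P.J9

/-!
# Module J10: a potential which depends on `x` has a barrier
-/

set_option autoImplicit false

open MeasureTheory
open scoped RealInnerProductSpace

namespace Pool.Agent.H33.AN

variable {B : ℝ} {W W₁ W₂ : ℝ → ℝ → ℝ}

theorem barrier (hW : HW 1 W W₁ W₂ B) (hne : ∃ x t, W₁ x t ≠ 0) :
    ∃ (p : ℤ) (Q : ℕ) (Bc : ℝ → ℝ) (μ : ℝ), 0 < Q ∧ Continuous Bc ∧
      (∀ t, Bc (t + Q) = Bc t + p) ∧ 0 < μ ∧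
      ∀ t, EpQ W p Q + μ ≤ Dm W t (t + Q) (Bc t) (Bc t + p) := by
  have h : ¬ Foliated W := by
    intro hf
    obtain ⟨x, t, h⟩ := hne
    exact h (foliated_const hW hf x t)
  unfold Foliated at h
  push Not at h
  obtain ⟨p, Q, hQ, s, x, h⟩ := h
  obtain ⟨Bc, μ, h1, h2, h3, h4⟩ := fol_or_barrier hW hQ ⟨s, x, h⟩
  exact ⟨p, Q, Bc, μ, hQ, h1, h2, h3, h4⟩

end Pool.Agent.H33.AN
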