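import Pool.Agent.H33.AN.P.J1

/-!
# Module J2: the solution of the Hamilton-Jacobi equation

Let `c` be a subgradient at `p/Q` (`subgrad`), `α = c p/Q - EpQ W p Q/Q`,
`cost(y; s, t) = ∫_s^t (y'²/2 - W(y) - c y' + α) = A1 W s t y u - c (y t - y s) + α (t - s)`.
* `crit_closed`: every closed curve of an integer type `(p', Q')` has cost `≥ 0`.
* `domination`: `U(x, t) = inf` of the costs of the curves from `(0, 0)` to `(x + k, t + j)`, `k`, `j`
  integers, `t + j > 0`. Bounded below: close the curve up (bounded cost `≤ C`) and use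
  `crit_closed`; bounded above by lines with `1 ≤ t + j ≤ 2`, `|x + k| ≤ 1`. Periodic by definition.
  `U(y t, t) ≤ U(y s, s) + cost(y; s, t)` by concatenation (for `s < t`).
* `calibrated`: for a leaf of type `(p, Q)` the cost over a period is `EpQ - c p + α Q = 0`, so domination
  on `[s, t]` and on `[t, s + j Q]` gives the equality.
* `quadratic`: `|U(x + h, t + k) - U(x, t) - (v - c) h - (α - v²/2 - W(x, t)) k| ≤ C (h² + k²)`, `v` the
  velocity at `(x, t)` of the leaf `γ` through `(x, t)`, for `|h|, |k| ≤ 1/2`, with `C` depending only on a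
  bound `R` of `|p/Q|` (and `B`). Upper bound: for the curve `γ(τ) + ξ(τ)` on `[t - 1, t + k]`, `ξ` linear,
  `ξ(t - 1) = 0`, `ξ(t + k) = Δ = x + h - γ(t + k)`: its cost minus the cost of `γ` is
  `(γ'(t + k) - c) Δ + ∫ (ξ'²/2 - (W(γ + ξ) - W(γ) - W₁(γ) ξ)) ≤ (γ'(t + k) - c) Δ + C Δ²` (integration by
  parts and `γ'' = -W₁(γ)`); use domination for it, `calibrated` for `γ`, and
  `γ(t + k) = x + v k + O(k²)`, `γ'(t + k) = v + O(k)`,
  `U(γ(t + k), t + k) = U(x, t) + k (v²/2 - W(x, t) - c v + α) + O(k²)`. Lower bound: the same with the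
  curve from `(x + h, t + k)` to `(γ(t + 1), t + 1)`. `|γ'| ≤ R + 1 + B` by `leaf_vbound`.
-/

set_option autoImplicit false

open MeasureTheory
open scoped RealInnerProductSpace

namespace Pool.Agent.H33.AN

variable {B : ℝ} {W W₁ W₂ : ℝ → ℝ → ℝ}

theorem crit_closed (hW : HW 1 W W₁ W₂ B) {p : ℤ} {Q : ℕ} {c α : ℝ}
    (hα : α = c * ((p : ℝ) / Q) - EpQ W p Q / Q)
    (hc : ∀ (p' : ℤ) (Q' : ℕ), 0 < Q' →
      EpQ W p Q / Q + c * ((p' : ℝ) / Q' - (p : ℝ) / Q) ≤ EpQ W p' Q' / Q')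
    {s : ℝ} {p' : ℤ} {Q' : ℕ} (hQ' : 0 < Q') {ξ u : ℝ → ℝ} (hξ : Cur s (s + Q') ξ u)
    (hcl : ξ (s + Q') = ξ s + p') :
    0 ≤ A1 W s (s + Q') ξ u - c * p' + α * Q' := by
  have hq : (0 : ℝ) < Q' := by exact_mod_cast hQ'
  have h1 : EpQ W p' Q' ≤ A1 W s (s + Q') ξ u := by
    have e1 := Dm_le hW hξ
    rw [hcl] at e1
    exact (Ep_le hW hQ' s (ξ s)).trans e1
  have h2 := hc p' Q' hQ'
  rw [le_div_iff₀ hq] at h2
  have h3 : (p' : ℝ) / Q' * Q' = p' := div_mul_cancel₀ _ hq.ne'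
  have h4 : (EpQ W p Q / Q + c * ((p' : ℝ) / Q' - (p : ℝ) / Q)) * Q' =
      c * p' - α * Q' := by
    rw [hα]
    have : c * ((p' : ℝ) / Q' * Q') = c * p' := by rw [h3]
    linear_combination this
  rw [h4] at h2
  linarith

end Pool.Agent.H33.AN
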