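import Pool.Agent.H33.AN.P.J1
import Pool.Agent.H33.AN.P.J2a

/-!
# Module J2: the solution of the Hamilton-Jacobi equation

Let `c` be a subgradient at `p/Q` (`subgrad`), `α = c p/Q - EpQ W p Q/Q`,
`cost(y; s, t) = ∫_s^t (y'²/2 - W(y) - c y' + α) = A1 W s t y u - c (y t - y s) + α (t - s)`.
* `domination`: `U(x, t) = inf` of the costs `Dm W 0 (t + j) 0 (x + k) - c (x + k) + α (t + j)`, `k`, `j`
  integers, `t + j > 0`. Bounded below: close the curve up (bounded cost `≤ C`) and use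
  `Ep_le`; bounded above by lines with `1 ≤ t + j ≤ 2`, `|x + k| ≤ 1`. Periodic by definition.
  `U(y t, t) ≤ U(y s, s) + cost(y; s, t)` by concatenation (for `s < t`).
-/

set_option autoImplicit false

open MeasureTheory
open scoped RealInnerProductSpace

namespace Pool.Agent.H33.AN

variable {B : ℝ} {W W₁ W₂ : ℝ → ℝ → ℝ}

theorem domination (hW : HW 1 W W₁ W₂ B) {p : ℤ} {Q : ℕ} {c α : ℝ}
    (hα : α = c * ((p : ℝ) / Q) - EpQ W p Q / Q)
    (hc : ∀ (p' : ℤ) (Q' : ℕ), 0 < Q' →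
      EpQ W p Q / Q + c * ((p' : ℝ) / Q' - (p : ℝ) / Q) ≤ EpQ W p' Q' / Q') :
    ∃ (U : ℝ → ℝ → ℝ) (C : ℝ), (∀ x t, U (x + 1) t = U x t) ∧ (∀ x t, U x (t + 1) = U x t) ∧
      (∀ x t, |U x t| ≤ C) ∧
      ∀ (s t : ℝ) (ξ u : ℝ → ℝ), s < t → Cur s t ξ u →
        U (ξ t) t - U (ξ s) s ≤ A1 W s t ξ u - c * (ξ t - ξ s) + α * (t - s) := by
  have hB0 := hW.nonneg
  -- the critical value
  have hcrit : ∀ (p' : ℤ) (Q' : ℕ), 0 < Q' → c * p' - α * Q' ≤ EpQ W p' Q' := by
    intro p' Q' hQ'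
    have hQr : (0 : ℝ) < Q' := by exact_mod_cast hQ'
    have h1 := hc p' Q' hQ'
    rw [le_div_iff₀ hQr] at h1
    refine le_trans (le_of_eq ?_) h1
    rw [hα]
    field_simp
    ring
  let val : ℝ → ℝ → ℤ → ℤ → ℝ := fun x t j k =>
    Dm W 0 (t + j) 0 (x + k) - c * (x + k) + α * (t + j)
  let S : ℝ → ℝ → Set ℝ := fun x t => {r | ∃ j k : ℤ, 0 < t + j ∧ r = val x t j k}
  set C : ℝ := |c| + 2 * |α| + 1 / 2 + 2 * B with hC
  have hlow : ∀ (x t : ℝ) (j k : ℤ), 0 < t + j → -C ≤ val x t j k := by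
    intro x t j k hj
    set T : ℝ := t + j with hT
    set X : ℝ := x + k with hX
    set N : ℕ := ⌈T⌉₊ + 1 with hN
    set M : ℤ := ⌈X⌉ with hM
    have hN1 : T + 1 ≤ N := by
      rw [hN]
      push_cast
      linarith [Nat.le_ceil T]
    have hN2 : (N : ℝ) ≤ T + 2 := by
      rw [hN]
      push_cast
      linarith [Nat.ceil_lt_add_one hj.le]
    have hM1 : X ≤ M := Int.le_ceil X
    have hM2 : (M : ℝ) < X + 1 := Int.ceil_lt_add_one X
    have h1 := Dm_triangle hW (r := 0) (s := T) (t := N) hj (by linarith) 0 X M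
    have h2 := (Dm_lower hW (s := T) (t := N) (by linarith) X M).2
    have h3 := Ep_le (p := M) (Q := N) hW (by omega) 0 0
    rw [zero_add, zero_add] at h3
    have h4 := hcrit M N (by omega)
    have h5 : ((M : ℝ) - X) ^ 2 / (2 * (N - T)) ≤ 1 / 2 := by
      rw [div_le_iff₀ (by linarith)]
      have : ((M : ℝ) - X) ^ 2 ≤ 1 := by
        rw [← one_pow 2]
        exact pow_le_pow_left₀ (by linarith) (by linarith) 2
      linarith
    have h6 : B * ((N : ℝ) - T) ≤ B * 2 := mul_le_mul_of_nonneg_left (by linarith) hB0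
    have h7 : -|c| ≤ c * (M - X) := by
      have h8 : |c * (M - X)| ≤ |c| := by
        rw [abs_mul]
        have : |(M : ℝ) - X| ≤ 1 := by
          rw [abs_le]
          constructor <;> linarith
        nlinarith [abs_nonneg c]
      linarith [neg_abs_le (c * ((M : ℝ) - X))]
    have h9 : α * (N - T) ≤ 2 * |α| := by
      have h10 : |α * (N - T)| ≤ |α| * 2 := by
        rw [abs_mul]
        refine mul_le_mul_of_nonneg_left ?_ (abs_nonneg _)
        rw [abs_le]
        constructor <;> linarith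
      linarith [le_abs_self (α * ((N : ℝ) - T))]
    change -C ≤ Dm W 0 T 0 X - c * X + α * T
    rw [hC]
    nlinarith
  have hbdd : ∀ x t, BddBelow (S x t) := by
    intro x t
    refine ⟨-C, ?_⟩
    rintro r ⟨j, k, hj, rfl⟩
    exact hlow x t j k hj
  have hne : ∀ x t : ℝ, ∃ j k : ℤ, 0 < t + j ∧ val x t j k ≤ C := by
    intro x t
    refine ⟨⌈1 - t⌉, -⌊x⌋, ?_, ?_⟩
    · linarith [Int.le_ceil (1 - t)]
    · set T : ℝ := t + (⌈1 - t⌉ : ℤ) with hT
      set X : ℝ := x + ((-⌊x⌋ : ℤ) : ℝ) with hX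
      have hT1 : 1 ≤ T := by
        rw [hT]
        linarith [Int.le_ceil (1 - t)]
      have hT2 : T ≤ 2 := by
        rw [hT]
        linarith [Int.ceil_lt_add_one (1 - t)]
      have hX1 : 0 ≤ X := by
        rw [hX]
        push_cast
        linarith [Int.floor_le x]
      have hX2 : X ≤ 1 := by
        rw [hX]
        push_cast
        linarith [Int.lt_floor_add_one x]
      have h2 := (Dm_lower hW (s := 0) (t := T) (by linarith) 0 X).2
      rw [sub_zero, sub_zero] at h2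
      have h5 : X ^ 2 / (2 * T) ≤ 1 / 2 := by
        rw [div_le_iff₀ (by linarith)]
        have : X ^ 2 ≤ 1 := by
          rw [← one_pow 2]
          exact pow_le_pow_left₀ hX1 hX2 2
        linarith
      have h6 : B * T ≤ B * 2 := mul_le_mul_of_nonneg_left hT2 hB0
      have h7 : -|c| ≤ c * X := by
        have h8 : |c * X| ≤ |c| := by
          rw [abs_mul, abs_of_nonneg hX1]
          nlinarith [abs_nonneg c]
        linarith [neg_abs_le (c * X)]
      have h9 : α * T ≤ 2 * |α| := by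
        have h10 : |α * T| ≤ |α| * 2 := by
          rw [abs_mul, abs_of_nonneg (by linarith : (0 : ℝ) ≤ T)]
          exact mul_le_mul_of_nonneg_left hT2 (abs_nonneg _)
        linarith [le_abs_self (α * T)]
      change Dm W 0 T 0 X - c * X + α * T ≤ C
      rw [hC]
      linarith
  have hSne : ∀ x t, (S x t).Nonempty := by
    intro x t
    obtain ⟨j, k, hj, _⟩ := hne x t
    exact ⟨_, j, k, hj, rfl⟩
  refine ⟨fun x t => sInf (S x t), C, ?_, ?_, ?_, ?_⟩
  · intro x t
    have : S (x + 1) t = S x t := by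
      ext r
      constructor
      · rintro ⟨j, k, hj, rfl⟩
        refine ⟨j, k + 1, hj, ?_⟩
        change Dm W 0 (t + j) 0 (x + 1 + k) - c * (x + 1 + k) + α * (t + j) =
          Dm W 0 (t + j) 0 (x + ((k + 1 : ℤ) : ℝ)) - c * (x + ((k + 1 : ℤ) : ℝ)) + α * (t + j)
        have e : x + 1 + (k : ℝ) = x + ((k + 1 : ℤ) : ℝ) := by push_cast; ring
        rw [e]
      · rintro ⟨j, k, hj, rfl⟩
        refine ⟨j, k - 1, hj, ?_⟩
        change Dm W 0 (t + j) 0 (x + k) - c * (x + k) + α * (t + j) =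
          Dm W 0 (t + j) 0 (x + 1 + ((k - 1 : ℤ) : ℝ)) - c * (x + 1 + ((k - 1 : ℤ) : ℝ)) +
            α * (t + j)
        have e : x + 1 + ((k - 1 : ℤ) : ℝ) = x + k := by push_cast; ring
        rw [e]
    change sInf (S (x + 1) t) = sInf (S x t)
    rw [this]
  · intro x t
    have : S x (t + 1) = S x t := by
      ext r
      constructor
      · rintro ⟨j, k, hj, rfl⟩
        have e : t + 1 + (j : ℝ) = t + ((j + 1 : ℤ) : ℝ) := by push_cast; ring
        refine ⟨j + 1, k, by rw [← e]; exact hj, ?_⟩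
        change Dm W 0 (t + 1 + j) 0 (x + k) - c * (x + k) + α * (t + 1 + j) =
          Dm W 0 (t + ((j + 1 : ℤ) : ℝ)) 0 (x + k) - c * (x + k) + α * (t + ((j + 1 : ℤ) : ℝ))
        rw [e]
      · rintro ⟨j, k, hj, rfl⟩
        have e : t + 1 + ((j - 1 : ℤ) : ℝ) = t + j := by push_cast; ring
        refine ⟨j - 1, k, by rw [e]; exact hj, ?_⟩
        change Dm W 0 (t + j) 0 (x + k) - c * (x + k) + α * (t + j) =
          Dm W 0 (t + 1 + ((j - 1 : ℤ) : ℝ)) 0 (x + k) - c * (x + k) +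
            α * (t + 1 + ((j - 1 : ℤ) : ℝ))
        rw [e]
    change sInf (S x (t + 1)) = sInf (S x t)
    rw [this]
  · intro x t
    obtain ⟨j, k, hj, hle⟩ := hne x t
    rw [abs_le]
    constructor
    · refine le_csInf (hSne x t) ?_
      rintro r ⟨j', k', hj', rfl⟩
      exact hlow x t j' k' hj'
    · exact (csInf_le (hbdd x t) ⟨j, k, hj, rfl⟩).trans hle
  · intro s t ξ u hst hξ
    change sInf (S (ξ t) t) - sInf (S (ξ s) s) ≤ _
    refine le_of_forall_pos_le_add fun ε hε => ?_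
    obtain ⟨r, ⟨j, k, hj, rfl⟩, hr⟩ := exists_lt_of_csInf_lt (hSne (ξ s) s)
      (show sInf (S (ξ s) s) < sInf (S (ξ s) s) + ε by linarith)
    have hj' : 0 < t + j := by linarith
    have h1 : sInf (S (ξ t) t) ≤ val (ξ t) t j k := csInf_le (hbdd _ _) ⟨j, k, hj', rfl⟩
    have h2 := Dm_triangle hW (r := 0) (s := s + j) (t := t + j) hj (by linarith) 0 (ξ s + k)
      (ξ t + k)
    have h3 := Dm_per hW s t (ξ s) (ξ t) j k
    rw [mul_one] at h3
    have h4 := Dm_le hW hξ
    have e1 : val (ξ t) t j k =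
      Dm W 0 (t + j) 0 (ξ t + k) - c * (ξ t + k) + α * (t + j) := rfl
    have e2 : val (ξ s) s j k =
      Dm W 0 (s + j) 0 (ξ s + k) - c * (ξ s + k) + α * (s + j) := rfl
    rw [e1] at h1
    rw [e2] at hr
    linarith

end Pool.Agent.H33.AN
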