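import Pool.Agent.H33.AN.P.J1
import Pool.Agent.H33.AN.P.J2a
import Pool.Agent.H33.AN.P.J2b

/-!
# Module J2: the solution of the Hamilton-Jacobi equation

Let `c` be a subgradient at `p/Q` (`subgrad`), `α = c p/Q - EpQ W p Q/Q`,
`cost(y; s, t) = ∫_s^t (y'²/2 - W(y) - c y' + α) = A1 W s t y u - c (y t - y s) + α (t - s)`.
* `crit_closed`: every closed curve of an integer type `(p', Q')` has cost `≥ 0`.
* `domination`: `U(x, t) = inf` of the costs of the curves from `(0, 0)` to `(x + k, t + j)`, `k`, `j`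
  integers, `t + j > 0`. Bounded below: close the curve up (bounded cost `≤ C`) and use
  `crit_closed`; bounded above by lines with `1 ≤ t + j ≤ 2`, `|x + k| ≤ 1`. Periodic by definition.
  `U(y t, t) ≤ U(y s, s) + cost(y; s, t)` by concatenation (for `s < t`).
* `calibrated`: for a leaf of type `(p, Q)` the cost over a period is `EpQ - c p + α Q = 0`, so domination
  on `[s, t]` and on `[t, s + j Q]` gives the equality.
* `quadratic`: `|U(x + h, t + k) - U(x, t) - (v - c) h - (α - v²/2 - W(x, t)) k| ≤ C (h² + k²)`, `v` the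
  velocity at `(x, t)` of the leaf `γ` through `(x, t)`, for `|h|, |k| ≤ 1/2`, with `C` depending only on a
  bound `R` of `|p/Q|` (and `B`). Upper bound: for the curve `γ(τ) + ξ(τ)` on `[t - 1, t + k]`, `ξ` linear,
  `ξ(t - 1) = 0`, `ξ(t + k) = Δ = x + h - γ(t + k)`: its cost minus the cost of `γ` is
  `(γ'(t + k) - c) Δ + ∫ (ξ'²/2 - (W(γ + ξ) - W(γ) - W₁(γ) ξ)) ≤ (γ'(t + k) - c) Δ + C Δ²` (integration by
  parts and `γ'' = -W₁(γ)`); use domination for it, `calibrated` for `γ`, and
  `γ(t + k) = x + v k + O(k²)`, `γ'(t + k) = v + O(k)`,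
  `U(γ(t + k), t + k) = U(x, t) + k (v²/2 - W(x, t) - c v + α) + O(k²)`. Lower bound: the same with the
  curve from `(x + h, t + k)` to `(γ(t + 1), t + 1)`. `|γ'| ≤ R + 1 + B` by `leaf_vbound`.
-/

set_option autoImplicit false

open MeasureTheory
open scoped RealInnerProductSpace

namespace Pool.Agent.H33.AN

variable {B : ℝ} {W W₁ W₂ : ℝ → ℝ → ℝ}

private theorem J2c_int (hW : HW 1 W W₁ W₂ B) {γ v : ℝ → ℝ} (h : Ext W₁ γ v) (a b : ℝ) :
    IntervalIntegrable (fun t => v t ^ 2 / 2 - W (γ t) t) volume a b := by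
  have hWc : Continuous fun z : ℝ × ℝ => W z.1 z.2 :=
    continuous_iff_continuousAt.mpr fun z => (hW.der z.1 z.2).continuousAt
  have hγ : Continuous γ := continuous_iff_continuousAt.mpr fun t => (h.der t).continuousAt
  have hv : Continuous v := continuous_iff_continuousAt.mpr fun t => (h.el t).continuousAt
  have hc : Continuous fun t => v t ^ 2 / 2 - W (γ t) t :=
    ((hv.pow 2).div_const 2).sub (hWc.comp (hγ.prodMk continuous_id))
  exact hc.intervalIntegrable a b

private theorem J2c_add (hW : HW 1 W W₁ W₂ B) {γ v : ℝ → ℝ} (h : Ext W₁ γ v) (a b c : ℝ) :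
    A1 W a b γ v + A1 W b c γ v = A1 W a c γ v :=
  intervalIntegral.integral_add_adjacent_intervals (J2c_int hW h a b) (J2c_int hW h b c)

theorem calibrated (hW : HW 1 W W₁ W₂ B) {p : ℤ} {Q : ℕ} (hQ : 0 < Q) {c α : ℝ}
    (hα : α = c * ((p : ℝ) / Q) - EpQ W p Q / Q) {U : ℝ → ℝ → ℝ}
    (hU₁ : ∀ x t, U (x + 1) t = U x t) (hU₂ : ∀ x t, U x (t + 1) = U x t)
    (hU : ∀ (s t : ℝ) (ξ u : ℝ → ℝ), s < t → Cur s t ξ u →
        U (ξ t) t - U (ξ s) s ≤ A1 W s t ξ u - c * (ξ t - ξ s) + α * (t - s))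
    {γ v : ℝ → ℝ} (hγ : Leaf W W₁ p Q γ v) {s t : ℝ} (hst : s ≤ t) :
    U (γ t) t - U (γ s) s = A1 W s t γ v - c * (γ t - γ s) + α * (t - s) := by
  have hQ' : (0 : ℝ) < Q := by exact_mod_cast hQ
  set D : ℝ → ℝ → ℝ := fun a b => A1 W a b γ v - c * (γ b - γ a) + α * (b - a) - (U (γ b) b - U (γ a) a)
    with hD
  have hadd : ∀ a b r, D a b + D b r = D a r := by
    intro a b r
    have := J2c_add hW hγ.ext a b r
    rw [hD]
    dsimp only
    linarith
  have hnn : ∀ a b, a < b → 0 ≤ D a b := by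
    intro a b hab
    obtain ⟨u, hu, huv⟩ := Cur.of_ext hγ.ext hab.le
    have h1 := hU a b γ u hab hu
    have h2 : A1 W a b γ u = A1 W a b γ v := by
      unfold A1
      apply intervalIntegral.integral_congr
      intro r hr
      rw [Set.uIcc_of_le hab.le] at hr
      dsimp only
      rw [huv r hr]
    rw [h2] at h1
    rw [hD]
    dsimp only
    linarith
  have hper : ∀ a, D a (a + Q) = 0 := by
    intro a
    have e1 : U (γ (a + Q)) (a + Q) = U (γ a) a := by
      rw [hγ.per]
      have k1 : Function.Periodic (fun x => U x (a + Q)) 1 := fun x => hU₁ x _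
      have k2 : Function.Periodic (fun r => U (γ a) r) 1 := fun r => hU₂ _ r
      have k3 := k1.int_mul p (γ a)
      have k4 := k2.nat_mul Q a
      rw [mul_one] at k3 k4
      rw [k3, k4]
    rw [hD]
    dsimp only
    rw [e1, hγ.act, hγ.per, hα]
    field_simp
    ring
  have hmul : ∀ (j : ℕ), D s (s + j * Q) = 0 := by
    intro j
    induction j with
    | zero =>
      rw [hD]
      simp [A1]
    | succ j ih =>
      have h1 := hadd s (s + j * Q) (s + j * Q + Q)
      rw [ih, hper] at h1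
      have h2 : s + ((j + 1 : ℕ) : ℝ) * Q = s + j * Q + Q := by
        push_cast
        ring
      rw [h2]
      linarith
  have hzero : D s t = 0 := by
    rcases hst.eq_or_lt with he | hlt
    · rw [← he, hD]
      simp [A1]
    · obtain ⟨j, hj⟩ := exists_nat_gt ((t - s) / Q)
      rw [div_lt_iff₀ hQ'] at hj
      have h1 := hadd s t (s + j * Q)
      rw [hmul j] at h1
      have h2 := hnn s t hlt
      have h3 := hnn t (s + j * Q) (by linarith)
      linarith
  rw [hD] at hzero
  dsimp only at hzero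
  linarith

end Pool.Agent.H33.AN
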