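import Pool.Agent.H33.AN.P.J1
import Pool.Agent.H33.AN.P.J2a
import Pool.Agent.H33.AN.P.J2b
import Pool.Agent.H33.AN.P.J2c

/-!
# Module J2: the solution of the Hamilton-Jacobi equation

Let `c` be a subgradient at `p/Q` (`subgrad`), `α = c p/Q - EpQ W p Q/Q`,
`cost(y; s, t) = ∫_s^t (y'²/2 - W(y) - c y' + α) = A1 W s t y u - c (y t - y s) + α (t - s)`.
* `crit_closed`: every closed curve of an integer type `(p', Q')` has cost `≥ 0`.
* `domination`: `U(x, t) = inf` of the costs of the curves from `(0, 0)` to `(x + k, t + j)`, `k`, `j`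
  integers, `t + j > 0`. Bounded below: close the curve up (bounded cost `≤ C`) and use
  `crit_closed`; bounded above by lines with `1 ≤ t + j ≤ 2`, `|x + k| ≤ 1`. Periodic by definition.
  `U(y t, t) ≤ U(y s, s) + cost(y; s, t)` by concatenation (for `s < t`).
* `calibrated`: for a leaf of type `(p, Q)` the cost over a period is `EpQ - c p + α Q = 0`, so domination
  on `[s, t]` and on `[t, s + j Q]` gives the equality.
* `quadratic`: `|U(x + h, t + k) - U(x, t) - (v - c) h - (α - v²/2 - W(x, t)) k| ≤ C (h² + k²)`, `v` the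
  velocity at `(x, t)` of the leaf `γ` through `(x, t)`, for `|h|, |k| ≤ 1/2`, with `C` depending only on a
  bound `R` of `|p/Q|` (and `B`). Upper bound: for the curve `γ(τ) + ξ(τ)` on `[t - 1, t + k]`, `ξ` linear,
  `ξ(t - 1) = 0`, `ξ(t + k) = Δ = x + h - γ(t + k)`: its cost minus the cost of `γ` is
  `(γ'(t + k) - c) Δ + ∫ (ξ'²/2 - (W(γ + ξ) - W(γ) - W₁(γ) ξ)) ≤ (γ'(t + k) - c) Δ + C Δ²` (integration by
  parts and `γ'' = -W₁(γ)`); use domination for it, `calibrated` for `γ`, and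
  `γ(t + k) = x + v k + O(k²)`, `γ'(t + k) = v + O(k)`,
  `U(γ(t + k), t + k) = U(x, t) + k (v²/2 - W(x, t) - c v + α) + O(k²)`. Lower bound: the same with the
  curve from `(x + h, t + k)` to `(γ(t + 1), t + 1)`. `|γ'| ≤ R + 1 + B` by `leaf_vbound`.
-/

set_option autoImplicit false

open MeasureTheory
open scoped RealInnerProductSpace

namespace Pool.Agent.H33.AN

variable {B : ℝ} {W W₁ W₂ : ℝ → ℝ → ℝ}

private theorem j2d_cW (hW : HW 1 W W₁ W₂ B) : Continuous fun z : ℝ × ℝ => W z.1 z.2 :=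
  continuous_iff_continuousAt.2 fun z => (hW.der z.1 z.2).continuousAt

private theorem j2d_cW₁ (hW : HW 1 W W₁ W₂ B) : Continuous fun z : ℝ × ℝ => W₁ z.1 z.2 := by
  rw [continuous_iff_continuousAt]
  intro z
  rw [ContinuousAt, tendsto_iff_dist_tendsto_zero]
  refine squeeze_zero (fun _ => dist_nonneg)
    (g := fun w : ℝ × ℝ => B * (|w.1 - z.1| + |w.2 - z.2|)) ?_ ?_
  · intro w
    rw [Real.dist_eq]
    exact hW.lip w.1 w.2 z.1 z.2
  · have h1 : Continuous fun w : ℝ × ℝ => B * (|w.1 - z.1| + |w.2 - z.2|) := by fun_prop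
    have h2 := h1.tendsto z
    simpa using h2

private theorem j2d_dx (hW : HW 1 W W₁ W₂ B) (x t : ℝ) :
    HasDerivAt (fun y => W y t) (W₁ x t) x := by
  have h1 : HasDerivAt (fun y : ℝ => ((y, t) : ℝ × ℝ)) ((1 : ℝ), (0 : ℝ)) x :=
    (hasDerivAt_id x).prodMk (hasDerivAt_const x t)
  have h2 := (hW.der x t).comp_hasDerivAt x h1
  have e : (W₁ x t • ContinuousLinearMap.fst ℝ ℝ ℝ + W₂ x t • ContinuousLinearMap.snd ℝ ℝ ℝ)
      ((1 : ℝ), (0 : ℝ)) = W₁ x t := by
    simp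
  rw [e] at h2
  exact h2

private theorem j2d_dt (hW : HW 1 W W₁ W₂ B) (x t : ℝ) :
    HasDerivAt (fun s => W x s) (W₂ x t) t := by
  have h1 : HasDerivAt (fun s : ℝ => ((x, s) : ℝ × ℝ)) ((0 : ℝ), (1 : ℝ)) t :=
    (hasDerivAt_const t x).prodMk (hasDerivAt_id t)
  have h2 := (hW.der x t).comp_hasDerivAt t h1
  have e : (W₁ x t • ContinuousLinearMap.fst ℝ ℝ ℝ + W₂ x t • ContinuousLinearMap.snd ℝ ℝ ℝ)
      ((0 : ℝ), (1 : ℝ)) = W₂ x t := by
    simp
  rw [e] at h2
  exact h2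

private theorem j2d_mvt {g g' : ℝ → ℝ} {a b C : ℝ} (hg : ∀ x, HasDerivAt g (g' x) x)
    (hC : ∀ x ∈ Set.uIcc a b, |g' x| ≤ C) : |g b - g a| ≤ C * |b - a| := by
  have h := Convex.norm_image_sub_le_of_norm_hasDerivWithin_le (𝕜 := ℝ) (f := g) (f' := g')
    (C := C) (s := Set.uIcc a b) (x := a) (y := b) (fun x _ => (hg x).hasDerivWithinAt)
    (fun x hx => by rw [Real.norm_eq_abs]; exact hC x hx) (convex_uIcc a b)
    Set.left_mem_uIcc Set.right_mem_uIcc
  rw [Real.norm_eq_abs, Real.norm_eq_abs] at h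
  exact h

private theorem j2d_abs {a b x : ℝ} (hx : x ∈ Set.uIcc a b) : |x - a| ≤ |b - a| :=
  Set.abs_sub_left_of_mem_uIcc hx

private theorem j2d_taylor (hW : HW 1 W W₁ W₂ B) (x t y : ℝ) :
    |W (x + y) t - W x t - W₁ x t * y| ≤ B * y ^ 2 := by
  have h1 : ∀ z, HasDerivAt (fun z => W z t - W₁ x t * z) (W₁ z t - W₁ x t) z := by
    intro z
    have h2 := (j2d_dx hW z t).sub ((hasDerivAt_id z).const_mul (W₁ x t))
    rw [mul_one] at h2
    exact h2
  have h2 := j2d_mvt (a := x) (b := x + y) (C := B * |y|) h1 (by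
    intro z hz
    have h3 := hW.lip z t x t
    rw [sub_self, abs_zero, add_zero] at h3
    refine h3.trans (mul_le_mul_of_nonneg_left ?_ hW.nonneg)
    have h4 := j2d_abs hz
    rwa [add_sub_cancel_left] at h4)
  rw [add_sub_cancel_left] at h2
  have e1 : W (x + y) t - W₁ x t * (x + y) - (W x t - W₁ x t * x) =
      W (x + y) t - W x t - W₁ x t * y := by ring
  rw [e1] at h2
  have e2 : B * |y| * |y| = B * y ^ 2 := by
    rw [mul_assoc, abs_mul_abs_self, pow_two]
  rwa [e2] at h2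

private theorem j2d_var (hW : HW 1 W W₁ W₂ B) {γ v : ℝ → ℝ} (hγ : Ext W₁ γ v) {a b : ℝ}
    (hab : a ≤ b) (p q K : ℝ) (hK : ∀ τ ∈ Set.Icc a b, |p + q * τ| ≤ K) :
    A1 W a b (fun τ => γ τ + (p + q * τ)) (fun τ => v τ + q) ≤
      A1 W a b γ v + (v b * (p + q * b) - v a * (p + q * a)) +
        (b - a) * (q ^ 2 / 2 + B * K ^ 2) := by
  have cγ : Continuous γ := continuous_iff_continuousAt.2 fun τ => (hγ.der τ).continuousAt
  have cv : Continuous v := continuous_iff_continuousAt.2 fun τ => (hγ.el τ).continuousAt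
  have c1 : Continuous fun τ => W (γ τ) τ := (j2d_cW hW).comp (cγ.prodMk continuous_id)
  have c2 : Continuous fun τ => W₁ (γ τ) τ := (j2d_cW₁ hW).comp (cγ.prodMk continuous_id)
  have c3 : Continuous fun τ => W (γ τ + (p + q * τ)) τ :=
    (j2d_cW hW).comp (Continuous.prodMk (by fun_prop) continuous_id)
  have cl : Continuous fun τ : ℝ => p + q * τ := by fun_prop
  have d1 : Continuous fun τ => v τ ^ 2 / 2 - W (γ τ) τ := ((cv.pow 2).div_const 2).sub c1
  have d2 : Continuous fun τ => -W₁ (γ τ) τ * (p + q * τ) + v τ * q :=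
    (c2.neg.mul cl).add (cv.mul continuous_const)
  have d3 : Continuous fun τ => (v τ + q) ^ 2 / 2 - W (γ τ + (p + q * τ)) τ :=
    (((cv.add continuous_const).pow 2).div_const 2).sub c3
  have hd : ∀ τ, HasDerivAt (fun τ => v τ * (p + q * τ))
      (-W₁ (γ τ) τ * (p + q * τ) + v τ * q) τ := by
    intro τ
    have h1 : HasDerivAt (fun τ : ℝ => p + q * τ) q τ := by
      have := ((hasDerivAt_id τ).const_mul q).const_add p
      rw [mul_one] at this
      exact this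
    exact (hγ.el τ).mul h1
  have hint : ∫ τ in a..b, (-W₁ (γ τ) τ * (p + q * τ) + v τ * q) =
      v b * (p + q * b) - v a * (p + q * a) := by
    apply intervalIntegral.integral_eq_sub_of_hasDerivAt (fun τ _ => hd τ)
    exact d2.intervalIntegrable a b
  unfold A1
  have i1 : IntervalIntegrable (fun τ => v τ ^ 2 / 2 - W (γ τ) τ) volume a b :=
    d1.intervalIntegrable a b
  have i2 : IntervalIntegrable (fun τ => -W₁ (γ τ) τ * (p + q * τ) + v τ * q) volume a b :=
    d2.intervalIntegrable a b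
  have i3 : IntervalIntegrable (fun _ : ℝ => q ^ 2 / 2 + B * K ^ 2) volume a b :=
    intervalIntegrable_const
  have h1 : ∫ τ in a..b, ((v τ + q) ^ 2 / 2 - W (γ τ + (p + q * τ)) τ) ≤
      ∫ τ in a..b, ((v τ ^ 2 / 2 - W (γ τ) τ) + (-W₁ (γ τ) τ * (p + q * τ) + v τ * q) +
        (q ^ 2 / 2 + B * K ^ 2)) := by
    apply intervalIntegral.integral_mono_on hab
    · exact d3.intervalIntegrable a b
    · exact (i1.add i2).add i3
    · intro τ hτ
      have h2 := (abs_le.1 (j2d_taylor hW (γ τ) τ (p + q * τ))).1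
      have h3 : B * (p + q * τ) ^ 2 ≤ B * K ^ 2 := by
        apply mul_le_mul_of_nonneg_left _ hW.nonneg
        rw [← sq_abs (p + q * τ)]
        exact pow_le_pow_left₀ (abs_nonneg _) (hK τ hτ) 2
      nlinarith
  refine h1.trans (le_of_eq ?_)
  rw [intervalIntegral.integral_add (i1.add i2) i3, intervalIntegral.integral_add i1 i2, hint,
    intervalIntegral.integral_const, smul_eq_mul]

private theorem j2d_cost (hW : HW 1 W W₁ W₂ B) {c α : ℝ} {U : ℝ → ℝ → ℝ}
    (hU : ∀ (s t : ℝ) (ξ u : ℝ → ℝ), s < t → Cur s t ξ u →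
      U (ξ t) t - U (ξ s) s ≤ A1 W s t ξ u - c * (ξ t - ξ s) + α * (t - s))
    {γ v : ℝ → ℝ} (hγ : Ext W₁ γ v) {a b : ℝ} (hab : a < b) (p q K : ℝ)
    (hK : ∀ τ ∈ Set.Icc a b, |p + q * τ| ≤ K) :
    U (γ b + (p + q * b)) b - U (γ a + (p + q * a)) a ≤
      A1 W a b γ v + (v b * (p + q * b) - v a * (p + q * a)) +
        (b - a) * (q ^ 2 / 2 + B * K ^ 2) -
        c * ((γ b + (p + q * b)) - (γ a + (p + q * a))) + α * (b - a) := by
  obtain ⟨u, hu, huv⟩ := Cur.of_ext hγ hab.le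
  have h1 := hU a b _ _ hab (hu.add_lin p q)
  have h2 : A1 W a b (fun t => γ t + (p + q * t)) (fun t => u t + q) =
      A1 W a b (fun t => γ t + (p + q * t)) (fun t => v t + q) := by
    unfold A1
    apply intervalIntegral.integral_congr
    intro τ hτ
    rw [Set.uIcc_of_le hab.le] at hτ
    simp only
    rw [huv τ hτ]
  have h3 := j2d_var hW hγ hab.le p q K hK
  rw [h2] at h1
  have h4 : U (γ b + (p + q * b)) b - U (γ a + (p + q * a)) a ≤
      A1 W a b (fun t => γ t + (p + q * t)) (fun t => v t + q) -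
        c * ((γ b + (p + q * b)) - (γ a + (p + q * a))) + α * (b - a) := h1
  linarith

theorem quadratic (hW : HW 1 W W₁ W₂ B) (R : ℝ) :
    ∃ C : ℝ, ∀ (p : ℤ) (Q : ℕ) (c α : ℝ) (U : ℝ → ℝ → ℝ), 0 < Q → |(p : ℝ) / Q| ≤ R →
      α = c * ((p : ℝ) / Q) - EpQ W p Q / Q →
      (∀ x t, U (x + 1) t = U x t) → (∀ x t, U x (t + 1) = U x t) →
      (∀ (s t : ℝ) (ξ u : ℝ → ℝ), s < t → Cur s t ξ u →
        U (ξ t) t - U (ξ s) s ≤ A1 W s t ξ u - c * (ξ t - ξ s) + α * (t - s)) →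
      ∀ γ v : ℝ → ℝ, Leaf W W₁ p Q γ v → ∀ t h k : ℝ, |h| ≤ 1 / 2 → |k| ≤ 1 / 2 →
        |U (γ t + h) (t + k) - U (γ t) t - (v t - c) * h -
          (α - v t ^ 2 / 2 - W (γ t) t) * k| ≤ C * (h ^ 2 + k ^ 2) := by
  have hB := hW.nonneg
  obtain ⟨V, hV⟩ : ∃ V : ℝ, V = R + 1 + B := ⟨_, rfl⟩
  obtain ⟨C1, hC1⟩ : ∃ C1 : ℝ, C1 = 1 + 3 / 2 * B := ⟨_, rfl⟩
  refine ⟨3 * B * V + 2 * B + B * V ^ 2 + 2 * C1 * V ^ 2 + B + 2 * C1, ?_⟩
  intro p Q c α U hQ hR hα hU₁ hU₂ hU γ v hl t h k hh hk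
  have hγ := hl.ext
  have hR0 : 0 ≤ R := (abs_nonneg _).trans hR
  have hV0 : 0 ≤ V := by rw [hV]; linarith
  have hC10 : 0 ≤ C1 := by rw [hC1]; positivity
  have hvb : ∀ τ, |v τ| ≤ V := by
    intro τ
    have h1 := leaf_vbound hW hQ hl τ
    have h2 : |v τ| ≤ |v τ - (p : ℝ) / Q| + |(p : ℝ) / Q| := by
      have := abs_add_le (v τ - (p : ℝ) / Q) ((p : ℝ) / Q)
      rwa [sub_add_cancel] at this
    rw [hV]
    linarith
  have hk' := abs_le.1 hk
  have cγ : Continuous γ := continuous_iff_continuousAt.2 fun τ => (hγ.der τ).continuousAt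
  have cv : Continuous v := continuous_iff_continuousAt.2 fun τ => (hγ.el τ).continuousAt
  have c1 : Continuous fun τ => W (γ τ) τ := (j2d_cW hW).comp (cγ.prodMk continuous_id)
  have ci : Continuous fun τ => v τ ^ 2 / 2 - W (γ τ) τ := ((cv.pow 2).div_const 2).sub c1
  -- estimates
  have hv1 : ∀ τ ∈ Set.uIcc t (t + k), |v τ - v t| ≤ B * |k| := by
    intro τ hτ
    have h1 := j2d_mvt (a := t) (b := τ) (C := B) (fun x => hγ.el x) (by
      intro x _
      rw [abs_neg]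
      exact hW.bd₁ _ _)
    have h2 := j2d_abs hτ
    rw [add_sub_cancel_left] at h2
    exact h1.trans (mul_le_mul_of_nonneg_left h2 hB)
  have hγ1 : ∀ τ ∈ Set.uIcc t (t + k), |γ τ - γ t| ≤ V * |k| := by
    intro τ hτ
    have h1 := j2d_mvt (a := t) (b := τ) (C := V) (fun x => hγ.der x) (fun x _ => hvb x)
    have h2 := j2d_abs hτ
    rw [add_sub_cancel_left] at h2
    exact h1.trans (mul_le_mul_of_nonneg_left h2 hV0)
  have hγ2 : |γ (t + k) - γ t - v t * k| ≤ B * k ^ 2 := by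
    have h1 : ∀ z, HasDerivAt (fun z => γ z - v t * z) (v z - v t) z := by
      intro z
      have h2 := (hγ.der z).sub ((hasDerivAt_id z).const_mul (v t))
      rw [mul_one] at h2
      exact h2
    have h2 := j2d_mvt (a := t) (b := t + k) (C := B * |k|) h1 hv1
    rw [add_sub_cancel_left] at h2
    have e1 : γ (t + k) - v t * (t + k) - (γ t - v t * t) = γ (t + k) - γ t - v t * k := by ring
    rw [e1] at h2
    have e2 : B * |k| * |k| = B * k ^ 2 := by
      rw [mul_assoc, abs_mul_abs_self, pow_two]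
    rwa [e2] at h2
  have hI : |(∫ τ in t..(t + k), (v τ ^ 2 / 2 - W (γ τ) τ)) - (v t ^ 2 / 2 - W (γ t) t) * k| ≤
      (2 * B * V + B) * k ^ 2 := by
    have h1 : (∫ τ in t..(t + k), (v τ ^ 2 / 2 - W (γ τ) τ)) - (v t ^ 2 / 2 - W (γ t) t) * k =
        ∫ τ in t..(t + k), ((v τ ^ 2 / 2 - W (γ τ) τ) - (v t ^ 2 / 2 - W (γ t) t)) := by
      rw [intervalIntegral.integral_sub (ci.intervalIntegrable _ _) intervalIntegrable_const,
        intervalIntegral.integral_const, add_sub_cancel_left, smul_eq_mul]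
      ring
    rw [h1]
    have h2 := intervalIntegral.norm_integral_le_of_norm_le_const (a := t) (b := t + k)
      (C := (2 * B * V + B) * |k|)
      (f := fun τ => (v τ ^ 2 / 2 - W (γ τ) τ) - (v t ^ 2 / 2 - W (γ t) t)) (by
        intro τ hτ
        have hτ' : τ ∈ Set.uIcc t (t + k) := Set.uIoc_subset_uIcc hτ
        rw [Real.norm_eq_abs]
        have e1 : |v τ ^ 2 / 2 - v t ^ 2 / 2| ≤ B * |k| * V := by
          have e2 : v τ ^ 2 / 2 - v t ^ 2 / 2 = (v τ - v t) * ((v τ + v t) / 2) := by ring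
          rw [e2, abs_mul]
          apply mul_le_mul (hv1 τ hτ') _ (abs_nonneg _) (by positivity)
          rw [abs_le]
          have h3 := abs_le.1 (hvb τ)
          have h4 := abs_le.1 (hvb t)
          constructor <;> linarith
        have e3 : |W (γ τ) τ - W (γ t) τ| ≤ B * (V * |k|) := by
          have h3 := j2d_mvt (a := γ t) (b := γ τ) (C := B) (fun x => j2d_dx hW x τ)
            (fun x _ => hW.bd₁ x τ)
          exact h3.trans (mul_le_mul_of_nonneg_left (hγ1 τ hτ') hB)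
        have e4 : |W (γ t) τ - W (γ t) t| ≤ B * |k| := by
          have h3 := j2d_mvt (a := t) (b := τ) (C := B) (fun x => j2d_dt hW (γ t) x)
            (fun x _ => hW.bd₂ (γ t) x)
          have h4 := j2d_abs hτ'
          rw [add_sub_cancel_left] at h4
          exact h3.trans (mul_le_mul_of_nonneg_left h4 hB)
        rw [abs_le] at e1 e3 e4 ⊢
        constructor <;> nlinarith [e1.1, e1.2, e3.1, e3.2, e4.1, e4.2])
    rw [Real.norm_eq_abs, add_sub_cancel_left] at h2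
    refine h2.trans (le_of_eq ?_)
    rw [mul_assoc, abs_mul_abs_self, pow_two]
  obtain ⟨Δ, hΔ⟩ : ∃ Δ : ℝ, Δ = γ t + h - γ (t + k) := ⟨_, rfl⟩
  obtain ⟨I, hId⟩ : ∃ I : ℝ, I = ∫ τ in t..(t + k), (v τ ^ 2 / 2 - W (γ τ) τ) := ⟨_, rfl⟩
  have hcal1 := calibrated hW hQ hα hU₁ hU₂ hU hl (s := t - 1) (t := t) (by linarith)
  have hcal2 := calibrated hW hQ hα hU₁ hU₂ hU hl (s := t) (t := t + 1) (by linarith)
  have hA1 : A1 W (t - 1) (t + k) γ v = A1 W (t - 1) t γ v + I := by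
    unfold A1
    rw [hId, intervalIntegral.integral_add_adjacent_intervals (ci.intervalIntegrable _ _)
      (ci.intervalIntegrable _ _)]
  have hA2 : A1 W t (t + 1) γ v = I + A1 W (t + k) (t + 1) γ v := by
    unfold A1
    rw [hId, intervalIntegral.integral_add_adjacent_intervals (ci.intervalIntegrable _ _)
      (ci.intervalIntegrable _ _)]
  have hk1 : 1 / 2 ≤ 1 + k := by linarith
  have hk2 : 1 / 2 ≤ 1 - k := by linarith
  have hquad : ∀ l : ℝ, 1 / 2 ≤ l → l ≤ 3 / 2 →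
      l * ((Δ / l) ^ 2 / 2 + B * |Δ| ^ 2) ≤ C1 * Δ ^ 2 := by
    intro l h1 h2
    have h3 : l * ((Δ / l) ^ 2 / 2 + B * |Δ| ^ 2) = Δ ^ 2 * (1 / (2 * l)) + l * (B * Δ ^ 2) := by
      rw [sq_abs]
      field_simp
    have h4 : 1 / (2 * l) ≤ 1 := by
      rw [div_le_one (by linarith)]
      linarith
    have h5 : Δ ^ 2 * (1 / (2 * l)) ≤ Δ ^ 2 * 1 := mul_le_mul_of_nonneg_left h4 (sq_nonneg _)
    have h6 : l * (B * Δ ^ 2) ≤ 3 / 2 * (B * Δ ^ 2) :=
      mul_le_mul_of_nonneg_right h2 (mul_nonneg hB (sq_nonneg _))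
    rw [h3, hC1]
    linarith
  -- upper bound
  have hup : U (γ t + h) (t + k) - U (γ t) t ≤
      I + v (t + k) * Δ + C1 * Δ ^ 2 - c * h + α * k := by
    have h1 := j2d_cost hW hU hγ (a := t - 1) (b := t + k) (by linarith)
      (-(Δ / (1 + k) * (t - 1))) (Δ / (1 + k)) |Δ| (by
        intro τ hτ
        have e1 : -(Δ / (1 + k) * (t - 1)) + Δ / (1 + k) * τ =
            Δ * ((τ - (t - 1)) / (1 + k)) := by
          field_simp
          ring
        rw [e1, abs_mul]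
        have e2 : |(τ - (t - 1)) / (1 + k)| ≤ 1 := by
          rw [abs_le]
          constructor
          · have : 0 ≤ (τ - (t - 1)) / (1 + k) := div_nonneg (by linarith [hτ.1]) (by linarith)
            linarith
          · rw [div_le_one (by linarith)]
            linarith [hτ.2]
        exact mul_le_of_le_one_right (abs_nonneg _) e2)
    have e1 : -(Δ / (1 + k) * (t - 1)) + Δ / (1 + k) * (t + k) = Δ := by
      have : (1 + k) ≠ 0 := by linarith
      field_simp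
      ring
    have e2 : -(Δ / (1 + k) * (t - 1)) + Δ / (1 + k) * (t - 1) = 0 := by ring
    have e3 : γ (t + k) + Δ = γ t + h := by rw [hΔ]; ring
    have e4 : (t + k) - (t - 1) = 1 + k := by ring
    rw [e1, e2, e3, e4, add_zero, hA1] at h1
    have h2 := hquad (1 + k) hk1 (by linarith)
    linarith
  -- lower bound
  have hlo : I + v (t + k) * Δ - C1 * Δ ^ 2 - c * h + α * k ≤
      U (γ t + h) (t + k) - U (γ t) t := by
    have h1 := j2d_cost hW hU hγ (a := t + k) (b := t + 1) (by linarith)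
      (Δ / (1 - k) * (t + 1)) (-(Δ / (1 - k))) |Δ| (by
        intro τ hτ
        have e1 : Δ / (1 - k) * (t + 1) + -(Δ / (1 - k)) * τ =
            Δ * (((t + 1) - τ) / (1 - k)) := by
          field_simp
          ring
        rw [e1, abs_mul]
        have e2 : |((t + 1) - τ) / (1 - k)| ≤ 1 := by
          rw [abs_le]
          constructor
          · have : 0 ≤ ((t + 1) - τ) / (1 - k) := div_nonneg (by linarith [hτ.2]) (by linarith)
            linarith
          · rw [div_le_one (by linarith)]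
            linarith [hτ.1]
        exact mul_le_of_le_one_right (abs_nonneg _) e2)
    have e1 : Δ / (1 - k) * (t + 1) + -(Δ / (1 - k)) * (t + k) = Δ := by
      have : (1 - k) ≠ 0 := by linarith
      field_simp
      ring
    have e2 : Δ / (1 - k) * (t + 1) + -(Δ / (1 - k)) * (t + 1) = 0 := by ring
    have e3 : γ (t + k) + Δ = γ t + h := by rw [hΔ]; ring
    have e4 : (t + 1) - (t + k) = 1 - k := by ring
    rw [e1, e2, e3, e4, add_zero, neg_sq] at h1
    rw [hA2] at hcal2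
    have h2 := hquad (1 - k) hk2 (by linarith)
    linarith
  -- conclusion
  have hw1 := hv1 (t + k) Set.right_mem_uIcc
  have hw := hvb t
  have hd1 := hγ1 (t + k) Set.right_mem_uIcc
  have hΔh : |Δ| ≤ |h| + V * |k| := by
    have h1 : Δ = h - (γ (t + k) - γ t) := by rw [hΔ]; ring
    rw [h1]
    exact (abs_sub _ _).trans (by linarith)
  have hΔ2 : Δ ^ 2 ≤ 2 * h ^ 2 + 2 * V ^ 2 * k ^ 2 := by
    have h1 : Δ ^ 2 ≤ (|h| + V * |k|) ^ 2 := by
      rw [← sq_abs Δ]
      exact pow_le_pow_left₀ (abs_nonneg _) hΔh 2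
    have h2 : (|h| + V * |k|) ^ 2 ≤ 2 * |h| ^ 2 + 2 * V ^ 2 * |k| ^ 2 := by
      nlinarith [sq_nonneg (|h| - V * |k|)]
    rw [sq_abs, sq_abs] at h2
    exact h1.trans h2
  have hm1 : |(v (t + k) - v t) * Δ| ≤ B * (k ^ 2 + Δ ^ 2) / 2 := by
    rw [abs_mul]
    have h1 : |v (t + k) - v t| * |Δ| ≤ B * |k| * |Δ| :=
      mul_le_mul_of_nonneg_right hw1 (abs_nonneg _)
    have h2 : |k| * |Δ| ≤ (k ^ 2 + Δ ^ 2) / 2 := by
      have h3 := sq_nonneg (|k| - |Δ|)
      have h4 := sq_abs k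
      have h5 := sq_abs Δ
      nlinarith
    have h3 : B * (|k| * |Δ|) ≤ B * ((k ^ 2 + Δ ^ 2) / 2) := mul_le_mul_of_nonneg_left h2 hB
    linarith
  have hm2 : |v t * (v t * k - (γ (t + k) - γ t))| ≤ V * (B * k ^ 2) := by
    rw [abs_mul]
    apply mul_le_mul hw _ (abs_nonneg _) hV0
    rw [abs_sub_comm]
    exact hγ2
  rw [← hId] at hI
  have key : v (t + k) * Δ = v t * h - v t ^ 2 * k + (v (t + k) - v t) * Δ +
      v t * (v t * k - (γ (t + k) - γ t)) := by
    rw [hΔ]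
    ring
  have hfin : B * (k ^ 2 + Δ ^ 2) / 2 + V * (B * k ^ 2) + (2 * B * V + B) * k ^ 2 +
      C1 * Δ ^ 2 ≤ (3 * B * V + 2 * B + B * V ^ 2 + 2 * C1 * V ^ 2 + B + 2 * C1) *
        (h ^ 2 + k ^ 2) := by
    have h1 : B * Δ ^ 2 ≤ B * (2 * h ^ 2 + 2 * V ^ 2 * k ^ 2) :=
      mul_le_mul_of_nonneg_left hΔ2 hB
    have h2 : C1 * Δ ^ 2 ≤ C1 * (2 * h ^ 2 + 2 * V ^ 2 * k ^ 2) :=
      mul_le_mul_of_nonneg_left hΔ2 hC10
    have h3 : 0 ≤ (3 * B * V + 2 * B + B * V ^ 2 + 2 * C1 * V ^ 2) * h ^ 2 := by positivity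
    have h4 : 0 ≤ (B + 2 * C1) * k ^ 2 := by positivity
    have h5 : 0 ≤ B * k ^ 2 := by positivity
    nlinarith
  rw [abs_le] at hm1 hm2 hI ⊢
  constructor
  · linarith [hm1.1, hm2.1, hI.1]
  · linarith [hm1.2, hm2.2, hI.2]

end Pool.Agent.H33.AN
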