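import Pool.Agent.H33.AN.P.J2

/-!
# Module J3: the invariant graphs

* `lip_of_quadratic`: put `a(z) = (P z, R z)`; for `|z - z'| = r ≤ 1/4` compare the expansions at `z` and `z'`
  of `U(z + w)` for `w` of norm `r`: `|(a(z') - a(z)) · w'| ≤ C' r²` for every vector `w'` of norm `r`.
* `kam_exists`: `c` from `subgrad`, `U` from `domination`, `v x t` = the velocity at `t` of the leaf through
  `(x, t)` (`Foliated`, `leaf_exists`, unique by `leaf_unique`); differentiability of `U` and the Lipschitz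
  bound for `v` from `quadratic` and `lip_of_quadratic`; periodicity of `v` from `leaf_shift`; `vbd` from
  `leaf_vbound`. The Lipschitz bound is needed for all pairs of points: for `|z - z'| > 1/4` use the
  bound of `|v|`. `Λ` depends only on `R` and `W`.
-/

set_option autoImplicit false

open MeasureTheory
open scoped RealInnerProductSpace

namespace Pool.Agent.H33.AN

variable {B : ℝ} {W W₁ W₂ : ℝ → ℝ → ℝ}

theorem lip_of_quadratic {U P R : ℝ → ℝ → ℝ} {C : ℝ}
    (h : ∀ x t h k, |h| ≤ 1 / 2 → |k| ≤ 1 / 2 →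
      |U (x + h) (t + k) - U x t - P x t * h - R x t * k| ≤ C * (h ^ 2 + k ^ 2)) :
    ∀ x t x' t', |x - x'| + |t - t'| ≤ 1 / 4 →
      |P x t - P x' t'| ≤ 20 * |C| * (|x - x'| + |t - t'|) := by
  intro x t x' t' hr
  have h' : ∀ x t h k, |h| ≤ 1 / 2 → |k| ≤ 1 / 2 →
      |U (x + h) (t + k) - U x t - P x t * h - R x t * k| ≤ |C| * (h ^ 2 + k ^ 2) := by
    intro x t h1 k1 hh hk
    exact (h x t h1 k1 hh hk).trans (mul_le_mul_of_nonneg_right (le_abs_self C) (by positivity))
  set r : ℝ := |x - x'| + |t - t'| with hrdef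
  have hr0 : 0 ≤ r := by positivity
  have ha : |x' - x| ≤ r := by
    rw [abs_sub_comm, hrdef]
    linarith [abs_nonneg (t - t')]
  have hb : |t' - t| ≤ r := by
    rw [abs_sub_comm, hrdef]
    linarith [abs_nonneg (x - x')]
  rcases hr0.eq_or_lt with h0 | hpos
  · have h1 : x = x' := by
      have : |x - x'| ≤ 0 := by rw [abs_sub_comm]; rw [← h0] at ha; exact ha
      exact sub_eq_zero.mp (abs_eq_zero.mp (le_antisymm this (abs_nonneg _)))
    have h2 : t = t' := by
      have : |t - t'| ≤ 0 := by rw [abs_sub_comm]; rw [← h0] at hb; exact hb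
      exact sub_eq_zero.mp (abs_eq_zero.mp (le_antisymm this (abs_nonneg _)))
    rw [h1, h2, sub_self, abs_zero, ← h0, mul_zero]
  · have hC : 0 ≤ |C| := abs_nonneg C
    have har := abs_le.mp ha
    have hbr := abs_le.mp hb
    have e1 := abs_le.mp (h' x' t' r 0 (by rw [abs_of_pos hpos]; linarith) (by norm_num))
    have e2 := abs_le.mp (h' x' t' (-r) 0 (by rw [abs_neg, abs_of_pos hpos]; linarith)
      (by norm_num))
    have e3 := abs_le.mp (h' x t (x' - x + r) (t' - t) (abs_le.mpr ⟨by linarith, by linarith⟩)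
      (hb.trans (by linarith)))
    have e4 := abs_le.mp (h' x t (x' - x + -r) (t' - t) (abs_le.mpr ⟨by linarith, by linarith⟩)
      (hb.trans (by linarith)))
    rw [show x + (x' - x + r) = x' + r by ring, show t + (t' - t) = t' + 0 by ring] at e3
    rw [show x + (x' - x + -r) = x' + -r by ring, show t + (t' - t) = t' + 0 by ring] at e4
    have q3 : |C| * ((x' - x + r) ^ 2 + (t' - t) ^ 2) ≤ |C| * (5 * r ^ 2) :=
      mul_le_mul_of_nonneg_left (by nlinarith) hC
    have q4 : |C| * ((x' - x + -r) ^ 2 + (t' - t) ^ 2) ≤ |C| * (5 * r ^ 2) :=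
      mul_le_mul_of_nonneg_left (by nlinarith) hC
    have q1 : |C| * (r ^ 2 + 0 ^ 2) = |C| * r ^ 2 := by ring
    have q2 : |C| * ((-r) ^ 2 + 0 ^ 2) = |C| * r ^ 2 := by ring
    rw [q1] at e1
    rw [q2] at e2
    have hkey : |P x t - P x' t'| * r ≤ 20 * |C| * r * r := by
      rw [← abs_of_pos hpos, ← abs_mul, abs_of_pos hpos]
      refine abs_le.mpr ⟨?_, ?_⟩
      · nlinarith [e1.1, e1.2, e2.1, e2.2, e3.1, e3.2, e4.1, e4.2, q3, q4,
          mul_nonneg hC (sq_nonneg r)]
      · nlinarith [e1.1, e1.2, e2.1, e2.2, e3.1, e3.2, e4.1, e4.2, q3, q4,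
          mul_nonneg hC (sq_nonneg r)]
    exact le_of_mul_le_mul_right hkey hpos

end Pool.Agent.H33.AN
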