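import Pool.Agent.H33.AN.P.J2
import Pool.Agent.H33.AN.P.J3a

/-!
# Module J3: the invariant graphs

* `lip_of_quadratic`: put `a(z) = (P z, R z)`; for `|z - z'| = r ≤ 1/4` compare the expansions at `z` and `z'`
  of `U(z + w)` for `w` of norm `r`: `|(a(z') - a(z)) · w'| ≤ C' r²` for every vector `w'` of norm `r`.
* `kam_exists`: `c` from `subgrad`, `U` from `domination`, `v x t` = the velocity at `t` of the leaf through
  `(x, t)` (`Foliated`, `leaf_exists`, unique by `leaf_unique`); differentiability of `U` and the Lipschitz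
  bound for `v` from `quadratic` and `lip_of_quadratic`; periodicity of `v` from `leaf_shift`; `vbd` from
  `leaf_vbound`. The Lipschitz bound is needed for all pairs of points: for `|z - z'| > 1/4` use the
  bound of `|v|`. `Λ` depends only on `R` and `W`.
-/

set_option autoImplicit false

open MeasureTheory
open scoped RealInnerProductSpace

namespace Pool.Agent.H33.AN

variable {B : ℝ} {W W₁ W₂ : ℝ → ℝ → ℝ}

private theorem J3b_fderiv {U : ℝ → ℝ → ℝ} {x t a b C : ℝ}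
    (h : ∀ h k : ℝ, |h| ≤ 1 / 2 → |k| ≤ 1 / 2 →
      |U (x + h) (t + k) - U x t - a * h - b * k| ≤ C * (h ^ 2 + k ^ 2)) :
    HasFDerivAt (fun z : ℝ × ℝ => U z.1 z.2)
      (a • ContinuousLinearMap.fst ℝ ℝ ℝ + b • ContinuousLinearMap.snd ℝ ℝ ℝ) (x, t) := by
  rw [hasFDerivAt_iff_isLittleO_nhds_zero]
  have h1 : (fun z : ℝ × ℝ => (fun z : ℝ × ℝ => U z.1 z.2) ((x, t) + z) -
      (fun z : ℝ × ℝ => U z.1 z.2) (x, t) -
      (a • ContinuousLinearMap.fst ℝ ℝ ℝ + b • ContinuousLinearMap.snd ℝ ℝ ℝ) z)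
      =O[nhds 0] fun z : ℝ × ℝ => ‖z‖ ^ 2 := by
    refine Asymptotics.IsBigO.of_bound (2 * |C|) ?_
    have h2 : Metric.ball (0 : ℝ × ℝ) (1 / 2) ∈ nhds (0 : ℝ × ℝ) :=
      Metric.ball_mem_nhds _ (by norm_num)
    filter_upwards [h2] with z hz
    rw [mem_ball_zero_iff] at hz
    have h3 : |z.1| ≤ ‖z‖ := by rw [← Real.norm_eq_abs]; exact norm_fst_le z
    have h4 : |z.2| ≤ ‖z‖ := by rw [← Real.norm_eq_abs]; exact norm_snd_le z
    have h5 := h z.1 z.2 (h3.trans hz.le) (h4.trans hz.le)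
    have h6 : z.1 ^ 2 ≤ ‖z‖ ^ 2 := by
      rw [← sq_abs]; exact pow_le_pow_left₀ (abs_nonneg _) h3 2
    have h7 : z.2 ^ 2 ≤ ‖z‖ ^ 2 := by
      rw [← sq_abs]; exact pow_le_pow_left₀ (abs_nonneg _) h4 2
    rw [Real.norm_eq_abs, Real.norm_eq_abs, abs_of_nonneg (by positivity : (0 : ℝ) ≤ ‖z‖ ^ 2)]
    have h8 : (fun z : ℝ × ℝ => U z.1 z.2) ((x, t) + z) - (fun z : ℝ × ℝ => U z.1 z.2) (x, t) -
        (a • ContinuousLinearMap.fst ℝ ℝ ℝ + b • ContinuousLinearMap.snd ℝ ℝ ℝ) z =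
        U (x + z.1) (t + z.2) - U x t - a * z.1 - b * z.2 := by
      simp
      ring
    rw [h8]
    refine h5.trans ?_
    calc C * (z.1 ^ 2 + z.2 ^ 2) ≤ |C| * (z.1 ^ 2 + z.2 ^ 2) :=
          mul_le_mul_of_nonneg_right (le_abs_self C) (by positivity)
      _ ≤ |C| * (‖z‖ ^ 2 + ‖z‖ ^ 2) := mul_le_mul_of_nonneg_left (by linarith) (abs_nonneg C)
      _ = 2 * |C| * ‖z‖ ^ 2 := by ring
  refine h1.trans_isLittleO ?_
  exact Asymptotics.isLittleO_norm_pow_id one_lt_two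

theorem kam_exists (hW : HW 1 W W₁ W₂ B) (hf : Foliated W) (R : ℝ) :
    ∃ Λ : ℝ, ∀ (p : ℤ) (Q : ℕ), 0 < Q → |(p : ℝ) / Q| ≤ R →
      ∃ (c α : ℝ) (u v : ℝ → ℝ → ℝ), Kam W W₁ p Q c α u v Λ := by
  obtain ⟨C, hC⟩ := quadratic hW R
  have hB := hW.nonneg
  refine ⟨20 * |C| + 8 * (|R| + 1 + B), fun p Q hQ hR => ?_⟩
  obtain ⟨c, hc⟩ := subgrad hW hf p hQ
  obtain ⟨U, CU, hU1, hU2, _, hU⟩ := domination hW (p := p) (Q := Q) (c := c) rfl hc
  have hex : ∀ x t : ℝ, ∃ γ ν : ℝ → ℝ, Leaf W W₁ p Q γ ν ∧ γ t = x := fun x t =>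
    leaf_exists hW hQ (hf p Q hQ t x)
  choose γ ν hL hγ using hex
  -- the velocity field
  have hleaf : ∀ x t s, ν x t s = ν (γ x t s) s s := fun x t s =>
    congrFun (leaf_unique hW hQ (hL x t) (hL (γ x t s) s) (s := s) (hγ (γ x t s) s).symm).2 s
  have hCabs : 0 ≤ |C| := abs_nonneg C
  have hRabs : 0 ≤ |R| := abs_nonneg R
  have hvb : ∀ x t, |ν x t t| ≤ |R| + 1 + B := by
    intro x t
    have h1 := leaf_vbound hW hQ (hL x t) t
    have h2 : |ν x t t| ≤ |ν x t t - (p : ℝ) / Q| + |(p : ℝ) / Q| := by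
      have h3 := abs_add_le (ν x t t - (p : ℝ) / Q) ((p : ℝ) / Q)
      rwa [sub_add_cancel] at h3
    have h3 : R ≤ |R| := le_abs_self R
    linarith
  have hquad : ∀ x t h k : ℝ, |h| ≤ 1 / 2 → |k| ≤ 1 / 2 →
      |U (x + h) (t + k) - U x t - (ν x t t - c) * h -
        (c * ((p : ℝ) / Q) - EpQ W p Q / Q - ν x t t ^ 2 / 2 - W x t) * k| ≤
        C * (h ^ 2 + k ^ 2) := by
    intro x t h k hh hk
    have h1 := hC p Q c _ U hQ hR rfl hU1 hU2 hU (γ x t) (ν x t) (hL x t) t h k hh hk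
    rwa [hγ] at h1
  refine ⟨c, c * ((p : ℝ) / Q) - EpQ W p Q / Q, U, fun x t => ν x t t, ?_⟩
  refine
    { fder := fun x t => J3b_fderiv (hquad x t)
      per₁ := hU1
      per₂ := hU2
      vper₁ := fun x t => ?_
      vper₂ := fun x t => ?_
      vbd := fun x t => ?_
      lip := fun x t x' t' => ?_
      leaf := fun x t => ⟨γ x t, ν x t, hL x t, hγ x t, hleaf x t⟩
      alpha := rfl
      crit := hc }
  · have h1 := leaf_shift hW (hL x t) 0 1
    have h2 := (leaf_unique hW hQ (hL (x + 1) t) h1 (s := t) (by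
      rw [hγ]
      simp [hγ])).2
    have h3 := congrFun h2 t
    simpa using h3
  · have h1 := leaf_shift hW (hL x t) (-1) 0
    have h2 := (leaf_unique hW hQ (hL x (t + 1)) h1 (s := t + 1) (by
      rw [hγ]
      simp [hγ])).2
    have h3 := congrFun h2 (t + 1)
    simpa using h3
  · exact (hvb x t).trans (by linarith)
  · have hd : 0 ≤ |x - x'| + |t - t'| := by positivity
    rcases le_total (|x - x'| + |t - t'|) (1 / 4) with hle | hge
    · have h1 := lip_of_quadratic (U := U) (P := fun x t => ν x t t - c)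
        (R := fun x t => c * ((p : ℝ) / Q) - EpQ W p Q / Q - ν x t t ^ 2 / 2 - W x t) hquad
        x t x' t' hle
      have h2 : ν x t t - c - (ν x' t' t' - c) = ν x t t - ν x' t' t' := by ring
      rw [h2] at h1
      refine h1.trans (mul_le_mul_of_nonneg_right ?_ hd)
      linarith
    · have h1 : |ν x t t - ν x' t' t'| ≤ 2 * (|R| + 1 + B) := by
        have h2 := abs_sub (ν x t t) (ν x' t' t')
        linarith [hvb x t, hvb x' t']
      have h2 : 2 * (|R| + 1 + B) ≤ 8 * (|R| + 1 + B) * (|x - x'| + |t - t'|) := by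
        nlinarith
      have h3 : 8 * (|R| + 1 + B) * (|x - x'| + |t - t'|) ≤
          (20 * |C| + 8 * (|R| + 1 + B)) * (|x - x'| + |t - t'|) :=
        mul_le_mul_of_nonneg_right (by linarith) hd
      linarith

end Pool.Agent.H33.AN
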