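import Pool.Agent.H33.AN.P.J3

/-!
# Module J4: order of the invariant graphs

* `kam_mean`: `v(·, t) = c + ∂ₓ u(·, t)` and `u` is 1-periodic in `x`.
* `kam_c`: by `Dm_lower`, `ρ²/2 - B ≤ EpQ W p Q/Q ≤ ρ²/2 + B` for `ρ = p/Q`; use `crit` with
  `(p ± Q, Q)`: `c ≤ b(ρ + 1) - b(ρ) ≤ ρ + 1/2 + 2 B`, `c ≥ ρ - 1/2 - 2 B`.
* `kam_order`: if `v x t = v' x t` then the leaves of both types through `(x, t)` have the same velocity,
  so they coincide (`ext_unique`), hence `γ (t + Q Q') = γ t + p Q' = γ t + p' Q`: contradiction. So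
  `v' - v` is continuous and never `0`, hence of constant sign on `ℝ²`. From `crit` for both:
  `c ≤ c'`. By `kam_mean` the sign is positive and `c < c'`.
-/

set_option autoImplicit false

open MeasureTheory
open scoped RealInnerProductSpace

namespace Pool.Agent.H33.AN

variable {B : ℝ} {W W₁ W₂ : ℝ → ℝ → ℝ} {p p' : ℤ} {Q Q' : ℕ} {c α c' α' Λ Λ' : ℝ}
  {u v u' v' : ℝ → ℝ → ℝ}

private theorem J4a_cont (h : Kam W W₁ p Q c α u v Λ) :
    Continuous fun z : ℝ × ℝ => v z.1 z.2 := by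
  have hΛ : 0 ≤ Λ := (abs_nonneg _).trans (h.vbd 0 0)
  refine (LipschitzWith.of_dist_le_mul (K := ⟨2 * Λ, by positivity⟩) (fun z w => ?_)).continuous
  have h1 := h.lip z.1 z.2 w.1 w.2
  have h2 : |z.1 - w.1| ≤ dist z w := by
    rw [← Real.dist_eq, Prod.dist_eq]; exact le_max_left _ _
  have h3 : |z.2 - w.2| ≤ dist z w := by
    rw [← Real.dist_eq, Prod.dist_eq]; exact le_max_right _ _
  rw [Real.dist_eq]
  calc |v z.1 z.2 - v w.1 w.2| ≤ Λ * (|z.1 - w.1| + |z.2 - w.2|) := h1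
    _ ≤ Λ * (dist z w + dist z w) := mul_le_mul_of_nonneg_left (add_le_add h2 h3) hΛ
    _ = (2 * Λ) * dist z w := by ring

theorem kam_mean (h : Kam W W₁ p Q c α u v Λ) (t : ℝ) : ∫ x in (0 : ℝ)..1, v x t = c := by
  have hd : ∀ x, HasDerivAt (fun x => u x t) (v x t - c) x := by
    intro x
    have h1 : HasDerivAt (fun y : ℝ => ((y, t) : ℝ × ℝ)) (1, 0) x :=
      (hasDerivAt_id x).prodMk (hasDerivAt_const x t)
    have h2 := (h.fder x t).comp_hasDerivAt x h1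
    have e : ((v x t - c) • ContinuousLinearMap.fst ℝ ℝ ℝ +
        (α - v x t ^ 2 / 2 - W x t) • ContinuousLinearMap.snd ℝ ℝ ℝ) ((1 : ℝ), (0 : ℝ))
        = v x t - c := by simp
    rw [e] at h2
    exact h2
  have hc : Continuous fun x => v x t := (J4a_cont h).comp (by fun_prop : Continuous fun x : ℝ =>
    ((x, t) : ℝ × ℝ))
  have hI : ∫ x in (0 : ℝ)..1, (v x t - c) = u 1 t - u 0 t :=
    intervalIntegral.integral_eq_sub_of_hasDerivAt (fun x _ => hd x)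
      ((hc.sub continuous_const).intervalIntegrable _ _)
  have hp : u 1 t = u 0 t := by
    have := h.per₁ 0 t
    rwa [zero_add] at this
  rw [hp, sub_self, intervalIntegral.integral_sub (hc.intervalIntegrable _ _)
    (continuous_const.intervalIntegrable _ _)] at hI
  simp at hI
  linarith

private theorem J4a_bounds (hW : HW 1 W W₁ W₂ B) (hQ : 0 < Q) (p : ℤ) :
    ((p : ℝ) / Q) ^ 2 / 2 - B ≤ EpQ W p Q / Q ∧ EpQ W p Q / Q ≤ ((p : ℝ) / Q) ^ 2 / 2 + B := by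
  have hQ' : (0 : ℝ) < Q := by exact_mod_cast hQ
  have hlt : (0 : ℝ) < 0 + Q := by linarith
  obtain ⟨x, hx⟩ := Ep_attained (p := p) hW hQ 0
  have h1 := (Dm_lower hW hlt x (x + p)).1
  have h2 := (Dm_lower hW hlt x (x + p)).2
  rw [hx] at h1 h2
  have e1 : (x + (p : ℝ) - x) ^ 2 / (2 * (0 + (Q : ℝ) - 0)) = ((p : ℝ) / Q) ^ 2 / 2 * Q := by
    rw [add_sub_cancel_left, zero_add, sub_zero]
    field_simp
  rw [e1] at h1 h2
  constructor
  · rw [le_div_iff₀ hQ']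
    linarith
  · rw [div_le_iff₀ hQ']
    linarith

theorem kam_c (hW : HW 1 W W₁ W₂ B) (hQ : 0 < Q) (h : Kam W W₁ p Q c α u v Λ) :
    |c - (p : ℝ) / Q| ≤ 1 / 2 + 2 * B := by
  have hQ' : (0 : ℝ) < Q := by exact_mod_cast hQ
  have h0 := J4a_bounds hW hQ p
  have hp := J4a_bounds hW hQ (p + Q)
  have hm := J4a_bounds hW hQ (p - Q)
  have cp := h.crit (p + Q) Q hQ
  have cm := h.crit (p - Q) Q hQ
  have e1 : (((p + (Q : ℤ) : ℤ) : ℝ)) / Q = (p : ℝ) / Q + 1 := by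
    push_cast
    field_simp
  have e2 : (((p - (Q : ℤ) : ℤ) : ℝ)) / Q = (p : ℝ) / Q - 1 := by
    push_cast
    field_simp
  rw [e1] at hp cp
  rw [e2] at hm cm
  rw [abs_le]
  constructor
  · nlinarith [h0.1, hm.2]
  · nlinarith [h0.1, hp.2]

end Pool.Agent.H33.AN
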