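import Pool.Agent.H33.AN.P.J3
import Pool.Agent.H33.AN.P.J4a

/-!
# Module J4: order of the invariant graphs

* `kam_mean`: `v(·, t) = c + ∂ₓ u(·, t)` and `u` is 1-periodic in `x`.
* `kam_c`: by `Dm_lower`, `ρ²/2 - B ≤ EpQ W p Q/Q ≤ ρ²/2 + B` for `ρ = p/Q`; use `crit` with
  `(p ± Q, Q)`: `c ≤ b(ρ + 1) - b(ρ) ≤ ρ + 1/2 + 2 B`, `c ≥ ρ - 1/2 - 2 B`.
* `kam_order`: if `v x t = v' x t` then the leaves of both types through `(x, t)` have the same velocity,
  so they coincide (`ext_unique`), hence `γ (t + Q Q') = γ t + p Q' = γ t + p' Q`: contradiction. So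
  `v' - v` is continuous and never `0`, hence of constant sign on `ℝ²`. From `crit` for both:
  `c ≤ c'`. By `kam_mean` the sign is positive and `c < c'`.
-/

set_option autoImplicit false

open MeasureTheory
open scoped RealInnerProductSpace

namespace Pool.Agent.H33.AN

variable {B : ℝ} {W W₁ W₂ : ℝ → ℝ → ℝ} {p p' : ℤ} {Q Q' : ℕ} {c α c' α' Λ Λ' : ℝ}
  {u v u' v' : ℝ → ℝ → ℝ}

private theorem J4b_cont (h : Kam W W₁ p Q c α u v Λ) : Continuous fun z : ℝ × ℝ => v z.1 z.2 := by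
  rw [continuous_iff_continuousAt]
  intro z
  have h1 : Filter.Tendsto (fun w : ℝ × ℝ => Λ * (|w.1 - z.1| + |w.2 - z.2|)) (nhds z) (nhds 0) := by
    have h2 : Continuous fun w : ℝ × ℝ => Λ * (|w.1 - z.1| + |w.2 - z.2|) := by fun_prop
    have h3 := h2.tendsto z
    simpa using h3
  rw [ContinuousAt, tendsto_iff_dist_tendsto_zero]
  apply squeeze_zero (fun _ => dist_nonneg) _ h1
  intro w
  rw [Real.dist_eq]
  exact h.lip w.1 w.2 z.1 z.2

private theorem J4b_per {γ ν : ℝ → ℝ} (hl : Leaf W W₁ p Q γ ν) (t : ℝ) (k : ℕ) :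
    γ (t + k * Q) = γ t + k * p := by
  induction k with
  | zero => simp
  | succ k ih =>
    have h1 : t + ((k + 1 : ℕ) : ℝ) * Q = t + k * Q + Q := by push_cast; ring
    rw [h1, hl.per, ih]
    push_cast
    ring

private theorem J4b_int {f g : ℝ → ℝ} (hf : Continuous f) (hg : Continuous g) (h : ∀ x, f x < g x) :
    ∫ x in (0 : ℝ)..1, f x < ∫ x in (0 : ℝ)..1, g x := by
  apply intervalIntegral.integral_lt_integral_of_continuousOn_of_le_of_exists_lt (by norm_num)
    hf.continuousOn hg.continuousOn (fun x _ => (h x).le)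
  exact ⟨0, by simp, h 0⟩

theorem kam_order (hW : HW 1 W W₁ W₂ B) (hQ : 0 < Q) (hQ' : 0 < Q')
    (h : Kam W W₁ p Q c α u v Λ) (h' : Kam W W₁ p' Q' c' α' u' v' Λ')
    (hlt : (p : ℝ) / Q < (p' : ℝ) / Q') : (∀ x t, v x t < v' x t) ∧ c < c' := by
  have hQR : (0 : ℝ) < Q := by exact_mod_cast hQ
  have hQR' : (0 : ℝ) < Q' := by exact_mod_cast hQ'
  have hne : ∀ x t, v x t ≠ v' x t := by
    intro x t he
    obtain ⟨γ, ν, hl, h1, h2⟩ := h.leaf x t
    obtain ⟨γ', ν', hl', h1', h2'⟩ := h'.leaf x t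
    have h3 : γ t = γ' t := h1.trans h1'.symm
    have h4 : ν t = ν' t := by
      rw [h2 t, h2' t, h1, h1']
      exact he
    obtain ⟨h5, -⟩ := ext_unique hW hl.ext hl'.ext h3 h4
    have h6 := J4b_per hl t Q'
    have h7 := J4b_per hl' t Q
    rw [← h5, mul_comm (Q : ℝ) Q', h6] at h7
    have h8 : (p : ℝ) / Q = (p' : ℝ) / Q' := by
      rw [div_eq_div_iff hQR.ne' hQR'.ne']
      linarith
    exact hlt.ne h8
  have hc1 := J4b_cont h
  have hc2 := J4b_cont h'
  have hcle : c ≤ c' := by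
    have h1 := h.crit p' Q' hQ'
    have h2 := h'.crit p Q hQ
    have h3 : c * ((p' : ℝ) / Q' - (p : ℝ) / Q) ≤ c' * ((p' : ℝ) / Q' - (p : ℝ) / Q) := by
      have h4 : c' * ((p : ℝ) / Q - (p' : ℝ) / Q') = -(c' * ((p' : ℝ) / Q' - (p : ℝ) / Q)) := by
        ring
      rw [h4] at h2
      linarith
    exact le_of_mul_le_mul_right h3 (by linarith)
  have hcx : Continuous fun x : ℝ => v x 0 := hc1.comp (by fun_prop : Continuous fun x : ℝ => (x, (0 : ℝ)))
  have hcx' : Continuous fun x : ℝ => v' x 0 :=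
    hc2.comp (by fun_prop : Continuous fun x : ℝ => (x, (0 : ℝ)))
  have hm := kam_mean h 0
  have hm' := kam_mean h' 0
  have hsign : ∀ x t, v x t < v' x t := by
    by_contra hcon
    push Not at hcon
    obtain ⟨x₀, t₀, h0⟩ := hcon
    have h0' : v' x₀ t₀ < v x₀ t₀ := lt_of_le_of_ne h0 (hne x₀ t₀).symm
    have hall : ∀ x t, v' x t < v x t := by
      intro x t
      by_contra h1
      push Not at h1
      have h2 : v x t < v' x t := lt_of_le_of_ne h1 (hne x t)
      have hf : Continuous fun z : ℝ × ℝ => v z.1 z.2 - v' z.1 z.2 := hc1.sub hc2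
      have h3 := isPreconnected_univ.intermediate_value₂ (Set.mem_univ ((x, t) : ℝ × ℝ))
        (Set.mem_univ ((x₀, t₀) : ℝ × ℝ)) hc1.continuousOn hc2.continuousOn h2.le h0'.le
      obtain ⟨z, -, hz⟩ := h3
      exact hne z.1 z.2 hz
    have h1 := J4b_int hcx' hcx (fun x => hall x 0)
    rw [hm, hm'] at h1
    linarith
  refine ⟨hsign, ?_⟩
  have h1 := J4b_int hcx hcx' (fun x => hsign x 0)
  rw [hm, hm'] at h1
  exact h1

end Pool.Agent.H33.AN
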