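import Pool.Agent.H33.AN.P.J4

/-!
# Module J5: the invariant graphs depend continuously on the rotation number

* `kam_close`: let `γ`, `ν` be the leaf of type `(p, Q)` through `(x, t)`, `m = j Q`, `ρ = p/Q`, `ρ' = p'/Q'`,
  `|ρ - ρ'| ≤ 2/m²`. Along `γ`: `(d/ds) u'(γ, s) = (v' - c') ν + α' - v'²/2 - W` (`v' = v'(γ s, s)`), and
  `u'` takes the same value at the times `t`, `t + m`, so
  `∫_t^{t+m} (ν - v')²/2 = A1 W t (t + m) γ ν - c' j p + α' m = m (b(ρ) - b(ρ') - c' (ρ - ρ'))`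
  `≤ m (c - c') (ρ - ρ') ≤ 4 Λ/m` (`crit` for `(p, Q)`, `b = EpQ/Q`; `|c|, |c'| ≤ Λ` by `kam_mean`).
  The function `g = |ν - v'(γ, ·)|` is Lipschitz with the constant `L = B + Λ (Λ + 1) + 2 Λ + 1` and
  `g(t) = η ≤ 2 Λ`, so `g ≥ η/2` on `[t, t + η/(2 L)]`, `η/(2 L) ≤ 1 ≤ m`, and `η³/(16 L) ≤ 4 Λ/m`.
* `kam_unif`: let `N` be large, `η = 1/N²`. Dirichlet (`Real.exists_int_int_abs_mul_sub_le` or
  `Real.exists_rat_abs_sub_le_and_den_le`): there are `a`, `1 ≤ q ≤ N`, `|ρ - a/q| ≤ 1/(q (N + 1))`.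
  Let `j ≥ 1` be the largest integer with `j² q ≤ N`, `m = j q`: `m² ≤ q N ≤ N²`,
  `m ≥ √(N q)/2 ≥ √N/2`; so `|ρ - a/q| ≤ 1/m²`, `|ρ' - a/q| ≤ 2/m²`, and `kam_close` (with the graph of
  type `(a, q)` and `j`) gives `|v - v_{a/q}|³ ≤ C/m`, `|v' - v_{a/q}|³ ≤ C/m`.
-/

set_option autoImplicit false

open MeasureTheory
open scoped RealInnerProductSpace

namespace Pool.Agent.H33.AN

variable {B : ℝ} {W W₁ W₂ : ℝ → ℝ → ℝ}

private theorem J5a_per {p : ℤ} {Q : ℕ} {γ ν : ℝ → ℝ} (hl : Leaf W W₁ p Q γ ν) (s : ℝ) :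
    ∀ j : ℕ, γ (s + (j : ℝ) * Q) = γ s + (j : ℝ) * p := by
  intro j
  induction j with
  | zero => simp
  | succ j ih =>
    have h1 : s + ((j + 1 : ℕ) : ℝ) * Q = (s + (j : ℝ) * Q) + Q := by
      push_cast
      ring
    rw [h1, hl.per, ih]
    push_cast
    ring

private theorem J5a_Wc (hW : HW 1 W W₁ W₂ B) : Continuous fun z : ℝ × ℝ => W z.1 z.2 :=
  continuous_iff_continuousAt.2 fun z => (hW.der z.1 z.2).continuousAt

private theorem J5a_act (hW : HW 1 W W₁ W₂ B) {p : ℤ} {Q : ℕ} {γ ν : ℝ → ℝ}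
    (hl : Leaf W W₁ p Q γ ν) (t : ℝ) :
    ∀ j : ℕ, A1 W t (t + (j : ℝ) * Q) γ ν = (j : ℝ) * EpQ W p Q := by
  have hγ : Continuous γ := continuous_iff_continuousAt.2 fun s => (hl.ext.der s).continuousAt
  have hν : Continuous ν := continuous_iff_continuousAt.2 fun s => (hl.ext.el s).continuousAt
  have hc : Continuous fun s => ν s ^ 2 / 2 - W (γ s) s :=
    ((hν.pow 2).div_const 2).sub ((J5a_Wc hW).comp (hγ.prodMk continuous_id))
  intro j
  induction j with
  | zero => simp [A1]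
  | succ j ih =>
    have h1 : t + ((j + 1 : ℕ) : ℝ) * Q = (t + (j : ℝ) * Q) + Q := by
      push_cast
      ring
    have h2 := hl.act (t + (j : ℝ) * Q)
    unfold A1 at ih h2 ⊢
    rw [h1, ← intervalIntegral.integral_add_adjacent_intervals
      (hc.intervalIntegrable t (t + (j : ℝ) * Q))
      (hc.intervalIntegrable (t + (j : ℝ) * Q) (t + (j : ℝ) * Q + Q)), ih, h2]
    push_cast
    ring

private theorem J5a_c {p : ℤ} {Q : ℕ} {c α Λ : ℝ} {u v : ℝ → ℝ → ℝ}
    (h : Kam W W₁ p Q c α u v Λ) : |c| ≤ Λ := by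
  rw [← kam_mean h 0]
  have h1 := intervalIntegral.norm_integral_le_of_norm_le_const (a := (0 : ℝ)) (b := 1) (C := Λ)
    (f := fun x => v x 0) (fun x _ => h.vbd x 0)
  simpa using h1

private theorem J5a_uper {p' : ℤ} {Q' : ℕ} {c' α' Λ : ℝ} {u' v' : ℝ → ℝ → ℝ}
    (h' : Kam W W₁ p' Q' c' α' u' v' Λ) (x t : ℝ) (k : ℤ) (n : ℕ) :
    u' (x + k) (t + n) = u' x t := by
  have h1 : ∀ y s : ℝ, u' (y + k) s = u' y s := by
    intro y s
    have hp : Function.Periodic (fun z => u' z s) 1 := fun z => h'.per₁ z s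
    have := hp.int_mul k y
    simpa using this
  have h2 : ∀ y s : ℝ, u' y (s + n) = u' y s := by
    intro y s
    have hp : Function.Periodic (fun z => u' y z) 1 := fun z => h'.per₂ y z
    have := hp.nat_mul n s
    simpa using this
  rw [h1, h2]

theorem kam_close (hW : HW 1 W W₁ W₂ B) (Λ : ℝ) :
    ∃ C : ℝ, 0 ≤ C ∧ ∀ (p p' : ℤ) (Q Q' j : ℕ) (c α c' α' : ℝ) (u v u' v' : ℝ → ℝ → ℝ),
      0 < Q → 0 < Q' → 0 < j → Kam W W₁ p Q c α u v Λ → Kam W W₁ p' Q' c' α' u' v' Λ →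
      |(p : ℝ) / Q - (p' : ℝ) / Q'| ≤ 2 / ((j : ℝ) * Q) ^ 2 →
      ∀ x t, |v x t - v' x t| ^ 3 ≤ C / ((j : ℝ) * Q) := by
  have hB := hW.nonneg
  refine ⟨64 * (B + |Λ| * (|Λ| + 1) + 2 * |Λ| + 1) * |Λ|, by positivity, ?_⟩
  intro p p' Q Q' j c α c' α' u v u' v' hQ hQ' hj h h' hρ x t
  have hΛ : 0 ≤ Λ := (abs_nonneg _).trans (h.vbd 0 0)
  rw [abs_of_nonneg hΛ]
  obtain ⟨L, hL⟩ : ∃ L : ℝ, L = B + Λ * (Λ + 1) + 2 * Λ + 1 := ⟨_, rfl⟩
  have hL1 : 1 ≤ L := by
    rw [hL]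
    nlinarith [mul_nonneg hΛ hΛ]
  have hL2 : 2 * Λ ≤ L := by
    rw [hL]
    nlinarith [mul_nonneg hΛ hΛ]
  rw [← hL]
  obtain ⟨m, hm⟩ : ∃ m : ℝ, m = (j : ℝ) * Q := ⟨_, rfl⟩
  have hm1 : 1 ≤ m := by
    have h1 : 1 ≤ j * Q := Nat.mul_pos hj hQ
    rw [hm]
    exact_mod_cast h1
  have hm0 : 0 < m := by linarith
  rw [← hm] at hρ ⊢
  obtain ⟨γ, ν, hl, hγt, hνv⟩ := h.leaf x t
  have hγ : Continuous γ := continuous_iff_continuousAt.2 fun s => (hl.ext.der s).continuousAt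
  have hν : Continuous ν := continuous_iff_continuousAt.2 fun s => (hl.ext.el s).continuousAt
  have hνb : ∀ s, |ν s| ≤ Λ := fun s => by rw [hνv]; exact h.vbd _ _
  -- Lipschitz bounds
  have hγL : ∀ s s', |γ s - γ s'| ≤ Λ * |s - s'| := by
    intro s s'
    have := Convex.norm_image_sub_le_of_norm_hasDerivWithin_le (f := γ) (f' := ν) (C := Λ)
      (s := Set.univ) (x := s') (y := s) (fun z _ => (hl.ext.der z).hasDerivWithinAt)
      (fun z _ => hνb z) convex_univ (Set.mem_univ _) (Set.mem_univ _)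
    simpa using this
  have hνL : ∀ s s', |ν s - ν s'| ≤ B * |s - s'| := by
    intro s s'
    have := Convex.norm_image_sub_le_of_norm_hasDerivWithin_le (f := ν)
      (f' := fun z => -W₁ (γ z) z) (C := B)
      (s := Set.univ) (x := s') (y := s) (fun z _ => (hl.ext.el z).hasDerivWithinAt)
      (fun z _ => by
        show |-W₁ (γ z) z| ≤ B
        rw [abs_neg]
        exact hW.bd₁ _ _) convex_univ (Set.mem_univ _) (Set.mem_univ _)
    simpa using this
  obtain ⟨w, hw⟩ : ∃ w : ℝ → ℝ, ∀ s, w s = v' (γ s) s := ⟨_, fun _ => rfl⟩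
  have hwL : ∀ s s', |w s - w s'| ≤ Λ * (Λ + 1) * |s - s'| := by
    intro s s'
    rw [hw, hw]
    refine (h'.lip _ _ _ _).trans ?_
    have := hγL s s'
    calc Λ * (|γ s - γ s'| + |s - s'|) ≤ Λ * (Λ * |s - s'| + |s - s'|) :=
          mul_le_mul_of_nonneg_left (by linarith) hΛ
      _ = Λ * (Λ + 1) * |s - s'| := by ring
  have hwc : Continuous w := by
    have : LipschitzWith (Real.toNNReal (Λ * (Λ + 1))) w :=
      LipschitzWith.of_dist_le' fun s s' => by
        rw [Real.dist_eq, Real.dist_eq]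
        exact hwL s s'
    exact this.continuous
  have hwb : ∀ s, |w s| ≤ Λ := fun s => by rw [hw]; exact h'.vbd _ _
  have hWγ : Continuous fun s => W (γ s) s := (J5a_Wc hW).comp (hγ.prodMk continuous_id)
  -- the derivative of u' along the leaf
  have hφ : ∀ s, HasDerivAt (fun s => u' (γ s) s)
      ((w s - c') * ν s + (α' - w s ^ 2 / 2 - W (γ s) s)) s := by
    intro s
    have h1 := h'.fder (γ s) s
    have h2 : HasDerivAt (fun s => (γ s, s)) (ν s, (1 : ℝ)) s := (hl.ext.der s).prodMk (hasDerivAt_id s)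
    have h3 := HasFDerivAt.comp_hasDerivAt (x := s) (f := fun s => (γ s, s))
      (l := fun z : ℝ × ℝ => u' z.1 z.2) h1 h2
    have h4 : ((v' (γ s) s - c') • ContinuousLinearMap.fst ℝ ℝ ℝ +
        (α' - v' (γ s) s ^ 2 / 2 - W (γ s) s) • ContinuousLinearMap.snd ℝ ℝ ℝ) (ν s, (1 : ℝ)) =
        (w s - c') * ν s + (α' - w s ^ 2 / 2 - W (γ s) s) := by
      rw [hw]
      simp
    rw [h4] at h3
    exact h3
  have hφc : Continuous fun s => (w s - c') * ν s + (α' - w s ^ 2 / 2 - W (γ s) s) :=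
    ((hwc.sub continuous_const).mul hν).add
      ((continuous_const.sub ((hwc.pow 2).div_const 2)).sub hWγ)
  have hγm : γ (t + m) = γ t + (j : ℝ) * p := by
    rw [hm]
    exact J5a_per hl t j
  have i1 : ∫ s in t..(t + m), ((w s - c') * ν s + (α' - w s ^ 2 / 2 - W (γ s) s)) = 0 := by
    rw [intervalIntegral.integral_eq_sub_of_hasDerivAt (fun s _ => hφ s)
      (hφc.intervalIntegrable _ _)]
    have h1 := J5a_uper h' (γ t) t (j * p) (j * Q)
    push_cast at h1
    rw [hγm, hm, h1, sub_self]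
  have i2 : ∫ s in t..(t + m), ν s = (j : ℝ) * p := by
    rw [intervalIntegral.integral_eq_sub_of_hasDerivAt (fun s _ => hl.ext.der s)
      (hν.intervalIntegrable _ _), hγm]
    ring
  have i3 : ∫ s in t..(t + m), (ν s ^ 2 / 2 - W (γ s) s) = (j : ℝ) * EpQ W p Q := by
    have := J5a_act hW hl t j
    rw [← hm] at this
    exact this
  have hAc : Continuous fun s => ν s ^ 2 / 2 - W (γ s) s := ((hν.pow 2).div_const 2).sub hWγ
  have i4 : ∫ s in t..(t + m), (ν s - w s) ^ 2 / 2 =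
      (j : ℝ) * EpQ W p Q - c' * ((j : ℝ) * p) + α' * m := by
    have h1 : ∀ s, (ν s - w s) ^ 2 / 2 = (ν s ^ 2 / 2 - W (γ s) s) -
        ((w s - c') * ν s + (α' - w s ^ 2 / 2 - W (γ s) s)) - c' * ν s + α' := by
      intro s
      ring
    rw [intervalIntegral.integral_congr (g := fun s => (ν s ^ 2 / 2 - W (γ s) s) -
        ((w s - c') * ν s + (α' - w s ^ 2 / 2 - W (γ s) s)) - c' * ν s + α') (fun s _ => h1 s)]
    rw [intervalIntegral.integral_add, intervalIntegral.integral_sub,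
      intervalIntegral.integral_sub, i1, i3, intervalIntegral.integral_const_mul, i2,
      intervalIntegral.integral_const]
    · simp only [smul_eq_mul]
      ring
    · exact hAc.intervalIntegrable _ _
    · exact hφc.intervalIntegrable _ _
    · exact (hAc.sub hφc).intervalIntegrable _ _
    · exact (continuous_const.mul hν).intervalIntegrable _ _
    · exact ((hAc.sub hφc).sub (continuous_const.mul hν)).intervalIntegrable _ _
    · exact continuous_const.intervalIntegrable _ _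
  -- upper bound
  have hQr : (0 : ℝ) < Q := by exact_mod_cast hQ
  have hQr' : (0 : ℝ) < Q' := by exact_mod_cast hQ'
  have hcr := h.crit p' Q' hQ'
  have i5 : ∫ s in t..(t + m), (ν s - w s) ^ 2 / 2 ≤ 4 * Λ / m := by
    rw [i4, h'.alpha]
    have e1 : (j : ℝ) * EpQ W p Q - c' * ((j : ℝ) * p) +
        (c' * ((p' : ℝ) / Q') - EpQ W p' Q' / Q') * m =
        m * (EpQ W p Q / Q - EpQ W p' Q' / Q' - c' * ((p : ℝ) / Q - (p' : ℝ) / Q')) := by
      rw [hm]
      field_simp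
      ring
    rw [e1]
    have e2 : EpQ W p Q / Q - EpQ W p' Q' / Q' - c' * ((p : ℝ) / Q - (p' : ℝ) / Q') ≤
        (c - c') * ((p : ℝ) / Q - (p' : ℝ) / Q') := by
      have : c * ((p' : ℝ) / Q' - (p : ℝ) / Q) = -(c * ((p : ℝ) / Q - (p' : ℝ) / Q')) := by ring
      rw [this] at hcr
      linarith
    have e3 : (c - c') * ((p : ℝ) / Q - (p' : ℝ) / Q') ≤ (2 * Λ) * (2 / m ^ 2) := by
      refine (le_abs_self _).trans ?_
      rw [abs_mul]
      refine mul_le_mul ?_ hρ (abs_nonneg _) (by positivity)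
      have h1 := J5a_c h
      have h2 := J5a_c h'
      calc |c - c'| ≤ |c| + |c'| := abs_sub _ _
        _ ≤ 2 * Λ := by linarith
    calc m * (EpQ W p Q / Q - EpQ W p' Q' / Q' - c' * ((p : ℝ) / Q - (p' : ℝ) / Q')) ≤
        m * ((2 * Λ) * (2 / m ^ 2)) := mul_le_mul_of_nonneg_left (e2.trans e3) hm0.le
      _ = 4 * Λ / m := by
        field_simp
        ring
  -- lower bound
  obtain ⟨η, hη⟩ : ∃ η : ℝ, η = |v x t - v' x t| := ⟨_, rfl⟩
  rw [← hη]
  have hη0 : 0 ≤ η := by rw [hη]; exact abs_nonneg _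
  have hη2 : η ≤ 2 * Λ := by
    rw [hη]
    calc |v x t - v' x t| ≤ |v x t| + |v' x t| := abs_sub _ _
      _ ≤ 2 * Λ := by
        have h1 := h.vbd x t
        have h2 := h'.vbd x t
        linarith
  have hηt : |ν t - w t| = η := by rw [hνv, hw, hγt, hη]
  obtain ⟨δ, hδ⟩ : ∃ δ : ℝ, δ = η / (2 * L) := ⟨_, rfl⟩
  have hδ0 : 0 ≤ δ := by rw [hδ]; positivity
  have hδL : L * δ = η / 2 := by
    rw [hδ]
    field_simp
  have hδm : δ ≤ m := by
    have h1 : δ ≤ 1 := by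
      rw [hδ, div_le_one (by positivity)]
      linarith
    linarith
  have hgL : ∀ s ∈ Set.Icc t (t + δ), η / 2 ≤ |ν s - w s| := by
    intro s hs
    have h1 := hνL t s
    have h2 := hwL t s
    have h3 : |t - s| ≤ δ := by
      rw [abs_sub_comm, abs_of_nonneg (by linarith [hs.1])]
      linarith [hs.2]
    have h4 : η ≤ |ν s - w s| + (|ν t - ν s| + |w t - w s|) := by
      rw [← hηt]
      have e : ν t - w t = (ν s - w s) + ((ν t - ν s) - (w t - w s)) := by ring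
      rw [e]
      refine (abs_add_le _ _).trans ?_
      have := abs_sub (ν t - ν s) (w t - w s)
      linarith
    have h5 : |ν t - ν s| + |w t - w s| ≤ L * δ := by
      have h6 : B * |t - s| + Λ * (Λ + 1) * |t - s| ≤ L * |t - s| := by
        rw [← add_mul]
        refine mul_le_mul_of_nonneg_right ?_ (abs_nonneg _)
        rw [hL]
        linarith
      have h7 : L * |t - s| ≤ L * δ := mul_le_mul_of_nonneg_left h3 (by linarith)
      linarith
    rw [hδL] at h5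
    linarith
  have hgc : Continuous fun s => (ν s - w s) ^ 2 / 2 := ((hν.sub hwc).pow 2).div_const 2
  have i6 : δ * ((η / 2) ^ 2 / 2) ≤ ∫ s in t..(t + δ), (ν s - w s) ^ 2 / 2 := by
    have h1 : ∫ _s in t..(t + δ), (η / 2) ^ 2 / 2 ≤ ∫ s in t..(t + δ), (ν s - w s) ^ 2 / 2 := by
      apply intervalIntegral.integral_mono_on (by linarith)
        (continuous_const.intervalIntegrable _ _) (hgc.intervalIntegrable _ _)
      intro s hs
      have h2 := hgL s hs
      have h3 : (η / 2) ^ 2 ≤ |ν s - w s| ^ 2 := pow_le_pow_left₀ (by positivity) h2 2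
      rw [sq_abs] at h3
      linarith
    rw [intervalIntegral.integral_const] at h1
    simpa using h1
  have i7 : ∫ s in t..(t + δ), (ν s - w s) ^ 2 / 2 ≤ ∫ s in t..(t + m), (ν s - w s) ^ 2 / 2 := by
    rw [← intervalIntegral.integral_add_adjacent_intervals (b := t + δ)
      (hgc.intervalIntegrable t (t + δ)) (hgc.intervalIntegrable (t + δ) (t + m))]
    have : 0 ≤ ∫ s in (t + δ)..(t + m), (ν s - w s) ^ 2 / 2 := by
      apply intervalIntegral.integral_nonneg (by linarith)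
      intro s _
      positivity
    linarith
  have i8 : δ * ((η / 2) ^ 2 / 2) ≤ 4 * Λ / m := i6.trans (i7.trans i5)
  have i9 : δ * ((η / 2) ^ 2 / 2) = η ^ 3 / (16 * L) := by
    rw [hδ]
    field_simp
    ring
  rw [i9, div_le_iff₀ (by positivity)] at i8
  calc η ^ 3 ≤ 4 * Λ / m * (16 * L) := i8
    _ = 64 * L * Λ / m := by ring

end Pool.Agent.H33.AN
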