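import Pool.Agent.H33.AN.P.J4
import Pool.Agent.H33.AN.P.J5a

/-!
# Module J5: the invariant graphs depend continuously on the rotation number

* `kam_close`: let `γ`, `ν` be the leaf of type `(p, Q)` through `(x, t)`, `m = j Q`, `ρ = p/Q`, `ρ' = p'/Q'`,
  `|ρ - ρ'| ≤ 2/m²`. Along `γ`: `(d/ds) u'(γ, s) = (v' - c') ν + α' - v'²/2 - W` (`v' = v'(γ s, s)`), and
  `u'` takes the same value at the times `t`, `t + m`, so
  `∫_t^{t+m} (ν - v')²/2 = A1 W t (t + m) γ ν - c' j p + α' m = m (b(ρ) - b(ρ') - c' (ρ - ρ'))`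
  `≤ m (c - c') (ρ - ρ') ≤ 4 Λ/m` (`crit` for `(p, Q)`, `b = EpQ/Q`; `|c|, |c'| ≤ Λ` by `kam_mean`).
  The function `g = |ν - v'(γ, ·)|` is Lipschitz with the constant `L = B + Λ (Λ + 1) + 2 Λ + 1` and
  `g(t) = η ≤ 2 Λ`, so `g ≥ η/2` on `[t, t + η/(2 L)]`, `η/(2 L) ≤ 1 ≤ m`, and `η³/(16 L) ≤ 4 Λ/m`.
* `kam_unif`: let `N` be large, `η = 1/N²`. Dirichlet (`Real.exists_int_int_abs_mul_sub_le` or
  `Real.exists_rat_abs_sub_le_and_den_le`): there are `a`, `1 ≤ q ≤ N`, `|ρ - a/q| ≤ 1/(q (N + 1))`.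
  Let `j ≥ 1` be the largest integer with `j² q ≤ N`, `m = j q`: `m² ≤ q N ≤ N²`,
  `m ≥ √(N q)/2 ≥ √N/2`; so `|ρ - a/q| ≤ 1/m²`, `|ρ' - a/q| ≤ 2/m²`, and `kam_close` (with the graph of
  type `(a, q)` and `j`) gives `|v - v_{a/q}|³ ≤ C/m`, `|v' - v_{a/q}|³ ≤ C/m`.
-/

set_option autoImplicit false

open MeasureTheory
open scoped RealInnerProductSpace

namespace Pool.Agent.H33.AN

variable {B : ℝ} {W W₁ W₂ : ℝ → ℝ → ℝ}

theorem kam_unif (hW : HW 1 W W₁ W₂ B) {R Λ : ℝ}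
    (hΛ : ∀ (p : ℤ) (Q : ℕ), 0 < Q → |(p : ℝ) / Q| ≤ R + 1 →
      ∃ (c α : ℝ) (u v : ℝ → ℝ → ℝ), Kam W W₁ p Q c α u v Λ) {ε : ℝ} (hε : 0 < ε) :
    ∃ η : ℝ, 0 < η ∧ ∀ (p p' : ℤ) (Q Q' : ℕ) (c α c' α' : ℝ) (u v u' v' : ℝ → ℝ → ℝ),
      0 < Q → 0 < Q' → |(p : ℝ) / Q| ≤ R → |(p' : ℝ) / Q'| ≤ R →
      Kam W W₁ p Q c α u v Λ → Kam W W₁ p' Q' c' α' u' v' Λ →
      |(p : ℝ) / Q - (p' : ℝ) / Q'| ≤ η → ∀ x t, |v x t - v' x t| ≤ ε := by
  obtain ⟨C, hC0, hC⟩ := kam_close hW Λ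
  obtain ⟨N, hN⟩ := exists_nat_ge ((16 * C / ε ^ 3) ^ 2 + 1)
  have hN1 : (1 : ℝ) ≤ N := le_trans (by nlinarith [sq_nonneg (16 * C / ε ^ 3)]) hN
  have hN0 : 0 < N := by exact_mod_cast (lt_of_lt_of_le one_pos hN1)
  have hNr : (0 : ℝ) < N := by linarith
  refine ⟨1 / (N : ℝ) ^ 2, by positivity, ?_⟩
  intro p p' Q Q' c α c' α' u v u' v' hQ hQ' hR hR' h h' hρ x t
  obtain ⟨a, ha1, ha2⟩ := Real.exists_rat_abs_sub_le_and_den_le ((p : ℝ) / Q) hN0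
  have hq : 0 < a.den := a.den_pos
  have hqr : (0 : ℝ) < (a.den : ℝ) := by exact_mod_cast hq
  have hqN : (a.den : ℝ) ≤ N := by exact_mod_cast ha2
  have hq1 : (1 : ℝ) ≤ (a.den : ℝ) := by exact_mod_cast hq
  have haeq : (a : ℝ) = (a.num : ℝ) / a.den := by
    rw [← Rat.cast_intCast, ← Rat.cast_natCast, ← Rat.cast_div, Rat.num_div_den]
  rw [haeq] at ha1
  -- the multiplicity
  obtain ⟨j, hj⟩ : ∃ j, j = Nat.sqrt (N / a.den) := ⟨_, rfl⟩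
  have hdiv : 1 ≤ N / a.den := (Nat.one_le_div_iff hq).2 ha2
  have hj1 : 1 ≤ j := by
    rw [hj]
    exact Nat.le_sqrt.2 (by simpa using hdiv)
  have hj2 : j * j * a.den ≤ N := by
    have h1 : j * j ≤ N / a.den := by rw [hj]; exact Nat.sqrt_le _
    exact (Nat.le_div_iff_mul_le hq).1 h1
  have hj3 : N < (j + 1) * (j + 1) * a.den := by
    have h1 : N / a.den < (j + 1) * (j + 1) := by rw [hj]; exact Nat.lt_succ_sqrt _
    exact (Nat.div_lt_iff_lt_mul hq).1 h1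
  have hjr : (1 : ℝ) ≤ j := by exact_mod_cast hj1
  have hj2r : (j : ℝ) * j * a.den ≤ N := by exact_mod_cast hj2
  have hj3r : (N : ℝ) < ((j : ℝ) + 1) * (j + 1) * a.den := by exact_mod_cast hj3
  obtain ⟨m, hm⟩ : ∃ m : ℝ, m = (j : ℝ) * a.den := ⟨_, rfl⟩
  have hm0 : 0 < m := by rw [hm]; positivity
  have hm2 : m ^ 2 ≤ N * a.den := by
    have h1 : m ^ 2 = (j : ℝ) * j * a.den * a.den := by rw [hm]; ring
    rw [h1]
    exact mul_le_mul_of_nonneg_right hj2r hqr.le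
  have hmN : m ^ 2 ≤ (N : ℝ) ^ 2 := by nlinarith
  have hm4 : (N : ℝ) ≤ (2 * m) ^ 2 := by
    have h1 : ((j : ℝ) + 1) * (j + 1) * a.den ≤ (2 * j) * (2 * j) * a.den := by
      apply mul_le_mul_of_nonneg_right _ hqr.le
      apply mul_le_mul <;> linarith
    have h2 : (2 * (j : ℝ)) * (2 * j) * a.den ≤ (2 * j) * (2 * j) * a.den * a.den :=
      le_mul_of_one_le_right (by positivity) hq1
    have h3 : (2 * m) ^ 2 = (2 * (j : ℝ)) * (2 * j) * a.den * a.den := by rw [hm]; ring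
    rw [h3]
    linarith
  have hmbig : C / m ≤ (ε / 2) ^ 3 := by
    have h0 : 0 ≤ 16 * C / ε ^ 3 := by positivity
    have h1 : (16 * C / ε ^ 3) ^ 2 ≤ (2 * m) ^ 2 := by linarith
    have h2 : 16 * C / ε ^ 3 ≤ 2 * m := by
      exact (pow_le_pow_iff_left₀ h0 (by positivity) two_ne_zero).1 h1
    rw [div_le_iff₀ (by positivity)] at h2
    rw [div_le_iff₀ hm0]
    have h3 : (ε / 2) ^ 3 * m = 2 * m * ε ^ 3 / 16 := by ring
    rw [h3]
    linarith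
  -- distances
  have hd1 : |(a.num : ℝ) / a.den - (p : ℝ) / Q| ≤ 1 / m ^ 2 := by
    rw [abs_sub_comm]
    refine ha1.trans ?_
    apply one_div_le_one_div_of_le (by positivity)
    nlinarith
  have hone : 1 / (N : ℝ) ^ 2 ≤ 1 / m ^ 2 := one_div_le_one_div_of_le (by positivity) hmN
  have hd2 : |(a.num : ℝ) / a.den - (p' : ℝ) / Q'| ≤ 2 / m ^ 2 := by
    have h1 : (a.num : ℝ) / a.den - (p' : ℝ) / Q' =
        ((a.num : ℝ) / a.den - (p : ℝ) / Q) + ((p : ℝ) / Q - (p' : ℝ) / Q') := by ring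
    rw [h1]
    refine (abs_add_le _ _).trans ?_
    have h2 : 2 / m ^ 2 = 1 / m ^ 2 + 1 / m ^ 2 := by ring
    rw [h2]
    exact add_le_add hd1 (hρ.trans hone)
  have hd1' : |(a.num : ℝ) / a.den - (p : ℝ) / Q| ≤ 2 / m ^ 2 := by
    refine hd1.trans ?_
    apply div_le_div_of_nonneg_right (by norm_num) (by positivity)
  have haR : |(a.num : ℝ) / a.den| ≤ R + 1 := by
    have h1 : |(a.num : ℝ) / a.den - (p : ℝ) / Q| ≤ 1 := by
      rw [abs_sub_comm]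
      refine ha1.trans ?_
      rw [div_le_one (by positivity)]
      nlinarith
    have h2 := abs_add_le ((a.num : ℝ) / a.den - (p : ℝ) / Q) ((p : ℝ) / Q)
    rw [sub_add_cancel] at h2
    linarith
  obtain ⟨c2, α2, u2, v2, h2⟩ := hΛ a.num a.den hq haR
  rw [hm] at hd1' hd2 hmbig
  have k1 := hC a.num p a.den Q j c2 α2 c α u2 v2 u v hq hQ (by omega) h2 h hd1' x t
  have k2 := hC a.num p' a.den Q' j c2 α2 c' α' u2 v2 u' v' hq hQ' (by omega) h2 h' hd2 x t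
  have l1 : |v2 x t - v x t| ≤ ε / 2 :=
    (pow_le_pow_iff_left₀ (abs_nonneg _) (by positivity) three_ne_zero).1 (k1.trans hmbig)
  have l2 : |v2 x t - v' x t| ≤ ε / 2 :=
    (pow_le_pow_iff_left₀ (abs_nonneg _) (by positivity) three_ne_zero).1 (k2.trans hmbig)
  have l3 : v x t - v' x t = (v2 x t - v' x t) - (v2 x t - v x t) := by ring
  rw [l3]
  have l4 := abs_sub (v2 x t - v' x t) (v2 x t - v x t)
  linarith

end Pool.Agent.H33.AN
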