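import Pool.Agent.H33.AN.Trap
import Pool.Agent.H33.AN.P.J10

/-!
# Module K1: passage to the moving frame

`r = p/Q`, `w(x, t) = W(x + r t, t)`. A curve `ξ` in the moving frame corresponds to `θ(t) = ξ(t) + r t`
(`Cur.add_lin`), `A1 W s t θ = A1 w s t ξ + r (ξ t - ξ s) + r²/2 (t - s)`; closed curves of the moving
frame over `j Q` correspond to closed curves of type `(j p, j Q)`.
* `crit`, `mark`: `Ep_mark`, `Ep_le`, `Dm_per` (translate the marked curve by `-k`).
* `att`: `Ep_attained`, `leaf_exists`; the velocity of a leaf is periodic and continuous, so bounded.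
-/

set_option autoImplicit false

open MeasureTheory
open scoped RealInnerProductSpace

namespace Pool.Agent.H33.AN

open Pool.Agent.H33.AM

private theorem K1_contW {Tp B : ℝ} {W W₁ W₂ : ℝ → ℝ → ℝ} (hW : HW Tp W W₁ W₂ B) :
    Continuous fun z : ℝ × ℝ => W z.1 z.2 :=
  continuous_iff_continuousAt.2 fun z => (hW.der z.1 z.2).continuousAt

private theorem K1_contW₁ {Tp B : ℝ} {W W₁ W₂ : ℝ → ℝ → ℝ} (hW : HW Tp W W₁ W₂ B) :
    Continuous fun z : ℝ × ℝ => W₁ z.1 z.2 := by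
  have h : LipschitzWith (2 * B).toNNReal fun z : ℝ × ℝ => W₁ z.1 z.2 := by
    refine LipschitzWith.of_dist_le_mul fun z z' => ?_
    rw [Real.coe_toNNReal _ (by linarith [hW.nonneg]), Real.dist_eq]
    have h1 := hW.lip z.1 z.2 z'.1 z'.2
    have h2 : |z.1 - z'.1| ≤ dist z z' := by
      rw [← Real.dist_eq, Prod.dist_eq]
      exact le_max_left _ _
    have h3 : |z.2 - z'.2| ≤ dist z z' := by
      rw [← Real.dist_eq, Prod.dist_eq]
      exact le_max_right _ _
    have h4 := mul_le_mul_of_nonneg_left (add_le_add h2 h3) hW.nonneg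
    linarith
  exact h.continuous

private theorem K1_per {Tp B : ℝ} {W W₁ W₂ : ℝ → ℝ → ℝ} (hW : HW Tp W W₁ W₂ B) (x t : ℝ)
    (k : ℤ) : W (x + k) t = W x t := by
  have h : Function.Periodic (fun y => W y t) 1 := fun y => hW.per₁ y t
  have h1 := h.int_mul k x
  rw [mul_one] at h1
  exact h1

private theorem K1_per2 {B : ℝ} {W W₁ W₂ : ℝ → ℝ → ℝ} (hW : HW 1 W W₁ W₂ B) (x t : ℝ)
    (n : ℕ) : W x (t + n) = W x t := by
  have h : Function.Periodic (fun y => W x y) 1 := fun y => hW.per₂ x y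
  have h1 := h.nat_mul n t
  rw [mul_one] at h1
  exact h1

private theorem K1_HW {B : ℝ} {W W₁ W₂ : ℝ → ℝ → ℝ} (hW : HW 1 W W₁ W₂ B) {p : ℤ} {Q : ℕ}
    {r : ℝ} (hr : r * Q = p) :
    HW Q (fun x t => W (x + r * t) t) (fun x t => W₁ (x + r * t) t)
      (fun x t => W₂ (x + r * t) t + r * W₁ (x + r * t) t) (B * (1 + |r|)) := by
  have hB := hW.nonneg
  have hr0 := abs_nonneg r
  have hBr : 0 ≤ B * |r| := mul_nonneg hB hr0
  have hΦ : Continuous fun z : ℝ × ℝ => (z.1 + r * z.2, z.2) := by fun_prop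
  refine ⟨mul_nonneg hB (by linarith), ?_, ?_, ?_, ?_, ?_, ?_, ?_, ?_⟩
  · intro x t
    have hd : HasFDerivAt (fun z : ℝ × ℝ => (z.1 + r * z.2, z.2))
        ((ContinuousLinearMap.fst ℝ ℝ ℝ + r • ContinuousLinearMap.snd ℝ ℝ ℝ).prod
          (ContinuousLinearMap.snd ℝ ℝ ℝ)) (x, t) := by
      have h1 : HasFDerivAt (fun z : ℝ × ℝ => z.1 + r * z.2)
          (ContinuousLinearMap.fst ℝ ℝ ℝ + r • ContinuousLinearMap.snd ℝ ℝ ℝ) (x, t) :=
        hasFDerivAt_fst.add (hasFDerivAt_snd.const_mul r)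
      exact h1.prodMk hasFDerivAt_snd
    have hc := HasFDerivAt.comp (x, t) (hW.der (x + r * t) t) hd
    refine HasFDerivAt.congr_fderiv hc ?_
    refine ContinuousLinearMap.ext fun z => ?_
    show W₁ (x + r * t) t * (z.1 + r * z.2) + W₂ (x + r * t) t * z.2 =
      W₁ (x + r * t) t * z.1 + (W₂ (x + r * t) t + r * W₁ (x + r * t) t) * z.2
    ring
  · exact ((hW.cont₂.comp hΦ).add (continuous_const.mul ((K1_contW₁ hW).comp hΦ)))
  · intro x t
    show W (x + 1 + r * t) t = W (x + r * t) t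
    rw [show x + 1 + r * t = x + r * t + 1 by ring]
    exact hW.per₁ _ _
  · intro x t
    show W (x + r * (t + Q)) (t + Q) = W (x + r * t) t
    rw [K1_per2 hW, show x + r * (t + Q) = x + r * t + r * Q by ring, hr]
    exact K1_per hW _ _ _
  · intro x t
    have h1 := hW.bd (x + r * t) t
    show |W (x + r * t) t| ≤ B * (1 + |r|)
    linarith
  · intro x t
    have h1 := hW.bd₁ (x + r * t) t
    show |W₁ (x + r * t) t| ≤ B * (1 + |r|)
    linarith
  · intro x t
    have h1 := hW.bd₁ (x + r * t) t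
    have h2 := hW.bd₂ (x + r * t) t
    show |W₂ (x + r * t) t + r * W₁ (x + r * t) t| ≤ B * (1 + |r|)
    refine (abs_add_le _ _).trans ?_
    rw [abs_mul]
    have h3 := mul_le_mul_of_nonneg_left h1 hr0
    linarith
  · intro x t x' t'
    have h1 := hW.lip (x + r * t) t (x' + r * t') t'
    show |W₁ (x + r * t) t - W₁ (x' + r * t') t'| ≤ B * (1 + |r|) * (|x - x'| + |t - t'|)
    have h2 : |x + r * t - (x' + r * t')| ≤ |x - x'| + |r| * |t - t'| := by
      rw [← abs_mul, show x + r * t - (x' + r * t') = (x - x') + r * (t - t') by ring]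
      exact abs_add_le _ _
    have h3 : 0 ≤ |x - x'| := abs_nonneg _
    have h4 : B * (|x + r * t - (x' + r * t')| + |t - t'|) ≤
        B * (1 + |r|) * (|x - x'| + |t - t'|) := by
      rw [mul_assoc]
      refine mul_le_mul_of_nonneg_left ?_ hB
      have h5 := mul_nonneg hr0 h3
      nlinarith
    exact h1.trans h4

private theorem K1_A1 {B : ℝ} {W W₁ W₂ : ℝ → ℝ → ℝ} (hW : HW 1 W W₁ W₂ B) (r : ℝ) {a b : ℝ}
    {ξ u : ℝ → ℝ} (h : Cur a b ξ u) :
    A1 W a b (fun t => ξ t + (0 + r * t)) (fun t => u t + r) =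
      A1 (fun x t => W (x + r * t) t) a b ξ u + r * (ξ b - ξ a) + r ^ 2 / 2 * (b - a) := by
  have hΦ : Continuous fun z : ℝ × ℝ × ℝ => (z.1 + r * z.2.2, z.2.2) := by fun_prop
  have i1 : IntervalIntegrable (fun t => u t ^ 2 / 2 - W (ξ t + r * t) t) volume a b := by
    refine Cur.integrable h (g := fun z : ℝ × ℝ × ℝ => z.2.1 ^ 2 / 2 - W (z.1 + r * z.2.2) z.2.2) ?_
    have h1 : Continuous fun z : ℝ × ℝ × ℝ => W (z.1 + r * z.2.2) z.2.2 :=
      (K1_contW hW).comp hΦ
    have h2 : Continuous fun z : ℝ × ℝ × ℝ => z.2.1 ^ 2 / 2 := by fun_prop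
    exact h2.sub h1
  have i2 : IntervalIntegrable (fun t => r * u t) volume a b := by
    refine Cur.integrable h (g := fun z : ℝ × ℝ × ℝ => r * z.2.1) ?_
    fun_prop
  have i3 : IntervalIntegrable (fun _ : ℝ => r ^ 2 / 2) volume a b := intervalIntegrable_const
  unfold A1
  have e1 : ∀ t, (u t + r) ^ 2 / 2 - W (ξ t + (0 + r * t)) t =
      (u t ^ 2 / 2 - W (ξ t + r * t) t) + (r * u t + r ^ 2 / 2) := by
    intro t
    rw [zero_add]
    ring
  rw [intervalIntegral.integral_congr fun t _ => e1 t, intervalIntegral.integral_add i1 (i2.add i3),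
    intervalIntegral.integral_add i2 i3, intervalIntegral.integral_const_mul,
    Cur.integral_vel h, intervalIntegral.integral_const, smul_eq_mul]
  ring

theorem bar_of_barrier {B : ℝ} {W W₁ W₂ : ℝ → ℝ → ℝ} (hW : HW 1 W W₁ W₂ B) {p : ℤ} {Q : ℕ}
    {Bc : ℝ → ℝ} {μ : ℝ} (hQ : 0 < Q) (hBc : Continuous Bc) (hper : ∀ t, Bc (t + Q) = Bc t + p)
    (hμ : 0 < μ) (hbar : ∀ t, EpQ W p Q + μ ≤ Dm W t (t + Q) (Bc t) (Bc t + p)) :
    ∃ B' : ℝ, HW Q (fun x t => W (x + (p : ℝ) / Q * t) t) (fun x t => W₁ (x + (p : ℝ) / Q * t) t)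
      (fun x t => W₂ (x + (p : ℝ) / Q * t) t + (p : ℝ) / Q * W₁ (x + (p : ℝ) / Q * t) t) B' ∧
      Bar (fun x t => W (x + (p : ℝ) / Q * t) t) Q (EpQ W p Q - (p : ℝ) ^ 2 / (2 * Q)) μ
        (fun t => Bc t - (p : ℝ) / Q * t) := by
  have hQ0 : (0 : ℝ) < Q := by exact_mod_cast hQ
  obtain ⟨r, hr⟩ : ∃ r : ℝ, (p : ℝ) / Q = r := ⟨_, rfl⟩
  rw [hr]
  have hrQ : r * Q = p := by
    rw [← hr]
    field_simp
  have hE : (p : ℝ) ^ 2 / (2 * Q) = r ^ 2 / 2 * Q := by
    rw [← hrQ]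
    field_simp
  rw [hE]
  -- action of a closed curve in the moving frame
  have key : ∀ (j : ℕ) (s : ℝ) (ξ u : ℝ → ℝ), 0 < j → Cur s (s + j * Q) ξ u →
      ξ (s + j * Q) = ξ s → ∀ t ∈ Set.Icc s (s + j * Q),
      Dm W t (t + Q) (ξ t + (0 + r * t)) (ξ t + (0 + r * t) + p) + ((j : ℝ) - 1) * EpQ W p Q ≤
        A1 (fun x t => W (x + r * t) t) s (s + j * Q) ξ u + j * (r ^ 2 / 2 * Q) := by
    intro j s ξ u hj hξ hc t ht
    have h1 := Cur.add_lin hξ 0 r
    have h2 : ξ (s + j * Q) + (0 + r * (s + j * Q)) = ξ s + (0 + r * s) + j * p := by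
      rw [hc, ← hrQ]
      ring
    have h3 := Ep_mark hW hQ hj h1 h2 ht
    rw [K1_A1 hW r hξ, hc, sub_self, mul_zero, add_zero] at h3
    have e1 : r ^ 2 / 2 * (s + j * Q - s) = j * (r ^ 2 / 2 * Q) := by ring
    rw [e1] at h3
    exact h3
  refine ⟨B * (1 + |r|), K1_HW hW hrQ, hQ, hμ, ?_, ?_, ?_, ?_, ?_⟩
  · exact hBc.sub (continuous_const.mul continuous_id)
  · intro t
    show Bc (t + Q) - r * (t + Q) = Bc t - r * t
    rw [hper, ← hrQ]
    ring
  · intro j s ξ u hj hξ hc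
    have hj0 : (0 : ℝ) ≤ j * Q := by positivity
    have h1 := key j s ξ u hj hξ hc s ⟨le_rfl, by linarith⟩
    have h2 := Ep_le (p := p) hW hQ s (ξ s + (0 + r * s))
    have h3 : (j : ℝ) * (EpQ W p Q - r ^ 2 / 2 * Q) =
        EpQ W p Q + ((j : ℝ) - 1) * EpQ W p Q - j * (r ^ 2 / 2 * Q) := by ring
    rw [h3]
    linarith
  · obtain ⟨x, hx⟩ := Ep_attained (p := p) hW hQ 0
    obtain ⟨γ, v, hl, hγ⟩ := leaf_exists hW hQ hx
    have hvc : Continuous v := continuous_iff_continuousAt.2 fun t => (hl.ext.el t).continuousAt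
    have hγc : Continuous γ := continuous_iff_continuousAt.2 fun t => (hl.ext.der t).continuousAt
    have hcur : ∀ s t, s ≤ t → Cur s t γ v := by
      intro s t hst
      refine ⟨hst, hγc.continuousOn, ⟨∅, Set.countable_empty, fun τ _ => hl.ext.der τ⟩,
        hvc.measurable, |r| + (1 + B), fun τ => ?_⟩
      have h1 := leaf_vbound hW hQ hl τ
      rw [hr] at h1
      have h2 : |v τ| ≤ |v τ - r| + |r| := by
        have h3 := abs_add_le (v τ - r) r
        rwa [sub_add_cancel] at h3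
      linarith
    have hcur' : ∀ s t, s ≤ t → Cur s t (fun τ => γ τ + (0 + (-r) * τ)) fun τ => v τ + -r :=
      fun s t hst => Cur.add_lin (hcur s t hst) 0 (-r)
    refine ⟨fun τ => γ τ + (0 + (-r) * τ), fun τ => v τ + -r, hcur', ?_, ?_, ?_⟩
    · intro t
      show γ (t + Q) + (0 + (-r) * (t + Q)) = γ t + (0 + (-r) * t)
      rw [hl.per, ← hrQ]
      ring
    · intro t
      show v (t + Q) + -r = v t + -r
      rw [hl.vper]
    · have h1 := K1_A1 hW r (hcur' 0 Q hQ0.le)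
      have e1 : (fun t => γ t + (0 + (-r) * t) + (0 + r * t)) = γ := by
        funext t
        ring
      have e2 : (fun t => v t + -r + r) = v := by
        funext t
        ring
      rw [e1, e2] at h1
      have h2 := hl.act 0
      rw [zero_add] at h2
      have h3 := hl.per 0
      rw [zero_add] at h3
      rw [h2, h3] at h1
      have h4 : r * (γ 0 + p + (0 + (-r) * Q) - (γ 0 + (0 + (-r) * 0))) = 0 := by
        rw [← hrQ]
        ring
      rw [h4] at h1
      linarith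
  · intro j s ξ u hj hξ hc hm
    obtain ⟨t, ht, k, hk⟩ := hm
    have h1 := key j s ξ u hj hξ hc t ht
    have e1 : ξ t + (0 + r * t) = Bc t + k := by
      rw [hk]
      show Bc t - r * t + k + (0 + r * t) = Bc t + k
      ring
    have h2 := Dm_per hW t (t + Q) (Bc t) (Bc t + p) 0 k
    rw [Int.cast_zero, zero_mul, add_zero, add_zero] at h2
    have e2 : Bc t + (k : ℝ) + p = Bc t + p + k := by ring
    rw [e1, e2, h2] at h1
    have h3 := hbar t
    have h4 : (j : ℝ) * (EpQ W p Q - r ^ 2 / 2 * Q) =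
        EpQ W p Q + ((j : ℝ) - 1) * EpQ W p Q - j * (r ^ 2 / 2 * Q) := by ring
    rw [h4]
    linarith

end Pool.Agent.H33.AN
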