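import Pool.Agent.H33.AN.Trap
import Pool.Agent.H33.AN.P.G5
import Pool.Agent.H33.AN.P.G6

/-!
# Module K2: levels

* `per_ext`: periodic extension, `ξ' t = ξ (toIcoMod _ 0 t)`, same for `u`; the exceptional set is the
  union of the translates of `s ∪ {0}`.
* `lev_of_closed`: `ωa = A1 w 0 Q ξ u - E₁ ≥ 0` (`Bar.crit` with `j = 1`),
  `ψ t = c1 w Q E₁ 0 t ξ u - ωa t/Q` for `t ≥ 0` (in general the interval integral from `0` to `t`, also for
  `t < 0`); periodic; continuous, hence bounded.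
* `levels_exist`: `F x = Dm w 0 Q x x`: continuous (`Dm_lip`), 1-periodic (`Dm_per`), `≥ E₁` (`le_Dm`,
  `Bar.crit`), `= E₁` somewhere (`Bar.att`), `≥ E₁ + μ` at `Bc 0` (`Bar.mark`). Let `ω₁ = ω/4`,
  `xa = sSup {x ≤ Bc 0 | F x ≤ E₁ + ω₁}`, `xc = sInf {x ≥ Bc 0 | F x ≤ E₁ + ω₁}`:
  `Bc 0 - 1 ≤ xa < Bc 0 < xc ≤ xa + 1` (`F (xa + 1) ≤ E₁ + ω₁`, `xa + 1 ≥ Bc 0`), `F ≥ E₁ + ω₁` on
  `[xa, xc]` (continuity). Closed curves `a`, `c` through `(xa, 0)`, `(xc, 0)` with action `< E₁ + 2 ω₁`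
  (`exists_near`, `per_ext`). Replace `c` by `min c (a + 1)` and `a` by `max a (c - 1)` (`Cur.minmax` on `[0, Q]`:
  the sum of the two actions is `< 2 E₁ + 4 ω₁` and both are `≥ E₁`, so both are `≤ E₁ + ω`; note
  `max a (c - 1) = max (a + 1) c - 1`). Closed curves of action `< E₁ + μ` do not meet the translates of
  `Bc` (`Bar.mark`), so `a < Bc < c` everywhere.
-/

set_option autoImplicit false

open MeasureTheory
open scoped RealInnerProductSpace

namespace Pool.Agent.H33.AN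

open Pool.Agent.H33.AM

variable {B : ℝ} {w w₁ w₂ : ℝ → ℝ → ℝ} {Q : ℕ} {E₁ μ : ℝ} {Bc : ℝ → ℝ}

private theorem K2a_mod {q : ℝ} (hq : 0 < q) (t : ℝ) : toIcoMod hq 0 t ∈ Set.Ico (0 : ℝ) q := by
  have := toIcoMod_mem_Ico hq 0 t
  rwa [zero_add] at this

private theorem K2a_eq {q : ℝ} (hq : 0 < q) (m : ℤ) {t : ℝ} (h : t - m * q ∈ Set.Ico (0 : ℝ) q) :
    toIcoMod hq 0 t = t - m * q := by
  have h1 : toIcoMod hq 0 (t - m * q) = t - m * q := by
    rw [toIcoMod_eq_self, zero_add]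
    exact h
  have h2 := toIcoMod_sub_zsmul hq 0 t m
  rw [zsmul_eq_mul] at h2
  rw [← h2, h1]

theorem per_ext (hQ : 0 < Q) {ξ u : ℝ → ℝ} (h : Cur 0 Q ξ u) (hcl : ξ Q = ξ 0) :
    ∃ ξ' u' : ℝ → ℝ, (∀ s t, s ≤ t → Cur s t ξ' u') ∧ Continuous ξ' ∧ (∀ t, ξ' (t + Q) = ξ' t) ∧
      (∀ t, u' (t + Q) = u' t) ∧ ∀ t ∈ Set.Ico (0 : ℝ) Q, ξ' t = ξ t ∧ u' t = u t := by
  have hq : (0 : ℝ) < (Q : ℝ) := by exact_mod_cast hQ
  set q : ℝ := (Q : ℝ) with hqd
  have hper : ∀ t, toIcoMod hq 0 (t + q) = toIcoMod hq 0 t := fun t => toIcoMod_add_right hq 0 t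
  have hself : ∀ t ∈ Set.Ico (0 : ℝ) q, toIcoMod hq 0 t = t := fun t ht => by
    rw [toIcoMod_eq_self, zero_add]
    exact ht
  have hcont : Continuous fun t : ℝ => ξ (toIcoMod hq 0 t) := by
    have : Fact (0 < q) := ⟨hq⟩
    have h1 : Continuous (AddCircle.liftIco q 0 ξ) := by
      apply AddCircle.liftIco_continuous
      · rw [zero_add]
        exact hcl.symm
      · rw [zero_add]
        exact h.cont
    have h2 : Continuous fun t : ℝ => AddCircle.liftIco q 0 ξ ((t : ℝ) : AddCircle q) :=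
      h1.comp (AddCircle.continuous_mk' q)
    refine h2.congr fun t => ?_
    have h3 : ((t : ℝ) : AddCircle q) = ((toIcoMod hq 0 t : ℝ) : AddCircle q) := by
      rw [← sub_eq_zero, ← AddCircle.coe_sub, AddCircle.coe_eq_zero_iff]
      exact ⟨toIcoDiv hq 0 t, (self_sub_toIcoMod hq 0 t).symm⟩
    rw [h3]
    exact AddCircle.liftIco_coe_apply (by rw [zero_add]; exact K2a_mod hq t)
  refine ⟨fun t => ξ (toIcoMod hq 0 t), fun t => u (toIcoMod hq 0 t), ?_, hcont, ?_, ?_, ?_⟩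
  · intro s t hst
    obtain ⟨S, hS, hd⟩ := h.der
    refine ⟨hst, hcont.continuousOn, ?_, ?_, ?_⟩
    · refine ⟨⋃ m : ℤ, (fun y : ℝ => y + m * q) '' (S ∪ {0}), ?_, ?_⟩
      · exact Set.countable_iUnion fun m => (hS.union (Set.countable_singleton 0)).image _
      · rintro τ ⟨_, hτ⟩
        obtain ⟨m, hm⟩ : ∃ m : ℤ, toIcoMod hq 0 τ = τ - m * q :=
          ⟨toIcoDiv hq 0 τ, by
            have := self_sub_toIcoDiv_zsmul hq 0 τ
            rw [zsmul_eq_mul] at this
            exact this.symm⟩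
        have h0 := K2a_mod hq τ
        have hnot : toIcoMod hq 0 τ ∉ S ∪ {0} := by
          intro hmem
          apply hτ
          refine Set.mem_iUnion.2 ⟨m, _, hmem, ?_⟩
          dsimp only
          rw [hm]
          ring
        rw [Set.mem_union, not_or] at hnot
        have hpos : 0 < toIcoMod hq 0 τ := lt_of_le_of_ne h0.1 fun h => hnot.2 h.symm
        have h1 : HasDerivAt ξ (u (toIcoMod hq 0 τ)) (toIcoMod hq 0 τ) :=
          hd _ ⟨⟨hpos, h0.2⟩, hnot.1⟩
        have h2 : HasDerivAt (fun y => ξ (y - m * q)) (u (toIcoMod hq 0 τ)) τ := by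
          rw [hm] at h1 ⊢
          exact h1.comp_sub_const τ (m * q)
        refine h2.congr_of_eventuallyEq ?_
        have h3 : ∀ᶠ y in nhds τ, y - m * q ∈ Set.Ioo (0 : ℝ) q := by
          have h4 : Filter.Tendsto (fun y : ℝ => y - m * q) (nhds τ) (nhds (τ - m * q)) :=
            (continuous_id.sub continuous_const).tendsto τ
          rw [hm] at hpos h0
          exact h4.eventually (Ioo_mem_nhds hpos h0.2)
        filter_upwards [h3] with y hy
        rw [K2a_eq hq m ⟨hy.1.le, hy.2⟩]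
    · have h1 : (fun t => u (toIcoMod hq 0 t)) = fun t => u (0 + Int.fract ((t - 0) / q) * q) := by
        funext t
        rw [toIcoMod_eq_add_fract_mul]
      rw [h1]
      exact h.meas.comp (measurable_const.add
        ((measurable_fract.comp ((measurable_id.sub_const 0).div_const q)).mul_const q))
    · obtain ⟨R, hR⟩ := h.bd
      exact ⟨R, fun t => hR _⟩
  · intro t
    dsimp only
    rw [hper]
  · intro t
    dsimp only
    rw [hper]
  · intro t ht
    dsimp only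
    rw [hself t ht]
    exact ⟨rfl, rfl⟩

end Pool.Agent.H33.AN
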