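import Pool.Agent.H33.AN.Trap
import Pool.Agent.H33.AN.P.G5
import Pool.Agent.H33.AN.P.G6
import Pool.Agent.H33.AN.P.K2a

/-!
# Module K2: levels

* `per_ext`: periodic extension, `ξ' t = ξ (toIcoMod _ 0 t)`, same for `u`; the exceptional set is the
  union of the translates of `s ∪ {0}`.
* `lev_of_closed`: `ωa = A1 w 0 Q ξ u - E₁ ≥ 0` (`Bar.crit` with `j = 1`),
  `ψ t = c1 w Q E₁ 0 t ξ u - ωa t/Q` for `t ≥ 0` (in general the interval integral from `0` to `t`, also for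
  `t < 0`); periodic; continuous, hence bounded.
* `levels_exist`: `F x = Dm w 0 Q x x`: continuous (`Dm_lip`), 1-periodic (`Dm_per`), `≥ E₁` (`le_Dm`,
  `Bar.crit`), `= E₁` somewhere (`Bar.att`), `≥ E₁ + μ` at `Bc 0` (`Bar.mark`). Let `ω₁ = ω/4`,
  `xa = sSup {x ≤ Bc 0 | F x ≤ E₁ + ω₁}`, `xc = sInf {x ≥ Bc 0 | F x ≤ E₁ + ω₁}`:
  `Bc 0 - 1 ≤ xa < Bc 0 < xc ≤ xa + 1` (`F (xa + 1) ≤ E₁ + ω₁`, `xa + 1 ≥ Bc 0`), `F ≥ E₁ + ω₁` on
  `[xa, xc]` (continuity). Closed curves `a`, `c` through `(xa, 0)`, `(xc, 0)` with action `< E₁ + 2 ω₁`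
  (`exists_near`, `per_ext`). Replace `c` by `min c (a + 1)` and `a` by `max a (c - 1)` (`Cur.minmax` on `[0, Q]`:
  the sum of the two actions is `< 2 E₁ + 4 ω₁` and both are `≥ E₁`, so both are `≤ E₁ + ω`; note
  `max a (c - 1) = max (a + 1) c - 1`). Closed curves of action `< E₁ + μ` do not meet the translates of
  `Bc` (`Bar.mark`), so `a < Bc < c` everywhere.
-/

set_option autoImplicit false

open MeasureTheory
open scoped RealInnerProductSpace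

namespace Pool.Agent.H33.AN

open Pool.Agent.H33.AM

variable {B : ℝ} {w w₁ w₂ : ℝ → ℝ → ℝ} {Q : ℕ} {E₁ μ : ℝ} {Bc : ℝ → ℝ}

private theorem k2b_bd {g : ℝ → ℝ} {T : ℝ} (hT : 0 < T) (hg : Continuous g)
    (hp : ∀ t, g (t + T) = g t) : ∃ R : ℝ, ∀ t, |g t| ≤ R := by
  have hper : Function.Periodic g T := hp
  have h1 := hper.isBounded_of_continuous hT.ne' hg
  obtain ⟨R, hR⟩ := h1.exists_norm_le
  exact ⟨R, fun t => hR (g t) (Set.mem_range_self t)⟩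

theorem lev_of_closed (hw : HW Q w w₁ w₂ B) (hb : Bar w Q E₁ μ Bc) {ξ u : ℝ → ℝ} {ω : ℝ}
    (hc : ∀ s t, s ≤ t → Cur s t ξ u) (hξ : Continuous ξ) (hper : ∀ t, ξ (t + Q) = ξ t)
    (hup : ∀ t, u (t + Q) = u t) (hact : A1 w 0 Q ξ u ≤ E₁ + ω) :
    ∃ (R : ℝ) (ψ : ℝ → ℝ), Lev w Q E₁ ω R ξ u ψ := by
  have hQ : (0 : ℝ) < Q := by exact_mod_cast hb.Q_pos
  have cw : Continuous fun z : ℝ × ℝ => w z.1 z.2 :=
    continuous_iff_continuousAt.2 fun z => (hw.der z.1 z.2).continuousAt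
  have cg : Continuous fun z : ℝ × ℝ × ℝ => z.2.1 ^ 2 / 2 - w z.1 z.2.2 := by
    apply Continuous.sub (by fun_prop)
    exact cw.comp (Continuous.prodMk continuous_fst (continuous_snd.comp continuous_snd))
  have hint' : ∀ a b, a ≤ b → IntervalIntegrable (fun τ => u τ ^ 2 / 2 - w (ξ τ) τ) volume a b :=
    fun a b hab => (hc a b hab).integrable cg
  have hint : ∀ a b, IntervalIntegrable (fun τ => u τ ^ 2 / 2 - w (ξ τ) τ) volume a b := by
    intro a b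
    rcases le_total a b with h | h
    · exact hint' a b h
    · exact (hint' b a h).symm
  have hfper : Function.Periodic (fun τ => u τ ^ 2 / 2 - w (ξ τ) τ) (Q : ℝ) := by
    intro τ
    simp only
    rw [hup, hper, hw.per₂]
  obtain ⟨ωa, hωa⟩ : ∃ ωa : ℝ, ωa = A1 w 0 Q ξ u - E₁ := ⟨_, rfl⟩
  have hω0 : 0 ≤ ωa := by
    have h1 := hb.crit 1 0 ξ u one_pos (hc _ _ (by simp)) (by
      rw [Nat.cast_one, one_mul]
      exact hper 0)
    rw [Nat.cast_one, one_mul, one_mul, zero_add] at h1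
    rw [hωa]
    linarith
  have hω1 : ωa ≤ ω := by rw [hωa]; linarith
  obtain ⟨ψ, hψ⟩ : ∃ ψ : ℝ → ℝ, ψ = fun t => (∫ τ in (0 : ℝ)..t, (u τ ^ 2 / 2 - w (ξ τ) τ)) -
      (E₁ / Q + ωa / Q) * t := ⟨_, rfl⟩
  have hψc : Continuous ψ := by
    rw [hψ]
    exact (intervalIntegral.continuous_primitive hint 0).sub (by fun_prop)
  have hψper : ∀ t, ψ (t + Q) = ψ t := by
    intro t
    rw [hψ]
    simp only
    have h1 : (∫ τ in (0 : ℝ)..(t + Q), (u τ ^ 2 / 2 - w (ξ τ) τ)) =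
        (∫ τ in (0 : ℝ)..t, (u τ ^ 2 / 2 - w (ξ τ) τ)) +
          ∫ τ in t..(t + Q), (u τ ^ 2 / 2 - w (ξ τ) τ) :=
      (intervalIntegral.integral_add_adjacent_intervals (hint _ _) (hint _ _)).symm
    have h2 : (∫ τ in t..(t + Q), (u τ ^ 2 / 2 - w (ξ τ) τ)) = A1 w 0 Q ξ u := by
      have h3 := hfper.intervalIntegral_add_eq t 0
      rw [zero_add] at h3
      exact h3
    rw [h1, h2]
    have h4 : A1 w 0 Q ξ u = E₁ + ωa := by rw [hωa]; ring
    rw [h4]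
    field_simp
    ring
  obtain ⟨R1, hR1⟩ := k2b_bd hQ hξ hper
  obtain ⟨R2, hR2⟩ := (hc 0 0 le_rfl).bd
  obtain ⟨R3, hR3⟩ := k2b_bd hQ hψc hψper
  refine ⟨max R1 (max R2 R3), ψ,
    { cur := hc
      contA := hξ
      per := hper
      bd := fun t => (hR1 t).trans (le_max_left _ _)
      bdu := fun t => (hR2 t).trans ((le_max_left _ _).trans (le_max_right _ _))
      ψper := hψper
      ψbd := fun t => (hR3 t).trans ((le_max_right _ _).trans (le_max_right _ _))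
      cost := ⟨ωa, hω0, hω1, ?_⟩ }⟩
  intro s t _
  have h1 : (∫ τ in (0 : ℝ)..t, (u τ ^ 2 / 2 - w (ξ τ) τ)) =
      (∫ τ in (0 : ℝ)..s, (u τ ^ 2 / 2 - w (ξ τ) τ)) +
        ∫ τ in s..t, (u τ ^ 2 / 2 - w (ξ τ) τ) :=
    (intervalIntegral.integral_add_adjacent_intervals (hint _ _) (hint _ _)).symm
  unfold c1 A1
  rw [hψ]
  simp only
  rw [h1]
  ring

end Pool.Agent.H33.AN
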