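import Pool.Agent.H33.AN.Trap
import Pool.Agent.H33.AN.P.G5
import Pool.Agent.H33.AN.P.G6
import Pool.Agent.H33.AN.P.K2a
import Pool.Agent.H33.AN.P.K2b

/-!
# Module K2: levels

* `per_ext`: periodic extension, `ξ' t = ξ (toIcoMod _ 0 t)`, same for `u`; the exceptional set is the
  union of the translates of `s ∪ {0}`.
* `lev_of_closed`: `ωa = A1 w 0 Q ξ u - E₁ ≥ 0` (`Bar.crit` with `j = 1`),
  `ψ t = c1 w Q E₁ 0 t ξ u - ωa t/Q` for `t ≥ 0` (in general the interval integral from `0` to `t`, also for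
  `t < 0`); periodic; continuous, hence bounded.
* `levels_exist`: `F x = Dm w 0 Q x x`: continuous (`Dm_lip`), 1-periodic (`Dm_per`), `≥ E₁` (`le_Dm`,
  `Bar.crit`), `= E₁` somewhere (`Bar.att`), `≥ E₁ + μ` at `Bc 0` (`Bar.mark`). Let `ω₁ = ω/4`,
  `xa = sSup {x ≤ Bc 0 | F x ≤ E₁ + ω₁}`, `xc = sInf {x ≥ Bc 0 | F x ≤ E₁ + ω₁}`:
  `Bc 0 - 1 ≤ xa < Bc 0 < xc ≤ xa + 1` (`F (xa + 1) ≤ E₁ + ω₁`, `xa + 1 ≥ Bc 0`), `F ≥ E₁ + ω₁` on
  `[xa, xc]` (continuity). Closed curves `a`, `c` through `(xa, 0)`, `(xc, 0)` with action `< E₁ + 2 ω₁`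
  (`exists_near`, `per_ext`). Replace `c` by `min c (a + 1)` and `a` by `max a (c - 1)` (`Cur.minmax` on `[0, Q]`:
  the sum of the two actions is `< 2 E₁ + 4 ω₁` and both are `≥ E₁`, so both are `≤ E₁ + ω`; note
  `max a (c - 1) = max (a + 1) c - 1`). Closed curves of action `< E₁ + μ` do not meet the translates of
  `Bc` (`Bar.mark`), so `a < Bc < c` everywhere.
-/

set_option autoImplicit false

open MeasureTheory
open scoped RealInnerProductSpace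

namespace Pool.Agent.H33.AN

open Pool.Agent.H33.AM

variable {B : ℝ} {w w₁ w₂ : ℝ → ℝ → ℝ} {Q : ℕ} {E₁ μ : ℝ} {Bc : ℝ → ℝ}

private theorem K2c_mono {ω R R' : ℝ} {a ua ψ : ℝ → ℝ} (h : Lev w Q E₁ ω R a ua ψ)
    (hR : R ≤ R') : Lev w Q E₁ ω R' a ua ψ :=
  { cur := h.cur
    contA := h.contA
    per := h.per
    bd := fun t => (h.bd t).trans hR
    bdu := fun t => (h.bdu t).trans hR
    ψper := h.ψper
    ψbd := fun t => (h.ψbd t).trans hR
    cost := h.cost }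

/-- Closed curves of small action do not meet the barrier. -/
private theorem K2c_avoid (hw : HW Q w w₁ w₂ B) (hb : Bar w Q E₁ μ Bc) {ω : ℝ} (hωμ : ω < μ)
    {ξ u : ℝ → ℝ} (hc : ∀ s t, s ≤ t → Cur s t ξ u) (hper : ∀ t, ξ (t + Q) = ξ t)
    (hup : ∀ t, u (t + Q) = u t) (hact : A1 w 0 Q ξ u ≤ E₁ + ω) (t : ℝ) (k : ℤ) :
    ξ t ≠ Bc t + k := by
  intro h
  have hQ : (0 : ℝ) < Q := by exact_mod_cast hb.Q_pos
  have h1 := hb.mark 1 t ξ u one_pos (by
    have := hc t (t + (1 : ℕ) * Q) (by push_cast; linarith)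
    exact this) (by
      have := hper t
      push_cast
      rw [one_mul]
      exact this) ⟨t, ⟨le_rfl, by push_cast; linarith⟩, k, h⟩
  have h2 : Function.Periodic (fun t => u t ^ 2 / 2 - w (ξ t) t) (Q : ℝ) := by
    intro s
    dsimp only
    rw [hup, hper, hw.per₂]
  have h3 := h2.intervalIntegral_add_eq t 0
  unfold A1 at h1 hact
  push_cast at h1
  rw [one_mul, one_mul, h3, zero_add] at h1
  linarith

/-- Sign of a continuous function without zeros. -/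
private theorem K2c_sign {g : ℝ → ℝ} (hg : Continuous g) (h0 : ∀ t, g t ≠ 0) (h1 : g 0 < 0)
    (t : ℝ) : g t < 0 := by
  by_contra h
  push Not at h
  have h2 := intermediate_value_uIcc (a := 0) (b := t) hg.continuousOn
  obtain ⟨s, _, hs⟩ := h2 (show (0 : ℝ) ∈ Set.uIcc (g 0) (g t) from
    Set.mem_uIcc.2 (Or.inl ⟨h1.le, h⟩))
  exact h0 s hs

theorem levels_exist (hw : HW Q w w₁ w₂ B) (hb : Bar w Q E₁ μ Bc) {ω : ℝ} (hω : 0 < ω)
    (hωμ : ω < μ) :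
    ∃ (R ω' : ℝ) (a ua ψa c uc ψc : ℝ → ℝ), 0 < ω' ∧ Lev w Q E₁ ω R a ua ψa ∧
      Lev w Q E₁ ω R c uc ψc ∧ (∀ t, a t < Bc t) ∧ (∀ t, Bc t < c t) ∧ (∀ t, c t ≤ a t + 1) ∧
      ∀ x ∈ Set.Icc (a 0) (c 0), E₁ + ω' ≤ Dm w 0 Q x x := by
  have hQn := hb.Q_pos
  have hQ : (0 : ℝ) < Q := by exact_mod_cast hQn
  have hμ := hb.μ_pos
  -- the function `F`
  obtain ⟨F, hF⟩ : ∃ F : ℝ → ℝ, F = fun x => Dm w 0 Q x x := ⟨_, rfl⟩
  have hFx : ∀ x, F x = Dm w 0 Q x x := fun x => by rw [hF]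
  obtain ⟨C, hC0, hC⟩ := Dm_lip hw hQ
  have hFc : Continuous F := by
    rw [continuous_iff_continuousAt]
    intro x
    have h1 : ∀ y, |F y - F x| ≤ C * (1 + |y - x| + |y - x|) * (|y - x| + |y - x|) := by
      intro y
      have h2 := hC 0 y y x x
      rw [zero_add, sub_self, abs_zero, add_zero] at h2
      rw [hFx, hFx]
      exact h2
    rw [ContinuousAt, tendsto_iff_dist_tendsto_zero]
    have h2 : Filter.Tendsto (fun y => C * (1 + |y - x| + |y - x|) * (|y - x| + |y - x|)) (nhds x)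
        (nhds 0) := by
      have h3 : Continuous fun y => C * (1 + |y - x| + |y - x|) * (|y - x| + |y - x|) := by
        fun_prop
      have h4 := h3.tendsto x
      simpa using h4
    refine squeeze_zero (fun y => dist_nonneg) (fun y => ?_) h2
    rw [Real.dist_eq]
    exact h1 y
  have hFper : ∀ (x : ℝ) (k : ℤ), F (x + k) = F x := by
    intro x k
    have h1 := Dm_per hw 0 Q x x 0 k
    simp only [Int.cast_zero, zero_mul, add_zero] at h1
    rw [hFx, hFx, h1]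
  have hclosed : ∀ ξ u : ℝ → ℝ, Cur 0 Q ξ u → ξ Q = ξ 0 → E₁ ≤ A1 w 0 Q ξ u := by
    intro ξ u h1 h2
    have h3 := hb.crit 1 0 ξ u one_pos (by simpa using h1) (by simpa using h2)
    simpa using h3
  have hFge : ∀ x, E₁ ≤ F x := by
    intro x
    rw [hFx]
    exact le_Dm hw hQ fun ξ u h1 h2 h3 => hclosed ξ u h1 (by rw [h2, h3])
  obtain ⟨x₀, hx₀⟩ : ∃ x₀, F x₀ ≤ E₁ := by
    obtain ⟨ξ, u, h1, h2, h3, h4⟩ := hb.att
    refine ⟨ξ 0, ?_⟩
    have h5 := Dm_le hw (h1 0 Q hQ.le)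
    have h6 : ξ Q = ξ 0 := by simpa using h2 0
    rw [h6, h4] at h5
    rw [hFx]
    exact h5
  have hFB : E₁ + μ ≤ F (Bc 0) := by
    rw [hFx]
    refine le_Dm hw hQ fun ξ u h1 h2 h3 => ?_
    have h4 := hb.mark 1 0 ξ u one_pos (by simpa using h1) (by simp [h2, h3])
      ⟨0, ⟨le_rfl, by simpa using hQ.le⟩, 0, by simp [h2]⟩
    simpa using h4
  -- the end points
  obtain ⟨ω₁, hω₁⟩ : ∃ ω₁, ω₁ = ω / 4 := ⟨_, rfl⟩
  have hω₁0 : 0 < ω₁ := by rw [hω₁]; linarith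
  have hω₁μ : ω₁ < μ := by rw [hω₁]; linarith
  have hclT : IsClosed (F ⁻¹' Set.Iic (E₁ + ω₁)) := isClosed_Iic.preimage hFc
  -- a translate of the minimum in a given unit interval
  have htrans : ∀ y : ℝ, ∃ x ∈ Set.Icc y (y + 1), F x ≤ E₁ + ω₁ := by
    intro y
    refine ⟨x₀ + ⌈y - x₀⌉, ⟨?_, ?_⟩, ?_⟩
    · linarith [Int.le_ceil (y - x₀)]
    · linarith [Int.ceil_lt_add_one (y - x₀)]
    · rw [hFper]
      linarith
  obtain ⟨xa, hxa, hxmax⟩ := ((isCompact_Icc (a := Bc 0 - 1) (b := Bc 0)).inter_right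
    hclT).exists_isGreatest (by
      obtain ⟨x, hx, hx'⟩ := htrans (Bc 0 - 1)
      exact ⟨x, ⟨hx.1, by linarith [hx.2]⟩, hx'⟩)
  obtain ⟨xc, hxc, hxmin⟩ := ((isCompact_Icc (a := Bc 0) (b := Bc 0 + 1)).inter_right
    hclT).exists_isLeast (by
      obtain ⟨x, hx, hx'⟩ := htrans (Bc 0)
      exact ⟨x, hx, hx'⟩)
  have hFxa : F xa ≤ E₁ + ω₁ := hxa.2
  have hFxc : F xc ≤ E₁ + ω₁ := hxc.2
  have hxaB : xa < Bc 0 := by
    refine lt_of_le_of_ne hxa.1.2 fun h => ?_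
    rw [h] at hFxa
    linarith
  have hxcB : Bc 0 < xc := by
    refine lt_of_le_of_ne hxc.1.1 fun h => ?_
    rw [← h] at hFxc
    linarith
  have hxac : xc ≤ xa + 1 := by
    refine hxmin ⟨⟨by linarith [hxa.1.1], by linarith⟩, ?_⟩
    have h1 := hFper xa 1
    push_cast at h1
    change F (xa + 1) ≤ E₁ + ω₁
    rw [h1]
    exact hFxa
  have hopen : ∀ x ∈ Set.Ioo xa xc, E₁ + ω₁ ≤ F x := by
    intro x hx
    by_contra h
    push Not at h
    rcases le_total x (Bc 0) with h1 | h1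
    · have := hxmax (a := x) ⟨⟨by linarith [hxa.1.1, hx.1], h1⟩, h.le⟩
      linarith [hx.1]
    · have := hxmin (a := x) ⟨⟨h1, by linarith [hxc.1.2, hx.2]⟩, h.le⟩
      linarith [hx.2]
  have hFmid : ∀ x ∈ Set.Icc xa xc, E₁ + ω₁ ≤ F x := by
    intro x hx
    have hlt : xa < xc := by linarith
    have h1 : x ∈ closure (Set.Ioo xa xc) := by
      rw [closure_Ioo hlt.ne]
      exact hx
    have h2 : closure (Set.Ioo xa xc) ⊆ F ⁻¹' Set.Ici (E₁ + ω₁) :=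
      closure_minimal hopen (isClosed_Ici.preimage hFc)
    exact h2 h1
  -- the curves
  obtain ⟨a₁, u₁, ha₁, ha₁0, ha₁Q, hact₁⟩ := exists_near hw hQ xa xa hω₁0
  obtain ⟨c₁, v₁, hc₁, hc₁0, hc₁Q, hact₂⟩ := exists_near hw hQ xc xc hω₁0
  rw [← hFx] at hact₁ hact₂
  have hash := ha₁.add_lin 1 0
  have hshact : A1 w 0 Q (fun t => a₁ t + (1 + 0 * t)) (fun t => u₁ t + 0) = A1 w 0 Q a₁ u₁ := by
    unfold A1
    congr 1
    funext t
    dsimp only
    rw [add_zero, zero_mul, add_zero, hw.per₁]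
  obtain ⟨m₁, m₂, hm₁, hm₂, hsum⟩ := Cur.minmax hw hc₁ hash
  rw [hshact] at hsum
  have hm₂' := hm₂.add_lin (-1) 0
  have hm₂act : A1 w 0 Q (fun t => max (c₁ t) (a₁ t + (1 + 0 * t)) + (-1 + 0 * t))
      (fun t => m₂ t + 0) = A1 w 0 Q (fun t => max (c₁ t) (a₁ t + (1 + 0 * t))) m₂ := by
    unfold A1
    congr 1
    funext t
    have h1 := hw.per₁ (max (c₁ t) (a₁ t + (1 + 0 * t)) + (-1 + 0 * t)) t
    have h2 : max (c₁ t) (a₁ t + (1 + 0 * t)) + (-1 + 0 * t) + 1 =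
        max (c₁ t) (a₁ t + (1 + 0 * t)) := by ring
    rw [h2] at h1
    dsimp only
    rw [add_zero, h1]
  have hmin0 : min (c₁ Q) (a₁ Q + (1 + 0 * (Q : ℝ))) = min (c₁ 0) (a₁ 0 + (1 + 0 * 0)) := by
    rw [hc₁0, hc₁Q, ha₁0, ha₁Q, zero_mul, zero_mul]
  have hmax0 : max (c₁ Q) (a₁ Q + (1 + 0 * (Q : ℝ))) = max (c₁ 0) (a₁ 0 + (1 + 0 * 0)) := by
    rw [hc₁0, hc₁Q, ha₁0, ha₁Q, zero_mul, zero_mul]
  have g₁ := hclosed _ _ hm₁ hmin0
  have g₂ := hclosed _ _ hm₂ hmax0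
  obtain ⟨c, uc, hc1, hc2, hc3, hc4, hc5⟩ := per_ext hQn hm₁ hmin0
  obtain ⟨a, ua, ha1, ha2, ha3, ha4, ha5⟩ := per_ext hQn hm₂' (by
    rw [hmax0, zero_mul, zero_mul])
  have hint : ∀ x u y v : ℝ → ℝ, (∀ t ∈ Set.Ico (0 : ℝ) Q, x t = y t ∧ u t = v t) →
      A1 w 0 Q x u = A1 w 0 Q y v := by
    intro x u y v h
    unfold A1
    rw [intervalIntegral.integral_of_le hQ.le, intervalIntegral.integral_of_le hQ.le,
      ← integral_Ico_eq_integral_Ioc, ← integral_Ico_eq_integral_Ioc]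
    refine setIntegral_congr_fun measurableSet_Ico fun t ht => ?_
    rw [(h t ht).1, (h t ht).2]
  have hcact : A1 w 0 Q c uc ≤ E₁ + ω := by
    rw [hint _ _ _ _ hc5]
    linarith
  have haact : A1 w 0 Q a ua ≤ E₁ + ω := by
    rw [hint _ _ _ _ ha5, hm₂act]
    linarith
  obtain ⟨Ra, ψa, hLa⟩ := lev_of_closed hw hb ha1 ha2 ha3 ha4 haact
  obtain ⟨Rc, ψc, hLc⟩ := lev_of_closed hw hb hc1 hc2 hc3 hc4 hcact
  have h0mem : (0 : ℝ) ∈ Set.Ico (0 : ℝ) Q := ⟨le_rfl, hQ⟩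
  have ha0 : a 0 = xa := by
    rw [(ha5 0 h0mem).1, hc₁0, ha₁0, zero_mul, add_zero, add_zero, max_eq_right (by linarith)]
    ring
  have hc0 : c 0 = xc := by
    rw [(hc5 0 h0mem).1, hc₁0, ha₁0, zero_mul, add_zero, min_eq_left (by linarith)]
  refine ⟨max Ra Rc, ω₁, a, ua, ψa, c, uc, ψc, hω₁0, K2c_mono hLa (le_max_left _ _),
    K2c_mono hLc (le_max_right _ _), ?_, ?_, ?_, ?_⟩
  · intro t
    have h1 := K2c_sign (g := fun t => a t - Bc t) (ha2.sub hb.cont) (fun t h => by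
      have h2 := K2c_avoid hw hb hωμ ha1 ha3 ha4 haact t 0
      apply h2
      push_cast
      have h3 : a t - Bc t = 0 := h
      linarith) (by
        rw [ha0]
        linarith) t
    have h2 : a t - Bc t < 0 := h1
    linarith
  · intro t
    have h1 := K2c_sign (g := fun t => Bc t - c t) (hb.cont.sub hc2) (fun t h => by
      have h2 := K2c_avoid hw hb hωμ hc1 hc3 hc4 hcact t 0
      apply h2
      push_cast
      have h3 : Bc t - c t = 0 := h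
      linarith) (by
        rw [hc0]
        linarith) t
    have h2 : Bc t - c t < 0 := h1
    linarith
  · intro t
    have h1 : Function.Periodic (fun t => a t - c t) (Q : ℝ) := by
      intro s
      dsimp only
      rw [ha3, hc3]
    obtain ⟨y, hy, hy'⟩ := h1.exists_mem_Ico₀ hQ t
    have h2 : a t - c t = a y - c y := hy'
    have h3 := (ha5 y hy).1
    have h4 := (hc5 y hy).1
    have h5 : min (c₁ y) (a₁ y + (1 + 0 * y)) ≤ max (c₁ y) (a₁ y + (1 + 0 * y)) :=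
      min_le_max
    rw [zero_mul] at h3 h4 h5
    linarith
  · intro x hx
    rw [ha0, hc0] at hx
    rw [← hFx]
    exact hFmid x hx

end Pool.Agent.H33.AN
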