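import Pool.Agent.H33.AN.Trap
import Pool.Agent.H33.AN.P.G4
import Pool.Agent.H33.AN.P.G6
import Pool.Agent.H33.AN.P.G7

/-!
# Module K3: one-dimensional estimates for the gap between the levels

`c1 = c1 w Q E₁` is additive; along a level `c1(a; s, t) = ψa t - ψa s + ωa/Q (t - s)`.
* `gap_pair`: `U = inf (c1(ξ; s, t) + ψa s - ψc t)` over all the curves `ξ` from `(a s, s)` to `(c t, t)`,
  `D = inf (c1(ξ; s, t) + ψc s - ψa t)` over all the curves from `(c s, s)` to `(a t, t)`. Both families are not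
  empty (lines over a period). For an up curve `ξ` on `[s, t]` and a down curve `ξ'` on `[s', t']`: follow
  `ξ`, then `c` from `t` to `s' + i Q ∈ [t, t + Q)`, then `ξ'` shifted by `i Q`, then `a` from `t' + i Q` to
  `s + j Q ∈ [t' + i Q, t' + i Q + Q)`: a closed curve over `[s, s + j Q]`, `j ≥ 1` (since `a < c`), which
  meets `Bc` (intermediate value theorem). So (`Bar.mark`)
  `μ ≤ c1(ξ) + (ψc s' - ψc t + ω) + c1(ξ') + (ψa s - ψa t' + ω)`. So `U`, `D` are finite and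
  `U + D ≥ μ - 2 ω`.
* `strip_rate`: if `t - s ≤ 2 Q` use `c1 ≥ -(B + |E₁|/Q) (t - s)`. In general let
  `i₀ Q`, …, `i₁ Q` be the multiples of `Q` in `[s, t]`, `x i = ξ ((i₀ + i) Q) ∈ [a 0, c 0]`; on the full
  periods `A1 ≥ Dm w 0 Q (x i) (x (i + 1))` (`Dm_le`, `Dm_per`); use `chain` for `D x y = Dm w 0 Q x y - E₁`
  (`monge`), `S = [a 0, c 0]` (bounded; `hL` from `Dm_lip`).
-/

set_option autoImplicit false

open MeasureTheory
open scoped RealInnerProductSpace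

namespace Pool.Agent.H33.AN

open Pool.Agent.H33.AM

variable {B : ℝ} {w w₁ w₂ : ℝ → ℝ → ℝ} {Q : ℕ} {E₁ μ : ℝ} {Bc : ℝ → ℝ}

private lemma K3a_int (hw : HW Q w w₁ w₂ B) {a b : ℝ} {x u : ℝ → ℝ} (h : Cur a b x u) :
    IntervalIntegrable (fun t => u t ^ 2 / 2 - w (x t) t) volume a b := by
  have hc : Continuous fun z : ℝ × ℝ => w z.1 z.2 := by
    rw [continuous_iff_continuousAt]
    intro z
    exact (hw.der z.1 z.2).continuousAt
  have hg : Continuous fun p : ℝ × ℝ × ℝ => p.2.1 ^ 2 / 2 - w p.1 p.2.2 := by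
    have h1 : Continuous fun p : ℝ × ℝ × ℝ => w p.1 p.2.2 :=
      hc.comp (continuous_fst.prodMk (continuous_snd.comp continuous_snd))
    exact (((continuous_fst.comp continuous_snd).pow 2).div_const 2).sub h1
  exact h.integrable hg

private lemma K3a_congr (W : ℝ → ℝ → ℝ) {a b : ℝ} (hab : a ≤ b) {x u x' u' : ℝ → ℝ}
    (h : ∀ t, a < t → t ≤ b → x t = x' t ∧ u t = u' t) : A1 W a b x u = A1 W a b x' u' := by
  unfold A1
  apply intervalIntegral.integral_congr_ae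
  filter_upwards with t ht
  rw [Set.uIoc_of_le hab] at ht
  obtain ⟨h1, h2⟩ := h t ht.1 ht.2
  rw [h1, h2]

private lemma K3a_glue (hw : HW Q w w₁ w₂ B) {a b c : ℝ} {x u x' u' : ℝ → ℝ} (h : Cur a b x u)
    (h' : Cur b c x' u') (hx : x b = x' b) :
    ∃ x'' u'' : ℝ → ℝ, Cur a c x'' u'' ∧ (∀ t ≤ b, x'' t = x t) ∧ (x'' c = x' c) ∧
      c1 w Q E₁ a c x'' u'' = c1 w Q E₁ a b x u + c1 w Q E₁ b c x' u' := by
  obtain ⟨x'', u'', hc, h1, h2⟩ := h.concat h' hx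
  refine ⟨x'', u'', hc, fun t ht => (h1 t ht).1, ?_, ?_⟩
  · rcases eq_or_lt_of_le h'.le with hbc | hbc
    · rw [← hbc, (h1 b le_rfl).1, hx]
    · exact (h2 c hbc).1
  · have e1 : A1 w a b x'' u'' = A1 w a b x u := K3a_congr w h.le fun t _ ht => h1 t ht
    have e2 : A1 w b c x'' u'' = A1 w b c x' u' := K3a_congr w h'.le fun t ht _ => h2 t ht
    have e3 : A1 w a c x'' u'' = A1 w a b x'' u'' + A1 w b c x'' u'' := by
      unfold A1
      symm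
      apply intervalIntegral.integral_add_adjacent_intervals
      · exact K3a_int hw (hc.sub le_rfl h.le h'.le)
      · exact K3a_int hw (hc.sub h.le h'.le le_rfl)
    unfold c1
    rw [e3, e1, e2]
    ring

private lemma K3a_shift (hw : HW Q w w₁ w₂ B) (i : ℤ) (s t : ℝ) (ξ u : ℝ → ℝ) :
    c1 w Q E₁ (s + i * Q) (t + i * Q) (fun τ => ξ (τ - i * Q)) (fun τ => u (τ - i * Q)) =
      c1 w Q E₁ s t ξ u := by
  have hp : ∀ x τ, w x (τ - i * Q) = w x τ := by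
    intro x τ
    have h1 : Function.Periodic (w x) (Q : ℝ) := fun τ => hw.per₂ x τ
    have h2 := h1.int_mul i (τ - i * Q)
    rw [sub_add_cancel] at h2
    exact h2.symm
  have e : A1 w (s + i * Q) (t + i * Q) (fun τ => ξ (τ - i * Q)) (fun τ => u (τ - i * Q)) =
      A1 w s t ξ u := by
    unfold A1
    have h3 : (fun τ => u (τ - i * Q) ^ 2 / 2 - w (ξ (τ - i * Q)) τ) =
        fun τ => (fun τ' => u τ' ^ 2 / 2 - w (ξ τ') τ') (τ - i * Q) := by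
      funext τ
      simp only [hp]
    rw [h3, intervalIntegral.integral_comp_sub_right (fun τ' => u τ' ^ 2 / 2 - w (ξ τ') τ')]
    simp only [add_sub_cancel_right]
  unfold c1
  rw [e]
  ring

private lemma K3a_per {f : ℝ → ℝ} (h : ∀ t, f (t + Q) = f t) (i : ℤ) (t : ℝ) :
    f (t + i * Q) = f t := by
  have h1 : Function.Periodic f (Q : ℝ) := h
  exact h1.int_mul i t

/-- an integer translate in a window of length `Q` -/
private lemma K3a_floor {Q : ℕ} (hQ : 0 < Q) (t s : ℝ) :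
    ∃ i : ℤ, t ≤ s + i * Q ∧ s + i * Q ≤ t + Q := by
  have hQ' : (0 : ℝ) < Q := by exact_mod_cast hQ
  refine ⟨⌈(t - s) / Q⌉, ?_, ?_⟩
  · have h := Int.le_ceil ((t - s) / Q)
    rw [div_le_iff₀ hQ'] at h
    linarith
  · have h := (Int.ceil_lt_add_one ((t - s) / Q)).le
    have h2 := mul_le_mul_of_nonneg_right h hQ'.le
    rw [add_mul, div_mul_cancel₀ _ hQ'.ne', one_mul] at h2
    linarith

/-- cost along a level over at most one period -/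
private lemma K3a_lev {ω R : ℝ} {a ua ψ : ℝ → ℝ} (hQ : 0 < Q) (ha : Lev w Q E₁ ω R a ua ψ)
    {s t : ℝ} (hst : s ≤ t) (ht : t ≤ s + Q) : c1 w Q E₁ s t a ua ≤ ψ t - ψ s + ω := by
  obtain ⟨ωa, h0, h1, h2⟩ := ha.cost
  have hQ' : (0 : ℝ) < Q := by exact_mod_cast hQ
  rw [h2 s t hst]
  have h3 : ωa / Q * (t - s) ≤ ωa / Q * Q :=
    mul_le_mul_of_nonneg_left (by linarith) (div_nonneg h0 hQ'.le)
  rw [div_mul_cancel₀ _ hQ'.ne'] at h3
  linarith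

private lemma K3a_key (hw : HW Q w w₁ w₂ B) (hb : Bar w Q E₁ μ Bc) {ω R : ℝ}
    {a ua ψa c uc ψc : ℝ → ℝ} (ha : Lev w Q E₁ ω R a ua ψa) (hc : Lev w Q E₁ ω R c uc ψc)
    (hab : ∀ t, a t < Bc t) (hbc : ∀ t, Bc t < c t) {s t s' t' : ℝ} {ξ u ξ' u' : ℝ → ℝ}
    (h : Cur s t ξ u) (h1 : ξ s = a s) (h2 : ξ t = c t) (h' : Cur s' t' ξ' u')
    (h1' : ξ' s' = c s') (h2' : ξ' t' = a t') :
    μ - 2 * ω ≤ (c1 w Q E₁ s t ξ u + ψa s - ψc t) + (c1 w Q E₁ s' t' ξ' u' + ψc s' - ψa t') := by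
  have hQ := hb.Q_pos
  have hQ' : (0 : ℝ) < Q := by exact_mod_cast hQ
  obtain ⟨i, hi1, hi2⟩ := K3a_floor hQ t s'
  obtain ⟨j, hj1, hj2⟩ := K3a_floor hQ (t' + i * Q) s
  have hst := h.le
  have hst' := h'.le
  have hlt : s < t := by
    rcases eq_or_lt_of_le hst with he | he
    · exfalso
      rw [← he, h1] at h2
      have := hab s
      have := hbc s
      linarith
    · exact he
  -- `j ≥ 1`
  have hjpos : 0 < j := by
    have h3 : (0 : ℝ) < (j : ℝ) * Q := by linarith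
    have h4 : (0 : ℝ) < (j : ℝ) := (pos_iff_pos_of_mul_pos h3).2 hQ'
    exact_mod_cast h4
  obtain ⟨n, rfl⟩ : ∃ n : ℕ, j = n := ⟨j.toNat, (Int.toNat_of_nonneg hjpos.le).symm⟩
  rw [Int.cast_natCast] at hj1 hj2
  -- the four pieces
  have hp2 : Cur t (s' + i * Q) c uc := hc.cur _ _ hi1
  have hp3 : Cur (s' + i * Q) (t' + i * Q) (fun τ => ξ' (τ - i * Q)) fun τ => u' (τ - i * Q) :=
    h'.shift _
  have hp4 : Cur (t' + i * Q) (s + n * Q) a ua := ha.cur _ _ hj1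
  obtain ⟨x3, u3, hx3, hx3a, hx3b, hx3c⟩ := K3a_glue (E₁ := E₁) hw hp3 hp4 (by
    simp only [add_sub_cancel_right]
    rw [h2', K3a_per ha.per])
  obtain ⟨x2, u2, hx2, hx2a, hx2b, hx2c⟩ := K3a_glue (E₁ := E₁) hw hp2 hx3 (by
    rw [hx3a _ (by linarith)]
    simp only [add_sub_cancel_right]
    rw [h1', K3a_per hc.per])
  obtain ⟨x1, u1, hx1, hx1a, hx1b, hx1c⟩ := K3a_glue (E₁ := E₁) hw h hx2 (by
    rw [hx2a _ hi1, h2])
  have hclosed : x1 (s + n * Q) = x1 s := by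
    rw [hx1b, hx2b, hx3b, hx1a s hst, h1]
    have := K3a_per ha.per n s
    rwa [Int.cast_natCast] at this
  -- it meets the barrier
  have hmeet : ∃ τ ∈ Set.Icc s (s + n * Q), ∃ k : ℤ, x1 τ = Bc τ + k := by
    have hcont : ContinuousOn (fun τ => ξ τ - Bc τ) (Set.Icc s t) :=
      h.cont.sub hb.cont.continuousOn
    have h0 : (0 : ℝ) ∈ Set.Icc (ξ s - Bc s) (ξ t - Bc t) := by
      rw [h1, h2]
      constructor
      · linarith [hab s]
      · linarith [hbc t]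
    obtain ⟨τ, hτ, hτ0⟩ := intermediate_value_Icc hst hcont h0
    refine ⟨τ, ⟨hτ.1, by linarith [hτ.2]⟩, 0, ?_⟩
    rw [hx1a τ hτ.2]
    push_cast
    have : ξ τ - Bc τ = 0 := hτ0
    linarith
  have hmark := hb.mark n s x1 u1 (by exact_mod_cast hjpos) hx1 hclosed hmeet
  have htot : A1 w s (s + n * Q) x1 u1 = c1 w Q E₁ s (s + n * Q) x1 u1 + n * E₁ := by
    unfold c1
    field_simp
    ring
  rw [htot, hx1c, hx2c, hx3c, K3a_shift hw] at hmark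
  have hl2 := K3a_lev hQ hc hi1 hi2
  have hl4 := K3a_lev hQ ha hj1 hj2
  rw [K3a_per hc.ψper] at hl2
  have e1 : ψa (s + n * Q) = ψa s := by
    have := K3a_per ha.ψper n s
    rwa [Int.cast_natCast] at this
  rw [K3a_per ha.ψper, e1] at hl4
  linarith

theorem gap_pair (hw : HW Q w w₁ w₂ B) (hb : Bar w Q E₁ μ Bc) {ω R : ℝ}
    {a ua ψa c uc ψc : ℝ → ℝ} (ha : Lev w Q E₁ ω R a ua ψa) (hc : Lev w Q E₁ ω R c uc ψc)
    (hab : ∀ t, a t < Bc t) (hbc : ∀ t, Bc t < c t) :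
    ∃ U D : ℝ, μ - 2 * ω ≤ U + D ∧
      (∀ (s t : ℝ) (ξ u : ℝ → ℝ), Cur s t ξ u → ξ s = a s → ξ t = c t →
        U + ψc t - ψa s ≤ c1 w Q E₁ s t ξ u) ∧
      ∀ (s t : ℝ) (ξ u : ℝ → ℝ), Cur s t ξ u → ξ s = c s → ξ t = a t →
        D + ψa t - ψc s ≤ c1 w Q E₁ s t ξ u := by
  obtain ⟨SU, hSU⟩ : ∃ SU : Set ℝ, SU = {r | ∃ (s t : ℝ) (ξ u : ℝ → ℝ), Cur s t ξ u ∧ ξ s = a s ∧
    ξ t = c t ∧ r = c1 w Q E₁ s t ξ u + ψa s - ψc t} := ⟨_, rfl⟩
  obtain ⟨SD, hSD⟩ : ∃ SD : Set ℝ, SD = {r | ∃ (s t : ℝ) (ξ u : ℝ → ℝ), Cur s t ξ u ∧ ξ s = c s ∧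
    ξ t = a t ∧ r = c1 w Q E₁ s t ξ u + ψc s - ψa t} := ⟨_, rfl⟩
  have hkey : ∀ r ∈ SU, ∀ r' ∈ SD, μ - 2 * ω ≤ r + r' := by
    intro r hr r' hr'
    rw [hSU] at hr
    rw [hSD] at hr'
    obtain ⟨s, t, ξ, u, h, h1, h2, rfl⟩ := hr
    obtain ⟨s', t', ξ', u', h', h1', h2', rfl⟩ := hr'
    exact K3a_key hw hb ha hc hab hbc h h1 h2 h' h1' h2'
  have hneU : SU.Nonempty := by
    rw [hSU]
    exact ⟨c1 w Q E₁ 0 1 (fun t => a 0 + (c 1 - a 0) * t) (fun _ => c 1 - a 0) + ψa 0 - ψc 1, 0, 1,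
      _, _, Cur.line zero_le_one (a 0) (c 1 - a 0), by ring, by ring, rfl⟩
  have hneD : SD.Nonempty := by
    rw [hSD]
    exact ⟨c1 w Q E₁ 0 1 (fun t => c 0 + (a 1 - c 0) * t) (fun _ => a 1 - c 0) + ψc 0 - ψa 1, 0, 1,
      _, _, Cur.line zero_le_one (c 0) (a 1 - c 0), by ring, by ring, rfl⟩
  obtain ⟨r0, hr0⟩ := hneU
  obtain ⟨r1, hr1⟩ := hneD
  have hbU : BddBelow SU := ⟨μ - 2 * ω - r1, fun r hr => by linarith [hkey r hr r1 hr1]⟩
  have hbD : BddBelow SD := ⟨μ - 2 * ω - r0, fun r hr => by linarith [hkey r0 hr0 r hr]⟩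
  refine ⟨sInf SU, sInf SD, ?_, ?_, ?_⟩
  · have h1 : ∀ r ∈ SU, μ - 2 * ω - r ≤ sInf SD := fun r hr =>
      le_csInf ⟨r1, hr1⟩ fun r' hr' => by linarith [hkey r hr r' hr']
    have h2 : μ - 2 * ω - sInf SD ≤ sInf SU :=
      le_csInf ⟨r0, hr0⟩ fun r hr => by linarith [h1 r hr]
    linarith
  · intro s t ξ u h h1 h2
    have := csInf_le hbU (show c1 w Q E₁ s t ξ u + ψa s - ψc t ∈ SU by
      rw [hSU]; exact ⟨s, t, ξ, u, h, h1, h2, rfl⟩)
    linarith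
  · intro s t ξ u h h1 h2
    have := csInf_le hbD (show c1 w Q E₁ s t ξ u + ψc s - ψa t ∈ SD by
      rw [hSD]; exact ⟨s, t, ξ, u, h, h1, h2, rfl⟩)
    linarith

end Pool.Agent.H33.AN
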