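import Pool.Agent.H33.AN.Trap
import Pool.Agent.H33.AN.P.G4
import Pool.Agent.H33.AN.P.G6
import Pool.Agent.H33.AN.P.G7
import Pool.Agent.H33.AN.P.K3a

/-!
# Module K3: one-dimensional estimates for the gap between the levels

`c1 = c1 w Q E₁` is additive; along a level `c1(a; s, t) = ψa t - ψa s + ωa/Q (t - s)`.
* `gap_pair`: `U = inf (c1(ξ; s, t) + ψa s - ψc t)` over all the curves `ξ` from `(a s, s)` to `(c t, t)`,
  `D = inf (c1(ξ; s, t) + ψc s - ψa t)` over all the curves from `(c s, s)` to `(a t, t)`. Both families are not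
  empty (lines over a period). For an up curve `ξ` on `[s, t]` and a down curve `ξ'` on `[s', t']`: follow
  `ξ`, then `c` from `t` to `s' + i Q ∈ [t, t + Q)`, then `ξ'` shifted by `i Q`, then `a` from `t' + i Q` to
  `s + j Q ∈ [t' + i Q, t' + i Q + Q)`: a closed curve over `[s, s + j Q]`, `j ≥ 1` (since `a < c`), which
  meets `Bc` (intermediate value theorem). So (`Bar.mark`)
  `μ ≤ c1(ξ) + (ψc s' - ψc t + ω) + c1(ξ') + (ψa s - ψa t' + ω)`. So `U`, `D` are finite and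
  `U + D ≥ μ - 2 ω`.
* `strip_rate`: if `t - s ≤ 2 Q` use `c1 ≥ -(B + |E₁|/Q) (t - s)`. In general let
  `i₀ Q`, …, `i₁ Q` be the multiples of `Q` in `[s, t]`, `x i = ξ ((i₀ + i) Q) ∈ [a 0, c 0]`; on the full
  periods `A1 ≥ Dm w 0 Q (x i) (x (i + 1))` (`Dm_le`, `Dm_per`); use `chain` for `D x y = Dm w 0 Q x y - E₁`
  (`monge`), `S = [a 0, c 0]` (bounded; `hL` from `Dm_lip`).
-/

set_option autoImplicit false

open MeasureTheory
open scoped RealInnerProductSpace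

namespace Pool.Agent.H33.AN

open Pool.Agent.H33.AM

variable {B : ℝ} {w w₁ w₂ : ℝ → ℝ → ℝ} {Q : ℕ} {E₁ μ : ℝ} {Bc : ℝ → ℝ}

private theorem K3b_cont (hw : HW Q w w₁ w₂ B) :
    Continuous fun z : ℝ × ℝ × ℝ => z.2.1 ^ 2 / 2 - w z.1 z.2.2 := by
  have h1 : Continuous fun z : ℝ × ℝ => w z.1 z.2 :=
    continuous_iff_continuousAt.2 fun z => (hw.der z.1 z.2).continuousAt
  have h2 : Continuous fun z : ℝ × ℝ × ℝ => w z.1 z.2.2 :=
    h1.comp (continuous_fst.prodMk (continuous_snd.comp continuous_snd))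
  exact ((continuous_fst.comp continuous_snd).pow 2 |>.div_const 2).sub h2

private theorem K3b_int (hw : HW Q w w₁ w₂ B) {s t : ℝ} {ξ u : ℝ → ℝ} (h : Cur s t ξ u) :
    IntervalIntegrable (fun τ => u τ ^ 2 / 2 - w (ξ τ) τ) volume s t :=
  h.integrable (K3b_cont hw)

private theorem K3b_low (hw : HW Q w w₁ w₂ B) {s t : ℝ} {ξ u : ℝ → ℝ} (h : Cur s t ξ u) :
    -(B * (t - s)) ≤ A1 w s t ξ u := by
  have h1 : ∫ _ in s..t, (-B) ≤ A1 w s t ξ u := by
    refine intervalIntegral.integral_mono_on h.le intervalIntegrable_const (K3b_int hw h) ?_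
    intro τ _
    have h2 := (abs_le.1 (hw.bd (ξ τ) τ)).2
    have h3 : 0 ≤ u τ ^ 2 / 2 := by positivity
    linarith
  rw [intervalIntegral.integral_const, smul_eq_mul] at h1
  linarith

/-- full periods -/
private theorem K3b_per (hw : HW Q w w₁ w₂ B) (hQ : 0 < Q) {L : ℝ} {S : Set ℝ} {ω' : ℝ}
    (hL : ∀ x ∈ S, ∀ y ∈ S, Dm w 0 Q x x - L * |y - x| ≤ Dm w 0 Q x y)
    (hF : ∀ x ∈ S, E₁ + ω' ≤ Dm w 0 Q x x) (i₀ : ℤ) (j : ℕ) {ξ u : ℝ → ℝ}
    (h : Cur (i₀ * Q) ((i₀ + j) * Q) ξ u) (hS : ∀ i : ℕ, i ≤ j → ξ ((i₀ + i) * Q) ∈ S) :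
    j * ω' - L * |ξ ((i₀ + j) * Q) - ξ (i₀ * Q)| + j * E₁ ≤
      A1 w (i₀ * Q) ((i₀ + j) * Q) ξ u := by
  have hQr : (0 : ℝ) < Q := by exact_mod_cast hQ
  have h1 := chain (D := fun x y => Dm w 0 Q x y - E₁) (L := L) (ω := ω') (S := S)
    (fun x x' y y' hx hy => by
      have := monge hw (s := 0) (t := Q) hQr hx hy
      linarith)
    (fun x hx y hy => by
      have := hL x hx y hy
      linarith)
    (fun x hx => by
      have := hF x hx
      linarith)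
    j (fun i => ξ ((i₀ + i) * Q)) hS
  have hsub : ∀ i < j, Cur ((i₀ + (i : ℕ)) * Q) ((i₀ + ((i + 1 : ℕ) : ℝ)) * Q) ξ u := by
    intro i hi
    have hi' : ((i + 1 : ℕ) : ℝ) ≤ j := by exact_mod_cast hi
    have hi0 : (0 : ℝ) ≤ (i : ℝ) := Nat.cast_nonneg i
    refine h.sub ?_ ?_ ?_
    · exact mul_le_mul_of_nonneg_right (by linarith) hQr.le
    · exact mul_le_mul_of_nonneg_right (by push_cast; linarith) hQr.le
    · exact mul_le_mul_of_nonneg_right (by linarith) hQr.le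
  have h2 : ∑ i ∈ Finset.range j, (Dm w 0 Q (ξ ((i₀ + (i : ℕ)) * Q))
      (ξ ((i₀ + ((i + 1 : ℕ) : ℝ)) * Q)) - E₁) ≤
      ∑ i ∈ Finset.range j, ((∫ τ in ((i₀ + (i : ℕ)) * Q : ℝ)..((i₀ + ((i + 1 : ℕ) : ℝ)) * Q),
        (u τ ^ 2 / 2 - w (ξ τ) τ)) - E₁) := by
    refine Finset.sum_le_sum fun i hi => ?_
    have h3 := Dm_le hw (hsub i (Finset.mem_range.1 hi))
    have h4 := Dm_per hw 0 Q (ξ ((i₀ + (i : ℕ)) * Q)) (ξ ((i₀ + ((i + 1 : ℕ) : ℝ)) * Q)) (i₀ + i) 0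
    have e1 : (0 : ℝ) + ((i₀ + i : ℤ) : ℝ) * Q = (i₀ + (i : ℕ)) * Q := by push_cast; ring
    have e2 : (Q : ℝ) + ((i₀ + i : ℤ) : ℝ) * Q = (i₀ + ((i + 1 : ℕ) : ℝ)) * Q := by
      push_cast; ring
    rw [e1, e2, Int.cast_zero, add_zero, add_zero] at h4
    rw [h4] at h3
    unfold A1 at h3
    linarith
  have h3 : ∑ i ∈ Finset.range j, (∫ τ in ((i₀ + (i : ℕ)) * Q : ℝ)..((i₀ + ((i + 1 : ℕ) : ℝ)) * Q),
      (u τ ^ 2 / 2 - w (ξ τ) τ)) = A1 w (i₀ * Q) ((i₀ + j) * Q) ξ u := by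
    have := intervalIntegral.sum_integral_adjacent_intervals (μ := volume)
      (f := fun τ => u τ ^ 2 / 2 - w (ξ τ) τ) (a := fun i : ℕ => ((i₀ : ℝ) + (i : ℝ)) * Q) (n := j)
      (fun k hk => K3b_int hw (hsub k hk))
    rw [this]
    unfold A1
    simp
  rw [Finset.sum_sub_distrib, Finset.sum_sub_distrib, h3] at h2
  have h4 : ((fun i : ℕ => ξ ((i₀ + (i : ℝ)) * Q)) 0) = ξ (i₀ * Q) := by simp
  rw [Finset.sum_sub_distrib] at h1
  simp only [Finset.sum_const, Finset.card_range, nsmul_eq_mul] at h1 h2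
  simp only [Nat.cast_zero, add_zero] at h1
  linarith

theorem strip_rate (hw : HW Q w w₁ w₂ B) (hQ : 0 < Q) {ω R ω' : ℝ} {a ua ψa c uc ψc : ℝ → ℝ}
    (ha : Lev w Q E₁ ω R a ua ψa) (hc : Lev w Q E₁ ω R c uc ψc) (hω' : 0 < ω')
    (hF : ∀ x ∈ Set.Icc (a 0) (c 0), E₁ + ω' ≤ Dm w 0 Q x x) :
    ∃ C₂ : ℝ, 0 ≤ C₂ ∧ ∀ (s t : ℝ) (ξ u : ℝ → ℝ), Cur s t ξ u →
      (∀ τ ∈ Set.Icc s t, a τ ≤ ξ τ ∧ ξ τ ≤ c τ) →
      ω' / Q * (t - s) - C₂ ≤ c1 w Q E₁ s t ξ u := by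
  have hQr : (0 : ℝ) < Q := by exact_mod_cast hQ
  have hB := hw.nonneg
  have hR : 0 ≤ R := (abs_nonneg _).trans (ha.bd 0)
  obtain ⟨C, hC, hlip⟩ := Dm_lip hw hQr
  have hdist : ∀ x ∈ Set.Icc (a 0) (c 0), ∀ y ∈ Set.Icc (a 0) (c 0), |y - x| ≤ 2 * R := by
    intro x hx y hy
    have h1 := (abs_le.1 (ha.bd 0)).1
    have h2 := (abs_le.1 (hc.bd 0)).2
    rw [abs_le]
    exact ⟨by linarith [hx.2, hy.1], by linarith [hx.1, hy.2]⟩
  have hL : ∀ x ∈ Set.Icc (a 0) (c 0), ∀ y ∈ Set.Icc (a 0) (c 0),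
      Dm w 0 Q x x - C * (1 + 2 * R) * |y - x| ≤ Dm w 0 Q x y := by
    intro x hx y hy
    have h1 := hlip 0 x x x y
    rw [zero_add, sub_self, abs_zero, add_zero, add_zero, zero_add, abs_sub_comm x y] at h1
    have h2 := (abs_le.1 h1).2
    have h3 : C * (1 + |y - x|) * |y - x| ≤ C * (1 + 2 * R) * |y - x| :=
      mul_le_mul_of_nonneg_right (mul_le_mul_of_nonneg_left (by linarith [hdist x hx y hy]) hC)
        (abs_nonneg _)
    linarith
  set C₂ : ℝ := 2 * ω' + C * (1 + 2 * R) * (2 * R) + 2 * (B * Q) + 2 * |E₁| with hC₂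
  have hX : 0 ≤ C * (1 + 2 * R) * (2 * R) := by positivity
  refine ⟨C₂, by positivity, fun s t ξ u h hst => ?_⟩
  have hE : ∀ ρ : ℝ, 0 ≤ ρ → ρ ≤ 2 * Q → E₁ / Q * ρ ≤ 2 * |E₁| := by
    intro ρ h0 h2
    calc E₁ / Q * ρ ≤ |E₁| / Q * ρ :=
          mul_le_mul_of_nonneg_right (div_le_div_of_nonneg_right (le_abs_self _) hQr.le) h0
      _ ≤ |E₁| / Q * (2 * Q) := mul_le_mul_of_nonneg_left h2 (by positivity)
      _ = 2 * |E₁| := by field_simp
  have hO : ∀ ρ : ℝ, ρ ≤ 2 * Q → ω' / Q * ρ ≤ 2 * ω' := by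
    intro ρ h2
    calc ω' / Q * ρ ≤ ω' / Q * (2 * Q) := mul_le_mul_of_nonneg_left h2 (by positivity)
      _ = 2 * ω' := by field_simp
  have hle := h.le
  unfold c1
  by_cases hlen : t - s ≤ 2 * Q
  · have h1 := K3b_low hw h
    have h2 := hE (t - s) (by linarith) hlen
    have h3 := hO (t - s) hlen
    have h4 : B * (t - s) ≤ B * (2 * Q) := mul_le_mul_of_nonneg_left hlen hB
    linarith
  · push Not at hlen
    have hc1 := Int.le_ceil (s / Q)
    have hc2 := Int.ceil_lt_add_one (s / Q)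
    have hf1 := Int.floor_le (t / Q)
    have hf2 := Int.lt_floor_add_one (t / Q)
    set i₀ : ℤ := ⌈s / Q⌉ with hi₀
    set i₁ : ℤ := ⌊t / Q⌋ with hi₁
    rw [div_le_iff₀ hQr] at hc1
    rw [← sub_lt_iff_lt_add, lt_div_iff₀ hQr] at hc2
    rw [le_div_iff₀ hQr] at hf1
    rw [div_lt_iff₀ hQr] at hf2
    have hlt : (i₀ : ℝ) * Q < i₁ * Q := by nlinarith
    have hlt' : i₀ < i₁ := by
      have := lt_of_mul_lt_mul_right hlt hQr.le
      exact_mod_cast this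
    obtain ⟨j, hj⟩ := Int.eq_ofNat_of_zero_le (a := i₁ - i₀) (by linarith)
    have hj1 : (i₁ : ℝ) = i₀ + j := by
      have : i₁ = i₀ + j := by linarith
      rw [this]
      push_cast
      ring
    rw [hj1] at hf1 hf2 hlt
    have hmid : Cur (i₀ * Q) ((i₀ + j) * Q) ξ u := h.sub hc1 hlt.le hf1
    have hS : ∀ i : ℕ, i ≤ j → ξ ((i₀ + i) * Q) ∈ Set.Icc (a 0) (c 0) := by
      intro i hi
      have hi' : (i : ℝ) ≤ j := by exact_mod_cast hi
      have hi0 : (0 : ℝ) ≤ (i : ℝ) := Nat.cast_nonneg i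
      have hm : ((i₀ : ℝ) + i) * Q ∈ Set.Icc s t :=
        ⟨hc1.trans (mul_le_mul_of_nonneg_right (by linarith) hQr.le),
          (mul_le_mul_of_nonneg_right (by linarith) hQr.le).trans hf1⟩
      have h1 := hst _ hm
      have e1 : ((i₀ : ℝ) + i) = ((i₀ + i : ℤ) : ℝ) := by push_cast; ring
      have h2 : a (((i₀ : ℝ) + i) * Q) = a 0 := by
        rw [e1]
        exact Function.Periodic.int_mul_eq (f := a) ha.per (i₀ + i)
      have h3 : c (((i₀ : ℝ) + i) * Q) = c 0 := by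
        rw [e1]
        exact Function.Periodic.int_mul_eq (f := c) hc.per (i₀ + i)
      rw [h2, h3] at h1
      exact h1
    have h1 := K3b_per hw hQ hL hF i₀ j hmid hS
    have hm0 : ξ (i₀ * Q) ∈ Set.Icc (a 0) (c 0) := by simpa using hS 0 (Nat.zero_le j)
    have h2 : C * (1 + 2 * R) * |ξ ((i₀ + j) * Q) - ξ (i₀ * Q)| ≤ C * (1 + 2 * R) * (2 * R) :=
      mul_le_mul_of_nonneg_left (hdist _ hm0 _ (hS j le_rfl)) (by positivity)
    have hleft : Cur s (i₀ * Q) ξ u := h.sub le_rfl hc1 (hlt.le.trans hf1)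
    have hright : Cur ((i₀ + j) * Q) t ξ u := h.sub (hc1.trans hlt.le) hf1 le_rfl
    have h3 := K3b_low hw hleft
    have h4 := K3b_low hw hright
    have h5 : A1 w s t ξ u = A1 w s (i₀ * Q) ξ u + A1 w (i₀ * Q) ((i₀ + j) * Q) ξ u +
        A1 w ((i₀ + j) * Q) t ξ u := by
      unfold A1
      rw [intervalIntegral.integral_add_adjacent_intervals (K3b_int hw hleft) (K3b_int hw hmid),
        intervalIntegral.integral_add_adjacent_intervals
          ((K3b_int hw hleft).trans (K3b_int hw hmid)) (K3b_int hw hright)]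
    have h6 : B * (i₀ * Q - s) ≤ B * Q := mul_le_mul_of_nonneg_left (by nlinarith) hB
    have h7 : B * (t - (i₀ + j) * Q) ≤ B * Q := mul_le_mul_of_nonneg_left (by nlinarith) hB
    have h8 := hE (t - s - j * Q) (by nlinarith) (by nlinarith)
    have h9 := hO (t - s - j * Q) (by nlinarith)
    have e8 : E₁ / Q * (t - s) = j * E₁ + E₁ / Q * (t - s - j * Q) := by
      field_simp
      ring
    have e9 : ω' / Q * (t - s) = j * ω' + ω' / Q * (t - s - j * Q) := by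
      field_simp
      ring
    rw [h5, e8, e9]
    linarith

end Pool.Agent.H33.AN
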