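import Pool.Agent.H33.AN.Trap
import Pool.Agent.H33.AN.P.G1
import Pool.Agent.H33.AM.P.R3

/-!
# Module L1: connecting curves, time-dependent

As in `Pool/Agent/H33/AM/P/R2.lean`, `Pool/Agent/H33/AM/P/R3.lean` (copy the proofs).
* `Adm.glue`: glue at `b`.
* `toCur`: compose with the inner product.
* `lift`: `x(t) = x₀ + (t - t₀) • v₀ + (a t - a t₀) • e₀`.
* `Conn2.cross`: intermediate value theorem for `t ↦ ⟪zv k₀, ξ t⟫ - f t`.
* `moving_cross`: `t₂ = inf {t ∈ [t₀, t₁] | θ t ≥ c t}`, `t₁' = sup {t ∈ [t₀, t₂] | θ t ≤ a t}`.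
-/

set_option autoImplicit false

open MeasureTheory
open scoped RealInnerProductSpace

namespace Pool.Agent.H33.AN

open Pool.Agent.H33.AM

variable {n : ℕ} {l : EuclideanSpace ℝ (Fin n) → EuclideanSpace ℝ (Fin n) → ℝ → ℝ} {Q : ℕ}

theorem Adm.integrable2 {a b : ℝ} {x u : ℝ → EuclideanSpace ℝ (Fin n)} (h : Adm a b x u)
    {g : EuclideanSpace ℝ (Fin n) × EuclideanSpace ℝ (Fin n) × ℝ → ℝ} (hg : Continuous g) :
    IntervalIntegrable (fun t => g (x t, u t, t)) volume a b := by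
  obtain ⟨R, hR⟩ := h.bd
  rw [intervalIntegrable_iff_integrableOn_Icc_of_le h.le]
  have hxm : AEStronglyMeasurable x (volume.restrict (Set.Icc a b)) :=
    h.cont.aestronglyMeasurable measurableSet_Icc
  have hum : AEStronglyMeasurable u (volume.restrict (Set.Icc a b)) :=
    h.meas.aestronglyMeasurable
  have htm : AEStronglyMeasurable (fun t : ℝ => t) (volume.restrict (Set.Icc a b)) :=
    measurable_id.aestronglyMeasurable
  have hK : IsCompact ((x '' Set.Icc a b) ×ˢ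
      ((Metric.closedBall (0 : EuclideanSpace ℝ (Fin n)) R) ×ˢ (Set.Icc a b))) :=
    (isCompact_Icc.image_of_continuousOn h.cont).prod
      ((isCompact_closedBall 0 R).prod isCompact_Icc)
  obtain ⟨C, hC⟩ := hK.exists_bound_of_continuousOn hg.continuousOn
  refine ⟨hg.comp_aestronglyMeasurable (hxm.prodMk (hum.prodMk htm)),
    HasFiniteIntegral.restrict_of_bounded (C := C) measure_Icc_lt_top ?_⟩
  refine (ae_restrict_iff' measurableSet_Icc).2 (Filter.Eventually.of_forall fun t ht => ?_)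
  refine hC _ ⟨Set.mem_image_of_mem x ht, ?_, ht⟩
  simpa using hR t

theorem Adm.glue {a b c : ℝ} {x u x' u' : ℝ → EuclideanSpace ℝ (Fin n)} (h : Adm a b x u)
    (h' : Adm b c x' u') (hx : x b = x' b) :
    ∃ x'' u'' : ℝ → EuclideanSpace ℝ (Fin n), Adm a c x'' u'' ∧
      (∀ t ≤ b, x'' t = x t ∧ u'' t = u t) ∧ ∀ t > b, x'' t = x' t ∧ u'' t = u' t := by
  classical
  obtain ⟨s, hs, hd⟩ := h.der
  obtain ⟨s', hs', hd'⟩ := h'.der
  obtain ⟨R, hR⟩ := h.bd
  obtain ⟨R', hR'⟩ := h'.bd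
  refine ⟨fun t => if t ≤ b then x t else x' t, fun t => if t ≤ b then u t else u' t,
    ⟨h.le.trans h'.le, ?_, ⟨s ∪ (s' ∪ {b}), ?_, ?_⟩, ?_, ?_⟩, ?_, ?_⟩
  · refine ContinuousOn.if' ?_ ?_ ?_ ?_
    · intro t ht
      have htb : t = b := by
        have h1 := frontier_Iic_subset b (by simpa [Set.Iic] using ht.2)
        simpa using h1
      subst htb
      have h1 : ContinuousWithinAt x (Set.Icc a t) t := h.cont t ⟨h.le, le_rfl⟩
      have h2 : x t = if t ≤ t then x t else x' t := by simp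
      rw [← h2]
      refine h1.tendsto.mono_left (nhdsWithin_mono _ ?_)
      rintro r ⟨hr, hr'⟩
      exact ⟨hr.1, hr'⟩
    · intro t ht
      have htb : t = b := by
        have h1 := frontier_Iic_subset b (by simpa [Set.Iic] using ht.2)
        simpa using h1
      subst htb
      have h1 : ContinuousWithinAt x' (Set.Icc t c) t := h'.cont t ⟨le_rfl, h'.le⟩
      have h2 : x' t = if t ≤ t then x t else x' t := by simp [hx]
      rw [← h2]
      refine h1.tendsto.mono_left (nhdsWithin_mono _ ?_)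
      rintro r ⟨hr, hr'⟩
      have h4 : ¬ r ≤ t := hr'
      exact ⟨(not_le.1 h4).le, hr.2⟩
    · refine h.cont.mono ?_
      rintro r ⟨hr, hr'⟩
      exact ⟨hr.1, hr'⟩
    · refine h'.cont.mono ?_
      rintro r ⟨hr, hr'⟩
      have h4 : ¬ r ≤ b := hr'
      exact ⟨(not_le.1 h4).le, hr.2⟩
  · exact hs.union (hs'.union (Set.countable_singleton b))
  · intro t ht
    have ht1 : t ∉ s := fun h => ht.2 (Or.inl h)
    have ht2 : t ∉ s' := fun h => ht.2 (Or.inr (Or.inl h))
    have ht3 : t ≠ b := fun h => ht.2 (Or.inr (Or.inr h))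
    rcases lt_or_gt_of_ne ht3 with hlt | hgt
    · have h1 := hd t ⟨⟨ht.1.1, hlt⟩, ht1⟩
      have h2 : (fun t => if t ≤ b then x t else x' t) =ᶠ[nhds t] x := by
        filter_upwards [Iio_mem_nhds hlt] with r hr
        exact if_pos (le_of_lt hr)
      simp only [if_pos hlt.le]
      exact h1.congr_of_eventuallyEq h2
    · have h1 := hd' t ⟨⟨hgt, ht.1.2⟩, ht2⟩
      have h2 : (fun t => if t ≤ b then x t else x' t) =ᶠ[nhds t] x' := by
        filter_upwards [Ioi_mem_nhds hgt] with r hr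
        exact if_neg (not_le.2 hr)
      simp only [if_neg (not_le.2 hgt)]
      exact h1.congr_of_eventuallyEq h2
  · exact Measurable.ite measurableSet_Iic h.meas h'.meas
  · refine ⟨max R R', fun t => ?_⟩
    split_ifs
    · exact (hR t).trans (le_max_left _ _)
    · exact (hR' _).trans (le_max_right _ _)
  · intro t ht
    simp [ht]
  · intro t ht
    simp [not_le.2 ht]

theorem Adm.toCur {a b : ℝ} {x u : ℝ → EuclideanSpace ℝ (Fin n)} (h : Adm a b x u)
    (k₀ : Fin n → ℤ) : Cur a b (fun t => ⟪zv k₀, x t⟫) fun t => ⟪zv k₀, u t⟫ := by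
  obtain ⟨s, hs, hd⟩ := h.der
  obtain ⟨R, hR⟩ := h.bd
  refine ⟨h.le, continuousOn_const.inner h.cont, ⟨s, hs, fun t ht => ?_⟩, ?_, ?_⟩
  · have h1 := (innerSL ℝ (zv k₀ : EuclideanSpace ℝ (Fin n))).hasFDerivAt.comp_hasDerivAt t
      (hd t ht)
    exact h1
  · exact measurable_const.inner h.meas
  · refine ⟨‖(zv k₀ : EuclideanSpace ℝ (Fin n))‖ * R, fun t => ?_⟩
    rw [← Real.norm_eq_abs]
    exact (norm_inner_le_norm _ _).trans (mul_le_mul_of_nonneg_left (hR t) (norm_nonneg _))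

theorem Adm.lift {s t : ℝ} {a ua : ℝ → ℝ} (h : Cur s t a ua)
    (x₀ v₀ e₀ : EuclideanSpace ℝ (Fin n)) :
    Adm s t (fun τ => x₀ + (τ - s) • v₀ + (a τ - a s) • e₀) fun τ => v₀ + ua τ • e₀ := by
  obtain ⟨S, hS, hd⟩ := h.der
  obtain ⟨R, hR⟩ := h.bd
  refine ⟨h.le, ?_, ⟨S, hS, fun τ hτ => ?_⟩, ?_, ?_⟩
  · have h1 : ContinuousOn (fun τ => (a τ - a s) • e₀) (Set.Icc s t) :=
      (h.cont.sub continuousOn_const).smul continuousOn_const
    have h2 : ContinuousOn (fun τ : ℝ => x₀ + (τ - s) • v₀) (Set.Icc s t) := by fun_prop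
    exact h2.add h1
  · have h1 : HasDerivAt (fun τ : ℝ => x₀ + (τ - s) • v₀) v₀ τ := by
      simpa using (((hasDerivAt_id τ).sub_const s).smul_const v₀).const_add x₀
    have h2 : HasDerivAt (fun τ : ℝ => (a τ - a s) • e₀) (ua τ • e₀) τ :=
      ((hd τ hτ).sub_const (a s)).smul_const e₀
    exact h1.add h2
  · exact measurable_const.add (h.meas.smul_const e₀)
  · refine ⟨‖v₀‖ + R * ‖e₀‖, fun τ => ?_⟩
    refine (norm_add_le _ _).trans ?_
    rw [norm_smul, Real.norm_eq_abs]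
    have h1 := mul_le_mul_of_nonneg_right (hR τ) (norm_nonneg e₀)
    linarith

end Pool.Agent.H33.AN
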