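import Pool.Agent.H33.AN.Trap
import Pool.Agent.H33.AN.P.G1
import Pool.Agent.H33.AM.P.R3
import Pool.Agent.H33.AN.P.L1a

/-!
# Module L1: connecting curves, time-dependent

As in `Pool/Agent/H33/AM/P/R2.lean`, `Pool/Agent/H33/AM/P/R3.lean` (copy the proofs).
* `Adm.glue`: glue at `b`.
* `toCur`: compose with the inner product.
* `lift`: `x(t) = x₀ + (t - t₀) • v₀ + (a t - a t₀) • e₀`.
* `Conn2.cross`: intermediate value theorem for `t ↦ ⟪zv k₀, ξ t⟫ - f t`.
* `moving_cross`: `t₂ = inf {t ∈ [t₀, t₁] | θ t ≥ c t}`, `t₁' = sup {t ∈ [t₀, t₂] | θ t ≤ a t}`.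
-/

set_option autoImplicit false

open MeasureTheory
open scoped RealInnerProductSpace

namespace Pool.Agent.H33.AN

open Pool.Agent.H33.AM

variable {n : ℕ} {l : EuclideanSpace ℝ (Fin n) → EuclideanSpace ℝ (Fin n) → ℝ → ℝ} {Q : ℕ}

private lemma l1b_int (hl : HL2 Q l) {e a b : ℝ} {x u : ℝ → EuclideanSpace ℝ (Fin n)}
    (h : Adm a b x u) : IntervalIntegrable (fun t => l (x t) (u t) t + e) volume a b := by
  refine Adm.integrable2 h (g := fun p => l p.1 p.2.1 p.2.2 + e) ?_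
  exact hl.cont.add continuous_const

private lemma l1b_pert (hl : HL2 Q l) (x v : EuclideanSpace ℝ (Fin n)) (t : ℝ) (j : ℤ) :
    l x v (t + j * Q) = l x v t := by
  have h : Function.Periodic (fun s => l x v s) (Q : ℝ) := fun s => hl.pert x v s
  exact h.int_mul j t

theorem Conn2.le {e a b : ℝ} {x y : EuclideanSpace ℝ (Fin n)} {r : ℝ} (h : Conn2 l e a b x y r) :
    a ≤ b := by
  obtain ⟨ξ, u, h1, -⟩ := h
  exact h1.le

theorem Conn2.refl (l : EuclideanSpace ℝ (Fin n) → EuclideanSpace ℝ (Fin n) → ℝ → ℝ) (e a : ℝ)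
    (x : EuclideanSpace ℝ (Fin n)) : Conn2 l e a a x x 0 := by
  refine ⟨fun _ => x, fun _ => 0, ?_, rfl, rfl, ?_⟩
  · refine ⟨le_rfl, continuousOn_const, ⟨∅, Set.countable_empty, fun t _ => ?_⟩,
      measurable_const, ⟨0, fun _ => by simp⟩⟩
    exact hasDerivAt_const t x
  · simp

theorem Conn2.trans (hl : HL2 Q l) {e a b c : ℝ} {x y z : EuclideanSpace ℝ (Fin n)} {r r' : ℝ}
    (h : Conn2 l e a b x y r) (h' : Conn2 l e b c y z r') : Conn2 l e a c x z (r + r') := by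
  obtain ⟨ξ, u, ha, h0, hT, hr⟩ := h
  obtain ⟨ξ', u', ha', h0', hT', hr'⟩ := h'
  obtain ⟨ξ'', u'', ha'', h1, h2⟩ := Adm.glue ha ha' (hT.trans h0'.symm)
  have hab : a ≤ b := ha.le
  have hbc : b ≤ c := ha'.le
  refine ⟨ξ'', u'', ha'', ?_, ?_, ?_⟩
  · rw [(h1 a hab).1, h0]
  · rcases hbc.eq_or_lt with h3 | h3
    · rw [← h3, (h1 b le_rfl).1, hT, ← hT', ← h3, h0']
    · rw [(h2 c h3).1, hT']
  · rw [← intervalIntegral.integral_add_adjacent_intervals
      (l1b_int hl (ha''.sub le_rfl hab hbc)) (l1b_int hl (ha''.sub hab hbc le_rfl)), ← hr, ← hr']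
    congr 1
    · refine intervalIntegral.integral_congr_ae (Filter.Eventually.of_forall fun t ht => ?_)
      rw [Set.uIoc_of_le hab] at ht
      rw [(h1 t ht.2).1, (h1 t ht.2).2]
    · refine intervalIntegral.integral_congr_ae (Filter.Eventually.of_forall fun t ht => ?_)
      rw [Set.uIoc_of_le hbc] at ht
      rw [(h2 t ht.1).1, (h2 t ht.1).2]

theorem Conn2.add_zv (hl : HL2 Q l) {e a b : ℝ} {x y : EuclideanSpace ℝ (Fin n)} {r : ℝ}
    (h : Conn2 l e a b x y r) (k : Fin n → ℤ) : Conn2 l e a b (x + zv k) (y + zv k) r := by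
  obtain ⟨ξ, u, ha, h0, hT, hr⟩ := h
  refine ⟨fun t => ξ t + zv k, u, ha.add_const _, by simp [h0], by simp [hT], ?_⟩
  rw [← hr]
  simp only [hl.per]

theorem Conn2.shift (hl : HL2 Q l) {e a b : ℝ} {x y : EuclideanSpace ℝ (Fin n)} {r : ℝ}
    (h : Conn2 l e a b x y r) (j : ℤ) : Conn2 l e (a + j * Q) (b + j * Q) x y r := by
  obtain ⟨ξ, u, ha, h0, hT, hr⟩ := h
  refine ⟨fun t => ξ (t - j * Q), fun t => u (t - j * Q), ha.shift _, by simp [h0],
    by simp [hT], ?_⟩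
  rw [← hr]
  have h1 : ∀ t : ℝ, l (ξ (t - j * Q)) (u (t - j * Q)) t + e =
      l (ξ (t - j * Q)) (u (t - j * Q)) (t - j * Q) + e := by
    intro t
    have h2 := l1b_pert hl (ξ (t - j * Q)) (u (t - j * Q)) (t - j * Q) j
    rw [sub_add_cancel] at h2
    rw [h2]
  simp only [h1]
  rw [intervalIntegral.integral_comp_sub_right (fun t => l (ξ t) (u t) t + e)]
  simp

theorem Conn2.level (hl : HL2 Q l) {e a b : ℝ} {x y : EuclideanSpace ℝ (Fin n)} {r : ℝ}
    (h : Conn2 l e a b x y r) (e' : ℝ) : Conn2 l e' a b x y (r + (e' - e) * (b - a)) := by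
  obtain ⟨ξ, u, ha, h0, hT, hr⟩ := h
  refine ⟨ξ, u, ha, h0, hT, ?_⟩
  rw [← hr]
  have h1 : (fun t => l (ξ t) (u t) t + e') = fun t => (l (ξ t) (u t) t + e) + (e' - e) := by
    funext t
    ring
  rw [h1, intervalIntegral.integral_add (l1b_int hl ha) (by simp)]
  simp [mul_comm]
  ring

theorem Conn2.iter (hl : HL2 Q l) {e s : ℝ} {j : ℕ} {x : EuclideanSpace ℝ (Fin n)}
    {k : Fin n → ℤ} {r : ℝ} (h : Conn2 l e s (s + j * Q) x (x + zv k) r) (i : ℕ) :
    Conn2 l e s (s + (i * j : ℕ) * Q) x (x + zv (i • k)) (i * r) := by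
  induction i with
  | zero =>
    have h1 : x + zv (0 • k) = x := by rw [zero_smul, zv_zero, add_zero]
    rw [h1]
    simpa using Conn2.refl l e s x
  | succ i ih =>
    have h0 := Conn2.shift hl (Conn2.add_zv hl h (i • k)) ((i * j : ℕ) : ℤ)
    have h1 : Conn2 l e (s + (i * j : ℕ) * Q) (s + ((i + 1) * j : ℕ) * Q) (x + zv (i • k))
        (x + zv ((i + 1) • k)) r := by
      have h2 : x + zv k + zv (i • k) = x + zv ((i + 1) • k) := by
        rw [add_smul, one_smul, zv_add]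
        abel
      have h3 : s + (j : ℝ) * Q + (((i * j : ℕ) : ℤ) : ℝ) * Q = s + ((i + 1) * j : ℕ) * Q := by
        push_cast
        ring
      have h4 : s + (((i * j : ℕ) : ℤ) : ℝ) * Q = s + ((i * j : ℕ) : ℝ) * Q := by
        push_cast
        ring
      rw [h2, h3, h4] at h0
      exact h0
    have h5 := Conn2.trans hl ih h1
    have h6 : ((i + 1 : ℕ) : ℝ) * r = i * r + r := by push_cast; ring
    rw [h6]
    exact h5

end Pool.Agent.H33.AN
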