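import Pool.Agent.H33.AN.Trap
import Pool.Agent.H33.AN.P.G1
import Pool.Agent.H33.AM.P.R3
import Pool.Agent.H33.AN.P.L1a
import Pool.Agent.H33.AN.P.L1b

/-!
# Module L1: connecting curves, time-dependent

As in `Pool/Agent/H33/AM/P/R2.lean`, `Pool/Agent/H33/AM/P/R3.lean` (copy the proofs).
* `Adm.glue`: glue at `b`.
* `toCur`: compose with the inner product.
* `lift`: `x(t) = x₀ + (t - t₀) • v₀ + (a t - a t₀) • e₀`.
* `Conn2.cross`: intermediate value theorem for `t ↦ ⟪zv k₀, ξ t⟫ - f t`.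
* `moving_cross`: `t₂ = inf {t ∈ [t₀, t₁] | θ t ≥ c t}`, `t₁' = sup {t ∈ [t₀, t₂] | θ t ≤ a t}`.
-/

set_option autoImplicit false

open MeasureTheory
open scoped RealInnerProductSpace

namespace Pool.Agent.H33.AN

open Pool.Agent.H33.AM

variable {n : ℕ} {l : EuclideanSpace ℝ (Fin n) → EuclideanSpace ℝ (Fin n) → ℝ → ℝ} {Q : ℕ}

/-- Crossing a moving level. -/
theorem Conn2.cross (hl : HL2 Q l) {k₀ : Fin n → ℤ} {e a b : ℝ}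
    {x y : EuclideanSpace ℝ (Fin n)} {r : ℝ} (h : Conn2 l e a b x y r) {f : ℝ → ℝ}
    (hf : Continuous f)
    (hA : (⟪zv k₀, x⟫ ≤ f a ∧ f b ≤ ⟪zv k₀, y⟫) ∨ (f a ≤ ⟪zv k₀, x⟫ ∧ ⟪zv k₀, y⟫ ≤ f b)) :
    ∃ (t : ℝ) (z : EuclideanSpace ℝ (Fin n)) (r₁ r₂ : ℝ), ⟪zv k₀, z⟫ = f t ∧
      r = r₁ + r₂ ∧ Conn2 l e a t x z r₁ ∧ Conn2 l e t b z y r₂ := by
  obtain ⟨ξ, u, ha, h0, hT, hr⟩ := h
  have hab : a ≤ b := ha.le
  have hc : ContinuousOn (fun t => ⟪zv k₀, ξ t⟫ - f t) (Set.Icc a b) :=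
    (continuousOn_const.inner ha.cont).sub hf.continuousOn
  have h1 : ∃ σ ∈ Set.Icc a b, ⟪zv k₀, ξ σ⟫ - f σ = 0 := by
    rcases hA with hA | hA
    · have h2 := intermediate_value_Icc hab hc
      exact h2 ⟨by rw [h0]; linarith [hA.1], by rw [hT]; linarith [hA.2]⟩
    · have h2 := intermediate_value_Icc' hab hc
      exact h2 ⟨by rw [hT]; linarith [hA.2], by rw [h0]; linarith [hA.1]⟩
  obtain ⟨σ, hσ, hσA⟩ := h1
  have hg : Continuous fun p : EuclideanSpace ℝ (Fin n) × EuclideanSpace ℝ (Fin n) × ℝ =>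
      l p.1 p.2.1 p.2.2 + e := hl.cont.add continuous_const
  have A1 := ha.sub le_rfl hσ.1 hσ.2
  have A2 := ha.sub hσ.1 hσ.2 le_rfl
  refine ⟨σ, ξ σ, ∫ t in a..σ, (l (ξ t) (u t) t + e), ∫ t in σ..b, (l (ξ t) (u t) t + e),
    by linarith, ?_, ⟨ξ, u, A1, h0, rfl, rfl⟩, ⟨ξ, u, A2, rfl, hT, rfl⟩⟩
  rw [← hr]
  exact (intervalIntegral.integral_add_adjacent_intervals (Adm.integrable2 A1 hg)
    (Adm.integrable2 A2 hg)).symm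

/-- Crossing a moving strip upwards. -/
theorem moving_cross {θ a c : ℝ → ℝ} {t₀ t₁ : ℝ} (ht : t₀ ≤ t₁)
    (hθ : ContinuousOn θ (Set.Icc t₀ t₁)) (ha : Continuous a) (hc : Continuous c)
    (hac : ∀ t, a t < c t) (h0 : θ t₀ ≤ a t₀) (h1 : c t₁ ≤ θ t₁) :
    ∃ σ₁ σ₂, t₀ ≤ σ₁ ∧ σ₁ ≤ σ₂ ∧ σ₂ ≤ t₁ ∧ θ σ₁ = a σ₁ ∧ θ σ₂ = c σ₂ ∧
      ∀ t ∈ Set.Icc σ₁ σ₂, a t ≤ θ t ∧ θ t ≤ c t := by
  have hcl : IsClosed (Set.Icc t₀ t₁ ∩ (fun t => θ t - c t) ⁻¹' Set.Ici 0) :=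
    (hθ.sub hc.continuousOn).preimage_isClosed_of_isClosed isClosed_Icc isClosed_Ici
  have hcomp : IsCompact (Set.Icc t₀ t₁ ∩ (fun t => θ t - c t) ⁻¹' Set.Ici 0) :=
    isCompact_Icc.of_isClosed_subset hcl Set.inter_subset_left
  obtain ⟨σ₂, hσ2, hmin⟩ := hcomp.exists_isLeast
    ⟨t₁, ⟨ht, le_rfl⟩, by simpa using h1⟩
  have hσ2c : c σ₂ ≤ θ σ₂ := by
    have := hσ2.2
    simpa using this
  have hmin' : ∀ t, t₀ ≤ t → t < σ₂ → θ t < c t := by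
    intro t h2 h3
    by_contra h4
    push Not at h4
    have h5 := hmin (a := t) ⟨⟨h2, by linarith [hσ2.1.2]⟩, by simpa using h4⟩
    linarith
  have hθ2 : ContinuousOn θ (Set.Icc t₀ σ₂) := hθ.mono (Set.Icc_subset_Icc le_rfl hσ2.1.2)
  have heq2 : θ σ₂ = c σ₂ := by
    by_contra hne
    have hlt : c σ₂ < θ σ₂ := lt_of_le_of_ne hσ2c (Ne.symm hne)
    have h2 := intermediate_value_Icc hσ2.1.1 (hθ2.sub hc.continuousOn)
    obtain ⟨t, ht1, ht2⟩ := h2 (show (0 : ℝ) ∈ Set.Icc ((fun t => θ t - c t) t₀)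
      ((fun t => θ t - c t) σ₂) from ⟨by have := hac t₀; dsimp only; linarith, by
        dsimp only; linarith⟩)
    have ht2' : θ t - c t = 0 := ht2
    rcases eq_or_lt_of_le ht1.2 with h3 | h3
    · rw [h3] at ht2'
      linarith
    · have := hmin' t ht1.1 h3
      linarith
  have hcl' : IsClosed (Set.Icc t₀ σ₂ ∩ (fun t => θ t - a t) ⁻¹' Set.Iic 0) :=
    (hθ2.sub ha.continuousOn).preimage_isClosed_of_isClosed isClosed_Icc isClosed_Iic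
  have hcomp' : IsCompact (Set.Icc t₀ σ₂ ∩ (fun t => θ t - a t) ⁻¹' Set.Iic 0) :=
    isCompact_Icc.of_isClosed_subset hcl' Set.inter_subset_left
  obtain ⟨σ₁, hσ1, hmax⟩ := hcomp'.exists_isGreatest
    ⟨t₀, ⟨le_rfl, hσ2.1.1⟩, by simpa using h0⟩
  have hσ1a : θ σ₁ ≤ a σ₁ := by
    have := hσ1.2
    simpa using this
  have hmax' : ∀ t, σ₁ < t → t ≤ σ₂ → a t < θ t := by
    intro t h2 h3
    by_contra h4
    push Not at h4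
    have h5 := hmax (a := t) ⟨⟨by linarith [hσ1.1.1], h3⟩, by simpa using h4⟩
    linarith
  have heq1 : θ σ₁ = a σ₁ := by
    by_contra hne
    have hlt : θ σ₁ < a σ₁ := lt_of_le_of_ne hσ1a hne
    have hθ1 : ContinuousOn θ (Set.Icc σ₁ σ₂) := hθ2.mono (Set.Icc_subset_Icc hσ1.1.1 le_rfl)
    have h2 := intermediate_value_Icc hσ1.1.2 (hθ1.sub ha.continuousOn)
    obtain ⟨t, ht1, ht2⟩ := h2 (show (0 : ℝ) ∈ Set.Icc ((fun t => θ t - a t) σ₁)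
      ((fun t => θ t - a t) σ₂) from ⟨by dsimp only; linarith, by
        have := hac σ₂; dsimp only; linarith⟩)
    have ht2' : θ t - a t = 0 := ht2
    rcases eq_or_lt_of_le ht1.1 with h3 | h3
    · rw [← h3] at ht2'
      linarith
    · have := hmax' t h3 ht1.2
      linarith
  refine ⟨σ₁, σ₂, hσ1.1.1, hσ1.1.2, hσ2.1.2, heq1, heq2, fun t ht => ⟨?_, ?_⟩⟩
  · rcases eq_or_lt_of_le ht.1 with h3 | h3
    · rw [← h3, heq1]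
    · exact (hmax' t h3 ht.2).le
  · rcases eq_or_lt_of_le ht.2 with h3 | h3
    · rw [h3, heq2]
    · exact (hmin' t (hσ1.1.1.trans ht.1) h3).le

/-- Crossing a moving strip downwards. -/
theorem moving_cross' {θ a c : ℝ → ℝ} {t₀ t₁ : ℝ} (ht : t₀ ≤ t₁)
    (hθ : ContinuousOn θ (Set.Icc t₀ t₁)) (ha : Continuous a) (hc : Continuous c)
    (hac : ∀ t, a t < c t) (h0 : c t₀ ≤ θ t₀) (h1 : θ t₁ ≤ a t₁) :
    ∃ σ₁ σ₂, t₀ ≤ σ₁ ∧ σ₁ ≤ σ₂ ∧ σ₂ ≤ t₁ ∧ θ σ₁ = c σ₁ ∧ θ σ₂ = a σ₂ ∧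
      ∀ t ∈ Set.Icc σ₁ σ₂, a t ≤ θ t ∧ θ t ≤ c t := by
  obtain ⟨σ₁, σ₂, h2, h3, h4, h5, h6, h7⟩ := moving_cross (θ := fun t => -θ t)
    (a := fun t => -c t) (c := fun t => -a t) ht hθ.neg hc.neg ha.neg
    (fun t => neg_lt_neg (hac t)) (neg_le_neg h0) (neg_le_neg h1)
  exact ⟨σ₁, σ₂, h2, h3, h4, neg_injective h5, neg_injective h6,
    fun t ht' => ⟨neg_le_neg_iff.1 (h7 t ht').2, neg_le_neg_iff.1 (h7 t ht').1⟩⟩

end Pool.Agent.H33.AN
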