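import Pool.Agent.H33.AN.Trap
import Pool.Agent.H33.AN.P.G1
import Pool.Agent.H33.AN.P.L1
import Pool.Agent.H33.AM.P.T2

/-!
# Module L2: the critical value

Notation: `q = s • zv P`, `θ(x) = ⟪zv k₀, x⟫`. (Compare `Pool/Agent/H33/AM/P/T1.lean`.)
* `crit2_lower`: let `ξ`, `u` be from `Bar.att`, `|u| ≤ R`, `R₀ = R ‖e₀‖`. Let `0 < j`; `lattice` gives `k` with
  `dot k₀ k = 0`, `‖(j Q) • q - zv k‖ ≤ C₀`; put `w₀ = (zv k - (j Q) • q) / (j Q)`, so `⟪zv k₀, w₀⟫ = 0`. The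
  curve `x t = ξ 0 • zv m + t • (q + w₀) + (ξ t - ξ 0) • e₀` on `[0, j Q]` (`Adm.lift`) has `θ (x t) = ξ t`, ends
  in `x 0 + zv k`, its velocity is `q + w₀ + u t • e₀`. `c1 w Q E₁ 0 (j Q) ξ u = 0`. By `Trap2.hi` and
  `Crit2`: `0 ≤ κ/2 C₀²/(j Q) + δ j Q + δ + δ (R₀ j Q + C₀) + e j Q`; divide by `j Q`, `j → ∞`.
* `crit2_upper`: if `Conn2 l e t (t + j Q) x (x + zv k) r`, `dot k₀ k = 0`, `j > 0`: by `Conn2.iter` there is a
  curve over `i j` periods with the action `i r`; `θ` is closed along it, so `c1 ≥ 0` (`Bar.crit`) and by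
  `Trap2.lo` `i r ≥ (e - δ) i j Q - δ ≥ -δ` for every `i`. (`j = 0`: `r = 0`.)
* `crit2_exists`: `e = sInf {e | Crit2 l k₀ Q e}`; the action is affine in `e` (`Conn2.level`).
-/

set_option autoImplicit false

open MeasureTheory
open scoped RealInnerProductSpace

namespace Pool.Agent.H33.AN

open Pool.Agent.H33.AM

variable {n : ℕ} {Q : ℕ} {B E₁ μ : ℝ} {w w₁ w₂ : ℝ → ℝ → ℝ} {Bc : ℝ → ℝ}

private theorem L2a_cont (hw : HW Q w w₁ w₂ B) : Continuous fun z : ℝ × ℝ => w z.1 z.2 :=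
  continuous_iff_continuousAt.2 fun z => (hw.der z.1 z.2).continuousAt

private theorem L2a_c1 (hw : HW Q w w₁ w₂ B) (hQ : 0 < Q) {ξ u : ℝ → ℝ}
    (hcur : ∀ s t, s ≤ t → Cur s t ξ u) (hξ : ∀ t, ξ (t + Q) = ξ t) (hu : ∀ t, u (t + Q) = u t)
    (hE : A1 w 0 Q ξ u = E₁) (j : ℕ) : c1 w Q E₁ 0 ((j : ℝ) * Q) ξ u = 0 := by
  have hQ' : (Q : ℝ) ≠ 0 := by exact_mod_cast hQ.ne'
  have hw0 := L2a_cont hw
  have hint : ∀ a b, IntervalIntegrable (fun t => u t ^ 2 / 2 - w (ξ t) t) volume a b := by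
    have h1 : ∀ a b, a ≤ b → IntervalIntegrable (fun t => u t ^ 2 / 2 - w (ξ t) t) volume a b := by
      intro a b hab
      exact (hcur a b hab).integrable (g := fun p => p.2.1 ^ 2 / 2 - w p.1 p.2.2)
        ((by fun_prop : Continuous fun p : ℝ × ℝ × ℝ => p.2.1 ^ 2 / 2).sub
          (hw0.comp (by fun_prop : Continuous fun p : ℝ × ℝ × ℝ => (p.1, p.2.2))))
    intro a b
    rcases le_total a b with h | h
    · exact h1 a b h
    · exact (h1 b a h).symm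
  have hper : Function.Periodic (fun t => u t ^ 2 / 2 - w (ξ t) t) (Q : ℝ) := by
    intro t
    simp only [hu, hξ, hw.per₂]
  have h2 := hper.intervalIntegral_add_zsmul_eq (j : ℤ) 0 hint
  have h3 : (0 : ℝ) + (j : ℤ) • (Q : ℝ) = (j : ℝ) * Q := by simp
  rw [h3, zero_add] at h2
  unfold c1
  have h4 : A1 w 0 ((j : ℝ) * Q) ξ u = (j : ℝ) * E₁ := by
    rw [← hE]
    unfold A1
    rw [h2]
    simp
  rw [h4]
  field_simp
  ring

theorem crit2_lower (hw : HW Q w w₁ w₂ B) (hb : Bar w Q E₁ μ Bc)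
    (e₀ : EuclideanSpace ℝ (Fin n)) :
    ∃ R₀ : ℝ, 0 ≤ R₀ ∧
      ∀ (l : EuclideanSpace ℝ (Fin n) → EuclideanSpace ℝ (Fin n) → ℝ → ℝ) (k₀ m P : Fin n → ℤ)
        (s M κ δ e : ℝ), Trap2 l k₀ m P s e₀ Q w E₁ M κ δ → Crit2 l k₀ Q e →
        -(δ * (1 + R₀)) ≤ e := by
  obtain ⟨ξ, u, hcur, hξ, hu, hE⟩ := hb.att
  obtain ⟨R, hR⟩ := (hcur 0 0 le_rfl).bd
  have hR0 : 0 ≤ R := (abs_nonneg _).trans (hR 0)
  refine ⟨R * ‖e₀‖, by positivity, ?_⟩
  intro l k₀ m P s M κ δ e h hc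
  set R₀ := R * ‖e₀‖ with hR₀
  have hR₀0 : 0 ≤ R₀ := by positivity
  have hQ : (1 : ℝ) ≤ Q := by exact_mod_cast hb.Q_pos
  obtain ⟨C₀, hC0, hlat⟩ := lattice h.km
  have hδ := h.δ_nonneg
  have hκ := h.κ_pos
  have key : ∀ j : ℕ, 0 < j → 0 ≤ κ / 2 * C₀ ^ 2 + δ + δ * C₀ +
      (e + δ * (1 + R₀)) * ((j : ℝ) * Q) := by
    intro j hj
    have hj1 : (1 : ℝ) ≤ j := by exact_mod_cast hj
    set T : ℝ := (j : ℝ) * Q with hT
    have hT1 : 1 ≤ T := by nlinarith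
    have hT0 : 0 < T := by linarith
    set q : EuclideanSpace ℝ (Fin n) := s • zv P with hq
    have hkq : ⟪zv k₀, q⟫ = 0 := by
      rw [hq, inner_smul_right, inner_zv, h.kP]
      simp
    obtain ⟨k, hk0, hk⟩ := hlat (T • q) (by rw [inner_smul_right, hkq]; simp)
    set w₀ : EuclideanSpace ℝ (Fin n) := T⁻¹ • (zv k - T • q) with hw₀
    have hkw : ⟪zv k₀, w₀⟫ = 0 := by
      rw [hw₀, inner_smul_right, inner_sub_right, inner_smul_right, hkq, inner_zv, hk0]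
      simp
    have hnw : ‖w₀‖ ≤ C₀ / T := by
      rw [hw₀, norm_smul, norm_inv, Real.norm_of_nonneg hT0.le, norm_sub_rev, div_eq_inv_mul]
      exact mul_le_mul_of_nonneg_left hk (inv_nonneg.2 hT0.le)
    have hadm := Adm.lift (hcur 0 T hT0.le) (ξ 0 • zv m) (q + w₀) e₀
    set X : ℝ → EuclideanSpace ℝ (Fin n) :=
      fun τ => ξ 0 • zv m + (τ - 0) • (q + w₀) + (ξ τ - ξ 0) • e₀ with hX
    set U : ℝ → EuclideanSpace ℝ (Fin n) := fun τ => q + w₀ + u τ • e₀ with hU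
    have hθX : ∀ t, ⟪zv k₀, X t⟫ = ξ t := by
      intro t
      rw [hX]
      simp only [inner_add_right, inner_smul_right, hkq, hkw, inner_zv, h.km, h.ke]
      simp
    have hθU : ∀ t, ⟪zv k₀, U t⟫ = u t := by
      intro t
      rw [hU]
      simp only [inner_add_right, inner_smul_right, hkq, hkw, h.ke]
      simp
    have hξT : ξ T = ξ 0 := by
      have hp : Function.Periodic ξ (Q : ℝ) := hξ
      have := hp.nat_mul_eq j
      simpa [hT] using this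
    have hXT : X T = ξ 0 • zv m + zv k := by
      rw [hX]
      simp only [hξT, sub_self, zero_smul, add_zero, sub_zero]
      have h20 : T • w₀ = zv k - T • q := by
        rw [hw₀, smul_smul T T⁻¹, mul_inv_cancel₀ hT0.ne', one_smul]
      rw [smul_add T q w₀, h20]
      abel
    have hX0 : X 0 = ξ 0 • zv m := by
      rw [hX]
      simp
    have hint : IntervalIntegrable (fun t => l (X t) (U t) t) volume 0 T :=
      Adm.integrable2 hadm (g := fun p => l p.1 p.2.1 p.2.2) h.hl.cont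
    have h1 : 0 ≤ (∫ t in (0 : ℝ)..T, l (X t) (U t) t) + e * T := by
      have h2 := hc j 0 (ξ 0 • zv m) k (∫ t in (0 : ℝ)..T, (l (X t) (U t) t + e)) hk0
        ⟨X, U, by rw [zero_add]; exact hadm, hX0, by rw [zero_add]; exact hXT,
          by rw [zero_add]⟩
      rw [intervalIntegral.integral_add hint (by simp)] at h2
      simpa [mul_comm] using h2
    have h3 := h.hi 0 T X U hadm
    simp only [hθX, hθU] at h3
    have h4 : c1 w Q E₁ 0 T (fun t => ξ t) (fun t => u t) = 0 :=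
      L2a_c1 hw hb.Q_pos hcur hξ hu hE j
    rw [h4] at h3
    have h5 : (∫ t in (0 : ℝ)..T, ‖U t - s • zv P - u t • e₀‖ ^ 2) ≤ C₀ ^ 2 := by
      have h6 : ∀ t, U t - s • zv P - u t • e₀ = w₀ := by
        intro t
        rw [hU, ← hq]
        simp only
        abel
      simp only [h6, intervalIntegral.integral_const, sub_zero, smul_eq_mul]
      have h7 : ‖w₀‖ ^ 2 ≤ (C₀ / T) ^ 2 := pow_le_pow_left₀ (norm_nonneg _) hnw 2
      calc T * ‖w₀‖ ^ 2 ≤ T * (C₀ / T) ^ 2 := mul_le_mul_of_nonneg_left h7 hT0.le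
        _ = C₀ ^ 2 / T := by field_simp
        _ ≤ C₀ ^ 2 := div_le_self (by positivity) hT1
    have h8 : (∫ t in (0 : ℝ)..T, ‖U t - s • zv P‖) ≤ C₀ + R₀ * T := by
      have h9 : ∀ t ∈ Set.uIoc (0 : ℝ) T, ‖(‖U t - s • zv P‖ : ℝ)‖ ≤ C₀ / T + R₀ := by
        intro t _
        have h10 : U t - s • zv P = w₀ + u t • e₀ := by
          rw [hU, ← hq]
          simp only
          abel
        rw [norm_norm, h10]
        refine (norm_add_le _ _).trans (add_le_add hnw ?_)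
        rw [norm_smul, Real.norm_eq_abs]
        exact mul_le_mul_of_nonneg_right (hR t) (norm_nonneg _)
      have h11 := intervalIntegral.norm_integral_le_of_norm_le_const h9
      rw [sub_zero, abs_of_pos hT0] at h11
      refine (le_abs_self _).trans ((by rwa [Real.norm_eq_abs] at h11 :
        |∫ t in (0 : ℝ)..T, ‖U t - s • zv P‖| ≤ (C₀ / T + R₀) * T).trans (le_of_eq ?_))
      field_simp
    have h12 : κ / 2 * (∫ t in (0 : ℝ)..T, ‖U t - s • zv P - u t • e₀‖ ^ 2) ≤ κ / 2 * C₀ ^ 2 :=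
      mul_le_mul_of_nonneg_left h5 (by positivity)
    have h13 : δ * (∫ t in (0 : ℝ)..T, ‖U t - s • zv P‖) ≤ δ * (C₀ + R₀ * T) :=
      mul_le_mul_of_nonneg_left h8 hδ
    rw [sub_zero, mul_zero, zero_add] at h3
    nlinarith
  by_contra hcon
  have hneg : e + δ * (1 + R₀) < 0 := by linarith
  set c : ℝ := -(e + δ * (1 + R₀)) with hcc
  have hc0 : 0 < c := by linarith
  obtain ⟨j, hj⟩ := exists_nat_gt ((κ / 2 * C₀ ^ 2 + δ + δ * C₀) / c)
  have hnum : 0 ≤ κ / 2 * C₀ ^ 2 + δ + δ * C₀ := by positivity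
  have hj0 : 0 < j := by
    have : (0 : ℝ) < j := lt_of_le_of_lt (div_nonneg hnum hc0.le) hj
    exact_mod_cast this
  have h1 := key j hj0
  rw [div_lt_iff₀ hc0] at hj
  have hj1 : (0 : ℝ) < j := by exact_mod_cast hj0
  have h2 : (j : ℝ) * c ≤ (j : ℝ) * Q * c := by
    have : (j : ℝ) * 1 ≤ (j : ℝ) * Q := mul_le_mul_of_nonneg_left hQ hj1.le
    nlinarith
  have h3 : (e + δ * (1 + R₀)) * ((j : ℝ) * Q) = -(c * ((j : ℝ) * Q)) := by
    rw [hcc]
    ring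
  rw [h3] at h1
  nlinarith

end Pool.Agent.H33.AN
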