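import Pool.Agent.H33.AN.Trap
import Pool.Agent.H33.AN.P.G1
import Pool.Agent.H33.AN.P.L1
import Pool.Agent.H33.AM.P.T2
import Pool.Agent.H33.AN.P.L2a

/-!
# Module L2: the critical value

Notation: `q = s • zv P`, `θ(x) = ⟪zv k₀, x⟫`. (Compare `Pool/Agent/H33/AM/P/T1.lean`.)
* `crit2_upper`: if `Conn2 l e t (t + j Q) x (x + zv k) r`, `dot k₀ k = 0`, `j > 0`: by `Conn2.iter` there is a
  curve over `i j` periods with the action `i r`; `θ` is closed along it, so `c1 ≥ 0` (`Bar.crit`) and by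
  `Trap2.lo` `i r ≥ (e - δ) i j Q - δ ≥ -δ` for every `i`. (`j = 0`: `r = 0`.)
-/

set_option autoImplicit false

open MeasureTheory
open scoped RealInnerProductSpace

namespace Pool.Agent.H33.AN

open Pool.Agent.H33.AM

variable {n : ℕ} {Q : ℕ} {B E₁ μ : ℝ} {w w₁ w₂ : ℝ → ℝ → ℝ} {Bc : ℝ → ℝ}

theorem crit2_upper (hw : HW Q w w₁ w₂ B) (hb : Bar w Q E₁ μ Bc)
    {l : EuclideanSpace ℝ (Fin n) → EuclideanSpace ℝ (Fin n) → ℝ → ℝ} {k₀ m P : Fin n → ℤ}
    {s M κ δ e : ℝ} {e₀ : EuclideanSpace ℝ (Fin n)} (h : Trap2 l k₀ m P s e₀ Q w E₁ M κ δ)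
    (he : δ ≤ e) : Crit2 l k₀ Q e := by
  intro j t x k r hk hr
  rcases Nat.eq_zero_or_pos j with hj | hj
  · subst hj
    obtain ⟨ξ, u, _, _, _, hact⟩ := hr
    have e1 : t + ((0 : ℕ) : ℝ) * Q = t := by
      push_cast
      ring
    rw [e1, intervalIntegral.integral_same] at hact
    exact hact.le
  · have hQ : (0 : ℝ) < Q := by exact_mod_cast hb.Q_pos
    obtain ⟨δ', _, hδ'le, hlo'⟩ := h.lo
    have key : ∀ i : ℕ, 0 < i → -δ ≤ i * r := by
      intro i hi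
      obtain ⟨ξ, u, ha, h0, h1, hact⟩ := hr.iter h.hl i
      have hlo := hlo' _ _ ξ u ha
      have hcur := Adm.toCur ha k₀
      have hcl : ⟪zv k₀, ξ (t + ((i * j : ℕ) : ℝ) * Q)⟫ = ⟪zv k₀, ξ t⟫ := by
        rw [h1, h0, inner_add_right, inner_zv, dot_nsmul, hk]
        simp
      have hcrit := hb.crit (i * j) t _ _ (Nat.mul_pos hi hj) hcur hcl
      have hba : t + ((i * j : ℕ) : ℝ) * Q - t = ((i * j : ℕ) : ℝ) * Q := by ring
      have hc1 : 0 ≤ c1 w Q E₁ t (t + ((i * j : ℕ) : ℝ) * Q) (fun τ => ⟪zv k₀, ξ τ⟫)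
          (fun τ => ⟪zv k₀, u τ⟫) := by
        unfold c1
        rw [hba]
        have e2 : E₁ / Q * (((i * j : ℕ) : ℝ) * Q) = ((i * j : ℕ) : ℝ) * E₁ := by
          field_simp
        rw [e2]
        linarith
      have hi3 : IntervalIntegrable (fun τ => l (ξ τ) (u τ) τ) volume t
          (t + ((i * j : ℕ) : ℝ) * Q) :=
        Adm.integrable2 ha (g := fun p => l p.1 p.2.1 p.2.2) h.hl.cont
      rw [intervalIntegral.integral_add hi3 intervalIntegrable_const,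
        intervalIntegral.integral_const, hba, smul_eq_mul] at hact
      rw [hba] at hlo
      have hδ := h.δ_le
      have hM := h.M_pos
      have h2 : 0 ≤ M * (1 - δ') * c1 w Q E₁ t (t + ((i * j : ℕ) : ℝ) * Q)
          (fun τ => ⟪zv k₀, ξ τ⟫) (fun τ => ⟪zv k₀, u τ⟫) :=
        mul_nonneg (mul_nonneg hM.le (by linarith)) hc1
      have h3 : 0 ≤ ((i * j : ℕ) : ℝ) * Q * (e - δ) :=
        mul_nonneg (mul_nonneg (Nat.cast_nonneg _) hQ.le) (by linarith)
      nlinarith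
    by_contra hcon
    have hneg : r < 0 := not_le.1 hcon
    obtain ⟨i, hi⟩ := exists_nat_gt (δ / (-r))
    have h1 := key (i + 1) (Nat.succ_pos i)
    rw [div_lt_iff₀ (by linarith)] at hi
    push_cast at h1
    linarith

end Pool.Agent.H33.AN
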