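import Pool.Agent.H33.AN.Trap
import Pool.Agent.H33.AN.P.G1
import Pool.Agent.H33.AN.P.L1
import Pool.Agent.H33.AM.P.T2
import Pool.Agent.H33.AN.P.L2a
import Pool.Agent.H33.AN.P.L2b

/-!
# Module L2: the critical value

* `crit2_exists`: `e = sInf {e | Crit2 l k₀ Q e}`; the action is affine in `e` (`Conn2.level`).
-/

set_option autoImplicit false

open MeasureTheory
open scoped RealInnerProductSpace

namespace Pool.Agent.H33.AN

open Pool.Agent.H33.AM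

variable {n : ℕ} {Q : ℕ} {B E₁ μ : ℝ} {w w₁ w₂ : ℝ → ℝ → ℝ} {Bc : ℝ → ℝ}

theorem crit2_exists (hw : HW Q w w₁ w₂ B) (hb : Bar w Q E₁ μ Bc)
    (e₀ : EuclideanSpace ℝ (Fin n)) :
    ∃ R₀ : ℝ, 0 ≤ R₀ ∧
      ∀ (l : EuclideanSpace ℝ (Fin n) → EuclideanSpace ℝ (Fin n) → ℝ → ℝ) (k₀ m P : Fin n → ℤ)
        (s M κ δ : ℝ), Trap2 l k₀ m P s e₀ Q w E₁ M κ δ →
        ∃ e, Crit2 l k₀ Q e ∧ (∀ e' < e, ¬ Crit2 l k₀ Q e') ∧ -(δ * (1 + R₀)) ≤ e ∧ e ≤ δ := by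
  obtain ⟨R₀, hR₀, hlow⟩ := crit2_lower hw hb e₀
  refine ⟨R₀, hR₀, fun l k₀ m P s M κ δ h => ?_⟩
  have hup : Crit2 l k₀ Q δ := crit2_upper hw hb h le_rfl
  have hne : {e | Crit2 l k₀ Q e}.Nonempty := ⟨δ, hup⟩
  have hbdd : BddBelow {e | Crit2 l k₀ Q e} :=
    ⟨-(δ * (1 + R₀)), fun e he => hlow l k₀ m P s M κ δ e h he⟩
  have hcrit : Crit2 l k₀ Q (sInf {e | Crit2 l k₀ Q e}) := by
    intro j t x k r hk hr
    by_contra hcon
    have hneg : r < 0 := not_le.1 hcon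
    set T : ℝ := (j : ℝ) * Q with hT'
    have hT : 0 ≤ T := by positivity
    obtain ⟨e', he', hlt⟩ := exists_lt_of_csInf_lt hne
      (show sInf {e | Crit2 l k₀ Q e} < sInf {e | Crit2 l k₀ Q e} + (-r) / (T + 1) by
        have : 0 < (-r) / (T + 1) := div_pos (by linarith) (by linarith)
        linarith)
    have h1 := he' j t x k _ hk (hr.level h.hl e')
    have hba : t + T - t = T := by ring
    rw [hba] at h1
    have h2 : (e' - sInf {e | Crit2 l k₀ Q e}) * T ≤ (-r) / (T + 1) * T :=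
      mul_le_mul_of_nonneg_right (by linarith) hT
    have h3 : (-r) / (T + 1) * T < -r := by
      rw [div_mul_eq_mul_div, div_lt_iff₀ (by linarith)]
      nlinarith
    linarith
  refine ⟨sInf {e | Crit2 l k₀ Q e}, hcrit, fun e' he' hc => ?_,
    hlow l k₀ m P s M κ δ _ h hcrit, csInf_le hbdd hup⟩
  exact absurd (csInf_le hbdd hc) (not_le.2 he')

end Pool.Agent.H33.AN
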