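import Pool.Agent.H33.AN.Trap
import Pool.Agent.H33.AN.P.G1
import Pool.Agent.H33.AN.P.L1

/-!
# Module L3: closing up curves inside a moving level

Notation: `q = s • zv P`, `θ(x) = ⟪zv k₀, x⟫`. (Compare `Pool/Agent/H33/AM/P/T3.lean`.)
* `closes2`: let `θ(x) = a t`, `θ(y) = a t'`; there is an integer `i` with `b = t' + i Q ∈ [t + j₀ Q, t + (j₀ + 1) Q]`;
  `a b = a t'`. Let `z = x - y + (b - t) • q + (a t' - a t) • e₀`, `θ(z) = 0`, so there is `k` with `dot k₀ k = 0`,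
  `‖z - zv k‖ ≤ C₀`; `w₀ = (zv k - z) / (b - t)`, `⟪zv k₀, w₀⟫ = 0`. The curve
  `X τ = x + (τ - t) • (q + w₀) + (a τ - a t) • e₀` (`Adm.lift`) has `θ (X τ) = a τ` and ends in `y + zv k`; its
  velocity is `q + w₀ + ua τ • e₀`. By `Trap2.hi` its action w.r.t. `ℓ + e` is at most
  `M (ψ t' - ψ t + ω (j₀ + 1)) + κ/2 C₀²/(b - t) + δ (b - t) + δ + δ (C₀ + R ‖e₀‖ (b - t)) + e (b - t)`,
  `j₀ Q ≤ b - t ≤ (j₀ + 1) Q`.
* `rough2`: `b ∈ [t + Q, t + 2 Q]`, `z = x - y + (b - t) • q`, `w₀ = (zv k - z) / (b - t)`, the line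
  `X τ = x + (τ - t) • (q + w₀)`; `‖w₀‖ ≤ C₀ / Q`, `w` is bounded.
-/

set_option autoImplicit false

open MeasureTheory
open scoped RealInnerProductSpace

namespace Pool.Agent.H33.AN

open Pool.Agent.H33.AM

variable {n : ℕ} {l : EuclideanSpace ℝ (Fin n) → EuclideanSpace ℝ (Fin n) → ℝ → ℝ}
  {k₀ m P : Fin n → ℤ} {s : ℝ} {e₀ : EuclideanSpace ℝ (Fin n)} {Q : ℕ} {w w₁ w₂ : ℝ → ℝ → ℝ}
  {B E₁ M κ δ : ℝ}

theorem closes2 (hQ : 0 < Q) (hw : HW Q w w₁ w₂ B) (h : Trap2 l k₀ m P s e₀ Q w E₁ M κ δ)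
    {e C₀ ω R : ℝ} {a ua ψ : ℝ → ℝ} (he : e ≤ δ) (ha : Lev w Q E₁ ω R a ua ψ) (hC₀ : 0 ≤ C₀)
    (hC : ∀ z : EuclideanSpace ℝ (Fin n), |⟪zv k₀, z⟫| ≤ 1 →
      ∃ k : Fin n → ℤ, dot k₀ k = 0 ∧ ‖z - zv k‖ ≤ C₀) {j₀ : ℕ} (hj : 0 < j₀) :
    Closes2 l k₀ Q e (M * ω * (j₀ + 1) + κ * C₀ ^ 2 / (2 * (j₀ * Q)) +
      δ * (2 + R * ‖e₀‖) * ((j₀ + 1) * Q) + δ * (1 + C₀)) a fun t => M * ψ t := by
  intro t t' x y hx hy
  have hQ0 : (0 : ℝ) < Q := by exact_mod_cast hQ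
  have hj0 : (0 : ℝ) < j₀ := by exact_mod_cast hj
  have hkP : ⟪zv k₀, zv P⟫ = (0 : ℝ) := by rw [inner_zv, h.kP]; simp
  have hR : 0 ≤ R := (abs_nonneg _).trans (ha.bd 0)
  have hδ := h.δ_nonneg
  -- the end time
  obtain ⟨i, hi1, hi2⟩ : ∃ i : ℤ, t + j₀ * Q ≤ t' + i * Q ∧ t' + i * Q ≤ t + (j₀ + 1) * Q := by
    refine ⟨⌈(t + j₀ * Q - t') / Q⌉, ?_, ?_⟩
    · have h1 := Int.le_ceil ((t + j₀ * Q - t') / Q)
      rw [div_le_iff₀ hQ0] at h1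
      linarith
    · have h1 := (Int.ceil_lt_add_one ((t + j₀ * Q - t') / Q)).le
      have h2 := mul_le_mul_of_nonneg_right h1 hQ0.le
      rw [add_mul, div_mul_cancel₀ _ hQ0.ne'] at h2
      linarith
  obtain ⟨b, hb⟩ : ∃ b : ℝ, b = t' + i * Q := ⟨_, rfl⟩
  rw [← hb] at hi1 hi2
  obtain ⟨T, hT⟩ : ∃ T : ℝ, T = b - t := ⟨_, rfl⟩
  have hT1 : j₀ * Q ≤ T := by rw [hT]; linarith
  have hT2 : T ≤ (j₀ + 1) * Q := by rw [hT]; linarith
  have hjQ : (0 : ℝ) < j₀ * Q := mul_pos hj0 hQ0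
  have hT0 : 0 < T := lt_of_lt_of_le hjQ hT1
  have htb : t ≤ b := by rw [hT] at hT0; linarith
  have hab : a b = a t' := by
    have hp : Function.Periodic a (Q : ℝ) := ha.per
    rw [hb]
    exact hp.int_mul i t'
  have hψb : ψ b = ψ t' := by
    have hp : Function.Periodic ψ (Q : ℝ) := ha.ψper
    rw [hb]
    exact hp.int_mul i t'
  -- the integer vector
  obtain ⟨q, hq⟩ : ∃ q : EuclideanSpace ℝ (Fin n), q = s • zv P := ⟨_, rfl⟩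
  have hkq : ⟪zv k₀, q⟫ = (0 : ℝ) := by rw [hq, inner_smul_right, hkP, mul_zero]
  obtain ⟨z, hz⟩ : ∃ z : EuclideanSpace ℝ (Fin n), z = x - y + T • q + (a t' - a t) • e₀ := ⟨_, rfl⟩
  have hz0 : ⟪zv k₀, z⟫ = (0 : ℝ) := by
    rw [hz, inner_add_right, inner_add_right, inner_sub_right, inner_smul_right, inner_smul_right,
      hkq, h.ke, hx, hy]
    ring
  obtain ⟨k, hk, hkC⟩ := hC z (by rw [hz0]; norm_num)
  obtain ⟨w₀, hw₀⟩ : ∃ w₀ : EuclideanSpace ℝ (Fin n), w₀ = T⁻¹ • (zv k - z) := ⟨_, rfl⟩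
  have hkw : ⟪zv k₀, w₀⟫ = (0 : ℝ) := by
    rw [hw₀, inner_smul_right, inner_sub_right, hz0, inner_zv, hk]
    simp
  have hTw : T • w₀ = zv k - z := by
    rw [hw₀, smul_smul, mul_inv_cancel₀ hT0.ne', one_smul]
  have hnw : ‖w₀‖ * T ≤ C₀ := by
    have h1 : ‖w₀‖ * T = ‖z - zv k‖ := by
      rw [← norm_neg (z - zv k), neg_sub, ← hTw, norm_smul, Real.norm_of_nonneg hT0.le, mul_comm]
    rw [h1]
    exact hkC
  -- the curve
  have hadm := Adm.lift (ha.cur t b htb) x (q + w₀) e₀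
  have hX0 : x + (t - t) • (q + w₀) + (a t - a t) • e₀ = x := by
    rw [sub_self, sub_self, zero_smul, zero_smul, add_zero, add_zero]
  have hXb : x + (b - t) • (q + w₀) + (a b - a t) • e₀ = y + zv k := by
    rw [← hT, smul_add, hTw, hz, hab]
    abel
  refine ⟨b, i, k, _, hb, htb, hk, ⟨_, _, hadm, hX0, hXb, rfl⟩, ?_⟩
  -- the action
  have hin1 : ∀ τ, ⟪zv k₀, x + (τ - t) • (q + w₀) + (a τ - a t) • e₀⟫ = a τ := by
    intro τ
    rw [inner_add_right, inner_add_right, inner_smul_right, inner_smul_right, inner_add_right,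
      hkq, hkw, h.ke, hx]
    ring
  have hin2 : ∀ τ, ⟪zv k₀, (q + w₀) + ua τ • e₀⟫ = ua τ := by
    intro τ
    rw [inner_add_right, inner_add_right, inner_smul_right, hkq, hkw, h.ke]
    ring
  have hhi := h.hi t b _ _ hadm
  simp only [hin1, hin2] at hhi
  rw [← hq] at hhi
  have hv2 : ∀ τ, (q + w₀) + ua τ • e₀ - q = w₀ + ua τ • e₀ := by
    intro τ
    abel
  simp only [hv2, add_sub_cancel_right] at hhi
  have hint : IntervalIntegrable (fun τ => l (x + (τ - t) • (q + w₀) + (a τ - a t) • e₀)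
      ((q + w₀) + ua τ • e₀) τ) volume t b :=
    Adm.integrable2 hadm (g := fun p => l p.1 p.2.1 p.2.2) h.hl.cont
  have hact : ∫ τ in t..b, (l (x + (τ - t) • (q + w₀) + (a τ - a t) • e₀)
      ((q + w₀) + ua τ • e₀) τ + e) = (∫ τ in t..b, l (x + (τ - t) • (q + w₀) + (a τ - a t) • e₀)
      ((q + w₀) + ua τ • e₀) τ) + e * T := by
    rw [intervalIntegral.integral_add hint intervalIntegrable_const,
      intervalIntegral.integral_const, ← hT, smul_eq_mul, mul_comm T e]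
  rw [hact]
  -- the terms
  obtain ⟨ωa, hω0, hω1, hcost⟩ := ha.cost
  have hc := hcost t b htb
  rw [hc, hψb, ← hT] at hhi
  have hω : 0 ≤ ω := hω0.trans hω1
  have e1 : ωa / Q * T ≤ ω * (j₀ + 1) := by
    calc ωa / Q * T ≤ ω / Q * ((j₀ + 1) * Q) :=
          mul_le_mul (div_le_div_of_nonneg_right hω1 hQ0.le) hT2 hT0.le (by positivity)
      _ = ω * (j₀ + 1) := by field_simp
  have e2 : M * (ψ t' - ψ t + ωa / Q * T) ≤ M * (ψ t' - ψ t) + M * ω * (j₀ + 1) := by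
    have h1 := mul_le_mul_of_nonneg_left e1 h.M_pos.le
    have h2 : M * (ψ t' - ψ t + ωa / Q * T) = M * (ψ t' - ψ t) + M * (ωa / Q * T) := by ring
    rw [h2]
    linarith
  have e3 : κ / 2 * (∫ τ in t..b, ‖w₀‖ ^ 2) ≤ κ * C₀ ^ 2 / (2 * (j₀ * Q)) := by
    rw [intervalIntegral.integral_const, ← hT, smul_eq_mul]
    have h1 : ‖w₀‖ ≤ C₀ / T := by rw [le_div_iff₀ hT0]; exact hnw
    have h2 : ‖w₀‖ * (‖w₀‖ * T) ≤ C₀ / T * C₀ := by
      refine mul_le_mul h1 hnw ?_ (div_nonneg hC₀ hT0.le)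
      exact mul_nonneg (norm_nonneg _) hT0.le
    have h3 : C₀ / T * C₀ ≤ C₀ ^ 2 / (j₀ * Q) := by
      have h4 : C₀ / T * C₀ = C₀ ^ 2 / T := by ring
      rw [h4]
      exact div_le_div_of_nonneg_left (sq_nonneg _) hjQ hT1
    have h5 := mul_le_mul_of_nonneg_left (h2.trans h3) (half_pos h.κ_pos).le
    calc κ / 2 * (T * ‖w₀‖ ^ 2) = κ / 2 * (‖w₀‖ * (‖w₀‖ * T)) := by ring
      _ ≤ κ / 2 * (C₀ ^ 2 / (j₀ * Q)) := h5
      _ = κ * C₀ ^ 2 / (2 * (j₀ * Q)) := by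
        field_simp
  have e4 : (∫ τ in t..b, ‖w₀ + ua τ • e₀‖) ≤ C₀ + R * ‖e₀‖ * ((j₀ + 1) * Q) := by
    have h1 : ∀ τ ∈ Set.uIoc t b, ‖(‖w₀ + ua τ • e₀‖ : ℝ)‖ ≤ ‖w₀‖ + R * ‖e₀‖ := by
      intro τ _
      rw [norm_norm]
      refine (norm_add_le _ _).trans ?_
      rw [norm_smul, Real.norm_eq_abs]
      have := mul_le_mul_of_nonneg_right (ha.bdu τ) (norm_nonneg e₀)
      linarith
    have h2 := intervalIntegral.norm_integral_le_of_norm_le_const h1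
    have h3 := (le_abs_self _).trans ((Real.norm_eq_abs _).symm.le.trans h2)
    rw [← hT, abs_of_pos hT0, add_mul] at h3
    refine h3.trans (add_le_add hnw ?_)
    exact mul_le_mul_of_nonneg_left hT2 (mul_nonneg hR (norm_nonneg _))
  have e5 : δ * (∫ τ in t..b, ‖w₀ + ua τ • e₀‖) ≤ δ * (C₀ + R * ‖e₀‖ * ((j₀ + 1) * Q)) :=
    mul_le_mul_of_nonneg_left e4 hδ
  have e6 : δ * T ≤ δ * ((j₀ + 1) * Q) := mul_le_mul_of_nonneg_left hT2 hδ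
  have e7 : e * T ≤ δ * ((j₀ + 1) * Q) :=
    (mul_le_mul_of_nonneg_right he hT0.le).trans e6
  have e8 : δ * (C₀ + R * ‖e₀‖ * ((j₀ + 1) * Q)) = δ * C₀ + δ * (R * ‖e₀‖) * ((j₀ + 1) * Q) := by
    ring
  have e9 : δ * (2 + R * ‖e₀‖) * ((j₀ + 1) * Q) = 2 * (δ * ((j₀ + 1) * Q)) +
      δ * (R * ‖e₀‖) * ((j₀ + 1) * Q) := by ring
  have e10 : M * (ψ t' - ψ t) = M * ψ t' - M * ψ t := by ring
  show _ ≤ _ + M * ψ t' - M * ψ t
  rw [e9]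
  rw [e8] at e5
  rw [e10] at e2
  linarith

end Pool.Agent.H33.AN
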