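import Pool.Agent.H33.AN.Trap
import Pool.Agent.H33.AN.P.G1
import Pool.Agent.H33.AN.P.L1
import Pool.Agent.H33.AN.P.L3a

/-!
# Module L3: closing up curves inside a moving level

Notation: `q = s • zv P`, `θ(x) = ⟪zv k₀, x⟫`. (Compare `Pool/Agent/H33/AM/P/T3.lean`.)
* `closes2`: let `θ(x) = a t`, `θ(y) = a t'`; there is an integer `i` with `b = t' + i Q ∈ [t + j₀ Q, t + (j₀ + 1) Q]`;
  `a b = a t'`. Let `z = x - y + (b - t) • q + (a t' - a t) • e₀`, `θ(z) = 0`, so there is `k` with `dot k₀ k = 0`,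
  `‖z - zv k‖ ≤ C₀`; `w₀ = (zv k - z) / (b - t)`, `⟪zv k₀, w₀⟫ = 0`. The curve
  `X τ = x + (τ - t) • (q + w₀) + (a τ - a t) • e₀` (`Adm.lift`) has `θ (X τ) = a τ` and ends in `y + zv k`; its
  velocity is `q + w₀ + ua τ • e₀`. By `Trap2.hi` its action w.r.t. `ℓ + e` is at most
  `M (ψ t' - ψ t + ω (j₀ + 1)) + κ/2 C₀²/(b - t) + δ (b - t) + δ + δ (C₀ + R ‖e₀‖ (b - t)) + e (b - t)`,
  `j₀ Q ≤ b - t ≤ (j₀ + 1) Q`.
* `rough2`: `b ∈ [t + Q, t + 2 Q]`, `z = x - y + (b - t) • q`, `w₀ = (zv k - z) / (b - t)`, the line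
  `X τ = x + (τ - t) • (q + w₀)`; `‖w₀‖ ≤ C₀ / Q`, `w` is bounded.
-/

set_option autoImplicit false

open MeasureTheory
open scoped RealInnerProductSpace

namespace Pool.Agent.H33.AN

open Pool.Agent.H33.AM

variable {n : ℕ} {l : EuclideanSpace ℝ (Fin n) → EuclideanSpace ℝ (Fin n) → ℝ → ℝ}
  {k₀ m P : Fin n → ℤ} {s : ℝ} {e₀ : EuclideanSpace ℝ (Fin n)} {Q : ℕ} {w w₁ w₂ : ℝ → ℝ → ℝ}
  {B E₁ M κ δ : ℝ}

private theorem L3b_line {t b : ℝ} (htb : t ≤ b) (x v : EuclideanSpace ℝ (Fin n)) :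
    Adm t b (fun τ => x + (τ - t) • v) fun _ => v := by
  refine ⟨htb, by fun_prop, ⟨∅, Set.countable_empty, fun τ _ => ?_⟩, measurable_const,
    ⟨‖v‖, fun _ => le_rfl⟩⟩
  simpa using (((hasDerivAt_id τ).sub_const t).smul_const v).const_add x

/-- The action of a line, all bounds. -/
private theorem L3b_cost (hw : HW Q w w₁ w₂ B) (h : Trap2 l k₀ m P s e₀ Q w E₁ M κ δ) (e : ℝ)
    {T Qr C₀ : ℝ} (hQr : (Q : ℝ) = Qr) (hQ1 : 1 ≤ Qr) (hC₀ : 0 ≤ C₀) {t b : ℝ} (hT : T = b - t)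
    (hT1 : Qr ≤ T) (hT2 : T ≤ 2 * Qr) (x v : EuclideanSpace ℝ (Fin n))
    (hv : ‖v - s • zv P‖ * T ≤ C₀) (hθ : |⟪zv k₀, v⟫| * T ≤ 1) :
    (∫ τ in t..b, (l (x + (τ - t) • v) v τ + e)) ≤
      M * (2 * Qr * (1 / 2 + B) + 2 * |E₁|) + κ / 2 * ((C₀ + ‖e₀‖) ^ 2 * (2 * Qr)) +
        δ * (2 * Qr) + δ + δ * C₀ + |e| * (2 * Qr) := by
  have hB := hw.nonneg
  have hM := h.M_pos
  have hκ := h.κ_pos
  have hδ := h.δ_nonneg
  have hTpos : 0 < T := by linarith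
  have htb : t ≤ b := by linarith
  have hadm := L3b_line htb x v
  have hint : IntervalIntegrable (fun τ => l (x + (τ - t) • v) v τ) volume t b :=
    Adm.integrable2 hadm (g := fun p => l p.1 p.2.1 p.2.2) h.hl.cont
  have hsum : (∫ τ in t..b, (l (x + (τ - t) • v) v τ + e)) =
      (∫ τ in t..b, l (x + (τ - t) • v) v τ) + e * T := by
    rw [intervalIntegral.integral_add hint intervalIntegrable_const,
      intervalIntegral.integral_const, smul_eq_mul, hT]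
    ring
  have hhi := h.hi t b _ _ hadm
  have hθ1 : |⟪zv k₀, v⟫| ≤ 1 := by
    have h1 : |⟪zv k₀, v⟫| * 1 ≤ |⟪zv k₀, v⟫| * T :=
      mul_le_mul_of_nonneg_left (by linarith) (abs_nonneg _)
    linarith
  have hv1 : ‖v - s • zv P‖ ≤ C₀ := by
    have h1 : ‖v - s • zv P‖ * 1 ≤ ‖v - s • zv P‖ * T :=
      mul_le_mul_of_nonneg_left (by linarith) (norm_nonneg _)
    linarith
  -- the one-dimensional action
  have hA1 : A1 w t b (fun τ => ⟪zv k₀, x + (τ - t) • v⟫) (fun _ => ⟪zv k₀, v⟫) ≤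
      2 * Qr * (1 / 2 + B) := by
    unfold A1
    have hb : ∀ τ, ⟪zv k₀, v⟫ ^ 2 / 2 - w ⟪zv k₀, x + (τ - t) • v⟫ τ ≤ 1 / 2 + B := by
      intro τ
      have g1 := (abs_le.1 (hw.bd ⟪zv k₀, x + (τ - t) • v⟫ τ)).1
      have g2 : ⟪zv k₀, v⟫ ^ 2 ≤ 1 := by
        rw [← sq_abs]
        nlinarith [abs_nonneg (⟪zv k₀, v⟫ : ℝ)]
      linarith
    have hwc : Continuous fun z : ℝ × ℝ => w z.1 z.2 :=
      continuous_iff_continuousAt.2 (fun z => (hw.der z.1 z.2).continuousAt)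
    have hc : Continuous fun τ : ℝ => ⟪zv k₀, v⟫ ^ 2 / 2 - w ⟪zv k₀, x + (τ - t) • v⟫ τ := by
      refine continuous_const.sub ?_
      exact hwc.comp (by fun_prop : Continuous fun τ : ℝ => ((⟪zv k₀, x + (τ - t) • v⟫, τ) : ℝ × ℝ))
    have hI : (∫ τ in t..b, (⟪zv k₀, v⟫ ^ 2 / 2 - w ⟪zv k₀, x + (τ - t) • v⟫ τ)) ≤
        ∫ _τ in t..b, (1 / 2 + B) :=
      intervalIntegral.integral_mono_on htb (hc.intervalIntegrable _ _) intervalIntegrable_const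
        (fun τ _ => hb τ)
    rw [intervalIntegral.integral_const, smul_eq_mul, ← hT] at hI
    exact hI.trans (mul_le_mul_of_nonneg_right hT2 (by positivity))
  have hc1 : c1 w Q E₁ t b (fun τ => ⟪zv k₀, x + (τ - t) • v⟫) (fun _ => ⟪zv k₀, v⟫) ≤
      2 * Qr * (1 / 2 + B) + 2 * |E₁| := by
    unfold c1
    have g1 : -(E₁ / Q * (b - t)) ≤ 2 * |E₁| := by
      rw [hQr, ← hT]
      have g2 : |E₁ / Qr * T| ≤ 2 * |E₁| := by
        rw [abs_mul, abs_div, abs_of_pos (by linarith : (0 : ℝ) < Qr), abs_of_pos hTpos,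
          div_mul_eq_mul_div, div_le_iff₀ (by linarith)]
        nlinarith [abs_nonneg E₁]
      linarith [neg_le_abs (E₁ / Qr * T)]
    linarith
  have hI1 : (∫ τ in t..b, ‖(fun _ : ℝ => v) τ - s • zv P - ⟪zv k₀, (fun _ : ℝ => v) τ⟫ • e₀‖ ^ 2)
      = ‖v - s • zv P - (⟪zv k₀, v⟫ : ℝ) • e₀‖ ^ 2 * T := by
    rw [intervalIntegral.integral_const, smul_eq_mul, hT]
    ring
  have hI2 : (∫ τ in t..b, ‖(fun _ : ℝ => v) τ - s • zv P‖) = ‖v - s • zv P‖ * T := by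
    rw [intervalIntegral.integral_const, smul_eq_mul, hT]
    ring
  have hn : ‖v - s • zv P - (⟪zv k₀, v⟫ : ℝ) • e₀‖ ≤ C₀ + ‖e₀‖ := by
    refine (norm_sub_le _ _).trans (add_le_add hv1 ?_)
    rw [norm_smul, Real.norm_eq_abs]
    nlinarith [norm_nonneg e₀]
  have hn2 : ‖v - s • zv P - (⟪zv k₀, v⟫ : ℝ) • e₀‖ ^ 2 * T ≤ (C₀ + ‖e₀‖) ^ 2 * (2 * Qr) := by
    refine mul_le_mul ?_ hT2 hTpos.le (by positivity)
    exact pow_le_pow_left₀ (norm_nonneg _) hn 2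
  rw [hI1, hI2, ← hT] at hhi
  have k1 := mul_le_mul_of_nonneg_left hc1 hM.le
  have k2 := mul_le_mul_of_nonneg_left hn2 (half_pos hκ).le
  have k3 := mul_le_mul_of_nonneg_left hT2 hδ
  have k4 := mul_le_mul_of_nonneg_left hv hδ
  have k5 : e * T ≤ |e| * (2 * Qr) := by
    calc e * T ≤ |e| * T := mul_le_mul_of_nonneg_right (le_abs_self e) hTpos.le
      _ ≤ |e| * (2 * Qr) := mul_le_mul_of_nonneg_left hT2 (abs_nonneg e)
  rw [hsum]
  linarith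

theorem rough2 (hQ : 0 < Q) (hw : HW Q w w₁ w₂ B) (h : Trap2 l k₀ m P s e₀ Q w E₁ M κ δ) (e : ℝ)
    {C₀ : ℝ} (hC₀ : 0 ≤ C₀)
    (hC : ∀ z : EuclideanSpace ℝ (Fin n), |⟪zv k₀, z⟫| ≤ 1 →
      ∃ k : Fin n → ℤ, dot k₀ k = 0 ∧ ‖z - zv k‖ ≤ C₀) :
    ∃ C₁, Rough2 l k₀ Q e C₁ := by
  refine ⟨M * (2 * Q * (1 / 2 + B) + 2 * |E₁|) + κ / 2 * ((C₀ + ‖e₀‖) ^ 2 * (2 * Q)) +
        δ * (2 * Q) + δ + δ * C₀ + |e| * (2 * Q), ?_⟩
  intro t t' x y hxy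
  have hQ1 : (1 : ℝ) ≤ Q := by exact_mod_cast hQ
  have hQ0 : (0 : ℝ) < Q := by linarith
  have hkP : ⟪zv k₀, zv P⟫ = (0 : ℝ) := by rw [inner_zv, h.kP]; simp
  -- the end time
  set i : ℤ := ⌈(t + Q - t') / Q⌉ with hi
  have hi1 : t + Q ≤ t' + i * Q := by
    have := Int.le_ceil ((t + Q - t') / (Q : ℝ))
    rw [div_le_iff₀ hQ0] at this
    linarith
  have hi2 : t' + i * Q ≤ t + 2 * Q := by
    have := (Int.ceil_lt_add_one ((t + Q - t') / (Q : ℝ))).le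
    have g1 : (i : ℝ) * Q ≤ ((t + Q - t') / (Q : ℝ) + 1) * Q :=
      mul_le_mul_of_nonneg_right this hQ0.le
    have g2 : ((t + Q - t') / (Q : ℝ) + 1) * Q = t + Q - t' + Q := by field_simp
    linarith
  set b : ℝ := t' + i * Q with hb
  set T : ℝ := b - t with hT
  have hT1 : (Q : ℝ) ≤ T := by rw [hT]; linarith
  have hT2 : T ≤ 2 * Q := by rw [hT]; linarith
  have hTpos : 0 < T := by linarith
  set z : EuclideanSpace ℝ (Fin n) := x - y + T • (s • zv P) with hz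
  have hz0 : ⟪zv k₀, z⟫ = ⟪zv k₀, x⟫ - ⟪zv k₀, y⟫ := by
    rw [hz, inner_add_right, inner_sub_right, inner_smul_right, inner_smul_right, hkP]
    ring
  have hz1 : |⟪zv k₀, z⟫| ≤ 1 := by
    rw [hz0, abs_sub_comm]; exact hxy
  obtain ⟨k, hk, hkC⟩ := hC z hz1
  set v : EuclideanSpace ℝ (Fin n) := s • zv P + T⁻¹ • (zv k - z) with hv
  have hvq : v - s • zv P = T⁻¹ • (zv k - z) := by rw [hv]; abel
  have hnv : ‖v - s • zv P‖ * T ≤ C₀ := by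
    rw [hvq, norm_smul, Real.norm_of_nonneg (inv_pos.2 hTpos).le, norm_sub_rev]
    have : T⁻¹ * ‖z - zv k‖ * T = ‖z - zv k‖ := by field_simp
    rw [this]; exact hkC
  have hθv : ⟪zv k₀, v⟫ = -(T⁻¹ * ⟪zv k₀, z⟫) := by
    rw [hv, inner_add_right, inner_smul_right, inner_smul_right, hkP, inner_sub_right,
      inner_zv, hk]
    simp
  have hθ : |⟪zv k₀, v⟫| * T ≤ 1 := by
    rw [hθv, abs_neg, abs_mul, abs_of_pos (inv_pos.2 hTpos)]
    have : T⁻¹ * |⟪zv k₀, z⟫| * T = |⟪zv k₀, z⟫| := by field_simp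
    rw [this]; exact hz1
  have hend : x + (b - t) • v = y + zv k := by
    rw [← hT, hv, smul_add, smul_smul T T⁻¹, mul_inv_cancel₀ hTpos.ne', one_smul, hz]
    abel
  have hadm := L3b_line (by linarith : t ≤ b) x v
  refine ⟨b, i, k, _, hb, by linarith, hk, ⟨_, _, hadm, by simp, hend, rfl⟩, ?_⟩
  exact L3b_cost hw h e rfl hQ1 hC₀ hT hT1 hT2 x v hnv hθ

end Pool.Agent.H33.AN
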