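import Pool.Agent.H33.AN.Trap
import Pool.Agent.H33.AN.P.L1

/-!
# Module L4: curves with both ends in the same moving level

(Compare `Pool/Agent/H33/AM/P/T4.lean`.)
* `same2`: close the curve up (`Closes2` from `(y, t')` to `(x, t)`, `Conn2.trans`) and use `Crit2`.
* `add_int2`: translate by `zv (j • m)` (`Conn2.add_zv`, `dot k₀ m = 1`).
* `rest2`: `A` = infimum of `r + ψc t - ψa t'` over all the curves of cost `r` from a point of level `c t` at
  time `t` to a point of level `a t' + 1` at time `t'`; `B` = infimum of `r + ψa t - ψc t'` over all the curves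
  of cost `r` from a point of level `a t + 1` at time `t` to a point of level `c t'` at time `t'`. Both families
  are not empty by `Rough2` (`t = t' = 0`; the point `τ • zv m` has the level `τ`). If `x → y` costs `r` (up,
  times `t → t'`) and `x' → y'` costs `r'` (down, times `s → s'`), connect `(y, t') → (x' + zv k, s + i Q)` by
  `Closes2` (`add_int2` for the level `a + 1`), translate the down curve (`Conn2.add_zv`, `Conn2.shift`) and
  connect `(y' + zv k, s' + i Q) → (x + zv k', t + i' Q)` by `Closes2`: the closed curve costs `≥ 0` by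
  `Crit2`, so `(r + ψc t - ψa t') + (r' + ψa s - ψc s') ≥ -2 κ`.
-/

set_option autoImplicit false

open MeasureTheory
open scoped RealInnerProductSpace

namespace Pool.Agent.H33.AN

open Pool.Agent.H33.AM

variable {n : ℕ} {l : EuclideanSpace ℝ (Fin n) → EuclideanSpace ℝ (Fin n) → ℝ → ℝ}
  {k₀ m : Fin n → ℤ} {Q : ℕ}

theorem Closes2.same2 (hQ : 0 < Q) (hl : HL2 Q l) {e κ : ℝ} {lvl ψ : ℝ → ℝ}
    (hcrit : Crit2 l k₀ Q e) (h : Closes2 l k₀ Q e κ lvl ψ) {t t' : ℝ}
    {x y : EuclideanSpace ℝ (Fin n)} {r : ℝ} (hx : ⟪zv k₀, x⟫ = lvl t) (hy : ⟪zv k₀, y⟫ = lvl t')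
    (hxy : Conn2 l e t t' x y r) : ψ t' - ψ t - κ ≤ r := by
  obtain ⟨b, i, k, r', hb, hle, hk, hc, hr'⟩ := h t' t y x hy hx
  have h1 := hxy.trans hl hc
  have h2 := hxy.le
  have hQ' : (0 : ℝ) < Q := by exact_mod_cast hQ
  have hi : 0 ≤ i := by
    by_contra hneg
    have h3 : (i : ℝ) ≤ -1 := by
      have : i ≤ -1 := by omega
      exact_mod_cast this
    have h4 : (i : ℝ) * Q ≤ -1 * Q := mul_le_mul_of_nonneg_right h3 hQ'.le
    rw [hb] at hle
    linarith
  obtain ⟨j, rfl⟩ := Int.eq_ofNat_of_zero_le hi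
  rw [Int.cast_natCast] at hb
  rw [hb] at h1
  have h5 := hcrit j t x k _ hk h1
  linarith

theorem Closes2.add_int2 (hl : HL2 Q l) (hkm : dot k₀ m = 1) {e κ : ℝ} {lvl ψ : ℝ → ℝ}
    (h : Closes2 l k₀ Q e κ lvl ψ) (j : ℤ) : Closes2 l k₀ Q e κ (fun t => lvl t + j) ψ := by
  intro t t' x y hx hy
  have hlev : ⟪zv k₀, zv (j • m)⟫ = (j : ℝ) := by
    rw [inner_zv, dot_zsmul, hkm, mul_one]
  have hx' : ⟪zv k₀, x⟫ = lvl t + j := hx
  have hy' : ⟪zv k₀, y⟫ = lvl t' + j := hy
  obtain ⟨b, i, k, r, hb, hle, hk, hc, hr⟩ := h t t' (x - zv (j • m)) (y - zv (j • m))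
    (by rw [inner_sub_right, hx', hlev]; ring) (by rw [inner_sub_right, hy', hlev]; ring)
  refine ⟨b, i, k, r, hb, hle, hk, ?_, hr⟩
  have h1 := hc.add_zv hl (j • m)
  rw [sub_add_cancel, show y - zv (j • m) + zv k + zv (j • m) = y + zv k by abel] at h1
  exact h1

end Pool.Agent.H33.AN
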