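import Pool.Agent.H33.AN.Trap
import Pool.Agent.H33.AN.P.L1
import Pool.Agent.H33.AN.P.L4a

/-!
# Module L4: curves with both ends in the same moving level

(Compare `Pool/Agent/H33/AM/P/T4.lean`.)
* `same2`: close the curve up (`Closes2` from `(y, t')` to `(x, t)`, `Conn2.trans`) and use `Crit2`.
* `add_int2`: translate by `zv (j • m)` (`Conn2.add_zv`, `dot k₀ m = 1`).
* `rest2`: `A` = infimum of `r + ψc t - ψa t'` over all the curves of cost `r` from a point of level `c t` at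
  time `t` to a point of level `a t' + 1` at time `t'`; `B` = infimum of `r + ψa t - ψc t'` over all the curves
  of cost `r` from a point of level `a t + 1` at time `t` to a point of level `c t'` at time `t'`. Both families
  are not empty by `Rough2` (`t = t' = 0`; the point `τ • zv m` has the level `τ`). If `x → y` costs `r` (up,
  times `t → t'`) and `x' → y'` costs `r'` (down, times `s → s'`), connect `(y, t') → (x' + zv k, s + i Q)` by
  `Closes2` (`add_int2` for the level `a + 1`), translate the down curve (`Conn2.add_zv`, `Conn2.shift`) and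
  connect `(y' + zv k, s' + i Q) → (x + zv k', t + i' Q)` by `Closes2`: the closed curve costs `≥ 0` by
  `Crit2`, so `(r + ψc t - ψa t') + (r' + ψa s - ψc s') ≥ -2 κ`.
-/

set_option autoImplicit false

open MeasureTheory
open scoped RealInnerProductSpace

namespace Pool.Agent.H33.AN

open Pool.Agent.H33.AM

variable {n : ℕ} {l : EuclideanSpace ℝ (Fin n) → EuclideanSpace ℝ (Fin n) → ℝ → ℝ}
  {k₀ m : Fin n → ℤ} {Q : ℕ}

private theorem L4b_per {f : ℝ → ℝ} {Q : ℕ} (h : ∀ t, f (t + Q) = f t) (i : ℤ) (t : ℝ) :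
    f (t + i * Q) = f t :=
  (show Function.Periodic f (Q : ℝ) from h).int_mul i t

theorem rest2 (hQ : 0 < Q) (hl : HL2 Q l) (hkm : dot k₀ m = 1) {e κ C₁ : ℝ} {a c ψa ψc : ℝ → ℝ}
    (hcrit : Crit2 l k₀ Q e) (hr : Rough2 l k₀ Q e C₁) (ha : Closes2 l k₀ Q e κ a ψa)
    (hc : Closes2 l k₀ Q e κ c ψc) (hac : ∀ t, a t ≤ c t) (hca : ∀ t, c t ≤ a t + 1)
    (ha' : ∀ t, a (t + Q) = a t) (hc' : ∀ t, c (t + Q) = c t) (hψa : ∀ t, ψa (t + Q) = ψa t)
    (hψc : ∀ t, ψc (t + Q) = ψc t) :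
    ∃ A B : ℝ, -(2 * κ) ≤ A + B ∧
      (∀ (t t' : ℝ) (x y : EuclideanSpace ℝ (Fin n)) (r : ℝ), ⟪zv k₀, x⟫ = c t →
        ⟪zv k₀, y⟫ = a t' + 1 → Conn2 l e t t' x y r → A + ψa t' - ψc t ≤ r) ∧
      ∀ (t t' : ℝ) (x y : EuclideanSpace ℝ (Fin n)) (r : ℝ), ⟪zv k₀, x⟫ = a t + 1 →
        ⟪zv k₀, y⟫ = c t' → Conn2 l e t t' x y r → B + ψc t' - ψa t ≤ r := by
  have ha1 : Closes2 l k₀ Q e κ (fun t => a t + 1) ψa := by
    have := ha.add_int2 hl hkm 1
    simpa using this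
  have hlev0 : ∀ t : ℝ, ⟪zv k₀, t • zv m⟫ = t := by
    intro t
    rw [inner_smul_right, inner_zv, hkm]; simp
  have hlevk : ∀ (z : EuclideanSpace ℝ (Fin n)) (k : Fin n → ℤ), dot k₀ k = 0 →
      ⟪zv k₀, z + zv k⟫ = ⟪zv k₀, z⟫ := by
    intro z k hk
    rw [inner_add_right, inner_zv, hk]; simp
  -- the two families
  set SA : Set ℝ := {q | ∃ (t t' : ℝ) (x y : EuclideanSpace ℝ (Fin n)) (r : ℝ),
    ⟪zv k₀, x⟫ = c t ∧ ⟪zv k₀, y⟫ = a t' + 1 ∧ Conn2 l e t t' x y r ∧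
      q = r + ψc t - ψa t'} with hSA
  set SB : Set ℝ := {q | ∃ (t t' : ℝ) (x y : EuclideanSpace ℝ (Fin n)) (r : ℝ),
    ⟪zv k₀, x⟫ = a t + 1 ∧ ⟪zv k₀, y⟫ = c t' ∧ Conn2 l e t t' x y r ∧
      q = r + ψa t - ψc t'} with hSB
  have hneA : SA.Nonempty := by
    obtain ⟨b, i, k, r, hb, _, hk, hcn, _⟩ := hr 0 0 (c 0 • zv m) ((a 0 + 1) • zv m) (by
      have h1 := hac 0
      have h2 := hca 0
      rw [hlev0, hlev0, abs_le]; constructor <;> linarith)
    refine ⟨_, 0, b, _, _, r, hlev0 _, ?_, hcn, rfl⟩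
    rw [hlevk _ _ hk, hlev0, hb, L4b_per ha' i 0]
  have hneB : SB.Nonempty := by
    obtain ⟨b, i, k, r, hb, _, hk, hcn, _⟩ := hr 0 0 ((a 0 + 1) • zv m) (c 0 • zv m) (by
      have h1 := hac 0
      have h2 := hca 0
      rw [hlev0, hlev0, abs_le]; constructor <;> linarith)
    refine ⟨_, 0, b, _, _, r, hlev0 _, ?_, hcn, rfl⟩
    rw [hlevk _ _ hk, hlev0, hb, L4b_per hc' i 0]
  have key : ∀ q ∈ SA, ∀ q' ∈ SB, -(2 * κ) ≤ q + q' := by
    rintro q ⟨t, t', x, y, r, hx, hy, hxy, rfl⟩ q' ⟨s, s', x', y', r', hx', hy', hxy', rfl⟩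
    obtain ⟨b₁, i, k, r₁, hb₁, hle₁, hk, h1, hr1⟩ := ha1 t' s y x' hy hx'
    obtain ⟨b₂, i₂, k', r₂, hb₂, hle₂, hk', h2, hr2⟩ := hc (s' + i * Q) t (y' + zv k) x
      (by rw [hlevk _ _ hk, hy', L4b_per hc' i s']) hx
    rw [L4b_per hψc i s'] at hr2
    have h3 := (hxy'.add_zv hl k).shift hl i
    rw [hb₁] at h1
    have h4 := ((hxy.trans hl h1).trans hl h3).trans hl h2
    have h5 := h4.le
    rw [hb₂] at h4 h5
    have hQ' : (0 : ℝ) < Q := by exact_mod_cast hQ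
    have h6 : (0 : ℝ) ≤ (i₂ : ℝ) := by
      by_contra hneg
      push Not at hneg
      have := mul_neg_of_neg_of_pos hneg hQ'
      linarith
    obtain ⟨j, hj⟩ := Int.eq_ofNat_of_zero_le (show (0 : ℤ) ≤ i₂ by exact_mod_cast h6)
    have h7 : (i₂ : ℝ) = (j : ℝ) := by rw [hj]; simp
    rw [h7] at h4
    have h8 := hcrit j t x k' _ hk' h4
    linarith
  obtain ⟨ra, hra⟩ := hneA
  obtain ⟨rb, hrb⟩ := hneB
  have hbA : BddBelow SA := ⟨-(2 * κ) - rb, fun r hr => by linarith [key r hr rb hrb]⟩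
  have hbB : BddBelow SB := ⟨-(2 * κ) - ra, fun r hr => by linarith [key ra hra r hr]⟩
  refine ⟨sInf SA, sInf SB, ?_, ?_, ?_⟩
  · have h1 : ∀ r' ∈ SB, -(2 * κ) - r' ≤ sInf SA := fun r' hr' =>
      le_csInf ⟨ra, hra⟩ fun r hr => by linarith [key r hr r' hr']
    have h2 : -(2 * κ) - sInf SA ≤ sInf SB :=
      le_csInf ⟨rb, hrb⟩ fun r' hr' => by linarith [h1 r' hr']
    linarith
  · intro t t' x y r hx hy hxy
    have := csInf_le hbA ⟨t, t', x, y, r, hx, hy, hxy, rfl⟩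
    linarith
  · intro t t' x y r hx hy hxy
    have := csInf_le hbB ⟨t, t', x, y, r, hx, hy, hxy, rfl⟩
    linarith

end Pool.Agent.H33.AN
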