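import Pool.Agent.H33.AN.Trap
import Pool.Agent.H33.AN.P.L1
import Pool.Agent.H33.AN.P.L4

/-!
# Module L5: the cost of crossing the gap

(Compare `Pool/Agent/H33/AM/P/T5a.lean`, `T5b.lean`.) `e₁ = ` the lower bound of `-e`, `ν = (δ + e₁) Q / ω'`.
Let a curve go from a point of level `a t` at time `t` to a point of level `c t'` at time `t'`. By `moving_cross`
there are `t ≤ σ₁ ≤ σ₂ ≤ t'` such that `θ = ⟪zv k₀, ·⟫` is `a` at `σ₁`, `c` at `σ₂`, and in the strip in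
between. The pieces on `[t, σ₁]`, `[σ₂, t']` cost at least `M ψa σ₁ - M ψa t - κ₃`, `M ψc t' - M ψc σ₂ - κ₃`
(`Closes2.same2`). The middle piece, `τ = σ₂ - σ₁`, costs by `Trap2.lo` (with `δ' ≤ δ` from there) at least
`M (1 - δ') c1(θ) - δ τ - δ + e τ ≥ M (1 - δ') c1(θ) - (δ + e₁) τ - δ`, and `τ ≤ (c1(θ) + C₂) Q / ω'` (`hS`), so
it costs at least `(M (1 - δ') - ν) c1(θ) - ν C₂ - δ`, where `M (1 - δ') - ν ≥ M (1 - δ) - ν ≥ 0` (`hpos`),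
and `c1(θ) ≥ U + ψc σ₂ - ψa σ₁`, where `|U + ψc σ₂ - ψa σ₁| ≤ C₃` (so `0 ≤ C₃`): at least
`M (U + ψc σ₂ - ψa σ₁) - (M δ' + ν) C₃ - ν C₂ - δ`.
Downwards: `moving_cross'`, the same.
-/

set_option autoImplicit false

open MeasureTheory
open scoped RealInnerProductSpace

namespace Pool.Agent.H33.AN

open Pool.Agent.H33.AM

variable {n : ℕ} {l : EuclideanSpace ℝ (Fin n) → EuclideanSpace ℝ (Fin n) → ℝ → ℝ}
  {k₀ m P : Fin n → ℤ} {s : ℝ} {e₀ : EuclideanSpace ℝ (Fin n)} {Q : ℕ} {w : ℝ → ℝ → ℝ}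
  {E₁ M κ δ : ℝ}

private theorem L5_num {M δ δ' Qr ω' e₁ C₂ C₃ K c τ I e : ℝ} (hM : 0 < M) (hδ : 0 ≤ δ)
    (hδ0 : 0 ≤ δ') (hδ1 : δ' ≤ δ) (hC3 : 0 ≤ C₃)
    (hQ : 0 < Qr) (hω : 0 < ω') (he₁ : 0 ≤ e₁) (he : -e₁ ≤ e) (hτ : 0 ≤ τ)
    (hlo : M * (1 - δ') * c - δ * τ - δ ≤ I) (hK : K ≤ c) (hKC : K ≤ C₃)
    (hS : ω' / Qr * τ - C₂ ≤ c) (hpos : 0 ≤ M * (1 - δ) - (δ + e₁) * Qr / ω') :
    M * K - ((M * δ + (δ + e₁) * Qr / ω') * C₃ + (δ + e₁) * Qr / ω' * C₂ + δ) ≤ I + e * τ := by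
  have h1 : τ ≤ (c + C₂) * (Qr / ω') := by
    have h2 : ω' / Qr * τ ≤ c + C₂ := by linarith
    have h3 : τ = (ω' / Qr * τ) * (Qr / ω') := by field_simp
    rw [h3]
    exact mul_le_mul_of_nonneg_right h2 (by positivity)
  have h4 : (δ + e₁) * τ ≤ (δ + e₁) * ((c + C₂) * (Qr / ω')) :=
    mul_le_mul_of_nonneg_left h1 (by positivity)
  have h5 : -(e₁ * τ) ≤ e * τ := by
    have := mul_le_mul_of_nonneg_right he hτ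
    linarith
  have hd : M * δ' ≤ M * δ := mul_le_mul_of_nonneg_left hδ1 hM.le
  have hpos' : 0 ≤ M * (1 - δ') - (δ + e₁) * Qr / ω' := by linarith
  have h6 : (M * (1 - δ') - (δ + e₁) * Qr / ω') * K ≤ (M * (1 - δ') - (δ + e₁) * Qr / ω') * c :=
    mul_le_mul_of_nonneg_left hK hpos'
  have h7 : (M * δ' + (δ + e₁) * Qr / ω') * K ≤ (M * δ' + (δ + e₁) * Qr / ω') * C₃ :=
    mul_le_mul_of_nonneg_left hKC (by positivity)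
  have h9 : M * δ' * C₃ ≤ M * δ * C₃ := mul_le_mul_of_nonneg_right hd hC3
  have h8 : (δ + e₁) * ((c + C₂) * (Qr / ω')) = (δ + e₁) * Qr / ω' * c + (δ + e₁) * Qr / ω' * C₂ := by
    ring
  rw [h8] at h4
  linarith

private theorem L5_mid (hQ : 0 < Q) (h : Trap2 l k₀ m P s e₀ Q w E₁ M κ δ) {e e₁ C₂ C₃ ω' K : ℝ}
    (he₁ : 0 ≤ e₁) (he : -e₁ ≤ e) (hω' : 0 < ω') (hC3 : 0 ≤ C₃) (hKC : K ≤ C₃)
    (hpos : 0 ≤ M * (1 - δ) - (δ + e₁) * Q / ω') {σ₁ σ₂ : ℝ}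
    {ξ u : ℝ → EuclideanSpace ℝ (Fin n)} (hadm : Adm σ₁ σ₂ ξ u)
    (hK : K ≤ c1 w Q E₁ σ₁ σ₂ (fun t => ⟪zv k₀, ξ t⟫) fun t => ⟪zv k₀, u t⟫)
    (hS : ω' / Q * (σ₂ - σ₁) - C₂ ≤
      c1 w Q E₁ σ₁ σ₂ (fun t => ⟪zv k₀, ξ t⟫) fun t => ⟪zv k₀, u t⟫) :
    M * K - ((M * δ + (δ + e₁) * Q / ω') * C₃ + (δ + e₁) * Q / ω' * C₂ + δ) ≤
      ∫ t in σ₁..σ₂, (l (ξ t) (u t) t + e) := by
  have hint : IntervalIntegrable (fun t => l (ξ t) (u t) t) volume σ₁ σ₂ :=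
    Adm.integrable2 hadm (g := fun p => l p.1 p.2.1 p.2.2) h.hl.cont
  have h1 : ∫ t in σ₁..σ₂, (l (ξ t) (u t) t + e) =
      (∫ t in σ₁..σ₂, l (ξ t) (u t) t) + e * (σ₂ - σ₁) := by
    rw [intervalIntegral.integral_add hint intervalIntegrable_const,
      intervalIntegral.integral_const, smul_eq_mul]
    ring
  rw [h1]
  have hQ' : (0 : ℝ) < Q := by exact_mod_cast hQ
  obtain ⟨δ', hδ0, hδ1, hlo⟩ := h.lo
  exact L5_num h.M_pos h.δ_nonneg hδ0 hδ1 hC3 hQ' hω' he₁ he (by linarith [hadm.le])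
    (hlo σ₁ σ₂ ξ u hadm) hK hKC hS hpos

private theorem L5_split (h : Trap2 l k₀ m P s e₀ Q w E₁ M κ δ) {e t t' σ₁ σ₂ : ℝ}
    {ξ u : ℝ → EuclideanSpace ℝ (Fin n)} (hadm : Adm t t' ξ u) (h1 : t ≤ σ₁) (h2 : σ₁ ≤ σ₂)
    (h3 : σ₂ ≤ t') :
    Conn2 l e t σ₁ (ξ t) (ξ σ₁) (∫ τ in t..σ₁, (l (ξ τ) (u τ) τ + e)) ∧
      Conn2 l e σ₂ t' (ξ σ₂) (ξ t') (∫ τ in σ₂..t', (l (ξ τ) (u τ) τ + e)) ∧
      Adm σ₁ σ₂ ξ u ∧
      (∫ τ in t..t', (l (ξ τ) (u τ) τ + e)) = (∫ τ in t..σ₁, (l (ξ τ) (u τ) τ + e)) +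
        (∫ τ in σ₁..σ₂, (l (ξ τ) (u τ) τ + e)) + ∫ τ in σ₂..t', (l (ξ τ) (u τ) τ + e) := by
  have a1 : Adm t σ₁ ξ u := hadm.sub le_rfl h1 (h2.trans h3)
  have a2 : Adm σ₁ σ₂ ξ u := hadm.sub h1 h2 h3
  have a3 : Adm σ₂ t' ξ u := hadm.sub (h1.trans h2) h3 le_rfl
  have hg : Continuous fun p : EuclideanSpace ℝ (Fin n) × EuclideanSpace ℝ (Fin n) × ℝ =>
      l p.1 p.2.1 p.2.2 + e := h.hl.cont.add continuous_const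
  have i1 : IntervalIntegrable (fun τ => l (ξ τ) (u τ) τ + e) volume t σ₁ := Adm.integrable2 a1 hg
  have i2 : IntervalIntegrable (fun τ => l (ξ τ) (u τ) τ + e) volume σ₁ σ₂ := Adm.integrable2 a2 hg
  have i3 : IntervalIntegrable (fun τ => l (ξ τ) (u τ) τ + e) volume σ₂ t' := Adm.integrable2 a3 hg
  refine ⟨⟨ξ, u, a1, rfl, rfl, rfl⟩, ⟨ξ, u, a3, rfl, rfl, rfl⟩, a2, ?_⟩
  rw [intervalIntegral.integral_add_adjacent_intervals i1 i2,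
    intervalIntegral.integral_add_adjacent_intervals (i1.trans i2) i3]

theorem gap2 (hQ : 0 < Q) (h : Trap2 l k₀ m P s e₀ Q w E₁ M κ δ) {e e₁ κ₃ ω R U D C₂ C₃ ω' : ℝ}
    {a ua ψa c uc ψc : ℝ → ℝ} (hcrit : Crit2 l k₀ Q e) (he₁ : 0 ≤ e₁) (he : -e₁ ≤ e)
    (ha : Lev w Q E₁ ω R a ua ψa) (hc : Lev w Q E₁ ω R c uc ψc) (hac : ∀ t, a t < c t)
    (hca : Closes2 l k₀ Q e κ₃ a fun t => M * ψa t)
    (hcc : Closes2 l k₀ Q e κ₃ c fun t => M * ψc t) (hω' : 0 < ω') (hC₂ : 0 ≤ C₂)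
    (hU3 : |U| + 2 * R ≤ C₃) (hD3 : |D| + 2 * R ≤ C₃)
    (hU : ∀ (s t : ℝ) (ξ u : ℝ → ℝ), Cur s t ξ u → ξ s = a s → ξ t = c t →
      U + ψc t - ψa s ≤ c1 w Q E₁ s t ξ u)
    (hD : ∀ (s t : ℝ) (ξ u : ℝ → ℝ), Cur s t ξ u → ξ s = c s → ξ t = a t →
      D + ψa t - ψc s ≤ c1 w Q E₁ s t ξ u)
    (hS : ∀ (s t : ℝ) (ξ u : ℝ → ℝ), Cur s t ξ u →
      (∀ τ ∈ Set.Icc s t, a τ ≤ ξ τ ∧ ξ τ ≤ c τ) →
      ω' / Q * (t - s) - C₂ ≤ c1 w Q E₁ s t ξ u)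
    (hpos : 0 ≤ M * (1 - δ) - (δ + e₁) * Q / ω') :
    (∀ (t t' : ℝ) (x y : EuclideanSpace ℝ (Fin n)) (r : ℝ), ⟪zv k₀, x⟫ = a t →
      ⟪zv k₀, y⟫ = c t' → Conn2 l e t t' x y r →
      M * U - ((M * δ + (δ + e₁) * Q / ω') * C₃ + (δ + e₁) * Q / ω' * C₂ + δ) - 2 * κ₃ +
        M * ψc t' - M * ψa t ≤ r) ∧
    ∀ (t t' : ℝ) (x y : EuclideanSpace ℝ (Fin n)) (r : ℝ), ⟪zv k₀, x⟫ = c t →
      ⟪zv k₀, y⟫ = a t' → Conn2 l e t t' x y r →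
      M * D - ((M * δ + (δ + e₁) * Q / ω') * C₃ + (δ + e₁) * Q / ω' * C₂ + δ) - 2 * κ₃ +
        M * ψa t' - M * ψc t ≤ r := by
  have hC3 : 0 ≤ C₃ := by
    have g1 : 0 ≤ R := (abs_nonneg _).trans (ha.bd 0)
    have g2 := abs_nonneg U
    linarith
  constructor
  · intro t t' x y r hx hy hconn
    obtain ⟨ξ, u, hadm, h0, h1, hr⟩ := hconn
    have hcont : ContinuousOn (fun t => ⟪zv k₀, ξ t⟫) (Set.Icc t t') :=
      continuousOn_const.inner hadm.cont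
    obtain ⟨σ₁, σ₂, s1, s2, s3, s4, s5, s6⟩ := moving_cross hadm.le hcont ha.contA hc.contA hac
      (by rw [h0]; exact hx.le) (by rw [h1]; exact hy.ge)
    obtain ⟨c1', c3', a2, hsum⟩ := L5_split h (e := e) hadm s1 s2 s3
    have hcur := Adm.toCur a2 k₀
    have hK := hU σ₁ σ₂ _ _ hcur s4 s5
    have hSS := hS σ₁ σ₂ _ _ hcur s6
    have hKC : U + ψc σ₂ - ψa σ₁ ≤ C₃ := by
      have g1 := abs_le.1 (hc.ψbd σ₂)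
      have g2 := abs_le.1 (ha.ψbd σ₁)
      have g3 := le_abs_self U
      linarith
    have hm := L5_mid hQ h he₁ he hω' hC3 hKC hpos a2 hK hSS
    have b1 := Closes2.same2 hQ h.hl hcrit hca (by rw [h0]; exact hx) s4 c1'
    have b3 := Closes2.same2 hQ h.hl hcrit hcc s5 (by rw [h1]; exact hy) c3'
    rw [← hr, hsum]
    have e1 : M * (U + ψc σ₂ - ψa σ₁) = M * U + M * ψc σ₂ - M * ψa σ₁ := by ring
    rw [e1] at hm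
    linarith
  · intro t t' x y r hx hy hconn
    obtain ⟨ξ, u, hadm, h0, h1, hr⟩ := hconn
    have hcont : ContinuousOn (fun t => ⟪zv k₀, ξ t⟫) (Set.Icc t t') :=
      continuousOn_const.inner hadm.cont
    obtain ⟨σ₁, σ₂, s1, s2, s3, s4, s5, s6⟩ := moving_cross' hadm.le hcont ha.contA hc.contA hac
      (by rw [h0]; exact hx.ge) (by rw [h1]; exact hy.le)
    obtain ⟨c1', c3', a2, hsum⟩ := L5_split h (e := e) hadm s1 s2 s3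
    have hcur := Adm.toCur a2 k₀
    have hK := hD σ₁ σ₂ _ _ hcur s4 s5
    have hSS := hS σ₁ σ₂ _ _ hcur s6
    have hKC : D + ψa σ₂ - ψc σ₁ ≤ C₃ := by
      have g1 := abs_le.1 (ha.ψbd σ₂)
      have g2 := abs_le.1 (hc.ψbd σ₁)
      have g3 := le_abs_self D
      linarith
    have hm := L5_mid hQ h he₁ he hω' hC3 hKC hpos a2 hK hSS
    have b1 := Closes2.same2 hQ h.hl hcrit hcc (by rw [h0]; exact hx) s4 c1'
    have b3 := Closes2.same2 hQ h.hl hcrit hca s5 (by rw [h1]; exact hy) c3'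
    rw [← hr, hsum]
    have e1 : M * (D + ψa σ₂ - ψc σ₁) = M * D + M * ψa σ₂ - M * ψc σ₁ := by ring
    rw [e1] at hm
    linarith

end Pool.Agent.H33.AN
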