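import Pool.Agent.H33.AN.Trap
import Pool.Agent.H33.AN.P.L1

/-!
# Module L6: curves between the levels `a + i`, `a + j`; the abstract trapping lemma

(Compare `Pool/Agent/H33/AM/P/T6a.lean`, `T6b.lean`: the same proofs with moving levels and gauges.)
* `levels2`, `i ≤ j`: induction on `j - i`. `j = i`: `hsame` (translated by `zv (-(i • m))`, see
  `Conn2.add_zv`, `dot k₀ m = 1`). `j > i`: by `Conn2.cross` (twice) the curve is a concatenation of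
  curves: level `a + i` → level `c + i` (cost `≥ b + ψc - ψa`), → level `a + i + 1` (cost `≥ A + ψa - ψc`),
  → level `a + j`; the gauges telescope. `j ≤ i`: symmetric.
* `trapped_of_levels2`: choose integers `i`, `j` with `|⟪zv k₀, x⟫ - (a 0 + i)| ≤ 1`,
  `|⟪zv k₀, y⟫ - (a 0 + j)| ≤ 1` (floor). By `Rough2` connect `((a 0 + i) • zv m, 0)` to `(x + zv k, t + i' Q)`,
  follow the curve (`Conn2.add_zv`, `Conn2.shift`) to `(y + zv k, t' + i' Q)`, connect this by `Rough2` to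
  `((a 0 + j) • zv m + zv k', i'' Q)`; `a (i'' Q) = a 0`, `ψ (i'' Q) = ψ 0`. So
  `r + 2 C₁ ≥ (j - i) fu - κ ≥ (j - i) η - κ` if `i ≤ j`, and `≥ (i - j) fd - κ ≥ (j - i) η - κ` if `j ≤ i`. So
  `C = κ + 2 C₁ + 2 (|fu| + |fd|)` works for every `η ∈ [-fd, fu]`.
-/

set_option autoImplicit false

open MeasureTheory
open scoped RealInnerProductSpace

namespace Pool.Agent.H33.AN

open Pool.Agent.H33.AM

variable {n : ℕ} {l : EuclideanSpace ℝ (Fin n) → EuclideanSpace ℝ (Fin n) → ℝ → ℝ}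
  {k₀ m : Fin n → ℤ} {Q : ℕ}

private theorem L6a_tr (hkm : dot k₀ m = 1) (x : EuclideanSpace ℝ (Fin n)) (i : ℤ) :
    ⟪zv k₀, x + zv (-(i • m))⟫ = ⟪zv k₀, x⟫ - i := by
  rw [inner_add_right, inner_zv, dot_neg, dot_zsmul, hkm]
  push_cast
  ring

theorem levels2 (hl : HL2 Q l) (hkm : dot k₀ m = 1) {e κ b b' A B : ℝ} {a c ψa ψc : ℝ → ℝ}
    (hacont : Continuous a) (hccont : Continuous c) (hac : ∀ t, a t ≤ c t)
    (hca : ∀ t, c t ≤ a t + 1)
    (hsame : ∀ (t t' : ℝ) (x y : EuclideanSpace ℝ (Fin n)) (r : ℝ), ⟪zv k₀, x⟫ = a t →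
      ⟪zv k₀, y⟫ = a t' → Conn2 l e t t' x y r → ψa t' - ψa t - κ ≤ r)
    (hgapU : ∀ (t t' : ℝ) (x y : EuclideanSpace ℝ (Fin n)) (r : ℝ), ⟪zv k₀, x⟫ = a t →
      ⟪zv k₀, y⟫ = c t' → Conn2 l e t t' x y r → b + ψc t' - ψa t ≤ r)
    (hgapD : ∀ (t t' : ℝ) (x y : EuclideanSpace ℝ (Fin n)) (r : ℝ), ⟪zv k₀, x⟫ = c t →
      ⟪zv k₀, y⟫ = a t' → Conn2 l e t t' x y r → b' + ψa t' - ψc t ≤ r)
    (hup : ∀ (t t' : ℝ) (x y : EuclideanSpace ℝ (Fin n)) (r : ℝ), ⟪zv k₀, x⟫ = c t →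
      ⟪zv k₀, y⟫ = a t' + 1 → Conn2 l e t t' x y r → A + ψa t' - ψc t ≤ r)
    (hdown : ∀ (t t' : ℝ) (x y : EuclideanSpace ℝ (Fin n)) (r : ℝ), ⟪zv k₀, x⟫ = a t + 1 →
      ⟪zv k₀, y⟫ = c t' → Conn2 l e t t' x y r → B + ψc t' - ψa t ≤ r)
    (i j : ℤ) {t t' : ℝ} {x y : EuclideanSpace ℝ (Fin n)} {r : ℝ} (hx : ⟪zv k₀, x⟫ = a t + i)
    (hy : ⟪zv k₀, y⟫ = a t' + j) (h : Conn2 l e t t' x y r) :
    (i ≤ j → ((j : ℝ) - i) * (b + A) + ψa t' - ψa t - κ ≤ r) ∧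
      (j ≤ i → ((i : ℝ) - j) * (b' + B) + ψa t' - ψa t - κ ≤ r) := by
  have hsame' : ∀ (i : ℤ) (t t' : ℝ) (x y : EuclideanSpace ℝ (Fin n)) (r : ℝ),
      ⟪zv k₀, x⟫ = a t + i → ⟪zv k₀, y⟫ = a t' + i → Conn2 l e t t' x y r →
      ψa t' - ψa t - κ ≤ r := by
    intro i t t' x y r hx hy h
    refine hsame t t' _ _ r ?_ ?_ (h.add_zv hl (-(i • m)))
    · rw [L6a_tr hkm, hx]; ring
    · rw [L6a_tr hkm, hy]; ring
  have hgapU' : ∀ (i : ℤ) (t t' : ℝ) (x y : EuclideanSpace ℝ (Fin n)) (r : ℝ),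
      ⟪zv k₀, x⟫ = a t + i → ⟪zv k₀, y⟫ = c t' + i → Conn2 l e t t' x y r →
      b + ψc t' - ψa t ≤ r := by
    intro i t t' x y r hx hy h
    refine hgapU t t' _ _ r ?_ ?_ (h.add_zv hl (-(i • m)))
    · rw [L6a_tr hkm, hx]; ring
    · rw [L6a_tr hkm, hy]; ring
  have hgapD' : ∀ (i : ℤ) (t t' : ℝ) (x y : EuclideanSpace ℝ (Fin n)) (r : ℝ),
      ⟪zv k₀, x⟫ = c t + i → ⟪zv k₀, y⟫ = a t' + i → Conn2 l e t t' x y r →
      b' + ψa t' - ψc t ≤ r := by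
    intro i t t' x y r hx hy h
    refine hgapD t t' _ _ r ?_ ?_ (h.add_zv hl (-(i • m)))
    · rw [L6a_tr hkm, hx]; ring
    · rw [L6a_tr hkm, hy]; ring
  have hup' : ∀ (i : ℤ) (t t' : ℝ) (x y : EuclideanSpace ℝ (Fin n)) (r : ℝ),
      ⟪zv k₀, x⟫ = c t + i → ⟪zv k₀, y⟫ = a t' + 1 + i → Conn2 l e t t' x y r →
      A + ψa t' - ψc t ≤ r := by
    intro i t t' x y r hx hy h
    refine hup t t' _ _ r ?_ ?_ (h.add_zv hl (-(i • m)))
    · rw [L6a_tr hkm, hx]; ring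
    · rw [L6a_tr hkm, hy]; ring
  have hdown' : ∀ (i : ℤ) (t t' : ℝ) (x y : EuclideanSpace ℝ (Fin n)) (r : ℝ),
      ⟪zv k₀, x⟫ = a t + 1 + i → ⟪zv k₀, y⟫ = c t' + i → Conn2 l e t t' x y r →
      B + ψc t' - ψa t ≤ r := by
    intro i t t' x y r hx hy h
    refine hdown t t' _ _ r ?_ ?_ (h.add_zv hl (-(i • m)))
    · rw [L6a_tr hkm, hx]; ring
    · rw [L6a_tr hkm, hy]; ring
  have up : ∀ (k : ℕ) (i : ℤ) (t t' : ℝ) (x y : EuclideanSpace ℝ (Fin n)) (r : ℝ),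
      ⟪zv k₀, x⟫ = a t + i → ⟪zv k₀, y⟫ = a t' + i + k → Conn2 l e t t' x y r →
      (k : ℝ) * (b + A) + ψa t' - ψa t - κ ≤ r := by
    intro k
    induction k with
    | zero =>
      intro i t t' x y r hx hy h
      have h1 := hsame' i t t' x y r hx (by rw [hy]; simp) h
      simpa using h1
    | succ k ih =>
      intro i t t' x y r hx hy h
      have hk0 : (0 : ℝ) ≤ (k : ℝ) := Nat.cast_nonneg k
      push_cast at hy
      obtain ⟨τ, z, r₁, r₂, hz, hr, h1, h2⟩ := Conn2.cross hl (k₀ := k₀)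
        (f := fun s => c s + i) h (hccont.add continuous_const)
        (Or.inl ⟨by rw [hx]; linarith [hac t], by rw [hy]; linarith [hca t']⟩)
      obtain ⟨τ', z', r₃, r₄, hz', hr', h3, h4⟩ := Conn2.cross hl (k₀ := k₀)
        (f := fun s => a s + 1 + i) h2 ((hacont.add continuous_const).add continuous_const)
        (Or.inl ⟨by rw [hz]; linarith [hca τ], by rw [hy]; linarith⟩)
      have e1 := hgapU' i t τ x z r₁ hx hz h1
      have e2 := hup' i τ τ' z z' r₃ hz hz' h3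
      have e3 := ih (i + 1) τ' t' z' y r₄ (by rw [hz']; push_cast; ring)
        (by rw [hy]; push_cast; ring) h4
      push_cast
      rw [hr, hr']
      linarith
  have down : ∀ (k : ℕ) (i : ℤ) (t t' : ℝ) (x y : EuclideanSpace ℝ (Fin n)) (r : ℝ),
      ⟪zv k₀, x⟫ = a t + i + k → ⟪zv k₀, y⟫ = a t' + i → Conn2 l e t t' x y r →
      (k : ℝ) * (b' + B) + ψa t' - ψa t - κ ≤ r := by
    intro k
    induction k with
    | zero =>
      intro i t t' x y r hx hy h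
      have h1 := hsame' i t t' x y r (by rw [hx]; simp) hy h
      simpa using h1
    | succ k ih =>
      intro i t t' x y r hx hy h
      have hk0 : (0 : ℝ) ≤ (k : ℝ) := Nat.cast_nonneg k
      push_cast at hx
      have hik : ((i + (k : ℤ) : ℤ) : ℝ) = (i : ℝ) + k := by push_cast; ring
      obtain ⟨τ, z, r₁, r₂, hz, hr, h1, h2⟩ := Conn2.cross hl (k₀ := k₀)
        (f := fun s => c s + ((i + (k : ℤ) : ℤ) : ℝ)) h (hccont.add continuous_const)
        (Or.inr ⟨by rw [hx, hik]; linarith [hca t], by rw [hy, hik]; linarith [hac t']⟩)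
      obtain ⟨τ', z', r₃, r₄, hz', hr', h3, h4⟩ := Conn2.cross hl (k₀ := k₀)
        (f := fun s => a s + ((i + (k : ℤ) : ℤ) : ℝ)) h2 (hacont.add continuous_const)
        (Or.inr ⟨by rw [hz]; linarith [hac τ], by rw [hy, hik]; linarith⟩)
      have e1 := hdown' (i + k) t τ x z r₁ (by rw [hx, hik]; ring) hz h1
      have e2 := hgapD' (i + k) τ τ' z z' r₃ hz hz' h3
      have e3 := ih i τ' t' z' y r₄ (by rw [hz', hik]; ring) hy h4
      push_cast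
      rw [hr, hr']
      linarith
  constructor
  · intro hij
    obtain ⟨k, hk⟩ := Int.eq_ofNat_of_zero_le (sub_nonneg.mpr hij)
    have hk' : (j : ℝ) - i = k := by exact_mod_cast hk
    rw [hk']
    exact up k i t t' x y r hx (by rw [hy, ← hk']; ring) h
  · intro hij
    obtain ⟨k, hk⟩ := Int.eq_ofNat_of_zero_le (sub_nonneg.mpr hij)
    have hk' : (i : ℝ) - j = k := by exact_mod_cast hk
    rw [hk']
    exact down k j t t' x y r (by rw [hx, ← hk']; ring) hy h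

end Pool.Agent.H33.AN
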