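import Pool.Agent.H33.AN.Trap
import Pool.Agent.H33.AN.P.L1
import Pool.Agent.H33.AN.P.L6a

/-!
# Module L6: curves between the levels `a + i`, `a + j`; the abstract trapping lemma

(Compare `Pool/Agent/H33/AM/P/T6a.lean`, `T6b.lean`: the same proofs with moving levels and gauges.)
* `levels2`, `i ≤ j`: induction on `j - i`. `j = i`: `hsame` (translated by `zv (-(i • m))`, see
  `Conn2.add_zv`, `dot k₀ m = 1`). `j > i`: by `Conn2.cross` (twice) the curve is a concatenation of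
  curves: level `a + i` → level `c + i` (cost `≥ b + ψc - ψa`), → level `a + i + 1` (cost `≥ A + ψa - ψc`),
  → level `a + j`; the gauges telescope. `j ≤ i`: symmetric.
* `trapped_of_levels2`: choose integers `i`, `j` with `|⟪zv k₀, x⟫ - (a 0 + i)| ≤ 1`,
  `|⟪zv k₀, y⟫ - (a 0 + j)| ≤ 1` (floor). By `Rough2` connect `((a 0 + i) • zv m, 0)` to `(x + zv k, t + i' Q)`,
  follow the curve (`Conn2.add_zv`, `Conn2.shift`) to `(y + zv k, t' + i' Q)`, connect this by `Rough2` to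
  `((a 0 + j) • zv m + zv k', i'' Q)`; `a (i'' Q) = a 0`, `ψ (i'' Q) = ψ 0`. So
  `r + 2 C₁ ≥ (j - i) fu - κ ≥ (j - i) η - κ` if `i ≤ j`, and `≥ (i - j) fd - κ ≥ (j - i) η - κ` if `j ≤ i`. So
  `C = κ + 2 C₁ + 2 (|fu| + |fd|)` works for every `η ∈ [-fd, fu]`.
-/

set_option autoImplicit false

open MeasureTheory
open scoped RealInnerProductSpace

namespace Pool.Agent.H33.AN

open Pool.Agent.H33.AM

variable {n : ℕ} {l : EuclideanSpace ℝ (Fin n) → EuclideanSpace ℝ (Fin n) → ℝ → ℝ}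
  {k₀ m : Fin n → ℤ} {Q : ℕ}

theorem trapped_of_levels2 (hQ : 0 < Q) (hl : HL2 Q l) (hkm : dot k₀ m = 1) {e κ C₁ fu fd : ℝ}
    {a ψ : ℝ → ℝ} (ha : ∀ t, a (t + Q) = a t) (hψ : ∀ t, ψ (t + Q) = ψ t)
    (hr : Rough2 l k₀ Q e C₁)
    (h : ∀ (i j : ℤ) (t t' : ℝ) (x y : EuclideanSpace ℝ (Fin n)) (r : ℝ), ⟪zv k₀, x⟫ = a t + i →
      ⟪zv k₀, y⟫ = a t' + j → Conn2 l e t t' x y r →
      (i ≤ j → ((j : ℝ) - i) * fu + ψ t' - ψ t - κ ≤ r) ∧
        (j ≤ i → ((i : ℝ) - j) * fd + ψ t' - ψ t - κ ≤ r)) :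
    ∃ C : ℝ, ∀ η ∈ Set.Icc (-fd) fu, ∀ (t t' : ℝ) (x y : EuclideanSpace ℝ (Fin n)) (r : ℝ),
      Conn2 l e t t' x y r → η * (⟪zv k₀, y⟫ - ⟪zv k₀, x⟫) - C ≤ r := by
  have hpa : Function.Periodic a (Q : ℝ) := ha
  have hpψ : Function.Periodic ψ (Q : ℝ) := hψ
  refine ⟨κ + 2 * C₁ + |fu| + |fd|, ?_⟩
  intro η hη t t' x y r hc
  have hlev : ∀ t : ℝ, ⟪zv k₀, t • zv m⟫ = t := by
    intro t
    rw [inner_smul_right, inner_zv, hkm]
    simp
  obtain ⟨i, hi⟩ : ∃ i : ℤ, i = ⌊⟪zv k₀, x⟫ - a 0⌋ := ⟨_, rfl⟩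
  obtain ⟨j, hj⟩ : ∃ j : ℤ, j = ⌊⟪zv k₀, y⟫ - a 0⌋ := ⟨_, rfl⟩
  have hi1 : (i : ℝ) ≤ ⟪zv k₀, x⟫ - a 0 := by rw [hi]; exact Int.floor_le _
  have hi2 : ⟪zv k₀, x⟫ - a 0 < (i : ℝ) + 1 := by rw [hi]; exact Int.lt_floor_add_one _
  have hj1 : (j : ℝ) ≤ ⟪zv k₀, y⟫ - a 0 := by rw [hj]; exact Int.floor_le _
  have hj2 : ⟪zv k₀, y⟫ - a 0 < (j : ℝ) + 1 := by rw [hj]; exact Int.lt_floor_add_one _
  -- the curve from the level `a 0 + i` to `x`
  obtain ⟨b₁, i₁, k, r₁, hb₁, -, hk, hc₁, hr₁⟩ := hr 0 t ((a 0 + i) • zv m) x (by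
    rw [hlev, abs_le]
    constructor <;> linarith)
  have hyk : ⟪zv k₀, y + zv k⟫ = ⟪zv k₀, y⟫ := by
    rw [inner_add_right, inner_zv, hk]
    simp
  -- the given curve, translated
  have hc' : Conn2 l e (t + i₁ * Q) (t' + i₁ * Q) (x + zv k) (y + zv k) r :=
    (hc.add_zv hl k).shift hl i₁
  -- the curve from `y` to the level `a 0 + j`
  obtain ⟨b₂, i₂, k', r₂, hb₂, -, hk', hc₂, hr₂⟩ := hr (t' + i₁ * Q) 0 (y + zv k)
    ((a 0 + j) • zv m) (by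
      rw [hlev, hyk, abs_le]
      constructor <;> linarith)
  rw [hb₁] at hc₁
  have hconn := (hc₁.trans hl hc').trans hl hc₂
  have hab₂ : a b₂ = a 0 := by
    rw [hb₂, zero_add]
    exact hpa.int_mul_eq i₂
  have hψb₂ : ψ b₂ = ψ 0 := by
    rw [hb₂, zero_add]
    exact hpψ.int_mul_eq i₂
  have hx' : ⟪zv k₀, (a 0 + i) • zv m⟫ = a 0 + i := hlev _
  have hy' : ⟪zv k₀, (a 0 + j) • zv m + zv k'⟫ = a b₂ + j := by
    rw [inner_add_right, hlev, inner_zv, hk', hab₂]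
    simp
  obtain ⟨h1, h2⟩ := h i j _ _ _ _ _ hx' hy' hconn
  rw [hψb₂] at h1 h2
  have hηabs : |η| ≤ |fu| + |fd| := by
    rw [abs_le]
    constructor
    · linarith [hη.1, le_abs_self fd, abs_nonneg fu]
    · linarith [hη.2, le_abs_self fu, abs_nonneg fd]
  have hdiff : η * (⟪zv k₀, y⟫ - ⟪zv k₀, x⟫) ≤ η * ((j : ℝ) - i) + |η| := by
    have h3 : η * ((⟪zv k₀, y⟫ - ⟪zv k₀, x⟫) - ((j : ℝ) - i)) ≤ |η| := by
      refine (le_abs_self _).trans ?_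
      rw [abs_mul]
      have h4 : |(⟪zv k₀, y⟫ - ⟪zv k₀, x⟫) - ((j : ℝ) - i)| ≤ 1 := by
        rw [abs_le]
        constructor <;> linarith
      exact mul_le_of_le_one_right (abs_nonneg _) h4
    linarith
  have hkey : η * ((j : ℝ) - i) ≤ r + 2 * C₁ + κ := by
    rcases le_total i j with hij | hij
    · have h3 := h1 hij
      have h4 : (i : ℝ) ≤ j := by exact_mod_cast hij
      have h5 : η * ((j : ℝ) - i) ≤ fu * ((j : ℝ) - i) :=
        mul_le_mul_of_nonneg_right hη.2 (by linarith)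
      linarith
    · have h3 := h2 hij
      have h4 : (j : ℝ) ≤ i := by exact_mod_cast hij
      have h5 : (-η) * ((i : ℝ) - j) ≤ fd * ((i : ℝ) - j) :=
        mul_le_mul_of_nonneg_right (by linarith [hη.1]) (by linarith)
      linarith
  linarith

end Pool.Agent.H33.AN
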