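import Pool.Agent.H33.AN.Trap
import Pool.Agent.H33.AN.P.K2
import Pool.Agent.H33.AN.P.K3
import Pool.Agent.H33.AN.P.L2
import Pool.Agent.H33.AN.P.L3
import Pool.Agent.H33.AN.P.L4
import Pool.Agent.H33.AN.P.L5
import Pool.Agent.H33.AN.P.L6

/-!
# Module L7: the trapping lemma

(Compare `Pool/Agent/H33/AM/P/T7a.lean`, `T7b.lean`.) `C₀` from `lattice`, `R₀` from `crit2_exists`. Choose `j₀ > 0`
with `6 κ C₀²/(2 j₀ Q) < M μ / 4`, then `0 < ω < μ` with `2 M ω + 6 M ω (j₀ + 1) < M μ / 4`; `levels_exist` gives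
`R`, `ω'`, `a`, `c`, …; `gap_pair` gives `U + D ≥ μ - 2 ω`; `strip_rate` gives `C₂`; `C₃ = |U| + |D| + 2 R`. Then
choose `0 < δ₀ ≤ 1/2` so small that, with `e₁ = δ₀ (1 + R₀)`, `ν = (δ₀ + e₁) Q / ω'`,
`sm = (M δ₀ + ν) C₃ + ν C₂ + δ₀` (all linear in `δ₀`): `ν ≤ M / 2` and
`2 sm + 6 (δ₀ (2 + R ‖e₀‖) (j₀ + 1) Q + δ₀ (1 + C₀)) < M μ / 4`.
Let `Trap2 … δ₀`: `e` from `crit2_exists`, `κ₃` from `closes2`, `Rough2` from `rough2`, `b = M U - sm - 2 κ₃`,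
`b' = M D - sm - 2 κ₃` (`gap2`), `A`, `B` from `rest2` (gauges `M ψa`, `M ψc`), `levels2`,
`trapped_of_levels2` with `fu = b + A`, `fd = b' + B`:
`fu + fd ≥ M (μ - 2 ω) - 2 sm - 6 κ₃ > 0`.
-/

set_option autoImplicit false

open MeasureTheory
open scoped RealInnerProductSpace

namespace Pool.Agent.H33.AN

open Pool.Agent.H33.AM

variable {n : ℕ} {Q : ℕ} {B E₁ μ : ℝ} {w w₁ w₂ : ℝ → ℝ → ℝ} {Bc : ℝ → ℝ}

theorem trap2_main (hw : HW Q w w₁ w₂ B) (hb : Bar w Q E₁ μ Bc) {k₀ m : Fin n → ℤ}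
    (hkm : dot k₀ m = 1) {e₀ : EuclideanSpace ℝ (Fin n)} (he₀ : ⟪zv k₀, e₀⟫ = 1) {M κ : ℝ}
    (hM : 0 < M) (hκ : 0 < κ) :
    ∃ δ₀ : ℝ, 0 < δ₀ ∧ δ₀ ≤ 1 / 2 ∧
      ∀ (l : EuclideanSpace ℝ (Fin n) → EuclideanSpace ℝ (Fin n) → ℝ → ℝ) (P : Fin n → ℤ) (s : ℝ),
        Trap2 l k₀ m P s e₀ Q w E₁ M κ δ₀ → Trapped2 l k₀ Q := by
  obtain ⟨C₀, hC₀, hC⟩ := lattice hkm
  obtain ⟨R₀, hR₀, hcr⟩ := crit2_exists hw hb e₀
  have hμ := hb.μ_pos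
  have hQn := hb.Q_pos
  have hQ : (0 : ℝ) < Q := by exact_mod_cast hQn
  have hMμ : 0 < M * μ := mul_pos hM hμ
  -- the number of periods
  obtain ⟨j₀, hj₀, hj1⟩ : ∃ j₀ : ℕ, 0 < j₀ ∧ 6 * (κ * C₀ ^ 2 / (2 * (j₀ * Q))) < M * μ / 4 := by
    obtain ⟨j, hj⟩ := exists_nat_gt (12 * (κ * C₀ ^ 2) / (M * μ * Q))
    have hjp : (0 : ℝ) < (j : ℝ) + 1 := by positivity
    refine ⟨j + 1, Nat.succ_pos _, ?_⟩
    have h1 : 12 * (κ * C₀ ^ 2) < j * (M * μ * Q) := by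
      rwa [div_lt_iff₀ (by positivity)] at hj
    have h2 : 6 * (κ * C₀ ^ 2 / (2 * (((j + 1 : ℕ) : ℝ) * Q))) =
        6 * (κ * C₀ ^ 2) / (2 * (((j + 1 : ℕ) : ℝ) * Q)) := by ring
    rw [h2]
    push_cast
    rw [div_lt_iff₀ (by positivity)]
    have h3 : 0 < M * μ * Q := by positivity
    nlinarith
  have hj0r : (0 : ℝ) ≤ (j₀ : ℝ) := by positivity
  -- the accuracy of the levels
  set ω : ℝ := μ / (9 + 24 * ((j₀ : ℝ) + 1)) with hω_def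
  have hden : (0 : ℝ) < 9 + 24 * ((j₀ : ℝ) + 1) := by positivity
  have hω : 0 < ω := div_pos hμ hden
  have hωden : ω * (9 + 24 * ((j₀ : ℝ) + 1)) = μ := by
    rw [hω_def]; field_simp
  have hωμ : ω < μ := by
    have h1 : 0 ≤ ω * (j₀ : ℝ) := mul_nonneg hω.le hj0r
    nlinarith
  have hω1 : 2 * (M * ω) + 6 * (M * ω * ((j₀ : ℝ) + 1)) < M * μ / 4 := by
    have h1 : M * (ω * (9 + 24 * ((j₀ : ℝ) + 1))) = M * μ := by rw [hωden]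
    have h2 : 0 < M * ω := mul_pos hM hω
    nlinarith
  obtain ⟨R, ω', a, ua, ψa, c, uc, ψc, hω', ha, hc, haB, hBc, hca, hF⟩ :=
    levels_exist hw hb hω hωμ
  obtain ⟨U, D, hUD, hU, hD⟩ := gap_pair hw hb ha hc haB hBc
  obtain ⟨C₂, hC₂, hS⟩ := strip_rate hw hQn ha hc hω' hF
  have hR : 0 ≤ R := (abs_nonneg _).trans (ha.bd 0)
  set C₃ : ℝ := |U| + |D| + 2 * R with hC₃
  set K₁ : ℝ := (1 + (1 + R₀)) * Q / ω' with hK₁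
  set K₂ : ℝ := (M + K₁) * C₃ + K₁ * C₂ + 1 with hK₂
  set K₃ : ℝ := (2 + R * ‖e₀‖) * (((j₀ : ℝ) + 1) * Q) + (1 + C₀) with hK₃
  obtain ⟨δ₀, hδ1, hδ2, hδ3, hδ⟩ : ∃ δ : ℝ, δ < 1 / 2 ∧ δ * K₁ < M / 2 ∧
      δ * (2 * K₂ + 6 * K₃) < M * μ / 4 ∧ 0 < δ := by
    have h0 : Filter.Tendsto (fun δ : ℝ => δ) (nhds 0) (nhds 0) := Filter.tendsto_id
    have h1 : Filter.Tendsto (fun δ : ℝ => δ * K₁) (nhds 0) (nhds 0) := by
      have : Continuous fun δ : ℝ => δ * K₁ := by fun_prop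
      simpa using this.tendsto 0
    have h2 : Filter.Tendsto (fun δ : ℝ => δ * (2 * K₂ + 6 * K₃)) (nhds 0) (nhds 0) := by
      have : Continuous fun δ : ℝ => δ * (2 * K₂ + 6 * K₃) := by fun_prop
      simpa using this.tendsto 0
    have h5 : ∀ᶠ δ in nhdsWithin (0 : ℝ) (Set.Ioi 0), δ < 1 / 2 ∧ δ * K₁ < M / 2 ∧
        δ * (2 * K₂ + 6 * K₃) < M * μ / 4 ∧ 0 < δ := by
      have h6 := h0.eventually (gt_mem_nhds (show (0 : ℝ) < 1 / 2 by norm_num))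
      have h7 := h1.eventually (gt_mem_nhds (show (0 : ℝ) < M / 2 by positivity))
      have h8 := h2.eventually (gt_mem_nhds (show (0 : ℝ) < M * μ / 4 by positivity))
      filter_upwards [h6.filter_mono nhdsWithin_le_nhds, h7.filter_mono nhdsWithin_le_nhds,
        h8.filter_mono nhdsWithin_le_nhds, self_mem_nhdsWithin] with δ h9 h10 h11 h12
      exact ⟨h9, h10, h11, h12⟩
    exact h5.exists
  refine ⟨δ₀, hδ, hδ1.le, fun l P s h => ?_⟩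
  obtain ⟨e, hcrit, hnc, hlow, hupp⟩ := hcr l k₀ m P s M κ δ₀ h
  set κ₃ : ℝ := M * ω * ((j₀ : ℝ) + 1) + κ * C₀ ^ 2 / (2 * (j₀ * Q)) +
      δ₀ * (2 + R * ‖e₀‖) * (((j₀ : ℝ) + 1) * Q) + δ₀ * (1 + C₀) with hκ₃
  have hca' : Closes2 l k₀ Q e κ₃ a fun t => M * ψa t :=
    closes2 hQn hw h hupp ha hC₀ hC hj₀
  have hcc' : Closes2 l k₀ Q e κ₃ c fun t => M * ψc t :=
    closes2 hQn hw h hupp hc hC₀ hC hj₀
  obtain ⟨C₁, hr⟩ := rough2 hQn hw h e hC₀ hC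
  have hac : ∀ t, a t < c t := fun t => (haB t).trans (hBc t)
  have he₁ : 0 ≤ δ₀ * (1 + R₀) := by positivity
  have hν : (δ₀ + δ₀ * (1 + R₀)) * Q / ω' = δ₀ * K₁ := by rw [hK₁]; ring
  have hU3 : |U| + 2 * R ≤ C₃ := by
    have := abs_nonneg D
    rw [hC₃]; linarith
  have hD3 : |D| + 2 * R ≤ C₃ := by
    have := abs_nonneg U
    rw [hC₃]; linarith
  have hpos : 0 ≤ M * (1 - δ₀) - (δ₀ + δ₀ * (1 + R₀)) * Q / ω' := by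
    rw [hν]
    nlinarith
  obtain ⟨hgU, hgD⟩ := gap2 hQn h hcrit he₁ hlow ha hc hac hca' hcc' hω' hC₂ hU3 hD3 hU hD hS hpos
  rw [hν] at hgU hgD
  set sm : ℝ := (M * δ₀ + δ₀ * K₁) * C₃ + δ₀ * K₁ * C₂ + δ₀ with hsm
  have hsmK : sm = δ₀ * K₂ := by rw [hsm, hK₂]; ring
  obtain ⟨A, A', hAB, hA, hB⟩ := rest2 hQn h.hl h.km hcrit hr hca' hcc' (fun t => (hac t).le) hca
    ha.per hc.per (fun t => by rw [ha.ψper]) (fun t => by rw [hc.ψper])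
  have hlev := fun (i j : ℤ) (t t' : ℝ) (x y : EuclideanSpace ℝ (Fin n)) (r : ℝ)
      (hx : ⟪zv k₀, x⟫ = a t + i) (hy : ⟪zv k₀, y⟫ = a t' + j) (hxy : Conn2 l e t t' x y r) =>
    levels2 (e := e) (κ := κ₃) (b := M * U - sm - 2 * κ₃) (b' := M * D - sm - 2 * κ₃) (A := A)
      (B := A') (ψa := fun t => M * ψa t) (ψc := fun t => M * ψc t) h.hl h.km ha.contA hc.contA
      (fun t => (hac t).le) hca
      (fun t t' x y r hx hy hxy => hca'.same2 hQn h.hl hcrit hx hy hxy)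
      hgU hgD hA hB i j hx hy hxy
  obtain ⟨C, hC'⟩ := trapped_of_levels2 (e := e) (κ := κ₃) (C₁ := C₁)
    (fu := M * U - sm - 2 * κ₃ + A) (fd := M * D - sm - 2 * κ₃ + A') (a := a)
    (ψ := fun t => M * ψa t) hQn h.hl h.km ha.per (fun t => by rw [ha.ψper]) hr hlev
  refine ⟨e, M * U - sm - 2 * κ₃ + A, M * D - sm - 2 * κ₃ + A', C, ?_, hcrit, hnc, hC'⟩
  have h1 : M * (μ - 2 * ω) ≤ M * (U + D) := mul_le_mul_of_nonneg_left hUD hM.le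
  have h2 : 6 * κ₃ = 6 * (M * ω * ((j₀ : ℝ) + 1)) + 6 * (κ * C₀ ^ 2 / (2 * (j₀ * Q))) +
      δ₀ * (6 * K₃) := by
    rw [hκ₃, hK₃]; ring
  have h3 : δ₀ * (2 * K₂ + 6 * K₃) = 2 * sm + δ₀ * (6 * K₃) := by rw [hsmK]; ring
  have h4 : M * (μ - 2 * ω) = M * μ - 2 * (M * ω) := by ring
  have h5 : M * (U + D) = M * U + M * D := by ring
  linarith

end Pool.Agent.H33.AN
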