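import Pool.Agent.H33.AN.Pot
import Pool.Agent.H33.AN.P.L1
import Pool.Agent.H33.AM.P.V1
import Pool.Agent.H33.AM.P.V2
import Pool.Agent.H33.AM.P.V3

/-!
# Module M1: time-dependent potentials: averages

(Compare `Pool/Agent/H33/AM/P/V1.lean`, `V2*.lean`, `V3*.lean`.)
* `HV2.moving`: chain rule; the period: `V (x + (p/Q) (t + Q) m) (t + Q) = V (x + (p/Q) t m + p m) t`.
* `avP_trap2`: `h(x, t) = ∫₀¹ (τ - 1/2) V(x + τ P, t) dτ` is `C¹` with the partial derivatives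
  `H = ∫₀¹ (τ - 1/2) F(x + τ P, t) dτ`, `∫₀¹ (τ - 1/2) Vt(x + τ P, t) dτ`, `|h|, ‖H‖, |h_t| ≤ B`,
  `⟪H x t, zv P⟫ = V x t - avP (V · t) P x`. With `ũ = u - s P`:
  `(d/dt) h(x(t), t) = s (V - avP V) + ⟪H, ũ⟫ + h_t` off a countable set; integrate.
* `avP_tendsto2`: `|V x t - V x t'| ≤ B |t - t'|`, so it is enough to use `avP_tendsto` (with `P₀ = 0`) at the
  finitely many times of a fine net of `[0, T]`, `|avP g|, |avK g| ≤ sup |g|`, and the period in `t`.
* `HW_avK`: differentiate under the integral over the cube; `d/dθ g(θ m + y - …) = ⟪F, zv m⟫`.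
* `avK_moving`: by definition.
-/

set_option autoImplicit false

open MeasureTheory
open scoped RealInnerProductSpace

namespace Pool.Agent.H33.AN

open Pool.Agent.H33.AM

variable {n : ℕ}

private lemma M1a_zv (m : Fin n → ℤ) (p : ℤ) : (p : ℝ) • zv m = zv (fun i => p * m i) := by
  ext i
  simp [zv]

private lemma M1a_pert {V : EuclideanSpace ℝ (Fin n) → ℝ → ℝ}
    {F : EuclideanSpace ℝ (Fin n) → ℝ → EuclideanSpace ℝ (Fin n)}
    {Vt : EuclideanSpace ℝ (Fin n) → ℝ → ℝ} {B : ℝ} (hV : HV2 1 V F Vt B)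
    (x : EuclideanSpace ℝ (Fin n)) (t : ℝ) (k : ℕ) : V x (t + k) = V x t := by
  induction k with
  | zero => simp
  | succ k ih =>
    rw [Nat.cast_add, Nat.cast_one, ← add_assoc, hV.pert, ih]

private lemma M1a_contF {V : EuclideanSpace ℝ (Fin n) → ℝ → ℝ}
    {F : EuclideanSpace ℝ (Fin n) → ℝ → EuclideanSpace ℝ (Fin n)}
    {Vt : EuclideanSpace ℝ (Fin n) → ℝ → ℝ} {B : ℝ} (hV : HV2 1 V F Vt B) :
    Continuous fun z : EuclideanSpace ℝ (Fin n) × ℝ => F z.1 z.2 := by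
  rw [continuous_iff_continuousAt]
  intro z
  rw [ContinuousAt, tendsto_iff_norm_sub_tendsto_zero]
  have h1 : Filter.Tendsto (fun w : EuclideanSpace ℝ (Fin n) × ℝ =>
      B * (‖w.1 - z.1‖ + |w.2 - z.2|)) (nhds z) (nhds 0) := by
    have h2 : Continuous (fun w : EuclideanSpace ℝ (Fin n) × ℝ =>
      B * (‖w.1 - z.1‖ + |w.2 - z.2|)) := by fun_prop
    have h3 := h2.tendsto z
    simpa using h3
  exact squeeze_zero (fun w => norm_nonneg _) (fun w => hV.lip _ _ _ _) h1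

theorem HV2.moving {V : EuclideanSpace ℝ (Fin n) → ℝ → ℝ}
    {F : EuclideanSpace ℝ (Fin n) → ℝ → EuclideanSpace ℝ (Fin n)}
    {Vt : EuclideanSpace ℝ (Fin n) → ℝ → ℝ} {B : ℝ} (hV : HV2 1 V F Vt B) (m : Fin n → ℤ) (p : ℤ)
    {Q : ℕ} (hQ : 0 < Q) :
    ∃ B' : ℝ, HV2 Q (fun x t => V (x + ((p : ℝ) / Q * t) • zv m) t)
      (fun x t => F (x + ((p : ℝ) / Q * t) • zv m) t)
      (fun x t => Vt (x + ((p : ℝ) / Q * t) • zv m) t +
        (p : ℝ) / Q * ⟪F (x + ((p : ℝ) / Q * t) • zv m) t, zv m⟫) B' := by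
  have hB := hV.nonneg
  have hQ0 : (Q : ℝ) ≠ 0 := by exact_mod_cast hQ.ne'
  obtain ⟨c, hc⟩ : ∃ c : ℝ, c = (p : ℝ) / Q := ⟨_, rfl⟩
  have hcQ : c * Q = p := by rw [hc]; field_simp
  rw [← hc]
  have hN : 0 ≤ |c| * ‖zv m‖ := by positivity
  have hB1 : B ≤ B * (1 + |c| * ‖zv m‖) := by nlinarith [mul_nonneg hB hN]
  have hΦc : Continuous fun z : EuclideanSpace ℝ (Fin n) × ℝ => (z.1 + (c * z.2) • zv m, z.2) := by
    fun_prop
  have hFc : Continuous fun z : EuclideanSpace ℝ (Fin n) × ℝ => F z.1 z.2 := M1a_contF hV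
  refine ⟨B * (1 + |c| * ‖zv m‖), ⟨by positivity, ?_, ?_, ?_, ?_, ?_, ?_, ?_, ?_⟩⟩
  · intro x t
    have h1 := hV.der (x + (c * t) • zv m) t
    have h2 : HasFDerivAt (fun z : EuclideanSpace ℝ (Fin n) × ℝ => (z.1 + (c * z.2) • zv m, z.2))
        (((ContinuousLinearMap.fst ℝ (EuclideanSpace ℝ (Fin n)) ℝ) +
          (c • ContinuousLinearMap.snd ℝ (EuclideanSpace ℝ (Fin n)) ℝ).smulRight (zv m)).prod
          (ContinuousLinearMap.snd ℝ (EuclideanSpace ℝ (Fin n)) ℝ)) (x, t) := by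
      refine HasFDerivAt.prodMk ?_ hasFDerivAt_snd
      refine hasFDerivAt_fst.add ?_
      have h3 : HasFDerivAt (fun z : EuclideanSpace ℝ (Fin n) × ℝ => c * z.2)
          (c • ContinuousLinearMap.snd ℝ (EuclideanSpace ℝ (Fin n)) ℝ) (x, t) :=
        hasFDerivAt_snd.const_mul c
      exact h3.smul_const (zv m)
    have h4 := HasFDerivAt.comp (x, t) (g := fun z : EuclideanSpace ℝ (Fin n) × ℝ => V z.1 z.2)
      (f := fun z : EuclideanSpace ℝ (Fin n) × ℝ => (z.1 + (c * z.2) • zv m, z.2)) h1 h2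
    refine h4.congr_fderiv ?_
    ext v
    · simp
    · simp [inner_smul_right]
      ring
  · have h1 : Continuous fun z : EuclideanSpace ℝ (Fin n) × ℝ => Vt (z.1 + (c * z.2) • zv m) z.2 :=
      hV.contt.comp hΦc
    have h2 : Continuous fun z : EuclideanSpace ℝ (Fin n) × ℝ => F (z.1 + (c * z.2) • zv m) z.2 :=
      hFc.comp hΦc
    exact h1.add (continuous_const.mul (h2.inner continuous_const))
  · intro x t k
    change V (x + zv k + (c * t) • zv m) t = V (x + (c * t) • zv m) t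
    rw [add_right_comm, hV.per]
  · intro x t
    change V (x + (c * (t + Q)) • zv m) (t + Q) = V (x + (c * t) • zv m) t
    rw [M1a_pert hV, mul_add, add_smul, hcQ, ← add_assoc, M1a_zv, hV.per]
  · intro x t
    exact (hV.bd _ _).trans hB1
  · intro x t
    exact (hV.bdF _ _).trans hB1
  · intro x t
    change |Vt (x + (c * t) • zv m) t + c * ⟪F (x + (c * t) • zv m) t, zv m⟫| ≤ _
    refine (abs_add_le _ _).trans ?_
    rw [abs_mul]
    have h1 := hV.bdt (x + (c * t) • zv m) t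
    have h2 : |⟪F (x + (c * t) • zv m) t, zv m⟫| ≤ B * ‖zv m‖ :=
      (abs_real_inner_le_norm _ _).trans (mul_le_mul_of_nonneg_right (hV.bdF _ _) (norm_nonneg _))
    have h3 := mul_le_mul_of_nonneg_left h2 (abs_nonneg c)
    calc _ ≤ B + |c| * (B * ‖zv m‖) := add_le_add h1 h3
      _ = _ := by ring
  · intro x t x' t'
    refine (hV.lip _ _ _ _).trans ?_
    have h1 : ‖x + (c * t) • zv m - (x' + (c * t') • zv m)‖ ≤
        ‖x - x'‖ + |c| * ‖zv m‖ * |t - t'| := by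
      have h2 : x + (c * t) • zv m - (x' + (c * t') • zv m) = (x - x') + (c * (t - t')) • zv m := by
        rw [mul_sub, sub_smul]; abel
      rw [h2]
      refine (norm_add_le _ _).trans ?_
      rw [norm_smul, Real.norm_eq_abs, abs_mul]
      apply le_of_eq
      ring
    have h3 : 0 ≤ |c| * ‖zv m‖ * ‖x - x'‖ := by positivity
    calc B * (‖x + (c * t) • zv m - (x' + (c * t') • zv m)‖ + |t - t'|)
        ≤ B * ((‖x - x'‖ + |c| * ‖zv m‖ * |t - t'|) + |t - t'|) := by gcongr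
      _ ≤ B * ((1 + |c| * ‖zv m‖) * (‖x - x'‖ + |t - t'|)) := by
          apply mul_le_mul_of_nonneg_left _ hB
          nlinarith
      _ = _ := by ring

end Pool.Agent.H33.AN
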