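import Pool.Agent.H33.AN.Pot
import Pool.Agent.H33.AN.P.L1
import Pool.Agent.H33.AM.P.V1
import Pool.Agent.H33.AM.P.V2
import Pool.Agent.H33.AM.P.V3
import Pool.Agent.H33.AN.P.M1a

/-!
# Module M1: time-dependent potentials: averages

(Compare `Pool/Agent/H33/AM/P/V1.lean`, `V2*.lean`, `V3*.lean`.)
* `HV2.moving`: chain rule; the period: `V (x + (p/Q) (t + Q) m) (t + Q) = V (x + (p/Q) t m + p m) t`.
* `avP_trap2`: `h(x, t) = ∫₀¹ (τ - 1/2) V(x + τ P, t) dτ` is `C¹` with the partial derivatives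
  `H = ∫₀¹ (τ - 1/2) F(x + τ P, t) dτ`, `∫₀¹ (τ - 1/2) Vt(x + τ P, t) dτ`, `|h|, ‖H‖, |h_t| ≤ B`,
  `⟪H x t, zv P⟫ = V x t - avP (V · t) P x`. With `ũ = u - s P`:
  `(d/dt) h(x(t), t) = s (V - avP V) + ⟪H, ũ⟫ + h_t` off a countable set; integrate.
* `avP_tendsto2`: `|V x t - V x t'| ≤ B |t - t'|`, so it is enough to use `avP_tendsto` (with `P₀ = 0`) at the
  finitely many times of a fine net of `[0, T]`, `|avP g|, |avK g| ≤ sup |g|`, and the period in `t`.
* `HW_avK`: differentiate under the integral over the cube; `d/dθ g(θ m + y - …) = ⟪F, zv m⟫`.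
* `avK_moving`: by definition.
-/

set_option autoImplicit false

open MeasureTheory
open scoped RealInnerProductSpace

namespace Pool.Agent.H33.AN

open Pool.Agent.H33.AM

variable {n : ℕ}

private theorem m1b_contF {V : EuclideanSpace ℝ (Fin n) → ℝ → ℝ}
    {F : EuclideanSpace ℝ (Fin n) → ℝ → EuclideanSpace ℝ (Fin n)}
    {Vt : EuclideanSpace ℝ (Fin n) → ℝ → ℝ} {Tp B : ℝ} (hV : HV2 Tp V F Vt B) :
    Continuous fun z : EuclideanSpace ℝ (Fin n) × ℝ => F z.1 z.2 := by
  have hB := hV.nonneg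
  refine (LipschitzWith.of_dist_le_mul (K := ⟨2 * B, by positivity⟩) (fun z w => ?_)).continuous
  rw [dist_eq_norm]
  refine (hV.lip z.1 z.2 w.1 w.2).trans ?_
  have h1 : ‖z.1 - w.1‖ ≤ dist z w := by
    rw [← dist_eq_norm]
    exact le_max_left _ _
  have h2 : |z.2 - w.2| ≤ dist z w := by
    rw [← Real.dist_eq]
    exact le_max_right _ _
  have h3 : B * (‖z.1 - w.1‖ + |z.2 - w.2|) ≤ B * (dist z w + dist z w) :=
    mul_le_mul_of_nonneg_left (add_le_add h1 h2) hB
  refine h3.trans (le_of_eq ?_)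
  show B * (dist z w + dist z w) = 2 * B * dist z w
  ring

theorem avP_trap2 {V : EuclideanSpace ℝ (Fin n) → ℝ → ℝ}
    {F : EuclideanSpace ℝ (Fin n) → ℝ → EuclideanSpace ℝ (Fin n)}
    {Vt : EuclideanSpace ℝ (Fin n) → ℝ → ℝ} {Tp B : ℝ} (hV : HV2 Tp V F Vt B)
    (P : Fin n → ℤ) {s : ℝ} (hs : 0 < s) {a b : ℝ} {x u : ℝ → EuclideanSpace ℝ (Fin n)}
    (h : Adm a b x u) :
    |(∫ t in a..b, V (x t) t) - ∫ t in a..b, avP (fun y => V y t) P (x t)| ≤
      (2 * B + B * (b - a) + B * ∫ t in a..b, ‖u t - s • zv P‖) / s := by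
  have hB : 0 ≤ B := hV.nonneg
  have hFc := m1b_contF hV
  have hVc : Continuous fun z : EuclideanSpace ℝ (Fin n) × ℝ => V z.1 z.2 :=
    continuous_iff_continuousAt.mpr fun z => (hV.der z.1 z.2).continuousAt
  have hTc := hV.contt
  obtain ⟨Q, hQ⟩ : ∃ Q, Q = zv P := ⟨_, rfl⟩
  have hlc : Continuous fun p : (EuclideanSpace ℝ (Fin n) × ℝ) × ℝ =>
      ((p.1.1 + p.2 • Q, p.1.2) : EuclideanSpace ℝ (Fin n) × ℝ) :=
    ((continuous_fst.comp continuous_fst).add (continuous_snd.smul continuous_const)).prodMk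
      (continuous_snd.comp continuous_fst)
  have hline : ∀ z : EuclideanSpace ℝ (Fin n) × ℝ, Continuous fun t : ℝ =>
      ((z.1 + t • Q, z.2) : EuclideanSpace ℝ (Fin n) × ℝ) := fun z =>
    (continuous_const.add (continuous_id.smul continuous_const)).prodMk continuous_const
  obtain ⟨h', hh'⟩ : ∃ h' : EuclideanSpace ℝ (Fin n) × ℝ → ℝ,
      h' = fun z => ∫ t in (0 : ℝ)..1, (t - 1 / 2) * V (z.1 + t • Q) z.2 := ⟨_, rfl⟩
  obtain ⟨H', hH'⟩ : ∃ H' : EuclideanSpace ℝ (Fin n) × ℝ → EuclideanSpace ℝ (Fin n),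
      H' = fun z => ∫ t in (0 : ℝ)..1, (t - 1 / 2) • F (z.1 + t • Q) z.2 := ⟨_, rfl⟩
  obtain ⟨K', hK'⟩ : ∃ K' : EuclideanSpace ℝ (Fin n) × ℝ → ℝ,
      K' = fun z => ∫ t in (0 : ℝ)..1, (t - 1 / 2) * Vt (z.1 + t • Q) z.2 := ⟨_, rfl⟩
  obtain ⟨D, hD⟩ : ∃ D : EuclideanSpace ℝ (Fin n) × ℝ →
      (EuclideanSpace ℝ (Fin n) × ℝ →L[ℝ] ℝ), D = fun w =>
        (innerSL ℝ (F w.1 w.2)).comp (ContinuousLinearMap.fst ℝ (EuclideanSpace ℝ (Fin n)) ℝ) +
          Vt w.1 w.2 • ContinuousLinearMap.snd ℝ (EuclideanSpace ℝ (Fin n)) ℝ := ⟨_, rfl⟩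
  have hDa : ∀ w v, D w v = ⟪F w.1 w.2, v.1⟫ + Vt w.1 w.2 * v.2 := by
    intro w v
    rw [hD]
    rfl
  have hDc : Continuous D := by
    rw [hD]
    refine Continuous.add ?_ ?_
    · exact (ContinuousLinearMap.precomp ℝ (ContinuousLinearMap.fst ℝ
        (EuclideanSpace ℝ (Fin n)) ℝ)).continuous.comp ((innerSL ℝ).continuous.comp hFc)
    · exact hTc.smul continuous_const
  have hhalf : ∀ t ∈ Set.uIoc (0 : ℝ) 1, |t - 1 / 2| ≤ 1 := by
    intro t ht
    rw [Set.uIoc_of_le zero_le_one] at ht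
    rw [abs_le]
    constructor <;> linarith [ht.1, ht.2]
  have hDn : ∀ w, ‖D w‖ ≤ 2 * B := by
    intro w
    refine ContinuousLinearMap.opNorm_le_bound _ (by positivity) fun v => ?_
    rw [hDa]
    have h1 : ‖v.1‖ ≤ ‖v‖ := norm_fst_le v
    have h2 : ‖v.2‖ ≤ ‖v‖ := norm_snd_le v
    have h3 : ‖⟪F w.1 w.2, v.1⟫‖ ≤ B * ‖v‖ :=
      (norm_inner_le_norm _ _).trans (mul_le_mul (hV.bdF _ _) h1 (norm_nonneg _) hB)
    have h4 : ‖Vt w.1 w.2 * v.2‖ ≤ B * ‖v‖ := by
      rw [norm_mul]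
      exact mul_le_mul (hV.bdt _ _) h2 (norm_nonneg _) hB
    calc ‖⟪F w.1 w.2, v.1⟫ + Vt w.1 w.2 * v.2‖ ≤ B * ‖v‖ + B * ‖v‖ :=
          (norm_add_le _ _).trans (add_le_add h3 h4)
      _ = 2 * B * ‖v‖ := by ring
  have hH'c : Continuous H' := by
    rw [hH']
    exact intervalIntegral.continuous_parametric_intervalIntegral_of_continuous'
      (f := fun (z : EuclideanSpace ℝ (Fin n) × ℝ) (t : ℝ) =>
        (t - 1 / 2) • F (z.1 + t • Q) z.2)
      ((continuous_snd.sub continuous_const).smul (hFc.comp hlc)) 0 1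
  have hK'c : Continuous K' := by
    have h1 : Continuous fun p : (EuclideanSpace ℝ (Fin n) × ℝ) × ℝ =>
        (p.2 - 1 / 2) * Vt (p.1.1 + p.2 • Q) p.1.2 :=
      (continuous_snd.sub continuous_const).mul (hTc.comp hlc)
    rw [hK']
    exact intervalIntegral.continuous_parametric_intervalIntegral_of_continuous'
      (f := fun (z : EuclideanSpace ℝ (Fin n) × ℝ) (t : ℝ) =>
        (t - 1 / 2) * Vt (z.1 + t • Q) z.2) h1 0 1
  have hφc : ∀ z : EuclideanSpace ℝ (Fin n) × ℝ,
      Continuous fun t : ℝ => (t - 1 / 2) • F (z.1 + t • Q) z.2 := fun z =>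
    (continuous_id.sub continuous_const).smul (hFc.comp (hline z))
  have hψc : ∀ z : EuclideanSpace ℝ (Fin n) × ℝ,
      Continuous fun t : ℝ => (t - 1 / 2) * Vt (z.1 + t • Q) z.2 := fun z =>
    (continuous_id.sub continuous_const).mul (hTc.comp (hline z))
  have hinner : ∀ z v, ⟪H' z, v⟫ =
      ∫ t in (0 : ℝ)..1, (t - 1 / 2) * ⟪F (z.1 + t • Q) z.2, v⟫ := by
    intro z v
    have h1 := (innerSL ℝ v).intervalIntegral_comp_comm
      ((hφc z).intervalIntegrable (μ := volume) 0 1)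
    rw [hH', real_inner_comm]
    rw [innerSL_apply_apply] at h1
    rw [← h1]
    refine intervalIntegral.integral_congr (fun t _ => ?_)
    simp only [innerSL_apply_apply]
    rw [real_inner_smul_right, real_inner_comm]
  have hfd : ∀ z, ∃ L : EuclideanSpace ℝ (Fin n) × ℝ →L[ℝ] ℝ, HasFDerivAt h' L z ∧
      ∀ v, L v = ⟪H' z, v.1⟫ + K' z * v.2 := by
    intro z
    have h1 := intervalIntegral.hasFDerivAt_integral_of_dominated_of_fderiv_le
      (μ := volume) (a := 0) (b := 1) (s := Set.univ) (x₀ := z) (bound := fun _ => 2 * B)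
      (F := fun (w : EuclideanSpace ℝ (Fin n) × ℝ) (t : ℝ) => (t - 1 / 2) * V (w.1 + t • Q) w.2)
      (F' := fun (w : EuclideanSpace ℝ (Fin n) × ℝ) (t : ℝ) =>
        (t - 1 / 2) • D (w.1 + t • Q, w.2))
      Filter.univ_mem
      (Filter.Eventually.of_forall fun w => ((continuous_id.sub continuous_const).mul
        (hVc.comp (hline w))).aestronglyMeasurable)
      (((continuous_id.sub continuous_const).mul (hVc.comp (hline z))).intervalIntegrable 0 1)
      (((continuous_id.sub continuous_const).smul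
        (hDc.comp (hline z))).aestronglyMeasurable)
      (Filter.Eventually.of_forall fun t ht w _ => by
        rw [norm_smul, Real.norm_eq_abs]
        calc |t - 1 / 2| * ‖D (w.1 + t • Q, w.2)‖ ≤ 1 * (2 * B) :=
              mul_le_mul (hhalf t ht) (hDn _) (norm_nonneg _) zero_le_one
          _ = 2 * B := one_mul _)
      (continuous_const.intervalIntegrable 0 1)
      (Filter.Eventually.of_forall fun t _ w _ => by
        have h2 : HasFDerivAt (fun y : EuclideanSpace ℝ (Fin n) × ℝ =>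
            ((y.1 + t • Q, y.2) : EuclideanSpace ℝ (Fin n) × ℝ))
            (ContinuousLinearMap.id ℝ (EuclideanSpace ℝ (Fin n) × ℝ)) w := by
          have e1 : HasFDerivAt (fun y : EuclideanSpace ℝ (Fin n) × ℝ => y.1 + t • Q)
              (ContinuousLinearMap.fst ℝ (EuclideanSpace ℝ (Fin n)) ℝ) w :=
            (hasFDerivAt_fst (p := w)).add_const (t • Q)
          have e2 : HasFDerivAt (fun y : EuclideanSpace ℝ (Fin n) × ℝ => y.2)
              (ContinuousLinearMap.snd ℝ (EuclideanSpace ℝ (Fin n)) ℝ) w :=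
            hasFDerivAt_snd (p := w)
          exact (e1.prodMk e2).congr_fderiv (ContinuousLinearMap.ext fun v => rfl)
        have h3 := HasFDerivAt.comp w (hV.der (w.1 + t • Q) w.2) h2
        rw [ContinuousLinearMap.comp_id] at h3
        have h4 := h3.const_mul (t - 1 / 2)
        rw [hD]
        exact h4)
    rw [hh']
    refine ⟨_, h1, fun v => ?_⟩
    rw [ContinuousLinearMap.intervalIntegral_apply, hinner, hK']
    · have e2 : (∫ t in (0 : ℝ)..1, (t - 1 / 2) * Vt (z.1 + t • Q) z.2) * v.2 =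
          ∫ t in (0 : ℝ)..1, (t - 1 / 2) * Vt (z.1 + t • Q) z.2 * v.2 :=
        (intervalIntegral.integral_mul_const _ _).symm
      simp only
      rw [e2, ← intervalIntegral.integral_add]
      · refine intervalIntegral.integral_congr (fun t _ => ?_)
        simp only [smul_apply, smul_eq_mul, hDa]
        ring
      · exact ((continuous_id.sub continuous_const).mul
          ((hFc.comp (hline z)).inner continuous_const)).intervalIntegrable 0 1
      · exact ((hψc z).mul continuous_const).intervalIntegrable 0 1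
    · exact (((continuous_id.sub continuous_const).smul
        (hDc.comp (hline z))).intervalIntegrable 0 1)
  have hpar : ∀ z : EuclideanSpace ℝ (Fin n) × ℝ,
      ⟪H' z, Q⟫ = V z.1 z.2 - avP (fun y => V y z.2) P z.1 := by
    intro z
    rw [hinner]
    have hv : ∀ t : ℝ, HasDerivAt (fun t : ℝ => V (z.1 + t • Q) z.2)
        ⟪F (z.1 + t • Q) z.2, Q⟫ t := by
      intro t
      have h2 : HasDerivAt (fun t : ℝ => ((z.1 + t • Q, z.2) : EuclideanSpace ℝ (Fin n) × ℝ))
          (Q, 0) t := by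
        have h3 := ((hasDerivAt_id t).smul_const Q).const_add z.1
        rw [one_smul] at h3
        exact h3.prodMk (hasDerivAt_const t z.2)
      have h4 := HasFDerivAt.comp_hasDerivAt t (hV.der (z.1 + t • Q) z.2) h2
      refine h4.congr_deriv ?_
      show ⟪F (z.1 + t • Q) z.2, Q⟫ + Vt (z.1 + t • Q) z.2 * 0 = _
      ring
    have hu : ∀ t : ℝ, HasDerivAt (fun t : ℝ => t - 1 / 2) 1 t := fun t =>
      (hasDerivAt_id t).sub_const (1 / 2)
    have h5 := intervalIntegral.integral_mul_deriv_eq_deriv_mul (a := 0) (b := 1)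
      (u := fun t : ℝ => t - 1 / 2) (u' := fun _ => 1) (v := fun t : ℝ => V (z.1 + t • Q) z.2)
      (v' := fun t => ⟪F (z.1 + t • Q) z.2, Q⟫)
      (fun t _ => hu t) (fun t _ => hv t) (continuous_const.intervalIntegrable 0 1)
      (((hFc.comp (hline z)).inner continuous_const).intervalIntegrable 0 1)
    rw [h5]
    have h6 : V (z.1 + (1 : ℝ) • Q) z.2 = V z.1 z.2 := by
      rw [one_smul, hQ]
      exact hV.per z.1 z.2 P
    simp only [h6, zero_smul, add_zero, one_mul]
    unfold avP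
    rw [← hQ]
    ring
  have hb' : ∀ z, |h' z| ≤ B := by
    intro z
    rw [hh']
    have h1 := intervalIntegral.norm_integral_le_of_norm_le_const (a := 0) (b := 1) (C := B)
      (f := fun t : ℝ => (t - 1 / 2) * V (z.1 + t • Q) z.2) (fun t ht => by
        rw [norm_mul, Real.norm_eq_abs, Real.norm_eq_abs]
        calc |t - 1 / 2| * |V (z.1 + t • Q) z.2| ≤ 1 * B :=
              mul_le_mul (hhalf t ht) (hV.bd _ _) (abs_nonneg _) zero_le_one
          _ = B := one_mul B)
    rw [sub_zero, abs_one, mul_one, Real.norm_eq_abs] at h1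
    exact h1
  have hbH : ∀ z, ‖H' z‖ ≤ B := by
    intro z
    rw [hH']
    have h1 := intervalIntegral.norm_integral_le_of_norm_le_const (a := 0) (b := 1) (C := B)
      (f := fun t : ℝ => (t - 1 / 2) • F (z.1 + t • Q) z.2) (fun t ht => by
        rw [norm_smul, Real.norm_eq_abs]
        calc |t - 1 / 2| * ‖F (z.1 + t • Q) z.2‖ ≤ 1 * B :=
              mul_le_mul (hhalf t ht) (hV.bdF _ _) (norm_nonneg _) zero_le_one
          _ = B := one_mul B)
    rw [sub_zero, abs_one, mul_one] at h1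
    exact h1
  have hbK : ∀ z, |K' z| ≤ B := by
    intro z
    rw [hK']
    have h1 := intervalIntegral.norm_integral_le_of_norm_le_const (a := 0) (b := 1) (C := B)
      (f := fun t : ℝ => (t - 1 / 2) * Vt (z.1 + t • Q) z.2) (fun t ht => by
        rw [norm_mul, Real.norm_eq_abs, Real.norm_eq_abs]
        calc |t - 1 / 2| * |Vt (z.1 + t • Q) z.2| ≤ 1 * B :=
              mul_le_mul (hhalf t ht) (hV.bdt _ _) (abs_nonneg _) zero_le_one
          _ = B := one_mul B)
    rw [sub_zero, abs_one, mul_one, Real.norm_eq_abs] at h1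
    exact h1
  -- along the curve
  have hpt : Continuous fun p : EuclideanSpace ℝ (Fin n) × EuclideanSpace ℝ (Fin n) × ℝ =>
      ((p.1, p.2.2) : EuclideanSpace ℝ (Fin n) × ℝ) :=
    continuous_fst.prodMk (continuous_snd.comp continuous_snd)
  have hpu : Continuous fun p : EuclideanSpace ℝ (Fin n) × EuclideanSpace ℝ (Fin n) × ℝ =>
      p.2.1 := continuous_fst.comp continuous_snd
  have hxt : ContinuousOn (fun t => ((x t, t) : EuclideanSpace ℝ (Fin n) × ℝ)) (Set.Icc a b) :=
    h.cont.prodMk continuousOn_id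
  have hh'c : Continuous h' := continuous_iff_continuousAt.mpr fun z => by
    obtain ⟨L, hL, -⟩ := hfd z
    exact hL.continuousAt
  have i5 : IntervalIntegrable (fun t => ⟪H' (x t, t), u t⟫) volume a b :=
    Adm.integrable2 h (g := fun p => ⟪H' (p.1, p.2.2), p.2.1⟫) ((hH'c.comp hpt).inner hpu)
  have i6 : IntervalIntegrable (fun t => K' (x t, t)) volume a b :=
    Adm.integrable2 h (g := fun p => K' (p.1, p.2.2)) (hK'c.comp hpt)
  have key : (∫ t in a..b, (⟪H' (x t, t), u t⟫ + K' (x t, t))) = h' (x b, b) - h' (x a, a) := by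
    obtain ⟨S, hS, hd⟩ := h.der
    refine MeasureTheory.integral_eq_of_hasDerivAt_off_countable_of_le (fun t => h' (x t, t))
      (fun t => ⟪H' (x t, t), u t⟫ + K' (x t, t)) h.le hS (hh'c.comp_continuousOn hxt) ?_
      (i5.add i6)
    intro t ht
    obtain ⟨L, hL, hLv⟩ := hfd (x t, t)
    have h1 : HasDerivAt (fun t => ((x t, t) : EuclideanSpace ℝ (Fin n) × ℝ)) (u t, 1) t :=
      (hd t ht).prodMk (hasDerivAt_id t)
    have h2 := HasFDerivAt.comp_hasDerivAt
      (f := fun t => ((x t, t) : EuclideanSpace ℝ (Fin n) × ℝ)) t hL h1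
    refine h2.congr_deriv ?_
    rw [hLv]
    simp only [mul_one]
  have i1 : IntervalIntegrable (fun t => V (x t) t) volume a b :=
    Adm.integrable2 h (g := fun p => V p.1 p.2.2) (hVc.comp hpt)
  have hav : Continuous fun z : EuclideanSpace ℝ (Fin n) × ℝ =>
      avP (fun y => V y z.2) P z.1 := by
    have h1 : Continuous fun z : EuclideanSpace ℝ (Fin n) × ℝ =>
        ∫ t in (0 : ℝ)..1, V (z.1 + t • Q) z.2 :=
      intervalIntegral.continuous_parametric_intervalIntegral_of_continuous'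
        (f := fun (z : EuclideanSpace ℝ (Fin n) × ℝ) (t : ℝ) => V (z.1 + t • Q) z.2)
        (hVc.comp hlc) 0 1
    rw [hQ] at h1
    exact h1
  have i2 : IntervalIntegrable (fun t => avP (fun y => V y t) P (x t)) volume a b :=
    Adm.integrable2 h (g := fun p => avP (fun y => V y p.2.2) P p.1) (hav.comp hpt)
  have i3 : IntervalIntegrable (fun t => ⟪H' (x t, t), u t - s • Q⟫) volume a b :=
    Adm.integrable2 h (g := fun p => ⟪H' (p.1, p.2.2), p.2.1 - s • Q⟫)
      ((hH'c.comp hpt).inner (hpu.sub continuous_const))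
  have i4 : IntervalIntegrable (fun t => ‖u t - s • Q‖) volume a b :=
    Adm.integrable2 h (g := fun p => ‖p.2.1 - s • Q‖) (hpu.sub continuous_const).norm
  have hdec : (∫ t in a..b, ⟪H' (x t, t), u t⟫) =
      s * ((∫ t in a..b, V (x t) t) - ∫ t in a..b, avP (fun y => V y t) P (x t)) +
        ∫ t in a..b, ⟪H' (x t, t), u t - s • Q⟫ := by
    rw [← intervalIntegral.integral_sub i1 i2, ← intervalIntegral.integral_const_mul,
      ← intervalIntegral.integral_add ((i1.sub i2).const_mul s) i3]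
    refine intervalIntegral.integral_congr (fun t _ => ?_)
    have h1 := hpar (x t, t)
    simp only at h1
    rw [inner_sub_right, real_inner_smul_right, h1]
    ring
  have hrest : |∫ t in a..b, ⟪H' (x t, t), u t - s • Q⟫| ≤ B * ∫ t in a..b, ‖u t - s • Q‖ := by
    rw [← intervalIntegral.integral_const_mul, ← Real.norm_eq_abs]
    refine intervalIntegral.norm_integral_le_of_norm_le h.le
      (Filter.Eventually.of_forall fun t _ => ?_) (i4.const_mul B)
    calc ‖⟪H' (x t, t), u t - s • Q⟫‖ ≤ ‖H' (x t, t)‖ * ‖u t - s • Q‖ := norm_inner_le_norm _ _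
      _ ≤ B * ‖u t - s • Q‖ := mul_le_mul_of_nonneg_right (hbH _) (norm_nonneg _)
  have hrestK : |∫ t in a..b, K' (x t, t)| ≤ B * (b - a) := by
    have h1 := intervalIntegral.norm_integral_le_of_norm_le_const (a := a) (b := b) (C := B)
      (f := fun t : ℝ => K' (x t, t)) (fun t _ => hbK _)
    rw [Real.norm_eq_abs, abs_of_nonneg (sub_nonneg.mpr h.le)] at h1
    exact h1
  rw [intervalIntegral.integral_add i5 i6] at key
  rw [← hQ, le_div_iff₀ hs]
  have e1 : |(∫ t in a..b, V (x t) t) - ∫ t in a..b, avP (fun y => V y t) P (x t)| * s =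
      |s * ((∫ t in a..b, V (x t) t) - ∫ t in a..b, avP (fun y => V y t) P (x t))| := by
    rw [abs_mul, abs_of_pos hs, mul_comm]
  have e2 : s * ((∫ t in a..b, V (x t) t) - ∫ t in a..b, avP (fun y => V y t) P (x t)) =
      h' (x b, b) - h' (x a, a) - ((∫ t in a..b, ⟪H' (x t, t), u t - s • Q⟫) +
        ∫ t in a..b, K' (x t, t)) := by
    rw [← key, hdec]
    ring
  rw [e1, e2]
  have e3 := abs_sub (h' (x b, b) - h' (x a, a)) ((∫ t in a..b, ⟪H' (x t, t), u t - s • Q⟫) +
        ∫ t in a..b, K' (x t, t))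
  have e4 := abs_sub (h' (x b, b)) (h' (x a, a))
  have e5 := abs_add_le (∫ t in a..b, ⟪H' (x t, t), u t - s • Q⟫) (∫ t in a..b, K' (x t, t))
  linarith [hb' (x a, a), hb' (x b, b)]

end Pool.Agent.H33.AN
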