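import Pool.Agent.H33.AN.Pot
import Pool.Agent.H33.AN.P.L1
import Pool.Agent.H33.AM.P.V1
import Pool.Agent.H33.AM.P.V2
import Pool.Agent.H33.AM.P.V3
import Pool.Agent.H33.AN.P.M1a
import Pool.Agent.H33.AN.P.M1b

/-!
# Module M1: time-dependent potentials: averages

(Compare `Pool/Agent/H33/AM/P/V1.lean`, `V2*.lean`, `V3*.lean`.)
* `HV2.moving`: chain rule; the period: `V (x + (p/Q) (t + Q) m) (t + Q) = V (x + (p/Q) t m + p m) t`.
* `avP_trap2`: `h(x, t) = ∫₀¹ (τ - 1/2) V(x + τ P, t) dτ` is `C¹` with the partial derivatives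
  `H = ∫₀¹ (τ - 1/2) F(x + τ P, t) dτ`, `∫₀¹ (τ - 1/2) Vt(x + τ P, t) dτ`, `|h|, ‖H‖, |h_t| ≤ B`,
  `⟪H x t, zv P⟫ = V x t - avP (V · t) P x`. With `ũ = u - s P`:
  `(d/dt) h(x(t), t) = s (V - avP V) + ⟪H, ũ⟫ + h_t` off a countable set; integrate.
* `avP_tendsto2`: `|V x t - V x t'| ≤ B |t - t'|`, so it is enough to use `avP_tendsto` (with `P₀ = 0`) at the
  finitely many times of a fine net of `[0, T]`, `|avP g|, |avK g| ≤ sup |g|`, and the period in `t`.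
* `HW_avK`: differentiate under the integral over the cube; `d/dθ g(θ m + y - …) = ⟪F, zv m⟫`.
* `avK_moving`: by definition.
-/

set_option autoImplicit false

open MeasureTheory
open scoped RealInnerProductSpace

namespace Pool.Agent.H33.AN

open Pool.Agent.H33.AM

variable {n : ℕ}

private theorem M1c_arg_cont (k₀ m : Fin n → ℤ) (θ : ℝ) :
    Continuous fun y : EuclideanSpace ℝ (Fin n) => θ • zv m + y - ⟪zv k₀, y⟫ • zv m := by
  fun_prop

private theorem M1c_avK_intg {f : EuclideanSpace ℝ (Fin n) → ℝ} (hf : Continuous f) {B : ℝ}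
    (hB : ∀ x, |f x| ≤ B) (k₀ m : Fin n → ℤ) (θ : ℝ) :
    IntegrableOn (fun y => f (θ • zv m + y - ⟪zv k₀, y⟫ • zv m))
      {y : EuclideanSpace ℝ (Fin n) | ∀ i, y i ∈ Set.Ico (0 : ℝ) 1} := by
  refine Measure.integrableOn_of_bounded (M := B) ?_ ?_ ?_
  · rw [cube_vol]
    exact ENNReal.one_ne_top
  · exact (hf.comp (M1c_arg_cont k₀ m θ)).aestronglyMeasurable
  · exact Filter.Eventually.of_forall fun y => by
      rw [Real.norm_eq_abs]
      exact hB _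

private theorem M1c_avP_intg {f : EuclideanSpace ℝ (Fin n) → ℝ} (hf : Continuous f)
    (P : Fin n → ℤ) (x : EuclideanSpace ℝ (Fin n)) :
    IntervalIntegrable (fun t : ℝ => f (x + t • zv P)) volume 0 1 := by
  apply Continuous.intervalIntegrable
  exact hf.comp (by fun_prop)

private theorem M1c_avK_close {g f : EuclideanSpace ℝ (Fin n) → ℝ} (hg : Continuous g)
    (hf : Continuous f) {B δ : ℝ} (hgB : ∀ x, |g x| ≤ B) (hB : ∀ x, |f x| ≤ B)
    (hδ : ∀ x, |g x - f x| ≤ δ)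
    (k₀ m : Fin n → ℤ) (θ : ℝ) : |avK g k₀ m θ - avK f k₀ m θ| ≤ δ := by
  have e : avK g k₀ m θ - avK f k₀ m θ =
      ∫ y in {y : EuclideanSpace ℝ (Fin n) | ∀ i, y i ∈ Set.Ico (0 : ℝ) 1},
        (g (θ • zv m + y - ⟪zv k₀, y⟫ • zv m) - f (θ • zv m + y - ⟪zv k₀, y⟫ • zv m)) := by
    rw [avK, avK, ← integral_sub (M1c_avK_intg hg hgB k₀ m θ) (M1c_avK_intg hf hB k₀ m θ)]
  rw [e, ← Real.norm_eq_abs]
  have h := norm_setIntegral_le_of_norm_le_const
    (μ := (volume : Measure (EuclideanSpace ℝ (Fin n))))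
    (s := {y : EuclideanSpace ℝ (Fin n) | ∀ i, y i ∈ Set.Ico (0 : ℝ) 1}) (C := δ)
    (f := fun y => g (θ • zv m + y - ⟪zv k₀, y⟫ • zv m) - f (θ • zv m + y - ⟪zv k₀, y⟫ • zv m))
    (by rw [cube_vol]; exact ENNReal.one_lt_top)
    (fun y _ => by rw [Real.norm_eq_abs]; exact hδ _)
  refine h.trans (le_of_eq ?_)
  rw [Measure.real, cube_vol]
  simp

private theorem M1c_avP_close {g f : EuclideanSpace ℝ (Fin n) → ℝ} (hg : Continuous g)
    (hf : Continuous f) {δ : ℝ} (hδ : ∀ x, |g x - f x| ≤ δ) (P : Fin n → ℤ)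
    (x : EuclideanSpace ℝ (Fin n)) : |avP g P x - avP f P x| ≤ δ := by
  rw [avP, avP, ← intervalIntegral.integral_sub (M1c_avP_intg hg P x) (M1c_avP_intg hf P x),
    ← Real.norm_eq_abs]
  have h := intervalIntegral.norm_integral_le_of_norm_le_const (a := (0 : ℝ)) (b := 1) (C := δ)
    (f := fun t : ℝ => g (x + t • zv P) - f (x + t • zv P))
    (fun y _ => by rw [Real.norm_eq_abs]; exact hδ _)
  refine h.trans (le_of_eq ?_)
  simp

private theorem M1c_cont {V : EuclideanSpace ℝ (Fin n) → ℝ → ℝ}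
    {F : EuclideanSpace ℝ (Fin n) → ℝ → EuclideanSpace ℝ (Fin n)}
    {Vt : EuclideanSpace ℝ (Fin n) → ℝ → ℝ} {Tp B : ℝ} (hV : HV2 Tp V F Vt B) (t : ℝ) :
    Continuous fun y => V y t := by
  have h1 : Continuous fun z : EuclideanSpace ℝ (Fin n) × ℝ => V z.1 z.2 :=
    continuous_iff_continuousAt.mpr fun z => (hV.der z.1 z.2).continuousAt
  exact h1.comp (continuous_id.prodMk continuous_const)

private theorem M1c_lip {V : EuclideanSpace ℝ (Fin n) → ℝ → ℝ}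
    {F : EuclideanSpace ℝ (Fin n) → ℝ → EuclideanSpace ℝ (Fin n)}
    {Vt : EuclideanSpace ℝ (Fin n) → ℝ → ℝ} {Tp B : ℝ} (hV : HV2 Tp V F Vt B)
    (x : EuclideanSpace ℝ (Fin n)) (t t' : ℝ) : |V x t - V x t'| ≤ B * |t - t'| := by
  have hd : ∀ s, HasDerivAt (fun s => V x s) (Vt x s) s := by
    intro s
    have h1 : HasDerivAt (fun s : ℝ => ((x, s) : EuclideanSpace ℝ (Fin n) × ℝ))
        ((0 : EuclideanSpace ℝ (Fin n)), (1 : ℝ)) s :=
      (hasDerivAt_const s x).prodMk (hasDerivAt_id s)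
    have h2 := (hV.der x s).comp_hasDerivAt s h1
    have h3 : (fun z : EuclideanSpace ℝ (Fin n) × ℝ => V z.1 z.2) ∘
        (fun s : ℝ => ((x, s) : EuclideanSpace ℝ (Fin n) × ℝ)) = fun s => V x s := rfl
    rw [h3] at h2
    refine h2.congr_deriv ?_
    simp
  have h3 := Convex.norm_image_sub_le_of_norm_hasDerivWithin_le (f := fun s => V x s)
    (f' := fun s => Vt x s) (C := B) (s := Set.univ) (x := t') (y := t)
    (fun s _ => (hd s).hasDerivWithinAt)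
    (fun s _ => by rw [Real.norm_eq_abs]; exact hV.bdt x s) convex_univ trivial trivial
  simpa [Real.norm_eq_abs] using h3

theorem avP_tendsto2 {V : EuclideanSpace ℝ (Fin n) → ℝ → ℝ}
    {F : EuclideanSpace ℝ (Fin n) → ℝ → EuclideanSpace ℝ (Fin n)}
    {Vt : EuclideanSpace ℝ (Fin n) → ℝ → ℝ} {Tp B : ℝ} (hT : 0 < Tp) (hV : HV2 Tp V F Vt B)
    {k₀ m : Fin n → ℤ} (hkm : dot k₀ m = 1) {ε : ℝ} (hε : 0 < ε) :
    ∃ N₀ : ℕ, ∀ N ≥ N₀, ∀ x t,
      |avP (fun y => V y t) (PN k₀ m 0 N) x - avK (fun y => V y t) k₀ m ⟪zv k₀, x⟫| ≤ ε := by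
  obtain ⟨δ, hδ0, hδB⟩ : ∃ δ : ℝ, 0 < δ ∧ B * δ ≤ ε / 4 := by
    refine ⟨ε / (4 * (B + 1)), ?_, ?_⟩
    · have := hV.nonneg
      positivity
    · have hB := hV.nonneg
      rw [mul_div_assoc', div_le_div_iff₀ (by positivity) (by norm_num)]
      nlinarith
  have hg : ∀ i : ℕ, ∃ N₀ : ℕ, ∀ N ≥ N₀, ∀ x,
      |avP (fun y => V y (i * δ)) (PN k₀ m 0 N) x -
        avK (fun y => V y (i * δ)) k₀ m ⟪zv k₀, x⟫| ≤ ε / 2 := by
    intro i
    exact avP_tendsto hkm (dot_zero k₀) (M1c_cont hV _) (fun x k => hV.per x _ k) (half_pos hε)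
  choose Nf hNf using hg
  refine ⟨(Finset.range (⌊Tp / δ⌋₊ + 1)).sup Nf, ?_⟩
  intro N hN x t
  -- reduction to `0 ≤ t' < Tp`
  obtain ⟨t', ht'0, ht'T, ht'V⟩ : ∃ t' : ℝ, 0 ≤ t' ∧ t' ≤ Tp ∧ ∀ y, V y t = V y t' := by
    refine ⟨t - ⌊t / Tp⌋ * Tp, ?_, ?_, ?_⟩
    · have h1 := Int.floor_le (t / Tp)
      rw [le_div_iff₀ hT] at h1
      linarith
    · have h1 := (Int.lt_floor_add_one (t / Tp)).le
      rw [div_le_iff₀ hT] at h1
      linarith
    · intro y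
      have hp : Function.Periodic (fun s => V y s) Tp := fun s => hV.pert y s
      exact (hp.sub_int_mul_eq ⌊t / Tp⌋).symm
  have hfun : (fun y => V y t) = fun y => V y t' := funext ht'V
  rw [hfun]
  -- the net
  obtain ⟨i, hi1, hi2⟩ : ∃ i : ℕ, i ≤ ⌊Tp / δ⌋₊ ∧ |t' - i * δ| ≤ δ := by
    refine ⟨⌊t' / δ⌋₊, ?_, ?_⟩
    · apply Nat.floor_le_floor
      exact div_le_div_of_nonneg_right ht'T hδ0.le
    · have h1 := Nat.floor_le (div_nonneg ht'0 hδ0.le)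
      have h2 := (Nat.lt_floor_add_one (t' / δ)).le
      rw [le_div_iff₀ hδ0] at h1
      rw [div_le_iff₀ hδ0] at h2
      rw [abs_le]
      constructor <;> linarith
  have hNi : Nf i ≤ N := (Finset.le_sup (Finset.mem_range.mpr (Nat.lt_succ_of_le hi1))).trans hN
  have h0 := hNf i N hNi x
  have hcl : ∀ y, |V y t' - V y (i * δ)| ≤ ε / 4 := by
    intro y
    refine (M1c_lip hV y _ _).trans ?_
    exact (mul_le_mul_of_nonneg_left hi2 hV.nonneg).trans hδB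
  have h1 := M1c_avP_close (M1c_cont hV t') (M1c_cont hV (i * δ)) hcl (PN k₀ m 0 N) x
  have h2 := M1c_avK_close (M1c_cont hV t') (M1c_cont hV (i * δ)) (fun y => hV.bd y _)
    (fun y => hV.bd y _) hcl k₀ m ⟪zv k₀, x⟫
  rw [abs_le] at h0 h1 h2 ⊢
  constructor
  · linarith [h0.1, h1.1, h2.2]
  · linarith [h0.2, h1.2, h2.1]

end Pool.Agent.H33.AN
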