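import Pool.Agent.H33.AN.Pot
import Pool.Agent.H33.AN.P.L1
import Pool.Agent.H33.AM.P.V1
import Pool.Agent.H33.AM.P.V2
import Pool.Agent.H33.AM.P.V3
import Pool.Agent.H33.AN.P.M1a
import Pool.Agent.H33.AN.P.M1b
import Pool.Agent.H33.AN.P.M1c

/-!
# Module M1: time-dependent potentials: averages

(Compare `Pool/Agent/H33/AM/P/V1.lean`, `V2*.lean`, `V3*.lean`.)
* `HV2.moving`: chain rule; the period: `V (x + (p/Q) (t + Q) m) (t + Q) = V (x + (p/Q) t m + p m) t`.
* `avP_trap2`: `h(x, t) = ∫₀¹ (τ - 1/2) V(x + τ P, t) dτ` is `C¹` with the partial derivatives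
  `H = ∫₀¹ (τ - 1/2) F(x + τ P, t) dτ`, `∫₀¹ (τ - 1/2) Vt(x + τ P, t) dτ`, `|h|, ‖H‖, |h_t| ≤ B`,
  `⟪H x t, zv P⟫ = V x t - avP (V · t) P x`. With `ũ = u - s P`:
  `(d/dt) h(x(t), t) = s (V - avP V) + ⟪H, ũ⟫ + h_t` off a countable set; integrate.
* `avP_tendsto2`: `|V x t - V x t'| ≤ B |t - t'|`, so it is enough to use `avP_tendsto` (with `P₀ = 0`) at the
  finitely many times of a fine net of `[0, T]`, `|avP g|, |avK g| ≤ sup |g|`, and the period in `t`.
* `HW_avK`: differentiate under the integral over the cube; `d/dθ g(θ m + y - …) = ⟪F, zv m⟫`.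
* `avK_moving`: by definition.
-/

set_option autoImplicit false

open MeasureTheory
open scoped RealInnerProductSpace

namespace Pool.Agent.H33.AN

open Pool.Agent.H33.AM

variable {n : ℕ}

/-- the point of the average -/
private noncomputable def M1d_z (k₀ m : Fin n → ℤ) (θ : ℝ) (y : EuclideanSpace ℝ (Fin n)) :
    EuclideanSpace ℝ (Fin n) := θ • zv m + y - ⟪zv k₀, y⟫ • zv m

/-- the measure of the average -/
private noncomputable def M1d_mu (n : ℕ) : Measure (EuclideanSpace ℝ (Fin n)) :=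
  volume.restrict {y : EuclideanSpace ℝ (Fin n) | ∀ i, y i ∈ Set.Ico (0 : ℝ) 1}

private instance M1d_prob : IsProbabilityMeasure (M1d_mu n) :=
  ⟨by rw [M1d_mu, Measure.restrict_apply_univ, cube_vol]⟩

private theorem M1d_eq (g : EuclideanSpace ℝ (Fin n) → ℝ) (k₀ m : Fin n → ℤ) (θ : ℝ) :
    avK g k₀ m θ = ∫ y, g (M1d_z k₀ m θ y) ∂(M1d_mu n) := rfl

private theorem M1d_zc (k₀ m : Fin n → ℤ) :
    Continuous fun p : ℝ × EuclideanSpace ℝ (Fin n) => M1d_z k₀ m p.1 p.2 := by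
  unfold M1d_z
  fun_prop

private theorem M1d_bd {g : EuclideanSpace ℝ (Fin n) → ℝ} {C : ℝ} (h : ∀ x, |g x| ≤ C)
    (k₀ m : Fin n → ℤ) (θ : ℝ) : |avK g k₀ m θ| ≤ C := by
  rw [M1d_eq, ← Real.norm_eq_abs]
  have h1 := norm_integral_le_of_norm_le_const (μ := M1d_mu n) (C := C)
    (f := fun y => g (M1d_z k₀ m θ y)) (Filter.Eventually.of_forall fun y => by
      rw [Real.norm_eq_abs]
      exact h _)
  rw [probReal_univ, mul_one] at h1
  exact h1

private theorem M1d_int {f : EuclideanSpace ℝ (Fin n) → ℝ} (hf : Continuous f) {C : ℝ}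
    (hC : ∀ y, |f y| ≤ C) : Integrable f (M1d_mu n) :=
  Integrable.of_bound hf.aestronglyMeasurable C (Filter.Eventually.of_forall fun y => by
    rw [Real.norm_eq_abs]
    exact hC y)

section
variable {V : EuclideanSpace ℝ (Fin n) → ℝ → ℝ}
  {F : EuclideanSpace ℝ (Fin n) → ℝ → EuclideanSpace ℝ (Fin n)}
  {Vt : EuclideanSpace ℝ (Fin n) → ℝ → ℝ} {Tp B : ℝ}

private theorem M1d_Vc (hV : HV2 Tp V F Vt B) :
    Continuous fun z : EuclideanSpace ℝ (Fin n) × ℝ => V z.1 z.2 :=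
  continuous_iff_continuousAt.mpr fun z => (hV.der z.1 z.2).continuousAt

private theorem M1d_Fc (hV : HV2 Tp V F Vt B) :
    Continuous fun z : EuclideanSpace ℝ (Fin n) × ℝ => F z.1 z.2 := by
  have h : LipschitzWith ⟨2 * B, by have := hV.nonneg; positivity⟩
      (fun z : EuclideanSpace ℝ (Fin n) × ℝ => F z.1 z.2) := by
    refine LipschitzWith.of_dist_le_mul fun z w => ?_
    rw [dist_eq_norm, dist_eq_norm]
    have h1 := hV.lip z.1 z.2 w.1 w.2
    have h2 : ‖z.1 - w.1‖ ≤ ‖z - w‖ := norm_fst_le (z - w)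
    have h3 : |z.2 - w.2| ≤ ‖z - w‖ := norm_snd_le (z - w)
    have h4 : B * (‖z.1 - w.1‖ + |z.2 - w.2|) ≤ B * (‖z - w‖ + ‖z - w‖) :=
      mul_le_mul_of_nonneg_left (add_le_add h2 h3) hV.nonneg
    show ‖F z.1 z.2 - F w.1 w.2‖ ≤ 2 * B * ‖z - w‖
    linarith
  exact h.continuous

private theorem M1d_F1 (hV : HV2 Tp V F Vt B) (m : Fin n → ℤ) (x : EuclideanSpace ℝ (Fin n))
    (t : ℝ) : |⟪F x t, zv m⟫| ≤ B * ‖zv m‖ :=
  (abs_real_inner_le_norm _ _).trans (mul_le_mul_of_nonneg_right (hV.bdF x t) (norm_nonneg _))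

private theorem M1d_der (hV : HV2 Tp V F Vt B) (k₀ m : Fin n → ℤ) (x t : ℝ) :
    HasFDerivAt (fun z : ℝ × ℝ => avK (fun y => V y z.2) k₀ m z.1)
      (avK (fun y => ⟪F y t, zv m⟫) k₀ m x • ContinuousLinearMap.fst ℝ ℝ ℝ +
        avK (fun y => Vt y t) k₀ m x • ContinuousLinearMap.snd ℝ ℝ ℝ) (x, t) := by
  obtain ⟨D, hD⟩ : ∃ D : ℝ × ℝ → EuclideanSpace ℝ (Fin n) → (ℝ × ℝ →L[ℝ] ℝ),
    D = fun p y => ⟪F (M1d_z k₀ m p.1 y) p.2, zv m⟫ • ContinuousLinearMap.fst ℝ ℝ ℝ +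
      Vt (M1d_z k₀ m p.1 y) p.2 • ContinuousLinearMap.snd ℝ ℝ ℝ := ⟨_, rfl⟩
  have hzc : ∀ θ : ℝ, Continuous fun y => M1d_z k₀ m θ y := fun θ =>
    (M1d_zc k₀ m).comp (continuous_const.prodMk continuous_id)
  have hVc : ∀ p : ℝ × ℝ, Continuous fun y => V (M1d_z k₀ m p.1 y) p.2 := fun p =>
    (M1d_Vc hV).comp ((hzc p.1).prodMk continuous_const)
  have hFc : Continuous fun y => ⟪F (M1d_z k₀ m x y) t, zv m⟫ :=
    ((M1d_Fc hV).comp ((hzc x).prodMk continuous_const)).inner continuous_const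
  have hVtc : Continuous fun y => Vt (M1d_z k₀ m x y) t :=
    hV.contt.comp ((hzc x).prodMk continuous_const)
  have h1 := hasFDerivAt_integral_of_dominated_of_fderiv_le (μ := M1d_mu n) (s := Set.univ)
    (x₀ := (x, t)) (bound := fun _ => B * ‖zv m‖ + B)
    (F := fun p y => V (M1d_z k₀ m p.1 y) p.2) (F' := D) Filter.univ_mem
    (Filter.Eventually.of_forall fun p => (hVc p).aestronglyMeasurable)
    (M1d_int (hVc (x, t)) fun y => hV.bd _ _)
    (by
      rw [hD]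
      exact ((hFc.smul continuous_const).add (hVtc.smul continuous_const)).aestronglyMeasurable)
    (Filter.Eventually.of_forall fun y p _ => by
      rw [hD]
      refine (norm_add_le _ _).trans (add_le_add ?_ ?_)
      · rw [norm_smul, Real.norm_eq_abs]
        calc |⟪F (M1d_z k₀ m p.1 y) p.2, zv m⟫| * ‖ContinuousLinearMap.fst ℝ ℝ ℝ‖ ≤
              B * ‖zv m‖ * 1 := mul_le_mul (M1d_F1 hV m _ _)
                (ContinuousLinearMap.norm_fst_le ℝ ℝ ℝ) (norm_nonneg _)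
                (mul_nonneg hV.nonneg (norm_nonneg _))
          _ = B * ‖zv m‖ := mul_one _
      · rw [norm_smul, Real.norm_eq_abs]
        calc |Vt (M1d_z k₀ m p.1 y) p.2| * ‖ContinuousLinearMap.snd ℝ ℝ ℝ‖ ≤
              B * 1 := mul_le_mul (hV.bdt _ _)
                (ContinuousLinearMap.norm_snd_le ℝ ℝ ℝ) (norm_nonneg _) hV.nonneg
          _ = B := mul_one _)
    (integrable_const _)
    (Filter.Eventually.of_forall fun y p _ => by
      have h2 : HasFDerivAt (fun q : ℝ × ℝ => (M1d_z k₀ m q.1 y, q.2))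
          (((ContinuousLinearMap.fst ℝ ℝ ℝ).smulRight (zv m)).prod
            (ContinuousLinearMap.snd ℝ ℝ ℝ)) p := by
        refine HasFDerivAt.prodMk ?_ hasFDerivAt_snd
        have h3 : HasFDerivAt (fun q : ℝ × ℝ => q.1 • zv m)
            ((ContinuousLinearMap.fst ℝ ℝ ℝ).smulRight (zv m)) p :=
          (hasFDerivAt_fst (𝕜 := ℝ) (E := ℝ) (F := ℝ) (p := p)).smul_const (zv m)
        exact (h3.add_const y).sub_const _
      have h4 := (hV.der (M1d_z k₀ m p.1 y) p.2).comp p h2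
      refine h4.congr_fderiv ?_
      rw [hD]
      refine ContinuousLinearMap.ext fun v => ?_
      simp
      ring)
  have h5 : (∫ y, D (x, t) y ∂(M1d_mu n)) =
      avK (fun y => ⟪F y t, zv m⟫) k₀ m x • ContinuousLinearMap.fst ℝ ℝ ℝ +
        avK (fun y => Vt y t) k₀ m x • ContinuousLinearMap.snd ℝ ℝ ℝ := by
    rw [hD]
    have i1 : Integrable (fun y => ⟪F (M1d_z k₀ m x y) t, zv m⟫) (M1d_mu n) :=
      M1d_int hFc fun y => M1d_F1 hV m _ _
    have i2 : Integrable (fun y => Vt (M1d_z k₀ m x y) t) (M1d_mu n) :=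
      M1d_int hVtc fun y => hV.bdt _ _
    rw [integral_add (i1.smul_const _) (i2.smul_const _), integral_smul_const,
      integral_smul_const]
    rfl
  rw [h5] at h1
  exact h1

private theorem M1d_c2 (hV : HV2 Tp V F Vt B) (k₀ m : Fin n → ℤ) :
    Continuous fun z : ℝ × ℝ => avK (fun y => Vt y z.2) k₀ m z.1 := by
  refine continuous_of_dominated (μ := M1d_mu n) (bound := fun _ => B)
    (F := fun (z : ℝ × ℝ) y => Vt (M1d_z k₀ m z.1 y) z.2) (fun z => ?_) (fun z => ?_)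
    (integrable_const _) ?_
  · exact (hV.contt.comp (((M1d_zc k₀ m).comp (continuous_const.prodMk continuous_id)).prodMk
      continuous_const)).aestronglyMeasurable
  · exact Filter.Eventually.of_forall fun y => by
      rw [Real.norm_eq_abs]
      exact hV.bdt _ _
  · exact Filter.Eventually.of_forall fun y => hV.contt.comp
      (((M1d_zc k₀ m).comp (continuous_fst.prodMk continuous_const)).prodMk continuous_snd)

private theorem M1d_lip (hV : HV2 Tp V F Vt B) (k₀ m : Fin n → ℤ) (x t x' t' : ℝ) :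
    |avK (fun y => ⟪F y t, zv m⟫) k₀ m x - avK (fun y => ⟪F y t', zv m⟫) k₀ m x'| ≤
      B * (|x - x'| * ‖zv m‖ + |t - t'|) * ‖zv m‖ := by
  have hc : ∀ x t, Continuous fun y => ⟪F (M1d_z k₀ m x y) t, zv m⟫ := fun x t =>
    ((M1d_Fc hV).comp ((((M1d_zc k₀ m).comp (continuous_const.prodMk continuous_id))).prodMk
      continuous_const)).inner continuous_const
  have hi : ∀ x t, Integrable (fun y => ⟪F (M1d_z k₀ m x y) t, zv m⟫) (M1d_mu n) := fun x t =>
    M1d_int (hc x t) fun y => M1d_F1 hV m _ _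
  rw [M1d_eq, M1d_eq, ← integral_sub (hi x t) (hi x' t'), ← Real.norm_eq_abs]
  have h1 := norm_integral_le_of_norm_le_const (μ := M1d_mu n)
    (C := B * (|x - x'| * ‖zv m‖ + |t - t'|) * ‖zv m‖)
    (f := fun y => ⟪F (M1d_z k₀ m x y) t, zv m⟫ - ⟪F (M1d_z k₀ m x' y) t', zv m⟫)
    (Filter.Eventually.of_forall fun y => by
      rw [Real.norm_eq_abs, ← inner_sub_left]
      refine (abs_real_inner_le_norm _ _).trans
        (mul_le_mul_of_nonneg_right ((hV.lip _ _ _ _).trans (le_of_eq ?_)) (norm_nonneg _))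
      have h2 : M1d_z k₀ m x y - M1d_z k₀ m x' y = (x - x') • zv m := by
        unfold M1d_z
        rw [sub_smul]
        abel
      rw [h2, norm_smul, Real.norm_eq_abs])
  rw [probReal_univ, mul_one] at h1
  exact h1

end

theorem HW_avK {V : EuclideanSpace ℝ (Fin n) → ℝ → ℝ}
    {F : EuclideanSpace ℝ (Fin n) → ℝ → EuclideanSpace ℝ (Fin n)}
    {Vt : EuclideanSpace ℝ (Fin n) → ℝ → ℝ} {Tp B : ℝ} (hV : HV2 Tp V F Vt B)
    {k₀ m : Fin n → ℤ} (hkm : dot k₀ m = 1) {M : ℝ} (hM : 0 < M) :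
    ∃ B' : ℝ, HW Tp (fun θ t => avK (fun y => V y t) k₀ m θ / M)
      (fun θ t => avK (fun y => ⟪F y t, zv m⟫) k₀ m θ / M)
      (fun θ t => avK (fun y => Vt y t) k₀ m θ / M) B' := by
  obtain ⟨N, hN⟩ : ∃ N : ℝ, N = ‖zv m‖ := ⟨_, rfl⟩
  have hN0 : 0 ≤ N := by
    rw [hN]
    exact norm_nonneg _
  have hB := hV.nonneg
  have hle1 : B ≤ B * (1 + N) ^ 2 := le_mul_of_one_le_right hB (one_le_pow₀ (by linarith))
  have hle2 : B * N ≤ B * (1 + N) ^ 2 := mul_le_mul_of_nonneg_left (by nlinarith) hB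
  have hdiv : ∀ a C : ℝ, |a| ≤ C → |a / M| ≤ C / M := by
    intro a C h
    rw [abs_div, abs_of_pos hM]
    exact div_le_div_of_nonneg_right h hM.le
  refine ⟨B * (1 + N) ^ 2 / M, ⟨by positivity, ?_, ?_, ?_, ?_, ?_, ?_, ?_, ?_⟩⟩
  · intro x t
    have h1 := (M1d_der hV k₀ m x t).const_mul M⁻¹
    have e1 : (fun z : ℝ × ℝ => M⁻¹ * avK (fun y => V y z.2) k₀ m z.1) =
        fun z : ℝ × ℝ => avK (fun y => V y z.2) k₀ m z.1 / M := by
      funext z
      rw [div_eq_inv_mul]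
    rw [e1] at h1
    refine h1.congr_fderiv ?_
    rw [smul_add, smul_smul, smul_smul, div_eq_inv_mul, div_eq_inv_mul]
  · exact (M1d_c2 hV k₀ m).div_const M
  · intro x t
    show avK (fun y => V y t) k₀ m (x + 1) / M = avK (fun y => V y t) k₀ m x / M
    rw [avK_per (g := fun y => V y t) (fun y k => hV.per y t k)]
  · intro x t
    show avK (fun y => V y (t + Tp)) k₀ m x / M = avK (fun y => V y t) k₀ m x / M
    have h1 : (fun y => V y (t + Tp)) = fun y => V y t := funext fun y => hV.pert y t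
    rw [h1]
  · intro x t
    exact (hdiv _ _ (M1d_bd (fun y => hV.bd y t) k₀ m x)).trans
      (div_le_div_of_nonneg_right hle1 hM.le)
  · intro x t
    refine (hdiv _ _ (M1d_bd (fun y => M1d_F1 hV m y t) k₀ m x)).trans
      (div_le_div_of_nonneg_right ?_ hM.le)
    rw [← hN]
    exact hle2
  · intro x t
    exact (hdiv _ _ (M1d_bd (fun y => hV.bdt y t) k₀ m x)).trans
      (div_le_div_of_nonneg_right hle1 hM.le)
  · intro x t x' t'
    show |avK (fun y => ⟪F y t, zv m⟫) k₀ m x / M - avK (fun y => ⟪F y t', zv m⟫) k₀ m x' / M| ≤ _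
    rw [← sub_div]
    refine (hdiv _ _ (M1d_lip hV k₀ m x t x' t')).trans ?_
    rw [div_mul_eq_mul_div]
    refine div_le_div_of_nonneg_right ?_ hM.le
    rw [← hN]
    have ha := abs_nonneg (x - x')
    have hb := abs_nonneg (t - t')
    have h3 : (|x - x'| * N + |t - t'|) * N ≤ (1 + N) ^ 2 * (|x - x'| + |t - t'|) := by
      have h4 : 0 ≤ |x - x'| * (1 + 2 * N) := by positivity
      have h5 : 0 ≤ |t - t'| * (1 + N + N ^ 2) := by positivity
      nlinarith
    calc B * (|x - x'| * N + |t - t'|) * N = B * ((|x - x'| * N + |t - t'|) * N) := by ring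
      _ ≤ B * ((1 + N) ^ 2 * (|x - x'| + |t - t'|)) := mul_le_mul_of_nonneg_left h3 hB
      _ = B * (1 + N) ^ 2 * (|x - x'| + |t - t'|) := by ring

theorem avK_moving (g : EuclideanSpace ℝ (Fin n) → ℝ) (k₀ m : Fin n → ℤ) (r θ : ℝ) :
    avK (fun y => g (y + r • zv m)) k₀ m θ = avK g k₀ m (θ + r) := by
  have h : ∀ y, θ • zv m + y - ⟪zv k₀, y⟫ • zv m + r • zv m =
      (θ + r) • zv m + y - ⟪zv k₀, y⟫ • zv m := by
    intro y
    rw [add_smul]
    abel
  unfold avK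
  simp only [h]

end Pool.Agent.H33.AN
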