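import Pool.Agent.H33.AN.Pot
import Pool.Agent.H33.AN.P.L1
import Pool.Agent.H33.AN.P.M1

/-!
# Module M4: trapping data exist

* `kin_exists`: `G` is invertible (positive definite, finite dimension), `e₁ = G⁻¹ (zv k₀)`,
  `⟪zv k₀, e₁⟫ = ⟪G e₁, e₁⟫ > 0`, `e₀ = e₁ / ⟪zv k₀, e₁⟫`, `M = 1 / ⟪zv k₀, e₁⟫`, so `G e₀ = M • zv k₀`; for
  `v = y • e₀ + z`, `y = ⟪zv k₀, v⟫`, `⟪zv k₀, z⟫ = 0`, expand `⟪G v, v⟫`.
* `trap2_exists`: `r = p / Q`, `V' x t = V (x + (r t) • zv m) t` (`HV2.moving`, constant `B'`),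
  `w x t = avK (V · t) k₀ m (x + r t) / M = avK (V' · t) k₀ m x / M` (`avK_moving`),
  `C₅ = B + M |E₁| / Q ≥ |M w + M E₁ / Q|`. Choose `0 < δ' ≤ δ₀` with `δ' C₅ ≤ δ₀ / 4`, `ε = δ₀ / 8`, `N` from
  `avP_tendsto2` for `V'`, `P = PN k₀ m 0 N`, `s` large. Let `ũ = u - q`, `q = s • zv P`,
  `y = ⟪zv k₀, u⟫ = ⟪zv k₀, ũ⟫` (`dot k₀ P = 0`), `z = ũ - y • e₀`. Then `⟪G ũ, ũ⟫ = M y² + ⟪G z, z⟫`,
  `|∫ V'(x, t) - ∫ M w(θ, t)| ≤ (2 B' + B' (b - a) + B' ∫ ‖ũ‖) / s + ε (b - a)`; for `lo` use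
  `(B'/s) ‖ũ‖ ≤ (B'/s) (|y| ‖e₀‖ + ‖z‖) ≤ M δ'/2 y² + (B' ‖e₀‖/s)²/(2 M δ') + κ₁/2 ‖z‖² + (B'/s)²/(2 κ₁)` and
  `M (1 - δ')/2 ∫ y² - ∫ M w - (M E₁/Q) (b - a) = M (1 - δ') c1 - δ' ∫ (M w + M E₁/Q)`.
-/

set_option autoImplicit false

open MeasureTheory
open scoped RealInnerProductSpace

namespace Pool.Agent.H33.AN

open Pool.Agent.H33.AM

variable {n : ℕ} {G : EuclideanSpace ℝ (Fin n) →L[ℝ] EuclideanSpace ℝ (Fin n)} {κ₁ κ₂ : ℝ}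

private theorem M4a_zv_ne {k₀ m : Fin n → ℤ} (hkm : dot k₀ m = 1) :
    (zv k₀ : EuclideanSpace ℝ (Fin n)) ≠ 0 := by
  intro h
  have h1 : ∀ i, k₀ i = 0 := by
    intro i
    have h2 : (zv k₀ : EuclideanSpace ℝ (Fin n)) i = 0 := by rw [h]; rfl
    have h3 : ((k₀ i : ℤ) : ℝ) = 0 := h2
    exact_mod_cast h3
  unfold dot at hkm
  rw [Finset.sum_eq_zero (fun i _ => by rw [h1 i, zero_mul])] at hkm
  exact absurd hkm (by norm_num)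

private theorem M4a_surj (hG : HG G κ₁ κ₂) : Function.Surjective G := by
  have hinj : Function.Injective (G : EuclideanSpace ℝ (Fin n) →ₗ[ℝ] EuclideanSpace ℝ (Fin n)) := by
    rw [injective_iff_map_eq_zero]
    intro v hv
    have hv' : G v = 0 := hv
    have h1 := hG.lo v
    rw [hv', inner_zero_left] at h1
    have h2 : ‖v‖ ^ 2 = 0 := by
      have h3 : 0 ≤ ‖v‖ ^ 2 := by positivity
      nlinarith [hG.pos]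
    exact norm_eq_zero.1 (pow_eq_zero_iff (two_ne_zero) |>.1 h2)
  exact LinearMap.injective_iff_surjective.1 hinj

theorem kin_exists (hG : HG G κ₁ κ₂) {k₀ m : Fin n → ℤ} (hkm : dot k₀ m = 1) :
    ∃ (e₀ : EuclideanSpace ℝ (Fin n)) (M : ℝ), 0 < M ∧ ⟪zv k₀, e₀⟫ = 1 ∧
      ∀ v, ⟪G v, v⟫ = M * ⟪zv k₀, v⟫ ^ 2 +
        ⟪G (v - ⟪zv k₀, v⟫ • e₀), v - ⟪zv k₀, v⟫ • e₀⟫ := by
  obtain ⟨e₁, he₁⟩ := M4a_surj hG (zv k₀)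
  have he0 : e₁ ≠ 0 := by
    rintro rfl
    rw [map_zero] at he₁
    exact M4a_zv_ne hkm he₁.symm
  obtain ⟨c, hc⟩ : ∃ c : ℝ, c = ⟪zv k₀, e₁⟫ := ⟨_, rfl⟩
  have hc0 : 0 < c := by
    rw [hc, ← he₁]
    have h1 := hG.lo e₁
    have h2 : 0 < ‖e₁‖ := norm_pos_iff.2 he0
    have h3 : 0 < κ₁ * ‖e₁‖ ^ 2 := mul_pos hG.pos (by positivity)
    linarith
  have hGe : G (c⁻¹ • e₁) = c⁻¹ • zv k₀ := by rw [map_smul, he₁]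
  have hke : ⟪zv k₀, c⁻¹ • e₁⟫ = 1 := by
    rw [real_inner_smul_right, ← hc]
    exact inv_mul_cancel₀ hc0.ne'
  refine ⟨c⁻¹ • e₁, c⁻¹, inv_pos.2 hc0, hke, fun v => ?_⟩
  obtain ⟨e₀, he⟩ : ∃ e₀ : EuclideanSpace ℝ (Fin n), e₀ = c⁻¹ • e₁ := ⟨_, rfl⟩
  rw [← he] at hGe hke ⊢
  obtain ⟨y, hy⟩ : ∃ y : ℝ, y = ⟪zv k₀, v⟫ := ⟨_, rfl⟩
  obtain ⟨z, hz⟩ : ∃ z : EuclideanSpace ℝ (Fin n), z = v - y • e₀ := ⟨_, rfl⟩
  rw [← hy, ← hz]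
  have hkz : ⟪zv k₀, z⟫ = 0 := by
    rw [hz, inner_sub_right, real_inner_smul_right, hke, ← hy]
    ring
  have hv : v = y • e₀ + z := by rw [hz]; abel
  have h1 : ⟪G e₀, z⟫ = 0 := by rw [hGe, real_inner_smul_left, hkz, mul_zero]
  have h2 : ⟪G z, e₀⟫ = 0 := by
    rw [hG.symm, hGe, real_inner_smul_right, real_inner_comm, hkz, mul_zero]
  have h3 : ⟪G e₀, e₀⟫ = c⁻¹ := by rw [hGe, real_inner_smul_left, hke, mul_one]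
  rw [hv, map_add, map_smul, inner_add_left, inner_add_right, inner_add_right,
    real_inner_smul_left, real_inner_smul_left, real_inner_smul_right, real_inner_smul_right,
    h1, h2, h3]
  ring

end Pool.Agent.H33.AN
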