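import Pool.Agent.H33.AN.Pot
import Pool.Agent.H33.AN.P.L1
import Pool.Agent.H33.AN.P.M1
import Pool.Agent.H33.AN.P.M4a

/-!
# Module M4: trapping data exist

* `kin_exists`: `G` is invertible (positive definite, finite dimension), `e₁ = G⁻¹ (zv k₀)`,
  `⟪zv k₀, e₁⟫ = ⟪G e₁, e₁⟫ > 0`, `e₀ = e₁ / ⟪zv k₀, e₁⟫`, `M = 1 / ⟪zv k₀, e₁⟫`, so `G e₀ = M • zv k₀`; for
  `v = y • e₀ + z`, `y = ⟪zv k₀, v⟫`, `⟪zv k₀, z⟫ = 0`, expand `⟪G v, v⟫`.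
* `trap2_exists`: `r = p / Q`, `V' x t = V (x + (r t) • zv m) t` (`HV2.moving`, constant `B'`),
  `w x t = avK (V · t) k₀ m (x + r t) / M = avK (V' · t) k₀ m x / M` (`avK_moving`),
  `C₅ = B + M |E₁| / Q ≥ |M w + M E₁ / Q|`. Choose `0 < δ' ≤ δ₀` with `δ' C₅ ≤ δ₀ / 4`, `ε = δ₀ / 8`, `N` from
  `avP_tendsto2` for `V'`, `P = PN k₀ m 0 N`, `s` large. Let `ũ = u - q`, `q = s • zv P`,
  `y = ⟪zv k₀, u⟫ = ⟪zv k₀, ũ⟫` (`dot k₀ P = 0`), `z = ũ - y • e₀`. Then `⟪G ũ, ũ⟫ = M y² + ⟪G z, z⟫`,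
  `|∫ V'(x, t) - ∫ M w(θ, t)| ≤ (2 B' + B' (b - a) + B' ∫ ‖ũ‖) / s + ε (b - a)`; for `lo` use
  `(B'/s) ‖ũ‖ ≤ (B'/s) (|y| ‖e₀‖ + ‖z‖) ≤ M δ'/2 y² + (B' ‖e₀‖/s)²/(2 M δ') + κ₁/2 ‖z‖² + (B'/s)²/(2 κ₁)` and
  `M (1 - δ')/2 ∫ y² - ∫ M w - (M E₁/Q) (b - a) = M (1 - δ') c1 - δ' ∫ (M w + M E₁/Q)`.
-/

set_option autoImplicit false

open MeasureTheory
open scoped RealInnerProductSpace

namespace Pool.Agent.H33.AN

open Pool.Agent.H33.AM

variable {n : ℕ} {G : EuclideanSpace ℝ (Fin n) →L[ℝ] EuclideanSpace ℝ (Fin n)} {κ₁ κ₂ : ℝ}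

private theorem M4b_contV {Tp : ℝ} {V : EuclideanSpace ℝ (Fin n) → ℝ → ℝ}
    {F : EuclideanSpace ℝ (Fin n) → ℝ → EuclideanSpace ℝ (Fin n)}
    {Vt : EuclideanSpace ℝ (Fin n) → ℝ → ℝ} {B : ℝ} (hV : HV2 Tp V F Vt B) :
    Continuous fun z : EuclideanSpace ℝ (Fin n) × ℝ => V z.1 z.2 :=
  continuous_iff_continuousAt.mpr fun z => (hV.der z.1 z.2).continuousAt

private theorem M4b_contW {Tp : ℝ} {W W₁ W₂ : ℝ → ℝ → ℝ} {B : ℝ} (hW : HW Tp W W₁ W₂ B) :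
    Continuous fun z : ℝ × ℝ => W z.1 z.2 :=
  continuous_iff_continuousAt.mpr fun z => (hW.der z.1 z.2).continuousAt

private theorem M4b_contP {V : EuclideanSpace ℝ (Fin n) → ℝ → ℝ}
    (hV : Continuous fun z : EuclideanSpace ℝ (Fin n) × ℝ => V z.1 z.2) (P : Fin n → ℤ) :
    Continuous fun z : EuclideanSpace ℝ (Fin n) × ℝ => avP (fun y => V y z.2) P z.1 := by
  have h : Continuous fun z : EuclideanSpace ℝ (Fin n) × ℝ =>
      ∫ τ in (0 : ℝ)..1, V (z.1 + τ • zv P) z.2 :=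
    intervalIntegral.continuous_parametric_intervalIntegral_of_continuous'
      (f := fun (z : EuclideanSpace ℝ (Fin n) × ℝ) (τ : ℝ) => V (z.1 + τ • zv P) z.2)
      (hV.comp (((continuous_fst.comp continuous_fst).add
        (continuous_snd.smul continuous_const)).prodMk (continuous_snd.comp continuous_fst))) 0 1
  exact h

private theorem M4b_eta {δ₀ A K e : ℝ} (hδ : 0 < δ₀) (hA : 0 < A) (hK : 0 < K) :
    ∃ η : ℝ, 0 < η ∧ η ≤ δ₀ / 8 ∧ (η * e) ^ 2 / A ≤ δ₀ / 16 ∧ η ^ 2 / K ≤ δ₀ / 16 := by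
  have h1 : 0 < δ₀ / 16 * A / (e ^ 2 + 1) := by positivity
  have h2 : 0 < δ₀ / 16 * K := by positivity
  have h3 : 0 < δ₀ / 8 := by positivity
  set η : ℝ := min 1 (min (δ₀ / 8) (min (δ₀ / 16 * A / (e ^ 2 + 1)) (δ₀ / 16 * K))) with hη
  have h0 : 0 < η := lt_min one_pos (lt_min h3 (lt_min h1 h2))
  have e1 : η ≤ 1 := min_le_left _ _
  have e2 : η ≤ δ₀ / 8 := (min_le_right _ _).trans (min_le_left _ _)
  have e3 : η ≤ δ₀ / 16 * A / (e ^ 2 + 1) :=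
    (min_le_right _ _).trans ((min_le_right _ _).trans (min_le_left _ _))
  have e4 : η ≤ δ₀ / 16 * K :=
    (min_le_right _ _).trans ((min_le_right _ _).trans (min_le_right _ _))
  refine ⟨η, h0, e2, ?_, ?_⟩
  · rw [div_le_iff₀ hA]
    rw [le_div_iff₀ (by positivity)] at e3
    have e5 : η ^ 2 ≤ η := by nlinarith
    calc (η * e) ^ 2 = η ^ 2 * e ^ 2 := by ring
      _ ≤ η * (e ^ 2 + 1) := by nlinarith [sq_nonneg e]
      _ ≤ _ := e3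
  · rw [div_le_iff₀ hK]
    nlinarith

private theorem M4b_amgm {β A K e y z : ℝ} (hA : 0 < A) (hK : 0 < K) :
    β * (|y| * e + z) ≤ A / 4 * y ^ 2 + K / 4 * z ^ 2 + ((β * e) ^ 2 / A + β ^ 2 / K) := by
  have h1 : β * e * |y| ≤ A / 4 * y ^ 2 + (β * e) ^ 2 / A := by
    have h2 : 0 ≤ (A / 2 * |y| - β * e) ^ 2 / A := by positivity
    have h3 : (A / 2 * |y| - β * e) ^ 2 / A = A / 4 * |y| ^ 2 - β * e * |y| + (β * e) ^ 2 / A := by
      field_simp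
      ring
    rw [h3, sq_abs] at h2
    linarith
  have h4 : β * z ≤ K / 4 * z ^ 2 + β ^ 2 / K := by
    have h2 : 0 ≤ (K / 2 * z - β) ^ 2 / K := by positivity
    have h3 : (K / 2 * z - β) ^ 2 / K = K / 4 * z ^ 2 - β * z + β ^ 2 / K := by
      field_simp
      ring
    rw [h3] at h2
    linarith
  nlinarith

/-- The estimates along one curve. -/
private theorem M4b_curve (hG : HG G κ₁ κ₂) {V' : EuclideanSpace ℝ (Fin n) → ℝ → ℝ}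
    {F' : EuclideanSpace ℝ (Fin n) → ℝ → EuclideanSpace ℝ (Fin n)}
    {Vt' : EuclideanSpace ℝ (Fin n) → ℝ → ℝ} {B' Tp : ℝ} (hV' : HV2 Tp V' F' Vt' B')
    {k₀ : Fin n → ℤ} {e₀ : EuclideanSpace ℝ (Fin n)} {M : ℝ} (hM : 0 < M)
    (hkin : ∀ v, ⟪G v, v⟫ = M * ⟪zv k₀, v⟫ ^ 2 +
      ⟪G (v - ⟪zv k₀, v⟫ • e₀), v - ⟪zv k₀, v⟫ • e₀⟫) {Q : ℕ} (E₁ : ℝ)
    {P : Fin n → ℤ} (hkP : dot k₀ P = 0) {s : ℝ} (hs : 0 < s) {w : ℝ → ℝ → ℝ} {B₂ : ℝ}
    (hwc : Continuous fun z : ℝ × ℝ => w z.1 z.2) (hwb : ∀ θ t, |w θ t| ≤ B₂) {ε : ℝ}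
    (hε : ∀ x t, |avP (fun y => V' y t) P x - M * w ⟪zv k₀, x⟫ t| ≤ ε) {δ₁ : ℝ} (hδ₁ : 0 < δ₁)
    {a b : ℝ} {x u : ℝ → EuclideanSpace ℝ (Fin n)} (h : Adm a b x u) :
    ∃ Y2 ZG D IW : ℝ, 0 ≤ Y2 ∧
      (∫ t in a..b, (⟪G (u t - s • zv P), u t - s • zv P⟫ / 2 - V' (x t) t - M * E₁ / Q)) =
        M / 2 * Y2 + ZG / 2 - IW - D - M * E₁ / Q * (b - a) ∧
      M * c1 w Q E₁ a b (fun t => ⟪zv k₀, x t⟫) (fun t => ⟪zv k₀, u t⟫) =
        M / 2 * Y2 - IW - M * E₁ / Q * (b - a) ∧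
      κ₁ * (∫ t in a..b, ‖u t - s • zv P - ⟪zv k₀, u t⟫ • e₀‖ ^ 2) ≤ ZG ∧
      ZG ≤ κ₂ * (∫ t in a..b, ‖u t - s • zv P - ⟪zv k₀, u t⟫ • e₀‖ ^ 2) ∧
      |D| ≤ 2 * (B' / s) + (B' / s + ε) * (b - a) + B' / s * ∫ t in a..b, ‖u t - s • zv P‖ ∧
      B' / s * (∫ t in a..b, ‖u t - s • zv P‖) ≤ M * δ₁ / 2 * Y2 +
        κ₁ / 2 * (∫ t in a..b, ‖u t - s • zv P - ⟪zv k₀, u t⟫ • e₀‖ ^ 2) +
        ((B' / s * ‖e₀‖) ^ 2 / (2 * (M * δ₁)) + (B' / s) ^ 2 / (2 * κ₁)) * (b - a) ∧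
      |IW| ≤ M * B₂ * (b - a) := by
  have hab := h.le
  have hκ₁ := hG.pos
  have hVc := M4b_contV hV'
  set q : EuclideanSpace ℝ (Fin n) := s • zv P with hq
  have hkq : ⟪zv k₀, q⟫ = 0 := by
    rw [hq, real_inner_smul_right, inner_zv, hkP]
    simp
  have hky : ∀ v : EuclideanSpace ℝ (Fin n), ⟪zv k₀, v - q⟫ = ⟪zv k₀, v⟫ := by
    intro v
    rw [inner_sub_right, hkq, sub_zero]
  -- continuity of the integrands
  have ck : Continuous fun v : EuclideanSpace ℝ (Fin n) => ⟪zv k₀, v⟫ :=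
    continuous_const.inner continuous_id
  have cu : Continuous fun z : EuclideanSpace ℝ (Fin n) × EuclideanSpace ℝ (Fin n) × ℝ =>
      z.2.1 - q := (continuous_fst.comp continuous_snd).sub continuous_const
  have cy : Continuous fun z : EuclideanSpace ℝ (Fin n) × EuclideanSpace ℝ (Fin n) × ℝ =>
      ⟪zv k₀, z.2.1⟫ := ck.comp (continuous_fst.comp continuous_snd)
  have cz : Continuous fun z : EuclideanSpace ℝ (Fin n) × EuclideanSpace ℝ (Fin n) × ℝ =>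
      z.2.1 - q - ⟪zv k₀, z.2.1⟫ • e₀ := cu.sub (cy.smul continuous_const)
  have cxt : Continuous fun z : EuclideanSpace ℝ (Fin n) × EuclideanSpace ℝ (Fin n) × ℝ =>
      (z.1, z.2.2) := continuous_fst.prodMk (continuous_snd.comp continuous_snd)
  have iY : IntervalIntegrable (fun t => ⟪zv k₀, u t⟫ ^ 2) volume a b :=
    Adm.integrable2 h (g := fun z => ⟪zv k₀, z.2.1⟫ ^ 2) (cy.pow 2)
  have iG : IntervalIntegrable (fun t => ⟪G (u t - q - ⟪zv k₀, u t⟫ • e₀),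
      u t - q - ⟪zv k₀, u t⟫ • e₀⟫) volume a b :=
    Adm.integrable2 h (g := fun z => ⟪G (z.2.1 - q - ⟪zv k₀, z.2.1⟫ • e₀),
      z.2.1 - q - ⟪zv k₀, z.2.1⟫ • e₀⟫) ((G.continuous.comp cz).inner cz)
  have iZ : IntervalIntegrable (fun t => ‖u t - q - ⟪zv k₀, u t⟫ • e₀‖ ^ 2) volume a b :=
    Adm.integrable2 h (g := fun z => ‖z.2.1 - q - ⟪zv k₀, z.2.1⟫ • e₀‖ ^ 2) (cz.norm.pow 2)
  have iU : IntervalIntegrable (fun t => ‖u t - q‖) volume a b :=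
    Adm.integrable2 h (g := fun z => ‖z.2.1 - q‖) cu.norm
  have iV : IntervalIntegrable (fun t => V' (x t) t) volume a b :=
    Adm.integrable2 h (g := fun z => V' z.1 z.2.2) (hVc.comp cxt)
  have iP : IntervalIntegrable (fun t => avP (fun y => V' y t) P (x t)) volume a b :=
    Adm.integrable2 h (g := fun z => avP (fun y => V' y z.2.2) P z.1)
      ((M4b_contP hVc P).comp cxt)
  have iW : IntervalIntegrable (fun t => M * w ⟪zv k₀, x t⟫ t) volume a b :=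
    Adm.integrable2 h (g := fun z => M * w ⟪zv k₀, z.1⟫ z.2.2)
      (continuous_const.mul (hwc.comp ((ck.comp continuous_fst).prodMk
        (continuous_snd.comp continuous_snd))))
  have iw : IntervalIntegrable (fun t => w ⟪zv k₀, x t⟫ t) volume a b :=
    Adm.integrable2 h (g := fun z => w ⟪zv k₀, z.1⟫ z.2.2)
      (hwc.comp ((ck.comp continuous_fst).prodMk (continuous_snd.comp continuous_snd)))
  refine ⟨∫ t in a..b, ⟪zv k₀, u t⟫ ^ 2, ∫ t in a..b, ⟪G (u t - q - ⟪zv k₀, u t⟫ • e₀),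
    u t - q - ⟪zv k₀, u t⟫ • e₀⟫, (∫ t in a..b, V' (x t) t) - ∫ t in a..b,
    M * w ⟪zv k₀, x t⟫ t, ∫ t in a..b, M * w ⟪zv k₀, x t⟫ t, ?_, ?_, ?_, ?_, ?_, ?_, ?_, ?_⟩
  · exact intervalIntegral.integral_nonneg hab fun t _ => sq_nonneg _
  · have e1 : (∫ t in a..b, (⟪G (u t - q), u t - q⟫ / 2 - V' (x t) t - M * E₁ / Q)) =
        ∫ t in a..b, ((M / 2 * ⟪zv k₀, u t⟫ ^ 2 + 1 / 2 * ⟪G (u t - q - ⟪zv k₀, u t⟫ • e₀),
          u t - q - ⟪zv k₀, u t⟫ • e₀⟫ - V' (x t) t) - M * E₁ / Q) := by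
      refine intervalIntegral.integral_congr fun t _ => ?_
      have e2 := hkin (u t - q)
      rw [hky] at e2
      show ⟪G (u t - q), u t - q⟫ / 2 - V' (x t) t - M * E₁ / Q = _
      rw [e2]
      ring
    rw [e1, intervalIntegral.integral_sub (((iY.const_mul _).add (iG.const_mul _)).sub iV)
      intervalIntegrable_const, intervalIntegral.integral_sub
      ((iY.const_mul _).add (iG.const_mul _)) iV, intervalIntegral.integral_add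
      (iY.const_mul _) (iG.const_mul _), intervalIntegral.integral_const_mul,
      intervalIntegral.integral_const_mul, intervalIntegral.integral_const, smul_eq_mul]
    ring
  · unfold c1 A1
    have e1 : (∫ t in a..b, ((fun t => ⟪zv k₀, u t⟫) t ^ 2 / 2 -
        w ((fun t => ⟪zv k₀, x t⟫) t) t)) =
        ∫ t in a..b, (1 / 2 * ⟪zv k₀, u t⟫ ^ 2 - w ⟪zv k₀, x t⟫ t) := by
      refine intervalIntegral.integral_congr fun t _ => ?_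
      show ⟪zv k₀, u t⟫ ^ 2 / 2 - w ⟪zv k₀, x t⟫ t = _
      ring
    rw [e1, intervalIntegral.integral_sub (iY.const_mul _) iw,
      intervalIntegral.integral_const_mul, intervalIntegral.integral_const_mul]
    ring
  · rw [← intervalIntegral.integral_const_mul]
    exact intervalIntegral.integral_mono_on hab (iZ.const_mul _) iG fun t _ => hG.lo _
  · rw [← intervalIntegral.integral_const_mul]
    exact intervalIntegral.integral_mono_on hab iG (iZ.const_mul _) fun t _ => hG.hi _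
  · have e1 := avP_trap2 hV' P hs h
    rw [← hq] at e1
    have e2 : |(∫ t in a..b, avP (fun y => V' y t) P (x t)) -
        ∫ t in a..b, M * w ⟪zv k₀, x t⟫ t| ≤ ε * (b - a) := by
      rw [← intervalIntegral.integral_sub iP iW, ← Real.norm_eq_abs]
      refine (intervalIntegral.norm_integral_le_of_norm_le_const (C := ε) fun t _ => ?_).trans
        (le_of_eq ?_)
      · rw [Real.norm_eq_abs]
        exact hε (x t) t
      · rw [abs_of_nonneg (by linarith)]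
    have e3 : (2 * B' + B' * (b - a) + B' * ∫ t in a..b, ‖u t - q‖) / s =
        2 * (B' / s) + B' / s * (b - a) + B' / s * ∫ t in a..b, ‖u t - q‖ := by
      ring
    rw [e3] at e1
    have e4 := abs_sub_le (∫ t in a..b, V' (x t) t)
      (∫ t in a..b, avP (fun y => V' y t) P (x t)) (∫ t in a..b, M * w ⟪zv k₀, x t⟫ t)
    linarith
  · rw [← intervalIntegral.integral_const_mul, ← intervalIntegral.integral_const_mul,
      ← intervalIntegral.integral_const_mul,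
      ← intervalIntegral.integral_add (iY.const_mul _) (iZ.const_mul _)]
    have e1 : ((B' / s * ‖e₀‖) ^ 2 / (2 * (M * δ₁)) + (B' / s) ^ 2 / (2 * κ₁)) * (b - a) =
        ∫ _ in a..b, ((B' / s * ‖e₀‖) ^ 2 / (2 * (M * δ₁)) + (B' / s) ^ 2 / (2 * κ₁)) := by
      rw [intervalIntegral.integral_const, smul_eq_mul, mul_comm]
    rw [e1, ← intervalIntegral.integral_add ((iY.const_mul _).add (iZ.const_mul _))
      intervalIntegrable_const]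
    refine intervalIntegral.integral_mono_on hab (iU.const_mul _)
      (((iY.const_mul _).add (iZ.const_mul _)).add intervalIntegrable_const) fun t _ => ?_
    have hβ : 0 ≤ B' / s := div_nonneg hV'.nonneg hs.le
    have e2 : ‖u t - q‖ ≤ |⟪zv k₀, u t⟫| * ‖e₀‖ + ‖u t - q - ⟪zv k₀, u t⟫ • e₀‖ := by
      have e3 : u t - q = ⟪zv k₀, u t⟫ • e₀ + (u t - q - ⟪zv k₀, u t⟫ • e₀) := by abel
      calc ‖u t - q‖ = ‖⟪zv k₀, u t⟫ • e₀ + (u t - q - ⟪zv k₀, u t⟫ • e₀)‖ := by rw [← e3]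
        _ ≤ ‖⟪zv k₀, u t⟫ • e₀‖ + ‖u t - q - ⟪zv k₀, u t⟫ • e₀‖ := norm_add_le _ _
        _ = _ := by rw [norm_smul, Real.norm_eq_abs]
    have e5 := M4b_amgm (β := B' / s) (A := 2 * (M * δ₁)) (K := 2 * κ₁) (e := ‖e₀‖)
      (y := ⟪zv k₀, u t⟫) (z := ‖u t - q - ⟪zv k₀, u t⟫ • e₀‖) (by positivity) (by positivity)
    have e6 := mul_le_mul_of_nonneg_left e2 hβ
    have e7 : 2 * (M * δ₁) / 4 = M * δ₁ / 2 := by ring
    have e8 : 2 * κ₁ / 4 = κ₁ / 2 := by ring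
    rw [e7, e8] at e5
    exact e6.trans e5
  · rw [← Real.norm_eq_abs]
    refine (intervalIntegral.norm_integral_le_of_norm_le_const (C := M * B₂) fun t _ => ?_).trans
      (le_of_eq ?_)
    · rw [Real.norm_eq_abs, abs_mul, abs_of_pos hM]
      exact mul_le_mul_of_nonneg_left (hwb _ _) hM.le
    · rw [abs_of_nonneg (by linarith)]

private theorem M4b_core (hG : HG G κ₁ κ₂) {V' : EuclideanSpace ℝ (Fin n) → ℝ → ℝ}
    {F' : EuclideanSpace ℝ (Fin n) → ℝ → EuclideanSpace ℝ (Fin n)}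
    {Vt' : EuclideanSpace ℝ (Fin n) → ℝ → ℝ} {B' : ℝ} {Q : ℕ} (hQ : 0 < Q)
    (hV' : HV2 Q V' F' Vt' B')
    {k₀ m : Fin n → ℤ} (hkm : dot k₀ m = 1) {e₀ : EuclideanSpace ℝ (Fin n)} {M : ℝ} (hM : 0 < M)
    (he₀ : ⟪zv k₀, e₀⟫ = 1)
    (hkin : ∀ v, ⟪G v, v⟫ = M * ⟪zv k₀, v⟫ ^ 2 +
      ⟪G (v - ⟪zv k₀, v⟫ • e₀), v - ⟪zv k₀, v⟫ • e₀⟫)
    (E₁ : ℝ) {δ₀ : ℝ} (hδ : 0 < δ₀) (hδ' : δ₀ ≤ 1 / 2) :
    ∃ (P : Fin n → ℤ) (s : ℝ),
      Trap2 (fun x v t => ⟪G (v - s • zv P), v - s • zv P⟫ / 2 - V' x t - M * E₁ / Q) k₀ m P s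
        e₀ Q (fun θ t => avK (fun y => V' y t) k₀ m θ / M) E₁ M κ₂ δ₀ := by
  have hQ' : (0 : ℝ) < Q := by exact_mod_cast hQ
  obtain ⟨N₀, hN₀⟩ := avP_tendsto2 hQ' hV' hkm (ε := δ₀ / 8) (by positivity)
  have hN := hN₀ N₀ le_rfl
  have hkP : dot k₀ (PN k₀ m 0 N₀) = 0 := PN_dot hkm (dot_zero k₀) N₀
  generalize PN k₀ m 0 N₀ = P at hN hkP
  obtain ⟨B₂, hW⟩ := HW_avK hV' hkm hM
  have hB' := hV'.nonneg
  have hB₂ := hW.nonneg
  have hκ₁ := hG.pos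
  have hwc := M4b_contW hW
  have hwb := hW.bd
  have hε : ∀ x t, |avP (fun y => V' y t) P x -
      M * (fun θ t => avK (fun y => V' y t) k₀ m θ / M) ⟪zv k₀, x⟫ t| ≤ δ₀ / 8 := by
    intro x t
    have e1 : M * (fun θ t => avK (fun y => V' y t) k₀ m θ / M) ⟪zv k₀, x⟫ t =
        avK (fun y => V' y t) k₀ m ⟪zv k₀, x⟫ := by
      show M * (avK (fun y => V' y t) k₀ m ⟪zv k₀, x⟫ / M) = _
      field_simp
    rw [e1]
    exact hN x t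
  -- constants
  obtain ⟨C₅, hC₅0, hC₅⟩ : ∃ C₅ : ℝ, 0 < C₅ ∧ M * B₂ + |M * E₁ / Q| ≤ C₅ :=
    ⟨M * B₂ + |M * E₁ / Q| + 1, by positivity, by linarith⟩
  obtain ⟨δ₁, hδ₁, hδ₁0, hδ₁C⟩ : ∃ δ₁ : ℝ, 0 < δ₁ ∧ δ₁ ≤ δ₀ ∧ δ₁ * C₅ ≤ δ₀ / 4 := by
    refine ⟨min δ₀ (δ₀ / (4 * C₅)), lt_min hδ (by positivity), min_le_left _ _, ?_⟩
    calc min δ₀ (δ₀ / (4 * C₅)) * C₅ ≤ δ₀ / (4 * C₅) * C₅ :=
          mul_le_mul_of_nonneg_right (min_le_right _ _) hC₅0.le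
      _ = δ₀ / 4 := by field_simp
  obtain ⟨η, hη0, hη1, hη2, hη3⟩ := M4b_eta (e := ‖e₀‖) hδ
    (by positivity : 0 < 2 * (M * δ₁)) (by positivity : 0 < 2 * κ₁)
  obtain ⟨s, hs, hβ⟩ : ∃ s : ℝ, 0 < s ∧ B' / s ≤ η := by
    refine ⟨(B' + 1) / η, by positivity, ?_⟩
    rw [div_le_iff₀ (by positivity)]
    have : η * ((B' + 1) / η) = B' + 1 := by field_simp
    rw [this]
    linarith
  have hβ0 : 0 ≤ B' / s := div_nonneg hB' hs.le
  have hc : (B' / s * ‖e₀‖) ^ 2 / (2 * (M * δ₁)) + (B' / s) ^ 2 / (2 * κ₁) ≤ δ₀ / 8 := by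
    have e1 : (B' / s * ‖e₀‖) ^ 2 / (2 * (M * δ₁)) ≤ (η * ‖e₀‖) ^ 2 / (2 * (M * δ₁)) := by
      refine div_le_div_of_nonneg_right ?_ (by positivity)
      exact pow_le_pow_left₀ (by positivity) (mul_le_mul_of_nonneg_right hβ (norm_nonneg _)) 2
    have e2 : (B' / s) ^ 2 / (2 * κ₁) ≤ η ^ 2 / (2 * κ₁) :=
      div_le_div_of_nonneg_right (pow_le_pow_left₀ hβ0 hβ 2) (by positivity)
    linarith
  have hVc := M4b_contV hV'
  refine ⟨P, s, ⟨⟨?_, ?_, ?_⟩, hkm, hkP, hs, he₀, hM, hG.pos₂, hδ.le, hδ', ?_, ?_⟩⟩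
  · have cu : Continuous fun z : EuclideanSpace ℝ (Fin n) × EuclideanSpace ℝ (Fin n) × ℝ =>
        z.2.1 - s • zv P := (continuous_fst.comp continuous_snd).sub continuous_const
    have cV : Continuous fun z : EuclideanSpace ℝ (Fin n) × EuclideanSpace ℝ (Fin n) × ℝ =>
        V' z.1 z.2.2 := hVc.comp (continuous_fst.prodMk (continuous_snd.comp continuous_snd))
    exact ((((G.continuous.comp cu).inner cu).div_const 2).sub cV).sub continuous_const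
  · intro x v t k
    show ⟪G (v - s • zv P), v - s • zv P⟫ / 2 - V' (x + zv k) t - M * E₁ / Q = _
    rw [hV'.per]
  · intro x v t
    show ⟪G (v - s • zv P), v - s • zv P⟫ / 2 - V' x (t + Q) - M * E₁ / Q = _
    rw [hV'.pert]
  · refine ⟨δ₁, hδ₁.le, hδ₁0, ?_⟩
    intro a b x u h
    have hab := h.le
    obtain ⟨Y2, ZG, D, IW, h1, h2, h3, h4, h5, h6, h7, h8⟩ :=
      M4b_curve hG hV' hM hkin (Q := Q) E₁ hkP hs hwc hwb hε hδ₁ h
    rw [h2]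
    rw [show M * (1 - δ₁) * c1 (fun θ t => avK (fun y => V' y t) k₀ m θ / M) Q E₁ a b
        (fun t => ⟪zv k₀, x t⟫) (fun t => ⟪zv k₀, u t⟫) = (1 - δ₁) *
        (M * c1 (fun θ t => avK (fun y => V' y t) k₀ m θ / M) Q E₁ a b
        (fun t => ⟪zv k₀, x t⟫) (fun t => ⟪zv k₀, u t⟫)) by ring, h3]
    have hL : 0 ≤ b - a := by linarith
    have e1 : δ₁ * (IW + M * E₁ / Q * (b - a)) ≤ δ₀ / 4 * (b - a) := by
      have e2 : IW + M * E₁ / Q * (b - a) ≤ C₅ * (b - a) := by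
        have e3 := (abs_le.mp h8).2
        have e4 : M * E₁ / Q * (b - a) ≤ |M * E₁ / Q| * (b - a) :=
          mul_le_mul_of_nonneg_right (le_abs_self _) hL
        nlinarith
      calc δ₁ * (IW + M * E₁ / Q * (b - a)) ≤ δ₁ * (C₅ * (b - a)) :=
            mul_le_mul_of_nonneg_left e2 hδ₁.le
        _ = δ₁ * C₅ * (b - a) := by ring
        _ ≤ _ := mul_le_mul_of_nonneg_right hδ₁C hL
    have e5 := (abs_le.mp h6).2
    have e6 : ((B' / s * ‖e₀‖) ^ 2 / (2 * (M * δ₁)) + (B' / s) ^ 2 / (2 * κ₁)) * (b - a) ≤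
        δ₀ / 8 * (b - a) := mul_le_mul_of_nonneg_right hc hL
    have e7 : (B' / s + δ₀ / 8) * (b - a) ≤ (δ₀ / 8 + δ₀ / 8) * (b - a) :=
      mul_le_mul_of_nonneg_right (by linarith) hL
    have e8 : 2 * (B' / s) ≤ δ₀ := by linarith
    have e9 : (1 - δ₁) * (M / 2 * Y2 - IW - M * E₁ / Q * (b - a)) =
        M / 2 * Y2 - IW - M * E₁ / Q * (b - a) - M * δ₁ / 2 * Y2 +
          δ₁ * (IW + M * E₁ / Q * (b - a)) := by ring
    rw [e9]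
    have e10 : 0 ≤ δ₀ * (b - a) := by positivity
    linarith
  · intro a b x u h
    have hab := h.le
    obtain ⟨Y2, ZG, D, IW, h1, h2, h3, h4, h5, h6, h7, h8⟩ :=
      M4b_curve hG hV' hM hkin (Q := Q) E₁ hkP hs hwc hwb hε hδ₁ h
    rw [h2, h3]
    have hL : 0 ≤ b - a := by linarith
    have hU : 0 ≤ ∫ t in a..b, ‖u t - s • zv P‖ :=
      intervalIntegral.integral_nonneg hab fun t _ => norm_nonneg _
    have e5 := (abs_le.mp h6).1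
    have e7 : (B' / s + δ₀ / 8) * (b - a) ≤ δ₀ * (b - a) :=
      mul_le_mul_of_nonneg_right (by linarith) hL
    have e8 : 2 * (B' / s) ≤ δ₀ := by linarith
    have e9 : B' / s * (∫ t in a..b, ‖u t - s • zv P‖) ≤
        δ₀ * ∫ t in a..b, ‖u t - s • zv P‖ := mul_le_mul_of_nonneg_right (by linarith) hU
    linarith

theorem trap2_exists (hG : HG G κ₁ κ₂) {V : EuclideanSpace ℝ (Fin n) → ℝ → ℝ}
    {F : EuclideanSpace ℝ (Fin n) → ℝ → EuclideanSpace ℝ (Fin n)}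
    {Vt : EuclideanSpace ℝ (Fin n) → ℝ → ℝ} {B : ℝ} (hV : HV2 1 V F Vt B)
    {k₀ m : Fin n → ℤ} (hkm : dot k₀ m = 1) {e₀ : EuclideanSpace ℝ (Fin n)} {M : ℝ} (hM : 0 < M)
    (he₀ : ⟪zv k₀, e₀⟫ = 1)
    (hkin : ∀ v, ⟪G v, v⟫ = M * ⟪zv k₀, v⟫ ^ 2 +
      ⟪G (v - ⟪zv k₀, v⟫ • e₀), v - ⟪zv k₀, v⟫ • e₀⟫)
    (p : ℤ) {Q : ℕ} (hQ : 0 < Q) (E₁ : ℝ) {δ₀ : ℝ} (hδ : 0 < δ₀) (hδ' : δ₀ ≤ 1 / 2) :
    ∃ (P : Fin n → ℤ) (s : ℝ),
      Trap2 (mlag G V (s • zv P) m ((p : ℝ) / Q) (M * E₁ / Q)) k₀ m P s e₀ Q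
        (fun x t => avK (fun y => V y t) k₀ m (x + (p : ℝ) / Q * t) / M) E₁ M κ₂ δ₀ := by
  obtain ⟨B', hV'⟩ := hV.moving m p hQ
  obtain ⟨P, s, h⟩ := M4b_core hG hQ hV' hkm hM he₀ hkin E₁ hδ hδ'
  refine ⟨P, s, ?_⟩
  have hw : (fun x t => avK (fun y => V y t) k₀ m (x + (p : ℝ) / Q * t) / M) =
      fun θ t => avK (fun y => V (y + ((p : ℝ) / Q * t) • zv m) t) k₀ m θ / M := by
    funext θ t
    rw [← avK_moving (fun y => V y t) k₀ m ((p : ℝ) / Q * t) θ]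
  rw [hw]
  exact h

end Pool.Agent.H33.AN
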