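import Pool.Agent.H33.AN.Pot
import Pool.Agent.H33.AN.P.J10
import Pool.Agent.H33.AN.P.K1
import Pool.Agent.H33.AN.P.L7
import Pool.Agent.H33.AN.P.M4
import Pool.Agent.H33.AM.P.V4

/-!
# Module M5: flats of the action functional

* `flat2_of_trapped`: `r = p / Q`, `q' = q + r • zv m`. A curve `X`, `U` corresponds to `x t = X t - (r t) • zv m`,
  `u = U - r • zv m`, and
  `lag2 G V X U t = mlag G V q m r E x u t + E + ⟪G q', U⟫ - ⟪G q', q'⟫ / 2`. Let `e`, `fu`, `fd`, `C` be from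
  `Trapped2`; `c₀ = G q'`, `E₀ = e - E + ⟪G q', q'⟫ / 2`, `η₁ = -fd`, `η₂ = fu`:
  `∫ (L - ⟪c₀ + η k₀, U⟫ + E₀ + η p/Q) = ∫ (ℓ + e) - η (⟪k₀, x(b)⟫ - ⟪k₀, x(a)⟫)` (as `⟪zv k₀, zv m⟫ = 1`). For
  `E' < E₀` the failure of `Crit2` at `e' = E' + E - ⟪G q', q'⟫ / 2` gives the closed curve, `k = k' + (j p) • m`
  (`0 < j` since `j = 0` gives the action `0`).
* `flat2_main`: `V (·) t₁` is not constant for some `t₁`; `k₀`, `m` from `exists_avK_ne` for `V (·) t₁`;
  `e₀`, `M` from `kin_exists`; `W θ t = avK (V · t) k₀ m θ / M` satisfies `HW 1` (`HW_avK`), `W₁` is not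
  identically zero, so `barrier`, `bar_of_barrier`, `trap2_main` (`κ = κ₂`, `w x t = W (x + p/Q t) t`), then
  `trap2_exists` with `δ₀` and `flat2_of_trapped`.
-/

set_option autoImplicit false

open MeasureTheory
open scoped RealInnerProductSpace

namespace Pool.Agent.H33.AN

open Pool.Agent.H33.AM

variable {n : ℕ} {G : EuclideanSpace ℝ (Fin n) →L[ℝ] EuclideanSpace ℝ (Fin n)} {κ₁ κ₂ : ℝ}
  {V : EuclideanSpace ℝ (Fin n) → ℝ → ℝ}
  {F : EuclideanSpace ℝ (Fin n) → ℝ → EuclideanSpace ℝ (Fin n)}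
  {Vt : EuclideanSpace ℝ (Fin n) → ℝ → ℝ} {B : ℝ}

private theorem M5a_adm {a b : ℝ} {x u : ℝ → EuclideanSpace ℝ (Fin n)} (h : Adm a b x u)
    (c : EuclideanSpace ℝ (Fin n)) : Adm a b (fun t => x t + t • c) fun t => u t + c := by
  obtain ⟨s, hs, hd⟩ := h.der
  obtain ⟨R, hR⟩ := h.bd
  have hc : Continuous fun t : ℝ => t • c := continuous_id.smul continuous_const
  refine ⟨h.le, h.cont.add hc.continuousOn, ⟨s, hs, fun t ht => ?_⟩, h.meas.add_const c,
    R + ‖c‖, fun t => (norm_add_le _ _).trans (add_le_add (hR t) le_rfl)⟩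
  have h1 : HasDerivAt (fun t : ℝ => t • c) c t := by
    simpa using (hasDerivAt_id t).smul_const c
  exact (hd t ht).add h1

private theorem M5a_lag (hG : HG G κ₁ κ₂) (q q' X U : EuclideanSpace ℝ (Fin n)) (m : Fin n → ℤ)
    (r E t : ℝ) (hq : q' = q + r • zv m) :
    mlag G V q m r E (X + t • (-(r • zv m))) (U + -(r • zv m)) t =
      lag2 G V X U t - ⟪G q', U⟫ + ⟪G q', q'⟫ / 2 - E := by
  unfold mlag lag2
  have e1 : U + -(r • zv m) - q = U - q' := by
    rw [hq]
    abel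
  have e2 : X + t • (-(r • zv m)) + (r * t) • zv m = X := by
    rw [smul_neg, smul_smul, mul_comm t r]
    abel
  have e3 : ⟪G U, q'⟫ = ⟪G q', U⟫ := by
    rw [hG.symm, real_inner_comm]
  rw [e1, e2, map_sub, inner_sub_left, inner_sub_right, inner_sub_right, e3]
  ring

theorem flat2_of_trapped (hG : HG G κ₁ κ₂) (hV : HV2 1 V F Vt B) {k₀ m : Fin n → ℤ}
    (hkm : dot k₀ m = 1) (q : EuclideanSpace ℝ (Fin n)) (p : ℤ) {Q : ℕ} (hQ : 0 < Q) (E : ℝ)
    (hl : HL2 Q (mlag G V q m ((p : ℝ) / Q) E))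
    (h : Trapped2 (mlag G V q m ((p : ℝ) / Q) E) k₀ Q) : Flat2 (lag2 G V) := by
  have _ := hV
  have hQ0 : (0 : ℝ) < Q := by exact_mod_cast hQ
  obtain ⟨r, hr⟩ : ∃ r : ℝ, (p : ℝ) / Q = r := ⟨_, rfl⟩
  rw [hr] at hl h
  have hrQ : r * Q = p := by
    rw [← hr]
    field_simp
  obtain ⟨q', hq'⟩ : ∃ q' : EuclideanSpace ℝ (Fin n), q' = q + r • zv m := ⟨_, rfl⟩
  obtain ⟨e, fu, fd, C, hf, hc, hc', hη⟩ := h
  refine ⟨k₀, G q', e - E + ⟪G q', q'⟫ / 2, -fd, fu, C, p, Q, (ne_zero_of_dot hkm).1, hf, hQ,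
    ?_, ?_⟩
  · intro η hηm a b X U hX
    rw [hr]
    have hadm := M5a_adm hX (-(r • zv m))
    have h1 := hη η hηm a b _ _ _ ⟨_, _, hadm, rfl, rfl, rfl⟩
    have h2 := Adm.integral_inner hadm (zv k₀)
    have i1 : IntervalIntegrable (fun t => mlag G V q m r E (X t + t • (-(r • zv m)))
        (U t + -(r • zv m)) t + e) volume a b :=
      Adm.integrable2 hadm (g := fun z : EuclideanSpace ℝ (Fin n) × EuclideanSpace ℝ (Fin n) × ℝ =>
        mlag G V q m r E z.1 z.2.1 z.2.2 + e) (hl.cont.add continuous_const)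
    have i2 : IntervalIntegrable (fun t => η * ⟪zv k₀, U t + -(r • zv m)⟫) volume a b :=
      Adm.integrable2 hadm (g := fun z : EuclideanSpace ℝ (Fin n) × EuclideanSpace ℝ (Fin n) × ℝ =>
        η * ⟪zv k₀, z.2.1⟫) (by fun_prop)
    have e1 : ∀ t, lag2 G V (X t) (U t) t - ⟪G q' + η • zv k₀, U t⟫ +
        (e - E + ⟪G q', q'⟫ / 2 + η * r) =
        (mlag G V q m r E (X t + t • (-(r • zv m))) (U t + -(r • zv m)) t + e) -
          η * ⟪zv k₀, U t + -(r • zv m)⟫ := by
      intro t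
      rw [M5a_lag hG q q' (X t) (U t) m r E t hq', inner_add_left, real_inner_smul_left,
        inner_add_right, inner_neg_right, real_inner_smul_right, inner_zv, hkm, Int.cast_one]
      ring
    rw [intervalIntegral.integral_congr fun t _ => e1 t, intervalIntegral.integral_sub i1 i2,
      intervalIntegral.integral_const_mul, h2]
    linarith
  · intro E' hE'
    have h1 := hc' (E' + E - ⟪G q', q'⟫ / 2) (by linarith)
    unfold Crit2 at h1
    push Not at h1
    obtain ⟨j, s, x0, k, r0, hk, ⟨ξ, u, hadm, hx1, hx2, hx3⟩, hr0⟩ := h1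
    have hj : 0 < j := by
      rcases Nat.eq_zero_or_pos j with h0 | h0
      · exfalso
        rw [h0, Nat.cast_zero, zero_mul, add_zero, intervalIntegral.integral_same] at hx3
        linarith
      · exact h0
    refine ⟨j, s, fun t => ξ t + t • (r • zv m), fun t => u t + r • zv m, k + ((j : ℤ) * p) • m,
      hj, M5a_adm hadm (r • zv m), ?_, ?_, ?_⟩
    · show ξ (s + j * Q) + (s + j * Q) • (r • zv m) =
        ξ s + s • (r • zv m) + zv (k + ((j : ℤ) * p) • m)
      have e2 : (s + j * Q) • (r • zv m) = s • (r • zv m) + ((j : ℝ) * p) • zv m := by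
        rw [← hrQ, smul_smul, smul_smul, ← add_smul]
        congr 1
        ring
      rw [hx2, ← hx1, e2, zv_add, zv_zsmul, Int.cast_mul, Int.cast_natCast]
      abel
    · rw [dot_add, dot_zsmul, hk, hkm, zero_add, mul_one]
    · have e3 : ∀ t, lag2 G V (ξ t + t • (r • zv m)) (u t + r • zv m) t -
          ⟪G q', u t + r • zv m⟫ + E' =
          mlag G V q m r E (ξ t) (u t) t + (E' + E - ⟪G q', q'⟫ / 2) := by
        intro t
        have e4 := M5a_lag (V := V) hG q q' (ξ t + t • (r • zv m)) (u t + r • zv m) m r E t hq'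
        have e5 : ξ t + t • (r • zv m) + t • (-(r • zv m)) = ξ t := by
          rw [smul_neg]
          abel
        have e6 : u t + r • zv m + -(r • zv m) = u t := by abel
        rw [e5, e6] at e4
        rw [e4]
        ring
      rw [intervalIntegral.integral_congr fun t _ => e3 t, hx3]
      exact hr0

end Pool.Agent.H33.AN
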