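import Pool.Agent.H33.AN.Pot
import Pool.Agent.H33.AN.P.J10
import Pool.Agent.H33.AN.P.K1
import Pool.Agent.H33.AN.P.L7
import Pool.Agent.H33.AN.P.M4
import Pool.Agent.H33.AM.P.V4
import Pool.Agent.H33.AN.P.M5a

/-!
# Module M5: flats of the action functional

* `flat2_of_trapped`: `r = p / Q`, `q' = q + r • zv m`. A curve `X`, `U` corresponds to `x t = X t - (r t) • zv m`,
  `u = U - r • zv m`, and
  `lag2 G V X U t = mlag G V q m r E x u t + E + ⟪G q', U⟫ - ⟪G q', q'⟫ / 2`. Let `e`, `fu`, `fd`, `C` be from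
  `Trapped2`; `c₀ = G q'`, `E₀ = e - E + ⟪G q', q'⟫ / 2`, `η₁ = -fd`, `η₂ = fu`:
  `∫ (L - ⟪c₀ + η k₀, U⟫ + E₀ + η p/Q) = ∫ (ℓ + e) - η (⟪k₀, x(b)⟫ - ⟪k₀, x(a)⟫)` (as `⟪zv k₀, zv m⟫ = 1`). For
  `E' < E₀` the failure of `Crit2` at `e' = E' + E - ⟪G q', q'⟫ / 2` gives the closed curve, `k = k' + (j p) • m`
  (`0 < j` since `j = 0` gives the action `0`).
* `flat2_main`: `V (·) t₁` is not constant for some `t₁`; `k₀`, `m` from `exists_avK_ne` for `V (·) t₁`;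
  `e₀`, `M` from `kin_exists`; `W θ t = avK (V · t) k₀ m θ / M` satisfies `HW 1` (`HW_avK`), `W₁` is not
  identically zero, so `barrier`, `bar_of_barrier`, `trap2_main` (`κ = κ₂`, `w x t = W (x + p/Q t) t`), then
  `trap2_exists` with `δ₀` and `flat2_of_trapped`.
-/

set_option autoImplicit false

open MeasureTheory
open scoped RealInnerProductSpace

namespace Pool.Agent.H33.AN

open Pool.Agent.H33.AM

variable {n : ℕ} {G : EuclideanSpace ℝ (Fin n) →L[ℝ] EuclideanSpace ℝ (Fin n)} {κ₁ κ₂ : ℝ}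
  {V : EuclideanSpace ℝ (Fin n) → ℝ → ℝ}
  {F : EuclideanSpace ℝ (Fin n) → ℝ → EuclideanSpace ℝ (Fin n)}
  {Vt : EuclideanSpace ℝ (Fin n) → ℝ → ℝ} {B : ℝ}

theorem flat2_main (hG : HG G κ₁ κ₂) (hV : HV2 1 V F Vt B) (hne : ∃ x y t, V x t ≠ V y t) :
    Flat2 (lag2 G V) := by
  obtain ⟨x, y, t₁, hxy⟩ := hne
  have hVc : Continuous fun z : EuclideanSpace ℝ (Fin n) × ℝ => V z.1 z.2 :=
    continuous_iff_continuousAt.2 fun z => (hV.der z.1 z.2).continuousAt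
  have hg : Continuous fun z : EuclideanSpace ℝ (Fin n) => V z t₁ :=
    hVc.comp (continuous_id.prodMk continuous_const)
  obtain ⟨k₀, m, hkm, θ, θ', hθ⟩ := exists_avK_ne hg (fun x k => hV.per x t₁ k) ⟨x, y, hxy⟩
  obtain ⟨e₀, M, hM, he₀, hkin⟩ := kin_exists hG hkm
  obtain ⟨B', hW⟩ := HW_avK hV hkm hM
  have hne' : ∃ x t, avK (fun y => ⟪F y t, zv m⟫) k₀ m x / M ≠ 0 := by
    by_contra hcon
    push Not at hcon
    have hder : ∀ θ, HasDerivAt (fun θ => avK (fun y => V y t₁) k₀ m θ / M) 0 θ := by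
      intro θ
      have h1 := hW.der θ t₁
      have h2 : HasDerivAt (fun θ : ℝ => (θ, t₁)) ((1 : ℝ), (0 : ℝ)) θ :=
        (hasDerivAt_id θ).prodMk (hasDerivAt_const θ t₁)
      have h3 := h1.comp_hasDerivAt θ h2
      simp only [hcon, zero_smul, zero_add] at h3
      have h4 : ((avK (fun y => Vt y t₁) k₀ m θ / M) • ContinuousLinearMap.snd ℝ ℝ ℝ)
          ((1 : ℝ), (0 : ℝ)) = 0 := by
        simp
      rw [h4] at h3
      exact h3
    have hd : Differentiable ℝ (fun θ => avK (fun y => V y t₁) k₀ m θ / M) :=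
      fun θ => (hder θ).differentiableAt
    have hc := is_const_of_deriv_eq_zero hd (fun θ => (hder θ).deriv) θ θ'
    exact hθ (by
      have h5 := congrArg (fun r : ℝ => r * M) hc
      rwa [div_mul_cancel₀ _ hM.ne', div_mul_cancel₀ _ hM.ne'] at h5)
  obtain ⟨p, Q, Bc, μ, hQ, hBc, hper, hμ, hbar⟩ := barrier hW hne'
  obtain ⟨B'', hw, hb⟩ := bar_of_barrier hW hQ hBc hper hμ hbar
  obtain ⟨δ₀, hδ, hδ', hmain⟩ := trap2_main hw hb hkm he₀ hM hG.pos₂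
  obtain ⟨P, s, hT⟩ := trap2_exists hG hV hkm hM he₀ hkin p hQ
    (EpQ (fun θ t => avK (fun y => V y t) k₀ m θ / M) p Q - (p : ℝ) ^ 2 / (2 * Q)) hδ hδ'
  exact flat2_of_trapped hG hV hkm (s • zv P) p hQ _ hT.hl (hmain _ P s hT)

end Pool.Agent.H33.AN
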