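import Pool.Agent.H33.AN.Orb
import Pool.Agent.H33.AN.P.M5
import Pool.Agent.H33.AN.P.I3
import Pool.Agent.H33.AN.P.C1

/-!
# Module Z1: final assembly

* `HV2_of`: with `F x t = gradient (fun y => V y t) x`, `Vt x t = deriv (fun s => V x s) t`: the derivative of
  `z ↦ V z.1 z.2` at `(x, t)` is `⟪F x t, ·⟫ + Vt x t ·`; it is continuously differentiable and periodic, hence
  bounded and Lipschitz (mean value inequality; the derivative of `z ↦ F z.1 z.2` is bounded because it is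
  continuous and periodic). The norm of a product is the maximum of the norms.
* `HG_of`: `κ₁` = minimum of `⟪G v, v⟫` on the unit sphere (if `n = 0`: `1`), `κ₂ = ‖G‖ + 1`.
* `main2`: if `V x t ≠ V y t` for some `x`, `y`, `t` then `flat2_main` and `not_strict_of_flat2` give a
  contradiction. Otherwise `strict_int2`, `alpha_int2`, `peierls_int2`.
-/

set_option autoImplicit false

open MeasureTheory
open scoped RealInnerProductSpace

namespace Pool.Agent.H33.AN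

open Pool.Agent.H33.AM

variable {n : ℕ}

/-- Upper bound. -/
private theorem Z1a_hi (G : E n →L[ℝ] E n) (v : E n) : ⟪G v, v⟫ ≤ (‖G‖ + 1) * ‖v‖ ^ 2 := by
  have h1 : ⟪G v, v⟫ ≤ ‖G v‖ * ‖v‖ := real_inner_le_norm _ _
  have h2 : ‖G v‖ ≤ ‖G‖ * ‖v‖ := G.le_opNorm v
  have h3 := norm_nonneg v
  have h4 := norm_nonneg G
  nlinarith [mul_le_mul_of_nonneg_right h2 h3]

/-- Lower bound. -/
private theorem Z1a_lo {G : E n →L[ℝ] E n} (hpos : ∀ v, v ≠ 0 → 0 < ⟪G v, v⟫) :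
    ∃ κ₁ : ℝ, 0 < κ₁ ∧ ∀ v, κ₁ * ‖v‖ ^ 2 ≤ ⟪G v, v⟫ := by
  by_cases hne : (Metric.sphere (0 : E n) 1).Nonempty
  · have hc : IsCompact (Metric.sphere (0 : E n) 1) := isCompact_sphere 0 1
    have hcont : Continuous fun v : E n => ⟪G v, v⟫ := G.continuous.inner continuous_id
    obtain ⟨u, hu, hmin⟩ := hc.exists_isMinOn hne hcont.continuousOn
    have hu1 : ‖u‖ = 1 := by simpa using hu
    have hu0 : u ≠ 0 := by
      intro h
      rw [h, norm_zero] at hu1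
      norm_num at hu1
    refine ⟨⟪G u, u⟫, hpos u hu0, fun v => ?_⟩
    by_cases hv : v = 0
    · rw [hv]
      simp
    · have hv0 : 0 < ‖v‖ := norm_pos_iff.2 hv
      have hw : ‖v‖⁻¹ • v ∈ Metric.sphere (0 : E n) 1 := by
        simp only [mem_sphere_iff_norm, sub_zero, norm_smul, norm_inv, norm_norm]
        exact inv_mul_cancel₀ hv0.ne'
      have h1 : ⟪G u, u⟫ ≤ ⟪G (‖v‖⁻¹ • v), ‖v‖⁻¹ • v⟫ := hmin hw
      rw [map_smul, real_inner_smul_left, real_inner_smul_right] at h1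
      have h2 : ⟪G u, u⟫ * ‖v‖ ^ 2 ≤ (‖v‖⁻¹ * (‖v‖⁻¹ * ⟪G v, v⟫)) * ‖v‖ ^ 2 :=
        mul_le_mul_of_nonneg_right h1 (by positivity)
      have h3 : (‖v‖⁻¹ * (‖v‖⁻¹ * ⟪G v, v⟫)) * ‖v‖ ^ 2 = ⟪G v, v⟫ := by
        field_simp
      rw [h3] at h2
      exact h2
  · refine ⟨1, one_pos, fun v => ?_⟩
    have hv : v = 0 := by
      by_contra h
      apply hne
      refine ⟨‖v‖⁻¹ • v, ?_⟩
      simp only [mem_sphere_iff_norm, sub_zero, norm_smul, norm_inv, norm_norm]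
      exact inv_mul_cancel₀ (norm_pos_iff.2 h).ne'
    rw [hv]
    simp

theorem HG_of {G : E n →L[ℝ] E n} (hs : ∀ v w, ⟪G v, w⟫ = ⟪v, G w⟫)
    (hpos : ∀ v, v ≠ 0 → 0 < ⟪G v, v⟫) : ∃ κ₁ κ₂ : ℝ, HG G κ₁ κ₂ := by
  obtain ⟨κ₁, h1, h2⟩ := Z1a_lo hpos
  exact ⟨κ₁, ‖G‖ + 1, h1, by positivity, hs, h2, Z1a_hi G⟩

end Pool.Agent.H33.AN
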