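import Pool.Agent.H33.AN.Orb
import Pool.Agent.H33.AN.P.M5
import Pool.Agent.H33.AN.P.I3
import Pool.Agent.H33.AN.P.C1
import Pool.Agent.H33.AN.P.Z1a

/-!
# Module Z1: final assembly

* `HV2_of`: with `F x t = gradient (fun y => V y t) x`, `Vt x t = deriv (fun s => V x s) t`: the derivative of
  `z ↦ V z.1 z.2` at `(x, t)` is `⟪F x t, ·⟫ + Vt x t ·`; it is continuously differentiable and periodic, hence
  bounded and Lipschitz (mean value inequality; the derivative of `z ↦ F z.1 z.2` is bounded because it is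
  continuous and periodic). The norm of a product is the maximum of the norms.
* `HG_of`: `κ₁` = minimum of `⟪G v, v⟫` on the unit sphere (if `n = 0`: `1`), `κ₂ = ‖G‖ + 1`.
* `main2`: if `V x t ≠ V y t` for some `x`, `y`, `t` then `flat2_main` and `not_strict_of_flat2` give a
  contradiction. Otherwise `strict_int2`, `alpha_int2`, `peierls_int2`.
-/

set_option autoImplicit false

open MeasureTheory
open scoped RealInnerProductSpace

namespace Pool.Agent.H33.AN

open Pool.Agent.H33.AM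

variable {n : ℕ}

private theorem z1b_bounded {Z : Type*} [NormedAddCommGroup Z] {g : E n × ℝ → Z}
    (hg : Continuous g)
    (hper : ∀ (z : E n × ℝ) (k : Fin n → ℤ) (m : ℤ), g (z + (zv k, (m : ℝ))) = g z) :
    ∃ C : ℝ, ∀ z, ‖g z‖ ≤ C := by
  obtain ⟨C, hC⟩ := ((isCompact_closedBall (0 : E n) (Real.sqrt n)).prod
    (isCompact_Icc (a := (0 : ℝ)) (b := 1))).exists_bound_of_continuousOn hg.continuousOn
  refine ⟨C, fun z => ?_⟩
  set k : Fin n → ℤ := fun i => -⌊z.1 i⌋ with hk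
  rw [← hper z k (-⌊z.2⌋)]
  apply hC
  refine Set.mk_mem_prod ?_ ?_
  · rw [mem_closedBall_zero_iff, EuclideanSpace.norm_eq]
    apply Real.sqrt_le_sqrt
    calc ∑ i, ‖(z.1 + zv k) i‖ ^ 2 ≤ ∑ _i : Fin n, (1 : ℝ) := by
          apply Finset.sum_le_sum
          intro i _
          have h1 : (z.1 + zv k) i = z.1 i - (⌊z.1 i⌋ : ℝ) := by
            simp [zv, hk, sub_eq_add_neg]
          rw [h1, Real.norm_eq_abs, sq_abs]
          have h2 := Int.floor_le (z.1 i)
          have h3 := Int.lt_floor_add_one (z.1 i)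
          nlinarith
      _ = n := by simp
  · have h2 := Int.floor_le z.2
    have h3 := Int.lt_floor_add_one z.2
    show z.2 + ((-⌊z.2⌋ : ℤ) : ℝ) ∈ Set.Icc (0 : ℝ) 1
    rw [Int.cast_neg]
    exact ⟨by linarith, by linarith⟩

private theorem z1b_fderiv_per {Z : Type*} [NormedAddCommGroup Z] [NormedSpace ℝ Z]
    {g : E n × ℝ → Z}
    (hper : ∀ (z : E n × ℝ) (k : Fin n → ℤ) (m : ℤ), g (z + (zv k, (m : ℝ))) = g z)
    (z : E n × ℝ) (k : Fin n → ℤ) (m : ℤ) :
    fderiv ℝ g (z + (zv k, (m : ℝ))) = fderiv ℝ g z := by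
  have h1 : (fun y => g (y + (zv k, (m : ℝ)))) = g := funext fun y => hper y k m
  have h2 := fderiv_comp_add_right (𝕜 := ℝ) (f := g) (x := z) (zv k, (m : ℝ))
  rw [h1] at h2
  exact h2.symm

private theorem z1b_main {Z : Type*} [NormedAddCommGroup Z] [NormedSpace ℝ Z] {g : E n × ℝ → Z}
    (hg : ContDiff ℝ 2 g)
    (hper : ∀ (z : E n × ℝ) (k : Fin n → ℤ) (m : ℤ), g (z + (zv k, (m : ℝ))) = g z) :
    ∃ B₀ : ℝ, 0 ≤ B₀ ∧ (∀ x, ‖g x‖ ≤ B₀) ∧ (∀ x, ‖fderiv ℝ g x‖ ≤ B₀) ∧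
      ∀ x y, ‖fderiv ℝ g x - fderiv ℝ g y‖ ≤ B₀ * ‖x - y‖ := by
  have hg1 : ContDiff ℝ 1 (fderiv ℝ g) := hg.fderiv_right (by norm_num)
  obtain ⟨C₁, h₁⟩ := z1b_bounded hg.continuous hper
  obtain ⟨C₂, h₂⟩ := z1b_bounded hg1.continuous (z1b_fderiv_per hper)
  obtain ⟨C₃, h₃⟩ := z1b_bounded (hg1.continuous_fderiv (by norm_num))
    (z1b_fderiv_per (z1b_fderiv_per hper))
  have l1 : C₁ ≤ max (max C₁ C₂) C₃ := le_trans (le_max_left _ _) (le_max_left _ _)
  have l2 : C₂ ≤ max (max C₁ C₂) C₃ := le_trans (le_max_right _ _) (le_max_left _ _)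
  have l3 : C₃ ≤ max (max C₁ C₂) C₃ := le_max_right _ _
  refine ⟨max (max C₁ C₂) C₃, le_trans (norm_nonneg _) (le_trans (h₁ 0) l1),
    fun x => le_trans (h₁ x) l1, fun x => le_trans (h₂ x) l2, fun x y => ?_⟩
  have := (convex_univ (𝕜 := ℝ) (E := E n × ℝ)).norm_image_sub_le_of_norm_fderiv_le (𝕜 := ℝ)
    (f := fderiv ℝ g) (C := max (max C₁ C₂) C₃) (x := y) (y := x)
    (fun z _ => (hg1.differentiable (by norm_num)) z)
    (fun z _ => le_trans (h₃ z) l3) (Set.mem_univ _) (Set.mem_univ _)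
  exact this

private theorem z1b_pr (x : E n) (k : Fin n → ℤ) : pr (x + zv k) = pr x :=
  (pr_eq_iff _ _).2 ⟨k, rfl⟩

private theorem z1b_coe (t : ℝ) (m : ℤ) : ((t + m : ℝ) : UnitAddCircle) = (t : UnitAddCircle) := by
  have h : (((m : ℝ)) : UnitAddCircle) = 0 := (AddCircle.coe_eq_zero_iff 1).2 ⟨m, by simp⟩
  rw [AddCircle.coe_add, h, add_zero]

theorem HV2_of {V : E n → ℝ → ℝ} (hV : ContDiff ℝ 2 fun z : E n × ℝ => V z.1 z.2)
    (hper : ∀ (x y : E n) (s t : ℝ), pr x = pr y → (s : UnitAddCircle) = (t : UnitAddCircle) →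
      V x s = V y t) :
    ∃ B : ℝ, HV2 1 V (fun x t => gradient (fun y => V y t) x) (fun x t => deriv (fun s => V x s) t)
      B := by
  set g : E n × ℝ → ℝ := fun z : E n × ℝ => V z.1 z.2 with hg
  have hp : ∀ (z : E n × ℝ) (k : Fin n → ℤ) (m : ℤ), g (z + (zv k, (m : ℝ))) = g z :=
    fun z k m => hper _ _ _ _ (z1b_pr z.1 k) (z1b_coe z.2 m)
  obtain ⟨B₀, h0, h1, h2, h3⟩ := z1b_main hV hp
  have hd : ∀ z, HasFDerivAt g (fderiv ℝ g z) z := fun z =>
    (hV.differentiable (by norm_num) z).hasFDerivAt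
  have hgrad : ∀ x t, gradient (fun y => V y t) x =
      (InnerProductSpace.toDual ℝ (E n)).symm
        ((fderiv ℝ g (x, t)).comp (ContinuousLinearMap.inl ℝ (E n) ℝ)) := by
    intro x t
    have h : HasFDerivAt (fun y => V y t)
        ((fderiv ℝ g (x, t)).comp (ContinuousLinearMap.inl ℝ (E n) ℝ)) x :=
      HasFDerivAt.comp (f := fun y : E n => (y, t)) x (hd (x, t))
        (hasFDerivAt_prodMk_left (𝕜 := ℝ) x t)
    unfold gradient
    rw [h.fderiv]
  have hder : ∀ x t, deriv (fun s => V x s) t = fderiv ℝ g (x, t) (0, 1) := by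
    intro x t
    have h : HasFDerivAt (fun s => V x s)
        ((fderiv ℝ g (x, t)).comp (ContinuousLinearMap.inr ℝ (E n) ℝ)) t :=
      HasFDerivAt.comp (f := fun s : ℝ => (x, s)) t (hd (x, t))
        (hasFDerivAt_prodMk_right (𝕜 := ℝ) x t)
    rw [h.hasDerivAt.deriv]
    rfl
  have hinl : ∀ L : E n × ℝ →L[ℝ] ℝ,
      ‖L.comp (ContinuousLinearMap.inl ℝ (E n) ℝ)‖ ≤ ‖L‖ := by
    intro L
    refine ContinuousLinearMap.opNorm_le_bound _ (norm_nonneg _) fun v => ?_
    refine (L.le_opNorm _).trans ?_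
    simp
  refine ⟨B₀, h0, fun x t => ?_, ?_, fun x t k => ?_, fun x t => ?_, fun x t => ?_, fun x t => ?_,
    fun x t => ?_, fun x t x' t' => ?_⟩
  · have h4 : (innerSL ℝ (gradient (fun y => V y t) x)).comp (ContinuousLinearMap.fst ℝ (E n) ℝ) +
        (deriv (fun s => V x s) t) • ContinuousLinearMap.snd ℝ (E n) ℝ = fderiv ℝ g (x, t) := by
      ext ⟨v⟩
      · rw [hgrad, hder]
        simp
      · rw [hgrad, hder]
        simp
    show HasFDerivAt g _ (x, t)
    rw [h4]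
    exact hd (x, t)
  · have h6 : (fun z : E n × ℝ => deriv (fun s => V z.1 s) z.2) =
        fun z : E n × ℝ => fderiv ℝ g z (0, 1) := funext fun z => hder z.1 z.2
    rw [h6]
    exact ((hV.continuous_fderiv (by norm_num)).clm_apply continuous_const)
  · exact hper _ _ _ _ (z1b_pr x k) rfl
  · have := z1b_coe t 1
    rw [Int.cast_one] at this
    exact hper _ _ _ _ rfl this
  · have := h1 (x, t)
    rw [Real.norm_eq_abs] at this
    exact this
  · rw [hgrad, LinearIsometryEquiv.norm_map]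
    exact (hinl _).trans (h2 _)
  · rw [hder]
    have h5 := (fderiv ℝ g (x, t)).le_opNorm (0, 1)
    rw [Real.norm_eq_abs] at h5
    refine h5.trans ?_
    simp
    exact h2 _
  · rw [hgrad, hgrad, ← map_sub, LinearIsometryEquiv.norm_map, ← ContinuousLinearMap.sub_comp]
    refine (hinl _).trans ((h3 _ _).trans (mul_le_mul_of_nonneg_left ?_ h0))
    rw [Prod.mk_sub_mk, Prod.norm_mk, Real.norm_eq_abs]
    exact max_le (le_add_of_nonneg_right (abs_nonneg _)) (le_add_of_nonneg_left (norm_nonneg _))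

end Pool.Agent.H33.AN
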