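import Pool.Agent.H33.AN.Orb
import Pool.Agent.H33.AN.P.M5
import Pool.Agent.H33.AN.P.I3
import Pool.Agent.H33.AN.P.C1
import Pool.Agent.H33.AN.P.Z1a
import Pool.Agent.H33.AN.P.Z1b

/-!
# Module Z1: final assembly

* `HV2_of`: with `F x t = gradient (fun y => V y t) x`, `Vt x t = deriv (fun s => V x s) t`: the derivative of
  `z ↦ V z.1 z.2` at `(x, t)` is `⟪F x t, ·⟫ + Vt x t ·`; it is continuously differentiable and periodic, hence
  bounded and Lipschitz (mean value inequality; the derivative of `z ↦ F z.1 z.2` is bounded because it is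
  continuous and periodic). The norm of a product is the maximum of the norms.
* `HG_of`: `κ₁` = minimum of `⟪G v, v⟫` on the unit sphere (if `n = 0`: `1`), `κ₂ = ‖G‖ + 1`.
* `main2`: if `V x t ≠ V y t` for some `x`, `y`, `t` then `flat2_main` and `not_strict_of_flat2` give a
  contradiction. Otherwise `strict_int2`, `alpha_int2`, `peierls_int2`.
-/

set_option autoImplicit false

open MeasureTheory
open scoped RealInnerProductSpace

namespace Pool.Agent.H33.AN

open Pool.Agent.H33.AM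

variable {n : ℕ}

private theorem Z1c_surj {G : E n →L[ℝ] E n} {κ₁ κ₂ : ℝ} (hG : HG G κ₁ κ₂) (c : E n) :
    ∃ vc, G vc = c := by
  have hinj : Function.Injective (G : E n →ₗ[ℝ] E n) := by
    rw [injective_iff_map_eq_zero]
    intro v hv
    have h1 := hG.lo v
    have hv' : G v = 0 := hv
    rw [hv', inner_zero_left] at h1
    by_contra hne
    have h2 : 0 < ‖v‖ := norm_pos_iff.mpr hne
    have h3 := hG.pos
    have : 0 < κ₁ * ‖v‖ ^ 2 := by positivity
    linarith
  exact (LinearMap.injective_iff_surjective.mp hinj) c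

theorem main2 (G : E n →L[ℝ] E n) (hs : ∀ v w, ⟪G v, w⟫ = ⟪v, G w⟫)
    (hpos : ∀ v, v ≠ 0 → 0 < ⟪G v, v⟫) (V : E n → ℝ → ℝ)
    (hV : ContDiff ℝ 2 fun z : E n × ℝ => V z.1 z.2)
    (hper : ∀ (x y : E n) (s t : ℝ), pr x = pr y → (s : UnitAddCircle) = (t : UnitAddCircle) →
      V x s = V y t) :
    (StrictConvexOn ℝ Set.univ (alpha fun x v t => ⟪G v, v⟫ / 2 - V x t) ↔
      ∀ x y t, V x t = V y t) ∧
    (StrictConvexOn ℝ Set.univ (alpha fun x v t => ⟪G v, v⟫ / 2 - V x t) →
      ∀ c, aubry (fun x v t => ⟪G v, v⟫ / 2 - V x t) c = Set.univ) := by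
  obtain ⟨κ₁, κ₂, hG⟩ := HG_of hs hpos
  obtain ⟨B, hB⟩ := HV2_of hV hper
  have key : StrictConvexOn ℝ Set.univ (alpha (lag2 G V)) ↔ ∀ x y t, V x t = V y t := by
    constructor
    · intro hsc
      by_contra hne
      push Not at hne
      obtain ⟨x, y, t, hxy⟩ := hne
      exact not_strict_of_flat2 hG hB (flat2_main hG hB ⟨x, y, t, hxy⟩) hsc
    · intro hc
      exact strict_int2 hG hB hc
  refine ⟨key, fun hsc c => ?_⟩
  have hc := key.mp hsc
  obtain ⟨vc, hvc⟩ := Z1c_surj hG c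
  rw [Set.eq_univ_iff_forall]
  intro x
  exact peierls_int2 hG hB hc hvc (alpha_int2 hG hB hc hvc) x

end Pool.Agent.H33.AN
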