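import Pool.Agent.H33.AN.P.Z1a
import Pool.Agent.H33.AN.P.Z1b
import Pool.Agent.H33.AN.P.Z1c
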